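import Mathlib
import Pool.Agent.H906R3.YM.Adj

/-!
# Integrals over products of a compact group: independence, skew products, reflections
-/

open MeasureTheory Matrix
open scoped Matrix.Norms.Frobenius ContDiff
open Pool.Agent.H906R3.YM

namespace Pool.Agent.W793.YM

set_option linter.unusedSectionVars false
set_option linter.unusedVariables false

noncomputable section

section indep

variable {E : Type*} [Fintype E] [DecidableEq E] {G : Type*} [Group G] [TopologicalSpace G]
  [IsTopologicalGroup G] [CompactSpace G] [SecondCountableTopology G] [MeasurableSpace G]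
  [BorelSpace G] (μ : Measure G) [IsProbabilityMeasure μ]

/-- dependence only on the coordinates in `p` -/
def Dep {α : Type*} (p : E → Prop) (F : (E → G) → α) : Prop :=
  ∀ U U' : E → G, (∀ e, p e → U e = U' e) → F U = F U'

/-- extension by `1` -/
def ext1 (p : E → Prop) [DecidablePred p] (u : {e // p e} → G) : E → G :=
  fun e => if h : p e then u ⟨e, h⟩ else 1

lemma ext1_cont (p : E → Prop) [DecidablePred p] :
    Continuous (ext1 (G := G) p) := by
  refine continuous_pi fun e => ?_
  unfold ext1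
  by_cases h : p e
  · simp only [h, dif_pos]; exact continuous_apply _
  · simp only [h, dif_neg, not_false_eq_true]; exact continuous_const

lemma cont_integrable {X : Type*} [TopologicalSpace X] [CompactSpace X] [MeasurableSpace X]
    [OpensMeasurableSpace X] {ν : Measure X} [IsFiniteMeasure ν] {f : X → ℝ} (hf : Continuous f) :
    Integrable f ν :=
  hf.integrable_of_hasCompactSupport (HasCompactSupport.of_compactSpace _)

lemma integral_indep (p : E → Prop) {A B : (E → G) → ℝ}
    (hA : Dep p A) (hB : Dep (fun e => ¬p e) B) :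
    ∫ U, A U * B U ∂(ME μ E) = (∫ U, A U ∂(ME μ E)) * ∫ U, B U ∂(ME μ E) := by
  classical
  have he := measurePreserving_piEquivPiSubtypeProd (fun _ : E => μ) p
  obtain ⟨φ, hφ⟩ : ∃ φ, φ = MeasurableEquiv.piEquivPiSubtypeProd (fun _ : E => G) p := ⟨_, rfl⟩
  rw [← hφ] at he
  have hA' : ∀ U, A U = (fun u => A (ext1 p u)) (φ U).1 := by
    intro U
    refine hA _ _ fun e h => ?_
    rw [hφ]
    simp [ext1, h, MeasurableEquiv.piEquivPiSubtypeProd, Equiv.piEquivPiSubtypeProd]
  have hB' : ∀ U, B U = (fun u => B (ext1 (fun e => ¬p e) u)) (φ U).2 := by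
    intro U
    refine hB _ _ fun e h => ?_
    rw [hφ]
    simp [ext1, h, MeasurableEquiv.piEquivPiSubtypeProd, Equiv.piEquivPiSubtypeProd]
  have key : ∀ H : ({e // p e} → G) × ({e // ¬p e} → G) → ℝ,
      ∫ U, H (φ U) ∂(ME μ E) = ∫ z, H z ∂((Measure.pi fun _ => μ).prod (Measure.pi fun _ => μ)) :=
    fun H => he.integral_comp φ.measurableEmbedding H
  have h1 : ∫ U, A U * B U ∂(ME μ E) = ∫ U, (fun z : ({e // p e} → G) × ({e // ¬p e} → G) =>
      A (ext1 p z.1) * B (ext1 (fun e => ¬p e) z.2)) (φ U) ∂(ME μ E) := by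
    refine integral_congr_ae (Filter.Eventually.of_forall fun U => ?_)
    simp only
    rw [hA' U, hB' U]
  have h2 : ∫ U, A U ∂(ME μ E) = ∫ U, (fun z : ({e // p e} → G) × ({e // ¬p e} → G) =>
      A (ext1 p z.1)) (φ U) ∂(ME μ E) := by
    refine integral_congr_ae (Filter.Eventually.of_forall fun U => ?_)
    exact hA' U
  have h3 : ∫ U, B U ∂(ME μ E) = ∫ U, (fun z : ({e // p e} → G) × ({e // ¬p e} → G) =>
      B (ext1 (fun e => ¬p e) z.2)) (φ U) ∂(ME μ E) := by
    refine integral_congr_ae (Filter.Eventually.of_forall fun U => ?_)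
    exact hB' U
  rw [h1, h2, h3, key (fun z => A (ext1 p z.1) * B (ext1 (fun e => ¬p e) z.2)),
    key (fun z => A (ext1 p z.1)), key (fun z => B (ext1 (fun e => ¬p e) z.2))]
  have h4 := integral_prod_mul (μ := Measure.pi fun _ : {e // p e} => μ)
    (ν := Measure.pi fun _ : {e // ¬p e} => μ) (fun u => A (ext1 p u))
    (fun u => B (ext1 (fun e => ¬p e) u))
  have h5 := integral_prod_mul (μ := Measure.pi fun _ : {e // p e} => μ)
    (ν := Measure.pi fun _ : {e // ¬p e} => μ) (fun u => A (ext1 p u)) (fun _ => 1)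
  have h6 := integral_prod_mul (μ := Measure.pi fun _ : {e // p e} => μ)
    (ν := Measure.pi fun _ : {e // ¬p e} => μ) (fun _ => 1)
    (fun u => B (ext1 (fun e => ¬p e) u))
  simp only [mul_one, one_mul, integral_const, probReal_univ, smul_eq_mul] at h5 h6
  rw [h4, h5, h6]

/-- skew products preserve the product of the Haar measure -/
lemma integral_skew [μ.IsMulLeftInvariant] [μ.IsMulRightInvariant] (p : E → Prop)
    [DecidablePred p] {F : (E → G) → ℝ} (hF : Continuous F) {a b : E → (E → G) → G}
    (ha : ∀ e, Continuous (a e)) (hb : ∀ e, Continuous (b e))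
    (hda : ∀ e, Dep (fun e => ¬p e) (a e)) (hdb : ∀ e, Dep (fun e => ¬p e) (b e)) :
    ∫ U, F (fun e => if p e then a e U * U e * b e U else U e) ∂(ME μ E) =
      ∫ U, F U ∂(ME μ E) := by
  have he := measurePreserving_piEquivPiSubtypeProd (fun _ : E => μ) p
  obtain ⟨φ, hφ⟩ : ∃ φ, φ = MeasurableEquiv.piEquivPiSubtypeProd (fun _ : E => G) p := ⟨_, rfl⟩
  rw [← hφ] at he
  have hs : MeasurePreserving φ.symm ((Measure.pi fun _ => μ).prod (Measure.pi fun _ => μ))
      (ME μ E) := he.symm φ
  have key : ∀ H : (E → G) → ℝ,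
      ∫ U, H U ∂(ME μ E) = ∫ z, H (φ.symm z) ∂((Measure.pi fun _ => μ).prod
        (Measure.pi fun _ => μ)) :=
    fun H => (hs.integral_comp φ.symm.measurableEmbedding H).symm
  have hval : ∀ z e, φ.symm z e = if h : p e then z.1 ⟨e, h⟩ else z.2 ⟨e, h⟩ := by
    intro z e
    rw [hφ]; rfl
  have hcont : Continuous (fun U : E → G => F (fun e => if p e then a e U * U e * b e U else U e)) := by
    refine hF.comp (continuous_pi fun e => ?_)
    by_cases h : p e
    · simp only [h, if_true]
      exact ((ha e).mul (continuous_apply e)).mul (hb e)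
    · simp only [h, if_false]
      exact continuous_apply e
  rw [key, key F]
  have hi1 : Integrable (fun z => (fun U : E → G => F (fun e => if p e then a e U * U e * b e U
      else U e)) (φ.symm z)) ((Measure.pi fun _ => μ).prod (Measure.pi fun _ => μ)) :=
    (hs.integrable_comp_emb φ.symm.measurableEmbedding).2 (integrable_cont μ hcont)
  have hi2 : Integrable (fun z => F (φ.symm z))
      ((Measure.pi fun _ => μ).prod (Measure.pi fun _ => μ)) :=
    (hs.integrable_comp_emb φ.symm.measurableEmbedding).2 (integrable_cont μ hF)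
  rw [integral_prod_symm _ hi1, integral_prod_symm _ hi2]
  refine integral_congr_ae (Filter.Eventually.of_forall fun v => ?_)
  simp only
  have h1 : ∀ u : {e // p e} → G, (fun e => if p e then a e (φ.symm (u, v)) * φ.symm (u, v) e *
      b e (φ.symm (u, v)) else φ.symm (u, v) e) =
      φ.symm ((fun i : {e // p e} => a i (φ.symm (1, v))) * u *
        (fun i : {e // p e} => b i (φ.symm (1, v))), v) := by
    intro u
    funext e
    rw [hval (_, v) e]
    by_cases h : p e
    · simp only [h, if_true, dif_pos, Pi.mul_apply]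
      have e1 : a e (φ.symm (u, v)) = a e (φ.symm (1, v)) := hda e _ _ fun e' h' => by
        rw [hval, hval, dif_neg h', dif_neg h']
      have e2 : b e (φ.symm (u, v)) = b e (φ.symm (1, v)) := hdb e _ _ fun e' h' => by
        rw [hval, hval, dif_neg h', dif_neg h']
      rw [e1, e2, hval, dif_pos h]
      rfl
    · simp only [h, if_false, dif_neg, not_false_eq_true]
      rw [hval, dif_neg h]
  simp only [h1]
  have h2 := integral_mul_left_eq_self (μ := Measure.pi fun _ : {e // p e} => μ)
    (fun u => F (φ.symm (u * (fun i : {e // p e} => b i (φ.symm (1, v))), v)))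
    (fun i : {e // p e} => a i (φ.symm (1, v)))
  have h3 := integral_mul_right_eq_self (μ := Measure.pi fun _ : {e // p e} => μ)
    (fun u => F (φ.symm (u, v))) (fun i : {e // p e} => b i (φ.symm (1, v)))
  rw [← h3, ← h2]

end indep

section refl

/-- A reflection of a set of links: `R` are the links of one half, `th` is the reflection, `iv` the
links which are inverted, `J` the links of the first half which interact with their images. -/
structure Refl (E : Type*) where
  R : E → Prop
  th : E → E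
  iv : E → Prop
  th_th : ∀ e, th (th e) = e
  th_R : ∀ e, R e → ¬R (th e)
  iv_th : ∀ e, iv (th e) ↔ iv e
  J : Finset E
  J_R : ∀ e ∈ J, R e
  J_iv : ∀ e ∈ J, ¬iv e

variable {E : Type*} [Fintype E] [DecidableEq E] {G : Type*} [Group G] [TopologicalSpace G]
  [IsTopologicalGroup G] [CompactSpace G] [SecondCountableTopology G] [MeasurableSpace G]
  [BorelSpace G] (μ : Measure G) [IsProbabilityMeasure μ] [μ.IsMulLeftInvariant]
  [μ.IsMulRightInvariant] [μ.IsInvInvariant] {N n : ℕ} (L : LD G N n) (T : Refl E)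

open Classical in
/-- the reflection of configurations -/
def Refl.tU (T : Refl E) (U : E → G) : E → G := fun e => if T.iv e then (U (T.th e))⁻¹ else U (T.th e)

omit [Fintype E] [DecidableEq E] [TopologicalSpace G] [IsTopologicalGroup G] [CompactSpace G]
  [SecondCountableTopology G] [MeasurableSpace G] [BorelSpace G] in
lemma Refl.tU_tU (U : E → G) : T.tU (T.tU U) = U := by
  classical
  funext e
  unfold Refl.tU
  by_cases h : T.iv e
  · rw [if_pos h, if_pos ((T.iv_th e).2 h), inv_inv, T.th_th]
  · rw [if_neg h, if_neg (fun h' => h ((T.iv_th e).1 h')), T.th_th]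

lemma Refl.tU_cont : Continuous (T.tU (G := G)) := by
  classical
  refine continuous_pi fun e => ?_
  unfold Refl.tU
  by_cases h : T.iv e
  · simp only [h, if_true]; exact (continuous_apply _).inv
  · simp only [h, if_false]; exact continuous_apply _

/-- the reflection as an equivalence of the links -/
def Refl.eq (T : Refl E) : E ≃ E := ⟨T.th, T.th, T.th_th, T.th_th⟩

lemma Refl.mp : MeasurePreserving (T.tU (G := G)) (ME μ E) (ME μ E) := by
  classical
  have h1 := measurePreserving_piCongrLeft (fun _ : E => μ) T.eq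
  have h2 := measurePreserving_pi (fun _ : E => μ) (fun _ : E => μ)
    (f := fun e g => if T.iv e then g⁻¹ else g) (fun e => by
      by_cases h : T.iv e
      · simp only [h, if_true]
        exact Measure.measurePreserving_inv μ
      · simp only [h, if_false]
        exact MeasurePreserving.id μ)
  have h3 := h2.comp h1
  have h4 : ((fun (a : E → G) (i : E) => (fun e g => if T.iv e then g⁻¹ else g) i (a i)) ∘
      (MeasurableEquiv.piCongrLeft (fun _ : E => G) T.eq)) = T.tU := by
    funext U e
    have h5 : (MeasurableEquiv.piCongrLeft (fun _ : E => G) T.eq) U e = U (T.th e) := by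
      have h6 : e = T.eq (T.th e) := (T.th_th e).symm
      conv_lhs => rw [h6]
      exact Equiv.piCongrLeft_apply_apply (fun _ : E => G) T.eq U (T.th e)
    show (if T.iv e then ((MeasurableEquiv.piCongrLeft (fun _ : E => G) T.eq) U e)⁻¹ else
      (MeasurableEquiv.piCongrLeft (fun _ : E => G) T.eq) U e) = _
    rw [h5]
    unfold Refl.tU
    rfl
  rw [h4] at h3
  exact h3

lemma Refl.emb : MeasurableEmbedding (T.tU (G := G)) := by
  have hi : Function.Involutive (T.tU (G := G)) := T.tU_tU
  exact (MeasurableEquiv.ofInvolutive T.tU hi T.tU_cont.measurable).measurableEmbedding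

lemma Refl.integral (F : (E → G) → ℝ) : ∫ U, F (T.tU U) ∂(ME μ E) = ∫ U, F U ∂(ME μ E) :=
  (T.mp μ).integral_comp T.emb F

lemma Refl.dep {A : (E → G) → ℝ} (hA : Dep T.R A) : Dep (fun e => ¬T.R e) fun U => A (T.tU U) := by
  intro U U' h
  refine hA _ _ fun e he => ?_
  unfold Refl.tU
  rw [h _ (T.th_R e he)]

lemma Refl.sq {A : (E → G) → ℝ} (hA : Dep T.R A) :
    ∫ U, A U * A (T.tU U) ∂(ME μ E) = (∫ U, A U ∂(ME μ E)) ^ 2 := by
  rw [integral_indep μ T.R hA (T.dep hA), T.integral μ A, pow_two]

variable {L}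

/-- real coordinates of a matrix: the scalar product -/
lemma sum_co_mul (A B : Mat N) : ∑ c, co c A * co c B = (trace (A * Bᴴ)).re := by
  have h1 : ∀ c (M : Mat N), co c M = if c.2.2 then (M c.1 c.2.1).re else (M c.1 c.2.1).im :=
    fun c M => rfl
  simp only [h1]
  rw [Fintype.sum_prod_type]
  simp only [Fintype.sum_prod_type, Fintype.sum_bool, if_true, Bool.false_eq_true, if_false]
  rw [trace, Complex.re_sum]
  refine Finset.sum_congr rfl fun i _ => ?_
  rw [diag_apply, mul_apply, Complex.re_sum]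
  refine Finset.sum_congr rfl fun j _ => ?_
  rw [conjTranspose_apply]
  simp [Complex.mul_re]

variable (L) in
/-- the interaction of the two halves -/
def Refl.ker (T : Refl E) (U : E → G) : ℝ :=
  ∑ e ∈ T.J, (trace (L.rho (U e) * (L.rho (U (T.th e)))ᴴ)).re

lemma Refl.ker_cont : Continuous (T.ker L) := by
  unfold Refl.ker
  refine continuous_finsetSum _ fun e _ => ?_
  refine Complex.continuous_re.comp ?_
  refine Continuous.matrix_trace ?_
  exact (L.cont.comp (continuous_apply e)).mul (L.cont.comp (continuous_apply _)).matrix_conjTranspose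

lemma re_trace_symm (A B : Mat N) : (trace (A * Bᴴ)).re = (trace (B * Aᴴ)).re := by
  rw [← sum_co_mul, ← sum_co_mul]
  exact Finset.sum_congr rfl fun c _ => mul_comm _ _

lemma Refl.ker_tU (U : E → G) : T.ker L (T.tU U) = T.ker L U := by
  unfold Refl.ker
  refine Finset.sum_congr rfl fun e he => ?_
  have h1 : T.tU U e = U (T.th e) := by
    unfold Refl.tU; rw [if_neg (T.J_iv e he)]
  have h2 : T.tU U (T.th e) = U e := by
    unfold Refl.tU
    rw [if_neg (fun h => T.J_iv e he ((T.iv_th e).1 h)), T.th_th]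
  rw [h1, h2, re_trace_symm]

/-- index set of the coordinates -/
abbrev Ix (T : Refl E) (N : ℕ) := {e // e ∈ T.J} × (Fin N × Fin N × Bool)

variable (L) in
/-- coordinate functions -/
def Refl.vv (T : Refl E) (i : Ix T N) (U : E → G) : ℝ := co i.2 (L.rho (U i.1.1))

lemma Refl.ker_eq (U : E → G) : T.ker L U = ∑ i, T.vv L i U * T.vv L i (T.tU U) := by
  unfold Refl.ker Refl.vv
  rw [Fintype.sum_prod_type, ← Finset.sum_coe_sort]
  refine Finset.sum_congr rfl fun e _ => ?_
  have h1 : T.tU U e.1 = U (T.th e.1) := by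
    unfold Refl.tU; rw [if_neg (T.J_iv e.1 e.2)]
  simp only [h1]
  rw [sum_co_mul]

lemma Refl.vv_cont (i : Ix T N) : Continuous (T.vv L i) :=
  (co i.2).continuous.comp (L.cont.comp (continuous_apply _))

lemma Refl.pow_eq (k : ℕ) (U : E → G) : T.ker L U ^ k =
    ∑ w : Fin k → Ix T N, (∏ j, T.vv L (w j) U) * ∏ j, T.vv L (w j) (T.tU U) := by
  rw [T.ker_eq, ← Fin.prod_const, Finset.prod_univ_sum]
  simp only [Fintype.piFinset_univ, Finset.prod_mul_distrib]

lemma Refl.term_nonneg {f : (E → G) → ℝ} (hf : Continuous f) (hd : Dep T.R f) (k : ℕ) :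
    0 ≤ ∫ U, f U * f (T.tU U) * T.ker L U ^ k ∂(ME μ E) := by
  have h1 : ∀ U, f U * f (T.tU U) * T.ker L U ^ k =
      ∑ w : Fin k → Ix T N, (f U * ∏ j, T.vv L (w j) U) *
        (f (T.tU U) * ∏ j, T.vv L (w j) (T.tU U)) := by
    intro U
    rw [T.pow_eq, Finset.mul_sum]
    exact Finset.sum_congr rfl fun w _ => by ring
  simp only [h1]
  have hc : ∀ w : Fin k → Ix T N, Continuous fun U : E → G => f U * ∏ j, T.vv L (w j) U :=
    fun w => hf.mul (continuous_finsetProd _ fun j _ => T.vv_cont _)
  have hi : ∀ w ∈ (Finset.univ : Finset (Fin k → Ix T N)), Integrable (fun U : E → G =>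
      (f U * ∏ j, T.vv L (w j) U) * (f (T.tU U) * ∏ j, T.vv L (w j) (T.tU U))) (ME μ E) :=
    fun w _ => integrable_cont μ ((hc w).mul ((hc w).comp T.tU_cont))
  rw [integral_finsetSum _ hi]
  refine Finset.sum_nonneg fun w _ => ?_
  have hdw : Dep T.R fun U : E → G => f U * ∏ j, T.vv L (w j) U := by
    intro U U' h
    show f U * _ = f U' * _
    rw [hd U U' h]
    congr 1
    refine Finset.prod_congr rfl fun j _ => ?_
    unfold Refl.vv
    rw [h _ (T.J_R _ (w j).1.2)]
  rw [T.sq μ hdw]
  exact sq_nonneg _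

/-- **Reflection positivity.** -/
theorem Refl.pos {f : (E → G) → ℝ} (hf : Continuous f) (hd : Dep T.R f) {β : ℝ} (hβ : 0 ≤ β) :
    0 ≤ ∫ U, f U * f (T.tU U) * Real.exp (β * T.ker L U) ∂(ME μ E) := by
  obtain ⟨C, hC⟩ : ∃ C, ∀ U, |T.ker L U| ≤ C := by
    obtain ⟨C, hC⟩ := (isCompact_univ.image (T.ker_cont (L := L)).norm).bddAbove
    exact ⟨C, fun U => hC ⟨U, trivial, rfl⟩⟩
  obtain ⟨M, hM⟩ : ∃ M, ∀ U, |f U * f (T.tU U)| ≤ M := by
    obtain ⟨M, hM⟩ := (isCompact_univ.image (hf.mul (hf.comp T.tU_cont)).norm).bddAbove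
    exact ⟨M, fun U => hM ⟨U, trivial, rfl⟩⟩
  have hM0 : 0 ≤ M := (abs_nonneg _).trans (hM 1)
  have hC0 : 0 ≤ C := (abs_nonneg _).trans (hC 1)
  have hck : ∀ k : ℕ, Continuous fun U : E → G =>
      f U * f (T.tU U) * ((β * T.ker L U) ^ k / (k.factorial : ℝ)) := fun k =>
    (hf.mul (hf.comp T.tU_cont)).mul (((continuous_const.mul T.ker_cont).pow k).div_const _)
  have hsum : HasSum (fun k : ℕ => ∫ U, f U * f (T.tU U) *
      ((β * T.ker L U) ^ k / (k.factorial : ℝ)) ∂(ME μ E))
      (∫ U, ∑' k : ℕ, f U * f (T.tU U) * ((β * T.ker L U) ^ k / (k.factorial : ℝ)) ∂(ME μ E)) := by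
    refine hasSum_integral_of_summable_integral_norm (fun k => integrable_cont μ (hck k)) ?_
    have hs : Summable fun k : ℕ => M * ((β * C) ^ k / (k.factorial : ℝ)) :=
      (Real.summable_pow_div_factorial _).mul_left M
    refine Summable.of_nonneg_of_le (fun k => integral_nonneg fun U => norm_nonneg _)
      (fun k => ?_) hs
    have h1 : ∫ U, ‖f U * f (T.tU U) * ((β * T.ker L U) ^ k / (k.factorial : ℝ))‖ ∂(ME μ E) ≤
        ∫ U, M * ((β * C) ^ k / (k.factorial : ℝ)) ∂(ME μ E) := by
      refine integral_mono (integrable_cont μ (hck k).norm) (integrable_const _) fun U => ?_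
      simp only [norm_mul, norm_div, norm_pow, Real.norm_eq_abs]
      have e1 : |(k.factorial : ℝ)| = k.factorial := abs_of_nonneg (by positivity)
      rw [e1, abs_of_nonneg hβ]
      refine mul_le_mul ?_ ?_ (by positivity) hM0
      · rw [← abs_mul]; exact hM U
      · refine div_le_div_of_nonneg_right ?_ (by positivity)
        exact pow_le_pow_left₀ (by positivity) (mul_le_mul_of_nonneg_left (hC U) hβ) k
    simpa using h1
  have heq : ∀ U, ∑' k : ℕ, f U * f (T.tU U) * ((β * T.ker L U) ^ k / (k.factorial : ℝ)) =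
      f U * f (T.tU U) * Real.exp (β * T.ker L U) := by
    intro U
    rw [tsum_mul_left, Real.exp_eq_exp_ℝ, NormedSpace.exp_eq_tsum_div]
  simp only [heq] at hsum
  rw [← hsum.tsum_eq]
  refine tsum_nonneg fun k => ?_
  have h2 : ∀ U, f U * f (T.tU U) * ((β * T.ker L U) ^ k / (k.factorial : ℝ)) =
      (β ^ k / (k.factorial : ℝ)) * (f U * f (T.tU U) * T.ker L U ^ k) := by
    intro U; rw [mul_pow]; ring
  simp only [h2]
  rw [integral_const_mul]
  exact mul_nonneg (by positivity) (T.term_nonneg μ hf hd k)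

variable (L) in
/-- the form of reflection positivity -/
def Refl.B (T : Refl E) (β : ℝ) (f g : (E → G) → ℝ) : ℝ :=
  ∫ U, f U * g (T.tU U) * Real.exp (β * T.ker L U) ∂(ME μ E)

lemma Refl.B_symm (β : ℝ) (f g : (E → G) → ℝ) : T.B μ L β f g = T.B μ L β g f := by
  unfold Refl.B
  rw [← T.integral μ]
  refine integral_congr_ae (Filter.Eventually.of_forall fun U => ?_)
  simp only
  rw [T.tU_tU, T.ker_tU]; ring

lemma Refl.B_self {β : ℝ} (hβ : 0 ≤ β) {f : (E → G) → ℝ} (hf : Continuous f) (hd : Dep T.R f) :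
    0 ≤ T.B μ L β f f := T.pos μ hf hd hβ

lemma Refl.B_quad {β : ℝ} (hβ : 0 ≤ β) {f g : (E → G) → ℝ} (hf : Continuous f) (hd : Dep T.R f)
    (hg : Continuous g) (hdg : Dep T.R g) (t : ℝ) :
    0 ≤ T.B μ L β f f + 2 * t * T.B μ L β f g + t ^ 2 * T.B μ L β g g := by
  have h1 : Continuous fun U => f U + t * g U := hf.add (continuous_const.mul hg)
  have h2 : Dep T.R fun U => f U + t * g U := fun U U' h => by
    show f U + t * g U = f U' + t * g U'
    rw [hd U U' h, hdg U U' h]
  have h3 := T.B_self μ (L := L) hβ h1 h2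
  have hi : ∀ a b : (E → G) → ℝ, Continuous a → Continuous b →
      Integrable (fun U => a U * b (T.tU U) * Real.exp (β * T.ker L U)) (ME μ E) := fun a b ha hb =>
    integrable_cont μ ((ha.mul (hb.comp T.tU_cont)).mul
      (Real.continuous_exp.comp (continuous_const.mul T.ker_cont)))
  have hlin : ∀ h : (E → G) → ℝ, Continuous h → T.B μ L β (fun U => f U + t * g U) h =
      T.B μ L β f h + t * T.B μ L β g h := by
    intro h hh
    unfold Refl.B
    rw [← integral_const_mul, ← integral_add (hi _ _ hf hh) ((hi _ _ hg hh).const_mul t)]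
    refine integral_congr_ae (Filter.Eventually.of_forall fun U => ?_)
    simp only
    ring
  have h4 : T.B μ L β (fun U => f U + t * g U) (fun U => f U + t * g U) =
      T.B μ L β f f + t * T.B μ L β f g + t * T.B μ L β g f + t ^ 2 * T.B μ L β g g := by
    rw [hlin _ h1, T.B_symm μ β f, T.B_symm μ β g, hlin _ hf, hlin _ hg, T.B_symm μ β g f,
      T.B_symm μ β f g]
    ring
  rw [h4, T.B_symm μ β g f] at h3
  linarith

/-- Cauchy-Schwarz inequality. -/
lemma Refl.B_cs {β : ℝ} (hβ : 0 ≤ β) {f g : (E → G) → ℝ} (hf : Continuous f) (hd : Dep T.R f)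
    (hg : Continuous g) (hdg : Dep T.R g) :
    T.B μ L β f g ^ 2 ≤ T.B μ L β f f * T.B μ L β g g :=
  Pool.Agent.H906R3.YM.sq_le_of_forall fun t => T.B_quad μ hβ hf hd hg hdg t

end refl

end

end Pool.Agent.W793.YM
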