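import Mathlib
import Pool.Agent.W793.YM.Meas
import Pool.Agent.H906R3.YM.Phi

/-!
# Domination: exponential moments of the interaction of the two halves
-/

open MeasureTheory Matrix
open scoped Matrix.Norms.Frobenius ContDiff
open Pool.Agent.H906R3.YM

namespace Pool.Agent.W793.YM

set_option linter.unusedSectionVars false
set_option linter.unusedVariables false

noncomputable section

section basic

variable {E : Type*} [DecidableEq E] {G : Type*} [Group G]

lemma ms_ne {e e' : E} (h : e' ≠ e) (g : G) (U : E → G) :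
    (Pi.mulSingle e g * U : E → G) e' = U e' := by
  rw [Pi.mul_apply, Pi.mulSingle_eq_of_ne h, one_mul]

lemma ms_same (e : E) (g : G) (U : E → G) : (Pi.mulSingle e g * U : E → G) e = g * U e := by
  rw [Pi.mul_apply, Pi.mulSingle_eq_same]

variable (T : Refl E)

lemma th_inj {e e' : E} (h : T.th e = T.th e') : e = e' := by
  rw [← T.th_th e, h, T.th_th]

lemma Refl.tU_ms {e : E} (he : e ∈ T.J) (g : G) (U : E → G) :
    T.tU (Pi.mulSingle (T.th e) g * U) = Pi.mulSingle e g * T.tU U := by
  classical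
  funext e'
  have hne : ¬T.iv e := T.J_iv e he
  unfold Refl.tU
  by_cases h : e' = e
  · subst h
    rw [if_neg hne, ms_same, Pi.mul_apply, Pi.mulSingle_eq_same, if_neg hne]
  · have h' : T.th e' ≠ T.th e := fun hh => h (by rw [← T.th_th e', hh, T.th_th])
    rw [ms_ne h', Pi.mul_apply, Pi.mulSingle_eq_of_ne h, one_mul]

lemma Refl.tU_ms' {e : E} (he : e ∈ T.J) (g : G) (U : E → G) :
    T.tU (Pi.mulSingle e g * U) = Pi.mulSingle (T.th e) g * T.tU U := by
  have h := T.tU_ms he g (T.tU U)
  rw [T.tU_tU] at h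
  rw [← h, T.tU_tU]

lemma Refl.ne_th {e e' : E} (h' : T.R e') (h : T.R e) : e' ≠ T.th e := by
  intro hh
  rw [hh] at h'
  exact T.th_R e h h'

/-- the matrix of the interaction of `e` and its image -/
def Refl.W (T : Refl E) (U : E → G) (e : E) : G := U e * (U (T.th e))⁻¹

end basic

variable {E : Type*} [Fintype E] [DecidableEq E] {G : Type*} [Group G] [TopologicalSpace G]
  [IsTopologicalGroup G] [CompactSpace G] [SecondCountableTopology G] [MeasurableSpace G]
  [BorelSpace G] (μ : Measure G) [IsProbabilityMeasure μ] [μ.IsMulLeftInvariant]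
  [μ.IsMulRightInvariant] [μ.IsInvInvariant] {N n : ℕ} (L : LD G N n) (T : Refl E)

variable {L}

lemma rho_W (U : E → G) (e : E) :
    L.rho (T.W U e) = L.rho (U e) * (L.rho (U (T.th e)))ᴴ := by
  unfold Refl.W
  rw [map_mul, L.rho_inv]

lemma ker_eqW (U : E → G) : T.ker L U = ∑ e ∈ T.J, (trace (L.rho (T.W U e))).re := by
  unfold Refl.ker
  exact Finset.sum_congr rfl fun e _ => by rw [rho_W]

lemma ker_ms {e : E} (he : e ∈ T.J) (g : G) (U : E → G) :
    T.ker L (Pi.mulSingle (T.th e) g⁻¹ * U) =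
      T.ker L U + ((trace (L.rho (T.W U e * g))).re - (trace (L.rho (T.W U e))).re) := by
  rw [ker_eqW, ker_eqW, ← Finset.add_sum_erase _ _ he, ← Finset.add_sum_erase T.J _ he]
  have h1 : T.W (Pi.mulSingle (T.th e) g⁻¹ * U) e = T.W U e * g := by
    unfold Refl.W
    have h2 : e ≠ T.th e := fun h => T.th_R e (T.J_R e he) (h ▸ T.J_R e he)
    rw [ms_ne h2, ms_same]
    group
  have h3 : ∑ x ∈ T.J.erase e, (trace (L.rho (T.W (Pi.mulSingle (T.th e) g⁻¹ * U) x))).re =
      ∑ x ∈ T.J.erase e, (trace (L.rho (T.W U x))).re := by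
    refine Finset.sum_congr rfl fun x hx => ?_
    have hx1 := Finset.mem_erase.1 hx
    unfold Refl.W
    have h4 : x ≠ T.th e := fun h => T.th_R e (T.J_R e he) (h ▸ T.J_R x hx1.2)
    have h5 : T.th x ≠ T.th e := fun h => hx1.1 (th_inj T h)
    rw [ms_ne h4, ms_ne h5]
  rw [h1, h3]; ring

lemma trace_conj (g W : G) : (trace (L.rho (g * W * g⁻¹))).re = (trace (L.rho W)).re := by
  rw [map_mul, map_mul, trace_mul_comm, ← mul_assoc, ← map_mul, inv_mul_cancel, map_one, one_mul]

lemma ker_ms2 {e : E} (he : e ∈ T.J) (g : G) (U : E → G) :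
    T.ker L (Pi.mulSingle e g * (Pi.mulSingle (T.th e) g * U)) = T.ker L U := by
  rw [ker_eqW, ker_eqW]
  refine Finset.sum_congr rfl fun x hx => ?_
  have h2 : e ≠ T.th e := fun h => T.th_R e (T.J_R e he) (h ▸ T.J_R e he)
  by_cases hxe : x = e
  · subst hxe
    have h1 : T.W (Pi.mulSingle x g * (Pi.mulSingle (T.th x) g * U)) x =
        g * T.W U x * g⁻¹ := by
      unfold Refl.W
      rw [ms_same, ms_ne h2, ms_ne h2.symm, ms_same]
      group
    rw [h1, trace_conj]
  · have h4 : x ≠ T.th e := fun h => T.th_R e (T.J_R e he) (h ▸ T.J_R x hx)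
    have h5 : T.th x ≠ T.th e := fun h => hxe (th_inj T h)
    have h6 : T.th x ≠ e := fun h => T.th_R x (T.J_R x hx) (h ▸ T.J_R e he)
    unfold Refl.W
    rw [ms_ne hxe, ms_ne h4, ms_ne h6, ms_ne h5]

/-- the weighted integral -/
def Refl.Ew (L : LD G N n) (T : Refl E) (β : ℝ) (w F : (E → G) → ℝ) : ℝ :=
  ∫ U, F U * (w U * w (T.tU U) * Real.exp (β * T.ker L U)) ∂(ME μ E)

lemma Refl.wt_cont {β : ℝ} {w : (E → G) → ℝ} (hw : Continuous w) :
    Continuous fun U => w U * w (T.tU U) * Real.exp (β * T.ker L U) :=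
  (hw.mul (hw.comp T.tU_cont)).mul (Real.continuous_exp.comp (continuous_const.mul T.ker_cont))

lemma cont_W (e : E) : Continuous fun U : E → G => T.W U e := by
  unfold Refl.W
  exact (continuous_apply e).mul (continuous_apply _).inv

lemma cont_retr : Continuous fun g : G => (trace (L.rho g)).re :=
  Complex.continuous_re.comp (Continuous.matrix_trace L.cont)

theorem Refl.dom {β : ℝ} (hβ : 0 ≤ β) {w : (E → G) → ℝ} (hw : Continuous w) (hd : Dep T.R w)
    {e : E} (he : e ∈ T.J) (g : G) :
    T.Ew μ L β w (fun U => Real.exp (β * ((trace (L.rho (T.W U e * g))).re -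
      (trace (L.rho (T.W U e))).re))) ≤ T.Ew μ L β w (fun _ => 1) := by
  have hms : ∀ (e' : E) (g' : G), Continuous fun U : E → G => Pi.mulSingle e' g' * U := fun e' g' =>
    continuous_const.mul continuous_id
  obtain ⟨f, hf⟩ : ∃ f : (E → G) → ℝ, f = fun U => w (Pi.mulSingle e g * U) := ⟨_, rfl⟩
  have hfc : Continuous f := by rw [hf]; exact hw.comp (hms e g)
  have hfd : Dep T.R f := by
    intro U U' h
    rw [hf]
    refine hd _ _ fun e' he' => ?_
    rw [Pi.mul_apply, Pi.mul_apply, h e' he']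
  have h1 := T.B_quad μ (L := L) hβ hw hd hfc hfd (-1)
  -- `B (w, f)`
  have h2 : T.B μ L β w f = T.Ew μ L β w (fun U => Real.exp (β * ((trace (L.rho (T.W U e * g))).re -
      (trace (L.rho (T.W U e))).re))) := by
    unfold Refl.B Refl.Ew
    have h3 := integral_mul_left_eq_self (μ := ME μ E)
      (fun U => w U * f (T.tU U) * Real.exp (β * T.ker L U)) (Pi.mulSingle (T.th e) g⁻¹)
    rw [← h3]
    refine integral_congr_ae (Filter.Eventually.of_forall fun U => ?_)
    simp only
    rw [ker_ms T he, T.tU_ms he, hf]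
    have e1 : w (Pi.mulSingle (T.th e) g⁻¹ * U) = w U := hd _ _ fun e' he' =>
      ms_ne (T.ne_th he' (T.J_R e he)) _ _
    have e2 : Pi.mulSingle e g * (Pi.mulSingle e g⁻¹ * T.tU U) = T.tU U := by
      rw [← mul_assoc, ← Pi.mulSingle_mul, mul_inv_cancel, Pi.mulSingle_one, one_mul]
    simp only
    rw [e1, e2, mul_add, Real.exp_add]; ring
  have h4 : T.B μ L β f f = T.B μ L β w w := by
    unfold Refl.B
    have h3 := integral_mul_left_eq_self (μ := ME μ E)
      (fun U => f U * f (T.tU U) * Real.exp (β * T.ker L U))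
      (Pi.mulSingle e g⁻¹ * Pi.mulSingle (T.th e) g⁻¹)
    rw [← h3]
    refine integral_congr_ae (Filter.Eventually.of_forall fun U => ?_)
    simp only
    rw [mul_assoc (Pi.mulSingle e g⁻¹ : E → G), ker_ms2 T he, hf]
    simp only
    rw [T.tU_ms' he, T.tU_ms he]
    have e1 : w (Pi.mulSingle e g * (Pi.mulSingle e g⁻¹ * (Pi.mulSingle (T.th e) g⁻¹ * U))) =
        w U := by
      rw [← mul_assoc (Pi.mulSingle e g : E → G), ← Pi.mulSingle_mul, mul_inv_cancel, Pi.mulSingle_one,
        one_mul]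
      exact hd _ _ fun e' he' => ms_ne (T.ne_th he' (T.J_R e he)) _ _
    have e2 : w (Pi.mulSingle e g * (Pi.mulSingle (T.th e) g⁻¹ *
        (Pi.mulSingle e g⁻¹ * T.tU U))) = w (T.tU U) := by
      refine hd _ _ fun e' he' => ?_
      have h5 : e' ≠ T.th e := T.ne_th he' (T.J_R e he)
      by_cases h6 : e' = e
      · subst h6
        rw [ms_same, ms_ne h5, ms_same, mul_inv_cancel_left]
      · rw [ms_ne h6, ms_ne h5, ms_ne h6]
    rw [e1, e2]
  have h5 : T.B μ L β w w = T.Ew μ L β w (fun _ => 1) := by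
    unfold Refl.B Refl.Ew
    simp only [one_mul]
  rw [h4, h2, h5] at h1
  linarith

/-- the normalisation of the one matrix model -/
def zz (L : LD G N n) (β : ℝ) : ℝ := ∫ g, Real.exp (-(β * we L g)) ∂μ

lemma we_cont : Continuous (we L) := by
  unfold we
  exact Complex.continuous_re.comp (Continuous.matrix_trace (continuous_const.sub L.cont))

lemma we_tr (g : G) : we L g = N - (trace (L.rho g)).re := by
  unfold we
  rw [trace_sub, trace_one]
  simp

theorem Refl.expm {β : ℝ} (hβ : 0 ≤ β) {w : (E → G) → ℝ} (hw : Continuous w) (hd : Dep T.R w)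
    (hw0 : ∀ U, 0 ≤ w U) {e : E} (he : e ∈ T.J) :
    zz μ L β * T.Ew μ L β w (fun U => Real.exp (β * we L (T.W U e))) ≤
      T.Ew μ L β w (fun _ => 1) := by
  have hWc := cont_W (G := G) T e
  have h1 : ∀ g, T.Ew μ L β w (fun U => Real.exp (β * ((trace (L.rho (T.W U e * g))).re -
      (trace (L.rho (T.W U e))).re))) ≤ T.Ew μ L β w (fun _ => 1) := T.dom μ hβ hw hd he
  have hcont : Continuous fun z : G × (E → G) => Real.exp (β * ((trace (L.rho (T.W z.2 e * z.1))).re -
      (trace (L.rho (T.W z.2 e))).re)) * (w z.2 * w (T.tU z.2) * Real.exp (β * T.ker L z.2)) := by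
    refine Continuous.mul ?_ ((T.wt_cont hw).comp continuous_snd)
    refine Real.continuous_exp.comp (continuous_const.mul (Continuous.sub ?_ ?_))
    · exact cont_retr.comp ((hWc.comp continuous_snd).mul continuous_fst)
    · exact cont_retr.comp (hWc.comp continuous_snd)
  have hint : Integrable (fun z : G × (E → G) => Real.exp (β * ((trace (L.rho (T.W z.2 e * z.1))).re -
      (trace (L.rho (T.W z.2 e))).re)) * (w z.2 * w (T.tU z.2) * Real.exp (β * T.ker L z.2)))
      (μ.prod (ME μ E)) := cont_integrable hcont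
  have h2 : ∫ g, T.Ew μ L β w (fun U => Real.exp (β * ((trace (L.rho (T.W U e * g))).re -
      (trace (L.rho (T.W U e))).re))) ∂μ ≤ ∫ g, T.Ew μ L β w (fun _ => 1) ∂μ :=
    integral_mono hint.integral_prod_left (integrable_const _) h1
  rw [integral_const, probReal_univ, one_smul] at h2
  refine le_trans (le_of_eq ?_) h2
  unfold Refl.Ew
  rw [integral_integral_swap hint, ← integral_const_mul]
  refine integral_congr_ae (Filter.Eventually.of_forall fun U => ?_)
  simp only
  rw [integral_mul_const]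
  have h3 : ∀ g, Real.exp (β * ((trace (L.rho (T.W U e * g))).re -
      (trace (L.rho (T.W U e))).re)) = Real.exp (β * we L (T.W U e)) *
      Real.exp (-(β * we L (T.W U e * g))) := by
    intro g
    rw [← Real.exp_add, we_tr, we_tr]
    congr 1; ring
  simp only [h3]
  rw [integral_const_mul]
  have h4 := integral_mul_left_eq_self (μ := μ) (fun g => Real.exp (-(β * we L g))) (T.W U e)
  rw [h4]
  unfold zz
  ring

end

end Pool.Agent.W793.YM
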