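import Mathlib
import Pool.Agent.W793.YM.Dom

/-!
# Moments of one plaquette
-/

open MeasureTheory Matrix
open scoped Matrix.Norms.Frobenius ContDiff
open Pool.Agent.H906R3.YM

namespace Pool.Agent.W793.YM

set_option linter.unusedSectionVars false
set_option linter.unusedVariables false

noncomputable section

variable {G : Type*} [Group G] [TopologicalSpace G]
  [IsTopologicalGroup G] [CompactSpace G] [SecondCountableTopology G] [MeasurableSpace G]
  [BorelSpace G] (μ : Measure G) [IsProbabilityMeasure μ] [μ.IsMulLeftInvariant]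
  [μ.IsMulRightInvariant] [μ.IsInvInvariant] {N n : ℕ} (L : LD G N n)

variable {L}

lemma we_sub (g0 g : G) : we L (g0⁻¹ * g) =
    1 / 2 * ∑ c, (co c (L.rho g0) - co c (L.rho g)) ^ 2 := by
  rw [we_eq]
  congr 1
  have h1 : ∑ c, (co c (L.rho g0) - co c (L.rho g)) ^ 2 = ∑ c, co c (L.rho g0 - L.rho g) ^ 2 :=
    Finset.sum_congr rfl fun c _ => by rw [map_sub]
  rw [h1, sum_co_sq]
  have h2 : 1 - L.rho (g0⁻¹ * g) = (L.rho g0)ᴴ * (L.rho g0 - L.rho g) := by
    rw [map_mul, L.rho_inv, mul_sub, L.unit']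
  rw [h2, conjTranspose_mul, conjTranspose_conjTranspose, mul_assoc,
    ← mul_assoc (L.rho g0) (L.rho g0)ᴴ, L.unit, one_mul]

lemma co_le (c : Fin N × Fin N × Bool) (g : G) : |co c (L.rho g)| ≤ N := by
  have h1 := sum_co_sq (L.rho g)
  have h2 : (trace ((L.rho g)ᴴ * L.rho g)).re = N := by
    rw [L.unit', trace_one]; simp
  rw [h2] at h1
  have h3 : co c (L.rho g) ^ 2 ≤ N := by
    rw [← h1]
    exact Finset.single_le_sum (f := fun c => co c (L.rho g) ^ 2) (fun _ _ => sq_nonneg _)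
      (Finset.mem_univ c)
  have hN : (1 : ℝ) ≤ N := by
    have : 0 < N := by
      rcases Nat.eq_zero_or_pos N with h | h
      · subst h; exact c.1.elim0
      · exact h
    exact_mod_cast this
  have h4 : co c (L.rho g) ^ 2 ≤ (N : ℝ) ^ 2 := by nlinarith
  exact abs_le_of_sq_le_sq h4 (by linarith)

theorem zz_lower : ∃ c : ℝ, 0 < c ∧ ∀ b : ℝ, 1 ≤ b → c ≤ zz μ L (b ^ 4) * b ^ (4 * N ^ 2) := by
  obtain ⟨c, hc⟩ : ∃ c : ℝ, c = Real.exp (-(N : ℝ) ^ 2) / (5 * (N + 1)) ^ (2 * N ^ 2) := ⟨_, rfl⟩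
  have hc0 : 0 < c := by rw [hc]; positivity
  refine ⟨c, hc0, fun b hb => ?_⟩
  obtain ⟨M, hM⟩ : ∃ M : ℕ, M = ⌈b ^ 2⌉₊ := ⟨_, rfl⟩
  have hb2 : (1 : ℝ) ≤ b ^ 2 := one_le_pow₀ hb
  have hM1 : b ^ 2 ≤ M := by rw [hM]; exact Nat.le_ceil _
  have hM2 : (M : ℝ) ≤ 2 * b ^ 2 := by
    rw [hM]
    have := Nat.ceil_lt_add_one (by positivity : (0:ℝ) ≤ b ^ 2)
    linarith
  have hM0 : (0 : ℝ) < M := by linarith
  obtain ⟨K, hK⟩ : ∃ K : G → (Fin N × Fin N × Bool → ℕ),
    K = fun g c => ⌊(M : ℝ) * (co c (L.rho g) + N)⌋₊ := ⟨_, rfl⟩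
  have hKm : Measurable K := by
    rw [hK]
    refine measurable_pi_iff.2 fun c => ?_
    refine Nat.measurable_floor.comp ?_
    exact (continuous_const.mul (((co c).continuous.comp L.cont).add continuous_const)).measurable
  obtain ⟨S, hS⟩ : ∃ S : Finset (Fin N × Fin N × Bool → ℕ),
    S = Fintype.piFinset fun _ => Finset.range (2 * M * N + 1) := ⟨_, rfl⟩
  have hKS : ∀ g, K g ∈ S := by
    intro g
    rw [hS, Fintype.mem_piFinset]
    intro c
    rw [Finset.mem_range, hK, Nat.lt_succ_iff]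
    refine Nat.floor_le_of_le ?_
    have h1 := (abs_le.1 (co_le (L := L) c g)).2
    push_cast
    nlinarith
  have hcard : (S.card : ℝ) ≤ ((5 * (N + 1)) * b ^ 2) ^ (2 * N ^ 2) := by
    rw [hS, Fintype.card_piFinset]
    simp only [Finset.card_range, Finset.prod_const, Finset.card_univ, Fintype.card_prod,
      Fintype.card_fin, Fintype.card_bool]
    have h1 : N * (N * 2) = 2 * N ^ 2 := by ring
    rw [h1]
    push_cast
    refine pow_le_pow_left₀ (by positivity) ?_ _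
    have : (0:ℝ) ≤ N := Nat.cast_nonneg N
    nlinarith
  have hS0 : (0 : ℝ) < S.card := by
    have : 0 < S.card := Finset.card_pos.2 ⟨_, hKS 1⟩
    exact_mod_cast this
  obtain ⟨κ, hκS, hκ⟩ : ∃ κ ∈ S, 1 / (S.card : ℝ) ≤ μ.real (K ⁻¹' {κ}) := by
    by_contra hcon
    push Not at hcon
    have h1 : (1 : ℝ) ≤ ∑ κ ∈ S, μ.real (K ⁻¹' {κ}) := by
      have h2 : (Set.univ : Set G) ⊆ ⋃ κ ∈ S, K ⁻¹' {κ} := by
        intro g _
        simp only [Set.mem_iUnion]
        exact ⟨K g, hKS g, rfl⟩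
      have h3 := measureReal_mono (μ := μ) h2 (measure_ne_top _ _)
      rw [probReal_univ] at h3
      exact h3.trans (measureReal_biUnion_finset_le _ _)
    have h4 : ∑ κ ∈ S, μ.real (K ⁻¹' {κ}) < ∑ κ ∈ S, 1 / (S.card : ℝ) :=
      Finset.sum_lt_sum_of_nonempty ⟨_, hKS 1⟩ fun κ hκ => hcon κ hκ
    rw [Finset.sum_const, nsmul_eq_mul, mul_one_div_cancel hS0.ne'] at h4
    linarith
  have hpos : 0 < μ.real (K ⁻¹' {κ}) := lt_of_lt_of_le (by positivity) hκ
  obtain ⟨g0, hg0⟩ : (K ⁻¹' {κ}).Nonempty := by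
    by_contra hne
    rw [Set.not_nonempty_iff_eq_empty] at hne
    rw [hne] at hpos
    simp at hpos
  have hwe : ∀ g ∈ K ⁻¹' {κ}, we L (g0⁻¹ * g) ≤ (N : ℝ) ^ 2 / (M : ℝ) ^ 2 := by
    intro g hg
    rw [we_sub]
    have h1 : ∀ c, (co c (L.rho g0) - co c (L.rho g)) ^ 2 ≤ 1 / (M : ℝ) ^ 2 := by
      intro c
      have h2 : K g0 c = K g c := by
        have e1 : K g0 = κ := hg0
        have e2 : K g = κ := hg
        rw [e1, e2]
      rw [hK] at h2
      simp only at h2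
      have hnn : ∀ g' : G, 0 ≤ (M : ℝ) * (co c (L.rho g') + N) := fun g' => by
        have := (abs_le.1 (co_le (L := L) c g')).1
        exact mul_nonneg hM0.le (by linarith)
      have h3 := Nat.floor_le (hnn g0)
      have h4 := Nat.lt_floor_add_one ((M : ℝ) * (co c (L.rho g0) + N))
      have h5 := Nat.floor_le (hnn g)
      have h6 := Nat.lt_floor_add_one ((M : ℝ) * (co c (L.rho g) + N))
      rw [h2] at h3 h4
      have h7 : |(M : ℝ) * (co c (L.rho g0) - co c (L.rho g))| ≤ 1 := by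
        rw [abs_le]; constructor <;> nlinarith
      have h8 : ((M : ℝ) * (co c (L.rho g0) - co c (L.rho g))) ^ 2 ≤ 1 := by
        rw [← sq_abs]
        have := abs_nonneg ((M : ℝ) * (co c (L.rho g0) - co c (L.rho g)))
        nlinarith
      rw [le_div_iff₀ (by positivity)]
      nlinarith
    have h9 : ∑ c, (co c (L.rho g0) - co c (L.rho g)) ^ 2 ≤
        ∑ c : Fin N × Fin N × Bool, 1 / (M : ℝ) ^ 2 := Finset.sum_le_sum fun c _ => h1 c
    rw [Finset.sum_const, nsmul_eq_mul, Finset.card_univ] at h9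
    simp only [Fintype.card_prod, Fintype.card_fin, Fintype.card_bool] at h9
    push_cast at h9
    have h10 : (N : ℝ) * (N * 2) * (1 / (M : ℝ) ^ 2) = 2 * ((N : ℝ) ^ 2 / (M : ℝ) ^ 2) := by
      field_simp
    rw [h10] at h9
    linarith
  have h1 : zz μ L (b ^ 4) = ∫ g, Real.exp (-(b ^ 4 * we L (g0⁻¹ * g))) ∂μ := by
    unfold zz
    exact (integral_mul_left_eq_self (μ := μ) (fun g => Real.exp (-(b ^ 4 * we L g))) g0⁻¹).symm
  have hcont : Continuous fun g => Real.exp (-(b ^ 4 * we L (g0⁻¹ * g))) := by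
    refine Real.continuous_exp.comp (continuous_const.mul ?_).neg
    exact we_cont.comp (continuous_const.mul continuous_id)
  have hmeas : MeasurableSet (K ⁻¹' {κ}) := hKm (measurableSet_singleton _)
  have h2 : μ.real (K ⁻¹' {κ}) * Real.exp (-(N : ℝ) ^ 2) ≤ zz μ L (b ^ 4) := by
    rw [h1]
    have h3 : ∫ g in K ⁻¹' {κ}, Real.exp (-(N : ℝ) ^ 2) ∂μ ≤
        ∫ g in K ⁻¹' {κ}, Real.exp (-(b ^ 4 * we L (g0⁻¹ * g))) ∂μ := by
      refine setIntegral_mono_on (integrable_const _).integrableOn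
        (cont_integrable hcont).integrableOn hmeas fun g hg => ?_
      refine Real.exp_le_exp.2 (neg_le_neg ?_)
      have h4 := mul_le_mul_of_nonneg_left (hwe g hg) (by positivity : (0:ℝ) ≤ b ^ 4)
      refine h4.trans ?_
      rw [mul_div_assoc', div_le_iff₀ (by positivity)]
      have h5 : b ^ 4 ≤ (M : ℝ) ^ 2 := by
        have : b ^ 4 = (b ^ 2) ^ 2 := by ring
        rw [this]
        exact pow_le_pow_left₀ (by positivity) hM1 2
      have h6 : (0 : ℝ) ≤ (N : ℝ) ^ 2 := by positivity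
      nlinarith
    rw [setIntegral_const, smul_eq_mul] at h3
    refine h3.trans ?_
    exact setIntegral_le_integral (cont_integrable hcont)
      (Filter.Eventually.of_forall fun g => (Real.exp_pos _).le)
  have h3 : Real.exp (-(N : ℝ) ^ 2) / ((5 * (N + 1)) * b ^ 2) ^ (2 * N ^ 2) ≤ zz μ L (b ^ 4) := by
    refine le_trans ?_ h2
    rw [div_eq_mul_inv, mul_comm]
    refine mul_le_mul_of_nonneg_right ?_ (Real.exp_pos _).le
    refine le_trans ?_ hκ
    rw [one_div]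
    exact inv_anti₀ hS0 hcard
  have h4 : b ^ (4 * N ^ 2) = (b ^ 2) ^ (2 * N ^ 2) := by rw [← pow_mul]; congr 1; ring
  rw [h4, hc]
  have h5 : (0:ℝ) < (b ^ 2) ^ (2 * N ^ 2) := by positivity
  rw [mul_pow, ← div_div, div_le_iff₀ h5] at h3
  exact h3

/-- the elementary inequality behind the moment bound -/
lemma sq_le_exp {b y : ℝ} (hb : 1 ≤ b) (hy : 0 ≤ y) (q : ℕ) (hq : 2 ≤ q) :
    b ^ 6 * y ^ 2 ≤ 1 + q.factorial * (b ^ q)⁻¹ * Real.exp (b ^ 4 * y) := by
  have hb0 : 0 < b := by linarith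
  have hpos : 0 ≤ q.factorial * (b ^ q)⁻¹ * Real.exp (b ^ 4 * y) := by positivity
  rcases le_total (b ^ 3 * y) 1 with h | h
  · have h1 : b ^ 6 * y ^ 2 = (b ^ 3 * y) ^ 2 := by ring
    have h2 : 0 ≤ b ^ 3 * y := by positivity
    rw [h1]
    nlinarith
  · obtain ⟨k, rfl⟩ : ∃ k, q = k + 2 := ⟨q - 2, by omega⟩
    have h1 : b ^ 6 * y ^ 2 ≤ (b ^ 3 * y) ^ (k + 2) := by
      have e1 : (b ^ 3 * y) ^ (k + 2) = (b ^ 3 * y) ^ k * (b ^ 6 * y ^ 2) := by
        rw [pow_add]; ring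
      rw [e1]
      have h2 : 1 ≤ (b ^ 3 * y) ^ k := one_le_pow₀ h
      have h3 : 0 ≤ b ^ 6 * y ^ 2 := by positivity
      nlinarith
    have h4 : (b ^ 4 * y) ^ (k + 2) ≤ (k + 2).factorial * Real.exp (b ^ 4 * y) := by
      have := Real.pow_div_factorial_le_exp (b ^ 4 * y) (by positivity) (k + 2)
      rw [div_le_iff₀ (by positivity)] at this
      linarith
    have h5 : (b ^ 3 * y) ^ (k + 2) = (b ^ (k + 2))⁻¹ * (b ^ 4 * y) ^ (k + 2) := by
      rw [← inv_pow, ← mul_pow]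
      congr 1
      field_simp
    have h6 : (b ^ (k + 2))⁻¹ * (b ^ 4 * y) ^ (k + 2) ≤
        (b ^ (k + 2))⁻¹ * ((k + 2).factorial * Real.exp (b ^ 4 * y)) :=
      mul_le_mul_of_nonneg_left h4 (by positivity)
    calc b ^ 6 * y ^ 2 ≤ (b ^ (k + 2))⁻¹ * ((k + 2).factorial * Real.exp (b ^ 4 * y)) := by
          rw [← h5] at h6; exact h1.trans h6
      _ = (k + 2).factorial * (b ^ (k + 2))⁻¹ * Real.exp (b ^ 4 * y) := by ring
      _ ≤ _ := by linarith

variable {E : Type*} [Fintype E] [DecidableEq E] (T : Refl E)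

lemma Refl.Ew_mono {β : ℝ} {w F H : (E → G) → ℝ} (hw : Continuous w) (hw0 : ∀ U, 0 ≤ w U)
    (hF : Continuous F) (hH : Continuous H) (h : ∀ U, F U ≤ H U) :
    T.Ew μ L β w F ≤ T.Ew μ L β w H := by
  unfold Refl.Ew
  refine integral_mono (integrable_cont μ (hF.mul (T.wt_cont hw)))
    (integrable_cont μ (hH.mul (T.wt_cont hw))) fun U => ?_
  refine mul_le_mul_of_nonneg_right (h U) ?_
  exact mul_nonneg (mul_nonneg (hw0 _) (hw0 _)) (Real.exp_pos _).le

lemma Refl.Ew_add {β : ℝ} {w F H : (E → G) → ℝ} (hw : Continuous w)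
    (hF : Continuous F) (hH : Continuous H) :
    T.Ew μ L β w (fun U => F U + H U) = T.Ew μ L β w F + T.Ew μ L β w H := by
  unfold Refl.Ew
  have i1 : Integrable (fun U => F U * (w U * w (T.tU U) * Real.exp (β * T.ker L U))) (ME μ E) :=
    integrable_cont μ (hF.mul (T.wt_cont hw))
  have i2 : Integrable (fun U => H U * (w U * w (T.tU U) * Real.exp (β * T.ker L U))) (ME μ E) :=
    integrable_cont μ (hH.mul (T.wt_cont hw))
  rw [← integral_add i1 i2]
  refine integral_congr_ae (Filter.Eventually.of_forall fun U => ?_)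
  simp only; ring

lemma Refl.Ew_smul {β : ℝ} {w F : (E → G) → ℝ} (c : ℝ) :
    T.Ew μ L β w (fun U => c * F U) = c * T.Ew μ L β w F := by
  unfold Refl.Ew
  rw [← integral_const_mul]
  refine integral_congr_ae (Filter.Eventually.of_forall fun U => ?_)
  simp only; ring

theorem moment : ∃ C : ℝ, 0 < C ∧ ∀ b : ℝ, 1 ≤ b → ∀ (E : Type) [Fintype E] [DecidableEq E]
    (T : Refl E) (w : (E → G) → ℝ), Continuous w → Dep T.R w → (∀ U, 0 ≤ w U) → ∀ e ∈ T.J,
      b ^ 6 * T.Ew μ L (b ^ 4) w (fun U => we L (T.W U e) ^ 2) ≤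
        C * T.Ew μ L (b ^ 4) w (fun _ => 1) := by
  obtain ⟨c, hc, hcz⟩ := zz_lower μ (L := L)
  obtain ⟨q, hq⟩ : ∃ q, q = 4 * N ^ 2 + 2 := ⟨_, rfl⟩
  refine ⟨1 + q.factorial / c, by positivity, fun b hb E _ _ T w hw hd hw0 e he => ?_⟩
  have hb0 : 0 < b := by linarith
  have hWc : Continuous fun U : E → G => we L (T.W U e) := we_cont.comp (cont_W T e)
  have hexpc : Continuous fun U : E → G => Real.exp (b ^ 4 * we L (T.W U e)) :=
    Real.continuous_exp.comp (continuous_const.mul hWc)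
  have h1 : T.Ew μ L (b ^ 4) w (fun U => b ^ 6 * we L (T.W U e) ^ 2) ≤
      T.Ew μ L (b ^ 4) w (fun U => 1 + (q.factorial * (b ^ q)⁻¹) *
        Real.exp (b ^ 4 * we L (T.W U e))) := by
    refine T.Ew_mono μ hw hw0 (continuous_const.mul (hWc.pow 2))
      (continuous_const.add (continuous_const.mul hexpc)) fun U => ?_
    exact sq_le_exp hb (we_nonneg _) q (by omega)
  have hadd := T.Ew_add μ (L := L) (β := b ^ 4) hw (F := fun _ => 1)
    (H := fun U => (q.factorial * (b ^ q)⁻¹) * Real.exp (b ^ 4 * we L (T.W U e)))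
    continuous_const (continuous_const.mul hexpc)
  rw [T.Ew_smul μ, hadd, T.Ew_smul μ] at h1
  refine h1.trans ?_
  have h2 := T.expm μ (L := L) (by positivity : (0:ℝ) ≤ b ^ 4) hw hd hw0 he
  have hE1 : 0 ≤ T.Ew μ L (b ^ 4) w (fun U => Real.exp (b ^ 4 * we L (T.W U e))) := by
    unfold Refl.Ew
    refine integral_nonneg fun U => ?_
    exact mul_nonneg (Real.exp_pos _).le
      (mul_nonneg (mul_nonneg (hw0 _) (hw0 _)) (Real.exp_pos _).le)
  have h3 := hcz b hb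
  have h4 : c * T.Ew μ L (b ^ 4) w (fun U => Real.exp (b ^ 4 * we L (T.W U e))) ≤
      b ^ (4 * N ^ 2) * T.Ew μ L (b ^ 4) w (fun _ => 1) := by
    calc c * T.Ew μ L (b ^ 4) w (fun U => Real.exp (b ^ 4 * we L (T.W U e))) ≤
        (zz μ L (b ^ 4) * b ^ (4 * N ^ 2)) *
          T.Ew μ L (b ^ 4) w (fun U => Real.exp (b ^ 4 * we L (T.W U e))) :=
          mul_le_mul_of_nonneg_right h3 hE1
      _ = b ^ (4 * N ^ 2) * (zz μ L (b ^ 4) *
          T.Ew μ L (b ^ 4) w (fun U => Real.exp (b ^ 4 * we L (T.W U e)))) := by ring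
      _ ≤ _ := mul_le_mul_of_nonneg_left h2 (by positivity)
  have hE0 : 0 ≤ T.Ew μ L (b ^ 4) w (fun _ => 1) := by
    unfold Refl.Ew
    refine integral_nonneg fun U => ?_
    exact mul_nonneg zero_le_one
      (mul_nonneg (mul_nonneg (hw0 _) (hw0 _)) (Real.exp_pos _).le)
  have h5 : (b ^ q)⁻¹ * b ^ (4 * N ^ 2) ≤ 1 := by
    rw [hq, pow_add, mul_inv, mul_comm, ← mul_assoc, mul_inv_cancel₀ (by positivity), one_mul]
    exact inv_le_one_of_one_le₀ (one_le_pow₀ hb)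
  have h6 : (b ^ q)⁻¹ * T.Ew μ L (b ^ 4) w (fun U => Real.exp (b ^ 4 * we L (T.W U e))) ≤
      1 / c * T.Ew μ L (b ^ 4) w (fun _ => 1) := by
    rw [div_mul_eq_mul_div, one_mul, le_div_iff₀ hc]
    calc (b ^ q)⁻¹ * T.Ew μ L (b ^ 4) w (fun U => Real.exp (b ^ 4 * we L (T.W U e))) * c =
        (b ^ q)⁻¹ * (c * T.Ew μ L (b ^ 4) w (fun U => Real.exp (b ^ 4 * we L (T.W U e)))) := by
          ring
      _ ≤ (b ^ q)⁻¹ * (b ^ (4 * N ^ 2) * T.Ew μ L (b ^ 4) w (fun _ => 1)) :=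
          mul_le_mul_of_nonneg_left h4 (by positivity)
      _ = ((b ^ q)⁻¹ * b ^ (4 * N ^ 2)) * T.Ew μ L (b ^ 4) w (fun _ => 1) := by ring
      _ ≤ 1 * T.Ew μ L (b ^ 4) w (fun _ => 1) := mul_le_mul_of_nonneg_right h5 hE0
      _ = _ := one_mul _
  have hqf : (0:ℝ) ≤ q.factorial := by positivity
  have h7 := mul_le_mul_of_nonneg_left h6 hqf
  have h8 : (q.factorial : ℝ) * (1 / c * T.Ew μ L (b ^ 4) w (fun _ => 1)) =
      q.factorial / c * T.Ew μ L (b ^ 4) w (fun _ => 1) := by ring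
  rw [h8] at h7
  linarith

end

end Pool.Agent.W793.YM
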