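import Mathlib
import Pool.Agent.W793.YM.Mom

/-!
# The second moment of linear functions of the plaquettes between the two halves
-/

open MeasureTheory Matrix
open scoped Matrix.Norms.Frobenius ContDiff
open Pool.Agent.H906R3.YM

namespace Pool.Agent.W793.YM

set_option linter.unusedSectionVars false
set_option linter.unusedVariables false

noncomputable section

section alg

variable {G : Type*} [Group G] [TopologicalSpace G] {N n : ℕ} {L : LD G N n}
  {E : Type*} [Fintype E] [DecidableEq E] (T : Refl E)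

/-- the exponential function of a smooth function -/
def sexp (F : Sm L E) : Sm L E :=
  ⟨fun U => Real.exp (F.1 U), by
    obtain ⟨f, hf, h⟩ := F.2
    exact ⟨fun M => Real.exp (f M), Real.contDiff_exp.comp hf, fun U => by simp only [h]⟩⟩

lemma sexp_apply (F : Sm L E) (U : E → G) : (sexp F).1 U = Real.exp (F.1 U) := rfl

lemma Dv_sexp (F : Sm L E) (j : E × Fin n) : L.Dv j (sexp F) = sexp F * L.Dv j F := by
  apply Subtype.ext
  funext U
  have h1 := hasDerivAt_dF F.2 j.1 j.2 U 0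
  rw [L.shift_zero] at h1
  have h2 := h1.exp
  rw [L.shift_zero] at h2
  exact h2.deriv

open Classical in
/-- the reflection, on matrices -/
def Refl.lin (T : Refl E) (N : ℕ) : (E → Mat N) →L[ℝ] (E → Mat N) :=
  ContinuousLinearMap.pi fun e =>
    if T.iv e then (ctL N).comp (ContinuousLinearMap.proj (T.th e))
    else ContinuousLinearMap.proj (T.th e)

lemma Refl.mat_tU (U : E → G) : L.mat (T.tU U) = T.lin N (L.mat U) := by
  classical
  funext e
  unfold Refl.lin Refl.tU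
  rw [ContinuousLinearMap.pi_apply]
  by_cases h : T.iv e
  · rw [if_pos h]
    show L.rho _ = _
    simp only [if_pos h]
    rw [L.rho_inv]
    rfl
  · rw [if_neg h]
    show L.rho _ = _
    simp only [if_neg h]
    rfl

/-- the reflection of functions -/
def Refl.tS (T : Refl E) (F : Sm L E) : Sm L E :=
  ⟨fun U => F.1 (T.tU U), by
    obtain ⟨f, hf, h⟩ := F.2
    refine ⟨fun M => f (T.lin N M), hf.comp (T.lin N).contDiff, fun U => ?_⟩
    simp only [h, T.mat_tU]⟩

lemma Refl.tS_apply (F : Sm L E) (U : E → G) : (T.tS F).1 U = F.1 (T.tU U) := rfl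

lemma Refl.tS_mul (F H : Sm L E) : T.tS (F * H) = T.tS F * T.tS H := rfl

lemma Refl.tS_add (F H : Sm L E) : T.tS (F + H) = T.tS F + T.tS H := rfl

lemma Refl.tS_sum {ι : Type*} (s : Finset ι) (F : ι → Sm L E) :
    T.tS (∑ i ∈ s, F i) = ∑ i ∈ s, T.tS (F i) := by
  classical
  induction s using Finset.induction_on with
  | empty => simp only [Finset.sum_empty]; rfl
  | insert a s ha ih => rw [Finset.sum_insert ha, Finset.sum_insert ha, T.tS_add, ih]

lemma Dv_dep {p : E → Prop} {F : Sm L E} (hF : Dep p F.1) {e : E} (he : ¬p e) (a : Fin n) :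
    L.Dv (e, a) F = 0 := by
  apply Subtype.ext
  funext U
  rw [Dv_apply]
  unfold LD.dF
  have : (fun t => F.1 (L.shift e a t U)) = fun _ => F.1 U := by
    funext t
    refine hF _ _ fun e' he' => ?_
    have hne : e' ≠ e := fun h => he (h ▸ he')
    unfold LD.shift
    exact ms_ne hne _ _
  rw [this, deriv_const]
  rfl

lemma Dep_Dv {p : E → Prop} {F : Sm L E} (hF : Dep p F.1) (j : E × Fin n) :
    Dep p (L.Dv j F).1 := by
  intro U U' h
  rw [Dv_apply, Dv_apply]
  unfold LD.dF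
  have : (fun t => F.1 (L.shift j.1 j.2 t U)) = fun t => F.1 (L.shift j.1 j.2 t U') := by
    funext t
    refine hF _ _ fun e' he' => ?_
    unfold LD.shift
    rw [Pi.mul_apply, Pi.mul_apply, h e' he']
  rw [this]

lemma Dep.mul {p : E → Prop} {F H : Sm L E} (hF : Dep p F.1) (hH : Dep p H.1) :
    Dep p (F * H).1 := fun U U' h => by
  show F.1 U * H.1 U = F.1 U' * H.1 U'
  rw [hF U U' h, hH U U' h]

lemma Dep.sum {p : E → Prop} {ι : Type*} {s : Finset ι} {F : ι → Sm L E}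
    (hF : ∀ i ∈ s, Dep p (F i).1) : Dep p (∑ i ∈ s, F i).1 := by
  intro U U' h
  have h1 : ∀ V : E → G, (∑ i ∈ s, F i).1 V = ∑ i ∈ s, (F i).1 V := by
    intro V
    exact map_sum (L.ev V) F s
  rw [h1, h1]
  exact Finset.sum_congr rfl fun i hi => hF i hi U U' h

lemma Refl.Dv_tS {e : E} (he : e ∈ T.J) (a : Fin n) (F : Sm L E) :
    L.Dv (T.th e, a) (T.tS F) = T.tS (L.Dv (e, a) F) := by
  apply Subtype.ext
  funext U
  rw [T.tS_apply, Dv_apply, Dv_apply]
  unfold LD.dF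
  congr 1
  funext t
  rw [T.tS_apply]
  unfold LD.shift
  rw [T.tU_ms he]

lemma Refl.Dep_tS {F : Sm L E} (hF : Dep T.R F.1) : Dep (fun e => ¬T.R e) (T.tS F).1 := by
  intro U U' h
  refine hF _ _ fun e he => ?_
  unfold Refl.tU
  rw [h _ (T.th_R e he)]

/-- the matrix function `rho (W U e)` -/
lemma SmM_W (e : E) : SmM L (fun U : E → G => L.rho (T.W U e)) := by
  have h := (SmM.link (L := L) e).mul (SmM.link (L := L) (T.th e)).ct
  have h2 : (fun U : E → G => L.rho (T.W U e)) =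
      fun U => L.rho (U e) * (L.rho (U (T.th e)))ᴴ := by
    funext U; unfold Refl.W; rw [map_mul, L.rho_inv]
  rw [h2]; exact h

variable (L) in
/-- the linear functionals `M ↦ Re tr (X_a M)` -/
def trX (a : Fin n) : Mat N →L[ℝ] ℝ := ip ((L.X a)ᴴ)

lemma trX_apply (a : Fin n) (M : Mat N) : trX L a M = (trace (L.X a * M)).re := by
  unfold trX
  rw [ip_apply, conjTranspose_conjTranspose]

variable (L) in
/-- `Re tr (X_a W_e)` -/
def Refl.xi (T : Refl E) (e : E) (a : Fin n) : Sm L E :=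
  Pool.Agent.H906R3.YM.lin (L := L) (trX L a) (fun U => L.rho (T.W U e)) (SmM_W T e)

lemma Refl.xi_apply (e : E) (a : Fin n) (U : E → G) :
    (T.xi L e a).1 U = (trace (L.X a * L.rho (T.W U e))).re := by
  rw [← trX_apply]; rfl

variable (L) in
/-- the interaction as a smooth function -/
def Refl.kS (T : Refl E) : Sm L E :=
  ∑ e ∈ T.J, Pool.Agent.H906R3.YM.lin (L := L) (ip 1) (fun U => L.rho (T.W U e)) (SmM_W T e)

lemma Refl.kS_apply (U : E → G) :
    (T.kS L).1 U = ∑ e ∈ T.J, (trace (L.rho (T.W U e))).re := by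
  have h1 : (T.kS L).1 U = ∑ e ∈ T.J, (Pool.Agent.H906R3.YM.lin (L := L) (ip 1) (fun U => L.rho (T.W U e))
      (SmM_W T e)).1 U := map_sum (L.ev U) _ _
  rw [h1]
  refine Finset.sum_congr rfl fun e _ => ?_
  rw [lin_apply, ip_apply, conjTranspose_one, one_mul]

lemma hasDeriv_W {e : E} (he : e ∈ T.J) (b : Fin n) (U : E → G) :
    HasDerivAt (fun t => L.rho (T.W (L.shift e b t U) e)) (L.X b * L.rho (T.W U e)) 0 := by
  have h2 : T.th e ≠ e := fun h => T.th_R e (T.J_R e he) (by rw [h]; exact T.J_R e he)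
  have h1 : (fun t => L.rho (T.W (L.shift e b t U) e)) =
      fun t => L.rho (L.ex b t) * L.rho (T.W U e) := by
    funext t
    rw [← map_mul]
    congr 1
    unfold Refl.W LD.shift
    rw [ms_same, ms_ne h2, mul_assoc]
  rw [h1]
  exact (L.deriv_ex b).mul_const _

lemma hasDeriv_W' {e : E} (he : e ∈ T.J) (b : Fin n) (U : E → G) :
    HasDerivAt (fun t => L.rho (T.W (L.shift (T.th e) b t U) e)) (-(L.rho (T.W U e) * L.X b)) 0 := by
  have h2 : e ≠ T.th e := T.ne_th (T.J_R e he) (T.J_R e he)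
  have h1 : (fun t => L.rho (T.W (L.shift (T.th e) b t U) e)) =
      fun t => L.rho (T.W U e) * (L.rho (L.ex b t))ᴴ := by
    funext t
    rw [← L.rho_inv, ← map_mul]
    congr 1
    unfold Refl.W LD.shift
    rw [ms_same, ms_ne h2]
    group
  rw [h1]
  have h3 : HasDerivAt (fun t => (L.rho (L.ex b t))ᴴ) ((L.X b)ᴴ) 0 :=
    (ctL N).hasFDerivAt.comp_hasDerivAt (0 : ℝ) (L.deriv_ex b)
  have h4 := h3.const_mul (L.rho (T.W U e))
  rw [skew, mul_neg] at h4
  exact h4

lemma W_other {e e' : E} (he : e ∈ T.J) (he' : e' ∈ T.J) (hne : e' ≠ e) (b : Fin n) (t : ℝ)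
    (U : E → G) : T.W (L.shift e b t U) e' = T.W U e' := by
  have h1 : T.th e' ≠ e := fun h => T.th_R e' (T.J_R e' he') (by rw [h]; exact T.J_R e he)
  unfold Refl.W LD.shift
  rw [ms_ne hne, ms_ne h1]

lemma W_other' {e e' : E} (he : e ∈ T.J) (he' : e' ∈ T.J) (hne : e' ≠ e) (b : Fin n) (t : ℝ)
    (U : E → G) : T.W (L.shift (T.th e) b t U) e' = T.W U e' := by
  have h1 : T.th e' ≠ T.th e := fun h => hne (th_inj T h)
  have h2 : e' ≠ T.th e := T.ne_th (T.J_R e' he') (T.J_R e he)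
  unfold Refl.W LD.shift
  rw [ms_ne h2, ms_ne h1]

lemma Dv_lin_const (ℓ : Mat N →L[ℝ] ℝ) {F : (E → G) → Mat N} (hF : SmM L F) (j : E × Fin n)
    (h : ∀ t U, F (L.shift j.1 j.2 t U) = F U) : L.Dv j (Pool.Agent.H906R3.YM.lin ℓ F hF) = 0 := by
  apply Subtype.ext
  funext U
  rw [Dv_apply]
  unfold LD.dF
  have : (fun t => (Pool.Agent.H906R3.YM.lin ℓ F hF).1 (L.shift j.1 j.2 t U)) = fun _ => ℓ (F U) := by
    funext t; rw [lin_apply, h]
  rw [this, deriv_const]; rfl

lemma Dv_kS {e : E} (he : e ∈ T.J) (b : Fin n) : L.Dv (e, b) (T.kS L) = T.xi L e b := by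
  unfold Refl.kS
  rw [map_sum, Finset.sum_eq_single e]
  · apply Subtype.ext
    funext U
    rw [Dv_lin _ _ _ _ _ (hasDeriv_W T he b U), T.xi_apply, ip_apply, conjTranspose_one, one_mul]
  · intro e' he' hne
    exact Dv_lin_const _ _ _ fun t U => by rw [W_other T he he' hne]
  · exact fun h => absurd he h

lemma Dv_kS' {e : E} (he : e ∈ T.J) (b : Fin n) : L.Dv (T.th e, b) (T.kS L) =
    (-1 : ℝ) • T.xi L e b := by
  unfold Refl.kS
  rw [map_sum, Finset.sum_eq_single e]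
  · apply Subtype.ext
    funext U
    rw [Dv_lin _ _ _ _ _ (hasDeriv_W' T he b U)]
    have h1 : ((-1 : ℝ) • T.xi L e b).1 U = (-1) * ((T.xi L e b).1 U) := rfl
    rw [h1, T.xi_apply, ip_apply, conjTranspose_one, one_mul, trace_neg, Complex.neg_re,
      trace_mul_comm]
    ring
  · intro e' he' hne
    exact Dv_lin_const _ _ _ fun t U => by rw [W_other' T he he' hne]
  · exact fun h => absurd he h

variable (L) in
/-- `- Re tr (X_a W_e X_b)` -/
def Refl.ze (T : Refl E) (e : E) (a b : Fin n) : Sm L E :=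
  Pool.Agent.H906R3.YM.lin (L := L) (trX L a) (fun U => -(L.rho (T.W U e) * L.X b))
    (by
      have h := ((SmM_W (L := L) T e).mul (SmM.const (L.X b))).smul (-1)
      have h2 : (fun U : E → G => -(L.rho (T.W U e) * L.X b)) =
        fun U => (-1 : ℝ) • (L.rho (T.W U e) * L.X b) := by funext U; simp
      rw [h2]; exact h)

lemma Refl.ze_apply (e : E) (a b : Fin n) (U : E → G) :
    (T.ze L e a b).1 U = -(trace (L.X a * L.rho (T.W U e) * L.X b)).re := by
  have h : (T.ze L e a b).1 U = trX L a (-(L.rho (T.W U e) * L.X b)) := rfl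
  rw [h, trX_apply, mul_neg, trace_neg, Complex.neg_re, mul_assoc]

lemma Dv_xi' {e e' : E} (he : e ∈ T.J) (he' : e' ∈ T.J) (a b : Fin n) :
    L.Dv (T.th e, b) (T.xi L e' a) = if e' = e then T.ze L e a b else 0 := by
  split_ifs with h
  · subst h
    apply Subtype.ext
    funext U
    unfold Refl.xi
    rw [Dv_lin _ _ _ _ _ (hasDeriv_W' T he b U)]
    rfl
  · unfold Refl.xi
    exact Dv_lin_const _ _ _ fun t U => by rw [W_other' T he he' h]

end alg

variable {E : Type*} [Fintype E] [DecidableEq E] {G : Type*} [Group G] [TopologicalSpace G]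
  [IsTopologicalGroup G] [CompactSpace G] [SecondCountableTopology G] [MeasurableSpace G]
  [BorelSpace G] (μ : Measure G) [IsProbabilityMeasure μ] [μ.IsMulLeftInvariant]
  [μ.IsMulRightInvariant] [μ.IsInvInvariant] {N n : ℕ} {L : LD G N n} (T : Refl E)

lemma ip_cs (A B : Mat N) : ip A B ^ 2 ≤ ip A A * ip B B := by
  have h : ∀ A B : Mat N, ip A B = ∑ c, co c A * co c B := by
    intro A B
    rw [ip_comm, ip_apply, sum_co_mul, trace_mul_comm]
  rw [h, h, h]
  have := Finset.sum_mul_sq_le_sq_mul_sq Finset.univ (fun c => co c A) (fun c => co c B)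
  simpa only [pow_two] using this

lemma ip_sumX (p : Fin n → ℝ) : ip (∑ a, p a • L.X a) (∑ a, p a • L.X a) = ∑ a, p a ^ 2 := by
  have h1 : ∀ a, ip (∑ a, p a • L.X a) (L.X a) = p a := by
    intro a
    rw [ip_comm, map_sum]
    simp only [map_smul, ip_X, smul_eq_mul, mul_ite, mul_one, mul_zero, Finset.sum_ite_eq,
      Finset.mem_univ, if_true]
  rw [map_sum]
  refine Finset.sum_congr rfl fun a _ => ?_
  rw [map_smul, h1, smul_eq_mul, pow_two]

lemma ze_bound (e : E) (p q : Fin n → ℝ) (U : E → G) {η : ℝ} (hη : 0 ≤ η)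
    (hp : ∑ a, p a ^ 2 ≤ η ^ 2) (hq : ∑ a, q a ^ 2 ≤ η ^ 2) :
    ∑ a, ∑ b, p a * q b * (T.ze L e a b).1 U ≤ η ^ 2 := by
  obtain ⟨W, hW⟩ : ∃ W, W = L.rho (T.W U e) := ⟨_, rfl⟩
  have h1 : ∑ a, ∑ b, p a * q b * (T.ze L e a b).1 U =
      ip ((W)ᴴ * (∑ a, p a • L.X a)) (∑ b, q b • L.X b) := by
    have h2 : ((W)ᴴ * (∑ a, p a • L.X a))ᴴ = -(∑ a, p a • (L.X a * W)) := by
      rw [conjTranspose_mul, conjTranspose_conjTranspose, conjTranspose_sum, Finset.sum_mul,
        ← Finset.sum_neg_distrib]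
      refine Finset.sum_congr rfl fun a _ => ?_
      rw [conjTranspose_smul, skew, star_trivial, smul_neg, neg_mul, smul_mul_assoc]
    rw [ip_apply, h2, neg_mul, Finset.sum_mul_sum, trace_neg, Complex.neg_re, trace_sum,
      Complex.re_sum, ← Finset.sum_neg_distrib]
    refine Finset.sum_congr rfl fun a _ => ?_
    rw [trace_sum, Complex.re_sum, ← Finset.sum_neg_distrib]
    refine Finset.sum_congr rfl fun b _ => ?_
    rw [T.ze_apply, ← hW, smul_mul_smul_comm, trace_smul, Complex.smul_re, smul_eq_mul]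
    ring
  rw [h1]
  have h3 := ip_cs ((W)ᴴ * (∑ a, p a • L.X a)) (∑ b, q b • L.X b)
  have h4 : ip ((W)ᴴ * (∑ a, p a • L.X a)) ((W)ᴴ * (∑ a, p a • L.X a)) =
      ip (∑ a, p a • L.X a) (∑ a, p a • L.X a) := by
    rw [ip_apply, ip_apply, conjTranspose_mul, conjTranspose_conjTranspose, mul_assoc,
      ← mul_assoc W, hW, L.unit, one_mul]
  rw [h4, ip_sumX, ip_sumX] at h3
  have h5 : (∑ a, p a ^ 2) * (∑ a, q a ^ 2) ≤ η ^ 2 * η ^ 2 :=
    mul_le_mul hp hq (Finset.sum_nonneg fun _ _ => sq_nonneg _) (sq_nonneg _)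
  have h6 : ip ((W)ᴴ * (∑ a, p a • L.X a)) (∑ b, q b • L.X b) ^ 2 ≤ (η ^ 2) ^ 2 := by
    nlinarith
  exact abs_le_of_sq_le_sq' h6 (sq_nonneg _) |>.2

lemma Ew_eq (β : ℝ) (w F : Sm L E) :
    T.Ew μ L β w.1 F.1 = L.I μ (F * (w * T.tS w * sexp (β • T.kS L))) := by
  unfold Refl.Ew
  rw [I_apply]
  refine integral_congr_ae (Filter.Eventually.of_forall fun U => ?_)
  show F.1 U * (w.1 U * w.1 (T.tU U) * Real.exp (β * T.ker L U)) =
    F.1 U * (w.1 U * w.1 (T.tU U) * Real.exp (β * (T.kS L).1 U))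
  rw [T.kS_apply, ker_eqW]

/-- the second moment bound -/
theorem Refl.star {β : ℝ} (hβ : 0 < β) (w : Sm L E) (hwd : Dep T.R w.1) (hw0 : ∀ U, 0 ≤ w.1 U)
    (c : E → Fin n → Sm L E) (hcd : ∀ e a, Dep T.R (c e a).1) (η : E → ℝ) (hη0 : ∀ e, 0 ≤ η e)
    (hη : ∀ e ∈ T.J, ∀ U, ∑ a, (c e a).1 U ^ 2 ≤ η e ^ 2) :
    β * T.Ew μ L β w.1 (fun U => (∑ e ∈ T.J, ∑ a, (c e a).1 U * (T.xi L e a).1 U) *
        ∑ e ∈ T.J, ∑ a, (c e a).1 (T.tU U) * (T.xi L e a).1 U) ≤
      (∑ e ∈ T.J, η e ^ 2) * T.Ew μ L β w.1 (fun _ => 1) := by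
  have hI : ∀ (j : E × Fin n) (u v : Sm L E), L.I μ (L.Dv j u * v) = -L.I μ (u * L.Dv j v) :=
    fun j u v => I_D (D := L.Dv) (L.I μ) (I_D_zero μ) j u v
  obtain ⟨K, hK⟩ : ∃ K : Sm L E, K = sexp (β • T.kS L) := ⟨_, rfl⟩
  obtain ⟨P, hP⟩ : ∃ P : Sm L E, P = ∑ e ∈ T.J, ∑ a, c e a * T.xi L e a := ⟨_, rfl⟩
  obtain ⟨Q, hQ⟩ : ∃ Q : Sm L E, Q = ∑ e ∈ T.J, ∑ a, T.tS (c e a) * T.xi L e a := ⟨_, rfl⟩
  obtain ⟨q, hq⟩ : ∃ q : Sm L E, q = ∑ e ∈ T.J, ∑ a, L.Dv (e, a) (c e a * w) := ⟨_, rfl⟩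
  have hPv : ∀ U, P.1 U = ∑ e ∈ T.J, ∑ a, (c e a).1 U * (T.xi L e a).1 U := by
    intro U
    rw [hP]
    have h1 : (∑ e ∈ T.J, ∑ a, c e a * T.xi L e a).1 U =
      L.ev U (∑ e ∈ T.J, ∑ a, c e a * T.xi L e a) := rfl
    rw [h1]; simp only [map_sum, map_mul]; rfl
  have hQv : ∀ U, Q.1 U = ∑ e ∈ T.J, ∑ a, (c e a).1 (T.tU U) * (T.xi L e a).1 U := by
    intro U
    rw [hQ]
    have h1 : (∑ e ∈ T.J, ∑ a, T.tS (c e a) * T.xi L e a).1 U =
      L.ev U (∑ e ∈ T.J, ∑ a, T.tS (c e a) * T.xi L e a) := rfl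
    rw [h1]; simp only [map_sum, map_mul]; rfl
  have hmain : T.Ew μ L β w.1 (fun U => (∑ e ∈ T.J, ∑ a, (c e a).1 U * (T.xi L e a).1 U) *
        ∑ e ∈ T.J, ∑ a, (c e a).1 (T.tU U) * (T.xi L e a).1 U) =
        L.I μ (P * Q * (w * T.tS w * K)) := by
    rw [hK, ← Ew_eq]
    congr 1
    funext U
    rw [← hPv, ← hQv]; rfl
  have h1one : T.Ew μ L β w.1 (fun _ => 1) = L.I μ (w * T.tS w * K) := by
    have h2 := Ew_eq μ T β w 1
    rw [one_mul, ← hK] at h2
    rw [← h2]
    rfl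
  -- derivatives of `K`
  have hKx : ∀ e ∈ T.J, ∀ b, L.Dv (e, b) K = β • (T.xi L e b * K) := by
    intro e he b
    rw [hK, Dv_sexp, Derivation.map_smul, Dv_kS T he, mul_smul_comm, mul_comm]
  have hKy : ∀ e ∈ T.J, ∀ b, L.Dv (T.th e, b) K = (-β) • (T.xi L e b * K) := by
    intro e he b
    rw [hK, Dv_sexp, Derivation.map_smul, Dv_kS' T he, smul_smul, mul_smul_comm, mul_comm (sexp _),
      mul_neg_one]
  have hcy : ∀ e ∈ T.J, ∀ b e' a, L.Dv (T.th e, b) (c e' a) = 0 := fun e he b e' a =>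
    Dv_dep (hcd e' a) (T.th_R e (T.J_R e he)) b
  have hwy : ∀ e ∈ T.J, ∀ b, L.Dv (T.th e, b) w = 0 := fun e he b =>
    Dv_dep hwd (T.th_R e (T.J_R e he)) b
  -- step 1
  have hs1 : β * L.I μ (P * Q * (w * T.tS w * K)) =
      ∑ e ∈ T.J, ∑ b, L.I μ (K * L.Dv (T.th e, b) (P * T.tS (c e b) * w * T.tS w)) := by
    have e1 : P * Q * (w * T.tS w * K) = ∑ e ∈ T.J, ∑ b, (T.xi L e b * K) *
        (P * T.tS (c e b) * w * T.tS w) := by
      rw [hQ, Finset.mul_sum, Finset.sum_mul]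
      refine Finset.sum_congr rfl fun e _ => ?_
      rw [Finset.mul_sum, Finset.sum_mul]
      exact Finset.sum_congr rfl fun b _ => by ring
    rw [e1, map_sum, Finset.mul_sum]
    refine Finset.sum_congr rfl fun e he => ?_
    rw [map_sum, Finset.mul_sum]
    refine Finset.sum_congr rfl fun b _ => ?_
    have e2 := hI (T.th e, b) K (P * T.tS (c e b) * w * T.tS w)
    rw [hKy e he b, smul_mul_assoc, map_smul, smul_eq_mul] at e2
    linarith
  -- step 2
  have hs2 : ∀ e ∈ T.J, ∀ b, K * L.Dv (T.th e, b) (P * T.tS (c e b) * w * T.tS w) =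
      (∑ a, c e a * T.tS (c e b) * T.ze L e a b) * (w * T.tS w * K) +
        K * w * P * T.tS (L.Dv (e, b) (c e b * w)) := by
    intro e he b
    have e1 : L.Dv (T.th e, b) P = ∑ a, c e a * T.ze L e a b := by
      rw [hP, map_sum, Finset.sum_eq_single e]
      · rw [map_sum]
        refine Finset.sum_congr rfl fun a _ => ?_
        rw [Derivation.leibniz, hcy e he b e a, Dv_xi' T he he, if_pos rfl, smul_zero, add_zero,
          smul_eq_mul]
      · intro e' he' hne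
        rw [map_sum]
        refine Finset.sum_eq_zero fun a _ => ?_
        rw [Derivation.leibniz, hcy e he b e' a, Dv_xi' T he he', if_neg hne, smul_zero,
          smul_zero, add_zero]
      · exact fun h => absurd he h
    have e2 : P * T.tS (c e b) * w * T.tS w = (P * w) * T.tS (c e b * w) := by
      rw [T.tS_mul]; ring
    have e3 : L.Dv (T.th e, b) (P * w) = w * ∑ a, c e a * T.ze L e a b := by
      rw [Derivation.leibniz, hwy e he b, e1, smul_zero, zero_add, smul_eq_mul]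
    rw [e2, Derivation.leibniz, e3, T.Dv_tS he, smul_eq_mul, smul_eq_mul, T.tS_mul]
    have e4 : (∑ a, c e a * T.tS (c e b) * T.ze L e a b) =
        T.tS (c e b) * ∑ a, c e a * T.ze L e a b := by
      rw [Finset.mul_sum]
      exact Finset.sum_congr rfl fun a _ => by ring
    rw [e4]; ring
  have hs3 : β * L.I μ (P * Q * (w * T.tS w * K)) =
      ∑ e ∈ T.J, L.I μ ((∑ b, ∑ a, c e a * T.tS (c e b) * T.ze L e a b) * (w * T.tS w * K)) +
      L.I μ (K * w * P * T.tS q) := by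
    rw [hs1, hq, T.tS_sum, Finset.mul_sum, map_sum, ← Finset.sum_add_distrib]
    refine Finset.sum_congr rfl fun e he => ?_
    rw [T.tS_sum, Finset.mul_sum, map_sum, Finset.sum_mul, map_sum, ← Finset.sum_add_distrib]
    refine Finset.sum_congr rfl fun b _ => ?_
    rw [hs2 e he b, map_add]
  -- step 3
  have hqd : Dep T.R q.1 := by
    rw [hq]
    exact Dep.sum fun e _ => Dep.sum fun a _ => Dep_Dv ((hcd e a).mul hwd) _
  have hs4 : β * L.I μ (K * w * P * T.tS q) = -L.I μ (K * q * T.tS q) := by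
    have e1 : K * w * P * T.tS q = ∑ e ∈ T.J, ∑ a, (T.xi L e a * K) * ((c e a * w) * T.tS q) := by
      rw [hP, Finset.mul_sum, Finset.sum_mul]
      refine Finset.sum_congr rfl fun e _ => ?_
      rw [Finset.mul_sum, Finset.sum_mul]
      exact Finset.sum_congr rfl fun b _ => by ring
    have e2 : K * q * T.tS q = ∑ e ∈ T.J, ∑ a, K * (L.Dv (e, a) (c e a * w) * T.tS q) := by
      conv_lhs => rw [hq]
      rw [Finset.mul_sum, Finset.sum_mul, hq]
      refine Finset.sum_congr rfl fun e _ => ?_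
      rw [Finset.mul_sum, Finset.sum_mul]
      exact Finset.sum_congr rfl fun b _ => by ring
    rw [e1, e2, map_sum, map_sum, Finset.mul_sum, ← Finset.sum_neg_distrib]
    refine Finset.sum_congr rfl fun e he => ?_
    rw [map_sum, map_sum, Finset.mul_sum, ← Finset.sum_neg_distrib]
    refine Finset.sum_congr rfl fun a _ => ?_
    have e3 := hI (e, a) K ((c e a * w) * T.tS q)
    have e4 : L.Dv (e, a) (T.tS q) = 0 :=
      Dv_dep (p := fun e => ¬T.R e) (T.Dep_tS hqd) (fun h => h (T.J_R e he)) a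
    rw [hKx e he a, smul_mul_assoc, map_smul, smul_eq_mul, Derivation.leibniz, e4, smul_zero,
      zero_add, smul_eq_mul] at e3
    rw [e3, mul_comm (T.tS q)]
  have hpos : 0 ≤ L.I μ (K * q * T.tS q) := by
    have h2 := T.pos μ (L := L) (Sm_cont q) hqd hβ.le
    refine h2.trans (le_of_eq ?_)
    rw [I_apply]
    refine integral_congr_ae (Filter.Eventually.of_forall fun U => ?_)
    show q.1 U * q.1 (T.tU U) * Real.exp (β * T.ker L U) = K.1 U * q.1 U * q.1 (T.tU U)
    rw [hK, sexp_apply]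
    have : (β • T.kS L).1 U = β * (T.kS L).1 U := rfl
    rw [this, T.kS_apply, ker_eqW]; ring
  have hneg : L.I μ (K * w * P * T.tS q) ≤ 0 := by
    by_contra hcon
    push Not at hcon
    have := mul_pos hβ hcon
    rw [hs4] at this
    linarith
  rw [hmain, h1one, hs3, Finset.sum_mul]
  refine le_trans (add_le_of_nonpos_right hneg) (Finset.sum_le_sum fun e he => ?_)
  have e0 : η e ^ 2 * L.I μ (w * T.tS w * K) = L.I μ ((η e ^ 2) • (w * T.tS w * K)) := by
    rw [map_smul, smul_eq_mul]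
  rw [e0]
  refine I_mono μ fun U => ?_
  rw [map_smul, smul_eq_mul, map_mul]
  refine mul_le_mul_of_nonneg_right ?_ ?_
  · have e1 : L.ev U (∑ b, ∑ a, c e a * T.tS (c e b) * T.ze L e a b) =
        ∑ a, ∑ b, (c e a).1 U * (c e b).1 (T.tU U) * (T.ze L e a b).1 U := by
      simp only [map_sum, map_mul]
      rw [Finset.sum_comm]; rfl
    rw [e1]
    exact ze_bound T e _ _ U (hη0 e) (hη e he U) (hη e he (T.tU U))
  · show 0 ≤ w.1 U * w.1 (T.tU U) * K.1 U
    rw [hK]
    exact mul_nonneg (mul_nonneg (hw0 _) (hw0 _)) (Real.exp_pos _).le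

end

end Pool.Agent.W793.YM
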