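import Mathlib
import Pool.Agent.W793.YM.Star
import Pool.Agent.H906R3.YM.Gauge

/-!
# Reflections of the periodic lattice of even side
-/

open MeasureTheory Matrix
open scoped Matrix.Norms.Frobenius ContDiff
open Pool.Agent.H906R3.YM

namespace Pool.Agent.W793.YM

set_option linter.unusedSectionVars false
set_option linter.unusedVariables false

noncomputable section

/-! ### arithmetic -/

section arith

variable {m : ℕ} [NeZero m]

/-- `1 ≤ v ≤ m` -/
def H1 (m : ℕ) (v : ZMod (2 * m)) : Prop := 1 ≤ v.val ∧ v.val ≤ m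

/-- `1 ≤ v < m` -/
def H2 (m : ℕ) (v : ZMod (2 * m)) : Prop := 1 ≤ v.val ∧ v.val < m

instance : DecidablePred (H1 m) := fun v => by unfold H1; infer_instance

instance : DecidablePred (H2 m) := fun v => by unfold H2; infer_instance

lemma val_lt' (v : ZMod (2 * m)) : v.val < 2 * m := ZMod.val_lt v

lemma val_neg' (v : ZMod (2 * m)) : (-v).val = if v.val = 0 then 0 else 2 * m - v.val := by
  rw [ZMod.neg_val]
  simp only [ZMod.val_eq_zero]

lemma val_zero' : (0 : ZMod (2 * m)).val = 0 := ZMod.val_zero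

lemma eq_zero_iff (v : ZMod (2 * m)) : v = 0 ↔ v.val = 0 := (ZMod.val_eq_zero v).symm

lemma val_nat {k : ℕ} (hk : k < 2 * m) : ((k : ℕ) : ZMod (2 * m)).val = k :=
  ZMod.val_natCast_of_lt hk

lemma eq_nat_iff {k : ℕ} (hk : k < 2 * m) (v : ZMod (2 * m)) :
    v = (k : ZMod (2 * m)) ↔ v.val = k := by
  constructor
  · intro h; rw [h, val_nat hk]
  · intro h; rw [← h, ZMod.natCast_zmod_val]

lemma eq_one_iff (hm : 2 ≤ m) (v : ZMod (2 * m)) : v = 1 ↔ v.val = 1 := by
  have := eq_nat_iff (m := m) (k := 1) (by omega) v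
  simpa using this

lemma eq_m_iff (hm : 2 ≤ m) (v : ZMod (2 * m)) : v = (m : ZMod (2 * m)) ↔ v.val = m :=
  eq_nat_iff (by omega) v

lemma val_add_one' (v : ZMod (2 * m)) :
    (v + 1).val = if v.val + 1 = 2 * m then 0 else v.val + 1 := by
  have h0 := val_lt' v
  have h1 : v + 1 = ((v.val + 1 : ℕ) : ZMod (2 * m)) := by
    push_cast
    rw [ZMod.natCast_zmod_val]
  split_ifs with h
  · rw [h1, h, ZMod.natCast_self, ZMod.val_zero]
  · rw [h1, val_nat (by omega)]

lemma val_one_sub (v : ZMod (2 * m)) (hm : 2 ≤ m) :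
    (1 - v).val = if v.val = 0 then 1 else if v.val = 1 then 0 else 2 * m + 1 - v.val := by
  have h0 := val_lt' v
  have h1 : 1 - v = ((2 * m + 1 - v.val : ℕ) : ZMod (2 * m)) := by
    rw [Nat.cast_sub (by omega), ZMod.natCast_zmod_val, Nat.cast_add, ZMod.natCast_self]
    simp
  split_ifs with h h'
  · rw [(ZMod.val_eq_zero v).1 h, sub_zero, (eq_one_iff hm 1).1 rfl]
  · rw [h1, h', Nat.add_sub_cancel, ZMod.natCast_self, ZMod.val_zero]
  · rw [h1, val_nat (by omega)]

lemma H1_one_sub (hm : 2 ≤ m) (v : ZMod (2 * m)) : H1 m (1 - v) ↔ ¬H1 m v := by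
  have h0 := val_lt' v
  unfold H1
  rw [val_one_sub v hm]
  split_ifs <;> omega

lemma H2_neg (hm : 2 ≤ m) {v : ZMod (2 * m)} (h : H2 m v) : ¬H2 m (-v) := by
  have h0 := val_lt' v
  unfold H2 at h ⊢
  rw [val_neg' v]
  split_ifs <;> omega

lemma H2_H1 (hm : 2 ≤ m) {v : ZMod (2 * m)} (h : H2 m v) : H1 m v ∧ H1 m (v + 1) := by
  have h0 := val_lt' v
  unfold H2 at h
  unfold H1
  rw [val_add_one' v]
  refine ⟨by omega, ?_⟩
  split_ifs <;> omega

lemma part (hm : 2 ≤ m) (v : ZMod (2 * m)) (f : ℝ) :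
    f = (if H2 m v then f else 0) + (if H2 m (-v) then f else 0) + (if v = 0 then f else 0) +
      (if v = (m : ZMod (2 * m)) then f else 0) := by
  have h0 := val_lt' v
  simp only [eq_zero_iff v, eq_m_iff hm v, H2, val_neg' v]
  rcases Nat.lt_trichotomy v.val 0 with h | h | h
  · omega
  · have e1 : ¬(1 ≤ v.val ∧ v.val < m) := by omega
    have e2 : ¬(v.val = m) := by omega
    have e3 : ¬(1 ≤ (if v.val = 0 then 0 else 2 * m - v.val) ∧
      (if v.val = 0 then 0 else 2 * m - v.val) < m) := by rw [if_pos h]; omega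
    rw [if_neg e1, if_neg e3, if_pos h, if_neg e2]; ring
  · have h3 : ¬(v.val = 0) := by omega
    simp only [if_neg h3]
    rcases Nat.lt_trichotomy v.val m with h' | h' | h'
    · rw [if_pos ⟨h, h'⟩, if_neg (by omega), if_neg (by omega)]; ring
    · rw [if_neg (by omega), if_neg (by omega), if_pos h']; ring
    · rw [if_neg (by omega), if_pos (by omega), if_neg (by omega)]; ring

end arith

/-! ### the reflection -/

variable {d m : ℕ} [NeZero m]

/-- reflection of the sites -/
def rA (i0 : Fin d) (x : Fin d → ZMod (2 * m)) : Fin d → ZMod (2 * m) :=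
  Function.update x i0 (1 - x i0)

/-- reflection of the time links -/
def rB (i0 : Fin d) (x : Fin d → ZMod (2 * m)) : Fin d → ZMod (2 * m) :=
  Function.update x i0 (-x i0)

lemma rA_rA (i0 : Fin d) (x : Fin d → ZMod (2 * m)) : rA i0 (rA i0 x) = x := by
  unfold rA
  funext i
  by_cases h : i = i0
  · subst h; simp
  · simp [h]

lemma rB_rB (i0 : Fin d) (x : Fin d → ZMod (2 * m)) : rB i0 (rB i0 x) = x := by
  unfold rB
  funext i
  by_cases h : i = i0
  · subst h; simp
  · simp [h]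

lemma rA_same (i0 : Fin d) (x : Fin d → ZMod (2 * m)) : rA i0 x i0 = 1 - x i0 := by simp [rA]

lemma rB_same (i0 : Fin d) (x : Fin d → ZMod (2 * m)) : rB i0 x i0 = -x i0 := by simp [rB]

/-- crossing links -/
def Cr (i0 : Fin d) (e : Ed d (2 * m)) : Prop :=
  e.2 = i0 ∧ (e.1 i0 = 0 ∨ e.1 i0 = (m : ZMod (2 * m)))

instance (i0 : Fin d) : DecidablePred (Cr (m := m) i0) := fun e => by unfold Cr; infer_instance

/-- the reflection of the periodic lattice -/
def TR (hm : 2 ≤ m) (i0 : Fin d) : Refl (Ed d (2 * m)) where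
  R e := if e.2 = i0 then H2 m (e.1 i0) else H1 m (e.1 i0)
  th e := if e.2 = i0 then (rB i0 e.1, e.2) else (rA i0 e.1, e.2)
  iv e := e.2 = i0
  th_th e := by
    by_cases h : e.2 = i0
    · simp only [h, if_true, rB_rB]
      exact Prod.ext rfl h.symm
    · simp only [h, if_false, rA_rA]
  th_R e := by
    by_cases h : e.2 = i0
    · simp only [h, if_true, rB_same]
      exact H2_neg hm
    · simp only [h, if_false, rA_same]
      intro h1 h2
      exact (H1_one_sub hm _).1 h2 h1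
  iv_th e := by
    by_cases h : e.2 = i0
    · simp only [h, if_true]
    · simp only [h, if_false]
  J := Finset.univ.filter fun e => e.2 ≠ i0 ∧ (e.1 i0 = 1 ∨ e.1 i0 = (m : ZMod (2 * m)))
  J_R e he := by
    rw [Finset.mem_filter] at he
    rw [if_neg he.2.1]
    unfold H1
    rcases he.2.2 with h | h
    · rw [(eq_one_iff hm _).1 h]; omega
    · rw [(eq_m_iff hm _).1 h]; omega
  J_iv e he := by
    rw [Finset.mem_filter] at he
    exact he.2.1

variable {G : Type*} [Group G] {hm : 2 ≤ m} {i0 : Fin d}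

lemma tU_i0 (U : Ed d (2 * m) → G) (x : Fin d → ZMod (2 * m)) :
    (TR hm i0).tU U (x, i0) = (U (rB i0 x, i0))⁻¹ := by
  unfold Refl.tU TR
  simp

lemma tU_ne (U : Ed d (2 * m) → G) (x : Fin d → ZMod (2 * m)) {k : Fin d} (hk : k ≠ i0) :
    (TR hm i0).tU U (x, k) = U (rA i0 x, k) := by
  unfold Refl.tU TR
  simp [hk]

lemma rA_add {k : Fin d} (hk : k ≠ i0) (x : Fin d → ZMod (2 * m)) :
    rA i0 (x + eT k) = rA i0 x + eT k := by
  unfold rA eT
  funext i
  by_cases h : i = i0
  · subst h; simp [hk.symm]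
  · simp [h]

lemma rB_add {k : Fin d} (hk : k ≠ i0) (x : Fin d → ZMod (2 * m)) :
    rB i0 (x + eT k) = rB i0 x + eT k := by
  unfold rB eT
  funext i
  by_cases h : i = i0
  · subst h; simp [hk.symm]
  · simp [h]

lemma rA_eq (x : Fin d → ZMod (2 * m)) : rA i0 x = rB i0 x + eT i0 := by
  unfold rB rA eT
  funext i
  by_cases h : i = i0
  · subst h; simp; ring
  · simp [h]

lemma rA_eq' (x : Fin d → ZMod (2 * m)) : rA i0 (x + eT i0) = rB i0 x := by
  unfold rB rA eT
  funext i
  by_cases h : i = i0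
  · subst h; simp
  · simp [h]

variable [TopologicalSpace G] [IsTopologicalGroup G] [CompactSpace G]
  [SecondCountableTopology G] [MeasurableSpace G] [BorelSpace G] {N n : ℕ} {L : LD G N n}

lemma we_inv (g : G) : we L g⁻¹ = we L g := by
  rw [we_tr, we_tr, L.rho_inv, trace_conjTranspose]
  simp

lemma we_conj (h g : G) : we L (h * g * h⁻¹) = we L g := by
  rw [we_tr, we_tr, trace_conj]

lemma we_conj' (h g : G) : we L (h⁻¹ * g * h) = we L g := by
  have := we_conj (L := L) h⁻¹ g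
  rwa [inv_inv] at this

lemma plqT_swap {l : ℕ} (U : Ed d l → G) (x : Fin d → ZMod l) (i j : Fin d) :
    plqT U x j i = (plqT U x i j)⁻¹ := by
  unfold plqT; group

lemma plqT_A (U : Ed d (2 * m) → G) (x : Fin d → ZMod (2 * m)) {i j : Fin d} (hi : i ≠ i0)
    (hj : j ≠ i0) : plqT ((TR hm i0).tU U) x i j = plqT U (rA i0 x) i j := by
  unfold plqT
  rw [tU_ne _ _ hi, tU_ne _ _ hi, tU_ne _ _ hj, tU_ne _ _ hj, rA_add hi, rA_add hj]

lemma we_plqT_B (U : Ed d (2 * m) → G) (x : Fin d → ZMod (2 * m)) {k : Fin d} (hk : k ≠ i0) :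
    we L (plqT ((TR hm i0).tU U) x i0 k) = we L (plqT U (rB i0 x) i0 k) := by
  have h1 : plqT ((TR hm i0).tU U) x i0 k =
      (U (rB i0 x, i0))⁻¹ * (plqT U (rB i0 x) i0 k)⁻¹ * U (rB i0 x, i0) := by
    unfold plqT
    rw [tU_ne _ _ hk, tU_ne _ _ hk, tU_i0, tU_i0, rB_add hk, rA_eq', rA_eq]
    group
  rw [h1, we_conj', we_inv]

/-! ### the action -/

variable (L) in
/-- plaquettes at `x` without the direction `i0` -/
def aA (i0 : Fin d) {l : ℕ} (U : Ed d l → G) (x : Fin d → ZMod l) : ℝ :=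
  ∑ i, ∑ j, if i < j ∧ i ≠ i0 ∧ j ≠ i0 then we L (plqT U x i j) else 0

variable (L) in
/-- plaquettes at `x` with the direction `i0` -/
def aB (i0 : Fin d) {l : ℕ} (U : Ed d l → G) (x : Fin d → ZMod l) : ℝ :=
  ∑ k, if k ≠ i0 then we L (plqT U x i0 k) else 0

variable (L) in
/-- the action -/
def act {l : ℕ} [NeZero l] (U : Ed d l → G) : ℝ :=
  ∑ x, ∑ i, ∑ j, if i < j then we L (plqT U x i j) else 0

lemma act_eq {l : ℕ} [NeZero l] (i0 : Fin d) (U : Ed d l → G) :
    act L U = ∑ x, aA L i0 U x + ∑ x, aB L i0 U x := by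
  unfold act
  rw [← Finset.sum_add_distrib]
  refine Finset.sum_congr rfl fun x _ => ?_
  have hsym : ∀ i j, we L (plqT U x i j) = we L (plqT U x j i) := fun i j => by
    rw [plqT_swap U x i j, we_inv]
  have h1 : ∀ i j, (if i < j then we L (plqT U x i j) else 0) =
      (if i < j ∧ i ≠ i0 ∧ j ≠ i0 then we L (plqT U x i j) else 0) +
      ((if i = i0 then (if i0 < j then we L (plqT U x i0 j) else 0) else 0) +
        (if j = i0 then (if i < i0 then we L (plqT U x i0 i) else 0) else 0)) := by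
    intro i j
    by_cases hi : i = i0
    · subst hi
      by_cases hj : j = i
      · subst hj; simp
      · simp [hj]
    · by_cases hj : j = i0
      · subst hj
        simp [hi, hsym i j]
      · simp [hi, hj]
  rw [Finset.sum_congr rfl fun i _ => Finset.sum_congr rfl fun j _ => h1 i j]
  simp only [Finset.sum_add_distrib]
  unfold aA aB
  congr 1
  have h2 : ∑ i, ∑ j, (if i = i0 then (if i0 < j then we L (plqT U x i0 j) else 0) else 0) =
      ∑ j, if i0 < j then we L (plqT U x i0 j) else 0 := by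
    rw [Finset.sum_comm]
    refine Finset.sum_congr rfl fun j _ => ?_
    rw [Finset.sum_ite_eq' Finset.univ i0]; simp
  have h3 : ∑ i, ∑ j, (if j = i0 then (if i < i0 then we L (plqT U x i0 i) else 0) else 0) =
      ∑ i, if i < i0 then we L (plqT U x i0 i) else 0 := by
    refine Finset.sum_congr rfl fun i _ => ?_
    rw [Finset.sum_ite_eq' Finset.univ i0]; simp
  rw [h2, h3, ← Finset.sum_add_distrib]
  refine Finset.sum_congr rfl fun k _ => ?_
  rcases lt_trichotomy k i0 with h | h | h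
  · rw [if_neg (not_lt.2 h.le), if_pos h, if_pos h.ne, zero_add]
  · subst h; simp
  · rw [if_pos h, if_neg (not_lt.2 h.le), if_pos h.ne', add_zero]

variable (L) in
/-- the action of one half -/
def sR (i0 : Fin d) (U : Ed d (2 * m) → G) : ℝ :=
  ∑ x, (if H1 m (x i0) then aA L i0 U x else 0) + ∑ x, (if H2 m (x i0) then aB L i0 U x else 0)

/-- crossing links set to 1 -/
def fix (i0 : Fin d) (U : Ed d (2 * m) → G) : Ed d (2 * m) → G :=
  fun e => if Cr i0 e then 1 else U e

lemma fix_ne (U : Ed d (2 * m) → G) (x : Fin d → ZMod (2 * m)) {k : Fin d} (hk : k ≠ i0) :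
    fix i0 U (x, k) = U (x, k) := by
  unfold fix Cr
  rw [if_neg (fun h => hk h.1)]

lemma fix_i0 (U : Ed d (2 * m) → G) (x : Fin d → ZMod (2 * m))
    (hx : ¬(x i0 = 0 ∨ x i0 = (m : ZMod (2 * m)))) : fix i0 U (x, i0) = U (x, i0) := by
  unfold fix Cr
  rw [if_neg (fun h => hx h.2)]

lemma fix_i0' (U : Ed d (2 * m) → G) (x : Fin d → ZMod (2 * m))
    (hx : x i0 = 0 ∨ x i0 = (m : ZMod (2 * m))) : fix i0 U (x, i0) = 1 := by
  unfold fix Cr
  rw [if_pos ⟨rfl, hx⟩]

lemma add_ne {l : ℕ} (x : Fin d → ZMod l) {k : Fin d} (hk : k ≠ i0) :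
    (x + eT k : Fin d → ZMod l) i0 = x i0 := by
  simp [eT, hk.symm]

lemma add_same {l : ℕ} (x : Fin d → ZMod l) : (x + eT i0 : Fin d → ZMod l) i0 = x i0 + 1 := by
  simp [eT]

lemma plqT_congr {l : ℕ} {U U' : Ed d l → G} {x : Fin d → ZMod l} {i j : Fin d}
    (h1 : U (x, i) = U' (x, i)) (h2 : U (x + eT i, j) = U' (x + eT i, j))
    (h3 : U (x + eT j, i) = U' (x + eT j, i)) (h4 : U (x, j) = U' (x, j)) :
    plqT U x i j = plqT U' x i j := by
  unfold plqT; rw [h1, h2, h3, h4]

lemma aA_congr {l : ℕ} {U U' : Ed d l → G} {x : Fin d → ZMod l}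
    (h : ∀ y k, k ≠ i0 → y i0 = x i0 → U (y, k) = U' (y, k)) : aA L i0 U x = aA L i0 U' x := by
  unfold aA
  refine Finset.sum_congr rfl fun i _ => Finset.sum_congr rfl fun j _ => ?_
  split_ifs with hij
  · have e : ∀ k : Fin d, k ≠ i0 → (x + eT k : Fin d → ZMod l) i0 = x i0 := fun k hk => add_ne x hk
    rw [plqT_congr (h _ _ hij.2.1 rfl) (h _ _ hij.2.2 (e _ hij.2.1)) (h _ _ hij.2.1 (e _ hij.2.2))
      (h _ _ hij.2.2 rfl)]
  · rfl

lemma aB_congr {l : ℕ} {U U' : Ed d l → G} {x : Fin d → ZMod l}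
    (h : ∀ y k, k ≠ i0 → (y i0 = x i0 ∨ y i0 = x i0 + 1) → U (y, k) = U' (y, k))
    (h' : ∀ y, y i0 = x i0 → U (y, i0) = U' (y, i0)) : aB L i0 U x = aB L i0 U' x := by
  unfold aB
  refine Finset.sum_congr rfl fun k _ => ?_
  split_ifs with hk
  · have e : (x + eT k : Fin d → ZMod l) i0 = x i0 := add_ne x hk
    rw [plqT_congr (h' _ rfl) (h _ _ hk (Or.inr (add_same x))) (h' _ e) (h _ _ hk (Or.inl rfl))]
  · rfl

lemma H2_not {v : ZMod (2 * m)} (hm : 2 ≤ m) (h : H2 m v) : ¬(v = 0 ∨ v = (m : ZMod (2 * m))) := by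
  rintro (h' | h')
  · rw [eq_zero_iff] at h'
    unfold H2 at h; omega
  · rw [eq_m_iff hm] at h'
    unfold H2 at h; omega

lemma H2_not' {v : ZMod (2 * m)} (hm : 2 ≤ m) (h : H2 m (-v)) :
    ¬(v = 0 ∨ v = (m : ZMod (2 * m))) := by
  unfold H2 at h
  rw [val_neg' v] at h
  rintro (h' | h')
  · rw [eq_zero_iff] at h'
    rw [if_pos h'] at h; omega
  · rw [eq_m_iff hm] at h'
    rw [if_neg (by omega), h'] at h; omega

lemma sR_dep : Dep (TR hm i0).R (sR (m := m) L i0 : (Ed d (2 * m) → G) → ℝ) := by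
  intro U U' h
  have h1 : ∀ y k, k ≠ i0 → H1 m (y i0) → U (y, k) = U' (y, k) := fun y k hk hy => by
    refine h _ ?_
    show if k = i0 then _ else _
    rw [if_neg hk]; exact hy
  have h2 : ∀ y, H2 m (y i0) → U (y, i0) = U' (y, i0) := fun y hy => by
    refine h _ ?_
    show if i0 = i0 then _ else _
    rw [if_pos rfl]; exact hy
  unfold sR
  congr 1
  · refine Finset.sum_congr rfl fun x _ => ?_
    split_ifs with hx
    · exact aA_congr fun y k hk hy => h1 y k hk (by rw [hy]; exact hx)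
    · rfl
  · refine Finset.sum_congr rfl fun x _ => ?_
    split_ifs with hx
    · refine aB_congr (fun y k hk hy => ?_) (fun y hy => h2 y (by rw [hy]; exact hx))
      rcases hy with hy | hy
      · exact h1 y k hk (by rw [hy]; exact (H2_H1 hm hx).1)
      · exact h1 y k hk (by rw [hy]; exact (H2_H1 hm hx).2)
    · rfl

lemma aA_tU (U : Ed d (2 * m) → G) (x : Fin d → ZMod (2 * m)) :
    aA L i0 ((TR hm i0).tU U) x = aA L i0 U (rA i0 x) := by
  unfold aA
  refine Finset.sum_congr rfl fun i _ => Finset.sum_congr rfl fun j _ => ?_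
  split_ifs with hij
  · rw [plqT_A _ _ hij.2.1 hij.2.2]
  · rfl

lemma aB_tU (U : Ed d (2 * m) → G) (x : Fin d → ZMod (2 * m)) :
    aB L i0 ((TR hm i0).tU U) x = aB L i0 U (rB i0 x) := by
  unfold aB
  refine Finset.sum_congr rfl fun k _ => ?_
  split_ifs with hk
  · rw [we_plqT_B _ _ hk]
  · rfl

/-- the reflections as equivalences -/
def eA (i0 : Fin d) : (Fin d → ZMod (2 * m)) ≃ (Fin d → ZMod (2 * m)) :=
  ⟨rA i0, rA i0, rA_rA i0, rA_rA i0⟩

/-- the reflections as equivalences -/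
def eB (i0 : Fin d) : (Fin d → ZMod (2 * m)) ≃ (Fin d → ZMod (2 * m)) :=
  ⟨rB i0, rB i0, rB_rB i0, rB_rB i0⟩

lemma sR_tU (hm : 2 ≤ m) (U : Ed d (2 * m) → G) : sR L i0 ((TR hm i0).tU U) =
    ∑ x, (if H1 m (x i0) then 0 else aA L i0 U x) +
      ∑ x, (if H2 m (-x i0) then aB L i0 U x else 0) := by
  unfold sR
  congr 1
  · rw [← Equiv.sum_comp (eA (m := m) i0)]
    refine Finset.sum_congr rfl fun x _ => ?_
    have h1 : eA (m := m) i0 x = rA i0 x := rfl
    rw [h1, aA_tU, rA_rA, rA_same]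
    by_cases h : H1 m (x i0)
    · rw [if_pos h, if_neg (fun h' => (H1_one_sub hm _).1 h' h)]
    · rw [if_neg h, if_pos ((H1_one_sub hm _).2 h)]
  · rw [← Equiv.sum_comp (eB (m := m) i0)]
    refine Finset.sum_congr rfl fun x _ => ?_
    have h1 : eB (m := m) i0 x = rB i0 x := rfl
    rw [h1, aB_tU, rB_rB, rB_same]

lemma aB_cross (U : Ed d (2 * m) → G) (x : Fin d → ZMod (2 * m))
    (hx : x i0 = 0 ∨ x i0 = (m : ZMod (2 * m))) :
    aB L i0 (fix i0 U) x = ∑ k, if k ≠ i0 then we L (U (x + eT i0, k) * (U (x, k))⁻¹) else 0 := by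
  unfold aB
  refine Finset.sum_congr rfl fun k _ => ?_
  split_ifs with hk
  · unfold plqT
    rw [fix_i0' _ _ hx, fix_i0' _ _ (by rw [add_ne x hk]; exact hx), fix_ne _ _ hk, fix_ne _ _ hk]
    simp
  · rfl

lemma sum_J (hm : 2 ≤ m) (f : Ed d (2 * m) → ℝ) : ∑ e ∈ (TR hm i0).J, f e =
    ∑ x, (if x i0 = 0 then ∑ k, (if k ≠ i0 then f (x + eT i0, k) else 0) else 0) +
      ∑ x, (if x i0 = (m : ZMod (2 * m)) then ∑ k, (if k ≠ i0 then f (x, k) else 0) else 0) := by
  have h1 : (TR hm i0).J = Finset.univ.filter fun e : Ed d (2 * m) =>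
    e.2 ≠ i0 ∧ (e.1 i0 = 1 ∨ e.1 i0 = (m : ZMod (2 * m))) := rfl
  rw [h1, Finset.sum_filter, Fintype.sum_prod_type]
  have h2 : ∑ x : Fin d → ZMod (2 * m),
      (if x i0 = 0 then ∑ k, (if k ≠ i0 then f (x + eT i0, k) else 0) else 0) =
      ∑ x : Fin d → ZMod (2 * m),
        (if x i0 = 1 then ∑ k, (if k ≠ i0 then f (x, k) else 0) else 0) := by
    symm
    rw [← Equiv.sum_comp (Equiv.addRight (eT i0 : Fin d → ZMod (2 * m)))]
    refine Finset.sum_congr rfl fun x _ => ?_
    have h3 : Equiv.addRight (eT i0 : Fin d → ZMod (2 * m)) x = x + eT i0 := rfl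
    rw [h3]
    have h4 : (x + eT i0 : Fin d → ZMod (2 * m)) i0 = x i0 + 1 := add_same x
    rw [h4]
    by_cases h : x i0 = 0
    · rw [if_pos h, if_pos (by rw [h, zero_add])]
    · rw [if_neg h, if_neg (fun h' => h (by
        have : x i0 + 1 = 0 + 1 := by rw [h', zero_add]
        exact add_right_cancel this))]
  rw [h2, ← Finset.sum_add_distrib]
  refine Finset.sum_congr rfl fun x _ => ?_
  by_cases hx1 : x i0 = 1
  · have hxm : ¬(x i0 = (m : ZMod (2 * m))) := by
      rw [eq_m_iff hm, (eq_one_iff hm _).1 hx1]; omega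
    rw [if_pos hx1, if_neg hxm, add_zero]
    refine Finset.sum_congr rfl fun k _ => ?_
    simp [hx1]
  · by_cases hxm : x i0 = (m : ZMod (2 * m))
    · rw [if_neg hx1, if_pos hxm, zero_add]
      refine Finset.sum_congr rfl fun k _ => ?_
      simp [hxm]
    · rw [if_neg hx1, if_neg hxm, add_zero]
      refine Finset.sum_eq_zero fun k _ => ?_
      simp [hx1, hxm]

lemma act_fix (hm : 2 ≤ m) (U : Ed d (2 * m) → G) : act L (fix i0 U) =
    sR L i0 U + sR L i0 ((TR hm i0).tU U) + ∑ e ∈ (TR hm i0).J, we L ((TR hm i0).W U e) := by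
  rw [act_eq i0, sR_tU, sum_J hm]
  unfold sR
  have hA : ∀ x, aA L i0 (fix i0 U) x = aA L i0 U x := fun x =>
    aA_congr fun y k hk _ => fix_ne _ _ hk
  have hB : ∀ x : Fin d → ZMod (2 * m), ¬(x i0 = 0 ∨ x i0 = (m : ZMod (2 * m))) →
      aB L i0 (fix i0 U) x = aB L i0 U x := fun x hx =>
    aB_congr (fun y k hk _ => fix_ne _ _ hk) fun y hy => fix_i0 _ _ (by rw [hy]; exact hx)
  have h1 : ∑ x, aA L i0 (fix i0 U) x = ∑ x, (if H1 m (x i0) then aA L i0 U x else 0) +
      ∑ x, (if H1 m (x i0) then 0 else aA L i0 U x) := by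
    rw [← Finset.sum_add_distrib]
    refine Finset.sum_congr rfl fun x _ => ?_
    rw [hA]
    split_ifs <;> ring
  have h2 : ∑ x, aB L i0 (fix i0 U) x = ∑ x, (if H2 m (x i0) then aB L i0 U x else 0) +
      ∑ x, (if H2 m (-x i0) then aB L i0 U x else 0) +
      (∑ x, (if x i0 = 0 then ∑ k, (if k ≠ i0 then
        we L ((TR hm i0).W U (x + eT i0, k)) else 0) else 0) +
      ∑ x, (if x i0 = (m : ZMod (2 * m)) then ∑ k, (if k ≠ i0 then
        we L ((TR hm i0).W U (x, k)) else 0) else 0)) := by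
    rw [← Finset.sum_add_distrib, ← Finset.sum_add_distrib, ← Finset.sum_add_distrib]
    refine Finset.sum_congr rfl fun x _ => ?_
    rw [part hm (x i0) (aB L i0 (fix i0 U) x), ← add_assoc]
    congr 1
    · congr 1
      · congr 1
        · split_ifs with h
          · exact hB x (H2_not hm h)
          · rfl
        · split_ifs with h
          · exact hB x (H2_not' hm h)
          · rfl
      · split_ifs with h
        · rw [aB_cross _ _ (Or.inl h)]
          refine Finset.sum_congr rfl fun k _ => ?_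
          split_ifs with hk
          · congr 1
            have h3 : rB i0 x = x := by
              unfold rB
              rw [h, neg_zero, ← h, Function.update_eq_self]
            have h4 : (TR hm i0).W U (x + eT i0, k) =
                U (x + eT i0, k) * (U (rA i0 (x + eT i0), k))⁻¹ := by
              unfold Refl.W TR
              simp [hk]
            rw [h4, rA_eq', h3]
          · rfl
        · rfl
    · split_ifs with h
      · rw [aB_cross _ _ (Or.inr h)]
        refine Finset.sum_congr rfl fun k _ => ?_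
        split_ifs with hk
        · have h3 : rA i0 x = x + eT i0 := by
            rw [rA_eq]
            congr 1
            unfold rB
            have h5 : -(m : ZMod (2 * m)) = m := by
              have h6 : ((2 * m : ℕ) : ZMod (2 * m)) = 0 := ZMod.natCast_self _
              push_cast at h6
              linear_combination -h6
            rw [h, h5, ← h, Function.update_eq_self]
          have h4 : (TR hm i0).W U (x, k) = U (x, k) * (U (rA i0 x, k))⁻¹ := by
            unfold Refl.W TR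
            simp [hk]
          rw [h4, h3, ← we_inv]
          congr 1
          group
        · rfl
      · rfl
  rw [h1, h2]
  ring

end

end Pool.Agent.W793.YM
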