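import Mathlib
import Pool.Agent.W793.YM.TorRefl

/-!
# Expectations on the periodic lattice: gauge fixing and translations
-/

open MeasureTheory Matrix
open scoped Matrix.Norms.Frobenius ContDiff
open Pool.Agent.H906R3.YM

namespace Pool.Agent.W793.YM

set_option linter.unusedSectionVars false
set_option linter.unusedVariables false

noncomputable section

/-- gauge invariant functions -/
def GI {d l : ℕ} {G : Type*} [Group G] {α : Type*} (F : (Ed d l → G) → α) : Prop :=
  ∀ γ U, F (gt γ U) = F U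

variable {G : Type*} [Group G] [TopologicalSpace G] [IsTopologicalGroup G] [CompactSpace G]
  [SecondCountableTopology G] [MeasurableSpace G] [BorelSpace G] (μ : Measure G)
  [IsProbabilityMeasure μ] [μ.IsMulLeftInvariant] [μ.IsMulRightInvariant] [μ.IsInvInvariant]
  {N n : ℕ} (L : LD G N n)

section fixing

variable {d m : ℕ} [NeZero m] {i0 : Fin d}

/-- the gauge transformation which removes the crossing links -/
def gf (i0 : Fin d) (U : Ed d (2 * m) → G) (x : Fin d → ZMod (2 * m)) : G :=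
  if Cr i0 ((x - eT i0 : Fin d → ZMod (2 * m)), i0) then U (x - eT i0, i0) else 1

lemma gf_cont (x : Fin d → ZMod (2 * m)) : Continuous fun U : Ed d (2 * m) → G => gf i0 U x := by
  unfold gf
  split_ifs
  · exact continuous_apply _
  · exact continuous_const

lemma gf_dep (x : Fin d → ZMod (2 * m)) :
    Dep (fun e => ¬¬Cr i0 e) fun U : Ed d (2 * m) → G => gf i0 U x := by
  intro U U' h
  show gf i0 U x = gf i0 U' x
  unfold gf
  split_ifs with hc
  · exact h _ (not_not.2 hc)
  · rfl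

lemma fix_cont : Continuous (fix (G := G) (m := m) i0) := by
  refine continuous_pi fun e => ?_
  unfold fix
  split_ifs
  · exact continuous_const
  · exact continuous_apply _

lemma fix_skew (hm : 2 ≤ m) (U : Ed d (2 * m) → G) :
    fix i0 (fun e => if ¬Cr i0 e then gf i0 U e.1 * U e * (gf i0 U (e.1 + eT e.2))⁻¹ else U e) =
      gt (gf i0 U) U := by
  funext e
  unfold fix gt
  by_cases h : Cr i0 e
  · rw [if_pos h]
    obtain ⟨x, k⟩ := e
    have hk : k = i0 := h.1
    subst hk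
    have h1 : gf k U (x + eT k) = U (x, k) := by
      unfold gf
      rw [if_pos (by rw [add_sub_cancel_right]; exact h), add_sub_cancel_right]
    have h2 : gf k U x = 1 := by
      unfold gf
      rw [if_neg]
      rintro ⟨-, hc⟩
      have h3 : (x - eT k : Fin d → ZMod (2 * m)) k = x k - 1 := by simp [eT]
      simp only [h3] at hc
      have h4 := val_lt' (x k - 1)
      have h5 := val_add_one' (x k - 1)
      rw [sub_add_cancel] at h5
      have h6 : x k = 0 ∨ x k = (m : ZMod (2 * m)) := h.2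
      rw [eq_zero_iff, eq_m_iff hm] at h6 hc
      split_ifs at h5 <;> omega
    simp only [h1, h2]
    group
  · rw [if_neg h]
    simp only [h, not_false_eq_true, if_true]

theorem integral_fix (hm : 2 ≤ m) {F : (Ed d (2 * m) → G) → ℝ} (hF : Continuous F) (hg : GI F) :
    ∫ U, F (fix i0 U) ∂(ME μ (Ed d (2 * m))) = ∫ U, F U ∂(ME μ (Ed d (2 * m))) := by
  have h1 := integral_skew μ (fun e => ¬Cr (m := m) i0 e) (F := fun U => F (fix i0 U))
    (hF.comp fix_cont) (a := fun e U => gf i0 U e.1) (b := fun e U => (gf i0 U (e.1 + eT e.2))⁻¹)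
    (fun e => gf_cont _) (fun e => (gf_cont _).inv) (fun e => gf_dep _) (fun e => by
      intro U U' h
      show (gf i0 U _)⁻¹ = (gf i0 U' _)⁻¹
      congr 1
      exact gf_dep _ U U' h)
  rw [← h1]
  refine integral_congr_ae (Filter.Eventually.of_forall fun U => ?_)
  simp only
  rw [fix_skew hm, hg]

end fixing

section act

variable {d l : ℕ} [NeZero l]

variable {L}

lemma plqT_gt (γ : (Fin d → ZMod l) → G) (U : Ed d l → G) (x : Fin d → ZMod l) (i j : Fin d) :
    plqT (gt γ U) x i j = γ x * plqT U x i j * (γ x)⁻¹ := by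
  unfold plqT gt
  simp only
  rw [add_right_comm x (eT j) (eT i)]
  group

lemma act_gt : GI (act L : (Ed d l → G) → ℝ) := by
  intro γ U
  unfold act
  simp only [plqT_gt, we_conj]

lemma mem_sum {E : Type*} [Fintype E] [DecidableEq E] {ι : Type*} (s : Finset ι)
    {f : ι → (E → G) → ℝ} (h : ∀ i ∈ s, f i ∈ Sm L E) : (fun U => ∑ i ∈ s, f i U) ∈ Sm L E := by
  have h1 : (fun U => ∑ i ∈ s, f i U) = ∑ i ∈ s, f i := by
    funext U; rw [Finset.sum_apply]
  rw [h1]
  exact Subalgebra.sum_mem _ h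

lemma mem_ite {E : Type*} [Fintype E] [DecidableEq E] (p : Prop) [Decidable p]
    {f : (E → G) → ℝ} (h : f ∈ Sm L E) : (fun U => if p then f U else 0) ∈ Sm L E := by
  split_ifs
  · exact h
  · exact Subalgebra.zero_mem _

lemma we_mem (x : Fin d → ZMod l) (i j : Fin d) :
    (fun U : Ed d l → G => we L (plqT U x i j)) ∈ Sm L (Ed d l) := by
  have h := (Pool.Agent.H906R3.YM.lin (L := L) (ip 1) _ (SmM_plqT (L := L) x i j)).2
  have h1 : (Pool.Agent.H906R3.YM.lin (L := L) (ip 1) _ (SmM_plqT (L := L) x i j)).1 =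
      fun U : Ed d l → G => we L (plqT U x i j) := by
    funext U
    rw [lin_apply, ip_apply, conjTranspose_one, one_mul]; rfl
  rw [h1] at h
  exact h

lemma act_mem : (act L : (Ed d l → G) → ℝ) ∈ Sm L (Ed d l) := by
  unfold act
  exact mem_sum _ fun x _ => mem_sum _ fun i _ => mem_sum _ fun j _ => mem_ite _ (we_mem x i j)

lemma aA_mem (i0 : Fin d) (x : Fin d → ZMod l) :
    (fun U : Ed d l → G => aA L i0 U x) ∈ Sm L (Ed d l) := by
  unfold aA
  exact mem_sum _ fun i _ => mem_sum _ fun j _ => mem_ite _ (we_mem x i j)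

lemma aB_mem (i0 : Fin d) (x : Fin d → ZMod l) :
    (fun U : Ed d l → G => aB L i0 U x) ∈ Sm L (Ed d l) := by
  unfold aB
  exact mem_sum _ fun k _ => mem_ite _ (we_mem x i0 k)

lemma act_cont : Continuous (act L : (Ed d l → G) → ℝ) := Sm_cont ⟨_, act_mem⟩

variable (L) in
/-- the unnormalised expectation -/
def Zt (β : ℝ) (F : (Ed d l → G) → ℝ) : ℝ :=
  ∫ U, F U * Real.exp (-(β * act L U)) ∂(ME μ (Ed d l))

lemma wt_contT (β : ℝ) : Continuous fun U : Ed d l → G => Real.exp (-(β * act L U)) :=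
  Real.continuous_exp.comp (continuous_const.mul act_cont).neg

lemma Zt_mono {β : ℝ} {F H : (Ed d l → G) → ℝ} (hF : Continuous F) (hH : Continuous H)
    (h : ∀ U, F U ≤ H U) : Zt μ L β F ≤ Zt μ L β H := by
  unfold Zt
  exact integral_mono (integrable_cont μ (hF.mul (wt_contT β)))
    (integrable_cont μ (hH.mul (wt_contT β))) fun U =>
      mul_le_mul_of_nonneg_right (h U) (Real.exp_pos _).le

lemma Zt_add {β : ℝ} {F H : (Ed d l → G) → ℝ} (hF : Continuous F) (hH : Continuous H) :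
    Zt μ L β (fun U => F U + H U) = Zt μ L β F + Zt μ L β H := by
  unfold Zt
  have i1 : Integrable (fun U => F U * Real.exp (-(β * act L U))) (ME μ (Ed d l)) :=
    integrable_cont μ (hF.mul (wt_contT β))
  have i2 : Integrable (fun U => H U * Real.exp (-(β * act L U))) (ME μ (Ed d l)) :=
    integrable_cont μ (hH.mul (wt_contT β))
  rw [← integral_add i1 i2]
  refine integral_congr_ae (Filter.Eventually.of_forall fun U => ?_)
  simp only; ring

lemma Zt_smul {β : ℝ} (c : ℝ) (F : (Ed d l → G) → ℝ) :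
    Zt μ L β (fun U => c * F U) = c * Zt μ L β F := by
  unfold Zt
  rw [← integral_const_mul]
  refine integral_congr_ae (Filter.Eventually.of_forall fun U => ?_)
  simp only; ring

lemma Zt_nonneg {β : ℝ} {F : (Ed d l → G) → ℝ} (h : ∀ U, 0 ≤ F U) : 0 ≤ Zt μ L β F :=
  integral_nonneg fun U => mul_nonneg (h U) (Real.exp_pos _).le

lemma Zt_pos (β : ℝ) : 0 < Zt μ L β (fun _ : Ed d l → G => 1) := by
  unfold Zt
  simp only [one_mul]
  refine integral_exp_pos ?_
  exact integrable_cont μ (wt_contT β)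

/-- translations of the configurations -/
def tr (z : Fin d → ZMod l) (U : Ed d l → G) : Ed d l → G := fun e => U (e.1 + z, e.2)

lemma tr_cont (z : Fin d → ZMod l) : Continuous (tr (G := G) z) :=
  continuous_pi fun e => continuous_apply _

/-- translation of the links -/
def trE (z : Fin d → ZMod l) : Ed d l ≃ Ed d l :=
  ⟨fun e => (e.1 - z, e.2), fun e => (e.1 + z, e.2), fun e => by simp, fun e => by simp⟩

lemma integral_tr (z : Fin d → ZMod l) (F : (Ed d l → G) → ℝ) :
    ∫ U, F (tr z U) ∂(ME μ (Ed d l)) = ∫ U, F U ∂(ME μ (Ed d l)) := by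
  have h1 := measurePreserving_piCongrLeft (fun _ : Ed d l => μ) (trE z)
  have h2 : ((MeasurableEquiv.piCongrLeft (fun _ : Ed d l => G) (trE z)) :
      (Ed d l → G) → (Ed d l → G)) = tr z := by
    funext U e
    have h6 : e = trE z (e.1 + z, e.2) := by simp [trE]
    conv_lhs => rw [h6]
    exact Equiv.piCongrLeft_apply_apply (fun _ : Ed d l => G) (trE z) U (e.1 + z, e.2)
  have h3 := h1.integral_comp (MeasurableEquiv.measurableEmbedding _) F
  rw [← h3, ← h2]

lemma plqT_tr (z : Fin d → ZMod l) (U : Ed d l → G) (x : Fin d → ZMod l) (i j : Fin d) :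
    plqT (tr z U) x i j = plqT U (x + z) i j := by
  unfold plqT tr
  simp only
  rw [add_right_comm x (eT i) z, add_right_comm x (eT j) z]

lemma act_tr (z : Fin d → ZMod l) (U : Ed d l → G) : act L (tr z U) = act L U := by
  unfold act
  simp only [plqT_tr]
  exact Equiv.sum_comp (Equiv.addRight z)
    (fun x => ∑ i, ∑ j, if i < j then we L (plqT U x i j) else 0)

lemma Zt_tr (β : ℝ) (z : Fin d → ZMod l) (F : (Ed d l → G) → ℝ) :
    Zt μ L β (fun U => F (tr z U)) = Zt μ L β F := by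
  unfold Zt
  rw [← integral_tr μ z (fun U => F U * Real.exp (-(β * act L U)))]
  simp only [act_tr]

end act

section red

variable {d m : ℕ} [NeZero m]

lemma sR_mem (i0 : Fin d) : (sR L i0 : (Ed d (2 * m) → G) → ℝ) ∈ Sm L (Ed d (2 * m)) := by
  unfold sR
  exact Subalgebra.add_mem _ (mem_sum _ fun x _ => mem_ite _ (aA_mem i0 x))
    (mem_sum _ fun x _ => mem_ite _ (aB_mem i0 x))

/-- the weight of one half -/
def wR (β : ℝ) (m : ℕ) [NeZero m] (i0 : Fin d) : Sm L (Ed d (2 * m)) :=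
  sexp ((-β) • (⟨sR L i0, sR_mem L i0⟩ : Sm L (Ed d (2 * m))))

variable {L}

lemma wR_apply (β : ℝ) (i0 : Fin d) (U : Ed d (2 * m) → G) :
    (wR L β m i0).1 U = Real.exp (-(β * sR L i0 U)) := by
  unfold wR
  rw [sexp_apply]
  congr 1
  show (-β) * sR L i0 U = _
  ring

lemma wR_dep (hm : 2 ≤ m) (β : ℝ) (i0 : Fin d) : Dep (TR hm i0).R (wR L β m i0).1 := by
  intro U U' h
  rw [wR_apply, wR_apply, sR_dep (hm := hm) (L := L) U U' h]

lemma wR_nonneg (β : ℝ) (i0 : Fin d) (U : Ed d (2 * m) → G) : 0 ≤ (wR L β m i0).1 U := by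
  rw [wR_apply]; exact (Real.exp_pos _).le

theorem Zt_red (hm : 2 ≤ m) (i0 : Fin d) (β : ℝ) : ∃ c : ℝ, 0 < c ∧
    ∀ F : (Ed d (2 * m) → G) → ℝ, Continuous F → GI F →
      Zt μ L β F = c * (TR hm i0).Ew μ L β (wR L β m i0).1 (fun U => F (fix i0 U)) := by
  refine ⟨Real.exp (-(β * ∑ e ∈ (TR hm i0).J, (N : ℝ))), Real.exp_pos _, fun F hF hg => ?_⟩
  unfold Zt
  have h0 := integral_fix (i0 := i0) μ hm (F := fun U => F U * Real.exp (-(β * act L U)))
    (hF.mul (wt_contT β)) (fun γ U => by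
      show F _ * Real.exp (-(β * act L _)) = F _ * Real.exp (-(β * act L _))
      rw [hg γ U, act_gt γ U])
  rw [← h0]
  unfold Refl.Ew
  rw [← integral_const_mul]
  refine integral_congr_ae (Filter.Eventually.of_forall fun U => ?_)
  simp only
  rw [act_fix hm, wR_apply, wR_apply, ker_eqW]
  have h1 : ∑ e ∈ (TR hm i0).J, we L ((TR hm i0).W U e) = ∑ e ∈ (TR hm i0).J, (N : ℝ) -
      ∑ e ∈ (TR hm i0).J, (trace (L.rho ((TR hm i0).W U e))).re := by
    rw [← Finset.sum_sub_distrib]
    exact Finset.sum_congr rfl fun e _ => we_tr _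
  rw [h1]
  have h2 : ∀ a b c e f : ℝ, Real.exp (-(β * (a + b + (c - e)))) =
      Real.exp (-(β * c)) * (Real.exp (-(β * a)) * Real.exp (-(β * b)) * Real.exp (β * e)) := by
    intro a b c e f
    rw [← Real.exp_add, ← Real.exp_add, ← Real.exp_add]
    congr 1; ring
  rw [h2 _ _ _ _ 0]
  ring

theorem plaq_moment : ∃ C : ℝ, 0 < C ∧ ∀ b : ℝ, 1 ≤ b → ∀ (d m : ℕ) [NeZero m], 2 ≤ m →
    ∀ (x : Fin d → ZMod (2 * m)) (i j : Fin d), i ≠ j →
      b ^ 6 * Zt μ L (b ^ 4) (fun U : Ed d (2 * m) → G => we L (plqT U x i j) ^ 2) ≤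
        C * Zt μ L (b ^ 4) (fun _ : Ed d (2 * m) → G => 1) := by
  obtain ⟨C, hC, h⟩ := moment μ (L := L)
  refine ⟨C, hC, fun b hb d m _ hm x i j hij => ?_⟩
  have h0 : Zt μ L (b ^ 4) (fun U : Ed d (2 * m) → G => we L (plqT U x i j) ^ 2) =
      Zt μ L (b ^ 4) (fun U : Ed d (2 * m) → G => we L (plqT U 0 i j) ^ 2) := by
    rw [← Zt_tr μ _ x (fun U : Ed d (2 * m) → G => we L (plqT U 0 i j) ^ 2)]
    simp only [plqT_tr, zero_add]
  rw [h0]
  obtain ⟨c, hc, hred⟩ := Zt_red μ (L := L) hm j (b ^ 4)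
  have hcont : Continuous fun U : Ed d (2 * m) → G => we L (plqT U 0 i j) ^ 2 :=
    (Sm_cont ⟨_, we_mem (L := L) 0 i j⟩).pow 2
  have hgi : GI fun U : Ed d (2 * m) → G => we L (plqT U 0 i j) ^ 2 := fun γ U => by
    show we L (plqT (gt γ U) 0 i j) ^ 2 = _
    rw [plqT_gt, we_conj]
  have hgi1 : GI fun _ : Ed d (2 * m) → G => (1 : ℝ) := fun γ U => rfl
  rw [hred _ hcont hgi, hred _ continuous_const hgi1]
  have hJ : ((0 + eT j : Fin d → ZMod (2 * m)), i) ∈ (TR hm j).J := by
    show _ ∈ Finset.univ.filter _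
    rw [Finset.mem_filter]
    refine ⟨Finset.mem_univ _, hij, Or.inl ?_⟩
    simp only [add_same, Pi.zero_apply, zero_add]
  have h1 := h b hb _ (TR hm j) (wR L (b ^ 4) m j).1 (Sm_cont _) (wR_dep hm _ _)
    (wR_nonneg _ _) _ hJ
  have h2 : (fun U : Ed d (2 * m) → G => we L (plqT (fix j U) 0 i j) ^ 2) = fun U =>
      we L ((TR hm j).W U ((0 + eT j : Fin d → ZMod (2 * m)), i)) ^ 2 := by
    funext U
    congr 1
    have h3 : plqT (fix j U) 0 i j =
        ((TR hm j).W U ((0 + eT j : Fin d → ZMod (2 * m)), i))⁻¹ := by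
      have h5 : rB j (0 : Fin d → ZMod (2 * m)) = 0 := by
        unfold rB
        simp
      have h4 : (TR hm j).W U ((0 + eT j : Fin d → ZMod (2 * m)), i) =
          U (0 + eT j, i) * (U (rA j (0 + eT j), i))⁻¹ := by
        unfold Refl.W TR
        simp [hij]
      rw [h4, rA_eq', h5]
      unfold plqT
      rw [fix_i0' U 0 (Or.inl rfl), fix_i0' U _ (Or.inl (add_ne 0 hij)),
        fix_ne _ _ hij, fix_ne _ _ hij]
      group
    rw [h3, we_inv]
  rw [h2]
  calc b ^ 6 * (c * (TR hm j).Ew μ L (b ^ 4) (wR L (b ^ 4) m j).1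
        (fun U => we L ((TR hm j).W U ((0 + eT j : Fin d → ZMod (2 * m)), i)) ^ 2)) =
      c * (b ^ 6 * (TR hm j).Ew μ L (b ^ 4) (wR L (b ^ 4) m j).1
        (fun U => we L ((TR hm j).W U ((0 + eT j : Fin d → ZMod (2 * m)), i)) ^ 2)) := by ring
    _ ≤ c * (C * (TR hm j).Ew μ L (b ^ 4) (wR L (b ^ 4) m j).1 (fun _ => 1)) :=
        mul_le_mul_of_nonneg_left h1 hc.le
    _ = _ := by ring

end red

end

end Pool.Agent.W793.YM
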