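import Mathlib
import Pool.Agent.W793.YM.TorExp

/-!
# Deviations from the identity and the comb gauge
-/

open MeasureTheory Matrix
open scoped Matrix.Norms.Frobenius ContDiff
open Pool.Agent.H906R3.YM

namespace Pool.Agent.W793.YM

set_option linter.unusedSectionVars false
set_option linter.unusedVariables false

noncomputable section

section mat

variable {N : ℕ}

lemma norm_sq_ip (A : Mat N) : ‖A‖ ^ 2 = ip A A := by
  have h1 : ip A A = ∑ c, co c A ^ 2 := (sum_co_sq A).symm
  have h2 : ‖A‖ = Real.sqrt (∑ i, ∑ j, ‖A i j‖ ^ 2) := by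
    rw [Matrix.frobenius_norm_def, Real.sqrt_eq_rpow]
    norm_num
  rw [h2, Real.sq_sqrt (Finset.sum_nonneg fun i _ => Finset.sum_nonneg fun j _ => sq_nonneg _), h1]
  have h3 : ∀ c, co c A = if c.2.2 then (A c.1 c.2.1).re else (A c.1 c.2.1).im := fun c => rfl
  simp only [h3]
  rw [Fintype.sum_prod_type]
  simp only [Fintype.sum_prod_type, Fintype.sum_bool, if_true, Bool.false_eq_true, if_false]
  refine Finset.sum_congr rfl fun i _ => Finset.sum_congr rfl fun j _ => ?_
  rw [Complex.sq_norm, Complex.normSq_apply]; ring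

lemma abs_ip_le (A B : Mat N) : |ip A B| ≤ ‖A‖ * ‖B‖ := by
  have h := ip_cs A B
  rw [← norm_sq_ip, ← norm_sq_ip, ← mul_pow] at h
  exact abs_le_of_sq_le_sq h (mul_nonneg (norm_nonneg _) (norm_nonneg _))

lemma norm_ct (A : Mat N) : ‖Aᴴ‖ = ‖A‖ := Matrix.frobenius_norm_conjTranspose A

end mat

variable {G : Type*} [Group G] [TopologicalSpace G] [IsTopologicalGroup G] [CompactSpace G]
  [SecondCountableTopology G] [MeasurableSpace G] [BorelSpace G] {N n : ℕ} {L : LD G N n}

lemma norm_lmul (g : G) (A : Mat N) : ‖L.rho g * A‖ = ‖A‖ := by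
  have h : ‖L.rho g * A‖ ^ 2 = ‖A‖ ^ 2 := by
    rw [norm_sq_ip, norm_sq_ip, ip_apply, ip_apply, conjTranspose_mul, mul_assoc,
      ← mul_assoc (L.rho g)ᴴ, L.unit', one_mul]
  have h0 := norm_nonneg (L.rho g * A)
  have h1 := norm_nonneg A
  nlinarith

lemma norm_rmul (g : G) (A : Mat N) : ‖A * L.rho g‖ = ‖A‖ := by
  have h : A * L.rho g = (L.rho g⁻¹ * Aᴴ)ᴴ := by
    rw [conjTranspose_mul, conjTranspose_conjTranspose, L.rho_inv, conjTranspose_conjTranspose]
  rw [h, norm_ct, norm_lmul, norm_ct]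

lemma norm_X (a : Fin n) : ‖L.X a‖ = 1 := by
  have h : ‖L.X a‖ ^ 2 = 1 := by rw [norm_sq_ip, ip_X, if_pos rfl]
  have h0 := norm_nonneg (L.X a)
  nlinarith

variable (L) in
/-- the deviation from the identity -/
def dv (g : G) : ℝ := ‖L.rho g - 1‖

lemma dv_nonneg (g : G) : 0 ≤ dv L g := norm_nonneg _

lemma dv_cont : Continuous (dv L) := (L.cont.sub continuous_const).norm

lemma dv_one : dv L 1 = 0 := by unfold dv; rw [map_one, sub_self, norm_zero]

lemma dv_sq (g : G) : dv L g ^ 2 = 2 * we L g := by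
  unfold dv
  rw [norm_sq_ip, we_eq, ip_apply]
  have h : (L.rho g - 1)ᴴ * (L.rho g - 1) = (1 - L.rho g)ᴴ * (1 - L.rho g) := by
    rw [← neg_sub, conjTranspose_neg, neg_mul, mul_neg, neg_neg]
  rw [h]; ring

lemma dv_mul (g h : G) : dv L (g * h) ≤ dv L g + dv L h := by
  unfold dv
  have e : L.rho (g * h) - 1 = L.rho g * (L.rho h - 1) + (L.rho g - 1) := by
    rw [map_mul, mul_sub, mul_one]; abel
  rw [e]
  refine (norm_add_le _ _).trans ?_
  rw [norm_lmul]; linarith

lemma dv_inv (g : G) : dv L g⁻¹ = dv L g := by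
  unfold dv
  rw [L.rho_inv, ← norm_ct, conjTranspose_sub, conjTranspose_conjTranspose, conjTranspose_one]

lemma dv_conj (h g : G) : dv L (h * g * h⁻¹) = dv L g := by
  unfold dv
  have e : L.rho (h * g * h⁻¹) - 1 = L.rho h * (L.rho g - 1) * L.rho h⁻¹ := by
    have e1 : L.rho h * L.rho h⁻¹ = 1 := by rw [← map_mul, mul_inv_cancel, map_one]
    rw [map_mul, map_mul, mul_sub, sub_mul, mul_one, e1]
  rw [e, norm_rmul, norm_lmul]

lemma dv_swap (g h : G) : dv L (g * h) = dv L (h * g) := by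
  have e : g * h = h⁻¹ * (h * g) * h⁻¹⁻¹ := by group
  rw [e, dv_conj]

variable (L) in
/-- `Re tr (X_a g)` -/
def fi (a : Fin n) (g : G) : ℝ := trX L a (L.rho g)

lemma abs_trX (a : Fin n) (M : Mat N) : |trX L a M| ≤ ‖M‖ := by
  unfold trX
  refine (abs_ip_le _ _).trans ?_
  rw [norm_ct, norm_X, one_mul]

lemma fi_cont (a : Fin n) : Continuous (fi L a) := (trX L a).continuous.comp L.cont

lemma trX_one (a : Fin n) : trX L a 1 = 0 := by
  rw [trX_apply, mul_one]
  have h := congrArg (fun M => (trace M).re) (skew (L := L) a)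
  simp only [trace_conjTranspose, trace_neg, Complex.neg_re] at h
  have h2 : (star (trace (L.X a))).re = (trace (L.X a)).re := by simp
  rw [h2] at h
  linarith

lemma fi_one (a : Fin n) : fi L a 1 = 0 := by
  unfold fi; rw [map_one, trX_one]

lemma fi_le (a : Fin n) (g : G) : |fi L a g| ≤ dv L g := by
  have h : fi L a g = trX L a (L.rho g - 1) := by
    rw [map_sub, trX_one, sub_zero]; rfl
  rw [h]
  exact abs_trX a _

lemma fi_mul (a : Fin n) (g h : G) : |fi L a (g * h) - fi L a g - fi L a h| ≤ dv L g * dv L h := by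
  have e : fi L a (g * h) - fi L a g - fi L a h = trX L a ((L.rho g - 1) * (L.rho h - 1)) := by
    have e1 : (L.rho g - 1) * (L.rho h - 1) = L.rho (g * h) - L.rho g - L.rho h + 1 := by
      rw [map_mul]; noncomm_ring
    rw [e1, map_add, map_sub, map_sub, trX_one, add_zero]; rfl
  rw [e]
  exact (abs_trX a _).trans (norm_mul_le _ _)

lemma fi_inv (a : Fin n) (g : G) : fi L a g⁻¹ = -fi L a g := by
  unfold fi
  rw [trX_apply, trX_apply, L.rho_inv]
  have h1 : trace (L.X a * (L.rho g)ᴴ) = star (trace (L.rho g * (L.X a)ᴴ)) := by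
    rw [← trace_conjTranspose, conjTranspose_mul, conjTranspose_conjTranspose]
  rw [h1, skew, mul_neg, trace_neg, trace_mul_comm]
  simp

lemma fi_conj (a : Fin n) (h g : G) : |fi L a (h * g * h⁻¹) - fi L a g| ≤ 2 * dv L h * dv L g := by
  have e : fi L a (h * g * h⁻¹) - fi L a g =
      trX L a ((L.rho h - 1) * (L.rho g - 1) * L.rho h⁻¹) +
        trX L a ((L.rho g - 1) * (L.rho h⁻¹ - 1)) := by
    have e2 : L.rho h * L.rho h⁻¹ = 1 := by rw [← map_mul, mul_inv_cancel, map_one]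
    have e1 : (L.rho h - 1) * (L.rho g - 1) * L.rho h⁻¹ + (L.rho g - 1) * (L.rho h⁻¹ - 1) =
        L.rho (h * g * h⁻¹) - L.rho g := by
      have e3 : (L.rho h - 1) * (L.rho g - 1) * L.rho h⁻¹ + (L.rho g - 1) * (L.rho h⁻¹ - 1) =
        L.rho h * L.rho g * L.rho h⁻¹ - L.rho h * L.rho h⁻¹ + 1 - L.rho g := by noncomm_ring
      rw [e3, e2, map_mul, map_mul, sub_add_cancel]
    rw [← map_add, e1, map_sub]; rfl
  rw [e]
  refine (abs_add_le _ _).trans ?_
  have h1 : |trX L a ((L.rho h - 1) * (L.rho g - 1) * L.rho h⁻¹)| ≤ dv L h * dv L g := by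
    refine (abs_trX a _).trans ?_
    rw [norm_rmul]
    exact norm_mul_le _ _
  have h2 : |trX L a ((L.rho g - 1) * (L.rho h⁻¹ - 1))| ≤ dv L g * dv L h := by
    refine (abs_trX a _).trans ((norm_mul_le _ _).trans ?_)
    rw [← dv_inv h]; exact le_rfl
  linarith

/-- one plaquette to first order -/
lemma fi_plq (a : Fin n) {g1 g2 g3 g4 : G} {s : ℝ} (h1 : dv L g1 ≤ s) (h2 : dv L g2 ≤ s)
    (h3 : dv L g3 ≤ s) (h4 : dv L g4 ≤ s) :
    |fi L a (g1 * g2 * g3⁻¹ * g4⁻¹) - (fi L a g1 + fi L a g2 - fi L a g3 - fi L a g4)| ≤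
      6 * s ^ 2 := by
  have hs : 0 ≤ s := (dv_nonneg _).trans h1
  have m1 := fi_mul (L := L) a g1 g2
  have m2 := fi_mul (L := L) a (g1 * g2) g3⁻¹
  have m3 := fi_mul (L := L) a (g1 * g2 * g3⁻¹) g4⁻¹
  rw [fi_inv] at m2 m3
  have d1 := dv_mul (L := L) g1 g2
  have d2 := dv_mul (L := L) (g1 * g2) g3⁻¹
  rw [dv_inv] at d2
  have b1 : dv L g1 * dv L g2 ≤ s ^ 2 := by
    rw [pow_two]; exact mul_le_mul h1 h2 (dv_nonneg _) hs
  have b2 : dv L (g1 * g2) * dv L g3⁻¹ ≤ 2 * s ^ 2 := by
    rw [dv_inv]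
    have : dv L (g1 * g2) ≤ 2 * s := by linarith
    calc _ ≤ 2 * s * s := mul_le_mul this h3 (dv_nonneg _) (by linarith)
      _ = _ := by ring
  have b3 : dv L (g1 * g2 * g3⁻¹) * dv L g4⁻¹ ≤ 3 * s ^ 2 := by
    rw [dv_inv]
    have : dv L (g1 * g2 * g3⁻¹) ≤ 3 * s := by linarith
    calc _ ≤ 3 * s * s := mul_le_mul this h4 (dv_nonneg _) (by linarith)
      _ = _ := by ring
  rw [abs_le] at m1 m2 m3 ⊢
  constructor <;> linarith [m1.1, m1.2, m2.1, m2.2, m3.1, m3.2]

/-! ### the comb gauge -/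

variable {D : ℕ}

/-- links in the comb gauge -/
def tl (u : Pt D → Fin D → G) (w : Pt D) (k : Fin D) : G := fr u w * u w k * (fr u (w + es k))⁻¹

lemma fr_tree (u : Pt D → Fin D → G) (w : Pt D) (k : Fin D) (h : ∀ i < k, w i = 0) :
    fr u (w + es k) = fr u w * u w k := by
  have h2 : ∃ i, 0 < (w + es k) i := ⟨k, by simp [es]⟩
  have h3 : mi (w + es k) h2 = k := by
    refine mi_eq _ _ (by simp [es]) fun i hi => ?_
    simp [es, h i hi, hi.ne]
  rw [fr_succ u h2, h3, add_tsub_cancel_right]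

lemma tl_tree (u : Pt D → Fin D → G) (w : Pt D) (k : Fin D) (h : ∀ i < k, w i = 0) :
    tl u w k = 1 := by
  unfold tl
  rw [fr_tree u w k h, mul_inv_cancel]

/-- one step of the non abelian Stokes formula -/
lemma tl_step (u : Pt D → Fin D → G) (v : Pt D) (j k : Fin D) (hjk : j < k)
    (hv : ∀ i < j, v i = 0) :
    tl u (v + es j) k = (fr u v * plq u v j k * (fr u v)⁻¹) * tl u v k := by
  have h1 : fr u (v + es j) = fr u v * u v j := fr_tree u v j hv
  have h2 : fr u (v + es j + es k) = fr u (v + es k) * u (v + es k) j := by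
    rw [add_right_comm]
    refine fr_tree u _ j fun i hi => ?_
    simp only [Pi.add_apply, hv i hi, zero_add]
    exact es_ne (hi.trans hjk).ne
  unfold tl plq
  rw [h1, h2]
  group

lemma dv_tl (u : Pt D → Fin D → G) {s : ℝ} (hs : 0 ≤ s) (w : Pt D) (k : Fin D)
    (h : ∀ v : Pt D, ∀ j, v ≤ w → j < k → v j + 1 ≤ w j → dv L (plq u v j k) ≤ s) :
    dv L (tl u w k) ≤ sz w * s := by
  induction hn : sz w generalizing w with
  | zero =>
    have hw : ∀ i, w i = 0 := fun i => by
      by_contra hc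
      have := sz_sub (Nat.pos_of_ne_zero hc)
      omega
    rw [tl_tree u w k fun i _ => hw i, dv_one]; simp
  | succ q ih =>
    by_cases hz : ∀ i < k, w i = 0
    · rw [tl_tree u w k hz, dv_one]
      positivity
    · push Not at hz
      obtain ⟨i, hi, hwi⟩ := hz
      have hwp : ∃ i, 0 < w i := ⟨i, Nat.pos_of_ne_zero hwi⟩
      obtain ⟨j, hj⟩ : ∃ j, j = mi w hwp := ⟨_, rfl⟩
      have hji : j ≤ i := by rw [hj]; exact mi_le w hwp (Nat.pos_of_ne_zero hwi)
      have hjk : j < k := lt_of_le_of_lt hji hi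
      have hjp : 0 < w j := by rw [hj]; exact mi_pos w hwp
      obtain ⟨v, hv⟩ : ∃ v : Pt D, v = w - es j := ⟨_, rfl⟩
      have hvw : v + es j = w := by rw [hv]; exact sub_add_es hjp
      have hle : v ≤ w := by rw [hv]; exact fun i => Nat.sub_le _ _
      have hsz := sz_sub hjp
      rw [← hv] at hsz
      have hv0 : ∀ i < j, v i = 0 := fun i' hi' => by
        have h1 : w i' = 0 := by
          by_contra hc
          have h2 := mi_le w hwp (Nat.pos_of_ne_zero hc)
          rw [← hj] at h2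
          exact absurd hi' (not_lt.2 h2)
        have h3 : v i' ≤ w i' := hle i'
        rw [h1] at h3
        exact Nat.le_zero.1 h3
      have hstep := tl_step u v j k hjk hv0
      rw [hvw] at hstep
      have hvj : v j + 1 ≤ w j := by
        rw [← hvw]; simp [es]
      have h3 := ih v (fun v' j' hv' hj' hj'' => h v' j' (hv'.trans hle) hj'
        (hj''.trans (hle j'))) (by omega)
      have h4 := h v j hle hjk hvj
      have h5 : ((q + 1 : ℕ) : ℝ) = sz v + 1 := by
        rw [← hn, hsz]; push_cast; ring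
      rw [hstep]
      refine (dv_mul _ _).trans ?_
      rw [dv_conj, h5]
      have h6 : ((q : ℕ) : ℝ) = sz v := by
        have : q = sz v := by omega
        rw [this]
      rw [h6] at h3
      linarith

end

end Pool.Agent.W793.YM
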