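import Mathlib
import Pool.Agent.W793.YM.Dev

/-!
# The comb gauge on the periodic lattice
-/

open MeasureTheory Matrix
open scoped Matrix.Norms.Frobenius ContDiff
open Pool.Agent.H906R3.YM

namespace Pool.Agent.W793.YM

set_option linter.unusedSectionVars false
set_option linter.unusedVariables false

noncomputable section

section sites

variable {d l : ℕ} [NeZero l]

/-- coordinates of a site -/
def wv (x : Fin d → ZMod l) : Pt d := fun i => (x i).val

lemma ct_wv (x : Fin d → ZMod l) : ct l (wv x) = x := by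
  funext i
  exact ZMod.natCast_zmod_val (x i)

lemma wv_lt (x : Fin d → ZMod l) (i : Fin d) : wv x i < l := ZMod.val_lt _

lemma wv_ct {w : Pt d} (h : ∀ i, w i < l) : wv (ct l w) = w := by
  funext i
  exact ZMod.val_natCast_of_lt (h i)

lemma wv_inj {x y : Fin d → ZMod l} (h : wv x = wv y) : x = y := by
  rw [← ct_wv x, h, ct_wv]

lemma wv_add {x : Fin d → ZMod l} {k : Fin d} (h : wv x k + 1 < l) :
    wv (x + eT k) = wv x + es k := by
  have h1 : x + eT k = ct l (wv x + es k) := by rw [ct_add, ct_wv]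
  rw [h1, wv_ct]
  intro i
  by_cases hi : i = k
  · subst hi; simp only [Pi.add_apply, es_same]; exact h
  · simp only [Pi.add_apply, es_ne hi, add_zero]; exact wv_lt x i

lemma wv_add_ne {x : Fin d → ZMod l} {i k : Fin d} (h : i ≠ k) :
    wv (x + eT k) i = wv x i := by
  unfold wv; rw [add_ne x h.symm]

variable {G : Type*} [Group G]

/-- configuration as a function of natural coordinates -/
def uu (U : Ed d l → G) : Pt d → Fin d → G := fun v k => U (ct l v, k)

/-- the comb transport -/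
def Pc (U : Ed d l → G) (x : Fin d → ZMod l) : G := fr (uu U) (wv x)

lemma uu_wv (U : Ed d l → G) (x : Fin d → ZMod l) (k : Fin d) : uu U (wv x) k = U (x, k) := by
  unfold uu; rw [ct_wv]

lemma plq_uu (U : Ed d l → G) (v : Pt d) (j k : Fin d) :
    plq (uu U) v j k = plqT U (ct l v) j k := by
  unfold plq plqT uu
  rw [ct_add, ct_add]

/-- links in the comb gauge -/
def tlT (U : Ed d l → G) (x : Fin d → ZMod l) (k : Fin d) : G :=
  Pc U x * U (x, k) * (Pc U (x + eT k))⁻¹

lemma tlT_eq (U : Ed d l → G) {x : Fin d → ZMod l} {k : Fin d} (h : wv x k + 1 < l) :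
    tlT U x k = tl (uu U) (wv x) k := by
  unfold tlT tl Pc
  rw [wv_add h, uu_wv]

lemma Pc_gt (γ : (Fin d → ZMod l) → G) (U : Ed d l → G) (x : Fin d → ZMod l) :
    Pc (gt γ U) x = γ 0 * Pc U x * (γ x)⁻¹ := by
  unfold Pc
  rw [fr_gauge (u := uu U) (u' := uu (gt γ U)) (fun v => γ (ct l v)) (wv x) (fun v _ k => by
    unfold uu gt
    rw [ct_add])]
  have h0 : ct l (0 : Pt d) = 0 := by funext i; simp [ct]
  rw [h0, ct_wv]

/-- the plaquette in the comb gauge -/
lemma Pc_plqT (U : Ed d l → G) (x : Fin d → ZMod l) (j k : Fin d) :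
    Pc U x * plqT U x j k * (Pc U x)⁻¹ =
      tlT U x j * tlT U (x + eT j) k * (tlT U (x + eT k) j)⁻¹ * (tlT U x k)⁻¹ := by
  unfold tlT plqT
  rw [add_right_comm x (eT k) (eT j)]
  group

end sites

variable {G : Type*} [Group G] [TopologicalSpace G] [IsTopologicalGroup G] [CompactSpace G]
  [SecondCountableTopology G] [MeasurableSpace G] [BorelSpace G] (μ : Measure G)
  [IsProbabilityMeasure μ] [μ.IsMulLeftInvariant] [μ.IsMulRightInvariant] [μ.IsInvInvariant]
  {N n : ℕ} (L : LD G N n)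

variable {d l : ℕ} [NeZero l]

/-- the box of side `M` -/
def box (d M : ℕ) : Finset (Pt d) := Fintype.piFinset fun _ => Finset.range M

lemma mem_box {M : ℕ} {v : Pt d} : v ∈ box d M ↔ ∀ i, v i < M := by
  unfold box
  simp [Fintype.mem_piFinset]

/-- total deviation of the plaquettes of a box -/
def sB (M : ℕ) (U : Ed d l → G) : ℝ :=
  ∑ v ∈ box d M, ∑ j, ∑ k, if j < k then dv L (plqT U (ct l v) j k) else 0

variable {L}

lemma sB_nonneg (M : ℕ) (U : Ed d l → G) : 0 ≤ sB L M U := by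
  unfold sB
  refine Finset.sum_nonneg fun v _ => Finset.sum_nonneg fun j _ => Finset.sum_nonneg fun k _ => ?_
  split_ifs
  · exact dv_nonneg _
  · exact le_rfl

lemma le_sB {M : ℕ} (U : Ed d l → G) {v : Pt d} (hv : ∀ i, v i < M) {j k : Fin d} (hjk : j < k) :
    dv L (plqT U (ct l v) j k) ≤ sB L M U := by
  unfold sB
  have h0 : ∀ (v : Pt d) (j k : Fin d),
      0 ≤ if j < k then dv L (plqT U (ct l v) j k) else 0 := fun v j k => by
    split_ifs
    · exact dv_nonneg _
    · exact le_rfl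
  calc dv L (plqT U (ct l v) j k) = if j < k then dv L (plqT U (ct l v) j k) else 0 := by
        rw [if_pos hjk]
    _ ≤ ∑ k, if j < k then dv L (plqT U (ct l v) j k) else 0 :=
        Finset.single_le_sum (f := fun k => if j < k then dv L (plqT U (ct l v) j k) else 0)
          (fun k _ => h0 v j k) (Finset.mem_univ k)
    _ ≤ ∑ j, ∑ k, if j < k then dv L (plqT U (ct l v) j k) else 0 :=
        Finset.single_le_sum
          (f := fun j => ∑ k, if j < k then dv L (plqT U (ct l v) j k) else 0)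
          (fun j _ => Finset.sum_nonneg fun k _ => h0 v j k) (Finset.mem_univ j)
    _ ≤ _ := Finset.single_le_sum
          (f := fun v => ∑ j, ∑ k, if j < k then dv L (plqT U (ct l v) j k) else 0)
          (fun v _ => Finset.sum_nonneg fun j _ => Finset.sum_nonneg fun k _ => h0 v j k)
          (mem_box.2 hv)

lemma le_sB' {M : ℕ} (U : Ed d l → G) {x : Fin d → ZMod l} (hx : ∀ i, wv x i < M) {j k : Fin d}
    (hjk : j < k) : dv L (plqT U x j k) ≤ sB L M U := by
  have := le_sB (L := L) U hx hjk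
  rwa [ct_wv] at this

lemma le_sB'' {M : ℕ} (U : Ed d l → G) {x : Fin d → ZMod l} (hx : ∀ i, wv x i < M) {j k : Fin d}
    (hjk : j ≠ k) : dv L (plqT U x j k) ≤ sB L M U := by
  rcases lt_or_gt_of_ne hjk with h | h
  · exact le_sB' U hx h
  · rw [plqT_swap U x k j, dv_inv]
    exact le_sB' U hx h

lemma sB_gt (M : ℕ) : GI (sB L M : (Ed d l → G) → ℝ) := by
  intro γ U
  unfold sB
  simp only [plqT_gt, dv_conj]

lemma plqT_cont (x : Fin d → ZMod l) (j k : Fin d) :
    Continuous fun U : Ed d l → G => plqT U x j k := by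
  unfold plqT
  have h : ∀ e : Ed d l, Continuous fun U : Ed d l → G => U e := fun e => continuous_apply e
  exact (((h _).mul (h _)).mul (h _).inv).mul (h _).inv

lemma sB_cont (M : ℕ) : Continuous (sB L M : (Ed d l → G) → ℝ) := by
  unfold sB
  refine continuous_finsetSum _ fun v _ => continuous_finsetSum _ fun j _ =>
    continuous_finsetSum _ fun k _ => ?_
  split_ifs
  · exact dv_cont.comp (plqT_cont _ _ _)
  · exact continuous_const

lemma sz_le {w : Pt d} {M : ℕ} (h : ∀ i, w i ≤ M) : sz w ≤ d * M := by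
  unfold sz
  calc ∑ i, w i ≤ ∑ _i : Fin d, M := Finset.sum_le_sum fun i _ => h i
    _ = d * M := by simp

lemma dv_tlT {M : ℕ} (U : Ed d l → G) {x : Fin d → ZMod l} {k : Fin d} (hx : ∀ i, wv x i < M)
    (hk : wv x k + 1 < l) : dv L (tlT U x k) ≤ d * M * sB L M U := by
  rw [tlT_eq U hk]
  have h1 := dv_tl (L := L) (uu U) (sB_nonneg (L := L) M U) (wv x) k (fun v j hv hj _ => by
    rw [plq_uu]
    exact le_sB U (fun i => lt_of_le_of_lt (hv i) (hx i)) hj)
  refine h1.trans ?_
  refine mul_le_mul_of_nonneg_right ?_ (sB_nonneg _ _)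
  have := sz_le (w := wv x) (M := M) fun i => (hx i).le
  exact_mod_cast this

lemma card_box (M : ℕ) : (box d M).card = M ^ d := by
  unfold box
  rw [Fintype.card_piFinset]
  simp

theorem sB_moment : ∃ C : ℝ, 0 < C ∧ ∀ b : ℝ, 1 ≤ b → ∀ (d m : ℕ) [NeZero m], 2 ≤ m → ∀ M : ℕ,
      b ^ 6 * Zt μ L (b ^ 4) (fun U : Ed d (2 * m) → G => sB L M U ^ 4) ≤
        C * ((M : ℝ) ^ d * d ^ 2) ^ 4 * Zt μ L (b ^ 4) (fun _ : Ed d (2 * m) → G => 1) := by
  obtain ⟨C, hC, h⟩ := plaq_moment μ (L := L)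
  refine ⟨4 * C, by positivity, fun b hb d m _ hm M => ?_⟩
  obtain ⟨I, hI⟩ : ∃ I : Finset (Pt d × Fin d × Fin d), I = box d M ×ˢ Finset.univ := ⟨_, rfl⟩
  obtain ⟨f, hf⟩ : ∃ f : Pt d × Fin d × Fin d → (Ed d (2 * m) → G) → ℝ,
    f = fun q U => if q.2.1 < q.2.2 then dv L (plqT U (ct (2 * m) q.1) q.2.1 q.2.2) else 0 :=
    ⟨_, rfl⟩
  have hsum : ∀ U : Ed d (2 * m) → G, sB L M U = ∑ q ∈ I, f q U := by
    intro U
    rw [hI, Finset.sum_product, hf]
    unfold sB
    refine Finset.sum_congr rfl fun v _ => ?_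
    rw [Fintype.sum_prod_type]
  have hf0 : ∀ q U, 0 ≤ f q U := fun q U => by
    rw [hf]
    simp only
    split_ifs
    · exact dv_nonneg _
    · exact le_rfl
  have hcard : (I.card : ℝ) = (M : ℝ) ^ d * d ^ 2 := by
    rw [hI, Finset.card_product, card_box]
    simp only [Finset.card_univ, Fintype.card_prod, Fintype.card_fin]
    push_cast; ring
  have hfc : ∀ q, Continuous (f q) := fun q => by
    rw [hf]
    by_cases hq : q.2.1 < q.2.2
    · simp only [hq, if_true]
      exact dv_cont.comp (plqT_cont _ _ _)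
    · simp only [hq, if_false]
      exact continuous_const
  have hq : ∀ q ∈ I, b ^ 6 * Zt μ L (b ^ 4) (fun U => f q U ^ 4) ≤
      4 * C * Zt μ L (b ^ 4) (fun _ : Ed d (2 * m) → G => 1) := by
    intro q _
    have hZ := (Zt_pos μ (L := L) (d := d) (l := 2 * m) (b ^ 4)).le
    by_cases hlt : q.2.1 < q.2.2
    · have h1 := h b hb d m hm (ct (2 * m) q.1) q.2.1 q.2.2 hlt.ne
      have h2 : (fun U => f q U ^ 4) = fun U : Ed d (2 * m) → G =>
          4 * we L (plqT U (ct (2 * m) q.1) q.2.1 q.2.2) ^ 2 := by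
        funext U
        rw [hf]
        simp only [hlt, if_true]
        have h3 := dv_sq (L := L) (plqT U (ct (2 * m) q.1) q.2.1 q.2.2)
        calc _ = (dv L (plqT U (ct (2 * m) q.1) q.2.1 q.2.2) ^ 2) ^ 2 := by ring
          _ = _ := by rw [h3]; ring
      rw [h2, Zt_smul]
      calc _ = 4 * (b ^ 6 * Zt μ L (b ^ 4) (fun U : Ed d (2 * m) → G =>
            we L (plqT U (ct (2 * m) q.1) q.2.1 q.2.2) ^ 2)) := by ring
        _ ≤ 4 * (C * _) := mul_le_mul_of_nonneg_left h1 (by norm_num)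
        _ = _ := by ring
    · have h2 : (fun U => f q U ^ 4) = fun U : Ed d (2 * m) → G => (0 : ℝ) := by
        funext U
        rw [hf]
        simp only [hlt, if_false]
        ring
      rw [h2]
      have h3 : Zt μ L (b ^ 4) (fun U : Ed d (2 * m) → G => (0 : ℝ)) = 0 := by
        unfold Zt; simp
      rw [h3, mul_zero]
      exact mul_nonneg (by positivity) hZ
  have hpow : ∀ U : Ed d (2 * m) → G, sB L M U ^ 4 ≤ (I.card : ℝ) ^ 3 * ∑ q ∈ I, f q U ^ 4 := by
    intro U
    rw [hsum]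
    exact pow_sum_le_card_mul_sum_pow (s := I) (f := fun q => f q U) (fun q _ => hf0 q U) 3
  have hZs : Zt μ L (b ^ 4) (fun U : Ed d (2 * m) → G => ∑ q ∈ I, f q U ^ 4) =
      ∑ q ∈ I, Zt μ L (b ^ 4) (fun U => f q U ^ 4) := by
    unfold Zt
    simp only [Finset.sum_mul]
    rw [integral_finsetSum]
    intro q _
    exact integrable_cont μ (((hfc q).pow 4).mul (wt_contT (L := L) (b ^ 4)))
  have h1 : Zt μ L (b ^ 4) (fun U : Ed d (2 * m) → G => sB L M U ^ 4) ≤
      Zt μ L (b ^ 4) (fun U : Ed d (2 * m) → G => (I.card : ℝ) ^ 3 * ∑ q ∈ I, f q U ^ 4) :=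
    Zt_mono μ ((sB_cont (L := L) M).pow 4)
      (continuous_const.mul (continuous_finsetSum _ fun q _ => (hfc q).pow 4)) hpow
  rw [Zt_smul, hZs] at h1
  have h3 : b ^ 6 * ∑ q ∈ I, Zt μ L (b ^ 4) (fun U => f q U ^ 4) ≤
      I.card * (4 * C * Zt μ L (b ^ 4) (fun _ : Ed d (2 * m) → G => 1)) := by
    rw [Finset.mul_sum, ← nsmul_eq_mul, ← Finset.sum_const]
    exact Finset.sum_le_sum hq
  rw [← hcard]
  calc b ^ 6 * Zt μ L (b ^ 4) (fun U : Ed d (2 * m) → G => sB L M U ^ 4) ≤
      b ^ 6 * ((I.card : ℝ) ^ 3 * ∑ q ∈ I, Zt μ L (b ^ 4) (fun U => f q U ^ 4)) :=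
        mul_le_mul_of_nonneg_left h1 (by positivity)
    _ = (I.card : ℝ) ^ 3 * (b ^ 6 * ∑ q ∈ I, Zt μ L (b ^ 4) (fun U => f q U ^ 4)) := by ring
    _ ≤ (I.card : ℝ) ^ 3 * (I.card * (4 * C * Zt μ L (b ^ 4) (fun _ : Ed d (2 * m) → G => 1))) :=
        mul_le_mul_of_nonneg_left h3 (by positivity)
    _ = _ := by ring

end

end Pool.Agent.W793.YM
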