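import Mathlib
import Pool.Agent.W793.YM.Site
import Pool.Agent.H906R3.YM.LocMain

/-!
# The smeared flux
-/

open MeasureTheory Matrix
open scoped Matrix.Norms.Frobenius ContDiff
open Pool.Agent.H906R3.YM

namespace Pool.Agent.W793.YM

set_option linter.unusedSectionVars false
set_option linter.unusedVariables false

noncomputable section

variable {G : Type*} [Group G] [TopologicalSpace G] [IsTopologicalGroup G] [CompactSpace G]
  [SecondCountableTopology G] [MeasurableSpace G] [BorelSpace G]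
  {N n : ℕ} {L : LD G N n}

section smooth

variable {E : Type*} [Fintype E] [DecidableEq E] {d : ℕ}

lemma SmG_gam (u : (E → G) → Pt d → Fin d → G) (hu : ∀ w k, SmG L fun U => u U w k) (k : ℕ)
    (w : Pt d) : SmG L fun U : E → G => gam (u U) k w := by
  induction k generalizing w with
  | zero => exact SmG.const 1
  | succ k ih =>
    by_cases h : ∃ i, 0 < w i
    · simp only [gam, dif_pos h]
      exact (ih _).mul (hu _ _)
    · simp only [gam, dif_neg h]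
      exact SmG.const 1

lemma SmG_link (e : E) : SmG L fun U : E → G => U e := SmM.link e

/-- `Re tr (X_a F)` for a smooth group valued function -/
def fiS (a : Fin n) {F : (E → G) → G} (hF : SmG L F) : Sm L E :=
  Pool.Agent.H906R3.YM.lin (L := L) (trX L a) (fun U => L.rho (F U)) hF

lemma fiS_apply (a : Fin n) {F : (E → G) → G} (hF : SmG L F) (U : E → G) :
    (fiS a hF).1 U = fi L a (F U) := rfl

end smooth

variable {d l : ℕ} [NeZero l]

lemma SmG_Pc (x : Fin d → ZMod l) : SmG L fun U : Ed d l → G => Pc U x :=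
  SmG_gam (fun U => uu U) (fun w k => SmG_link _) _ _

lemma SmG_plqT (x : Fin d → ZMod l) (j k : Fin d) : SmG L fun U : Ed d l → G => plqT U x j k :=
  (((SmG_link _).mul (SmG_link _)).mul (SmG_link _).inv).mul (SmG_link _).inv

lemma SmG_cpl (x : Fin d → ZMod l) (j k : Fin d) :
    SmG L fun U : Ed d l → G => Pc U x * plqT U x j k * (Pc U x)⁻¹ :=
  ((SmG_Pc x).mul (SmG_plqT x j k)).mul (SmG_Pc x).inv

variable (L) in
/-- the smeared flux -/
def Ph (K : (Fin d → ZMod l) → ℝ) (j k : Fin d) (a : Fin n) (U : Ed d l → G) : ℝ :=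
  ∑ x, K x * fi L a (Pc U x * plqT U x j k * (Pc U x)⁻¹)

variable (L) in
/-- the smeared flux, as a smooth function -/
def PhS (K : (Fin d → ZMod l) → ℝ) (j k : Fin d) (a : Fin n) : Sm L (Ed d l) :=
  ∑ x, K x • fiS a (SmG_cpl x j k)

lemma PhS_apply (K : (Fin d → ZMod l) → ℝ) (j k : Fin d) (a : Fin n) (U : Ed d l → G) :
    (PhS L K j k a).1 U = Ph L K j k a U := by
  have h1 : (PhS L K j k a).1 U = ∑ x, (K x • fiS (L := L) a (SmG_cpl x j k)).1 U :=
    map_sum (L.ev U) _ _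
  rw [h1]
  rfl

lemma sum_trX_conj (h : G) (M : Mat N) :
    ∑ a, (trX L a (L.rho h * M * (L.rho h)ᴴ)) ^ 2 = ∑ a, (trX L a M) ^ 2 := by
  have h1 := sum_ip_conj (L := L) h M
  have h2 : ∀ (a : Fin n) (M : Mat N), trX L a M ^ 2 = ip (L.X a) M * ip (L.X a) M := by
    intro a M
    have h3 : trX L a M = -ip (L.X a) M := by
      unfold trX
      rw [ip_apply, ip_apply, conjTranspose_conjTranspose, skew, neg_mul, trace_neg,
        Complex.neg_re, neg_neg]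
    rw [h3]; ring
  simp only [h2]
  exact h1

lemma sum_fi_conj {ι : Type*} (s : Finset ι) (K : ι → ℝ) (h : G) (g : ι → G) :
    ∑ a, (∑ x ∈ s, K x * fi L a (h * g x * h⁻¹)) ^ 2 = ∑ a, (∑ x ∈ s, K x * fi L a (g x)) ^ 2 := by
  have h1 := sum_trX_conj (L := L) h (∑ x ∈ s, K x • L.rho (g x))
  have h2 : ∀ a, trX L a (∑ x ∈ s, K x • L.rho (g x)) = ∑ x ∈ s, K x * fi L a (g x) := by
    intro a
    rw [map_sum]
    exact Finset.sum_congr rfl fun x _ => by rw [map_smul, smul_eq_mul]; rfl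
  have h3 : ∀ a, trX L a (L.rho h * (∑ x ∈ s, K x • L.rho (g x)) * (L.rho h)ᴴ) =
      ∑ x ∈ s, K x * fi L a (h * g x * h⁻¹) := by
    intro a
    rw [Finset.mul_sum, Finset.sum_mul, map_sum]
    refine Finset.sum_congr rfl fun x _ => ?_
    rw [mul_smul_comm, smul_mul_assoc, map_smul, smul_eq_mul]
    have h4 : L.rho (h * g x * h⁻¹) = L.rho h * L.rho (g x) * (L.rho h)ᴴ := by
      rw [L.rho.map_mul, L.rho.map_mul, L.rho_inv]
    unfold fi
    rw [h4]
  simp only [h2, h3] at h1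
  exact h1

lemma sum_Ph_gt (K : (Fin d → ZMod l) → ℝ) (j k : Fin d) (γ : (Fin d → ZMod l) → G)
    (U : Ed d l → G) : ∑ a, Ph L K j k a (gt γ U) ^ 2 = ∑ a, Ph L K j k a U ^ 2 := by
  unfold Ph
  have h1 : ∀ x, Pc (gt γ U) x * plqT (gt γ U) x j k * (Pc (gt γ U) x)⁻¹ =
      γ 0 * (Pc U x * plqT U x j k * (Pc U x)⁻¹) * (γ 0)⁻¹ := by
    intro x
    rw [Pc_gt, plqT_gt]
    group
  simp only [h1]
  exact sum_fi_conj _ _ _ _

variable (L) in
/-- the observable -/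
def Fo (σ : ℝ) (K : (Fin d → ZMod l) → ℝ) (j k : Fin d) : Sm L (Ed d l) :=
  rad (fun a => σ • PhS L K j k a) 1 one_pos

lemma Fo_apply (σ : ℝ) (K : (Fin d → ZMod l) → ℝ) (j k : Fin d) (U : Ed d l → G) :
    (Fo L σ K j k).1 U = Real.sqrt (1 + σ ^ 2 * ∑ a, Ph L K j k a U ^ 2) := by
  have h1 : (Fo L σ K j k).1 U = Real.sqrt (1 ^ 2 + ∑ a, (σ • PhS L K j k a).1 U *
      (σ • PhS L K j k a).1 U) := rfl
  rw [h1, Finset.mul_sum]
  congr 1
  rw [one_pow]
  congr 1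
  refine Finset.sum_congr rfl fun a _ => ?_
  have h2 : (σ • PhS L K j k a).1 U = σ * (PhS L K j k a).1 U := rfl
  rw [h2, PhS_apply]; ring

lemma Fo_GI (σ : ℝ) (K : (Fin d → ZMod l) → ℝ) (j k : Fin d) : GI (Fo L σ K j k).1 := by
  intro γ U
  rw [Fo_apply, Fo_apply, sum_Ph_gt]

/-- the square root is Lipschitz -/
lemma sqrt_lip {ι : Type*} [Fintype ι] (f g : ι → ℝ) :
    (Real.sqrt (1 + ∑ a, f a ^ 2) - Real.sqrt (1 + ∑ a, g a ^ 2)) ^ 2 ≤ ∑ a, (f a - g a) ^ 2 := by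
  obtain ⟨A, hA⟩ : ∃ A, A = ∑ a, f a ^ 2 := ⟨_, rfl⟩
  obtain ⟨B, hB⟩ : ∃ B, B = ∑ a, g a ^ 2 := ⟨_, rfl⟩
  obtain ⟨P, hP⟩ : ∃ P, P = ∑ a, f a * g a := ⟨_, rfl⟩
  have hA0 : 0 ≤ A := by rw [hA]; exact Finset.sum_nonneg fun _ _ => sq_nonneg _
  have hB0 : 0 ≤ B := by rw [hB]; exact Finset.sum_nonneg fun _ _ => sq_nonneg _
  have hcs : P ^ 2 ≤ A * B := by
    rw [hA, hB, hP]; exact Finset.sum_mul_sq_le_sq_mul_sq _ _ _
  have h1 : ∑ a, (f a - g a) ^ 2 = A - 2 * P + B := by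
    rw [hA, hB, hP, Finset.mul_sum, ← Finset.sum_sub_distrib, ← Finset.sum_add_distrib]
    exact Finset.sum_congr rfl fun a _ => by ring
  rw [h1, ← hA, ← hB]
  have hx := Real.sq_sqrt (show 0 ≤ 1 + A by linarith)
  have hy := Real.sq_sqrt (show 0 ≤ 1 + B by linarith)
  have hx0 := Real.sqrt_nonneg (1 + A)
  have hy0 := Real.sqrt_nonneg (1 + B)
  obtain ⟨x, hxd⟩ : ∃ x, x = Real.sqrt (1 + A) := ⟨_, rfl⟩
  obtain ⟨y, hyd⟩ : ∃ y, y = Real.sqrt (1 + B) := ⟨_, rfl⟩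
  rw [← hxd] at hx hx0 ⊢
  rw [← hyd] at hy hy0 ⊢
  have h2 : 1 + P ≤ x * y := by
    have h3 : (1 + P) ^ 2 ≤ (x * y) ^ 2 := by
      rw [mul_pow, hx, hy]
      nlinarith [sq_nonneg (A - B), abs_le_of_sq_le_sq' (show P ^ 2 ≤ ((A + B) / 2) ^ 2 by
        nlinarith [sq_nonneg (A - B)]) (by positivity)]
    exact (abs_le_of_sq_le_sq' h3 (mul_nonneg hx0 hy0)).2
  nlinarith

end

end Pool.Agent.W793.YM
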