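import Mathlib
import Pool.Agent.W793.YM.Flux

/-!
# Comparison of the fluxes of two nearby configurations
-/

open MeasureTheory Matrix
open scoped Matrix.Norms.Frobenius ContDiff
open Pool.Agent.H906R3.YM

namespace Pool.Agent.W793.YM

set_option linter.unusedSectionVars false
set_option linter.unusedVariables false

noncomputable section

variable {G : Type*} [Group G] [TopologicalSpace G] [IsTopologicalGroup G] [CompactSpace G]
  [SecondCountableTopology G] [MeasurableSpace G] [BorelSpace G]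
  {N n : ℕ} {L : LD G N n} {d l : ℕ} [NeZero l]

/-- the difference of two configurations, in the comb gauge of the first one -/
def gW (L : LD G N n) (a : Fin n) (U U' : Ed d l → G) (x : Fin d → ZMod l) (k : Fin d) : ℝ :=
  fi L a (Pc U x * (U (x, k) * (U' (x, k))⁻¹) * (Pc U x)⁻¹)

/-- the four links of a plaquette -/
lemma cmp_plq {U U' : Ed d l → G} {x : Fin d → ZMod l} {j k : Fin d} {s : ℝ} (a : Fin n)
    (hT1 : dv L (tlT U x j) ≤ s) (hT2 : dv L (tlT U (x + eT j) k) ≤ s)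
    (hT3 : dv L (tlT U (x + eT k) j) ≤ s) (hT4 : dv L (tlT U x k) ≤ s)
    (hW1 : dv L (U (x, j) * (U' (x, j))⁻¹) ≤ s)
    (hW2 : dv L (U (x + eT j, k) * (U' (x + eT j, k))⁻¹) ≤ s)
    (hW3 : dv L (U (x + eT k, j) * (U' (x + eT k, j))⁻¹) ≤ s)
    (hW4 : dv L (U (x, k) * (U' (x, k))⁻¹) ≤ s)
    (hQ : dv L (Pc U' x * (Pc U x)⁻¹) ≤ s) (hP : dv L (plqT U' x j k) ≤ s) :
    |fi L a (Pc U' x * plqT U' x j k * (Pc U' x)⁻¹) - fi L a (Pc U x * plqT U x j k * (Pc U x)⁻¹) +
      (gW L a U U' x j + gW L a U U' (x + eT j) k - gW L a U U' (x + eT k) j -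
        gW L a U U' x k)| ≤ 36 * s ^ 2 := by
  have hs : 0 ≤ s := (dv_nonneg _).trans hT1
  -- the links of the second configuration in the gauge of the first one
  obtain ⟨y, hy⟩ : ∃ y : (Fin d → ZMod l) → Fin d → G,
    y = fun z i => Pc U z * U' (z, i) * (Pc U (z + eT i))⁻¹ := ⟨_, rfl⟩
  have hyt : ∀ z i, y z i = (Pc U z * (U (z, i) * (U' (z, i))⁻¹) * (Pc U z)⁻¹)⁻¹ * tlT U z i := by
    intro z i
    rw [hy]
    unfold tlT
    group
  have hdv : ∀ z i, dv L (U (z, i) * (U' (z, i))⁻¹) ≤ s → dv L (tlT U z i) ≤ s →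
      dv L (y z i) ≤ 2 * s := by
    intro z i h1 h2
    rw [hyt]
    refine (dv_mul _ _).trans ?_
    rw [dv_inv, dv_conj]; linarith
  have hfi : ∀ z i, dv L (U (z, i) * (U' (z, i))⁻¹) ≤ s → dv L (tlT U z i) ≤ s →
      |fi L a (y z i) + gW L a U U' z i - fi L a (tlT U z i)| ≤ s ^ 2 := by
    intro z i h1 h2
    rw [hyt]
    have h3 := fi_mul (L := L) a ((Pc U z * (U (z, i) * (U' (z, i))⁻¹) * (Pc U z)⁻¹)⁻¹)
      (tlT U z i)
    rw [dv_inv, dv_conj, fi_inv] at h3
    have h4 : dv L (U (z, i) * (U' (z, i))⁻¹) * dv L (tlT U z i) ≤ s ^ 2 := by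
      rw [pow_two]; exact mul_le_mul h1 h2 (dv_nonneg _) hs
    unfold gW
    rw [abs_le] at h3 ⊢
    constructor <;> linarith [h3.1, h3.2]
  have hpl : Pc U x * plqT U' x j k * (Pc U x)⁻¹ =
      y x j * y (x + eT j) k * (y (x + eT k) j)⁻¹ * (y x k)⁻¹ := by
    rw [hy]
    unfold plqT
    simp only
    rw [add_right_comm x (eT k) (eT j)]
    group
  have e1 := hfi x j hW1 hT1
  have e2 := hfi (x + eT j) k hW2 hT2
  have e3 := hfi (x + eT k) j hW3 hT3
  have e4 := hfi x k hW4 hT4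
  have p1 := fi_plq (L := L) a (hdv x j hW1 hT1) (hdv (x + eT j) k hW2 hT2)
    (hdv (x + eT k) j hW3 hT3) (hdv x k hW4 hT4)
  rw [← hpl] at p1
  have p2 := fi_plq (L := L) a hT1 hT2 hT3 hT4
  rw [← Pc_plqT] at p2
  have q1 : |fi L a (Pc U' x * plqT U' x j k * (Pc U' x)⁻¹) -
      fi L a (Pc U x * plqT U' x j k * (Pc U x)⁻¹)| ≤ 2 * s ^ 2 := by
    have h1 := fi_conj (L := L) a (Pc U' x * (Pc U x)⁻¹) (Pc U x * plqT U' x j k * (Pc U x)⁻¹)
    have h2 : Pc U' x * (Pc U x)⁻¹ * (Pc U x * plqT U' x j k * (Pc U x)⁻¹) *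
        (Pc U' x * (Pc U x)⁻¹)⁻¹ = Pc U' x * plqT U' x j k * (Pc U' x)⁻¹ := by group
    rw [h2, dv_conj] at h1
    refine h1.trans ?_
    have h3 : dv L (Pc U' x * (Pc U x)⁻¹) * dv L (plqT U' x j k) ≤ s ^ 2 := by
      rw [pow_two]; exact mul_le_mul hQ hP (dv_nonneg _) hs
    linarith
  rw [abs_le] at e1 e2 e3 e4 p1 p2 q1 ⊢
  constructor <;> nlinarith [e1.1, e1.2, e2.1, e2.2, e3.1, e3.2, e4.1, e4.2, p1.1, p1.2, p2.1,
    p2.2, q1.1, q1.2]

/-- the linear part of the difference of the fluxes -/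
def Zf (L : LD G N n) (K : (Fin d → ZMod l) → ℝ) (j k : Fin d) (a : Fin n) (U U' : Ed d l → G) :
    ℝ :=
  ∑ x, K x * (gW L a U U' x j + gW L a U U' (x + eT j) k - gW L a U U' (x + eT k) j -
        gW L a U U' x k)

lemma Zf_eq (K : (Fin d → ZMod l) → ℝ) (j k : Fin d) (a : Fin n) (U U' : Ed d l → G) :
    Zf L K j k a U U' = ∑ x, ((K x - K (x - eT k)) * gW L a U U' x j +
      (K (x - eT j) - K x) * gW L a U U' x k) := by
  unfold Zf
  have h1 : ∀ (i : Fin d) (g : (Fin d → ZMod l) → ℝ), ∑ x, K x * g (x + eT i) =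
      ∑ x, K (x - eT i) * g x := by
    intro i g
    have h := Equiv.sum_comp (Equiv.addRight (eT i : Fin d → ZMod l))
      (fun x => K (x - eT i) * g x)
    rw [← h]
    refine Finset.sum_congr rfl fun x _ => ?_
    have h2 : Equiv.addRight (eT i : Fin d → ZMod l) x = x + eT i := rfl
    rw [h2, add_sub_cancel_right]
  simp only [mul_sub, mul_add, sub_mul, Finset.sum_add_distrib, Finset.sum_sub_distrib]
  rw [h1 j (fun x => gW L a U U' x k), h1 k (fun x => gW L a U U' x j)]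
  ring

lemma gW_swap (a : Fin n) (U U' : Ed d l → G) (x : Fin d → ZMod l) (k : Fin d) :
    gW L a U' U x k = -fi L a (Pc U' x * (U (x, k) * (U' (x, k))⁻¹) * (Pc U' x)⁻¹) := by
  unfold gW
  rw [← fi_inv]
  congr 1
  group

/-- transports of two configurations -/
lemma dv_fr {u u' : Pt d → Fin d → G} {s : ℝ} (hs : 0 ≤ s) (w : Pt d)
    (h : ∀ v ≤ w, ∀ k, v k + 1 ≤ w k → dv L (u v k * (u' v k)⁻¹) ≤ s) :
    dv L (fr u' w * (fr u w)⁻¹) ≤ sz w * s := by
  induction hn : sz w generalizing w with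
  | zero =>
    have hw : ¬∃ i, 0 < w i := by
      rintro ⟨i, hi⟩
      have := sz_sub hi
      omega
    rw [fr_zero _ hw, fr_zero _ hw, mul_inv_cancel, dv_one]; simp
  | succ q ih =>
    have hwp : ∃ i, 0 < w i := by
      by_contra hc
      push Not at hc
      have : sz w = 0 := Finset.sum_eq_zero fun i _ => Nat.le_zero.1 (hc i)
      omega
    have hp := mi_pos w hwp
    have hsz := sz_sub hp
    have hle : w - es (mi w hwp) ≤ w := fun i => Nat.sub_le _ _
    have h1 := ih (w - es (mi w hwp)) (fun v hv k hk => h v (hv.trans hle) k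
      (hk.trans (hle k))) (by omega)
    have h2 := h (w - es (mi w hwp)) hle (mi w hwp) (by
      simp only [Pi.sub_apply, es_same]; omega)
    rw [fr_succ u' hwp, fr_succ u hwp]
    have e : fr u' (w - es (mi w hwp)) * u' (w - es (mi w hwp)) (mi w hwp) *
        (fr u (w - es (mi w hwp)) * u (w - es (mi w hwp)) (mi w hwp))⁻¹ =
        (fr u' (w - es (mi w hwp)) * (u (w - es (mi w hwp)) (mi w hwp) *
          (u' (w - es (mi w hwp)) (mi w hwp))⁻¹)⁻¹ * (fr u' (w - es (mi w hwp)))⁻¹) *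
          (fr u' (w - es (mi w hwp)) * (fr u (w - es (mi w hwp)))⁻¹) := by group
    rw [e]
    refine (dv_mul _ _).trans ?_
    rw [dv_conj, dv_inv]
    have h6 : ((q : ℕ) : ℝ) = sz (w - es (mi w hwp)) := by
      have : q = sz (w - es (mi w hwp)) := by omega
      rw [this]
    have h5 : ((q + 1 : ℕ) : ℝ) * s = q * s + s := by push_cast; ring
    rw [h5]
    linarith

end

end Pool.Agent.W793.YM
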