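import Mathlib
import Pool.Agent.W793.YM.Cmp

/-!
# The difference of the fluxes of two neighbouring time slices
-/

open MeasureTheory Matrix
open scoped Matrix.Norms.Frobenius ContDiff
open Pool.Agent.H906R3.YM

namespace Pool.Agent.W793.YM

set_option linter.unusedSectionVars false
set_option linter.unusedVariables false

noncomputable section

lemma fr_congr' {d : ℕ} {G : Type*} [Group G] {u u' : Pt d → Fin d → G} (w : Pt d)
    (h : ∀ v ≤ w, ∀ k, v k + 1 ≤ w k → (∀ i < k, v i = 0) → u v k = u' v k) :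
    fr u w = fr u' w := by
  induction hn : sz w generalizing w with
  | zero =>
    have hw : ¬∃ i, 0 < w i := by
      rintro ⟨i, hi⟩
      have := sz_sub hi
      omega
    rw [fr_zero _ hw, fr_zero _ hw]
  | succ q ih =>
    have hwp : ∃ i, 0 < w i := by
      by_contra hc
      push Not at hc
      have : sz w = 0 := Finset.sum_eq_zero fun i _ => Nat.le_zero.1 (hc i)
      omega
    have hp := mi_pos w hwp
    have hsz := sz_sub hp
    have hle : w - es (mi w hwp) ≤ w := fun i => Nat.sub_le _ _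
    rw [fr_succ u' hwp, fr_succ u hwp, ih (w - es (mi w hwp)) (fun v hv k hk => h v (hv.trans hle) k
      (hk.trans (hle k))) (by omega), h (w - es (mi w hwp)) hle (mi w hwp) (by
      simp only [Pi.sub_apply, es_same]; omega) (fun i hi => by
        have h1 : w i = 0 := by
          by_contra hc
          exact absurd hi (not_lt.2 (mi_le w hwp (Nat.pos_of_ne_zero hc)))
        have h2 : (w - es (mi w hwp)) i ≤ w i := hle i
        rw [h1] at h2
        exact Nat.le_zero.1 h2)]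

variable {G : Type*} [Group G] [TopologicalSpace G] [IsTopologicalGroup G] [CompactSpace G]
  [SecondCountableTopology G] [MeasurableSpace G] [BorelSpace G]
  {N n : ℕ} {L : LD G N n}

section general

variable {d l : ℕ} [NeZero l] {τ : Fin d}

/-- two configurations with the same spatial links at time `0` -/
def SA (τ : Fin d) (U U' : Ed d l → G) : Prop := ∀ x k, x τ = 0 → k ≠ τ → U (x, k) = U' (x, k)

lemma wv_zero {x : Fin d → ZMod l} : wv x τ = 0 ↔ x τ = 0 := ZMod.val_eq_zero _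

lemma ct_zero {v : Pt d} (h : v τ = 0) : ct l v τ = 0 := by
  unfold ct; rw [h]; simp

lemma Pc_SA {U U' : Ed d l → G} (h : SA τ U U') {x : Fin d → ZMod l} (hx : x τ = 0) :
    Pc U x = Pc U' x := by
  unfold Pc
  refine fr_congr' _ fun v hv k hk _ => ?_
  have hvτ : v τ = 0 := by
    have h1 : v τ ≤ wv x τ := hv τ
    rw [wv_zero.2 hx] at h1
    exact Nat.le_zero.1 h1
  have hkτ : k ≠ τ := by
    rintro rfl
    rw [wv_zero.2 hx] at hk; omega
  exact h _ _ (ct_zero hvτ) hkτ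

lemma plqT_SA {U U' : Ed d l → G} (h : SA τ U U') {x : Fin d → ZMod l} (hx : x τ = 0)
    {j k : Fin d} (hj : j ≠ τ) (hk : k ≠ τ) : plqT U x j k = plqT U' x j k :=
  plqT_congr (h _ _ hx hj) (h _ _ (by rw [add_ne x hj]; exact hx) hk)
    (h _ _ (by rw [add_ne x hk]; exact hx) hj) (h _ _ hx hk)

lemma gW_SA {U U' V V' : Ed d l → G} (h : SA τ U V) (h' : SA τ U' V') {x : Fin d → ZMod l}
    (hx : x τ = 0) {k : Fin d} (hk : k ≠ τ) (a : Fin n) : gW L a U U' x k = gW L a V V' x k := by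
  unfold gW
  rw [Pc_SA h hx, h _ _ hx hk, h' _ _ hx hk]

/-- `K` is supported by the slice and a box -/
structure KS (τ : Fin d) (M : ℕ) (K : (Fin d → ZMod l) → ℝ) : Prop where
  t0 : ∀ x, K x ≠ 0 → x τ = 0
  bd : ∀ x, K x ≠ 0 → ∀ i, wv x i + 1 < M
  Ml : M < l

variable {K : (Fin d → ZMod l) → ℝ} {M : ℕ} (hK : KS τ M K)

include hK

lemma Ph_SA {U U' : Ed d l → G} (h : SA τ U U') {j k : Fin d} (hj : j ≠ τ) (hk : k ≠ τ)
    (a : Fin n) : Ph L K j k a U = Ph L K j k a U' := by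
  unfold Ph
  refine Finset.sum_congr rfl fun x _ => ?_
  by_cases hx : K x = 0
  · rw [hx]; simp
  · rw [Pc_SA h (hK.t0 x hx), plqT_SA h (hK.t0 x hx) hj hk]

lemma Zf_SA {U U' V V' : Ed d l → G} (h : SA τ U V) (h' : SA τ U' V') {j k : Fin d}
    (hj : j ≠ τ) (hk : k ≠ τ) (a : Fin n) : Zf L K j k a U U' = Zf L K j k a V V' := by
  unfold Zf
  refine Finset.sum_congr rfl fun x _ => ?_
  by_cases hx : K x = 0
  · rw [hx]; simp
  · have h0 := hK.t0 x hx
    rw [gW_SA h h' h0 hj, gW_SA h h' h0 hk, gW_SA h h' (by rw [add_ne x hj]; exact h0) hk,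
      gW_SA h h' (by rw [add_ne x hk]; exact h0) hj]

/-- the abstract comparison -/
lemma cmp_Ph {U U' : Ed d l → G} {j k : Fin d} (hj : j ≠ τ) (hk : k ≠ τ) (hjk : j ≠ k)
    (a : Fin n) {s : ℝ}
    (hT : ∀ x i, i ≠ τ → x τ = 0 → (∀ i, wv x i < M) → wv x i + 1 < l → dv L (tlT U x i) ≤ s)
    (hW : ∀ x i, i ≠ τ → x τ = 0 → (∀ i, wv x i < M) →
      dv L (U (x, i) * (U' (x, i))⁻¹) ≤ s)
    (hQ : ∀ x, x τ = 0 → (∀ i, wv x i < M) → dv L (Pc U' x * (Pc U x)⁻¹) ≤ s)
    (hP : ∀ x, x τ = 0 → (∀ i, wv x i < M) → dv L (plqT U' x j k) ≤ s) :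
    |Ph L K j k a U' - Ph L K j k a U + Zf L K j k a U U'| ≤ (∑ x, |K x|) * (36 * s ^ 2) := by
  have e : Ph L K j k a U' - Ph L K j k a U + Zf L K j k a U U' = ∑ x, K x *
      (fi L a (Pc U' x * plqT U' x j k * (Pc U' x)⁻¹) - fi L a (Pc U x * plqT U x j k * (Pc U x)⁻¹) +
      (gW L a U U' x j + gW L a U U' (x + eT j) k - gW L a U U' (x + eT k) j -
        gW L a U U' x k)) := by
    unfold Ph Zf
    rw [← Finset.sum_sub_distrib, ← Finset.sum_add_distrib]
    exact Finset.sum_congr rfl fun x _ => by ring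
  rw [e, Finset.sum_mul]
  refine (Finset.abs_sum_le_sum_abs _ _).trans (Finset.sum_le_sum fun x _ => ?_)
  rw [abs_mul]
  by_cases hx : K x = 0
  · rw [hx]; simp
  · refine mul_le_mul_of_nonneg_left ?_ (abs_nonneg _)
    have h0 := hK.t0 x hx
    have hb := hK.bd x hx
    have hMl := hK.Ml
    have hbj : ∀ i : Fin d, ∀ i', wv (x + eT i) i' < M := fun i i' => by
      rw [wv_add (by have := hb i; omega)]
      by_cases h : i' = i
      · subst h; simp only [Pi.add_apply, es_same]; exact hb _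
      · simp only [Pi.add_apply, es_ne h, add_zero]; have := hb i'; omega
    have hb0 : ∀ i, wv x i < M := fun i => by have := hb i; omega
    have hz : ∀ i, i ≠ τ → (x + eT i : Fin d → ZMod l) τ = 0 := fun i hi => by
      rw [add_ne x hi]; exact h0
    have hl1 : ∀ i i' : Fin d, i' ≠ i → wv (x + eT i) i' + 1 < l := fun i i' h => by
      rw [wv_add_ne h]; have := hb i'; omega
    exact cmp_plq a (hT x j hj h0 hb0 (by have := hb j; omega))
      (hT _ k hk (hz j hj) (hbj j) (hl1 j k hjk.symm))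
      (hT _ j hj (hz k hk) (hbj k) (hl1 k j hjk)) (hT x k hk h0 hb0 (by have := hb k; omega))
      (hW x j hj h0 hb0) (hW _ k hk (hz j hj) (hbj j)) (hW _ j hj (hz k hk) (hbj k))
      (hW x k hk h0 hb0) (hQ x h0 hb0) (hP x h0 hb0)

end general

section two

variable {d l : ℕ} [NeZero l] {τ : Fin d} {K : (Fin d → ZMod l) → ℝ} {M : ℕ}

lemma dv_W_cross {V : Ed d l → G} (hV : ∀ x, x τ = 0 → V (x, τ) = 1) {x : Fin d → ZMod l}
    {i : Fin d} (hi : i ≠ τ) (hx : x τ = 0) (hb : ∀ i, wv x i < M) :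
    dv L (tr (eT τ) V (x, i) * (V (x, i))⁻¹) ≤ sB L M V := by
  have h1 : tr (eT τ) V (x, i) * (V (x, i))⁻¹ = (plqT V x i τ)⁻¹ := by
    unfold plqT tr
    rw [hV _ hx, hV _ (by rw [add_ne x hi]; exact hx)]
    group
  rw [h1, dv_inv]
  exact le_sB'' V hb hi

lemma layer_R (hK : KS τ M K) {V : Ed d l → G} (hV : ∀ x, x τ = 0 → V (x, τ) = 1) (hM : 2 ≤ M)
    {j k : Fin d} (hj : j ≠ τ) (hk : k ≠ τ) (hjk : j ≠ k) (a : Fin n) :
    |Ph L K j k a V - Ph L K j k a (tr (eT τ) V) + Zf L K j k a (tr (eT τ) V) V| ≤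
      (∑ x, |K x|) * (36 * ((d * M + 1) * sB L M V) ^ 2) ∧
    |Ph L K j k a (tr (eT τ) V) - Ph L K j k a V + Zf L K j k a V (tr (eT τ) V)| ≤
      (∑ x, |K x|) * (36 * ((d * M + 1) * sB L M V) ^ 2) := by
  have hMl := hK.Ml
  have hs0 := sB_nonneg (L := L) M V
  have hdM : (0 : ℝ) ≤ d * M := by positivity
  have hle : sB L M V ≤ (d * M + 1) * sB L M V := by nlinarith
  have hle' : d * M * sB L M V ≤ (d * M + 1) * sB L M V := by nlinarith
  have hadd : ∀ x : Fin d → ZMod l, x τ = 0 → (∀ i, wv x i < M) →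
      ∀ i, wv (x + eT τ) i < M := fun x hx hb i => by
    have h0 := wv_zero.2 hx
    rw [wv_add (by rw [h0]; omega)]
    by_cases h : i = τ
    · subst h; simp only [Pi.add_apply, es_same, h0]; omega
    · simp only [Pi.add_apply, es_ne h, add_zero]; exact hb i
  have hW1 : ∀ (x : Fin d → ZMod l) (i : Fin d), i ≠ τ → x τ = 0 → (∀ i, wv x i < M) →
      dv L (tr (eT τ) V (x, i) * (V (x, i))⁻¹) ≤ sB L M V := fun x i hi hx hb =>
    dv_W_cross hV hi hx hb
  have hW2 : ∀ (x : Fin d → ZMod l) (i : Fin d), i ≠ τ → x τ = 0 → (∀ i, wv x i < M) →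
      dv L (V (x, i) * (tr (eT τ) V (x, i))⁻¹) ≤ sB L M V := fun x i hi hx hb => by
    rw [← dv_inv, _root_.mul_inv_rev, inv_inv]
    exact hW1 x i hi hx hb
  have hT2 : ∀ (x : Fin d → ZMod l) (i : Fin d), i ≠ τ → x τ = 0 → (∀ i, wv x i < M) →
      wv x i + 1 < l → dv L (tlT V x i) ≤ (d * M + 1) * sB L M V := fun x i hi hx hb hl =>
    (dv_tlT V hb hl).trans hle'
  have hP1 : ∀ (x : Fin d → ZMod l), x τ = 0 → (∀ i, wv x i < M) → ∀ i i', i ≠ i' →
      dv L (plqT (tr (eT τ) V) x i i') ≤ sB L M V := fun x hx hb i i' h => by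
    rw [plqT_tr]
    exact le_sB'' V (hadd x hx hb) h
  have hT1 : ∀ (x : Fin d → ZMod l) (i : Fin d), i ≠ τ → x τ = 0 → (∀ i, wv x i < M) →
      wv x i + 1 < l → dv L (tlT (tr (eT τ) V) x i) ≤ (d * M + 1) * sB L M V := by
    intro x i hi hx hb hl
    rw [tlT_eq _ hl]
    have h1 := dv_tl (L := L) (uu (tr (eT τ) V)) hs0 (wv x) i (fun v j hv hj _ => by
      rw [plq_uu]
      have hvτ : v τ = 0 := by
        have h1 : v τ ≤ wv x τ := hv τ
        rw [wv_zero.2 hx] at h1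
        exact Nat.le_zero.1 h1
      refine hP1 _ (ct_zero hvτ) (fun i' => ?_) j i hj.ne
      rw [wv_ct (fun i => lt_of_le_of_lt (hv i) (wv_lt x i))]
      exact lt_of_le_of_lt (hv i') (hb i'))
    refine h1.trans (le_trans ?_ hle')
    refine mul_le_mul_of_nonneg_right ?_ hs0
    have := sz_le (w := wv x) (M := M) fun i => (hb i).le
    exact_mod_cast this
  have hQg : ∀ U U' : Ed d l → G, (∀ (x : Fin d → ZMod l) (i : Fin d), i ≠ τ → x τ = 0 →
      (∀ i, wv x i < M) → dv L (U (x, i) * (U' (x, i))⁻¹) ≤ sB L M V) →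
      ∀ (x : Fin d → ZMod l), x τ = 0 → (∀ i, wv x i < M) →
        dv L (Pc U' x * (Pc U x)⁻¹) ≤ (d * M + 1) * sB L M V := by
    intro U U' h x hx hb
    have h1 := dv_fr (L := L) (u := uu U) (u' := uu U') hs0 (wv x) (fun v hv i hi => by
      have hvτ : v τ = 0 := by
        have h1 : v τ ≤ wv x τ := hv τ
        rw [wv_zero.2 hx] at h1
        exact Nat.le_zero.1 h1
      have hiτ : i ≠ τ := by
        rintro rfl
        rw [wv_zero.2 hx] at hi; omega
      refine h _ _ hiτ (ct_zero hvτ) (fun i' => ?_)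
      rw [wv_ct (fun i => lt_of_le_of_lt (hv i) (wv_lt x i))]
      exact lt_of_le_of_lt (hv i') (hb i'))
    refine h1.trans (le_trans ?_ hle')
    refine mul_le_mul_of_nonneg_right ?_ hs0
    have := sz_le (w := wv x) (M := M) fun i => (hb i).le
    exact_mod_cast this
  constructor
  · exact cmp_Ph hK hj hk hjk a hT1 (fun x i hi hx hb => (hW1 x i hi hx hb).trans hle)
      (hQg _ _ hW1) (fun x hx hb => (le_sB'' V hb hjk).trans hle)
  · exact cmp_Ph hK hj hk hjk a hT2 (fun x i hi hx hb => (hW2 x i hi hx hb).trans hle)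
      (hQg _ _ hW2) (fun x hx hb => (hP1 x hx hb j k hjk).trans hle)

end two

end

end Pool.Agent.W793.YM
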