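import Mathlib
import Pool.Agent.W793.YM.Layer

/-!
# Divergence free vector fields in the comb gauge and their flows
-/

open MeasureTheory Matrix
open scoped Matrix.Norms.Frobenius ContDiff
open Pool.Agent.H906R3.YM

namespace Pool.Agent.W793.YM

set_option linter.unusedSectionVars false
set_option linter.unusedVariables false

noncomputable section

variable {G : Type*} [Group G] [TopologicalSpace G] [IsTopologicalGroup G] [CompactSpace G]
  [SecondCountableTopology G] [MeasurableSpace G] [BorelSpace G] (μ : Measure G)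
  [IsProbabilityMeasure μ] [μ.IsMulLeftInvariant] [μ.IsMulRightInvariant] [μ.IsInvInvariant]
  {N n : ℕ} {L : LD G N n}

section curve

variable {E : Type*} [Fintype E] [DecidableEq E]

/-- derivative of a smooth function along a curve -/
lemma curve_deriv (F : Sm L E) {γ : ℝ → E → G} {c : E → Fin n → ℝ}
    (hγ : HasDerivAt (fun s => L.mat (γ s)) (fun e => ∑ b, c e b • (L.X b * L.rho (γ 0 e))) 0) :
    HasDerivAt (fun s => F.1 (γ s)) (∑ e, ∑ b, c e b * (L.Dv (e, b) F).1 (γ 0)) 0 := by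
  obtain ⟨F, hF⟩ := F
  obtain ⟨f, hf, h⟩ := id hF
  have h1 : (fun s => F (γ s)) = fun s => f (L.mat (γ s)) := by funext s; exact h _
  have h2 : HasFDerivAt f (fderiv ℝ f (L.mat (γ 0))) (L.mat (γ 0)) :=
    (hf.differentiable (by simp)).differentiableAt.hasFDerivAt
  have h3 := h2.comp_hasDerivAt (0 : ℝ) hγ
  have h4 : (fun e => ∑ b, c e b • (L.X b * L.rho (γ 0 e))) =
      ∑ e, ∑ b, c e b • L.vf e b (L.mat (γ 0)) := by
    funext e
    rw [Finset.sum_apply, Finset.sum_eq_single e]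
    · rw [Finset.sum_apply]
      refine Finset.sum_congr rfl fun b _ => ?_
      rw [Pi.smul_apply]
      unfold LD.vf
      rw [Pi.single_eq_same]; rfl
    · intro e' _ hne
      rw [Finset.sum_apply]
      refine Finset.sum_eq_zero fun b _ => ?_
      rw [Pi.smul_apply]
      unfold LD.vf
      rw [Pi.single_eq_of_ne hne.symm, smul_zero]
    · intro h; exact absurd (Finset.mem_univ _) h
  rw [h4, map_sum] at h3
  have h5 : ∑ e, ∑ b, c e b * (L.Dv (e, b) (⟨F, hF⟩ : Sm L E)).1 (γ 0) =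
      ∑ e, (fderiv ℝ f (L.mat (γ 0))) (∑ b, c e b • L.vf e b (L.mat (γ 0))) := by
    refine Finset.sum_congr rfl fun e _ => ?_
    rw [map_sum]
    refine Finset.sum_congr rfl fun b _ => ?_
    rw [map_smul, smul_eq_mul, Dv_apply]
    rw [dF_ext hf h]
  show HasDerivAt (fun s => F (γ s)) _ 0
  rw [h1, h5]
  exact h3

end curve

lemma ex_neg (α : Fin n) (t : ℝ) : L.ex α (-t) = (L.ex α t)⁻¹ := by
  have h := L.ex_add α (-t) t
  rw [neg_add_cancel, L.ex_zero] at h
  exact eq_inv_of_mul_eq_one_left h.symm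

lemma hasDeriv_ex (α : Fin n) (a s : ℝ) :
    HasDerivAt (fun s => L.rho (L.ex α (s * a))) (a • (L.X α * L.rho (L.ex α (s * a)))) s := by
  have h0 := L.deriv_ex α
  have h1 : HasDerivAt (fun t => L.rho (L.ex α (t * a - s * a)) * L.rho (L.ex α (s * a)))
      ((a • L.X α) * L.rho (L.ex α (s * a))) s := by
    refine HasDerivAt.mul_const ?_ _
    have h2 : HasDerivAt (fun t : ℝ => t * a - s * a) a s := by
      simpa using ((hasDerivAt_id s).mul_const a).sub_const (s * a)
    have h3 : HasDerivAt (fun t => L.rho (L.ex α t)) (L.X α) (s * a - s * a) := by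
      rw [sub_self]; exact h0
    exact HasDerivAt.scomp s h3 h2
  have h2 : (fun t => L.rho (L.ex α (t * a))) =
      fun t => L.rho (L.ex α (t * a - s * a)) * L.rho (L.ex α (s * a)) := by
    funext t
    rw [← L.rho.map_mul, ← L.ex_add, sub_add_cancel]
  rw [h2]
  refine h1.congr_deriv ?_
  rw [smul_mul_assoc]

variable {d l : ℕ} [NeZero l]

/-- support of the coefficients of the vector field -/
structure AS (ι i0 : Fin d) (M : ℕ) (A : (Fin d → ZMod l) → ℝ) : Prop where
  lt : i0 < ι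
  pos : ∀ x, A x ≠ 0 → ∀ i, 1 ≤ wv x i
  bd : ∀ x, A x ≠ 0 → ∀ i, wv x i < M
  Ml : M < l

/-- the flow -/
def fl (L : LD G N n) (A : (Fin d → ZMod l) → ℝ) (ι : Fin d) (α : Fin n) (s : ℝ)
    (U : Ed d l → G) : Ed d l → G :=
  fun e => if e.2 = ι then (Pc U e.1)⁻¹ * L.ex α (s * A e.1) * Pc U e.1 * U e else U e

variable {A : (Fin d → ZMod l) → ℝ} {ι i0 : Fin d} {M : ℕ}

lemma fl_ne (α : Fin n) (s : ℝ) (U : Ed d l → G) (x : Fin d → ZMod l) {k : Fin d} (hk : k ≠ ι) :
    fl L A ι α s U (x, k) = U (x, k) := by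
  unfold fl; rw [if_neg hk]

lemma fl_eq (α : Fin n) (s : ℝ) (U : Ed d l → G) (x : Fin d → ZMod l) :
    fl L A ι α s U (x, ι) = (Pc U x)⁻¹ * L.ex α (s * A x) * Pc U x * U (x, ι) := by
  unfold fl; rw [if_pos rfl]

lemma Pc_fl (hA : AS ι i0 M A) (α : Fin n) (s : ℝ) (U : Ed d l → G) (x : Fin d → ZMod l) :
    Pc (fl L A ι α s U) x = Pc U x := by
  unfold Pc
  refine fr_congr' _ fun v hv k hk hk0 => ?_
  unfold uu
  by_cases h : k = ι
  · subst h
    rw [fl_eq]
    have h1 : A (ct l v) = 0 := by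
      by_contra hc
      have h2 := hA.pos _ hc i0
      rw [wv_ct (fun i => lt_of_le_of_lt (hv i) (wv_lt x i)), hk0 i0 hA.lt] at h2
      omega
    rw [h1, mul_zero, L.ex_zero]
    group
  · rw [fl_ne _ _ _ _ h]

lemma fl_fl (hA : AS ι i0 M A) (α : Fin n) (s t : ℝ) (U : Ed d l → G) :
    fl L A ι α s (fl L A ι α t U) = fl L A ι α (s + t) U := by
  funext e
  obtain ⟨x, k⟩ := e
  by_cases h : k = ι
  · subst h
    rw [fl_eq, fl_eq, fl_eq, Pc_fl hA, add_mul, L.ex_add]
    group
  · rw [fl_ne _ _ _ _ h, fl_ne _ _ _ _ h, fl_ne _ _ _ _ h]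

lemma fl_zero (α : Fin n) (U : Ed d l → G) : fl L A ι α 0 U = U := by
  funext e
  obtain ⟨x, k⟩ := e
  by_cases h : k = ι
  · subst h
    rw [fl_eq, zero_mul, L.ex_zero]
    group
  · rw [fl_ne _ _ _ _ h]

/-- matrix coefficients of the frames -/
def aS (L : LD G N n) (α b : Fin n) (x : Fin d → ZMod l) : Sm L (Ed d l) :=
  Pool.Agent.H906R3.YM.lin (L := L) (ip (L.X b))
    (fun U => L.rho (Pc U x)⁻¹ * L.X α * (L.rho (Pc U x)⁻¹)ᴴ)
    (((SmM.mul (SmG_Pc (L := L) x).inv (SmM.const (L.X α))).mul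
      (SmM.ct (SmG_Pc (L := L) x).inv)))

lemma aS_apply (α b : Fin n) (x : Fin d → ZMod l) (U : Ed d l → G) :
    (aS L α b x).1 U = L.adm (Pc U x)⁻¹ b α := rfl

/-- the vector field -/
def Vf (L : LD G N n) (A : (Fin d → ZMod l) → ℝ) (ι : Fin d) (α : Fin n) :
    Derivation ℝ (Sm L (Ed d l)) (Sm L (Ed d l)) :=
  ∑ x, ∑ b, (A x • aS L α b x) • L.Dv ((x, ι), b)

lemma Vf_eq (α : Fin n) (F : Sm L (Ed d l)) :
    Vf L A ι α F = ∑ x, ∑ b, (A x • aS L α b x) * L.Dv ((x, ι), b) F := by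
  unfold Vf
  have h1 : ∀ (s : Finset (Fin d → ZMod l)) (f : (Fin d → ZMod l) →
      Derivation ℝ (Sm L (Ed d l)) (Sm L (Ed d l))), (∑ x ∈ s, f x) F = ∑ x ∈ s, f x F := by
    intro s f
    exact map_sum (Pi.evalAddMonoidHom _ F |>.comp
      (Derivation.coeFnAddMonoidHom (R := ℝ) (A := Sm L (Ed d l)) (M := Sm L (Ed d l)))) f s
  have h2 : ∀ (s : Finset (Fin n)) (f : Fin n →
      Derivation ℝ (Sm L (Ed d l)) (Sm L (Ed d l))), (∑ x ∈ s, f x) F = ∑ x ∈ s, f x F := by
    intro s f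
    exact map_sum (Pi.evalAddMonoidHom _ F |>.comp
      (Derivation.coeFnAddMonoidHom (R := ℝ) (A := Sm L (Ed d l)) (M := Sm L (Ed d l)))) f s
  rw [h1]
  refine Finset.sum_congr rfl fun x _ => ?_
  rw [h2]
  rfl

lemma Vf_apply (α : Fin n) (F : Sm L (Ed d l)) (U : Ed d l → G) :
    (Vf L A ι α F).1 U = ∑ x, ∑ b, (A x * L.adm (Pc U x)⁻¹ b α) * (L.Dv ((x, ι), b) F).1 U := by
  rw [Vf_eq]
  have h1 : (∑ x, ∑ b, (A x • aS L α b x) * L.Dv ((x, ι), b) F).1 U =
      L.ev U (∑ x, ∑ b, (A x • aS L α b x) * L.Dv ((x, ι), b) F) := rfl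
  rw [h1]
  simp only [map_sum, map_mul, map_smul, smul_eq_mul]
  rfl

lemma fl_deriv0 (α : Fin n) (F : Sm L (Ed d l)) (U : Ed d l → G) :
    HasDerivAt (fun s => F.1 (fl L A ι α s U)) ((Vf L A ι α F).1 U) 0 := by
  have h1 := curve_deriv (L := L) F (γ := fun s => fl L A ι α s U)
    (c := fun e b => if e.2 = ι then A e.1 * L.adm (Pc U e.1)⁻¹ b α else 0) (by
      refine hasDerivAt_pi.2 fun e => ?_
      obtain ⟨x, k⟩ := e
      by_cases h : k = ι
      · subst h
        simp only [if_true]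
        have h2 := hasDeriv_ex (L := L) α (A x) 0
        have h3 := ((h2.const_mul (L.rho (Pc U x)⁻¹)).mul_const (L.rho (Pc U x))).mul_const
          (L.rho (U (x, k)))
        have h4 : (fun s => L.mat (fl L A k α s U) (x, k)) = fun s => L.rho (Pc U x)⁻¹ *
            L.rho (L.ex α (s * A x)) * L.rho (Pc U x) * L.rho (U (x, k)) := by
          funext s
          unfold LD.mat
          rw [fl_eq, L.rho.map_mul, L.rho.map_mul, L.rho.map_mul]
        rw [h4]
        refine h3.congr_deriv ?_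
        rw [zero_mul, L.ex_zero, map_one, mul_one]
        have h5 := conj_eq (L := L) (Pc U x)⁻¹ α
        have h6 : (L.rho (Pc U x)⁻¹)ᴴ = L.rho (Pc U x) := by
          rw [L.rho_inv, conjTranspose_conjTranspose]
        rw [h6] at h5
        have h7 : L.rho (Pc U x)⁻¹ * A x • L.X α * L.rho (Pc U x) * L.rho (U (x, k)) =
            A x • ((L.rho (Pc U x)⁻¹ * L.X α * L.rho (Pc U x)) * L.rho (U (x, k))) := by
          simp only [mul_smul_comm, smul_mul_assoc]
        rw [h7, h5, Finset.sum_mul, Finset.smul_sum]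
        refine Finset.sum_congr rfl fun b _ => ?_
        rw [smul_mul_assoc, smul_smul, fl_zero]
      · simp only [h, if_false, zero_smul, Finset.sum_const_zero]
        have h4 : (fun s => L.mat (fl L A ι α s U) (x, k)) = fun s => L.rho (U (x, k)) := by
          funext s
          unfold LD.mat
          rw [fl_ne _ _ _ _ h]
        rw [h4]
        exact hasDerivAt_const _ _)
  refine h1.congr_deriv ?_
  rw [fl_zero, Vf_apply, Fintype.sum_prod_type]
  refine Finset.sum_congr rfl fun x _ => ?_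
  rw [Finset.sum_eq_single ι]
  · simp only [if_true]
  · intro k _ hk
    simp [hk]
  · intro h; exact absurd (Finset.mem_univ _) h

lemma fl_deriv (hA : AS ι i0 M A) (α : Fin n) (F : Sm L (Ed d l)) (U : Ed d l → G) (s : ℝ) :
    HasDerivAt (fun s => F.1 (fl L A ι α s U)) ((Vf L A ι α F).1 (fl L A ι α s U)) s := by
  have h0 := fl_deriv0 (A := A) (ι := ι) α F (fl L A ι α s U)
  have h1 : (fun t => F.1 (fl L A ι α t U)) =
      (fun t => F.1 (fl L A ι α t (fl L A ι α s U))) ∘ fun t => t - s := by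
    funext t
    simp only [Function.comp]
    rw [fl_fl hA, sub_add_cancel]
  rw [h1]
  have h2 : HasDerivAt (fun t : ℝ => t - s) 1 s := by simpa using (hasDerivAt_id s).sub_const s
  have h3 : HasDerivAt (fun t => F.1 (fl L A ι α t (fl L A ι α s U)))
      ((Vf L A ι α F).1 (fl L A ι α s U)) (s - s) := by rw [sub_self]; exact h0
  have h5 := HasDerivAt.comp (h := fun t : ℝ => t - s) s h3 h2
  simpa using h5

/-- the vector field has no divergence -/
lemma I_Vf (α : Fin n) (F : Sm L (Ed d l)) : L.I μ (Vf L A ι α F) = 0 := by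
  rw [Vf_eq, map_sum]
  refine Finset.sum_eq_zero fun x _ => ?_
  rw [map_sum]
  refine Finset.sum_eq_zero fun b _ => ?_
  have h1 := I_D (D := L.Dv) (L.I μ) (I_D_zero μ) ((x, ι), b) F (A x • aS L α b x)
  rw [mul_comm, h1]
  have h2 : L.Dv ((x, ι), b) (A x • aS L α b x) = 0 := by
    rw [Derivation.map_smul]
    have h3 : L.Dv ((x, ι), b) (aS L α b x) = 0 := by
      refine Dv_dep (p := fun e => e ≠ (x, ι)) ?_ (by simp) b
      intro U U' h
      rw [aS_apply, aS_apply]
      congr 2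
      unfold Pc
      refine fr_congr' _ fun v hv k hk _ => ?_
      unfold uu
      refine h _ ?_
      intro he
      have h4 : ct l v = x := (Prod.ext_iff.1 he).1
      have h5 : v = wv x := by
        rw [← h4, wv_ct (fun i => lt_of_le_of_lt (hv i) (wv_lt x i))]
      rw [h5] at hk
      omega
    rw [h3, smul_zero]
  rw [h2, mul_zero, map_zero, neg_zero]

end

end Pool.Agent.W793.YM
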