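import Mathlib
import Pool.Agent.W793.YM.Flow

/-!
# Derivatives of the action and of the flux along the vector fields
-/

open MeasureTheory Matrix
open scoped Matrix.Norms.Frobenius ContDiff
open Pool.Agent.H906R3.YM

namespace Pool.Agent.W793.YM

set_option linter.unusedSectionVars false
set_option linter.unusedVariables false

noncomputable section

variable {G : Type*} [Group G] [TopologicalSpace G] [IsTopologicalGroup G] [CompactSpace G]
  [SecondCountableTopology G] [MeasurableSpace G] [BorelSpace G]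
  {N n : ℕ} {L : LD G N n}

lemma trX_X (a b : Fin n) : trX L a (L.X b) = -(if a = b then 1 else 0) := by
  have h := ip_X (L := L) a b
  rw [← h, trX_apply, ip_apply, skew, neg_mul, trace_neg, Complex.neg_re, neg_neg]

/-- `Re tr (X_a X_b g)` -/
lemma X_right (a b : Fin n) (g : G) :
    |trX L a (L.X b * L.rho g) - trX L a (L.X b)| ≤ dv L g := by
  have h1 : trX L a (L.X b * L.rho g) - trX L a (L.X b) = trX L a (L.X b * (L.rho g - 1)) := by
    rw [← map_sub, mul_sub, mul_one]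
  rw [h1]
  refine (abs_trX a _).trans ((norm_mul_le _ _).trans ?_)
  rw [norm_X, one_mul]; exact le_rfl

/-- `Re tr (X_a g X_b h)` -/
lemma X_sand (a b : Fin n) (g h : G) :
    |trX L a (L.rho g * L.X b * L.rho h) - trX L a (L.X b)| ≤ dv L (g * h) + 2 * dv L h := by
  have e1 : L.rho h⁻¹ * L.rho h = 1 := by rw [← L.rho.map_mul, inv_mul_cancel, L.rho.map_one]
  have e2 : L.rho g = L.rho (g * h) * L.rho h⁻¹ := by
    rw [← L.rho.map_mul, mul_inv_cancel_right]
  have h1 : trX L a (L.rho g * L.X b * L.rho h) - trX L a (L.X b) =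
      trX L a ((L.rho (g * h) - 1) * (L.rho h⁻¹ * L.X b * L.rho h)) +
        trX L a (L.rho h⁻¹ * (L.X b * (L.rho h - 1) - (L.rho h - 1) * L.X b)) := by
    rw [← map_add, ← map_sub]
    congr 1
    have e3 : (L.rho (g * h) - 1) * (L.rho h⁻¹ * L.X b * L.rho h) =
        L.rho (g * h) * L.rho h⁻¹ * L.X b * L.rho h - L.rho h⁻¹ * L.X b * L.rho h := by
      noncomm_ring
    have e4 : L.rho h⁻¹ * (L.X b * (L.rho h - 1) - (L.rho h - 1) * L.X b) =
        L.rho h⁻¹ * L.X b * L.rho h - (L.rho h⁻¹ * L.rho h) * L.X b := by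
      noncomm_ring
    rw [e3, e4, e1, ← e2, one_mul]
    abel
  rw [h1]
  refine (abs_add_le _ _).trans (add_le_add ?_ ?_)
  · refine (abs_trX a _).trans ((norm_mul_le _ _).trans ?_)
    rw [norm_rmul, norm_lmul, norm_X, mul_one]; exact le_rfl
  · refine (abs_trX a _).trans ?_
    rw [norm_lmul]
    refine (norm_sub_le _ _).trans ?_
    have b1 := norm_mul_le (L.X b) (L.rho h - 1)
    have b2 := norm_mul_le (L.rho h - 1) (L.X b)
    rw [norm_X] at b1 b2
    have b3 : ‖L.rho h - 1‖ = dv L h := rfl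
    rw [b3] at b1 b2
    linarith

/-- second variation of one plaquette -/
lemma second_bound (α : Fin n) (g h : G) (a a' : ℝ) :
    -(a ^ 2 * ip 1 (L.X α * L.X α * L.rho g * L.rho h) -
        2 * a * a' * ip 1 (L.X α * L.rho g * L.X α * L.rho h) +
        a' ^ 2 * ip 1 (L.rho g * L.X α * L.X α * L.rho h)) ≤
      (a - a') ^ 2 + (|a| + |a'|) ^ 2 * (dv L (g * h) + dv L h) := by
  have i1 : ip 1 (L.X α * L.X α * L.rho g * L.rho h) = trX L α (L.X α * L.rho (g * h)) := by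
    rw [ip_apply, trX_apply, conjTranspose_one, one_mul, L.rho.map_mul]
    simp only [Matrix.mul_assoc]
  have i2 : ip 1 (L.X α * L.rho g * L.X α * L.rho h) =
      trX L α (L.rho g * L.X α * L.rho h) := by
    rw [ip_apply, trX_apply, conjTranspose_one, one_mul]
    simp only [Matrix.mul_assoc]
  have i3 : ip 1 (L.rho g * L.X α * L.X α * L.rho h) = trX L α (L.X α * L.rho (h * g)) := by
    rw [ip_apply, trX_apply, conjTranspose_one, one_mul, L.rho.map_mul]
    congr 1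
    calc trace (L.rho g * L.X α * L.X α * L.rho h) =
        trace (L.rho g * (L.X α * L.X α * L.rho h)) := by simp only [Matrix.mul_assoc]
      _ = trace ((L.X α * L.X α * L.rho h) * L.rho g) := trace_mul_comm _ _
      _ = _ := by simp only [Matrix.mul_assoc]
  have h1 := X_right (L := L) α α (g * h)
  have h3 := X_right (L := L) α α (h * g)
  have h2 := X_sand (L := L) α α g h
  rw [dv_swap h g] at h3
  rw [i1, i2, i3]
  rw [trX_X, if_pos rfl] at h1 h2 h3
  obtain ⟨x1, hx1⟩ : ∃ x, x = trX L α (L.X α * L.rho (g * h)) := ⟨_, rfl⟩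
  obtain ⟨x2, hx2⟩ : ∃ x, x = trX L α (L.rho g * L.X α * L.rho h) := ⟨_, rfl⟩
  obtain ⟨x3, hx3⟩ : ∃ x, x = trX L α (L.X α * L.rho (h * g)) := ⟨_, rfl⟩
  rw [← hx1] at h1 ⊢
  rw [← hx2] at h2 ⊢
  rw [← hx3] at h3 ⊢
  obtain ⟨p, hp⟩ : ∃ p, p = dv L (g * h) := ⟨_, rfl⟩
  obtain ⟨q, hq⟩ : ∃ q, q = dv L h := ⟨_, rfl⟩
  have hp0 : 0 ≤ p := by rw [hp]; exact dv_nonneg _
  have hq0 : 0 ≤ q := by rw [hq]; exact dv_nonneg _
  rw [← hp] at h1 h2 h3 ⊢
  rw [← hq] at h2 ⊢
  rw [sub_neg_eq_add] at h1 h2 h3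
  have e1 : -(a ^ 2 * x1) ≤ a ^ 2 + a ^ 2 * p := by
    have := (abs_le.1 h1).1
    nlinarith [sq_nonneg a]
  have e3 : -(a' ^ 2 * x3) ≤ a' ^ 2 + a' ^ 2 * p := by
    have := (abs_le.1 h3).1
    nlinarith [sq_nonneg a']
  have e2 : 2 * a * a' * x2 ≤ -(2 * a * a') + 2 * (|a| * |a'|) * (p + 2 * q) := by
    have h4 : 2 * a * a' * (x2 + 1) ≤ |2 * a * a'| * |x2 + 1| := by
      rw [← abs_mul]; exact le_abs_self _
    have h5 : |2 * a * a'| = 2 * (|a| * |a'|) := by
      rw [abs_mul, abs_mul, abs_two]; ring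
    rw [h5] at h4
    have h6 : 2 * (|a| * |a'|) * |x2 + 1| ≤ 2 * (|a| * |a'|) * (p + 2 * q) :=
      mul_le_mul_of_nonneg_left h2 (by positivity)
    nlinarith
  have e4 : |a| ^ 2 = a ^ 2 := sq_abs a
  have e5 : |a'| ^ 2 = a' ^ 2 := sq_abs a'
  have e6 : 4 * (|a| * |a'|) ≤ (|a| + |a'|) ^ 2 := by nlinarith [sq_nonneg (|a| - |a'|)]
  have e7 : 4 * (|a| * |a'|) * q ≤ (|a| + |a'|) ^ 2 * q := mul_le_mul_of_nonneg_right e6 hq0
  nlinarith

section mat

variable (α : Fin n) (B C : Mat N) (a a' : ℝ)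

/-- first derivative -/
def m1 (L : LD G N n) (α : Fin n) (B C : Mat N) (a a' s : ℝ) : Mat N :=
  a • (L.X α * L.rho (L.ex α (s * a)) * B * L.rho (L.ex α (s * -a')) * C) -
    a' • (L.rho (L.ex α (s * a)) * B * (L.X α * L.rho (L.ex α (s * -a'))) * C)

lemma hasDeriv_m (s : ℝ) :
    HasDerivAt (fun s => L.rho (L.ex α (s * a)) * B * L.rho (L.ex α (s * -a')) * C)
      (m1 L α B C a a' s) s := by
  have h1 := hasDeriv_ex (L := L) α a s
  have h2 := hasDeriv_ex (L := L) α (-a') s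
  have h3 := (((h1.mul_const B).mul h2).mul_const C)
  refine h3.congr_deriv ?_
  unfold m1
  rw [add_mul, sub_eq_add_neg]
  congr 1
  · simp only [smul_mul_assoc]
  · rw [neg_smul, mul_neg, neg_mul, mul_smul_comm, smul_mul_assoc]

lemma hasDeriv_m1 :
    HasDerivAt (fun s => m1 L α B C a a' s)
      (a ^ 2 • (L.X α * L.X α * B * C) - (2 * a * a') • (L.X α * B * L.X α * C) +
        a' ^ 2 • (B * L.X α * L.X α * C)) 0 := by
  have h1 := hasDeriv_ex (L := L) α a 0
  have h2 := hasDeriv_ex (L := L) α (-a') 0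
  have e0 : L.rho (L.ex α (0 * a)) = 1 := by rw [zero_mul, L.ex_zero, map_one]
  have e1 : L.rho (L.ex α (0 * -a')) = 1 := by rw [zero_mul, L.ex_zero, map_one]
  have h3 := ((((h1.const_mul (L.X α)).mul_const B).mul h2).mul_const C).const_smul a
  have h4 := (((h1.mul_const B).mul (h2.const_mul (L.X α))).mul_const C).const_smul a'
  have h5 := h3.sub h4
  unfold m1
  refine h5.congr_deriv ?_
  rw [e0, e1]
  simp only [mul_one, one_mul, neg_smul, mul_neg, neg_mul, mul_smul_comm, smul_mul_assoc, add_mul,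
    smul_add, smul_neg, smul_smul]
  have f1 : a * -a' = -(a * a') := by ring
  have e6 : a' * a = a * a' := by ring
  have e7 : 2 * a * a' = a * a' + a * a' := by ring
  rw [e6, e7, add_smul, pow_two, pow_two]
  simp only [Matrix.mul_assoc]
  abel

end mat

section lattice

variable {d l : ℕ} [NeZero l] {A : (Fin d → ZMod l) → ℝ} {ι i0 : Fin d} {M : ℕ}

lemma tlT_fl (hA : AS ι i0 M A) (α : Fin n) (s : ℝ) (U : Ed d l → G) (x : Fin d → ZMod l) :
    tlT (fl L A ι α s U) x ι = L.ex α (s * A x) * tlT U x ι := by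
  unfold tlT
  rw [Pc_fl hA, Pc_fl hA, fl_eq]
  group

lemma tlT_fl_ne (hA : AS ι i0 M A) (α : Fin n) (s : ℝ) (U : Ed d l → G) (x : Fin d → ZMod l)
    {k : Fin d} (hk : k ≠ ι) : tlT (fl L A ι α s U) x k = tlT U x k := by
  unfold tlT
  rw [Pc_fl hA, Pc_fl hA, fl_ne _ _ _ _ hk]

/-- the first part of a plaquette in the comb gauge -/
def gB (U : Ed d l → G) (ι k : Fin d) (x : Fin d → ZMod l) : G :=
  tlT U x ι * tlT U (x + eT ι) k * (tlT U (x + eT k) ι)⁻¹

lemma gB_mul (U : Ed d l → G) (ι k : Fin d) (x : Fin d → ZMod l) :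
    gB U ι k x * (tlT U x k)⁻¹ = Pc U x * plqT U x ι k * (Pc U x)⁻¹ := by
  unfold gB
  rw [Pc_plqT]

lemma plq_fl (hA : AS ι i0 M A) (α : Fin n) (s : ℝ) (U : Ed d l → G) (x : Fin d → ZMod l)
    {k : Fin d} (hk : k ≠ ι) :
    Pc (fl L A ι α s U) x * plqT (fl L A ι α s U) x ι k * (Pc (fl L A ι α s U) x)⁻¹ =
      L.ex α (s * A x) * gB U ι k x * L.ex α (s * -A (x + eT k)) * (tlT U x k)⁻¹ := by
  rw [Pc_plqT, tlT_fl hA, tlT_fl_ne hA _ _ _ _ hk, tlT_fl hA, tlT_fl_ne hA _ _ _ _ hk, mul_neg,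
    ex_neg]
  unfold gB
  group

lemma we_fl (hA : AS ι i0 M A) (α : Fin n) (s : ℝ) (U : Ed d l → G) (x : Fin d → ZMod l)
    {k : Fin d} (hk : k ≠ ι) :
    we L (plqT (fl L A ι α s U) x ι k) = N - ip 1 (L.rho (L.ex α (s * A x)) *
      L.rho (gB U ι k x) * L.rho (L.ex α (s * -A (x + eT k))) * L.rho (tlT U x k)⁻¹) := by
  rw [← we_conj (Pc (fl L A ι α s U) x), plq_fl hA _ _ _ _ hk, we_tr, ip_apply, conjTranspose_one,
    one_mul, L.rho.map_mul, L.rho.map_mul, L.rho.map_mul]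

/-- the action as a smooth function -/
def aS0 (L : LD G N n) (d l : ℕ) [NeZero l] : Sm L (Ed d l) := ⟨act L, act_mem⟩

lemma act_fl (hA : AS ι i0 M A) (α : Fin n) (s : ℝ) (U : Ed d l → G) :
    act L (fl L A ι α s U) = ∑ x, aA L ι U x + ∑ x, ∑ k, if k ≠ ι then
      (N : ℝ) - ip 1 (L.rho (L.ex α (s * A x)) * L.rho (gB U ι k x) *
        L.rho (L.ex α (s * -A (x + eT k))) * L.rho (tlT U x k)⁻¹) else 0 := by
  rw [act_eq ι]
  congr 1
  · refine Finset.sum_congr rfl fun x _ => ?_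
    exact aA_congr fun y k hk _ => fl_ne _ _ _ _ hk
  · refine Finset.sum_congr rfl fun x _ => ?_
    unfold aB
    refine Finset.sum_congr rfl fun k _ => ?_
    split_ifs with hk
    · exact we_fl hA α s U x hk
    · rfl

lemma V_act (hA : AS ι i0 M A) (α : Fin n) (s : ℝ) (U : Ed d l → G) :
    (Vf L A ι α (aS0 L d l)).1 (fl L A ι α s U) = ∑ x, ∑ k, if k ≠ ι then
      -ip 1 (m1 L α (L.rho (gB U ι k x)) (L.rho (tlT U x k)⁻¹) (A x) (A (x + eT k)) s) else 0 := by
  have h1 := fl_deriv hA α (aS0 L d l) U s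
  have h2 : (fun s => (aS0 L d l).1 (fl L A ι α s U)) = fun s => ∑ x, aA L ι U x + ∑ x, ∑ k,
      if k ≠ ι then (N : ℝ) - ip 1 (L.rho (L.ex α (s * A x)) * L.rho (gB U ι k x) *
        L.rho (L.ex α (s * -A (x + eT k))) * L.rho (tlT U x k)⁻¹) else 0 := by
    funext s
    exact act_fl hA α s U
  rw [h2] at h1
  refine h1.unique ?_
  refine HasDerivAt.const_add _ (HasDerivAt.fun_sum fun x _ => HasDerivAt.fun_sum fun k _ => ?_)
  by_cases hk : k ≠ ι
  · simp only [hk, if_true, ne_eq, not_false_eq_true]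
    refine HasDerivAt.const_sub _ ?_
    exact (ip 1).hasFDerivAt.comp_hasDerivAt s (hasDeriv_m α _ _ _ _ s)
  · simp only [hk, if_false]
    exact hasDerivAt_const _ _

lemma VV_act (hA : AS ι i0 M A) (α : Fin n) (U : Ed d l → G) :
    (Vf L A ι α (Vf L A ι α (aS0 L d l))).1 U = ∑ x, ∑ k, if k ≠ ι then
      -(A x ^ 2 * ip 1 (L.X α * L.X α * L.rho (gB U ι k x) * L.rho (tlT U x k)⁻¹) -
        2 * A x * A (x + eT k) * ip 1 (L.X α * L.rho (gB U ι k x) * L.X α * L.rho (tlT U x k)⁻¹) +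
        A (x + eT k) ^ 2 * ip 1 (L.rho (gB U ι k x) * L.X α * L.X α * L.rho (tlT U x k)⁻¹))
      else 0 := by
  have h1 := fl_deriv0 (A := A) (ι := ι) α (Vf L A ι α (aS0 L d l)) U
  have h2 : (fun s => (Vf L A ι α (aS0 L d l)).1 (fl L A ι α s U)) = fun s => ∑ x, ∑ k,
      if k ≠ ι then
      -ip 1 (m1 L α (L.rho (gB U ι k x)) (L.rho (tlT U x k)⁻¹) (A x) (A (x + eT k)) s) else 0 := by
    funext s
    exact V_act hA α s U
  rw [h2] at h1
  refine h1.unique ?_
  refine HasDerivAt.fun_sum fun x _ => HasDerivAt.fun_sum fun k _ => ?_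
  by_cases hk : k ≠ ι
  · simp only [hk, if_true, ne_eq, not_false_eq_true]
    refine HasDerivAt.neg ?_
    refine ((ip 1).hasFDerivAt.comp_hasDerivAt (0 : ℝ) (hasDeriv_m1 α _ _ _ _)).congr_deriv ?_
    rw [map_add, map_sub, map_smul, map_smul, map_smul]
    simp only [smul_eq_mul]
    rfl
  · simp only [hk, if_false]
    exact hasDerivAt_const _ _

lemma V_Ph (hA : AS ι i0 M A) (K : (Fin d → ZMod l) → ℝ) {k : Fin d} (hk : k ≠ ι) (α b : Fin n)
    (U : Ed d l → G) :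
    (Vf L A ι α (PhS L K ι k b)).1 U = ∑ x, K x *
      (A x * trX L b (L.X α * L.rho (gB U ι k x * (tlT U x k)⁻¹)) -
        A (x + eT k) * trX L b (L.rho (gB U ι k x) * L.X α * L.rho (tlT U x k)⁻¹)) := by
  have h1 := fl_deriv0 (A := A) (ι := ι) α (PhS L K ι k b) U
  have h2 : (fun s => (PhS L K ι k b).1 (fl L A ι α s U)) = fun s => ∑ x, K x *
      trX L b (L.rho (L.ex α (s * A x)) * L.rho (gB U ι k x) *
        L.rho (L.ex α (s * -A (x + eT k))) * L.rho (tlT U x k)⁻¹) := by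
    funext s
    rw [PhS_apply]
    unfold Ph fi
    refine Finset.sum_congr rfl fun x _ => ?_
    rw [plq_fl hA _ _ _ _ hk, L.rho.map_mul, L.rho.map_mul, L.rho.map_mul]
  rw [h2] at h1
  refine h1.unique ?_
  refine HasDerivAt.fun_sum fun x _ => HasDerivAt.const_mul _ ?_
  refine ((trX L b).hasFDerivAt.comp_hasDerivAt (0 : ℝ) (hasDeriv_m α _ _ _ _ 0)).congr_deriv ?_
  unfold m1
  have e0 : ∀ a : ℝ, L.rho (L.ex α (0 * a)) = 1 := fun a => by
    rw [zero_mul, L.ex_zero, map_one]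
  rw [e0, e0, map_sub, map_smul, map_smul, L.rho.map_mul]
  simp only [mul_one, one_mul, smul_eq_mul, Matrix.mul_assoc]
  rfl

end lattice

end

end Pool.Agent.W793.YM
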