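import Mathlib
import Pool.Agent.W793.YM.Der

/-!
# Bounds for the derivatives
-/

open MeasureTheory Matrix
open scoped Matrix.Norms.Frobenius ContDiff
open Pool.Agent.H906R3.YM

namespace Pool.Agent.W793.YM

set_option linter.unusedSectionVars false
set_option linter.unusedVariables false

noncomputable section

variable {G : Type*} [Group G] [TopologicalSpace G] [IsTopologicalGroup G] [CompactSpace G]
  [SecondCountableTopology G] [MeasurableSpace G] [BorelSpace G]
  {N n : ℕ} {L : LD G N n} {d l : ℕ} [NeZero l] {A : (Fin d → ZMod l) → ℝ} {ι i0 : Fin d} {M : ℕ}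

/-- the gradient energy of the coefficients -/
def EA (A : (Fin d → ZMod l) → ℝ) (ι : Fin d) : ℝ :=
  ∑ x, ∑ k, if k ≠ ι then (A x - A (x + eT k)) ^ 2 else 0

/-- the size of the support -/
def nS (A : (Fin d → ZMod l) → ℝ) : ℝ := ∑ x, if A x ≠ 0 then 1 else 0

lemma wv_pred {x : Fin d → ZMod l} {k : Fin d} (h : 1 ≤ wv (x + eT k) k) : wv x k + 1 < l := by
  have h0 := wv_lt x k
  by_contra hc
  have h1 : wv x k + 1 = l := by omega
  have h2 : (x + eT k : Fin d → ZMod l) k = 0 := by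
    rw [add_same]
    have h3 : x k = ((wv x k : ℕ) : ZMod l) := (ZMod.natCast_zmod_val (x k)).symm
    have h4 : x k + 1 = ((wv x k + 1 : ℕ) : ZMod l) := by push_cast; rw [← h3]
    rw [h4, h1, ZMod.natCast_self]
  have h5 : wv (x + eT k) k = 0 := by
    unfold wv; rw [h2, ZMod.val_zero]
  omega

lemma supp_near (hA : AS ι i0 M A) {x : Fin d → ZMod l} {k : Fin d}
    (h : A x ≠ 0 ∨ A (x + eT k) ≠ 0) : (∀ i, wv x i < M) ∧ wv x k + 1 < l := by
  rcases h with h | h
  · have h1 := hA.bd x h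
    have h2 := hA.Ml
    exact ⟨h1, by have := h1 k; omega⟩
  · have h1 := hA.bd _ h
    have h2 := wv_pred (hA.pos _ h k)
    refine ⟨fun i => ?_, h2⟩
    have h3 := h1 i
    rw [wv_add h2] at h3
    exact lt_of_le_of_lt (Nat.le_add_right _ _) h3

theorem VV_bound (hA : AS ι i0 M A) {a0 : ℝ} (ha : ∀ x, |A x| ≤ a0) (α : Fin n)
    (U : Ed d l → G) :
    (Vf L A ι α (Vf L A ι α (aS0 L d l))).1 U ≤
      EA A ι + (2 * d * nS A * (4 * a0 ^ 2 * (d * M + 1))) * sB L M U := by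
  rw [VV_act hA]
  have ha0 : 0 ≤ a0 := (abs_nonneg _).trans (ha 0)
  have hs := sB_nonneg (L := L) M U
  obtain ⟨E, hE⟩ : ∃ E : ℝ, E = 4 * a0 ^ 2 * ((d : ℝ) * M + 1) * sB L M U := ⟨_, rfl⟩
  have hE0 : 0 ≤ E := by rw [hE]; positivity
  have hterm : ∀ x k, (if k ≠ ι then
      -(A x ^ 2 * ip 1 (L.X α * L.X α * L.rho (gB U ι k x) * L.rho (tlT U x k)⁻¹) -
        2 * A x * A (x + eT k) * ip 1 (L.X α * L.rho (gB U ι k x) * L.X α * L.rho (tlT U x k)⁻¹) +
        A (x + eT k) ^ 2 * ip 1 (L.rho (gB U ι k x) * L.X α * L.X α * L.rho (tlT U x k)⁻¹))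
      else 0) ≤ (if k ≠ ι then (A x - A (x + eT k)) ^ 2 else 0) +
        (((if A x ≠ 0 then 1 else 0) + (if A (x + eT k) ≠ 0 then 1 else 0)) * E) := by
    intro x k
    by_cases hk : k ≠ ι
    · rw [if_pos hk, if_pos hk]
      by_cases h0 : A x ≠ 0 ∨ A (x + eT k) ≠ 0
      · have h1 := second_bound (L := L) α (gB U ι k x) (tlT U x k)⁻¹ (A x) (A (x + eT k))
        refine h1.trans (add_le_add le_rfl ?_)
        obtain ⟨hb, hl⟩ := supp_near hA h0
        rw [gB_mul, dv_conj, dv_inv]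
        have h2 : dv L (plqT U x ι k) ≤ sB L M U := le_sB'' U hb hk.symm
        have h3 := dv_tlT (L := L) U hb hl
        have h4 : (|A x| + |A (x + eT k)|) ^ 2 ≤ 4 * a0 ^ 2 := by
          have e1 := ha x
          have e2 := ha (x + eT k)
          have e3 : |A x| + |A (x + eT k)| ≤ 2 * a0 := by linarith
          calc _ ≤ (2 * a0) ^ 2 := pow_le_pow_left₀ (by positivity) e3 2
            _ = _ := by ring
        have h5 : dv L (plqT U x ι k) + dv L (tlT U x k) ≤ (d * M + 1) * sB L M U := by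
          linarith
        have h6 : (|A x| + |A (x + eT k)|) ^ 2 * (dv L (plqT U x ι k) + dv L (tlT U x k)) ≤ E := by
          rw [hE]
          calc _ ≤ 4 * a0 ^ 2 * ((d * M + 1) * sB L M U) :=
                mul_le_mul h4 h5 (add_nonneg (dv_nonneg _) (dv_nonneg _)) (by positivity)
            _ = _ := by ring
        refine h6.trans ?_
        have h7 : (1 : ℝ) ≤ (if A x ≠ 0 then 1 else 0) + (if A (x + eT k) ≠ 0 then 1 else 0) := by
          rcases h0 with h0 | h0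
          · rw [if_pos h0]
            split_ifs <;> norm_num
          · rw [if_pos h0]
            split_ifs <;> norm_num
        nlinarith
      · push Not at h0
        rw [h0.1, h0.2]
        simp
    · rw [if_neg hk, if_neg hk, zero_add]
      refine mul_nonneg ?_ hE0
      split_ifs <;> norm_num
  refine (Finset.sum_le_sum fun x _ => Finset.sum_le_sum fun k _ => hterm x k).trans ?_
  simp only [Finset.sum_add_distrib]
  unfold EA
  refine add_le_add le_rfl (le_of_eq ?_)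
  simp only [← Finset.sum_mul]
  have h8 : ∑ x, ∑ _k : Fin d, (if A x ≠ 0 then (1 : ℝ) else 0) = d * nS A := by
    unfold nS
    rw [Finset.mul_sum]
    refine Finset.sum_congr rfl fun x _ => ?_
    rw [Finset.sum_const, Finset.card_univ, Fintype.card_fin, nsmul_eq_mul]
  have h9 : ∑ x, ∑ k : Fin d, (if A (x + eT k) ≠ 0 then (1 : ℝ) else 0) = d * nS A := by
    rw [Finset.sum_comm]
    have h10 : ∀ k : Fin d, ∑ x, (if A (x + eT k) ≠ 0 then (1 : ℝ) else 0) = nS A := fun k =>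
      Equiv.sum_comp (Equiv.addRight (eT k : Fin d → ZMod l)) fun x => if A x ≠ 0 then (1 : ℝ) else 0
    rw [Finset.sum_congr rfl fun k _ => h10 k, Finset.sum_const, Finset.card_univ,
      Fintype.card_fin, nsmul_eq_mul]
  simp only [Finset.sum_add_distrib]
  rw [h8, h9, hE]
  ring

theorem V_Ph_bound (hA : AS ι i0 M A) {a0 : ℝ} (ha : ∀ x, |A x| ≤ a0)
    {K : (Fin d → ZMod l) → ℝ} (hK : ∀ x, K x ≠ 0 → ∀ i, wv x i < M) {k : Fin d} (hk : k ≠ ι)
    (α b : Fin n) (U : Ed d l → G) :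
    |(Vf L A ι α (PhS L K ι k b)).1 U -
      if α = b then ∑ x, K x * (A (x + eT k) - A x) else 0| ≤
      ((∑ x, |K x|) * (a0 * (2 * (d * M + 1)))) * sB L M U := by
  rw [V_Ph hA K hk]
  have ha0 : 0 ≤ a0 := (abs_nonneg _).trans (ha 0)
  have hs := sB_nonneg (L := L) M U
  have hMl := hA.Ml
  have e0 : (if α = b then ∑ x, K x * (A (x + eT k) - A x) else 0) =
      ∑ x, K x * ((if b = α then (1 : ℝ) else 0) * (A (x + eT k) - A x)) := by
    by_cases h : α = b
    · rw [if_pos h]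
      simp [h]
    · rw [if_neg h]
      simp [Ne.symm h]
  rw [e0, ← Finset.sum_sub_distrib]
  refine (Finset.abs_sum_le_sum_abs _ _).trans ?_
  rw [Finset.sum_mul, Finset.sum_mul]
  refine Finset.sum_le_sum fun x _ => ?_
  rw [← mul_sub, abs_mul, mul_assoc |K x|]
  by_cases hx : K x = 0
  · rw [hx]; simp
  refine mul_le_mul_of_nonneg_left ?_ (abs_nonneg _)
  have hb := hK x hx
  have h1 := X_right (L := L) b α (gB U ι k x * (tlT U x k)⁻¹)
  have h2 := X_sand (L := L) b α (gB U ι k x) (tlT U x k)⁻¹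
  rw [trX_X, sub_neg_eq_add, gB_mul, dv_conj] at h1 h2
  rw [dv_inv] at h2
  have h3 : dv L (plqT U x ι k) ≤ sB L M U := le_sB'' U hb hk.symm
  have h4 := dv_tlT (L := L) U hb (show wv x k + 1 < l by have := hb k; omega)
  rw [gB_mul]
  obtain ⟨δ, hδ⟩ : ∃ δ : ℝ, δ = if b = α then 1 else 0 := ⟨_, rfl⟩
  obtain ⟨x1, hx1⟩ : ∃ y, y = trX L b (L.X α * L.rho (Pc U x * plqT U x ι k * (Pc U x)⁻¹)) :=
    ⟨_, rfl⟩
  obtain ⟨x2, hx2⟩ : ∃ y, y = trX L b (L.rho (gB U ι k x) * L.X α * L.rho (tlT U x k)⁻¹) :=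
    ⟨_, rfl⟩
  rw [← hx1, ← hδ] at h1
  rw [← hx2, ← hδ] at h2
  rw [← hx1, ← hx2, ← hδ]
  have e1 : A x * x1 - A (x + eT k) * x2 - δ * (A (x + eT k) - A x) =
      A x * (x1 + δ) - A (x + eT k) * (x2 + δ) := by ring
  rw [e1]
  rw [sub_eq_add_neg]
  refine (abs_add_le _ _).trans ?_
  rw [abs_neg, abs_mul, abs_mul]
  have f1 : |A x| * |x1 + δ| ≤ a0 * sB L M U :=
    mul_le_mul (ha x) (h1.trans h3) (abs_nonneg _) ha0
  have f2 : |A (x + eT k)| * |x2 + δ| ≤ a0 * (sB L M U + 2 * (d * M * sB L M U)) :=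
    mul_le_mul (ha _) (h2.trans (by linarith)) (abs_nonneg _) ha0
  nlinarith

end

end Pool.Agent.W793.YM
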