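import Mathlib
import Pool.Agent.W793.YM.Layer

/-!
# The mean square of the difference of the observables of two time slices
-/

open MeasureTheory Matrix
open scoped Matrix.Norms.Frobenius ContDiff
open Pool.Agent.H906R3.YM

namespace Pool.Agent.W793.YM

set_option linter.unusedSectionVars false
set_option linter.unusedVariables false

noncomputable section

variable {G : Type*} [Group G] [TopologicalSpace G] [IsTopologicalGroup G] [CompactSpace G]
  [SecondCountableTopology G] [MeasurableSpace G] [BorelSpace G] (μ : Measure G)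
  [IsProbabilityMeasure μ] [μ.IsMulLeftInvariant] [μ.IsMulRightInvariant] [μ.IsInvInvariant]
  {N n : ℕ} {L : LD G N n}

/-- coefficients of the linear part -/
def et {d l : ℕ} (K : (Fin d → ZMod l) → ℝ) (j k : Fin d) (x : Fin d → ZMod l) (i : Fin d) : ℝ :=
  if i = j then K x - K (x - eT k) else if i = k then K (x - eT j) - K x else 0

/-- sum of the squares of the coefficients -/
def E2 {d l : ℕ} [NeZero l] (K : (Fin d → ZMod l) → ℝ) (j k : Fin d) : ℝ :=
  ∑ x, ((K x - K (x - eT k)) ^ 2 + (K (x - eT j) - K x) ^ 2)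

lemma sum_adm_xi (P W : G) (α : Fin n) :
    ∑ a, L.adm P⁻¹ a α * (trace (L.X a * L.rho W)).re = fi L α (P * W * P⁻¹) := by
  have h1 := conj_eq (L := L) P⁻¹ α
  have h2 : ∑ a, L.adm P⁻¹ a α * (trace (L.X a * L.rho W)).re =
      (trace ((∑ a, L.adm P⁻¹ a α • L.X a) * L.rho W)).re := by
    rw [Finset.sum_mul, trace_sum, Complex.re_sum]
    refine Finset.sum_congr rfl fun a _ => ?_
    rw [smul_mul_assoc, trace_smul]
    simp
  rw [h2, ← h1]
  unfold fi
  rw [trX_apply, L.rho.map_mul, L.rho.map_mul]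
  have h3 : (L.rho P⁻¹)ᴴ = L.rho P := by rw [L.rho_inv, conjTranspose_conjTranspose]
  rw [h3]
  congr 1
  calc trace (L.rho P⁻¹ * L.X α * L.rho P * L.rho W) =
      trace (L.rho P⁻¹ * (L.X α * L.rho P * L.rho W)) := by simp only [Matrix.mul_assoc]
    _ = trace ((L.X α * L.rho P * L.rho W) * L.rho P⁻¹) := trace_mul_comm _ _
    _ = _ := by simp only [Matrix.mul_assoc]

lemma sum_adm_sq (g : G) (α : Fin n) : ∑ b, L.adm g⁻¹ b α ^ 2 = 1 := by
  have h := sum_adm_adm (L := L) g α α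
  rw [if_pos rfl] at h
  rw [← h]
  exact Finset.sum_congr rfl fun b _ => by rw [adm_inv, pow_two]

variable {d m : ℕ} [NeZero m] {τ : Fin d}

lemma SmG_Pct {l : ℕ} [NeZero l] (z x : Fin d → ZMod l) :
    SmG L fun U : Ed d l → G => Pc (tr z U) x :=
  SmG_gam (fun U => uu (tr z U)) (fun w k => SmG_link _) _ _

/-- the coefficients -/
def cS {l : ℕ} [NeZero l] (L : LD G N n) (K : (Fin d → ZMod l) → ℝ) (j k τ : Fin d) (α : Fin n)
    (e : Ed d l) (b : Fin n) : Sm L (Ed d l) :=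
  et K j k (e.1 - eT τ) e.2 • Pool.Agent.H906R3.YM.lin (L := L) (ip (L.X b))
    (fun U => L.rho (Pc (tr (eT τ) U) (e.1 - eT τ))⁻¹ * L.X α *
      (L.rho (Pc (tr (eT τ) U) (e.1 - eT τ))⁻¹)ᴴ)
    (((SmM.mul (SmG_Pct (L := L) (eT τ) (e.1 - eT τ)).inv (SmM.const (L.X α))).mul
      (SmM.ct (SmG_Pct (L := L) (eT τ) (e.1 - eT τ)).inv)))

lemma cS_apply {l : ℕ} [NeZero l] (K : (Fin d → ZMod l) → ℝ) (j k τ : Fin d) (α : Fin n)
    (e : Ed d l) (b : Fin n) (U : Ed d l → G) : (cS L K j k τ α e b).1 U =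
      et K j k (e.1 - eT τ) e.2 * L.adm (Pc (tr (eT τ) U) (e.1 - eT τ))⁻¹ b α := rfl

section sums

variable {l : ℕ} [NeZero l] {K : (Fin d → ZMod l) → ℝ} {M : ℕ} {j k : Fin d}

lemma et_zero (hK : KS τ M K) (hj : j ≠ τ) (hk : k ≠ τ) {x : Fin d → ZMod l} (hx : x τ ≠ 0)
    (i : Fin d) : et K j k x i = 0 := by
  have h1 : ∀ y : Fin d → ZMod l, y τ ≠ 0 → K y = 0 := fun y hy => by
    by_contra hc
    exact hy (hK.t0 y hc)
  have h2 : ∀ i : Fin d, i ≠ τ → K (x - eT i) = 0 := fun i hi => by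
    refine h1 _ ?_
    have h3 : (x - eT i : Fin d → ZMod l) τ = x τ := by simp [eT, hi.symm]
    rw [h3]; exact hx
  unfold et
  rw [h1 x hx, h2 k hk, h2 j hj]
  simp

lemma sum_et (hK : KS τ M K) (hj : j ≠ τ) (hk : k ≠ τ) (hjk : j ≠ k) (F : ℝ → ℝ) (hF : F 0 = 0)
    (g : (Fin d → ZMod l) → Fin d → ℝ) :
    ∑ x : Fin d → ZMod l, (if x τ = 0 then ∑ i, (if i ≠ τ then F (et K j k x i) * g x i else 0)
      else 0) =
      ∑ x, (F (K x - K (x - eT k)) * g x j + F (K (x - eT j) - K x) * g x k) := by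
  refine Finset.sum_congr rfl fun x _ => ?_
  have h1 : F (K x - K (x - eT k)) * g x j + F (K (x - eT j) - K x) * g x k =
      ∑ i, F (et K j k x i) * g x i := by
    rw [← Finset.add_sum_erase _ _ (Finset.mem_univ j),
      Finset.sum_eq_single_of_mem k (Finset.mem_erase.2 ⟨hjk.symm, Finset.mem_univ k⟩)]
    · unfold et
      rw [if_pos rfl, if_neg hjk.symm, if_pos rfl]
    · intro i hi hik
      unfold et
      rw [if_neg (Finset.mem_erase.1 hi).1, if_neg hik, hF, zero_mul]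
  rw [h1]
  by_cases hx : x τ = 0
  · rw [if_pos hx]
    refine Finset.sum_congr rfl fun i _ => ?_
    split_ifs with hi
    · rfl
    · have : i = τ := not_not.1 hi
      unfold et
      rw [if_neg (by rw [this]; exact hj.symm), if_neg (by rw [this]; exact hk.symm), hF, zero_mul]
  · rw [if_neg hx]
    symm
    exact Finset.sum_eq_zero fun i _ => by rw [et_zero hK hj hk hx, hF, zero_mul]

end sums

variable {K : (Fin d → ZMod (2 * m)) → ℝ} {M : ℕ} {j k : Fin d}

lemma cS_dep (hm : 2 ≤ m) (hK : KS τ M K) (hj : j ≠ τ) (hk : k ≠ τ) (α : Fin n)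
    (e : Ed d (2 * m)) (b : Fin n) : Dep (TR hm τ).R (cS L K j k τ α e b).1 := by
  intro U U' h
  rw [cS_apply, cS_apply]
  by_cases hx : (e.1 - eT τ : Fin d → ZMod (2 * m)) τ = 0
  · congr 2
    congr 1
    unfold Pc
    refine fr_congr' _ fun v hv i hi _ => ?_
    have hvτ : v τ = 0 := by
      have h1 : v τ ≤ wv (e.1 - eT τ) τ := hv τ
      rw [wv_zero.2 hx] at h1
      exact Nat.le_zero.1 h1
    unfold uu tr
    simp only
    have h2 : (ct (2 * m) v + eT τ : Fin d → ZMod (2 * m)) τ = 1 := by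
      rw [add_same, ct_zero hvτ, zero_add]
    refine h _ ?_
    show if i = τ then H2 m _ else H1 m _
    simp only [h2]
    have h3 := (eq_one_iff hm (1 : ZMod (2 * m))).1 rfl
    split_ifs
    · unfold H2; rw [h3]; omega
    · unfold H1; rw [h3]; omega
  · rw [et_zero hK hj hk hx, zero_mul, zero_mul]

lemma sum_cS (hm : 2 ≤ m) (hK : KS τ M K) (hj : j ≠ τ) (hk : k ≠ τ) (hjk : j ≠ k) (α : Fin n)
    (U V : Ed d (2 * m) → G) :
    ∑ e ∈ (TR hm τ).J, ∑ a, (cS L K j k τ α e a).1 V * ((TR hm τ).xi L e a).1 U =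
      ∑ x, ((K x - K (x - eT k)) * fi L α (Pc (tr (eT τ) V) x * (U (x + eT τ, j) *
        (U (x, j))⁻¹) * (Pc (tr (eT τ) V) x)⁻¹) +
        (K (x - eT j) - K x) * fi L α (Pc (tr (eT τ) V) x * (U (x + eT τ, k) *
        (U (x, k))⁻¹) * (Pc (tr (eT τ) V) x)⁻¹)) := by
  have h1 : ∀ e, ∑ a, (cS L K j k τ α e a).1 V * ((TR hm τ).xi L e a).1 U =
      et K j k (e.1 - eT τ) e.2 * fi L α (Pc (tr (eT τ) V) (e.1 - eT τ) * ((TR hm τ).W U e) *
        (Pc (tr (eT τ) V) (e.1 - eT τ))⁻¹) := by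
    intro e
    rw [← sum_adm_xi, Finset.mul_sum]
    refine Finset.sum_congr rfl fun a _ => ?_
    rw [cS_apply, Refl.xi_apply]; ring
  rw [Finset.sum_congr rfl fun e _ => h1 e, sum_J hm]
  have h2 : ∑ x : Fin d → ZMod (2 * m), (if x τ = (m : ZMod (2 * m)) then ∑ i, (if i ≠ τ then
      et K j k ((x, i).1 - eT τ) (x, i).2 * fi L α (Pc (tr (eT τ) V) ((x, i).1 - eT τ) *
        ((TR hm τ).W U (x, i)) * (Pc (tr (eT τ) V) ((x, i).1 - eT τ))⁻¹) else 0) else 0) = 0 := by
    refine Finset.sum_eq_zero fun x _ => ?_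
    split_ifs with hx
    · refine Finset.sum_eq_zero fun i _ => ?_
      split_ifs with hi
      · rw [et_zero hK hj hk, zero_mul]
        simp only
        have h3 : (x - eT τ : Fin d → ZMod (2 * m)) τ = x τ - 1 := by simp [eT]
        rw [h3]
        intro h4
        have h5 : x τ = 1 := by rw [← sub_add_cancel (x τ) 1, h4, zero_add]
        rw [eq_one_iff hm] at h5
        rw [eq_m_iff hm] at hx
        omega
      · rfl
    · rfl
  rw [h2, add_zero]
  have h7 := sum_et hK hj hk hjk (fun t => t) rfl (fun x i => fi L α (Pc (tr (eT τ) V) x *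
    (U (x + eT τ, i) * (U (x, i))⁻¹) * (Pc (tr (eT τ) V) x)⁻¹))
  rw [← h7]
  refine Finset.sum_congr rfl fun x _ => ?_
  split_ifs with hx
  · refine Finset.sum_congr rfl fun i _ => ?_
    split_ifs with hi
    · have h3 : rB τ x = x := by
        unfold rB
        rw [hx, neg_zero, ← hx, Function.update_eq_self]
      have h4 : (TR hm τ).W U (x + eT τ, i) = U (x + eT τ, i) * (U (rA τ (x + eT τ), i))⁻¹ := by
        unfold Refl.W TR
        simp [hi]
      simp only [add_sub_cancel_right, h4, rA_eq', h3]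
    · rfl
  · rfl

lemma SA_tU (hm : 2 ≤ m) (U : Ed d (2 * m) → G) :
    SA τ (tr (eT τ) ((TR hm τ).tU U)) U := by
  intro x k hx hk
  unfold tr
  simp only
  rw [tU_ne _ _ hk, rA_eq']
  have h3 : rB τ x = x := by
    unfold rB
    rw [hx, neg_zero, ← hx, Function.update_eq_self]
  rw [h3]

lemma star_Zf (hm : 2 ≤ m) (hK : KS τ M K) (hj : j ≠ τ) (hk : k ≠ τ) (hjk : j ≠ k) (α : Fin n)
    {β : ℝ} (hβ : 0 < β) :
    β * (TR hm τ).Ew μ L β (wR L β m τ).1 (fun U => Zf L K j k α (tr (eT τ) U) U *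
      -(Zf L K j k α U (tr (eT τ) U))) ≤
      E2 K j k * (TR hm τ).Ew μ L β (wR L β m τ).1 (fun _ => 1) := by
  have h := (TR hm τ).star μ hβ (wR L β m τ) (wR_dep hm _ _) (wR_nonneg _ _)
    (cS L K j k τ α) (cS_dep hm hK hj hk α) (fun e => |et K j k (e.1 - eT τ) e.2|)
    (fun e => abs_nonneg _) (fun e _ U => by
      rw [sq_abs]
      have h1 : ∀ a, (cS L K j k τ α e a).1 U ^ 2 = et K j k (e.1 - eT τ) e.2 ^ 2 *
          L.adm (Pc (tr (eT τ) U) (e.1 - eT τ))⁻¹ a α ^ 2 := fun a => by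
        rw [cS_apply, mul_pow]
      rw [Finset.sum_congr rfl fun a _ => h1 a, ← Finset.mul_sum, sum_adm_sq, mul_one])
  have e1 : ∀ U : Ed d (2 * m) → G, ∑ e ∈ (TR hm τ).J, ∑ a, (cS L K j k τ α e a).1 U *
      ((TR hm τ).xi L e a).1 U = Zf L K j k α (tr (eT τ) U) U := by
    intro U
    rw [sum_cS hm hK hj hk hjk, Zf_eq]
    rfl
  have e2 : ∀ U : Ed d (2 * m) → G, ∑ e ∈ (TR hm τ).J, ∑ a,
      (cS L K j k τ α e a).1 ((TR hm τ).tU U) * ((TR hm τ).xi L e a).1 U =
      -(Zf L K j k α U (tr (eT τ) U)) := by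
    intro U
    rw [sum_cS hm hK hj hk hjk, Zf_eq, ← Finset.sum_neg_distrib]
    refine Finset.sum_congr rfl fun x _ => ?_
    rw [gW_swap, gW_swap]
    by_cases hx : x τ = 0
    · rw [Pc_SA (SA_tU hm U) hx]
      unfold tr
      simp only
      ring
    · have h3 : ∀ i, et K j k x i = 0 := fun i => et_zero hK hj hk hx i
      have h4 := h3 j
      have h5 := h3 k
      unfold et at h4 h5
      rw [if_pos rfl] at h4
      rw [if_neg hjk.symm, if_pos rfl] at h5
      rw [h4, h5]; ring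
  have e3 : ∑ e ∈ (TR hm τ).J, |et K j k (e.1 - eT τ) e.2| ^ 2 = E2 K j k := by
    rw [sum_J hm]
    have h2 : ∑ x : Fin d → ZMod (2 * m), (if x τ = (m : ZMod (2 * m)) then ∑ i, (if i ≠ τ then
        |et K j k ((x, i).1 - eT τ) (x, i).2| ^ 2 else 0) else 0) = 0 := by
      refine Finset.sum_eq_zero fun x _ => ?_
      split_ifs with hx
      · refine Finset.sum_eq_zero fun i _ => ?_
        split_ifs with hi
        · rw [et_zero hK hj hk, abs_zero]
          · norm_num
          simp only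
          have h3 : (x - eT τ : Fin d → ZMod (2 * m)) τ = x τ - 1 := by simp [eT]
          rw [h3]
          intro h4
          have h5 : x τ = 1 := by rw [← sub_add_cancel (x τ) 1, h4, zero_add]
          rw [eq_one_iff hm] at h5
          rw [eq_m_iff hm] at hx
          omega
        · rfl
      · rfl
    rw [h2, add_zero]
    have h6 := sum_et hK hj hk hjk (fun t => t ^ 2) (by norm_num) (fun _ _ => (1 : ℝ))
    simp only [mul_one] at h6
    unfold E2
    rw [← h6]
    refine Finset.sum_congr rfl fun x _ => ?_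
    split_ifs with hx
    · refine Finset.sum_congr rfl fun i _ => ?_
      split_ifs with hi
      · simp only [add_sub_cancel_right, sq_abs]
      · rfl
    · rfl
  simp only [e1, e2, e3] at h
  exact h

end

end Pool.Agent.W793.YM
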