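import Mathlib
import Pool.Agent.W793.YM.LStar

/-!
# The observables of neighbouring time slices are close
-/

open MeasureTheory Matrix
open scoped Matrix.Norms.Frobenius ContDiff
open Pool.Agent.H906R3.YM

namespace Pool.Agent.W793.YM

set_option linter.unusedSectionVars false
set_option linter.unusedVariables false

noncomputable section

variable {G : Type*} [Group G] [TopologicalSpace G] [IsTopologicalGroup G] [CompactSpace G]
  [SecondCountableTopology G] [MeasurableSpace G] [BorelSpace G] (μ : Measure G)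
  [IsProbabilityMeasure μ] [μ.IsMulLeftInvariant] [μ.IsMulRightInvariant] [μ.IsInvInvariant]
  {N n : ℕ} {L : LD G N n}

lemma Refl.Ew_sum {E : Type*} [Fintype E] [DecidableEq E] (T : Refl E) {β : ℝ}
    {w : (E → G) → ℝ} (hw : Continuous w) {ι : Type*} (s : Finset ι) {F : ι → (E → G) → ℝ}
    (hF : ∀ i ∈ s, Continuous (F i)) :
    T.Ew μ L β w (fun U => ∑ i ∈ s, F i U) = ∑ i ∈ s, T.Ew μ L β w (F i) := by
  unfold Refl.Ew
  simp only [Finset.sum_mul]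
  rw [integral_finsetSum]
  intro i hi
  exact integrable_cont μ ((hF i hi).mul (T.wt_cont (L := L) hw))

lemma tr_gt {d l : ℕ} {G : Type*} [Group G] (z : Fin d → ZMod l) (γ : (Fin d → ZMod l) → G)
    (U : Ed d l → G) : tr z (gt γ U) = gt (fun x => γ (x + z)) (tr z U) := by
  funext e
  unfold tr gt
  simp only
  rw [add_right_comm]

lemma GI.tr {d l : ℕ} {F : (Ed d l → G) → ℝ} (h : GI F) (z : Fin d → ZMod l) :
    GI fun U => F (YM.tr z U) := by
  intro γ U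
  show F (YM.tr z (gt γ U)) = _
  rw [tr_gt]
  exact h _ _

section cont

variable {d l : ℕ} [NeZero l]

lemma cont_fi {E : Type*} [Fintype E] [DecidableEq E] (a : Fin n) {F : (E → G) → G}
    (hF : SmG L F) : Continuous fun U => fi L a (F U) := Sm_cont (fiS a hF)

lemma Zf_cont1 (K : (Fin d → ZMod l) → ℝ) (j k : Fin d) (a : Fin n) (z : Fin d → ZMod l) :
    Continuous fun U : Ed d l → G => Zf L K j k a (tr z U) U := by
  have hg : ∀ x i, Continuous fun U : Ed d l → G => gW L a (tr z U) U x i := fun x i =>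
    cont_fi a (((SmG_Pct z x).mul ((SmG_link _).mul (SmG_link _).inv)).mul (SmG_Pct z x).inv)
  unfold Zf
  exact continuous_finsetSum _ fun x _ => continuous_const.mul
    ((((hg _ _).add (hg _ _)).sub (hg _ _)).sub (hg _ _))

lemma Zf_cont2 (K : (Fin d → ZMod l) → ℝ) (j k : Fin d) (a : Fin n) (z : Fin d → ZMod l) :
    Continuous fun U : Ed d l → G => Zf L K j k a U (tr z U) := by
  have hg : ∀ x i, Continuous fun U : Ed d l → G => gW L a U (tr z U) x i := fun x i =>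
    cont_fi a (((SmG_Pc x).mul ((SmG_link _).mul (SmG_link _).inv)).mul (SmG_Pc x).inv)
  unfold Zf
  exact continuous_finsetSum _ fun x _ => continuous_const.mul
    ((((hg _ _).add (hg _ _)).sub (hg _ _)).sub (hg _ _))

end cont

variable {d m : ℕ} [NeZero m] {τ : Fin d}
variable {K : (Fin d → ZMod (2 * m)) → ℝ} {M : ℕ} {j k : Fin d}

theorem layer_bound (hm : 2 ≤ m) (hK : KS τ M K) (hM : 2 ≤ M) (hj : j ≠ τ) (hk : k ≠ τ)
    (hjk : j ≠ k) {β : ℝ} (hβ : 0 < β) (σ : ℝ) :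
    Zt μ L β (fun U => ((Fo L σ K j k).1 (tr (eT τ) U) - (Fo L σ K j k).1 U) ^ 2) ≤
      σ ^ 2 * n * (2 / β * E2 K j k * Zt μ L β (fun _ : Ed d (2 * m) → G => 1) +
        6 * ((∑ x, |K x|) * (36 * (d * M + 1) ^ 2)) ^ 2 *
          Zt μ L β (fun U : Ed d (2 * m) → G => sB L M U ^ 4)) := by
  obtain ⟨κ, hκ⟩ : ∃ κ : ℝ, κ = (∑ x, |K x|) * (36 * ((d : ℝ) * M + 1) ^ 2) := ⟨_, rfl⟩
  rw [← hκ]
  obtain ⟨c, hc, hred⟩ := Zt_red μ (L := L) hm τ β
  have hFc : Continuous (Fo L σ K j k).1 := Sm_cont _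
  have hc1 : Continuous fun U : Ed d (2 * m) → G =>
      ((Fo L σ K j k).1 (tr (eT τ) U) - (Fo L σ K j k).1 U) ^ 2 :=
    ((hFc.comp (tr_cont _)).sub hFc).pow 2
  have hg1 : GI fun U : Ed d (2 * m) → G =>
      ((Fo L σ K j k).1 (tr (eT τ) U) - (Fo L σ K j k).1 U) ^ 2 := by
    intro γ U
    show ((Fo L σ K j k).1 (tr (eT τ) (gt γ U)) - (Fo L σ K j k).1 (gt γ U)) ^ 2 = _
    have h1 : (Fo L σ K j k).1 (tr (eT τ) (gt γ U)) = (Fo L σ K j k).1 (tr (eT τ) U) :=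
      (Fo_GI σ K j k).tr (eT τ) γ U
    rw [h1, Fo_GI σ K j k γ U]
  have hc4 : Continuous fun U : Ed d (2 * m) → G => sB L M U ^ 4 := (sB_cont M).pow 4
  have hg4 : GI fun U : Ed d (2 * m) → G => sB L M U ^ 4 := fun γ U => by
    show sB L M (gt γ U) ^ 4 = _
    rw [sB_gt M γ U]
  have hgo : GI fun _ : Ed d (2 * m) → G => (1 : ℝ) := fun γ U => rfl
  rw [hred _ hc1 hg1, hred _ hc4 hg4, hred _ continuous_const hgo]
  obtain ⟨w, hw⟩ : ∃ w, w = (wR L β m τ : Sm L (Ed d (2 * m))).1 := ⟨_, rfl⟩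
  have hwc : Continuous w := by rw [hw]; exact Sm_cont _
  have hw0 : ∀ U, 0 ≤ w U := by rw [hw]; exact wR_nonneg _ _
  obtain ⟨Zz, hZz⟩ : ∃ Zz : Fin n → (Ed d (2 * m) → G) → ℝ, Zz = fun a U =>
    Zf L K j k a (tr (eT τ) U) U * -(Zf L K j k a U (tr (eT τ) U)) := ⟨_, rfl⟩
  have hZc : ∀ a, Continuous (Zz a) := fun a => by
    rw [hZz]
    exact (Zf_cont1 K j k a _).mul (Zf_cont2 K j k a _).neg
  have hpt : ∀ U : Ed d (2 * m) → G,
      ((Fo L σ K j k).1 (tr (eT τ) (fix τ U)) - (Fo L σ K j k).1 (fix τ U)) ^ 2 ≤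
        ∑ a, (σ ^ 2 * (2 * Zz a U) + σ ^ 2 * (6 * κ ^ 2 * sB L M (fix τ U) ^ 4)) := by
    intro U
    rw [Fo_apply, Fo_apply]
    have h1 := sqrt_lip (fun a => σ * Ph L K j k a (tr (eT τ) (fix τ U)))
      (fun a => σ * Ph L K j k a (fix τ U))
    simp only [mul_pow, ← Finset.mul_sum] at h1
    refine h1.trans ?_
    refine Finset.sum_le_sum fun a _ => ?_
    obtain ⟨V, hV⟩ : ∃ V, V = fix τ U := ⟨_, rfl⟩
    have hV1 : ∀ x : Fin d → ZMod (2 * m), x τ = 0 → V (x, τ) = 1 := fun x hx => by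
      rw [hV]; exact fix_i0' _ _ (Or.inl hx)
    have hSA1 : SA τ V U := fun x i hx hi => by rw [hV]; exact fix_ne _ _ hi
    have hSA2 : SA τ (tr (eT τ) V) (tr (eT τ) U) := fun x i hx hi => by
      rw [hV]; exact fix_ne _ _ hi
    have hR := layer_R (L := L) hK hV1 hM hj hk hjk a
    have hZ1 : Zz a U = Zf L K j k a (tr (eT τ) V) V * -(Zf L K j k a V (tr (eT τ) V)) := by
      rw [hZz, Zf_SA hK hSA1 hSA2 hj hk, Zf_SA hK hSA2 hSA1 hj hk]
    rw [← hV, hZ1]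
    obtain ⟨P, hP⟩ : ∃ P, P = Ph L K j k a (tr (eT τ) V) - Ph L K j k a V := ⟨_, rfl⟩
    obtain ⟨Z1, hZ1'⟩ : ∃ Z1, Z1 = Zf L K j k a (tr (eT τ) V) V := ⟨_, rfl⟩
    obtain ⟨Z2, hZ2'⟩ : ∃ Z2, Z2 = Zf L K j k a V (tr (eT τ) V) := ⟨_, rfl⟩
    obtain ⟨q, hq⟩ : ∃ q, q = sB L M V := ⟨_, rfl⟩
    rw [← hZ1', ← hZ2', ← hq] at hR
    have hR1 : |Z1 - P| ≤ κ * q ^ 2 := by
      have := hR.1
      rw [hP, hκ]
      refine le_trans (le_of_eq ?_) (this.trans (le_of_eq ?_))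
      · congr 1; ring
      · ring
    have hR2 : |Z2 + P| ≤ κ * q ^ 2 := by
      have := hR.2
      rw [hP, hκ]
      refine le_trans (le_of_eq ?_) (this.trans (le_of_eq ?_))
      · congr 1; ring
      · ring
    have h2 : (σ * Ph L K j k a (tr (eT τ) V) - σ * Ph L K j k a V) ^ 2 = σ ^ 2 * P ^ 2 := by
      rw [hP]; ring
    rw [h2, ← hZ1', ← hZ2', ← hq, ← mul_add]
    refine mul_le_mul_of_nonneg_left ?_ (sq_nonneg σ)
    have hR1s : (Z1 - P) ^ 2 ≤ (κ * q ^ 2) ^ 2 := by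
      rw [← sq_abs]; exact pow_le_pow_left₀ (abs_nonneg _) hR1 2
    have hR2s : (Z2 + P) ^ 2 ≤ (κ * q ^ 2) ^ 2 := by
      rw [← sq_abs]; exact pow_le_pow_left₀ (abs_nonneg _) hR2 2
    nlinarith [sq_nonneg ((Z1 - P) + (Z2 + P) + P), sq_nonneg ((Z1 - P) - (Z2 + P))]
  have hm1 := (TR hm τ).Ew_mono μ (L := L) (β := β) (w := w)
    (F := fun U => ((Fo L σ K j k).1 (tr (eT τ) (fix τ U)) - (Fo L σ K j k).1 (fix τ U)) ^ 2)
    (H := fun U => ∑ a, (σ ^ 2 * (2 * Zz a U) + σ ^ 2 * (6 * κ ^ 2 * sB L M (fix τ U) ^ 4)))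
    hwc hw0 (hc1.comp fix_cont)
    (continuous_finsetSum _ fun a _ => (continuous_const.mul (continuous_const.mul (hZc a))).add
      (continuous_const.mul (continuous_const.mul (hc4.comp fix_cont)))) hpt
  have hes : (TR hm τ).Ew μ L β w (fun U => ∑ a, (σ ^ 2 * (2 * Zz a U) +
      σ ^ 2 * (6 * κ ^ 2 * sB L M (fix τ U) ^ 4))) = ∑ a, (TR hm τ).Ew μ L β w
      (fun U => σ ^ 2 * (2 * Zz a U) + σ ^ 2 * (6 * κ ^ 2 * sB L M (fix τ U) ^ 4)) :=
    (TR hm τ).Ew_sum μ (L := L) (F := fun a U => σ ^ 2 * (2 * Zz a U) +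
      σ ^ 2 * (6 * κ ^ 2 * sB L M (fix τ U) ^ 4)) hwc _ (fun a _ =>
    (continuous_const.mul (continuous_const.mul (hZc a))).add
      (continuous_const.mul (continuous_const.mul (hc4.comp fix_cont))))
  rw [hes] at hm1
  have hterm : ∀ a, (TR hm τ).Ew μ L β w
      (fun U => σ ^ 2 * (2 * Zz a U) + σ ^ 2 * (6 * κ ^ 2 * sB L M (fix τ U) ^ 4)) ≤
      σ ^ 2 * (2 / β * E2 K j k * (TR hm τ).Ew μ L β w (fun _ => 1) +
        6 * κ ^ 2 * (TR hm τ).Ew μ L β w (fun U => sB L M (fix τ U) ^ 4)) := by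
    intro a
    have h1 := (TR hm τ).Ew_add μ (L := L) (β := β) (w := w) hwc
      (F := fun U => σ ^ 2 * (2 * Zz a U))
      (H := fun U => σ ^ 2 * (6 * κ ^ 2 * sB L M (fix τ U) ^ 4))
      (continuous_const.mul (continuous_const.mul (hZc a)))
      (continuous_const.mul (continuous_const.mul (hc4.comp fix_cont)))
    rw [h1, (TR hm τ).Ew_smul μ, (TR hm τ).Ew_smul μ, (TR hm τ).Ew_smul μ, (TR hm τ).Ew_smul μ,
      ← mul_add]
    refine mul_le_mul_of_nonneg_left ?_ (sq_nonneg σ)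
    refine add_le_add ?_ le_rfl
    have h2 := star_Zf μ (L := L) hm hK hj hk hjk a hβ
    rw [← hw] at h2
    have h3 : (TR hm τ).Ew μ L β w (fun U => Zf L K j k a (tr (eT τ) U) U *
      -(Zf L K j k a U (tr (eT τ) U))) = (TR hm τ).Ew μ L β w (Zz a) := by rw [hZz]
    rw [h3] at h2
    have h4 : (TR hm τ).Ew μ L β w (Zz a) ≤
        E2 K j k * (TR hm τ).Ew μ L β w (fun _ => 1) / β := by
      rw [le_div_iff₀ hβ]; linarith
    calc 2 * (TR hm τ).Ew μ L β w (Zz a) ≤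
        2 * (E2 K j k * (TR hm τ).Ew μ L β w (fun _ => 1) / β) := by linarith
      _ = _ := by ring
  have hfin := hm1.trans (Finset.sum_le_sum fun a _ => hterm a)
  rw [Finset.sum_const, Finset.card_univ, Fintype.card_fin, nsmul_eq_mul] at hfin
  rw [← hw]
  calc c * (TR hm τ).Ew μ L β w (fun U => ((Fo L σ K j k).1 (tr (eT τ) (fix τ U)) -
        (Fo L σ K j k).1 (fix τ U)) ^ 2) ≤ _ := mul_le_mul_of_nonneg_left hfin hc.le
    _ = _ := by ring

end

end Pool.Agent.W793.YM
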