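import Mathlib
import Pool.Agent.W793.YM.DBound
import Pool.Agent.W793.YM.LBound

/-!
# Sums of tent functions over the periodic lattice
-/

open Pool.Agent.H906R3.YM

namespace Pool.Agent.W793.YM

set_option linter.unusedSectionVars false
set_option linter.unusedVariables false

noncomputable section

/-! ### tents -/

/-- the tent -/
def tn (R k : ℕ) : ℝ := ((min k (2 * R - k) : ℕ) : ℝ)

/-- the half tent -/
def kn (R k : ℕ) : ℝ := ((min k (R - k) : ℕ) : ℝ)

lemma tn_nonneg (R k : ℕ) : 0 ≤ tn R k := Nat.cast_nonneg _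

lemma kn_nonneg (R k : ℕ) : 0 ≤ kn R k := Nat.cast_nonneg _

lemma tn_le (R k : ℕ) : tn R k ≤ R := by
  unfold tn
  exact_mod_cast (show min k (2 * R - k) ≤ R by omega)

lemma kn_le (R k : ℕ) : kn R k ≤ R := by
  unfold kn
  exact_mod_cast (show min k (R - k) ≤ R by omega)

lemma tn_ne {R k : ℕ} (h : tn R k ≠ 0) : 1 ≤ k ∧ k < 2 * R := by
  unfold tn at h
  have : min k (2 * R - k) ≠ 0 := fun hh => h (by rw [hh]; simp)
  omega

lemma kn_ne {R k : ℕ} (h : kn R k ≠ 0) : 1 ≤ k ∧ k < R := by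
  unfold kn at h
  have : min k (R - k) ≠ 0 := fun hh => h (by rw [hh]; simp)
  omega

lemma abs_cast_sub {a b : ℕ} (h1 : a ≤ b + 1) (h2 : b ≤ a + 1) : |(a : ℝ) - b| ≤ 1 := by
  rw [abs_le]
  have e1 : (a : ℝ) ≤ b + 1 := by exact_mod_cast h1
  have e2 : (b : ℝ) ≤ a + 1 := by exact_mod_cast h2
  constructor <;> linarith

lemma tn_diff (R k : ℕ) : |tn R k - tn R (k + 1)| ≤ 1 := by
  unfold tn
  exact abs_cast_sub (by omega) (by omega)

lemma kn_diff (R k : ℕ) : |kn R k - kn R (k + 1)| ≤ 1 := by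
  unfold kn
  exact abs_cast_sub (by omega) (by omega)

lemma tn_up {R k : ℕ} (h : k < R) : tn R (k + 1) - tn R k = 1 := by
  unfold tn
  have e1 : min (k + 1) (2 * R - (k + 1)) = k + 1 := by omega
  have e2 : min k (2 * R - k) = k := by omega
  rw [e1, e2]; push_cast; ring

lemma tn_self (R : ℕ) : tn R R = R := by
  unfold tn
  have : min R (2 * R - R) = R := by omega
  rw [this]

variable {d l : ℕ} [NeZero l]

/-! ### counting -/

lemma count_le (P : (Fin d → ZMod l) → Prop) [DecidablePred P] (T : Fin d → ℕ)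
    (h : ∀ x, P x → ∀ i, wv x i < T i) :
    ∑ x, (if P x then (1 : ℝ) else 0) ≤ ∏ i, (T i : ℝ) := by
  rw [Finset.sum_ite, Finset.sum_const_zero, add_zero, Finset.sum_const, nsmul_eq_mul, mul_one]
  have h1 : (Finset.univ.filter P).card ≤ (Fintype.piFinset fun i => Finset.range (T i)).card := by
    refine Finset.card_le_card_of_injOn wv (fun x hx => ?_) (fun x _ y _ hxy => wv_inj hxy)
    rw [Finset.mem_coe, Fintype.mem_piFinset]
    intro i
    rw [Finset.mem_range]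
    exact h x (Finset.mem_filter.1 hx).2 i
  rw [Fintype.card_piFinset] at h1
  simp only [Finset.card_range] at h1
  exact_mod_cast h1

/-! ### products -/

/-- product functions -/
def PF (φ : Fin d → ℕ → ℝ) (x : Fin d → ZMod l) : ℝ := ∏ i, φ i (wv x i)

lemma PF_diff (φ : Fin d → ℕ → ℝ) (b : Fin d → ℝ) (hb : ∀ i u, |φ i u| ≤ b i)
    {x y : Fin d → ZMod l} {k : Fin d} (hxy : ∀ i, i ≠ k → wv x i = wv y i)
    (h1 : |φ k (wv x k) - φ k (wv y k)| ≤ 1) :
    |PF φ x - PF φ y| ≤ ∏ i ∈ Finset.univ.erase k, b i := by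
  unfold PF
  rw [← Finset.mul_prod_erase _ (fun i => φ i (wv x i)) (Finset.mem_univ k),
    ← Finset.mul_prod_erase _ (fun i => φ i (wv y i)) (Finset.mem_univ k)]
  have h2 : ∏ i ∈ Finset.univ.erase k, φ i (wv y i) = ∏ i ∈ Finset.univ.erase k, φ i (wv x i) :=
    Finset.prod_congr rfl fun i hi => by rw [hxy i (Finset.mem_erase.1 hi).1]
  rw [h2, ← sub_mul, abs_mul, Finset.abs_prod]
  have h3 : ∏ i ∈ Finset.univ.erase k, |φ i (wv x i)| ≤ ∏ i ∈ Finset.univ.erase k, b i :=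
    Finset.prod_le_prod (fun i _ => abs_nonneg _) fun i _ => hb i _
  calc |φ k (wv x k) - φ k (wv y k)| * ∏ i ∈ Finset.univ.erase k, |φ i (wv x i)| ≤
      1 * ∏ i ∈ Finset.univ.erase k, |φ i (wv x i)| :=
        mul_le_mul_of_nonneg_right h1 (Finset.prod_nonneg fun i _ => abs_nonneg _)
    _ ≤ _ := by rw [one_mul]; exact h3

lemma PF_le (φ : Fin d → ℕ → ℝ) (b : Fin d → ℝ) (hb : ∀ i u, |φ i u| ≤ b i)
    (x : Fin d → ZMod l) : |PF φ x| ≤ ∏ i, b i := by
  unfold PF
  rw [Finset.abs_prod]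
  exact Finset.prod_le_prod (fun i _ => abs_nonneg _) fun i _ => hb i _

lemma PF_sum (φ : Fin d → ℕ → ℝ) :
    ∑ x : Fin d → ZMod l, PF φ x = ∏ i, ∑ u : ZMod l, φ i u.val := by
  unfold PF wv
  rw [Finset.prod_univ_sum]
  simp only [Fintype.piFinset_univ]

lemma sum_val_ge {g : ℕ → ℝ} (hg : ∀ k, 0 ≤ g k) {S : Finset ℕ} (hS : ∀ k ∈ S, k < l) :
    ∑ k ∈ S, g k ≤ ∑ u : ZMod l, g u.val := by
  have hinj : Set.InjOn (fun k : ℕ => (k : ZMod l)) S := by
    intro a ha b hb hab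
    have h1 := congrArg ZMod.val hab
    simp only [] at h1
    rwa [ZMod.val_natCast_of_lt (hS a ha), ZMod.val_natCast_of_lt (hS b hb)] at h1
  have h2 : ∑ k ∈ S, g k = ∑ u ∈ S.image (fun k : ℕ => (k : ZMod l)), g u.val := by
    rw [Finset.sum_image hinj]
    exact Finset.sum_congr rfl fun k hk => by rw [ZMod.val_natCast_of_lt (hS k hk)]
  rw [h2]
  exact Finset.sum_le_sum_of_subset_of_nonneg (Finset.subset_univ _) fun u _ _ => hg _

/-! ### the functions -/

/-- factors of the coefficients of the vector field -/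
def phA (R : ℕ) (d : ℕ) : Fin d → ℕ → ℝ := fun _ u => tn R u

/-- factors of the weight of the flux at the time `T` -/
def phK (R : ℕ) (ν τ : Fin d) (T : ℕ) : Fin d → ℕ → ℝ :=
  fun i u => if i = τ then (if u = T then 1 else 0) else if i = ν then kn R u else tn R u

/-- coefficients of the vector field -/
def Aq (R : ℕ) (x : Fin d → ZMod l) : ℝ := PF (phA R d) x

/-- weight of the flux -/
def Kq (R : ℕ) (ν τ : Fin d) (T : ℕ) (x : Fin d → ZMod l) : ℝ := PF (phK R ν τ T) x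

lemma phA_le (R : ℕ) (i : Fin d) (u : ℕ) : |phA R d i u| ≤ R := by
  unfold phA
  rw [abs_of_nonneg (tn_nonneg _ _)]; exact tn_le _ _

lemma phK_nonneg (R : ℕ) (ν τ : Fin d) (T : ℕ) (i : Fin d) (u : ℕ) : 0 ≤ phK R ν τ T i u := by
  unfold phK
  split_ifs
  · norm_num
  · norm_num
  · exact kn_nonneg _ _
  · exact tn_nonneg _ _

lemma phK_le (R : ℕ) (ν τ : Fin d) (T : ℕ) (i : Fin d) (u : ℕ) :
    |phK R ν τ T i u| ≤ if i = τ then 1 else (R : ℝ) := by
  rw [abs_of_nonneg (phK_nonneg _ _ _ _ _ _)]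
  unfold phK
  split_ifs
  · norm_num
  · norm_num
  · exact kn_le _ _
  · exact tn_le _ _

lemma Aq_ne {R : ℕ} {x : Fin d → ZMod l} (h : Aq R x ≠ 0) (i : Fin d) :
    1 ≤ wv x i ∧ wv x i < 2 * R := by
  unfold Aq PF at h
  rw [Finset.prod_ne_zero_iff] at h
  exact tn_ne (h i (Finset.mem_univ i))

lemma Kq_ne {R : ℕ} {ν τ : Fin d} {T : ℕ} {x : Fin d → ZMod l} (h : Kq R ν τ T x ≠ 0)
    (i : Fin d) : wv x i < (if i = τ then T + 1 else 2 * R) ∧ (i = τ → wv x i = T) := by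
  unfold Kq PF at h
  rw [Finset.prod_ne_zero_iff] at h
  have h1 := h i (Finset.mem_univ i)
  unfold phK at h1
  by_cases hi : i = τ
  · rw [if_pos hi] at h1
    have h2 : wv x i = T := by
      by_contra hc
      rw [if_neg hc] at h1; exact h1 rfl
    rw [if_pos hi]
    exact ⟨by omega, fun _ => h2⟩
  · rw [if_neg hi] at h1 ⊢
    refine ⟨?_, fun h => absurd h hi⟩
    by_cases hν : i = ν
    · rw [if_pos hν] at h1
      have := kn_ne h1; omega
    · rw [if_neg hν] at h1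
      have := tn_ne h1; omega

lemma Aq_le (R : ℕ) (x : Fin d → ZMod l) : |Aq R x| ≤ (R : ℝ) ^ d := by
  unfold Aq
  refine (PF_le _ (fun _ => (R : ℝ)) (phA_le R) x).trans (le_of_eq ?_)
  simp

lemma prod_b {τ : Fin d} (R : ℝ) : ∏ i, (if i = τ then 1 else R) = R ^ (d - 1) := by
  rw [← Finset.mul_prod_erase _ _ (Finset.mem_univ τ), if_pos rfl, one_mul]
  have h1 : ∏ i ∈ Finset.univ.erase τ, (if i = τ then 1 else R) =
      ∏ _i ∈ Finset.univ.erase τ, R :=
    Finset.prod_congr rfl fun i hi => by rw [if_neg (Finset.mem_erase.1 hi).1]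
  rw [h1, Finset.prod_const, Finset.card_erase_of_mem (Finset.mem_univ τ), Finset.card_univ,
    Fintype.card_fin]

lemma prod_b' {τ k : Fin d} (hk : k ≠ τ) (R : ℝ) :
    ∏ i ∈ Finset.univ.erase k, (if i = τ then 1 else R) = R ^ (d - 2) := by
  have hτ : τ ∈ (Finset.univ.erase k : Finset (Fin d)) :=
    Finset.mem_erase.2 ⟨hk.symm, Finset.mem_univ _⟩
  rw [← Finset.mul_prod_erase _ _ hτ, if_pos rfl, one_mul]
  have h1 : ∏ i ∈ (Finset.univ.erase k).erase τ, (if i = τ then 1 else R) =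
      ∏ _i ∈ (Finset.univ.erase k).erase τ, R :=
    Finset.prod_congr rfl fun i hi => by rw [if_neg (Finset.mem_erase.1 hi).1]
  rw [h1, Finset.prod_const, Finset.card_erase_of_mem hτ,
    Finset.card_erase_of_mem (Finset.mem_univ k), Finset.card_univ, Fintype.card_fin]
  congr 1

lemma Kq_le (R : ℕ) (ν τ : Fin d) (T : ℕ) (x : Fin d → ZMod l) :
    |Kq R ν τ T x| ≤ (R : ℝ) ^ (d - 1) := by
  unfold Kq
  refine (PF_le _ _ (phK_le R ν τ T) x).trans (le_of_eq (prod_b _))

lemma Kq_nonneg (R : ℕ) (ν τ : Fin d) (T : ℕ) (x : Fin d → ZMod l) : 0 ≤ Kq R ν τ T x := by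
  unfold Kq PF
  exact Finset.prod_nonneg fun i _ => phK_nonneg _ _ _ _ _ _

lemma AS_Aq {R : ℕ} {ι i0 : Fin d} (h : i0 < ι) {M : ℕ} (hM : 2 * R ≤ M) (hl : M < l) :
    AS (l := l) ι i0 M (Aq R) :=
  ⟨h, fun x hx i => (Aq_ne hx i).1, fun x hx i => lt_of_lt_of_le (Aq_ne hx i).2 hM, hl⟩

lemma KS_Kq {R : ℕ} {ν τ : Fin d} {M : ℕ} (hM : 2 * R < M) (hM2 : 2 ≤ M) (hl : M < l) :
    KS (l := l) τ M (Kq R ν τ 0) := by
  refine ⟨fun x hx => ?_, fun x hx i => ?_, hl⟩
  · exact wv_zero.1 ((Kq_ne hx τ).2 rfl)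
  · have h := (Kq_ne hx i).1
    split_ifs at h <;> omega

lemma nS_Aq (R : ℕ) : nS (Aq (d := d) (l := l) R) ≤ (2 * (R : ℝ)) ^ d := by
  unfold nS
  have h := count_le (l := l) (fun x : Fin d → ZMod l => Aq R x ≠ 0) (fun _ => 2 * R)
    (fun x hx i => (Aq_ne hx i).2)
  refine h.trans (le_of_eq ?_)
  simp

lemma sum_Kq (R : ℕ) (ν τ : Fin d) (T : ℕ) :
    ∑ x : Fin d → ZMod l, |Kq R ν τ T x| ≤ (R : ℝ) ^ (d - 1) * ((T + 1) * (2 * (R : ℝ)) ^ (d - 1)) := by
  have h := count_le (l := l) (fun x : Fin d → ZMod l => Kq R ν τ T x ≠ 0)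
    (fun i => if i = τ then T + 1 else 2 * R) (fun x hx i => (Kq_ne hx i).1)
  have h1 : ∏ i : Fin d, ((if i = τ then T + 1 else 2 * R : ℕ) : ℝ) =
      (T + 1) * (2 * (R : ℝ)) ^ (d - 1) := by
    rw [← Finset.mul_prod_erase _ _ (Finset.mem_univ τ), if_pos rfl]
    have h2 : ∏ i ∈ Finset.univ.erase τ, ((if i = τ then T + 1 else 2 * R : ℕ) : ℝ) =
        ∏ _i ∈ Finset.univ.erase τ, (2 * (R : ℝ)) :=
      Finset.prod_congr rfl fun i hi => by
        rw [if_neg (Finset.mem_erase.1 hi).1]; push_cast; ring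
    rw [h2, Finset.prod_const, Finset.card_erase_of_mem (Finset.mem_univ τ), Finset.card_univ,
      Fintype.card_fin]
    push_cast; ring
  rw [h1] at h
  calc ∑ x : Fin d → ZMod l, |Kq R ν τ T x| ≤
      ∑ x : Fin d → ZMod l, (R : ℝ) ^ (d - 1) * (if Kq R ν τ T x ≠ 0 then 1 else 0) := by
        refine Finset.sum_le_sum fun x _ => ?_
        by_cases hx : Kq R ν τ T x ≠ 0
        · rw [if_pos hx, mul_one]; exact Kq_le _ _ _ _ _
        · rw [if_neg hx, not_not.1 hx]; simp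
    _ = (R : ℝ) ^ (d - 1) * ∑ x : Fin d → ZMod l, (if Kq R ν τ T x ≠ 0 then (1 : ℝ) else 0) := by
        rw [Finset.mul_sum]
    _ ≤ _ := mul_le_mul_of_nonneg_left h (by positivity)

lemma sum_ind (A : (Fin d → ZMod l) → ℝ) :
    ∑ x, ∑ k : Fin d, ((if A x ≠ 0 then (1 : ℝ) else 0) + (if A (x + eT k) ≠ 0 then 1 else 0)) =
      2 * d * nS A := by
  simp only [Finset.sum_add_distrib]
  have h8 : ∑ x, ∑ _k : Fin d, (if A x ≠ 0 then (1 : ℝ) else 0) = d * nS A := by
    unfold nS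
    rw [Finset.mul_sum]
    refine Finset.sum_congr rfl fun x _ => ?_
    rw [Finset.sum_const, Finset.card_univ, Fintype.card_fin, nsmul_eq_mul]
  have h9 : ∑ x, ∑ k : Fin d, (if A (x + eT k) ≠ 0 then (1 : ℝ) else 0) = d * nS A := by
    rw [Finset.sum_comm]
    have h10 : ∀ k : Fin d, ∑ x, (if A (x + eT k) ≠ 0 then (1 : ℝ) else 0) = nS A := fun k =>
      Equiv.sum_comp (Equiv.addRight (eT k : Fin d → ZMod l)) fun x => if A x ≠ 0 then (1 : ℝ) else 0
    rw [Finset.sum_congr rfl fun k _ => h10 k, Finset.sum_const, Finset.card_univ,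
      Fintype.card_fin, nsmul_eq_mul]
  rw [h8, h9]; ring

lemma EA_Aq {R : ℕ} (ι : Fin d) (hl : 2 * R < l) :
    EA (Aq (l := l) R) ι ≤ 2 * d * (2 * (R : ℝ)) ^ d * ((R : ℝ) ^ (d - 1)) ^ 2 := by
  unfold EA
  have hterm : ∀ (x : Fin d → ZMod l) (k : Fin d),
      (if k ≠ ι then (Aq R x - Aq R (x + eT k)) ^ 2 else 0) ≤
      ((if Aq R x ≠ 0 then (1 : ℝ) else 0) + (if Aq R (x + eT k) ≠ 0 then 1 else 0)) *
        ((R : ℝ) ^ (d - 1)) ^ 2 := by
    intro x k
    have hnn : (0 : ℝ) ≤ ((if Aq R x ≠ 0 then (1 : ℝ) else 0) +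
        (if Aq R (x + eT k) ≠ 0 then 1 else 0)) := by
      split_ifs <;> norm_num
    by_cases hk : k ≠ ι
    · rw [if_pos hk]
      by_cases h0 : Aq R x ≠ 0 ∨ Aq R (x + eT k) ≠ 0
      · have hw : wv x k + 1 < l := by
          rcases h0 with h0 | h0
          · have := (Aq_ne h0 k).2; omega
          · exact wv_pred (Aq_ne h0 k).1
        have h1 : |Aq R x - Aq R (x + eT k)| ≤ (R : ℝ) ^ (d - 1) := by
          unfold Aq
          refine (PF_diff (phA R d) (fun _ => (R : ℝ)) (phA_le R) (k := k) (fun i hi => ?_)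
            ?_).trans (le_of_eq ?_)
          · rw [wv_add_ne hi]
          · rw [wv_add hw]
            simp only [Pi.add_apply, es_same]
            exact tn_diff R _
          · rw [Finset.prod_const, Finset.card_erase_of_mem (Finset.mem_univ k), Finset.card_univ,
              Fintype.card_fin]
        have h2 : (Aq R x - Aq R (x + eT k)) ^ 2 ≤ ((R : ℝ) ^ (d - 1)) ^ 2 := by
          rw [← sq_abs]
          exact pow_le_pow_left₀ (abs_nonneg _) h1 2
        have h7 : (1 : ℝ) ≤ (if Aq R x ≠ 0 then 1 else 0) +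
            (if Aq R (x + eT k) ≠ 0 then 1 else 0) := by
          rcases h0 with h0 | h0
          · rw [if_pos h0]
            split_ifs <;> norm_num
          · rw [if_pos h0]
            split_ifs <;> norm_num
        have h3 : 0 ≤ ((R : ℝ) ^ (d - 1)) ^ 2 := by positivity
        nlinarith
      · push Not at h0
        rw [h0.1, h0.2]; simp
    · rw [if_neg hk]
      exact mul_nonneg hnn (by positivity)
  refine (Finset.sum_le_sum fun x _ => Finset.sum_le_sum fun k _ => hterm x k).trans ?_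
  simp only [← Finset.sum_mul]
  rw [sum_ind]
  have h1 := nS_Aq (d := d) (l := l) R
  have h2 : 2 * (d : ℝ) * nS (Aq (d := d) (l := l) R) ≤ 2 * d * (2 * (R : ℝ)) ^ d :=
    mul_le_mul_of_nonneg_left h1 (by positivity)
  exact mul_le_mul_of_nonneg_right h2 (by positivity)

lemma Kq_dir {R : ℕ} {ν τ k : Fin d} (hk : k ≠ τ) (hl : 2 * R < l) :
    ∑ x : Fin d → ZMod l, (Kq R ν τ 0 x - Kq R ν τ 0 (x + eT k)) ^ 2 ≤
      2 * (2 * (R : ℝ)) ^ (d - 1) * ((R : ℝ) ^ (d - 2)) ^ 2 := by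
  have hterm : ∀ x : Fin d → ZMod l,
      (Kq R ν τ 0 x - Kq R ν τ 0 (x + eT k)) ^ 2 ≤
      ((if Kq R ν τ 0 x ≠ 0 then (1 : ℝ) else 0) +
        (if Kq R ν τ 0 (x + eT k) ≠ 0 then 1 else 0)) * ((R : ℝ) ^ (d - 2)) ^ 2 := by
    intro x
    by_cases h0 : Kq R ν τ 0 x ≠ 0 ∨ Kq R ν τ 0 (x + eT k) ≠ 0
    · have hne1 : ∀ y : Fin d → ZMod l, Kq R ν τ 0 y ≠ 0 → 1 ≤ wv y k ∧ wv y k < 2 * R := by
        intro y hy
        unfold Kq PF at hy
        rw [Finset.prod_ne_zero_iff] at hy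
        have h1 := hy k (Finset.mem_univ k)
        unfold phK at h1
        rw [if_neg hk] at h1
        by_cases hν : k = ν
        · rw [if_pos hν] at h1
          have := kn_ne h1; omega
        · rw [if_neg hν] at h1
          exact tn_ne h1
      have hw : wv x k + 1 < l := by
        rcases h0 with h0 | h0
        · have := (hne1 x h0).2; omega
        · exact wv_pred (hne1 _ h0).1
      have h1 : |Kq R ν τ 0 x - Kq R ν τ 0 (x + eT k)| ≤ (R : ℝ) ^ (d - 2) := by
        unfold Kq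
        refine (PF_diff (phK R ν τ 0) _ (phK_le R ν τ 0) (k := k) (fun i hi => ?_)
          ?_).trans (le_of_eq (prod_b' hk _))
        · rw [wv_add_ne hi]
        · rw [wv_add hw]
          simp only [Pi.add_apply, es_same]
          unfold phK
          rw [if_neg hk, if_neg hk]
          by_cases hν : k = ν
          · rw [if_pos hν, if_pos hν]; exact kn_diff R _
          · rw [if_neg hν, if_neg hν]; exact tn_diff R _
      have h2 : (Kq R ν τ 0 x - Kq R ν τ 0 (x + eT k)) ^ 2 ≤ ((R : ℝ) ^ (d - 2)) ^ 2 := by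
        rw [← sq_abs]
        exact pow_le_pow_left₀ (abs_nonneg _) h1 2
      have h7 : (1 : ℝ) ≤ (if Kq R ν τ 0 x ≠ 0 then 1 else 0) +
          (if Kq R ν τ 0 (x + eT k) ≠ 0 then 1 else 0) := by
        rcases h0 with h0 | h0
        · rw [if_pos h0]
          split_ifs <;> norm_num
        · rw [if_pos h0]
          split_ifs <;> norm_num
      have h3 : 0 ≤ ((R : ℝ) ^ (d - 2)) ^ 2 := by positivity
      nlinarith
    · push Not at h0
      rw [h0.1, h0.2]; simp
  refine (Finset.sum_le_sum fun x _ => hterm x).trans ?_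
  rw [← Finset.sum_mul]
  refine mul_le_mul_of_nonneg_right ?_ (by positivity)
  rw [Finset.sum_add_distrib]
  have h10 : ∑ x : Fin d → ZMod l, (if Kq R ν τ 0 (x + eT k) ≠ 0 then (1 : ℝ) else 0) =
      ∑ x : Fin d → ZMod l, (if Kq R ν τ 0 x ≠ 0 then (1 : ℝ) else 0) :=
    Equiv.sum_comp (Equiv.addRight (eT k : Fin d → ZMod l))
      fun x => if Kq R ν τ 0 x ≠ 0 then (1 : ℝ) else 0
  rw [h10]
  have h := count_le (l := l) (fun x : Fin d → ZMod l => Kq R ν τ 0 x ≠ 0)
    (fun i => if i = τ then 0 + 1 else 2 * R) (fun x hx i => (Kq_ne hx i).1)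
  have h1 : ∏ i : Fin d, ((if i = τ then 0 + 1 else 2 * R : ℕ) : ℝ) = (2 * (R : ℝ)) ^ (d - 1) := by
    rw [← prod_b (τ := τ) (2 * (R : ℝ))]
    refine Finset.prod_congr rfl fun i _ => ?_
    split_ifs <;> push_cast <;> ring
  rw [h1] at h
  linarith

lemma E2_Kq {R : ℕ} {ν τ ι : Fin d} (hν : ν ≠ τ) (hι : ι ≠ τ) (hl : 2 * R < l) :
    E2 (Kq (l := l) R ν τ 0) ι ν ≤
      4 * (2 * (R : ℝ)) ^ (d - 1) * ((R : ℝ) ^ (d - 2)) ^ 2 := by
  unfold E2
  rw [Finset.sum_add_distrib]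
  have h1 : ∀ k : Fin d, ∑ x : Fin d → ZMod l, (Kq R ν τ 0 x - Kq R ν τ 0 (x - eT k)) ^ 2 =
      ∑ x : Fin d → ZMod l, (Kq R ν τ 0 x - Kq R ν τ 0 (x + eT k)) ^ 2 := by
    intro k
    rw [← Equiv.sum_comp (Equiv.addRight (eT k : Fin d → ZMod l))]
    refine Finset.sum_congr rfl fun x _ => ?_
    have h2 : Equiv.addRight (eT k : Fin d → ZMod l) x = x + eT k := rfl
    rw [h2, add_sub_cancel_right]
    ring
  have h2 : ∑ x : Fin d → ZMod l, (Kq R ν τ 0 (x - eT ι) - Kq R ν τ 0 x) ^ 2 =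
      ∑ x : Fin d → ZMod l, (Kq R ν τ 0 x - Kq R ν τ 0 (x - eT ι)) ^ 2 :=
    Finset.sum_congr rfl fun x _ => by ring
  rw [h2, h1, h1]
  have e1 := Kq_dir (l := l) (R := R) (ν := ν) hν hl
  have e2 := Kq_dir (l := l) (R := R) (ν := ν) hι hl
  linarith

/-- factors of the pairing of the flux and the vector field -/
def phL (R : ℕ) (ν τ : Fin d) : Fin d → ℕ → ℝ :=
  fun i u => if i = τ then (if u = R then (R : ℝ) else 0) else
    if i = ν then kn R u * (tn R (u + 1) - tn R u) else tn R u ^ 2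

lemma phL_nonneg (R : ℕ) (ν τ : Fin d) (i : Fin d) (u : ℕ) : 0 ≤ phL R ν τ i u := by
  unfold phL
  split_ifs
  · positivity
  · norm_num
  · by_cases h : kn R u = 0
    · rw [h, zero_mul]
    · rw [tn_up (kn_ne h).2, mul_one]; exact kn_nonneg _ _
  · positivity

lemma pair_eq {R : ℕ} {ν τ : Fin d} (hντ : ν ≠ τ) (hl : R < l) (x : Fin d → ZMod l) :
    Kq R ν τ R x * (Aq R (x + eT ν) - Aq R x) = PF (phL R ν τ) x := by
  by_cases h0 : Kq R ν τ R x = 0
  · rw [h0, zero_mul]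
    symm
    unfold Kq PF at h0
    rw [Finset.prod_eq_zero_iff] at h0
    obtain ⟨i, hi, h1⟩ := h0
    unfold PF
    refine Finset.prod_eq_zero hi ?_
    unfold phK at h1
    unfold phL
    by_cases h2 : i = τ
    · rw [if_pos h2] at h1 ⊢
      by_cases h3 : wv x i = R
      · rw [if_pos h3] at h1; exact absurd h1 one_ne_zero
      · rw [if_neg h3]
    · rw [if_neg h2] at h1 ⊢
      by_cases h3 : i = ν
      · rw [if_pos h3] at h1 ⊢; rw [h1, zero_mul]
      · rw [if_neg h3] at h1 ⊢; rw [h1]; norm_num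
  · have hw : wv x ν + 1 < l := by
      have h0' : Kq R ν τ R x ≠ 0 := h0
      unfold Kq PF at h0'
      rw [Finset.prod_ne_zero_iff] at h0'
      have h1 := h0' ν (Finset.mem_univ ν)
      unfold phK at h1
      rw [if_neg hντ, if_pos rfl] at h1
      have := (kn_ne h1).2; omega
    unfold Kq Aq PF
    rw [← Finset.mul_prod_erase _ (fun i => phK R ν τ R i (wv x i)) (Finset.mem_univ ν),
      ← Finset.mul_prod_erase _ (fun i => phA R d i (wv x i)) (Finset.mem_univ ν),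
      ← Finset.mul_prod_erase _ (fun i => phA R d i (wv (x + eT ν) i)) (Finset.mem_univ ν),
      ← Finset.mul_prod_erase _ (fun i => phL R ν τ i (wv x i)) (Finset.mem_univ ν)]
    have e1 : ∏ i ∈ Finset.univ.erase ν, phA R d i (wv (x + eT ν) i) =
        ∏ i ∈ Finset.univ.erase ν, phA R d i (wv x i) :=
      Finset.prod_congr rfl fun i hi => by rw [wv_add_ne (Finset.mem_erase.1 hi).1]
    have e2 : ∏ i ∈ Finset.univ.erase ν, phL R ν τ i (wv x i) =
        (∏ i ∈ Finset.univ.erase ν, phK R ν τ R i (wv x i)) *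
          ∏ i ∈ Finset.univ.erase ν, phA R d i (wv x i) := by
      rw [← Finset.prod_mul_distrib]
      refine Finset.prod_congr rfl fun i hi => ?_
      have hi' := (Finset.mem_erase.1 hi).1
      unfold phL phK phA
      by_cases h2 : i = τ
      · rw [if_pos h2, if_pos h2]
        by_cases h3 : wv x i = R
        · rw [if_pos h3, if_pos h3, h3, tn_self, one_mul]
        · rw [if_neg h3, if_neg h3, zero_mul]
      · rw [if_neg h2, if_neg h2, if_neg hi', if_neg hi', pow_two]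
    have e3 : wv (x + eT ν) ν = wv x ν + 1 := by
      rw [wv_add hw]; simp [es]
    rw [e1, e2, e3]
    have e4 : phL R ν τ ν (wv x ν) = kn R (wv x ν) * (tn R (wv x ν + 1) - tn R (wv x ν)) := by
      unfold phL; rw [if_neg hντ, if_pos rfl]
    have e5 : phK R ν τ R ν (wv x ν) = kn R (wv x ν) := by
      unfold phK; rw [if_neg hντ, if_pos rfl]
    rw [e4, e5]
    unfold phA
    ring

lemma lam_lower {q : ℕ} {ν τ : Fin d} (hντ : ν ≠ τ) (hl : 2 * (4 * q) < l) :
    (q : ℝ) * ((q : ℝ) ^ 2 * ((q : ℝ) ^ 3) ^ (d - 2)) ≤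
      ∑ x : Fin d → ZMod l, Kq (4 * q) ν τ (4 * q) x * (Aq (4 * q) (x + eT ν) - Aq (4 * q) x) := by
  rw [Finset.sum_congr rfl fun x _ => pair_eq hντ (by omega) x, PF_sum]
  have hc : ∏ i : Fin d, (if i = τ then (q : ℝ) else if i = ν then (q : ℝ) ^ 2 else (q : ℝ) ^ 3) =
      (q : ℝ) * ((q : ℝ) ^ 2 * ((q : ℝ) ^ 3) ^ (d - 2)) := by
    have hν : ν ∈ (Finset.univ.erase τ : Finset (Fin d)) :=
      Finset.mem_erase.2 ⟨hντ, Finset.mem_univ _⟩
    rw [← Finset.mul_prod_erase _ _ (Finset.mem_univ τ), if_pos rfl,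
      ← Finset.mul_prod_erase _ _ hν, if_neg hντ, if_pos rfl]
    congr 2
    have h1 : ∏ i ∈ (Finset.univ.erase τ).erase ν,
        (if i = τ then (q : ℝ) else if i = ν then (q : ℝ) ^ 2 else (q : ℝ) ^ 3) =
        ∏ _i ∈ (Finset.univ.erase τ).erase ν, (q : ℝ) ^ 3 :=
      Finset.prod_congr rfl fun i hi => by
        have h2 := Finset.mem_erase.1 hi
        rw [if_neg (Finset.mem_erase.1 h2.2).1, if_neg h2.1]
    rw [h1, Finset.prod_const, Finset.card_erase_of_mem hν,
      Finset.card_erase_of_mem (Finset.mem_univ τ), Finset.card_univ, Fintype.card_fin]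
    congr 1
  rw [← hc]
  refine Finset.prod_le_prod (fun i _ => by split_ifs <;> positivity) fun i _ => ?_
  by_cases h1 : i = τ
  · rw [if_pos h1]
    have h2 := sum_val_ge (l := l) (g := phL (4 * q) ν τ i) (phL_nonneg _ _ _ _)
      (S := {4 * q}) (fun k hk => by rw [Finset.mem_singleton] at hk; omega)
    refine le_trans ?_ h2
    rw [Finset.sum_singleton]
    unfold phL
    rw [if_pos h1, if_pos rfl]
    push_cast
    have : (0 : ℝ) ≤ q := Nat.cast_nonneg q
    linarith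
  · by_cases h2 : i = ν
    · rw [if_neg h1, if_pos h2]
      have h3 := sum_val_ge (l := l) (g := phL (4 * q) ν τ i) (phL_nonneg _ _ _ _)
        (S := Finset.Ico q (2 * q)) (fun k hk => by rw [Finset.mem_Ico] at hk; omega)
      refine le_trans ?_ h3
      have h4 : ∀ k ∈ Finset.Ico q (2 * q), (q : ℝ) ≤ phL (4 * q) ν τ i k := by
        intro k hk
        rw [Finset.mem_Ico] at hk
        unfold phL
        rw [if_neg h1, if_pos h2, tn_up (by omega), mul_one]
        unfold kn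
        exact_mod_cast (show q ≤ min k (4 * q - k) by omega)
      have h5 := Finset.sum_le_sum h4
      rw [Finset.sum_const, Nat.card_Ico, nsmul_eq_mul] at h5
      refine le_trans (le_of_eq ?_) h5
      have : 2 * q - q = q := by omega
      rw [this]; ring
    · rw [if_neg h1, if_neg h2]
      have h3 := sum_val_ge (l := l) (g := phL (4 * q) ν τ i) (phL_nonneg _ _ _ _)
        (S := Finset.Ico q (2 * q)) (fun k hk => by rw [Finset.mem_Ico] at hk; omega)
      refine le_trans ?_ h3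
      have h4 : ∀ k ∈ Finset.Ico q (2 * q), (q : ℝ) ^ 2 ≤ phL (4 * q) ν τ i k := by
        intro k hk
        rw [Finset.mem_Ico] at hk
        unfold phL
        rw [if_neg h1, if_neg h2]
        refine pow_le_pow_left₀ (Nat.cast_nonneg _) ?_ 2
        unfold tn
        exact_mod_cast (show q ≤ min k (2 * (4 * q) - k) by omega)
      have h5 := Finset.sum_le_sum h4
      rw [Finset.sum_const, Nat.card_Ico, nsmul_eq_mul] at h5
      refine le_trans (le_of_eq ?_) h5
      have : 2 * q - q = q := by omega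
      rw [this]; ring

end

end Pool.Agent.W793.YM
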