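import Mathlib
import Pool.Agent.W793.YM.Sums

/-!
# The flux of a later time slice in the comb gauge
-/

open MeasureTheory Matrix
open scoped Matrix.Norms.Frobenius ContDiff
open Pool.Agent.H906R3.YM

namespace Pool.Agent.W793.YM

set_option linter.unusedSectionVars false
set_option linter.unusedVariables false

noncomputable section

/-- the lattice vector of length `R` in direction `τ` -/
def st {d : ℕ} (τ : Fin d) (R : ℕ) : Pt d := fun i => if i = τ then R else 0

lemma fr_shift {d : ℕ} {G : Type*} [Group G] {τ : Fin d} (hτ : ∀ i, i ≤ τ) (R : ℕ)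
    (u : Pt d → Fin d → G) (w : Pt d) (hw : w τ = 0) :
    fr u (w + st τ R) = fr u (st τ R) * fr (fun v k => u (v + st τ R) k) w := by
  induction hn : sz w generalizing w with
  | zero =>
    have h0 : w = 0 := by
      funext i
      by_contra hc
      have := sz_sub (Nat.pos_of_ne_zero hc)
      omega
    have h1 : ¬∃ i, 0 < w i := by
      rintro ⟨i, hi⟩
      rw [h0] at hi
      exact lt_irrefl _ hi
    rw [fr_zero (fun v k => u (v + st τ R) k) h1, mul_one, h0, zero_add]
  | succ q ih =>
    have hwp : ∃ i, 0 < w i := by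
      by_contra hc
      push Not at hc
      have : sz w = 0 := Finset.sum_eq_zero fun i _ => Nat.le_zero.1 (hc i)
      omega
    obtain ⟨j, hj⟩ : ∃ j, j = mi w hwp := ⟨_, rfl⟩
    have hp : 0 < w j := by rw [hj]; exact mi_pos w hwp
    have hsz := sz_sub hp
    have hjτ : j ≠ τ := by rintro rfl; rw [hw] at hp; exact lt_irrefl _ hp
    have h2 : ∃ i, 0 < (w + st τ R) i := ⟨j, by simp only [Pi.add_apply]; omega⟩
    have h3 : mi (w + st τ R) h2 = j := by
      refine mi_eq _ _ (by simp only [Pi.add_apply]; omega) fun i hi => ?_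
      have e1 : w i = 0 := by
        by_contra hc
        have := mi_le w hwp (Nat.pos_of_ne_zero hc)
        rw [← hj] at this
        exact absurd hi (not_lt.2 this)
      have e2 : i ≠ τ := (lt_of_lt_of_le hi (hτ j)).ne
      simp only [Pi.add_apply, e1, zero_add]
      unfold st
      rw [if_neg e2]
    have h4 : w + st τ R - es j = (w - es j) + st τ R := by
      funext i
      by_cases hi : i = j
      · subst hi; simp only [Pi.add_apply, Pi.sub_apply, es_same]; omega
      · simp only [Pi.add_apply, Pi.sub_apply, es_ne hi, Nat.sub_zero]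
    have h5 : fr u (w + st τ R) = fr u ((w - es j) + st τ R) * u ((w - es j) + st τ R) j := by
      rw [fr_succ u h2]
      simp only [h3, h4]
    have h6 : fr (fun v k => u (v + st τ R) k) w =
        fr (fun v k => u (v + st τ R) k) (w - es j) * u ((w - es j) + st τ R) j := by
      rw [fr_succ _ hwp]
      simp only [← hj]
    rw [h5, h6, ih (w - es j) (by
      simp only [Pi.sub_apply, hw, Nat.zero_sub]) (by omega), mul_assoc]

variable {d l : ℕ} [NeZero l]

lemma ct_add' (v w : Pt d) : ct l (v + w) = ct l v + ct l w := by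
  funext i
  simp [ct]

lemma wv_shift {τ : Fin d} {R : ℕ} (hR : R < l) {x : Fin d → ZMod l} (hx : x τ = 0) :
    wv (x + ct l (st τ R)) = wv x + st τ R := by
  have h1 : x + ct l (st τ R) = ct l (wv x + st τ R) := by rw [ct_add', ct_wv]
  rw [h1, wv_ct]
  intro i
  by_cases hi : i = τ
  · subst hi
    simp only [Pi.add_apply, wv_zero.2 hx, zero_add]
    unfold st; rw [if_pos rfl]; exact hR
  · simp only [Pi.add_apply]
    unfold st; rw [if_neg hi, add_zero]; exact wv_lt x i

lemma Kq_shift {τ ν : Fin d} {R : ℕ} (hR : R < l) (x : Fin d → ZMod l) :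
    Kq R ν τ R (x + ct l (st τ R)) = Kq R ν τ 0 x := by
  unfold Kq PF
  refine Finset.prod_congr rfl fun i _ => ?_
  unfold phK
  by_cases hi : i = τ
  · subst hi
    rw [if_pos rfl, if_pos rfl]
    have h1 : (x + ct l (st i R) : Fin d → ZMod l) i = x i + (R : ZMod l) := by
      simp [ct, st]
    have h2 : wv (x + ct l (st i R)) i = R ↔ wv x i = 0 := by
      unfold wv
      rw [h1, ZMod.val_eq_zero]
      constructor
      · intro h
        have h3 := (ZMod.natCast_zmod_val (x i + (R : ZMod l))).symm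
        rw [h] at h3
        simpa using h3
      · intro h
        rw [h, zero_add, ZMod.val_natCast_of_lt hR]
    by_cases h3 : wv x i = 0
    · rw [if_pos (h2.2 h3), if_pos h3]
    · rw [if_neg (fun h => h3 (h2.1 h)), if_neg h3]
  · rw [if_neg hi, if_neg hi]
    have h1 : wv (x + ct l (st τ R)) i = wv x i := by
      unfold wv
      congr 1
      simp [ct, st, hi]
    rw [h1]

variable {G : Type*} [Group G] [TopologicalSpace G] [IsTopologicalGroup G] [CompactSpace G]
  [SecondCountableTopology G] [MeasurableSpace G] [BorelSpace G]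
  {N n : ℕ} {L : LD G N n}

lemma Pc_shift {τ : Fin d} (hτ : ∀ i, i ≤ τ) {R : ℕ} (hR : R < l) (U : Ed d l → G)
    {x : Fin d → ZMod l} (hx : x τ = 0) :
    Pc U (x + ct l (st τ R)) = fr (uu U) (st τ R) * Pc (tr (ct l (st τ R)) U) x := by
  unfold Pc
  rw [wv_shift hR hx, fr_shift hτ R (uu U) (wv x) (wv_zero.2 hx)]
  congr 2
  funext v k
  unfold uu tr
  simp only
  rw [ct_add']

lemma Fo_shift {τ ν ι : Fin d} (hτ : ∀ i, i ≤ τ) {R : ℕ} (hR : R < l) (σ : ℝ)
    (U : Ed d l → G) :
    (Fo L σ (Kq R ν τ R) ι ν).1 U = (Fo L σ (Kq R ν τ 0) ι ν).1 (tr (ct l (st τ R)) U) := by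
  rw [Fo_apply, Fo_apply]
  congr 3
  have h1 : ∀ a, Ph L (Kq R ν τ R) ι ν a U = ∑ x, Kq R ν τ 0 x * fi L a (fr (uu U) (st τ R) *
      (Pc (tr (ct l (st τ R)) U) x * plqT (tr (ct l (st τ R)) U) x ι ν *
        (Pc (tr (ct l (st τ R)) U) x)⁻¹) * (fr (uu U) (st τ R))⁻¹) := by
    intro a
    unfold Ph
    rw [← Equiv.sum_comp (Equiv.addRight (ct l (st τ R) : Fin d → ZMod l))]
    refine Finset.sum_congr rfl fun x _ => ?_
    have h2 : Equiv.addRight (ct l (st τ R) : Fin d → ZMod l) x = x + ct l (st τ R) := rfl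
    rw [h2, Kq_shift hR]
    by_cases hx : Kq R ν τ 0 x = 0
    · rw [hx, zero_mul, zero_mul]
    · have hx0 : x τ = 0 := wv_zero.1 ((Kq_ne hx τ).2 rfl)
      rw [Pc_shift hτ hR U hx0, plqT_tr]
      congr 2
      group
  rw [Finset.sum_congr rfl fun a _ => by rw [h1 a]]
  exact sum_fi_conj _ _ _ _

end

end Pool.Agent.W793.YM
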