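import Mathlib
import Pool.Agent.W793.YM.Der

/-!
# A lower bound for the variance from the Schwinger-Dyson equations
-/

open MeasureTheory Matrix
open scoped Matrix.Norms.Frobenius ContDiff
open Pool.Agent.H906R3.YM

namespace Pool.Agent.W793.YM

set_option linter.unusedSectionVars false
set_option linter.unusedVariables false

noncomputable section

section real

variable {n : ℕ} {p : Fin n → ℝ} {v : Fin n → Fin n → ℝ} {τ Λ ε : ℝ}

lemma pp_bound (hp : ∀ a, |p a| ≤ 1) (hv : ∀ a b, |v a b - if a = b then Λ else 0| ≤ ε) :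
    |∑ a, p a * ∑ b, p b * v a b - Λ * ∑ a, p a ^ 2| ≤ n ^ 2 * ε := by
  have h1 : ∑ a, p a * ∑ b, p b * v a b - Λ * ∑ a, p a ^ 2 =
      ∑ a, ∑ b, p a * p b * (v a b - if a = b then Λ else 0) := by
    rw [Finset.mul_sum, ← Finset.sum_sub_distrib]
    refine Finset.sum_congr rfl fun a _ => ?_
    have h2 : ∑ b, p a * p b * (v a b - if a = b then Λ else 0) =
        p a * ∑ b, p b * v a b - ∑ b, p a * p b * (if a = b then Λ else 0) := by
      rw [Finset.mul_sum, ← Finset.sum_sub_distrib]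
      exact Finset.sum_congr rfl fun b _ => by ring
    rw [h2]
    simp only [mul_ite, mul_zero, Finset.sum_ite_eq, Finset.mem_univ, if_true]
    ring
  rw [h1]
  have h3 : ∀ a b, |p a * p b * (v a b - if a = b then Λ else 0)| ≤ ε := by
    intro a b
    rw [abs_mul, abs_mul]
    have h4 : |p a| * |p b| ≤ 1 := mul_le_one₀ (hp a) (abs_nonneg _) (hp b)
    calc |p a| * |p b| * |v a b - if a = b then Λ else 0| ≤
        1 * |v a b - if a = b then Λ else 0| := mul_le_mul_of_nonneg_right h4 (abs_nonneg _)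
      _ ≤ ε := by rw [one_mul]; exact hv a b
  calc |∑ a, ∑ b, p a * p b * (v a b - if a = b then Λ else 0)| ≤
      ∑ a, |∑ b, p a * p b * (v a b - if a = b then Λ else 0)| := Finset.abs_sum_le_sum_abs _ _
    _ ≤ ∑ _a : Fin n, ∑ _b : Fin n, ε := Finset.sum_le_sum fun a _ =>
        (Finset.abs_sum_le_sum_abs _ _).trans (Finset.sum_le_sum fun b _ => h3 a b)
    _ = n ^ 2 * ε := by
        simp only [Finset.sum_const, Finset.card_univ, Fintype.card_fin, nsmul_eq_mul]; ring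

lemma div_bound (hn : 1 ≤ n) (hε : 0 ≤ ε) (hΛ : 0 ≤ Λ) (hτ0 : 0 < τ) (hτ1 : τ ≤ 1)
    (hp : ∀ a, |p a| ≤ 1) (hpt : ∑ a, p a ^ 2 = 1 - τ ^ 2)
    (hv : ∀ a b, |v a b - if a = b then Λ else 0| ≤ ε) :
    Λ * (1 - 3 / 2 * ∑ a, p a ^ 2) - 2 * n ^ 2 * ε ≤
      ∑ a, (τ * v a a - τ * p a * ∑ b, p b * v a b) ∧
    |∑ a, (τ * v a a - τ * p a * ∑ b, p b * v a b)| ≤ Λ * n + 2 * n ^ 2 * ε := by
  have h1 := pp_bound hp hv
  have hn' : (1 : ℝ) ≤ n := by exact_mod_cast hn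
  have h2 : |∑ a, v a a - n * Λ| ≤ n ^ 2 * ε := by
    have h3 : ∑ a, v a a - n * Λ = ∑ a, (v a a - if a = a then Λ else 0) := by
      rw [Finset.sum_sub_distrib]
      simp
    rw [h3]
    calc |∑ a, (v a a - if a = a then Λ else 0)| ≤ ∑ a, |v a a - if a = a then Λ else 0| :=
          Finset.abs_sum_le_sum_abs _ _
      _ ≤ ∑ _a : Fin n, ε := Finset.sum_le_sum fun a _ => hv a a
      _ = n * ε := by simp
      _ ≤ n ^ 2 * ε := mul_le_mul_of_nonneg_right (by nlinarith) hε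
  obtain ⟨S1, hS1⟩ : ∃ S, S = ∑ a, v a a := ⟨_, rfl⟩
  obtain ⟨S2, hS2⟩ : ∃ S, S = ∑ a, p a * ∑ b, p b * v a b := ⟨_, rfl⟩
  have h4 : ∑ a, (τ * v a a - τ * p a * ∑ b, p b * v a b) = τ * S1 - τ * S2 := by
    rw [hS1, hS2, Finset.mul_sum, Finset.mul_sum, ← Finset.sum_sub_distrib]
    exact Finset.sum_congr rfl fun a _ => by ring
  rw [h4, hpt]
  rw [← hS2, hpt] at h1
  rw [← hS1] at h2
  rw [abs_le] at h1 h2
  have hE : 0 ≤ (n : ℝ) ^ 2 * ε := by positivity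
  have t1 : τ * (n ^ 2 * ε) ≤ n ^ 2 * ε := by nlinarith
  have t3 : 0 ≤ τ ^ 3 - (1 - 3 / 2 * (1 - τ ^ 2)) := by nlinarith [sq_nonneg (τ - 1)]
  have t4 : τ * S1 ≥ τ * (n * Λ - n ^ 2 * ε) := mul_le_mul_of_nonneg_left (by linarith) hτ0.le
  have t4' : τ * S1 ≤ τ * (n * Λ + n ^ 2 * ε) := mul_le_mul_of_nonneg_left (by linarith) hτ0.le
  have t5 : τ * S2 ≤ τ * (Λ * (1 - τ ^ 2) + n ^ 2 * ε) :=
    mul_le_mul_of_nonneg_left (by linarith) hτ0.le
  have t5' : τ * S2 ≥ τ * (Λ * (1 - τ ^ 2) - n ^ 2 * ε) :=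
    mul_le_mul_of_nonneg_left (by linarith) hτ0.le
  have t6 : τ * (n * Λ) - τ * (Λ * (1 - τ ^ 2)) = Λ * (τ * (n - 1)) + Λ * τ ^ 3 := by ring
  have t7 : 0 ≤ Λ * (τ * (n - 1)) := mul_nonneg hΛ (mul_nonneg hτ0.le (by linarith))
  have t8 : 0 ≤ Λ * (τ ^ 3 - (1 - 3 / 2 * (1 - τ ^ 2))) := mul_nonneg hΛ t3
  have t9 : Λ * (τ * (n - 1)) + Λ * τ ^ 3 ≤ Λ * n := by
    have : τ * (n - 1) + τ ^ 3 ≤ n := by
      have u1 : τ ^ 3 ≤ 1 := pow_le_one₀ hτ0.le hτ1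
      have u2 : τ * (n - 1) ≤ n - 1 := by nlinarith
      linarith
    calc _ = Λ * (τ * (n - 1) + τ ^ 3) := by ring
      _ ≤ _ := mul_le_mul_of_nonneg_left this hΛ
  have t10 : 0 ≤ Λ * τ ^ 3 := by positivity
  refine ⟨by nlinarith, abs_le.2 ⟨by nlinarith, by nlinarith⟩⟩

end real

variable {G : Type*} [Group G] [TopologicalSpace G] [IsTopologicalGroup G] [CompactSpace G]
  [SecondCountableTopology G] [MeasurableSpace G] [BorelSpace G] (μ : Measure G)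
  [IsProbabilityMeasure μ] [μ.IsMulLeftInvariant] [μ.IsMulRightInvariant] [μ.IsInvInvariant]
  {N n : ℕ} {L : LD G N n} {d l : ℕ} [NeZero l]

lemma Zt_I (β : ℝ) (F : Sm L (Ed d l)) :
    Zt μ L β F.1 = L.I μ (F * sexp ((-β) • aS0 L d l)) := by
  unfold Zt
  rw [I_apply]
  refine integral_congr_ae (Filter.Eventually.of_forall fun U => ?_)
  show F.1 U * Real.exp (-(β * act L U)) = F.1 U * Real.exp ((-β) * act L U)
  congr 2; ring

/-- the Schwinger-Dyson equation -/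
lemma SD (V : Derivation ℝ (Sm L (Ed d l)) (Sm L (Ed d l)))
    (hV : ∀ F, L.I μ (V F) = 0)
    (hexp : ∀ F, V (sexp F) = sexp F * V F) (β : ℝ) (F : Sm L (Ed d l)) :
    Zt μ L β (V F).1 = β * Zt μ L β (F * V (aS0 L d l)).1 := by
  rw [Zt_I, Zt_I]
  have h1 := hV (F * sexp ((-β) • aS0 L d l))
  rw [Derivation.leibniz, hexp, Derivation.map_smul] at h1
  simp only [smul_eq_mul] at h1
  have h2 : F * (sexp ((-β) • aS0 L d l) * ((-β) • V (aS0 L d l))) +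
      sexp ((-β) • aS0 L d l) * V F = (-β) • (F * V (aS0 L d l) * sexp ((-β) • aS0 L d l)) +
        V F * sexp ((-β) • aS0 L d l) := by
    simp only [Algebra.smul_def]; ring
  rw [h2, map_add, map_smul, smul_eq_mul] at h1
  linarith

lemma Zt_cs {β : ℝ} {F H : (Ed d l → G) → ℝ} (hF : Continuous F) (hH : Continuous H) :
    Zt μ L β (fun U => F U * H U) ^ 2 ≤ Zt μ L β (fun U => F U ^ 2) * Zt μ L β (fun U => H U ^ 2) := by
  refine sq_le_of_forall fun t => ?_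
  have h1 : 0 ≤ Zt μ L β (fun U => (F U + t * H U) ^ 2) :=
    Zt_nonneg μ fun U => sq_nonneg _
  have h2 : Zt μ L β (fun U => (F U + t * H U) ^ 2) = Zt μ L β (fun U => F U ^ 2) +
      2 * t * Zt μ L β (fun U => F U * H U) + t ^ 2 * Zt μ L β (fun U => H U ^ 2) := by
    have e1 : (fun U => (F U + t * H U) ^ 2) = fun U => F U ^ 2 + (2 * t * (F U * H U) +
        t ^ 2 * H U ^ 2) := by funext U; ring
    have c1 : Continuous fun U => F U ^ 2 := hF.pow 2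
    have c2 : Continuous fun U => 2 * t * (F U * H U) := continuous_const.mul (hF.mul hH)
    have c3 : Continuous fun U => t ^ 2 * H U ^ 2 := continuous_const.mul (hH.pow 2)
    have e2 : Zt μ L β (fun U => F U ^ 2 + (2 * t * (F U * H U) + t ^ 2 * H U ^ 2)) =
        Zt μ L β (fun U => F U ^ 2) + Zt μ L β (fun U => 2 * t * (F U * H U) + t ^ 2 * H U ^ 2) :=
      Zt_add μ c1 (c2.add c3)
    have e3 : Zt μ L β (fun U => 2 * t * (F U * H U) + t ^ 2 * H U ^ 2) =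
        Zt μ L β (fun U => 2 * t * (F U * H U)) + Zt μ L β (fun U => t ^ 2 * H U ^ 2) :=
      Zt_add μ c2 c3
    rw [e1, e2, e3, Zt_smul, Zt_smul]
    ring
  rw [h2] at h1
  exact h1

lemma Zt_sum {β : ℝ} {ι : Type*} (s : Finset ι) {F : ι → (Ed d l → G) → ℝ}
    (hF : ∀ i ∈ s, Continuous (F i)) :
    Zt μ L β (fun U => ∑ i ∈ s, F i U) = ∑ i ∈ s, Zt μ L β (F i) := by
  unfold Zt
  simp only [Finset.sum_mul]
  rw [integral_finsetSum]
  intro i hi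
  exact integrable_cont μ ((hF i hi).mul (wt_contT (L := L) β))

lemma Vf_sexp {A : (Fin d → ZMod l) → ℝ} {ι : Fin d} (α : Fin n) (F : Sm L (Ed d l)) :
    Vf L A ι α (sexp F) = sexp F * Vf L A ι α F := by
  rw [Vf_eq, Vf_eq, Finset.mul_sum]
  refine Finset.sum_congr rfl fun x _ => ?_
  rw [Finset.mul_sum]
  refine Finset.sum_congr rfl fun b _ => ?_
  rw [Dv_sexp]; ring

lemma ZtS_sum (β : ℝ) {ι : Type*} (s : Finset ι) (F : ι → Sm L (Ed d l)) :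
    Zt μ L β (∑ i ∈ s, F i).1 = ∑ i ∈ s, Zt μ L β (F i).1 := by
  rw [Zt_I, Finset.sum_mul, map_sum]
  exact Finset.sum_congr rfl fun i _ => (Zt_I μ β (F i)).symm

lemma ZtS_add (β : ℝ) (F H : Sm L (Ed d l)) :
    Zt μ L β (F + H).1 = Zt μ L β F.1 + Zt μ L β H.1 := by
  rw [Zt_I, add_mul, map_add, Zt_I, Zt_I]

lemma ev_sum {E : Type*} [Fintype E] [DecidableEq E] {ι : Type*} (s : Finset ι)
    (F : ι → Sm L E) (U : E → G) : (∑ i ∈ s, F i).1 U = ∑ i ∈ s, (F i).1 U :=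
  map_sum (L.ev U) F s

/-- The lower bound for the variance. -/
theorem var_low (hn : 1 ≤ n) {β : ℝ} (hβ : 0 < β)
    (V : Fin n → Derivation ℝ (Sm L (Ed d l)) (Sm L (Ed d l)))
    (hV : ∀ α F, L.I μ (V α F) = 0) (hexp : ∀ α F, V α (sexp F) = sexp F * V α F)
    (Y : Fin n → Sm L (Ed d l)) {Λ κ κ' Q C1 : ℝ} (hΛ : 0 < Λ) (hκ : 0 ≤ κ) (hC1 : 1 ≤ C1)
    {s : (Ed d l → G) → ℝ} (hs : Continuous s) (hs0 : ∀ U, 0 ≤ s U)
    (h1 : ∀ U α b, |(V α (Y b)).1 U - if α = b then Λ else 0| ≤ κ * s U)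
    (h2 : ∀ U α, (V α (V α (aS0 L d l))).1 U ≤ Q + κ' * s U)
    (H1 : n * β * (Q * Zt μ L β (fun _ : Ed d l → G => 1) + κ' * Zt μ L β s) ≤
      C1 * Λ ^ 2 * Zt μ L β (fun _ : Ed d l → G => 1))
    (H2 : 2 * n ^ 2 * κ * Zt μ L β s ≤
      1 / (32 * C1) * Λ * Zt μ L β (fun _ : Ed d l → G => 1))
    (H3 : n ^ 4 * κ ^ 2 * Zt μ L β (fun U => s U ^ 2) ≤
      Λ ^ 2 * Zt μ L β (fun _ : Ed d l → G => 1)) (c : ℝ) :
    (1 / (32 * C1)) ^ 2 / (2 * C1 + 4 * n ^ 2 + 16) *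
      Zt μ L β (fun _ : Ed d l → G => 1) ≤
      Zt μ L β (fun U => ((rad Y 1 one_pos).1 U - c) ^ 2) := by
  obtain ⟨S, hS⟩ : ∃ S, S = aS0 L d l := ⟨_, rfl⟩
  obtain ⟨Z, hZ⟩ : ∃ Z, Z = Zt μ L β (fun _ : Ed d l → G => 1) := ⟨_, rfl⟩
  have hZ0 : 0 < Z := by rw [hZ]; exact Zt_pos μ β
  rw [← hZ] at H1 H2 H3 ⊢
  rw [← hS] at h2
  obtain ⟨r, hrd⟩ : ∃ r, r = rad Y 1 one_pos := ⟨_, rfl⟩
  obtain ⟨t, htd⟩ : ∃ t, t = radi Y 1 one_pos := ⟨_, rfl⟩
  have ht : t * r = 1 := by rw [htd, hrd]; exact radi_mul _ _ _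
  have hr : r * r = algebraMap ℝ (Sm L (Ed d l)) (1 ^ 2) + ∑ a, Y a * Y a := by
    rw [hrd]; exact rad_mul _ _ _
  have htpos : ∀ U, 0 < t.1 U := fun U => by rw [htd]; exact radi_pos _ _ one_pos U
  rw [← hrd]
  obtain ⟨ψ, hψ⟩ : ∃ ψ : Fin n → Sm L (Ed d l), ψ = fun a => t * Y a := ⟨_, rfl⟩
  have hψv : ∀ a U, (ψ a).1 U = t.1 U * (Y a).1 U := fun a U => by rw [hψ]; rfl
  -- pointwise facts
  have hq : ∀ U, ∑ a, (ψ a).1 U ^ 2 = 1 - t.1 U ^ 2 := by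
    intro U
    have e1 : (t * t * (r * r)).1 U = t.1 U * t.1 U * (1 ^ 2 + ∑ a, (Y a).1 U * (Y a).1 U) := by
      rw [hr]
      have e2 : (t * t * (algebraMap ℝ (Sm L (Ed d l)) (1 ^ 2) + ∑ a, Y a * Y a)).1 U =
        t.1 U * t.1 U * ((algebraMap ℝ (Sm L (Ed d l)) (1 ^ 2)).1 U +
          (∑ a, Y a * Y a).1 U) := rfl
      rw [e2, ev_sum]; rfl
    have e3 : t * t * (r * r) = 1 := by
      calc t * t * (r * r) = (t * r) * (t * r) := by ring
        _ = 1 := by rw [ht, one_mul]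
    rw [e3] at e1
    have e4 : (1 : Sm L (Ed d l)).1 U = 1 := rfl
    rw [e4] at e1
    have e5 : ∑ a, (ψ a).1 U ^ 2 = t.1 U * t.1 U * ∑ a, (Y a).1 U * (Y a).1 U := by
      rw [Finset.mul_sum]
      exact Finset.sum_congr rfl fun a _ => by rw [hψv]; ring
    rw [e5]
    linarith
  have ht1 : ∀ U, t.1 U ≤ 1 := by
    intro U
    have e1 : 0 ≤ ∑ a, (ψ a).1 U ^ 2 := Finset.sum_nonneg fun a _ => sq_nonneg _
    rw [hq] at e1
    have e2 := htpos U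
    nlinarith
  have hp1 : ∀ U a, |(ψ a).1 U| ≤ 1 := by
    intro U a
    have e1 : (ψ a).1 U ^ 2 ≤ ∑ a, (ψ a).1 U ^ 2 :=
      Finset.single_le_sum (f := fun a => (ψ a).1 U ^ 2) (fun _ _ => sq_nonneg _)
        (Finset.mem_univ a)
    rw [hq] at e1
    have e2 : (ψ a).1 U ^ 2 ≤ 1 ^ 2 := by nlinarith [sq_nonneg (t.1 U)]
    exact abs_le_of_sq_le_sq e2 zero_le_one
  have hVr : ∀ a U, (V a r).1 U = ∑ b, (ψ b).1 U * (V a (Y b)).1 U := by
    intro a U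
    have e1 := D_r ht hr (V a)
    rw [e1]
    have e2 : (t * ∑ b, Y b * V a (Y b)).1 U = t.1 U * (∑ b, Y b * V a (Y b)).1 U := rfl
    rw [e2, ev_sum, Finset.mul_sum]
    refine Finset.sum_congr rfl fun b _ => ?_
    rw [hψv]
    have e3 : (Y b * V a (Y b)).1 U = (Y b).1 U * (V a (Y b)).1 U := rfl
    rw [e3]; ring
  have hVψ : ∀ a U, (V a (ψ a)).1 U = t.1 U * (V a (Y a)).1 U -
      t.1 U * (ψ a).1 U * ∑ b, (ψ b).1 U * (V a (Y b)).1 U := by
    intro a U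
    rw [← hVr, hψ]
    simp only
    rw [Derivation.leibniz, D_t ht (V a)]
    have e1 : (t • V a (Y a) + Y a • -(t * t * V a r)).1 U =
        t.1 U * (V a (Y a)).1 U + (Y a).1 U * -(t.1 U * t.1 U * (V a r).1 U) := rfl
    have e2 : (t * Y a).1 U = t.1 U * (Y a).1 U := rfl
    rw [e1, e2]; ring
  -- the functions
  obtain ⟨dd, hdd⟩ : ∃ dd : Sm L (Ed d l), dd = ∑ a, ψ a * V a S := ⟨_, rfl⟩
  obtain ⟨dv', hdv⟩ : ∃ dv' : Sm L (Ed d l), dv' = ∑ a, V a (ψ a) := ⟨_, rfl⟩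
  obtain ⟨gr, hgr⟩ : ∃ gr : Sm L (Ed d l), gr = ∑ a, ψ a * V a r := ⟨_, rfl⟩
  obtain ⟨g2, hg2⟩ : ∃ g2 : Sm L (Ed d l), g2 = ∑ a, V a S * V a S := ⟨_, rfl⟩
  obtain ⟨q, hqd⟩ : ∃ q : Sm L (Ed d l), q = ∑ a, ψ a * ψ a := ⟨_, rfl⟩
  have hqv : ∀ U, q.1 U = ∑ a, (ψ a).1 U ^ 2 := fun U => by
    rw [hqd, ev_sum]
    exact Finset.sum_congr rfl fun a _ => by rw [pow_two]; rfl
  have hg2v : ∀ U, g2.1 U = ∑ a, (V a S).1 U ^ 2 := fun U => by
    rw [hg2, ev_sum]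
    exact Finset.sum_congr rfl fun a _ => by rw [pow_two]; rfl
  have hddv : ∀ U, dd.1 U = ∑ a, (ψ a).1 U * (V a S).1 U := fun U => by
    rw [hdd, ev_sum]; rfl
  have hgrv : ∀ U, gr.1 U = ∑ a, (ψ a).1 U * ∑ b, (ψ b).1 U * (V a (Y b)).1 U := fun U => by
    rw [hgr, ev_sum]
    exact Finset.sum_congr rfl fun a _ => by rw [← hVr]; rfl
  have hdvv : ∀ U, dv'.1 U = ∑ a, (t.1 U * (V a (Y a)).1 U -
      t.1 U * (ψ a).1 U * ∑ b, (ψ b).1 U * (V a (Y b)).1 U) := fun U => by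
    rw [hdv, ev_sum]
    exact Finset.sum_congr rfl fun a _ => hVψ a U
  have hks : ∀ U, 0 ≤ κ * s U := fun U => mul_nonneg hκ (hs0 U)
  have hgrb : ∀ U, Λ * q.1 U - n ^ 2 * κ * s U ≤ gr.1 U := by
    intro U
    have e := pp_bound (p := fun a => (ψ a).1 U) (v := fun a b => (V a (Y b)).1 U) (Λ := Λ)
      (ε := κ * s U) (hp1 U) (fun a b => h1 U a b)
    rw [hgrv, hqv]
    have := (abs_le.1 e).1
    nlinarith [this]
  have hdvb : ∀ U, Λ * (1 - 3 / 2 * q.1 U) - 2 * n ^ 2 * κ * s U ≤ dv'.1 U ∧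
      |dv'.1 U| ≤ Λ * n + 2 * n ^ 2 * κ * s U := by
    intro U
    have e := div_bound (p := fun a => (ψ a).1 U) (v := fun a b => (V a (Y b)).1 U) (Λ := Λ)
      (ε := κ * s U) (τ := t.1 U) hn (hks U) hΛ.le (htpos U) (ht1 U) (hp1 U) (hq U)
      (fun a b => h1 U a b)
    rw [hdvv, hqv]
    refine ⟨le_trans (le_of_eq (by ring)) e.1, e.2.trans (le_of_eq (by ring))⟩
  -- Schwinger-Dyson
  have sd : ∀ a (F : Sm L (Ed d l)), Zt μ L β (V a F).1 = β * Zt μ L β (F * V a S).1 :=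
    fun a F => by rw [hS]; exact SD μ (V a) (hV a) (hexp a) β F
  have sd1 : Zt μ L β dv'.1 = β * Zt μ L β dd.1 := by
    rw [hdv, hdd, ZtS_sum, ZtS_sum, Finset.mul_sum]
    exact Finset.sum_congr rfl fun a _ => sd a _
  have sd2 : Zt μ L β gr.1 + Zt μ L β (r * dv').1 = β * Zt μ L β (r * dd).1 := by
    rw [← ZtS_add, hgr, hdv, hdd, Finset.mul_sum, Finset.mul_sum, ← Finset.sum_add_distrib,
      ZtS_sum, ZtS_sum, Finset.mul_sum]
    refine Finset.sum_congr rfl fun a _ => ?_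
    have e := sd a (ψ a * r)
    rw [Derivation.leibniz] at e
    have e2 : r * (ψ a * V a S) = ψ a * r * V a S := by ring
    rw [e2, ← e]
    rfl
  have sd3 : ∀ a, β * Zt μ L β (V a S * V a S).1 = Zt μ L β (V a (V a S)).1 := fun a =>
    (sd a (V a S)).symm
  have hg2b : β ^ 2 * Zt μ L β g2.1 ≤ C1 * Λ ^ 2 * Z := by
    have e1 : ∀ a, β * Zt μ L β (V a S * V a S).1 ≤ Q * Z + κ' * Zt μ L β s := by
      intro a
      rw [sd3]
      have e2 : Zt μ L β (V a (V a S)).1 ≤ Zt μ L β (fun U => Q * 1 + κ' * s U) :=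
        Zt_mono μ (Sm_cont _) (continuous_const.add (continuous_const.mul hs)) fun U => by
          rw [mul_one]; exact h2 U a
      have e3 : Zt μ L β (fun U => Q * 1 + κ' * s U) =
          Zt μ L β (fun U : Ed d l → G => Q * 1) + Zt μ L β (fun U => κ' * s U) :=
        Zt_add μ continuous_const (continuous_const.mul hs)
      rw [e3, Zt_smul μ Q (fun _ => (1 : ℝ)), Zt_smul, ← hZ] at e2
      exact e2
    have e4 : β ^ 2 * Zt μ L β g2.1 = β * ∑ a, β * Zt μ L β (V a S * V a S).1 := by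
      rw [hg2, ZtS_sum, Finset.mul_sum, Finset.mul_sum]
      exact Finset.sum_congr rfl fun a _ => by ring
    rw [e4]
    calc β * ∑ a, β * Zt μ L β (V a S * V a S).1 ≤ β * ∑ _a : Fin n, (Q * Z + κ' * Zt μ L β s) :=
          mul_le_mul_of_nonneg_left (Finset.sum_le_sum fun a _ => e1 a) hβ.le
      _ = n * β * (Q * Z + κ' * Zt μ L β s) := by
          rw [Finset.sum_const, Finset.card_univ, Fintype.card_fin, nsmul_eq_mul]; ring
      _ ≤ _ := H1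
  -- first estimate
  have hcs1 : (β * Zt μ L β dd.1) ^ 2 ≤ Zt μ L β q.1 * (C1 * Λ ^ 2 * Z) := by
    have e1 : Zt μ L β dd.1 ^ 2 ≤ Zt μ L β q.1 * Zt μ L β g2.1 := by
      refine sq_le_of_forall fun x => ?_
      have e2 : 0 ≤ Zt μ L β (fun U => ∑ a, ((ψ a).1 U + x * (V a S).1 U) ^ 2) :=
        Zt_nonneg μ fun U => Finset.sum_nonneg fun a _ => sq_nonneg _
      have e3 : (fun U => ∑ a, ((ψ a).1 U + x * (V a S).1 U) ^ 2) =
          fun U => q.1 U + (2 * x * dd.1 U + x ^ 2 * g2.1 U) := by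
        funext U
        rw [hqv, hddv, hg2v, Finset.mul_sum, Finset.mul_sum, ← Finset.sum_add_distrib,
          ← Finset.sum_add_distrib]
        exact Finset.sum_congr rfl fun a _ => by ring
      have e4 : Zt μ L β (fun U => q.1 U + (2 * x * dd.1 U + x ^ 2 * g2.1 U)) =
          Zt μ L β q.1 + Zt μ L β (fun U => 2 * x * dd.1 U + x ^ 2 * g2.1 U) :=
        Zt_add μ (Sm_cont q) ((continuous_const.mul (Sm_cont dd)).add
          (continuous_const.mul (Sm_cont g2)))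
      have e5 : Zt μ L β (fun U => 2 * x * dd.1 U + x ^ 2 * g2.1 U) =
          Zt μ L β (fun U => 2 * x * dd.1 U) + Zt μ L β (fun U => x ^ 2 * g2.1 U) :=
        Zt_add μ (continuous_const.mul (Sm_cont dd)) (continuous_const.mul (Sm_cont g2))
      rw [e3, e4, e5, Zt_smul, Zt_smul] at e2
      linarith
    have hq0 : 0 ≤ Zt μ L β q.1 := Zt_nonneg μ fun U => by
      rw [hqv]; exact Finset.sum_nonneg fun a _ => sq_nonneg _
    calc (β * Zt μ L β dd.1) ^ 2 = β ^ 2 * Zt μ L β dd.1 ^ 2 := by ring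
      _ ≤ β ^ 2 * (Zt μ L β q.1 * Zt μ L β g2.1) := mul_le_mul_of_nonneg_left e1 (sq_nonneg β)
      _ = Zt μ L β q.1 * (β ^ 2 * Zt μ L β g2.1) := by ring
      _ ≤ _ := mul_le_mul_of_nonneg_left hg2b hq0
  obtain ⟨qb, hqb⟩ : ∃ x, x = Zt μ L β q.1 := ⟨_, rfl⟩
  obtain ⟨sb, hsb⟩ : ∃ x, x = Zt μ L β s := ⟨_, rfl⟩
  rw [← hsb] at H1 H2
  rw [← hqb] at hcs1
  have hdvZ : Λ * (Z - 3 / 2 * qb) - 2 * n ^ 2 * κ * sb ≤ Zt μ L β dv'.1 := by
    have e1 : Zt μ L β (fun U => Λ * 1 + ((-(Λ * (3 / 2))) * q.1 U +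
        (-(2 * n ^ 2 * κ)) * s U)) ≤ Zt μ L β dv'.1 :=
      Zt_mono μ (continuous_const.add ((continuous_const.mul (Sm_cont q)).add
        (continuous_const.mul hs))) (Sm_cont dv') fun U => by
        have := (hdvb U).1
        linarith
    have e2 : Zt μ L β (fun U => Λ * 1 + ((-(Λ * (3 / 2))) * q.1 U +
        (-(2 * n ^ 2 * κ)) * s U)) = Zt μ L β (fun _ : Ed d l → G => Λ * 1) +
        Zt μ L β (fun U => (-(Λ * (3 / 2))) * q.1 U + (-(2 * n ^ 2 * κ)) * s U) :=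
      Zt_add μ continuous_const ((continuous_const.mul (Sm_cont q)).add
        (continuous_const.mul hs))
    have e3 : Zt μ L β (fun U => (-(Λ * (3 / 2))) * q.1 U + (-(2 * n ^ 2 * κ)) * s U) =
        Zt μ L β (fun U => (-(Λ * (3 / 2))) * q.1 U) + Zt μ L β (fun U => (-(2 * n ^ 2 * κ)) * s U) :=
      Zt_add μ (continuous_const.mul (Sm_cont q)) (continuous_const.mul hs)
    rw [e2, e3, Zt_smul, Zt_smul, Zt_smul, ← hZ, ← hqb, ← hsb] at e1
    linarith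
  have hC10 : 0 < C1 := by linarith
  have hqlow : Z / (16 * C1) ≤ qb := by
    by_contra hcon
    push Not at hcon
    have e1 : Z / (16 * C1) ≤ Z / 16 := by
      refine div_le_div_of_nonneg_left hZ0.le (by norm_num) (by linarith)
    have e2 : 2 * n ^ 2 * κ * sb ≤ 1 / 32 * Λ * Z := by
      refine H2.trans ?_
      have : 1 / (32 * C1) ≤ 1 / 32 := by
        refine div_le_div_of_nonneg_left zero_le_one (by norm_num) (by linarith)
      have h5 : 0 ≤ Λ * Z := by positivity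
      nlinarith
    have e3 : Λ * Z / 2 ≤ Zt μ L β dv'.1 := by
      refine le_trans ?_ hdvZ
      have h6 : Λ * qb ≤ Λ * (Z / 16) := mul_le_mul_of_nonneg_left (by linarith) hΛ.le
      have h7 : 0 ≤ Λ * Z := by positivity
      nlinarith
    have hpos : 0 ≤ Λ * Z / 2 := by positivity
    have e4 : (Λ * Z / 2) ^ 2 ≤ qb * (C1 * Λ ^ 2 * Z) := by
      refine le_trans (pow_le_pow_left₀ hpos e3 2) ?_
      rw [sd1]; exact hcs1
    have e5 : qb * (C1 * Λ ^ 2 * Z) < Z / (16 * C1) * (C1 * Λ ^ 2 * Z) :=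
      mul_lt_mul_of_pos_right hcon (by positivity)
    have e6 : Z / (16 * C1) * (C1 * Λ ^ 2 * Z) = Λ ^ 2 * Z ^ 2 / 16 := by
      field_simp
    have e7 : 0 < Λ ^ 2 * Z ^ 2 := by positivity
    nlinarith
  -- second estimate
  have hgrZ : Λ * qb - n ^ 2 * κ * sb ≤ Zt μ L β gr.1 := by
    have e1 : Zt μ L β (fun U => Λ * q.1 U + (-(n ^ 2 * κ)) * s U) ≤ Zt μ L β gr.1 :=
      Zt_mono μ ((continuous_const.mul (Sm_cont q)).add
        (continuous_const.mul hs)) (Sm_cont gr) fun U => by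
        have := hgrb U
        linarith
    have e3 : Zt μ L β (fun U => Λ * q.1 U + (-(n ^ 2 * κ)) * s U) =
        Zt μ L β (fun U => Λ * q.1 U) + Zt μ L β (fun U => (-(n ^ 2 * κ)) * s U) :=
      Zt_add μ (continuous_const.mul (Sm_cont q)) (continuous_const.mul hs)
    rw [e3, Zt_smul, Zt_smul, ← hqb, ← hsb] at e1
    linarith
  have hgrlow : 1 / (32 * C1) * Λ * Z ≤ Zt μ L β gr.1 := by
    refine le_trans ?_ hgrZ
    have e1 : Λ * (Z / (16 * C1)) ≤ Λ * qb := mul_le_mul_of_nonneg_left hqlow hΛ.le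
    have e2 : Λ * (Z / (16 * C1)) = 2 * (1 / (32 * C1) * Λ * Z) := by
      field_simp; ring
    have e3 : 0 ≤ 1 / (32 * C1) * Λ * Z := by positivity
    linarith
  -- the final Cauchy-Schwarz inequality
  obtain ⟨D', hD'⟩ : ∃ D' : Sm L (Ed d l), D' = β • dd - dv' := ⟨_, rfl⟩
  have hD'v : ∀ U, D'.1 U = β * dd.1 U - dv'.1 U := fun U => by rw [hD']; rfl
  have hgrD : Zt μ L β gr.1 = Zt μ L β (fun U => (r.1 U - c) * D'.1 U) := by
    have e1 : (fun U => (r.1 U - c) * D'.1 U) = fun U => β * (r * dd).1 U +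
        ((-1) * (r * dv').1 U + ((-(c * β)) * dd.1 U + c * dv'.1 U)) := by
      funext U
      have f1 : (r * dd).1 U = r.1 U * dd.1 U := rfl
      have f2 : (r * dv').1 U = r.1 U * dv'.1 U := rfl
      rw [hD'v, f1, f2]; ring
    have c1 : Continuous fun U => β * (r * dd).1 U := continuous_const.mul (Sm_cont _)
    have c2 : Continuous fun U => (-1) * (r * dv').1 U := continuous_const.mul (Sm_cont _)
    have c3 : Continuous fun U => (-(c * β)) * dd.1 U := continuous_const.mul (Sm_cont _)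
    have c4 : Continuous fun U => c * dv'.1 U := continuous_const.mul (Sm_cont _)
    have e2 : Zt μ L β (fun U => β * (r * dd).1 U +
        ((-1) * (r * dv').1 U + ((-(c * β)) * dd.1 U + c * dv'.1 U))) =
        Zt μ L β (fun U => β * (r * dd).1 U) + Zt μ L β (fun U => (-1) * (r * dv').1 U +
          ((-(c * β)) * dd.1 U + c * dv'.1 U)) := Zt_add μ c1 (c2.add (c3.add c4))
    have e3 : Zt μ L β (fun U => (-1) * (r * dv').1 U +
          ((-(c * β)) * dd.1 U + c * dv'.1 U)) = Zt μ L β (fun U => (-1) * (r * dv').1 U) +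
          Zt μ L β (fun U => (-(c * β)) * dd.1 U + c * dv'.1 U) := Zt_add μ c2 (c3.add c4)
    have e4 : Zt μ L β (fun U => (-(c * β)) * dd.1 U + c * dv'.1 U) =
        Zt μ L β (fun U => (-(c * β)) * dd.1 U) + Zt μ L β (fun U => c * dv'.1 U) :=
      Zt_add μ c3 c4
    rw [e1, e2, e3, e4, Zt_smul, Zt_smul, Zt_smul, Zt_smul, sd1]
    linarith
  have hcs2 : Zt μ L β gr.1 ^ 2 ≤ Zt μ L β (fun U => (r.1 U - c) ^ 2) *
      Zt μ L β (fun U => D'.1 U ^ 2) := by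
    rw [hgrD]
    exact Zt_cs μ ((Sm_cont r).sub continuous_const) (Sm_cont D')
  have hD2 : Zt μ L β (fun U => D'.1 U ^ 2) ≤ (2 * C1 + 4 * n ^ 2 + 16) * Λ ^ 2 * Z := by
    have e1 : ∀ U, D'.1 U ^ 2 ≤ 2 * β ^ 2 * g2.1 U + (4 * Λ ^ 2 * n ^ 2 * 1 +
        16 * n ^ 4 * κ ^ 2 * s U ^ 2) := by
      intro U
      rw [hD'v]
      have f1 : dd.1 U ^ 2 ≤ g2.1 U := by
        rw [hddv, hg2v]
        have f2 := Finset.sum_mul_sq_le_sq_mul_sq Finset.univ (fun a => (ψ a).1 U)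
          (fun a => (V a S).1 U)
        rw [hq] at f2
        have f3 : 0 ≤ ∑ a, (V a S).1 U ^ 2 := Finset.sum_nonneg fun _ _ => sq_nonneg _
        nlinarith [sq_nonneg (t.1 U)]
      have f4 : dv'.1 U ^ 2 ≤ (Λ * n + 2 * n ^ 2 * κ * s U) ^ 2 := by
        rw [← sq_abs]
        exact pow_le_pow_left₀ (abs_nonneg _) (hdvb U).2 2
      nlinarith [sq_nonneg (β * dd.1 U + dv'.1 U), sq_nonneg (Λ * n - 2 * n ^ 2 * κ * s U),
        mul_le_mul_of_nonneg_left f1 (sq_nonneg β)]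
    have c1 : Continuous fun U => 2 * β ^ 2 * g2.1 U := continuous_const.mul (Sm_cont _)
    have c2 : Continuous fun U : Ed d l → G => 4 * Λ ^ 2 * (n : ℝ) ^ 2 * 1 := continuous_const
    have c3 : Continuous fun U => 16 * (n : ℝ) ^ 4 * κ ^ 2 * s U ^ 2 :=
      continuous_const.mul (hs.pow 2)
    have e2 : Zt μ L β (fun U => D'.1 U ^ 2) ≤ Zt μ L β (fun U => 2 * β ^ 2 * g2.1 U +
        (4 * Λ ^ 2 * n ^ 2 * 1 + 16 * n ^ 4 * κ ^ 2 * s U ^ 2)) :=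
      Zt_mono μ ((Sm_cont D').pow 2) (c1.add (c2.add c3)) e1
    have e3 : Zt μ L β (fun U => 2 * β ^ 2 * g2.1 U +
        (4 * Λ ^ 2 * n ^ 2 * 1 + 16 * n ^ 4 * κ ^ 2 * s U ^ 2)) =
        Zt μ L β (fun U => 2 * β ^ 2 * g2.1 U) +
        Zt μ L β (fun U => 4 * Λ ^ 2 * n ^ 2 * 1 + 16 * n ^ 4 * κ ^ 2 * s U ^ 2) :=
      Zt_add μ c1 (c2.add c3)
    have e4 : Zt μ L β (fun U => 4 * Λ ^ 2 * n ^ 2 * 1 + 16 * n ^ 4 * κ ^ 2 * s U ^ 2) =
        Zt μ L β (fun _ : Ed d l → G => 4 * Λ ^ 2 * n ^ 2 * 1) +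
        Zt μ L β (fun U => 16 * n ^ 4 * κ ^ 2 * s U ^ 2) := Zt_add μ c2 c3
    rw [e3, e4, Zt_smul, Zt_smul μ (4 * Λ ^ 2 * n ^ 2) (fun _ => (1 : ℝ)), Zt_smul, ← hZ] at e2
    refine e2.trans ?_
    nlinarith [hg2b, H3]
  have hpos : 0 ≤ 1 / (32 * C1) * Λ * Z := by positivity
  have hV0 : 0 ≤ Zt μ L β (fun U => (r.1 U - c) ^ 2) := Zt_nonneg μ fun U => sq_nonneg _
  have hfin : (1 / (32 * C1) * Λ * Z) ^ 2 ≤ Zt μ L β (fun U => (r.1 U - c) ^ 2) *
      ((2 * C1 + 4 * n ^ 2 + 16) * Λ ^ 2 * Z) :=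
    (pow_le_pow_left₀ hpos hgrlow 2).trans (hcs2.trans (mul_le_mul_of_nonneg_left hD2 hV0))
  have hden : 0 < (2 * C1 + 4 * n ^ 2 + 16) * Λ ^ 2 * Z := by positivity
  have hden' : 0 < 2 * C1 + 4 * (n : ℝ) ^ 2 + 16 := by positivity
  rw [← div_le_iff₀ hden] at hfin
  refine le_trans (le_of_eq ?_) hfin
  field_simp

end

end Pool.Agent.W793.YM
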