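import Mathlib
import Pool.Agent.W793.YM.Trans
import Pool.Agent.W793.YM.Var

/-!
# The observable: lower bound for the variance, upper bound for the variation in time
-/

open MeasureTheory Matrix
open scoped Matrix.Norms.Frobenius ContDiff
open Pool.Agent.H906R3.YM

namespace Pool.Agent.W793.YM

set_option linter.unusedSectionVars false
set_option linter.unusedVariables false

noncomputable section

section est

variable {e q l : ℕ} [NeZero l]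

lemma est_M (hq : 1 ≤ q) : (((8 * q + 1 : ℕ) : ℝ)) ≤ 9 * q := by
  have : (1 : ℝ) ≤ q := by exact_mod_cast hq
  push_cast; linarith

lemma est_1 (hq : 1 ≤ q) : (((8 * q + 1 : ℕ) : ℝ)) ^ (e + 3) * ((e + 3 : ℕ) : ℝ) ^ 2 ≤
    9 ^ (e + 3) * ((e + 3 : ℕ) : ℝ) ^ 2 * (q : ℝ) ^ (e + 3) := by
  have h1 := est_M hq
  calc _ ≤ (9 * (q : ℝ)) ^ (e + 3) * ((e + 3 : ℕ) : ℝ) ^ 2 := by gcongr
    _ = _ := by rw [mul_pow]; ring

lemma est_dM (hq : 1 ≤ q) : ((e + 3 : ℕ) : ℝ) * ((8 * q + 1 : ℕ) : ℝ) + 1 ≤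
    (9 * ((e + 3 : ℕ) : ℝ) + 1) * q := by
  have h1 := est_M hq
  have h2 : (1 : ℝ) ≤ q := by exact_mod_cast hq
  have h3 : (0 : ℝ) ≤ ((e + 3 : ℕ) : ℝ) := Nat.cast_nonneg _
  nlinarith

lemma est_L (hq : 1 ≤ q) (ν τ : Fin (e + 3)) :
    (∑ x : Fin (e + 3) → ZMod l, |Kq (4 * q) ν τ 0 x|) *
      (36 * (((e + 3 : ℕ) : ℝ) * ((8 * q + 1 : ℕ) : ℝ) + 1) ^ 2) ≤
    4 ^ (e + 2) * 8 ^ (e + 2) * (36 * (9 * ((e + 3 : ℕ) : ℝ) + 1) ^ 2) * (q : ℝ) ^ (2 * e + 6) := by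
  have h1 := sum_Kq (l := l) (4 * q) ν τ 0
  have h2 := est_dM (e := e) hq
  have h3 : (0 : ℝ) ≤ ((e + 3 : ℕ) : ℝ) := Nat.cast_nonneg _
  have h4 : (0 : ℝ) ≤ q := Nat.cast_nonneg _
  have h5 : e + 3 - 1 = e + 2 := rfl
  rw [h5] at h1
  calc _ ≤ (((4 * q : ℕ) : ℝ) ^ (e + 2) * (((0 : ℕ) + 1) * (2 * ((4 * q : ℕ) : ℝ)) ^ (e + 2))) *
        (36 * ((9 * ((e + 3 : ℕ) : ℝ) + 1) * q) ^ 2) := by gcongr
    _ = _ := by
        push_cast
        have e1 : (2 * (4 * (q : ℝ))) ^ (e + 2) = 8 ^ (e + 2) * (q : ℝ) ^ (e + 2) := by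
          rw [← mul_pow]; congr 1; ring
        rw [e1, mul_pow]
        ring

lemma est_2 (hq : 1 ≤ q) (ν τ : Fin (e + 3)) :
    (∑ x : Fin (e + 3) → ZMod l, |Kq (4 * q) ν τ (4 * q) x|) *
      (((4 * q : ℕ) : ℝ) ^ (e + 3) * (2 * (((e + 3 : ℕ) : ℝ) * ((8 * q + 1 : ℕ) : ℝ) + 1))) ≤
    4 ^ (e + 2) * (5 * 8 ^ (e + 2)) * (4 ^ (e + 3) * (2 * (9 * ((e + 3 : ℕ) : ℝ) + 1))) *
      (q : ℝ) ^ (3 * e + 9) := by
  have h1 := sum_Kq (l := l) (4 * q) ν τ (4 * q)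
  have h2 := est_dM (e := e) hq
  have h3 : (0 : ℝ) ≤ ((e + 3 : ℕ) : ℝ) := Nat.cast_nonneg _
  have h4 : (0 : ℝ) ≤ q := Nat.cast_nonneg _
  have h6 : (1 : ℝ) ≤ q := by exact_mod_cast hq
  have h5 : e + 3 - 1 = e + 2 := rfl
  rw [h5] at h1
  have h7 : (((4 * q : ℕ) : ℝ) + 1) ≤ 5 * q := by push_cast; linarith
  calc _ ≤ (((4 * q : ℕ) : ℝ) ^ (e + 2) * ((5 * q) * (2 * ((4 * q : ℕ) : ℝ)) ^ (e + 2))) *
        (((4 * q : ℕ) : ℝ) ^ (e + 3) * (2 * ((9 * ((e + 3 : ℕ) : ℝ) + 1) * q))) := by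
        refine mul_le_mul (h1.trans ?_) (by gcongr) (by positivity) (by positivity)
        gcongr
    _ = _ := by
        push_cast
        have e1 : (2 * (4 * (q : ℝ))) ^ (e + 2) = 8 ^ (e + 2) * (q : ℝ) ^ (e + 2) := by
          rw [← mul_pow]; congr 1; ring
        rw [e1, mul_pow, mul_pow]
        ring

lemma est_3 (hq : 1 ≤ q) :
    2 * ((e + 3 : ℕ) : ℝ) * nS (Aq (d := e + 3) (l := l) (4 * q)) *
      (4 * (((4 * q : ℕ) : ℝ) ^ (e + 3)) ^ 2 *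
        (((e + 3 : ℕ) : ℝ) * ((8 * q + 1 : ℕ) : ℝ) + 1)) ≤
    2 * ((e + 3 : ℕ) : ℝ) * 8 ^ (e + 3) * (4 * (4 ^ (e + 3)) ^ 2 *
      (9 * ((e + 3 : ℕ) : ℝ) + 1)) * (q : ℝ) ^ (3 * e + 10) := by
  have h1 := nS_Aq (d := e + 3) (l := l) (4 * q)
  have h2 := est_dM (e := e) hq
  have h3 : (0 : ℝ) ≤ ((e + 3 : ℕ) : ℝ) := Nat.cast_nonneg _
  have h4 : (0 : ℝ) ≤ q := Nat.cast_nonneg _
  calc _ ≤ 2 * ((e + 3 : ℕ) : ℝ) * (2 * ((4 * q : ℕ) : ℝ)) ^ (e + 3) *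
      (4 * (((4 * q : ℕ) : ℝ) ^ (e + 3)) ^ 2 * ((9 * ((e + 3 : ℕ) : ℝ) + 1) * q)) := by gcongr
    _ = _ := by
        push_cast
        have e1 : (2 * (4 * (q : ℝ))) ^ (e + 3) = 8 ^ (e + 3) * (q : ℝ) ^ (e + 3) := by
          rw [← mul_pow]; congr 1; ring
        rw [e1, mul_pow]
        ring

lemma est_4 (hl : 2 * (4 * q) < l) (ι : Fin (e + 3)) :
    EA (Aq (l := l) (4 * q)) ι ≤ 2 * ((e + 3 : ℕ) : ℝ) * 8 ^ (e + 3) * (4 ^ (e + 2)) ^ 2 *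
      (q : ℝ) ^ (3 * e + 7) := by
  have h1 := EA_Aq (l := l) ι hl
  have h5 : e + 3 - 1 = e + 2 := rfl
  rw [h5] at h1
  refine h1.trans (le_of_eq ?_)
  push_cast
  have e1 : (2 * (4 * (q : ℝ))) ^ (e + 3) = 8 ^ (e + 3) * (q : ℝ) ^ (e + 3) := by
    rw [← mul_pow]; congr 1; ring
  rw [e1, mul_pow]
  ring

lemma est_5 {ν τ ι : Fin (e + 3)} (hν : ν ≠ τ) (hι : ι ≠ τ) (hl : 2 * (4 * q) < l) :
    E2 (Kq (l := l) (4 * q) ν τ 0) ι ν ≤ 4 * 8 ^ (e + 2) * (4 ^ (e + 1)) ^ 2 *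
      (q : ℝ) ^ (3 * e + 4) := by
  have h1 := E2_Kq (l := l) hν hι hl
  have h5 : e + 3 - 1 = e + 2 := rfl
  have h6 : e + 3 - 2 = e + 1 := rfl
  rw [h5, h6] at h1
  refine h1.trans (le_of_eq ?_)
  push_cast
  have e1 : (2 * (4 * (q : ℝ))) ^ (e + 2) = 8 ^ (e + 2) * (q : ℝ) ^ (e + 2) := by
    rw [← mul_pow]; congr 1; ring
  rw [e1, mul_pow]
  ring

lemma est_lam {ν τ : Fin (e + 3)} (hν : ν ≠ τ) (hl : 2 * (4 * q) < l) :
    (q : ℝ) ^ (3 * e + 6) ≤ ∑ x : Fin (e + 3) → ZMod l,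
      Kq (4 * q) ν τ (4 * q) x * (Aq (4 * q) (x + eT ν) - Aq (4 * q) x) := by
  have h1 := lam_lower (l := l) hν hl
  have h6 : e + 3 - 2 = e + 1 := rfl
  rw [h6] at h1
  refine le_trans (le_of_eq ?_) h1
  rw [← pow_mul]; ring

end est

lemma s_le {b s : ℝ} (hb : 0 < b) (hs : 0 ≤ s) : s ≤ b⁻¹ * 1 + b ^ 3 * s ^ 4 := by
  rcases le_total (b * s) 1 with h | h
  · have h1 : s ≤ b⁻¹ := by
      rw [← one_div, le_div_iff₀ hb]; linarith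
    have h2 : 0 ≤ b ^ 3 * s ^ 4 := by positivity
    linarith
  · have h1 : 1 ≤ (b * s) ^ 3 := one_le_pow₀ h
    have h2 : s * 1 ≤ s * (b * s) ^ 3 := mul_le_mul_of_nonneg_left h1 hs
    have h3 : s * (b * s) ^ 3 = b ^ 3 * s ^ 4 := by ring
    have h4 : 0 < b⁻¹ := inv_pos.2 hb
    linarith

lemma s_sq_le {b s : ℝ} (hb : 0 < b) (hs : 0 ≤ s) : s ^ 2 ≤ (b⁻¹) ^ 2 * 1 + b ^ 2 * s ^ 4 := by
  rcases le_total (b * s) 1 with h | h
  · have h1 : s ≤ b⁻¹ := by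
      rw [← one_div, le_div_iff₀ hb]; linarith
    have h2 : 0 ≤ b ^ 2 * s ^ 4 := by positivity
    have h3 : s ^ 2 ≤ (b⁻¹) ^ 2 := pow_le_pow_left₀ hs h1 2
    linarith
  · have h1 : 1 ≤ (b * s) ^ 2 := one_le_pow₀ h
    have h2 : s ^ 2 * 1 ≤ s ^ 2 * (b * s) ^ 2 := mul_le_mul_of_nonneg_left h1 (sq_nonneg s)
    have h3 : s ^ 2 * (b * s) ^ 2 = b ^ 2 * s ^ 4 := by ring
    have h4 : 0 < (b⁻¹) ^ 2 := by positivity
    linarith

variable {G : Type*} [Group G] [TopologicalSpace G] [IsTopologicalGroup G] [CompactSpace G]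
  [SecondCountableTopology G] [MeasurableSpace G] [BorelSpace G] (μ : Measure G)
  [IsProbabilityMeasure μ] [μ.IsMulLeftInvariant] [μ.IsMulRightInvariant] [μ.IsInvInvariant]
  {N n : ℕ} (L : LD G N n)

/-- the observable -/
def Obs {e l : ℕ} [NeZero l] (b : ℝ) (q : ℕ) : Sm L (Ed (e + 3) l) :=
  Fo L (b ^ 2 / Real.sqrt ((q : ℝ) ^ (3 * e + 5))) (Kq (4 * q) 0 (Fin.last _) 0) 1 0

theorem core (hn : 1 ≤ n) (e : ℕ) : ∃ C2 C3 c1 : ℝ, 0 < C2 ∧ 0 < C3 ∧ 0 < c1 ∧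
    ∀ q : ℕ, 1 ≤ q → ∀ b : ℝ, C2 * (q : ℝ) ^ (3 * e + 10) ≤ b → ∀ (m : ℕ) [NeZero m],
      4 * q + 1 ≤ m →
      (∀ c : ℝ, c1 * Zt μ L (b ^ 4) (fun _ : Ed (e + 3) (2 * m) → G => 1) ≤
        Zt μ L (b ^ 4) (fun U : Ed (e + 3) (2 * m) → G => ((Obs L b q).1 U - c) ^ 2)) ∧
      Zt μ L (b ^ 4) (fun U : Ed (e + 3) (2 * m) → G =>
        ((Obs L b q).1 (tr (eT (Fin.last _)) U) - (Obs L b q).1 U) ^ 2) ≤
        C3 / q * Zt μ L (b ^ 4) (fun _ : Ed (e + 3) (2 * m) → G => 1) := by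
  obtain ⟨C, hC, hmom⟩ := sB_moment μ (L := L)
  obtain ⟨D, hD⟩ : ∃ D : ℝ, D = ((e + 3 : ℕ) : ℝ) := ⟨_, rfl⟩
  have hD0 : 0 < D := by rw [hD]; positivity
  obtain ⟨k1, hk1⟩ : ∃ k : ℝ, k = 9 ^ (e + 3) * D ^ 2 := ⟨_, rfl⟩
  obtain ⟨kL, hkL⟩ : ∃ k : ℝ, k = 4 ^ (e + 2) * 8 ^ (e + 2) * (36 * (9 * D + 1) ^ 2) := ⟨_, rfl⟩
  obtain ⟨k2, hk2⟩ : ∃ k : ℝ, k = 4 ^ (e + 2) * (5 * 8 ^ (e + 2)) *
    (4 ^ (e + 3) * (2 * (9 * D + 1))) := ⟨_, rfl⟩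
  obtain ⟨k3, hk3⟩ : ∃ k : ℝ, k = 2 * D * 8 ^ (e + 3) * (4 * (4 ^ (e + 3)) ^ 2 *
      (9 * D + 1)) := ⟨_, rfl⟩
  obtain ⟨k4, hk4⟩ : ∃ k : ℝ, k = 2 * D * 8 ^ (e + 3) * (4 ^ (e + 2)) ^ 2 := ⟨_, rfl⟩
  obtain ⟨k5, hk5⟩ : ∃ k : ℝ, k = 4 * 8 ^ (e + 2) * (4 ^ (e + 1)) ^ 2 := ⟨_, rfl⟩
  have hk1p : 0 < k1 := by rw [hk1]; positivity
  have hkLp : 0 < kL := by rw [hkL]; positivity
  have hk2p : 0 < k2 := by rw [hk2]; positivity
  have hk3p : 0 < k3 := by rw [hk3]; positivity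
  have hk4p : 0 < k4 := by rw [hk4]; positivity
  have hk5p : 0 < k5 := by rw [hk5]; positivity
  obtain ⟨C0, hC0⟩ : ∃ C0 : ℝ, C0 = C * k1 ^ 4 := ⟨_, rfl⟩
  have hC0p : 0 < C0 := by rw [hC0]; positivity
  have hn' : (1 : ℝ) ≤ n := by exact_mod_cast hn
  obtain ⟨C1, hC1⟩ : ∃ C1 : ℝ, C1 = n * (k4 + 1) := ⟨_, rfl⟩
  have hC11 : 1 ≤ C1 := by rw [hC1]; nlinarith
  obtain ⟨C2, hC2⟩ : ∃ C2 : ℝ, C2 = 1 + C0 + 2 * k3 + 128 * C1 * n ^ 2 * k2 +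
    6 * n * kL ^ 2 * C0 := ⟨_, rfl⟩
  have hC21 : 1 ≤ C2 := by
    rw [hC2]
    have h1 : 0 ≤ 128 * C1 * (n : ℝ) ^ 2 * k2 := by positivity
    have h2 : 0 ≤ 6 * (n : ℝ) * kL ^ 2 * C0 := by positivity
    linarith
  refine ⟨C2, 2 * n * k5 + 1, (1 / (32 * C1)) ^ 2 / (2 * C1 + 4 * n ^ 2 + 16), by linarith,
    by positivity, by positivity, fun q hq b hb m _ hm => ?_⟩
  obtain ⟨x, hx⟩ : ∃ x : ℝ, x = q := ⟨_, rfl⟩
  have hx1 : 1 ≤ x := by rw [hx]; exact_mod_cast hq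
  have hx0 : 0 < x := by linarith
  rw [← hx] at hb ⊢
  have hm2 : 2 ≤ m := by omega
  have hl : 2 * (4 * q) < 2 * m := by omega
  -- consequences of the size of `b`
  have par : ∀ (c : ℝ) (k : ℕ), 0 ≤ c → c ≤ C2 → k ≤ 3 * e + 10 → c * x ^ k ≤ b := by
    intro c k hc0 hc hk
    refine le_trans ?_ hb
    exact mul_le_mul hc (pow_le_pow_right₀ hx1 hk) (by positivity) (by linarith)
  have hb1 : 1 ≤ b := by
    have := par 1 0 zero_le_one hC21 (by omega)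
    simpa using this
  have hb0 : 0 < b := by linarith
  have par2 : ∀ (c : ℝ) (k : ℕ), 0 ≤ c → c ≤ C2 → k ≤ 6 * e + 20 → c * x ^ k ≤ b ^ 2 := by
    intro c k hc0 hc hk
    have h1 : (C2 * x ^ (3 * e + 10)) ^ 2 ≤ b ^ 2 := pow_le_pow_left₀ (by positivity) hb 2
    refine le_trans ?_ h1
    have h2 : (C2 * x ^ (3 * e + 10)) ^ 2 = C2 ^ 2 * x ^ (6 * e + 20) := by ring
    rw [h2]
    refine mul_le_mul ?_ (pow_le_pow_right₀ hx1 hk) (by positivity) (by positivity)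
    nlinarith
  obtain ⟨Z, hZ⟩ : ∃ Z, Z = Zt μ L (b ^ 4) (fun _ : Ed (e + 3) (2 * m) → G => 1) := ⟨_, rfl⟩
  have hZ0 : 0 < Z := by rw [hZ]; exact Zt_pos μ _
  rw [← hZ]
  obtain ⟨s, hs⟩ : ∃ s : (Ed (e + 3) (2 * m) → G) → ℝ, s = sB L (8 * q + 1) := ⟨_, rfl⟩
  have hsc : Continuous s := by rw [hs]; exact sB_cont _
  have hs0 : ∀ U, 0 ≤ s U := fun U => by rw [hs]; exact sB_nonneg _ _
  obtain ⟨S4, hS4⟩ : ∃ S4, S4 = Zt μ L (b ^ 4) (fun U => s U ^ 4) := ⟨_, rfl⟩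
  have hS40 : 0 ≤ S4 := by
    rw [hS4]; exact Zt_nonneg μ fun U => by positivity
  have hS4b : b ^ 6 * S4 ≤ C0 * x ^ (4 * e + 12) * Z := by
    have h1 := hmom b hb1 (e + 3) m hm2 (8 * q + 1)
    rw [← hs, ← hS4, ← hZ] at h1
    refine h1.trans ?_
    refine mul_le_mul_of_nonneg_right ?_ hZ0.le
    have h2 := est_1 (e := e) hq
    rw [← hD, ← hx, ← hk1] at h2
    rw [← hD]
    calc C * ((((8 * q + 1 : ℕ) : ℝ)) ^ (e + 3) * D ^ 2) ^ 4 ≤ C * (k1 * x ^ (e + 3)) ^ 4 := by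
          gcongr
      _ = _ := by rw [hC0]; ring
  have hS4c : b ^ 4 * S4 ≤ Z := by
    have h1 := par2 C0 (4 * e + 12) hC0p.le (by
      rw [hC2]
      have h1 : 0 ≤ 128 * C1 * (n : ℝ) ^ 2 * k2 := by positivity
      have h2 : 0 ≤ 6 * (n : ℝ) * kL ^ 2 * C0 := by positivity
      linarith) (by omega)
    have h2 : b ^ 2 * (b ^ 4 * S4) ≤ b ^ 2 * Z := by
      calc b ^ 2 * (b ^ 4 * S4) = b ^ 6 * S4 := by ring
        _ ≤ C0 * x ^ (4 * e + 12) * Z := hS4b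
        _ ≤ b ^ 2 * Z := mul_le_mul_of_nonneg_right h1 hZ0.le
    exact le_of_mul_le_mul_left h2 (by positivity)
  obtain ⟨S1, hS1⟩ : ∃ S1, S1 = Zt μ L (b ^ 4) s := ⟨_, rfl⟩
  obtain ⟨S2, hS2⟩ : ∃ S2, S2 = Zt μ L (b ^ 4) (fun U => s U ^ 2) := ⟨_, rfl⟩
  have hS1b : b * S1 ≤ 2 * Z := by
    have h1 : S1 ≤ Zt μ L (b ^ 4) (fun U => b⁻¹ * 1 + b ^ 3 * s U ^ 4) := by
      rw [hS1]
      exact Zt_mono μ hsc (continuous_const.add (continuous_const.mul (hsc.pow 4)))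
        fun U => s_le hb0 (hs0 U)
    have h2 : Zt μ L (b ^ 4) (fun U => b⁻¹ * 1 + b ^ 3 * s U ^ 4) =
        Zt μ L (b ^ 4) (fun _ : Ed (e + 3) (2 * m) → G => b⁻¹ * 1) +
        Zt μ L (b ^ 4) (fun U => b ^ 3 * s U ^ 4) :=
      Zt_add μ continuous_const (continuous_const.mul (hsc.pow 4))
    rw [h2, Zt_smul, Zt_smul, ← hZ, ← hS4] at h1
    have h3 : b * (b⁻¹ * Z + b ^ 3 * S4) = Z + b ^ 4 * S4 := by
      field_simp
    calc b * S1 ≤ b * (b⁻¹ * Z + b ^ 3 * S4) := mul_le_mul_of_nonneg_left h1 hb0.le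
      _ = Z + b ^ 4 * S4 := h3
      _ ≤ _ := by linarith
  have hS2b : b ^ 2 * S2 ≤ 2 * Z := by
    have h1 : S2 ≤ Zt μ L (b ^ 4) (fun U => (b⁻¹) ^ 2 * 1 + b ^ 2 * s U ^ 4) := by
      rw [hS2]
      exact Zt_mono μ (hsc.pow 2) (continuous_const.add (continuous_const.mul (hsc.pow 4)))
        fun U => s_sq_le hb0 (hs0 U)
    have h2 : Zt μ L (b ^ 4) (fun U => (b⁻¹) ^ 2 * 1 + b ^ 2 * s U ^ 4) =
        Zt μ L (b ^ 4) (fun _ : Ed (e + 3) (2 * m) → G => (b⁻¹) ^ 2 * 1) +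
        Zt μ L (b ^ 4) (fun U => b ^ 2 * s U ^ 4) :=
      Zt_add μ continuous_const (continuous_const.mul (hsc.pow 4))
    rw [h2, Zt_smul, Zt_smul, ← hZ, ← hS4] at h1
    have h3 : b ^ 2 * ((b⁻¹) ^ 2 * Z + b ^ 2 * S4) = Z + b ^ 4 * S4 := by
      field_simp
    calc b ^ 2 * S2 ≤ b ^ 2 * ((b⁻¹) ^ 2 * Z + b ^ 2 * S4) :=
          mul_le_mul_of_nonneg_left h1 (by positivity)
      _ = Z + b ^ 4 * S4 := h3
      _ ≤ _ := by linarith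
  -- directions
  obtain ⟨τ, hτ⟩ : ∃ τ : Fin (e + 3), τ = Fin.last _ := ⟨_, rfl⟩
  have h0τ : (0 : Fin (e + 3)) ≠ τ := by
    rw [hτ]; intro h; have := congrArg Fin.val h; simp at this
  have h1τ : (1 : Fin (e + 3)) ≠ τ := by
    rw [hτ]; intro h; have := congrArg Fin.val h; simp at this
  have h10 : (1 : Fin (e + 3)) ≠ 0 := by
    intro h; have := congrArg Fin.val h; simp at this
  have h01 : (0 : Fin (e + 3)) < 1 := by
    rw [Fin.lt_def]; simp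
  have hτmax : ∀ i, i ≤ τ := fun i => by rw [hτ]; exact Fin.le_last i
  obtain ⟨y, hy⟩ : ∃ y : ℝ, y = x ^ (3 * e + 5) := ⟨_, rfl⟩
  have hy0 : 0 < y := by rw [hy]; positivity
  obtain ⟨σ, hσ⟩ : ∃ σ : ℝ, σ = b ^ 2 / Real.sqrt y := ⟨_, rfl⟩
  have hσ0 : 0 < σ := by rw [hσ]; exact div_pos (by positivity) (Real.sqrt_pos.2 hy0)
  have hσ2 : σ ^ 2 * y = b ^ 4 := by
    rw [hσ, div_pow, Real.sq_sqrt hy0.le]
    field_simp
  have hObs : (Obs L b q : Sm L (Ed (e + 3) (2 * m))) = Fo L σ (Kq (4 * q) 0 τ 0) 1 0 := by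
    unfold Obs
    rw [hσ, hy, hτ, hx]
  rw [← hτ, hObs]
  constructor
  · -- variance
    intro c
    obtain ⟨A, hA⟩ : ∃ A : (Fin (e + 3) → ZMod (2 * m)) → ℝ, A = Aq (4 * q) := ⟨_, rfl⟩
    have hAS : AS (1 : Fin (e + 3)) 0 (8 * q + 1) A := by
      rw [hA]; exact AS_Aq h01 (by omega) (by omega)
    have hAle : ∀ z, |A z| ≤ ((4 * q : ℕ) : ℝ) ^ (e + 3) := fun z => by rw [hA]; exact Aq_le _ _
    obtain ⟨K', hK'⟩ : ∃ K' : (Fin (e + 3) → ZMod (2 * m)) → ℝ, K' = Kq (4 * q) 0 τ (4 * q) :=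
      ⟨_, rfl⟩
    have hKb : ∀ z, K' z ≠ 0 → ∀ i, wv z i < 8 * q + 1 := fun z hz i => by
      rw [hK'] at hz
      have := (Kq_ne hz i).1
      split_ifs at this <;> omega
    obtain ⟨lam, hlam⟩ : ∃ lam : ℝ, lam = ∑ z, K' z * (A (z + eT 0) - A z) := ⟨_, rfl⟩
    have hlamb : x ^ (3 * e + 6) ≤ lam := by
      rw [hlam, hK', hA, hx]
      exact est_lam h0τ hl
    have hlam0 : 0 < lam := lt_of_lt_of_le (by positivity) hlamb
    obtain ⟨κ2, hκ2⟩ : ∃ κ2 : ℝ, κ2 = (∑ z, |K' z|) * (((4 * q : ℕ) : ℝ) ^ (e + 3) *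
      (2 * (((e + 3 : ℕ) : ℝ) * ((8 * q + 1 : ℕ) : ℝ) + 1))) := ⟨_, rfl⟩
    have hκ20 : 0 ≤ κ2 := by
      rw [hκ2]
      exact mul_nonneg (Finset.sum_nonneg fun _ _ => abs_nonneg _) (by positivity)
    have hκ2b : κ2 ≤ k2 * x ^ (3 * e + 9) := by
      rw [hκ2, hK', hk2, hD, hx]
      exact est_2 hq 0 τ
    obtain ⟨κ', hκ'⟩ : ∃ κ' : ℝ, κ' = 2 * ((e + 3 : ℕ) : ℝ) * nS A *
      (4 * (((4 * q : ℕ) : ℝ) ^ (e + 3)) ^ 2 * (((e + 3 : ℕ) : ℝ) * ((8 * q + 1 : ℕ) : ℝ) + 1)) :=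
      ⟨_, rfl⟩
    have hκ'b : κ' ≤ k3 * x ^ (3 * e + 10) := by
      rw [hκ', hA, hk3, hD, hx]
      exact est_3 hq
    have hS10 : 0 ≤ S1 := by rw [hS1]; exact Zt_nonneg μ hs0
    have hEA : EA A 1 ≤ k4 * x ^ (3 * e + 7) := by
      rw [hA, hk4, hD, hx]
      exact est_4 hl 1
    have hΛ2 : b ^ 4 * x ^ (3 * e + 7) ≤ (σ * lam) ^ 2 := by
      have h1 : (x ^ (3 * e + 6)) ^ 2 ≤ lam ^ 2 := pow_le_pow_left₀ (by positivity) hlamb 2
      have h2 : b ^ 4 * x ^ (3 * e + 7) = σ ^ 2 * (x ^ (3 * e + 6)) ^ 2 := by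
        rw [← hσ2, hy]; ring
      rw [h2, mul_pow]
      exact mul_le_mul_of_nonneg_left h1 (by positivity)
    have hv := var_low μ hn (β := b ^ 4) (by positivity) (fun α => Vf L A 1 α)
      (fun α F => I_Vf μ α F) (fun α F => Vf_sexp α F)
      (fun a => σ • PhS L K' 1 0 a) (Λ := σ * lam) (κ := σ * κ2) (κ' := κ')
      (Q := EA A 1) (C1 := C1) (by positivity) (by positivity) hC11 hsc hs0
      (fun U α a => by
        have h1 := V_Ph_bound (L := L) hAS hAle hKb (k := 0) h10.symm α a U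
        rw [← hlam, ← hκ2, ← hs] at h1
        have h2 : (Vf L A 1 α (σ • PhS L K' 1 0 a)).1 U = σ * (Vf L A 1 α (PhS L K' 1 0 a)).1 U := by
          rw [Derivation.map_smul]; rfl
        rw [h2]
        have h3 : σ * (Vf L A 1 α (PhS L K' 1 0 a)).1 U - (if α = a then σ * lam else 0) =
            σ * ((Vf L A 1 α (PhS L K' 1 0 a)).1 U - (if α = a then lam else 0)) := by
          split_ifs <;> ring
        rw [h3, abs_mul, abs_of_pos hσ0, mul_assoc]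
        exact mul_le_mul_of_nonneg_left h1 hσ0.le)
      (fun U α => by
        have h1 := VV_bound (L := L) hAS hAle α U
        rw [← hκ', ← hs] at h1
        exact h1)
      (by
        rw [← hZ, ← hS1]
        have h1 : κ' * S1 ≤ x ^ (3 * e + 7) * Z := by
          have h2 : κ' * S1 ≤ k3 * x ^ (3 * e + 10) * S1 := mul_le_mul_of_nonneg_right hκ'b hS10
          have h3 := par (2 * k3) 3 (by positivity) (by
            rw [hC2]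
            have h1 : 0 ≤ 128 * C1 * (n : ℝ) ^ 2 * k2 := by positivity
            have h2 : 0 ≤ 6 * (n : ℝ) * kL ^ 2 * C0 := by positivity
            linarith) (by omega)
          have h4 : b * (k3 * x ^ (3 * e + 10) * S1) ≤ b * (x ^ (3 * e + 7) * Z) := by
            calc b * (k3 * x ^ (3 * e + 10) * S1) = k3 * x ^ (3 * e + 10) * (b * S1) := by ring
              _ ≤ k3 * x ^ (3 * e + 10) * (2 * Z) :=
                  mul_le_mul_of_nonneg_left hS1b (by positivity)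
              _ = (2 * k3 * x ^ 3) * (x ^ (3 * e + 7) * Z) := by ring
              _ ≤ b * (x ^ (3 * e + 7) * Z) := mul_le_mul_of_nonneg_right h3 (by positivity)
          exact h2.trans (le_of_mul_le_mul_left h4 hb0)
        have h5 : EA A 1 * Z ≤ k4 * x ^ (3 * e + 7) * Z := mul_le_mul_of_nonneg_right hEA hZ0.le
        calc n * b ^ 4 * (EA A 1 * Z + κ' * S1) ≤
            n * b ^ 4 * (k4 * x ^ (3 * e + 7) * Z + x ^ (3 * e + 7) * Z) :=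
              mul_le_mul_of_nonneg_left (add_le_add h5 h1) (by positivity)
          _ = C1 * (b ^ 4 * x ^ (3 * e + 7)) * Z := by rw [hC1]; ring
          _ ≤ C1 * (σ * lam) ^ 2 * Z := by
              refine mul_le_mul_of_nonneg_right ?_ hZ0.le
              exact mul_le_mul_of_nonneg_left hΛ2 (by linarith))
      (by
        rw [← hZ, ← hS1]
        have h3 := par (128 * C1 * n ^ 2 * k2) 3 (by positivity) (by
            rw [hC2]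
            have h2 : 0 ≤ 6 * (n : ℝ) * kL ^ 2 * C0 := by positivity
            linarith) (by omega)
        have h4 : 128 * C1 * n ^ 2 * κ2 ≤ b * lam := by
          calc 128 * C1 * n ^ 2 * κ2 ≤ 128 * C1 * n ^ 2 * (k2 * x ^ (3 * e + 9)) :=
                mul_le_mul_of_nonneg_left hκ2b (by positivity)
            _ = (128 * C1 * n ^ 2 * k2 * x ^ 3) * x ^ (3 * e + 6) := by ring
            _ ≤ b * lam := mul_le_mul h3 hlamb (by positivity) hb0.le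
        have h5 : b * (2 * n ^ 2 * (σ * κ2) * S1) ≤ b * (1 / (32 * C1) * (σ * lam) * Z) := by
          have hC1p : 0 < C1 := by linarith
          calc b * (2 * n ^ 2 * (σ * κ2) * S1) = 2 * n ^ 2 * (σ * κ2) * (b * S1) := by ring
            _ ≤ 2 * n ^ 2 * (σ * κ2) * (2 * Z) := mul_le_mul_of_nonneg_left hS1b (by positivity)
            _ = 1 / (32 * C1) * σ * Z * (128 * C1 * n ^ 2 * κ2) := by field_simp; ring
            _ ≤ 1 / (32 * C1) * σ * Z * (b * lam) := mul_le_mul_of_nonneg_left h4 (by positivity)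
            _ = _ := by ring
        exact le_of_mul_le_mul_left h5 hb0)
      (by
        rw [← hZ, ← hS2]
        have h3 := par (128 * C1 * n ^ 2 * k2) 3 (by positivity) (by
            rw [hC2]
            have h2 : 0 ≤ 6 * (n : ℝ) * kL ^ 2 * C0 := by positivity
            linarith) (by omega)
        have h4 : 2 * n ^ 2 * κ2 ≤ b * lam := by
          have h6 : 2 * n ^ 2 * k2 * x ^ 3 ≤ 128 * C1 * n ^ 2 * k2 * x ^ 3 := by
            have : 0 ≤ (n : ℝ) ^ 2 * k2 * x ^ 3 := by positivity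
            nlinarith
          calc 2 * n ^ 2 * κ2 ≤ 2 * n ^ 2 * (k2 * x ^ (3 * e + 9)) :=
                mul_le_mul_of_nonneg_left hκ2b (by positivity)
            _ = (2 * n ^ 2 * k2 * x ^ 3) * x ^ (3 * e + 6) := by ring
            _ ≤ b * lam := mul_le_mul (h6.trans h3) hlamb (by positivity) hb0.le
        have h7 : (2 * n ^ 2 * κ2) ^ 2 ≤ (b * lam) ^ 2 := pow_le_pow_left₀ (by positivity) h4 2
        have h5 : b ^ 2 * (n ^ 4 * (σ * κ2) ^ 2 * S2) ≤ b ^ 2 * ((σ * lam) ^ 2 * Z) := by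
          calc b ^ 2 * (n ^ 4 * (σ * κ2) ^ 2 * S2) = n ^ 4 * (σ * κ2) ^ 2 * (b ^ 2 * S2) := by ring
            _ ≤ n ^ 4 * (σ * κ2) ^ 2 * (2 * Z) := mul_le_mul_of_nonneg_left hS2b (by positivity)
            _ = 1 / 2 * (σ ^ 2 * Z * (2 * n ^ 2 * κ2) ^ 2) := by ring
            _ ≤ 1 / 2 * (σ ^ 2 * Z * (b * lam) ^ 2) := by gcongr
            _ ≤ σ ^ 2 * Z * (b * lam) ^ 2 := by
                have : 0 ≤ σ ^ 2 * Z * (b * lam) ^ 2 := by positivity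
                linarith
            _ = _ := by ring
        exact le_of_mul_le_mul_left h5 (by positivity)) c
    rw [← hZ] at hv
    refine hv.trans (le_of_eq ?_)
    have hF : (rad (fun a => σ • PhS L K' 1 0 a) 1 one_pos : Sm L (Ed (e + 3) (2 * m))) =
        Fo L σ K' 1 0 := rfl
    rw [hF, hK']
    have h8 : (fun U : Ed (e + 3) (2 * m) → G => ((Fo L σ (Kq (4 * q) 0 τ (4 * q)) 1 0).1 U - c) ^ 2) =
        fun U => ((Fo L σ (Kq (4 * q) 0 τ 0) 1 0).1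
          (tr (ct (2 * m) (st τ (4 * q))) U) - c) ^ 2 := by
      funext U
      rw [Fo_shift hτmax (by omega)]
    rw [h8]
    exact Zt_tr μ (b ^ 4) (ct (2 * m) (st τ (4 * q)))
      (fun U => ((Fo L σ (Kq (4 * q) 0 τ 0) 1 0).1 U - c) ^ 2)
  · -- variation in time
    have hKS : KS τ (8 * q + 1) (Kq (l := 2 * m) (4 * q) 0 τ 0) :=
      KS_Kq (by omega) (by omega) (by omega)
    have h1 := layer_bound μ (L := L) hm2 hKS (by omega) h1τ h0τ h10 (β := b ^ 4)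
      (by positivity) σ
    rw [← hZ, ← hs, ← hS4] at h1
    refine h1.trans ?_
    have hE2 : E2 (Kq (l := 2 * m) (4 * q) 0 τ 0) 1 0 ≤ k5 * x ^ (3 * e + 4) := by
      rw [hk5, hx]
      exact est_5 h0τ h1τ hl
    obtain ⟨κL, hκL⟩ : ∃ κL : ℝ, κL = (∑ z : Fin (e + 3) → ZMod (2 * m), |Kq (4 * q) 0 τ 0 z|) *
      (36 * (((e + 3 : ℕ) : ℝ) * ((8 * q + 1 : ℕ) : ℝ) + 1) ^ 2) := ⟨_, rfl⟩
    have hκL0 : 0 ≤ κL := by
      rw [hκL]
      exact mul_nonneg (Finset.sum_nonneg fun _ _ => abs_nonneg _) (by positivity)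
    have hκLb : κL ≤ kL * x ^ (2 * e + 6) := by
      rw [hκL, hkL, hD, hx]
      exact est_L hq 0 τ
    rw [← hκL]
    have h2 : σ ^ 2 * n * (2 / b ^ 4 * E2 (Kq (l := 2 * m) (4 * q) 0 τ 0) 1 0 * Z) ≤
        2 * n * k5 / x * Z := by
      have h3 : σ ^ 2 * n * (2 / b ^ 4 * E2 (Kq (l := 2 * m) (4 * q) 0 τ 0) 1 0 * Z) ≤
          σ ^ 2 * n * (2 / b ^ 4 * (k5 * x ^ (3 * e + 4)) * Z) := by gcongr
      refine h3.trans (le_of_eq ?_)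
      have h4 : σ ^ 2 = b ^ 4 / y := by rw [← hσ2]; field_simp
      rw [h4, hy]
      have h5 : x ^ (3 * e + 5) = x ^ (3 * e + 4) * x := by ring
      rw [h5]
      field_simp
    have h6 : σ ^ 2 * n * (6 * κL ^ 2 * S4) ≤ 1 / x * Z := by
      have h7 := par2 (6 * n * kL ^ 2 * C0) (5 * e + 20) (by positivity) (by
            rw [hC2]
            have h2 : 0 ≤ 128 * C1 * (n : ℝ) ^ 2 * k2 := by positivity
            linarith) (by omega)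
      have h8 : (x * y * b ^ 2) * (σ ^ 2 * n * (6 * κL ^ 2 * S4)) ≤
          (x * y * b ^ 2) * (1 / x * Z) := by
        calc (x * y * b ^ 2) * (σ ^ 2 * n * (6 * κL ^ 2 * S4)) =
            x * (σ ^ 2 * y) * b ^ 2 * n * 6 * κL ^ 2 * S4 := by ring
          _ = 6 * n * x * κL ^ 2 * (b ^ 6 * S4) := by rw [hσ2]; ring
          _ ≤ 6 * n * x * (kL * x ^ (2 * e + 6)) ^ 2 * (C0 * x ^ (4 * e + 12) * Z) := by gcongr
          _ = (6 * n * kL ^ 2 * C0 * x ^ (5 * e + 20)) * (y * Z) := by rw [hy]; ring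
          _ ≤ b ^ 2 * (y * Z) := mul_le_mul_of_nonneg_right h7 (by positivity)
          _ = _ := by field_simp
      exact le_of_mul_le_mul_left h8 (by positivity)
    calc σ ^ 2 * n * (2 / b ^ 4 * E2 (Kq (l := 2 * m) (4 * q) 0 τ 0) 1 0 * Z + 6 * κL ^ 2 * S4) =
        σ ^ 2 * n * (2 / b ^ 4 * E2 (Kq (l := 2 * m) (4 * q) 0 τ 0) 1 0 * Z) +
          σ ^ 2 * n * (6 * κL ^ 2 * S4) := by ring
      _ ≤ 2 * n * k5 / x * Z + 1 / x * Z := add_le_add h2 h6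
      _ = _ := by ring

end

end Pool.Agent.W793.YM
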