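import Mathlib
import Pool.Agent.W793.YM.Core

/-!
# Logarithmic convexity of time correlations
-/

open MeasureTheory Matrix
open scoped Matrix.Norms.Frobenius ContDiff
open Pool.Agent.H906R3.YM

namespace Pool.Agent.W793.YM

set_option linter.unusedSectionVars false
set_option linter.unusedVariables false

noncomputable section

variable {G : Type*} [Group G] [TopologicalSpace G] [IsTopologicalGroup G] [CompactSpace G]
  [SecondCountableTopology G] [MeasurableSpace G] [BorelSpace G] (μ : Measure G)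
  [IsProbabilityMeasure μ] [μ.IsMulLeftInvariant] [μ.IsMulRightInvariant] [μ.IsInvInvariant]
  {N n : ℕ} {L : LD G N n} {d m : ℕ} [NeZero m] {τ : Fin d}

/-- dependence only on the spatial links at time `0` -/
def Sp {l : ℕ} (τ : Fin d) (F : (Ed d l → G) → ℝ) : Prop := ∀ U U', SA τ U U' → F U = F U'

/-- the vector `z` in the time direction -/
def sv {l : ℕ} (τ : Fin d) (z : ZMod l) : Fin d → ZMod l := Pi.single τ z

lemma sv_add {l : ℕ} (a b : ZMod l) : sv τ (a + b) = sv τ a + sv τ b := by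
  funext j
  by_cases hj : j = τ
  · subst hj; simp [sv]
  · simp [sv, hj]

lemma sv_one {l : ℕ} : sv τ (1 : ZMod l) = eT τ := by
  unfold sv eT; rfl

lemma tr_tr {l : ℕ} [NeZero l] (z w : Fin d → ZMod l) (U : Ed d l → G) :
    tr z (tr w U) = tr (z + w) U := by
  funext e
  unfold tr
  simp only [add_assoc]

lemma tr_zero {l : ℕ} [NeZero l] (U : Ed d l → G) : tr 0 U = U := by
  funext e
  unfold tr
  simp only [add_zero]

lemma sp_refl (hm : 2 ≤ m) {F : (Ed d (2 * m) → G) → ℝ} (hF : Sp τ F) (k : ZMod (2 * m))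
    (U : Ed d (2 * m) → G) :
    F (tr (sv τ k) ((TR hm τ).tU U)) = F (tr (sv τ (1 - k)) U) := by
  refine hF _ _ fun x i hx hi => ?_
  unfold tr
  simp only
  rw [tU_ne _ _ hi]
  congr 2
  unfold rA sv
  funext j
  by_cases hj : j = τ
  · subst hj
    simp [hx]
  · simp [hj]

lemma sp_dep (hm : 2 ≤ m) {F : (Ed d (2 * m) → G) → ℝ} (hF : Sp τ F) {k : ZMod (2 * m)}
    (hk : H1 m k) : Dep (TR hm τ).R fun U => F (tr (sv τ k) U) := by
  intro U U' h
  refine hF _ _ fun x i hx hi => ?_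
  unfold tr
  refine h _ ?_
  show if i = τ then _ else _
  rw [if_neg hi]
  have h1 : (x + sv τ k : Fin d → ZMod (2 * m)) τ = k := by
    simp [sv, hx]
  simp only [h1]
  exact hk

lemma sp_fix {F : (Ed d (2 * m) → G) → ℝ} (hF : Sp τ F) (k : ZMod (2 * m))
    (U : Ed d (2 * m) → G) : F (tr (sv τ k) (fix τ U)) = F (tr (sv τ k) U) := by
  refine hF _ _ fun x i hx hi => ?_
  unfold tr
  exact fix_ne _ _ hi

lemma GI_tr {l : ℕ} [NeZero l] {F : (Ed d l → G) → ℝ} (hF : GI F) (z : Fin d → ZMod l) :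
    GI fun U => F (tr z U) := hF.tr z

variable (L) in
/-- the correlation function -/
def cor {l : ℕ} [NeZero l] (β : ℝ) (τ : Fin d) (F : (Ed d l → G) → ℝ) (z : ZMod l) : ℝ :=
  Zt μ L β (fun U => F U * F (tr (sv τ z) U))

lemma cor_tr {l : ℕ} [NeZero l] (β : ℝ) (F : (Ed d l → G) → ℝ) (a b : ZMod l) :
    Zt μ L β (fun U => F (tr (sv τ a) U) * F (tr (sv τ b) U)) = cor μ L β τ F (b - a) := by
  unfold cor
  rw [← Zt_tr μ β (sv τ a) (fun U => F U * F (tr (sv τ (b - a)) U))]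
  congr 1
  funext U
  rw [tr_tr, ← sv_add, sub_add_cancel]

theorem cor_cs (hm : 2 ≤ m) {β : ℝ} (hβ : 0 ≤ β) {F : (Ed d (2 * m) → G) → ℝ}
    (hc : Continuous F) (hg : GI F) (hF : Sp τ F) {j k : ZMod (2 * m)} (hj : H1 m j)
    (hk : H1 m k) :
    cor μ L β τ F (k + j - 1) ^ 2 ≤ cor μ L β τ F (2 * j - 1) * cor μ L β τ F (2 * k - 1) := by
  obtain ⟨c, hc0, hred⟩ := Zt_red μ (L := L) hm τ β
  have key : ∀ a b : ZMod (2 * m), H1 m a → H1 m b →
      cor μ L β τ F (a + b - 1) = c * (TR hm τ).B μ L β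
        (fun U => F (tr (sv τ a) U) * (wR L β m τ).1 U)
        (fun U => F (tr (sv τ b) U) * (wR L β m τ).1 U) := by
    intro a b ha hb
    have h1 : cor μ L β τ F (a + b - 1) =
        Zt μ L β (fun U => F (tr (sv τ (1 - b)) U) * F (tr (sv τ a) U)) := by
      rw [cor_tr]; congr 1; ring
    have hcc : Continuous fun U : Ed d (2 * m) → G =>
        F (tr (sv τ (1 - b)) U) * F (tr (sv τ a) U) :=
      (hc.comp (tr_cont _)).mul (hc.comp (tr_cont _))
    have hgg : GI fun U : Ed d (2 * m) → G => F (tr (sv τ (1 - b)) U) * F (tr (sv τ a) U) :=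
      fun γ U => by
        have e1 : F (tr (sv τ (1 - b)) (gt γ U)) = F (tr (sv τ (1 - b)) U) :=
          GI_tr hg (sv τ (1 - b)) γ U
        have e2 : F (tr (sv τ a) (gt γ U)) = F (tr (sv τ a) U) := GI_tr hg (sv τ a) γ U
        show F _ * F _ = F _ * F _
        rw [e1, e2]
    rw [h1, hred _ hcc hgg]
    congr 1
    unfold Refl.Ew Refl.B
    refine integral_congr_ae (Filter.Eventually.of_forall fun U => ?_)
    simp only
    rw [sp_fix hF, sp_fix hF, sp_refl hm hF]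
    ring
  have hcont : ∀ a : ZMod (2 * m), Continuous fun U : Ed d (2 * m) → G =>
      F (tr (sv τ a) U) * (wR L β m τ).1 U := fun a => (hc.comp (tr_cont _)).mul (Sm_cont _)
  have hdep : ∀ a : ZMod (2 * m), H1 m a → Dep (TR hm τ).R fun U : Ed d (2 * m) → G =>
      F (tr (sv τ a) U) * (wR L β m τ).1 U := fun a ha U U' h => by
    have e1 := sp_dep hm hF ha U U' h
    have e2 := wR_dep (L := L) hm β τ U U' h
    show F (tr (sv τ a) U) * _ = F (tr (sv τ a) U') * _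
    simp only at e1
    rw [e1, e2]
  have h1 := (TR hm τ).B_cs μ (L := L) hβ (hcont k) (hdep k hk) (hcont j) (hdep j hj)
  have e1 : (2 * j - 1 : ZMod (2 * m)) = j + j - 1 := by ring
  have e2 : (2 * k - 1 : ZMod (2 * m)) = k + k - 1 := by ring
  rw [e1, e2, key k j hk hj, key j j hj hj, key k k hk hk]
  have h2 : (c * (TR hm τ).B μ L β (fun U => F (tr (sv τ k) U) * (wR L β m τ).1 U)
      (fun U => F (tr (sv τ j) U) * (wR L β m τ).1 U)) ^ 2 = c ^ 2 *
      ((TR hm τ).B μ L β (fun U => F (tr (sv τ k) U) * (wR L β m τ).1 U)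
      (fun U => F (tr (sv τ j) U) * (wR L β m τ).1 U)) ^ 2 := by ring
  rw [h2]
  calc _ ≤ c ^ 2 * _ := mul_le_mul_of_nonneg_left h1 (sq_nonneg c)
    _ = _ := by ring

lemma H1_nat {k : ℕ} (h1 : 1 ≤ k) (h2 : k ≤ m) (hm : 2 ≤ m) : H1 m (k : ZMod (2 * m)) := by
  unfold H1
  rw [val_nat (by omega)]
  exact ⟨h1, h2⟩

/-- growth of logarithmically convex sequences -/
lemma logconv {a : ℕ → ℝ} {m : ℕ} {V r : ℝ} (hr : 0 < r) (hV : 0 < V)
    (h : ∀ k, 1 ≤ k → k + 2 ≤ m → a (k + 1) ^ 2 ≤ a k * a (k + 2)) (h1 : r * V ≤ a 1)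
    (h1' : a 1 ≤ V) (h2 : r * V ≤ a 2) : ∀ k, 1 ≤ k → k ≤ m → r ^ k * V ≤ a k := by
  have key : ∀ k, 1 ≤ k → k + 1 ≤ m → r ^ k * V ≤ a k ∧ r * a k ≤ a (k + 1) := by
    intro k hk
    induction k, hk using Nat.le_induction with
    | base =>
      intro _
      rw [pow_one]
      exact ⟨h1, (mul_le_mul_of_nonneg_left h1' hr.le).trans h2⟩
    | succ k hk ih =>
      intro hkm
      obtain ⟨i1, i2⟩ := ih (by omega)
      have hpos : 0 < a k := lt_of_lt_of_le (by positivity) i1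
      have hpos' : 0 < a (k + 1) := lt_of_lt_of_le (by positivity) i2
      refine ⟨?_, ?_⟩
      · calc r ^ (k + 1) * V = r * (r ^ k * V) := by ring
          _ ≤ r * a k := mul_le_mul_of_nonneg_left i1 hr.le
          _ ≤ _ := i2
      · have h3 := h k hk (by omega)
        have h4 : a k * (r * a (k + 1)) ≤ a k * a (k + 2) := by
          calc a k * (r * a (k + 1)) = (r * a k) * a (k + 1) := by ring
            _ ≤ a (k + 1) * a (k + 1) := mul_le_mul_of_nonneg_right i2 hpos'.le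
            _ = a (k + 1) ^ 2 := by ring
            _ ≤ _ := h3
        exact le_of_mul_le_mul_left h4 hpos
  intro k hk hkm
  rcases Nat.lt_or_ge k m with h3 | h3
  · exact (key k hk h3).1
  · rcases Nat.lt_or_ge k 2 with h4 | h4
    · have : k = 1 := by omega
      subst this; rw [pow_one]; exact h1
    · obtain ⟨j, rfl⟩ : ∃ j, k = j + 1 := ⟨k - 1, by omega⟩
      have h5 := key j (by omega) (by omega)
      calc r ^ (j + 1) * V = r * (r ^ j * V) := by ring
        _ ≤ r * a j := mul_le_mul_of_nonneg_left h5.1 hr.le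
        _ ≤ _ := h5.2

lemma cor_zero {l : ℕ} [NeZero l] (β : ℝ) (F : (Ed d l → G) → ℝ) :
    cor μ L β τ F 0 = Zt μ L β (fun U => F U ^ 2) := by
  unfold cor
  congr 1
  funext U
  have : sv τ (0 : ZMod l) = 0 := Pi.single_zero τ
  rw [this, tr_zero, pow_two]

lemma Zt_sub_sq {l : ℕ} [NeZero l] (β : ℝ) {F H : (Ed d l → G) → ℝ} (hF : Continuous F)
    (hH : Continuous H) : Zt μ L β (fun U => (F U - H U) ^ 2) = Zt μ L β (fun U => F U ^ 2) -
      2 * Zt μ L β (fun U => H U * F U) + Zt μ L β (fun U => H U ^ 2) := by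
  have h1 : (fun U : Ed d l → G => (F U - H U) ^ 2) =
      fun U => (F U ^ 2 + (-2) * (H U * F U)) + H U ^ 2 := by
    funext U; ring
  have c1 : Continuous fun U : Ed d l → G => F U ^ 2 := hF.pow 2
  have c2 : Continuous fun U : Ed d l → G => (-2) * (H U * F U) :=
    continuous_const.mul (hH.mul hF)
  have c3 : Continuous fun U : Ed d l → G => H U ^ 2 := hH.pow 2
  have c4 : Continuous fun U : Ed d l → G => F U ^ 2 + (-2) * (H U * F U) := c1.add c2
  rw [h1, Zt_add μ c4 c3, Zt_add μ c1 c2, Zt_smul]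
  ring

lemma cor_diff {l : ℕ} [NeZero l] (β : ℝ) {F : (Ed d l → G) → ℝ} (hF : Continuous F)
    (z : ZMod l) : cor μ L β τ F z = Zt μ L β (fun U => F U ^ 2) -
      1 / 2 * Zt μ L β (fun U => (F (tr (sv τ z) U) - F U) ^ 2) := by
  have c1 : Continuous fun U : Ed d l → G => F (tr (sv τ z) U) := hF.comp (tr_cont _)
  rw [Zt_sub_sq μ β c1 hF, Zt_tr μ β (sv τ z) (fun U => F U ^ 2)]
  unfold cor
  ring

lemma diff_three {l : ℕ} [NeZero l] (β : ℝ) {F : (Ed d l → G) → ℝ} (hF : Continuous F) :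
    Zt μ L β (fun U => (F (tr (sv τ 3) U) - F U) ^ 2) ≤
      9 * Zt μ L β (fun U => (F (tr (eT τ) U) - F U) ^ 2) := by
  obtain ⟨D, hD⟩ : ∃ D : (Ed d l → G) → ℝ, D = fun U => (F (tr (eT τ) U) - F U) ^ 2 := ⟨_, rfl⟩
  have hDc : Continuous D := by
    rw [hD]; exact ((hF.comp (tr_cont _)).sub hF).pow 2
  have h2 : ∀ k : ZMod l, Zt μ L β (fun U => D (tr (sv τ k) U)) = Zt μ L β D := fun k =>
    Zt_tr μ β _ _
  have h3 : ∀ U, (F (tr (sv τ 3) U) - F U) ^ 2 ≤
      3 * (D (tr (sv τ 2) U) + D (tr (sv τ 1) U) + D U) := by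
    intro U
    have e2 : D (tr (sv τ 2) U) = (F (tr (sv τ 3) U) - F (tr (sv τ 2) U)) ^ 2 := by
      rw [hD]
      simp only
      rw [tr_tr, ← sv_one, ← sv_add]
      norm_num
    have e1 : D (tr (sv τ 1) U) = (F (tr (sv τ 2) U) - F (tr (sv τ 1) U)) ^ 2 := by
      rw [hD]
      simp only
      rw [tr_tr, ← sv_one, ← sv_add]
      norm_num
    have e0 : D U = (F (tr (sv τ 1) U) - F U) ^ 2 := by
      rw [hD]
      simp only
      rw [← sv_one]
    rw [e2, e1, e0]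
    nlinarith [sq_nonneg ((F (tr (sv τ 3) U) - F (tr (sv τ 2) U)) -
      (F (tr (sv τ 2) U) - F (tr (sv τ 1) U))),
      sq_nonneg ((F (tr (sv τ 2) U) - F (tr (sv τ 1) U)) - (F (tr (sv τ 1) U) - F U)),
      sq_nonneg ((F (tr (sv τ 3) U) - F (tr (sv τ 2) U)) - (F (tr (sv τ 1) U) - F U))]
  have hDt : ∀ k : ZMod l, Continuous fun U => D (tr (sv τ k) U) := fun k => hDc.comp (tr_cont _)
  have hD21 : Continuous fun U => D (tr (sv τ 2) U) + D (tr (sv τ 1) U) := (hDt 2).add (hDt 1)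
  calc _ ≤ Zt μ L β (fun U => 3 * (D (tr (sv τ 2) U) + D (tr (sv τ 1) U) + D U)) :=
        Zt_mono μ (((hF.comp (tr_cont _)).sub hF).pow 2)
          (continuous_const.mul (hD21.add hDc)) h3
    _ = 3 * (Zt μ L β D + Zt μ L β D + Zt μ L β D) := by
        rw [Zt_smul, Zt_add μ hD21 hDc, Zt_add μ (hDt 2) (hDt 1), h2, h2]
    _ = _ := by rw [← hD]; ring

/-- lower bound of the correlations at odd distances -/
theorem corr_low (hm : 2 ≤ m) {β : ℝ} (hβ : 0 ≤ β) {F : (Ed d (2 * m) → G) → ℝ}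
    (hc : Continuous F) (hg : GI F) (hF : Sp τ F) {δ : ℝ} (hδ : 9 / 2 * δ < 1)
    (hV : 0 < Zt μ L β (fun U => F U ^ 2))
    (hd : Zt μ L β (fun U => (F (tr (eT τ) U) - F U) ^ 2) ≤ δ * Zt μ L β (fun U => F U ^ 2))
    {k : ℕ} (h1 : 1 ≤ k) (h2 : k ≤ m) :
    (1 - 9 / 2 * δ) ^ k * Zt μ L β (fun U => F U ^ 2) ≤
      Zt μ L β (fun U => F U * F (tr (sv τ ((2 * k - 1 : ℕ) : ZMod (2 * m))) U)) := by
  obtain ⟨V, hVV⟩ : ∃ V, V = Zt μ L β (fun U => F U ^ 2) := ⟨_, rfl⟩
  obtain ⟨D, hDD⟩ : ∃ D, D = Zt μ L β (fun U => (F (tr (eT τ) U) - F U) ^ 2) := ⟨_, rfl⟩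
  have hD0 : 0 ≤ D := by rw [hDD]; exact Zt_nonneg μ fun U => sq_nonneg _
  rw [← hVV] at hV hd ⊢
  rw [← hDD] at hd
  have hcast : ∀ k : ℕ, 1 ≤ k → ((2 * k - 1 : ℕ) : ZMod (2 * m)) = 2 * (k : ZMod (2 * m)) - 1 := by
    intro k hk
    rw [Nat.cast_sub (by omega)]
    push_cast; ring
  have key := logconv (a := fun k => cor μ L β τ F (2 * (k : ZMod (2 * m)) - 1)) (m := m)
    (V := V) (r := 1 - 9 / 2 * δ) (by linarith) hV (fun k hk hk2 => by
      have h3 := cor_cs μ (L := L) hm hβ hc hg hF (H1_nat (m := m) hk (by omega) hm)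
        (H1_nat (m := m) (k := k + 2) (by omega) hk2 hm)
      have e1 : (((k + 2 : ℕ) : ZMod (2 * m)) + (k : ZMod (2 * m)) - 1) =
          2 * ((k + 1 : ℕ) : ZMod (2 * m)) - 1 := by push_cast; ring
      rw [e1] at h3
      exact h3) (by
      have e1 : (2 * ((1 : ℕ) : ZMod (2 * m)) - 1) = 1 := by push_cast; ring
      simp only [e1]
      rw [cor_diff μ β hc, sv_one, ← hVV, ← hDD]
      linarith) (by
      have e1 : (2 * ((1 : ℕ) : ZMod (2 * m)) - 1) = 1 := by push_cast; ring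
      simp only [e1]
      rw [cor_diff μ β hc, sv_one, ← hVV, ← hDD]
      linarith) (by
      have e1 : (2 * ((2 : ℕ) : ZMod (2 * m)) - 1) = 3 := by push_cast; ring
      simp only [e1]
      rw [cor_diff μ β hc, ← hVV]
      have h3 := diff_three μ (L := L) (τ := τ) β hc
      rw [← hDD] at h3
      linarith) k h1 h2
  rw [hcast k h1]
  exact key

end

end Pool.Agent.W793.YM
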