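import Mathlib
import Pool.Agent.W793.YM.Corr

/-!
# The observable on the infinite lattice
-/

open MeasureTheory Matrix
open scoped Matrix.Norms.Frobenius ContDiff
open Pool.Agent.H906R3.YM

namespace Pool.Agent.W793.YM

set_option linter.unusedSectionVars false
set_option linter.unusedVariables false

noncomputable section

/-- links of the infinite lattice -/
abbrev Ez (d : ℕ) := (Fin d → ℤ) × Fin d

section maps

variable {d l : ℕ} {G : Type*} [Group G]

/-- nonnegative part of a configuration -/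
def zu (V : Ez d → G) : Pt d → Fin d → G := fun v k => V (fun i => (v i : ℤ), k)

/-- periodic extension -/
def lf (U : Ed d l → G) : Ez d → G := fun e => U (fun i => ((e.1 i : ℤ) : ZMod l), e.2)

/-- restriction to a fundamental domain -/
def rs [NeZero l] (V : Ez d → G) : Ed d l → G := fun e => V (fun i => ((e.1 i).val : ℤ), e.2)

lemma zu_lf (U : Ed d l → G) : zu (lf U) = uu U := by
  funext v k
  unfold zu lf uu ct
  simp

lemma lf_rs [NeZero l] (V : Ez d → G) {e : Ez d} (h : ∀ i, 0 ≤ e.1 i ∧ e.1 i < l) :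
    lf (rs (l := l) V) e = V e := by
  unfold lf rs
  congr 1
  refine Prod.ext ?_ rfl
  funext i
  obtain ⟨k, hk⟩ := Int.eq_ofNat_of_zero_le (h i).1
  have h2 : k < l := by have := (h i).2; omega
  simp only [hk, Int.cast_natCast]
  rw [ZMod.val_natCast_of_lt h2]

/-- two configurations which agree on a box -/
def Ab (M : ℕ) (V V' : Ez d → G) : Prop := ∀ e : Ez d, (∀ i, 0 ≤ e.1 i ∧ e.1 i < M) → V e = V' e

lemma Ab_rs [NeZero l] {M : ℕ} (hM : M ≤ l) (V : Ez d → G) : Ab M (lf (rs (l := l) V)) V :=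
  fun e h => lf_rs V fun i => ⟨(h i).1, lt_of_lt_of_le (h i).2 (by exact_mod_cast hM)⟩

lemma zu_Ab {M : ℕ} {V V' : Ez d → G} (h : Ab M V V') {v : Pt d} (hv : ∀ i, v i < M)
    (k : Fin d) : zu V v k = zu V' v k :=
  h _ fun i => ⟨Int.natCast_nonneg _, by
    show ((v i : ℕ) : ℤ) < M
    exact_mod_cast hv i⟩

/-- gauge transformation -/
def gz (γ : (Fin d → ℤ) → G) (V : Ez d → G) : Ez d → G :=
  fun e => γ e.1 * V e * (γ (e.1 + Pi.single e.2 1))⁻¹

lemma gz_Ab [NeZero l] {M : ℕ} (hM : M + 1 ≤ l) (γ : (Fin d → ℤ) → G) (V : Ez d → G) :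
    Ab M (gz γ V) (lf (gt (fun x => γ fun i => ((x i).val : ℤ)) (rs (l := l) V))) := by
  intro e h
  obtain ⟨v, hv⟩ : ∃ v : Pt d, e.1 = fun i => (v i : ℤ) :=
    ⟨fun i => (e.1 i).toNat, by funext i; rw [Int.toNat_of_nonneg (h i).1]⟩
  have hvM : ∀ i, v i < M := fun i => by
    have h5 := (h i).2
    rw [hv] at h5
    have h6 : ((v i : ℕ) : ℤ) < M := h5
    exact_mod_cast h6
  have e1 : (fun i => ((e.1 i : ℤ) : ZMod l)) = ct l v := by
    funext i; rw [hv]; simp [ct]
  have e2 : wv (ct l v) = v := wv_ct fun i => by have := hvM i; omega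
  have e3 : wv (ct l v + eT e.2) = v + es e.2 := by
    rw [wv_add (by rw [e2]; have := hvM e.2; omega), e2]
  unfold gz
  have h1 : lf (gt (fun x => γ fun i => ((x i).val : ℤ)) (rs (l := l) V)) e =
      γ (fun i => ((wv (ct l v) i : ℕ) : ℤ)) * V (fun i => ((wv (ct l v) i : ℕ) : ℤ), e.2) *
      (γ (fun i => ((wv (ct l v + eT e.2) i : ℕ) : ℤ)))⁻¹ := by
    rw [← e1]
    rfl
  rw [h1, e2, e3]
  have e4 : (fun i => (((v + es e.2) i : ℕ) : ℤ)) = e.1 + Pi.single e.2 1 := by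
    funext i
    rw [hv]
    by_cases hi : i = e.2
    · subst hi; simp [es]
    · simp [es, hi]
  rw [e4, ← hv]

/-- time shift -/
def tz (τ : Fin d) (t : ℕ) (V : Ez d → G) : Ez d → G :=
  fun e => V (e.1 + Pi.single τ (t : ℤ), e.2)

lemma tz_lf (τ : Fin d) (t : ℕ) (U : Ed d l → G) :
    tz τ t (lf U) = lf (tr (sv τ (t : ZMod l)) U) := by
  funext e
  unfold tz lf tr sv
  simp only
  congr 2
  funext i
  by_cases hi : i = τ
  · subst hi; simp
  · simp [hi]

end maps

variable {G : Type*} [Group G] [TopologicalSpace G] [IsTopologicalGroup G] [CompactSpace G]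
  [SecondCountableTopology G] [MeasurableSpace G] [BorelSpace G]
  {N n : ℕ} (L : LD G N n) {d l : ℕ}

/-- the flux on the infinite lattice -/
def PZ (R : ℕ) (ν τ : Fin d) (j k : Fin d) (a : Fin n) (V : Ez d → G) : ℝ :=
  ∑ v ∈ box d (2 * R), (∏ i, phK R ν τ 0 i (v i)) *
    fi L a (fr (zu V) v * plq (zu V) v j k * (fr (zu V) v)⁻¹)

/-- the observable on the infinite lattice -/
def FZ (σ : ℝ) (R : ℕ) (ν τ : Fin d) (j k : Fin d) (V : Ez d → G) : ℝ :=
  Real.sqrt (1 + σ ^ 2 * ∑ a, PZ L R ν τ j k a V ^ 2)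

variable {L}

lemma PZ_lf [NeZero l] {R : ℕ} (hR : 1 ≤ R) (hl : 2 * R ≤ l) (ν τ : Fin d) (j k : Fin d)
    (a : Fin n) (U : Ed d l → G) : PZ L R ν τ j k a (lf U) = Ph L (Kq R ν τ 0) j k a U := by
  unfold PZ Ph
  rw [zu_lf]
  obtain ⟨H, hH⟩ : ∃ H : Pt d → ℝ, H = fun v => (∏ i, phK R ν τ 0 i (v i)) *
    fi L a (fr (uu U) v * plq (uu U) v j k * (fr (uu U) v)⁻¹) := ⟨_, rfl⟩
  have h1 : ∀ x : Fin d → ZMod l, Kq R ν τ 0 x *
      fi L a (Pc U x * plqT U x j k * (Pc U x)⁻¹) = H (wv x) := by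
    intro x
    rw [hH]
    simp only
    rw [plq_uu, ct_wv]
    rfl
  have h2 : ∀ v : Pt d, v ∉ box d (2 * R) → H v = 0 := by
    intro v hv
    rw [mem_box] at hv
    push Not at hv
    obtain ⟨i, hi⟩ := hv
    rw [hH]
    simp only
    have h3 : phK R ν τ 0 i (v i) = 0 := by
      unfold phK
      split_ifs with c1 c2 c3
      · omega
      · rfl
      · unfold kn
        rw [Nat.cast_eq_zero]; omega
      · unfold tn
        rw [Nat.cast_eq_zero]; omega
    rw [Finset.prod_eq_zero (Finset.mem_univ i) h3, zero_mul]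
  rw [Finset.sum_congr rfl fun x _ => h1 x]
  have h4 : ∑ x : Fin d → ZMod l, H (wv x) = ∑ v ∈ box d l, H v := by
    refine Finset.sum_bij' (fun x _ => wv x) (fun v _ => ct l v) (fun x _ => ?_) (fun v _ => ?_)
      (fun x _ => ?_) (fun v hv => ?_) (fun x _ => rfl)
    · exact mem_box.2 (wv_lt x)
    · exact Finset.mem_univ _
    · exact ct_wv x
    · exact wv_ct (mem_box.1 hv)
  rw [h4]
  have h5 : box d (2 * R) ⊆ box d l := fun v hv => by
    rw [mem_box] at hv ⊢
    exact fun i => lt_of_lt_of_le (hv i) hl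
  rw [← Finset.sum_subset h5 fun v _ hv => h2 v hv, hH]

lemma FZ_lf [NeZero l] {R : ℕ} (hR : 1 ≤ R) (hl : 2 * R ≤ l) (σ : ℝ) (ν τ : Fin d)
    (j k : Fin d) (U : Ed d l → G) :
    FZ L σ R ν τ j k (lf U) = (Fo L σ (Kq R ν τ 0) j k).1 U := by
  rw [Fo_apply]
  unfold FZ
  simp only [PZ_lf hR hl]

lemma FZ_congr {R : ℕ} {V V' : Ez d → G} (h : Ab (2 * R + 1) V V') (σ : ℝ) (ν τ : Fin d)
    (j k : Fin d) : FZ L σ R ν τ j k V = FZ L σ R ν τ j k V' := by
  have h1 : ∀ a, PZ L R ν τ j k a V = PZ L R ν τ j k a V' := by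
    intro a
    unfold PZ
    refine Finset.sum_congr rfl fun v hv => ?_
    rw [mem_box] at hv
    have e1 : fr (zu V) v = fr (zu V') v := fr_congr' v fun w hw i _ _ =>
      zu_Ab h (fun j => by have h6 : w j ≤ v j := hw j; have h7 := hv j; omega) i
    have e2 : plq (zu V) v j k = plq (zu V') v j k := by
      unfold plq
      have hes : ∀ j i : Fin d, (v + es j) i < 2 * R + 1 := fun j i => by
        have h6 := hv i
        by_cases hi : i = j
        · subst hi; simp only [Pi.add_apply, es_same]; omega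
        · simp only [Pi.add_apply, es_ne hi]; omega
      have h7 : ∀ i, v i < 2 * R + 1 := fun i => by have := hv i; omega
      rw [zu_Ab h h7 j, zu_Ab h h7 k, zu_Ab h (hes j) k, zu_Ab h (hes k) j]
    rw [e1, e2]
  unfold FZ
  simp only [h1]

/-- dependence on the spatial links at time `0` -/
lemma FZ_time {R : ℕ} (hR : 1 ≤ R) {τ : Fin d} {V V' : Ez d → G}
    (h : ∀ e : Ez d, e.1 τ = 0 → e.2 ≠ τ → V e = V' e) (σ : ℝ) (ν : Fin d)
    {j k : Fin d} (hj : j ≠ τ) (hk : k ≠ τ) : FZ L σ R ν τ j k V = FZ L σ R ν τ j k V' := by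
  have h0 : ∀ (w : Pt d) (i : Fin d), w τ = 0 → i ≠ τ → zu V w i = zu V' w i := fun w i hw hi =>
    h _ (by simp [hw]) hi
  have h1 : ∀ a, PZ L R ν τ j k a V = PZ L R ν τ j k a V' := by
    intro a
    unfold PZ
    refine Finset.sum_congr rfl fun v hv => ?_
    by_cases hv0 : v τ = 0
    · have e1 : fr (zu V) v = fr (zu V') v := fr_congr' v fun w hw i hi _ => by
        have hw0 : w τ = 0 := Nat.le_zero.1 (hv0 ▸ hw τ)
        refine h0 w i hw0 ?_
        rintro rfl
        rw [hv0] at hi; omega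
      have e2 : plq (zu V) v j k = plq (zu V') v j k := by
        unfold plq
        rw [h0 v j hv0 hj, h0 v k hv0 hk, h0 (v + es j) k (by
          simp only [Pi.add_apply, es_ne hj.symm, hv0]) hk, h0 (v + es k) j (by
          simp only [Pi.add_apply, es_ne hk.symm, hv0]) hj]
      rw [e1, e2]
    · have h3 : phK R ν τ 0 τ (v τ) = 0 := by
        unfold phK
        rw [if_pos rfl, if_neg hv0]
      rw [Finset.prod_eq_zero (Finset.mem_univ τ) h3, zero_mul, zero_mul]
  unfold FZ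
  simp only [h1]

lemma rs_cont [NeZero l] : Continuous (rs (d := d) (l := l) (G := G)) :=
  continuous_pi fun e => continuous_apply _

lemma FZ_cont {R : ℕ} (hR : 1 ≤ R) (σ : ℝ) (ν τ : Fin d) (j k : Fin d) :
    Continuous (FZ L σ R ν τ j k : (Ez d → G) → ℝ) := by
  haveI : NeZero (2 * R + 1) := ⟨by omega⟩
  have h1 : (FZ L σ R ν τ j k : (Ez d → G) → ℝ) =
      fun V => (Fo L σ (Kq R ν τ 0) j k).1 (rs (l := 2 * R + 1) V) := by
    funext V
    rw [← FZ_lf hR (by omega), FZ_congr (Ab_rs le_rfl V)]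
  rw [h1]
  exact (Sm_cont _).comp rs_cont

lemma FZ_gz {R : ℕ} (hR : 1 ≤ R) (σ : ℝ) (ν τ : Fin d) (j k : Fin d) (γ : (Fin d → ℤ) → G)
    (V : Ez d → G) : FZ L σ R ν τ j k (gz γ V) = FZ L σ R ν τ j k V := by
  haveI : NeZero (2 * R + 2) := ⟨by omega⟩
  rw [FZ_congr (gz_Ab (l := 2 * R + 2) (M := 2 * R + 1) (by omega) γ V), FZ_lf hR (by omega),
    Fo_GI, ← FZ_lf hR (by omega), FZ_congr (Ab_rs (by omega) V)]

end

end Pool.Agent.W793.YM
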