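import Mathlib
import Pool.Agent.W793.YM.Inf

/-!
# Slow decay of the time correlations
-/

open MeasureTheory Matrix
open scoped Matrix.Norms.Frobenius ContDiff
open Pool.Agent.H906R3.YM

namespace Pool.Agent.W793.YM

set_option linter.unusedSectionVars false
set_option linter.unusedVariables false

noncomputable section

variable {G : Type*} [Group G] [TopologicalSpace G] [IsTopologicalGroup G] [CompactSpace G]
  [SecondCountableTopology G] [MeasurableSpace G] [BorelSpace G] (μ : Measure G)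
  [IsProbabilityMeasure μ] [μ.IsMulLeftInvariant] [μ.IsMulRightInvariant] [μ.IsInvInvariant]
  {N n : ℕ} (L : LD G N n)

lemma one_sub_ge_exp {x : ℝ} (h0 : 0 ≤ x) (h1 : x ≤ 1 / 2) : Real.exp (-(2 * x)) ≤ 1 - x := by
  have h2 : Real.exp (-(2 * x)) ≤ 1 / (1 + 2 * x) := by
    rw [Real.exp_neg, ← one_div]
    have h3 := Real.add_one_le_exp (2 * x)
    exact one_div_le_one_div_of_le (by linarith) (by linarith)
  refine h2.trans ?_
  rw [div_le_iff₀ (by linarith)]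
  nlinarith

/-- truncated correlations of the observable -/
theorem trunc (hn : 1 ≤ n) (e : ℕ) : ∃ C2 C4 c1 : ℝ, 0 < C2 ∧ 0 < C4 ∧ 0 < c1 ∧
    ∀ q : ℕ, 1 ≤ q → C4 ≤ q → ∀ b : ℝ, C2 * (q : ℝ) ^ (3 * e + 10) ≤ b → ∀ (m : ℕ) [NeZero m],
      4 * q + 1 ≤ m →
      c1 ≤ Zt μ L (b ^ 4) (fun U : Ed (e + 3) (2 * m) → G => (Obs L b q).1 U *
          (Obs L b q).1 U) / Zt μ L (b ^ 4) (fun _ : Ed (e + 3) (2 * m) → G => 1) -
        (Zt μ L (b ^ 4) (fun U : Ed (e + 3) (2 * m) → G => (Obs L b q).1 U) /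
          Zt μ L (b ^ 4) (fun _ : Ed (e + 3) (2 * m) → G => 1)) ^ 2 ∧
      ∀ k : ℕ, 1 ≤ k → k ≤ m →
      Real.exp (-(C4 / q * k)) *
        (Zt μ L (b ^ 4) (fun U : Ed (e + 3) (2 * m) → G => (Obs L b q).1 U *
          (Obs L b q).1 U) / Zt μ L (b ^ 4) (fun _ : Ed (e + 3) (2 * m) → G => 1) -
        (Zt μ L (b ^ 4) (fun U : Ed (e + 3) (2 * m) → G => (Obs L b q).1 U) /
          Zt μ L (b ^ 4) (fun _ : Ed (e + 3) (2 * m) → G => 1)) ^ 2) ≤
        Zt μ L (b ^ 4) (fun U : Ed (e + 3) (2 * m) → G => (Obs L b q).1 U *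
          (Obs L b q).1 (tr (sv (Fin.last (e + 2)) ((2 * k - 1 : ℕ) : ZMod (2 * m))) U)) /
          Zt μ L (b ^ 4) (fun _ : Ed (e + 3) (2 * m) → G => 1) -
        (Zt μ L (b ^ 4) (fun U : Ed (e + 3) (2 * m) → G => (Obs L b q).1 U) /
          Zt μ L (b ^ 4) (fun _ : Ed (e + 3) (2 * m) → G => 1)) ^ 2 := by
  obtain ⟨C2, C3, c1, hC2, hC3, hc1, hcore⟩ := core μ L hn e
  refine ⟨C2, 9 * C3 / c1, c1, hC2, by positivity, hc1, fun q hq hq' b hb m _ hm => ?_⟩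
  obtain ⟨h1, h2⟩ := hcore q hq b hb m hm
  obtain ⟨β, hβ⟩ : ∃ β, β = b ^ 4 := ⟨_, rfl⟩
  have hβ0 : 0 ≤ β := by rw [hβ]; positivity
  rw [← hβ] at h1 h2 ⊢
  obtain ⟨τ, hτ⟩ : ∃ τ, τ = Fin.last (e + 2) := ⟨_, rfl⟩
  rw [← hτ] at h2 ⊢
  obtain ⟨O, hO⟩ : ∃ O : (Ed (e + 3) (2 * m) → G) → ℝ, O = (Obs L b q).1 := ⟨_, rfl⟩
  rw [← hO] at h1 h2 ⊢
  have hOc : Continuous O := by rw [hO]; exact Sm_cont _
  have hOg : GI O := by rw [hO]; exact Fo_GI _ _ _ _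
  have hm2 : 2 ≤ m := by omega
  have hOs : Sp τ O := by
    intro U U' h
    rw [hO]
    unfold Obs
    rw [Fo_apply, Fo_apply]
    have hKS : KS τ (8 * q + 1) (Kq (d := e + 3) (l := 2 * m) (4 * q) 0 τ 0) :=
      KS_Kq (by omega) (by omega) (by omega)
    rw [hτ] at h hKS
    have h10 : (1 : Fin (e + 3)) ≠ Fin.last (e + 2) := by
      intro h
      have := congrArg Fin.val h
      simp at this
    have h00 : (0 : Fin (e + 3)) ≠ Fin.last (e + 2) := by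
      intro h
      have := congrArg Fin.val h
      simp at this
    simp only [Ph_SA hKS h h10 h00]
  obtain ⟨Z, hZ⟩ : ∃ Z, Z = Zt μ L β (fun _ : Ed (e + 3) (2 * m) → G => 1) := ⟨_, rfl⟩
  have hZ0 : 0 < Z := by rw [hZ]; exact Zt_pos μ β
  rw [← hZ] at h1 h2 ⊢
  obtain ⟨c, hc⟩ : ∃ c, c = Zt μ L β O / Z := ⟨_, rfl⟩
  obtain ⟨F, hF⟩ : ∃ F : (Ed (e + 3) (2 * m) → G) → ℝ, F = fun U => O U - c := ⟨_, rfl⟩
  have hFc : Continuous F := by rw [hF]; exact hOc.sub continuous_const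
  have hFg : GI F := fun γ U => by rw [hF]; simp only [hOg γ U]
  have hFs : Sp τ F := fun U U' h => by rw [hF]; simp only [hOs U U' h]
  have hV : c1 * Z ≤ Zt μ L β (fun U => F U ^ 2) := by
    have := h1 c
    rw [hF]; exact this
  have hV0 : 0 < Zt μ L β (fun U => F U ^ 2) := lt_of_lt_of_le (by positivity) hV
  have hq0 : (0 : ℝ) < q := by
    have : (1 : ℝ) ≤ q := by exact_mod_cast hq
    linarith
  obtain ⟨δ, hδ⟩ : ∃ δ, δ = C3 / (c1 * q) := ⟨_, rfl⟩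
  have hδ0 : 0 < δ := by rw [hδ]; positivity
  have hδ1 : 9 * δ ≤ 1 := by
    have e1 : 9 * δ = (9 * C3 / c1) / q := by rw [hδ]; field_simp
    rw [e1, div_le_one hq0]
    exact hq'
  have hd : Zt μ L β (fun U => (F (tr (eT τ) U) - F U) ^ 2) ≤
      δ * Zt μ L β (fun U => F U ^ 2) := by
    have e1 : (fun U => (F (tr (eT τ) U) - F U) ^ 2) = fun U => (O (tr (eT τ) U) - O U) ^ 2 := by
      funext U
      rw [hF]; ring
    rw [e1]
    calc _ ≤ C3 / q * Z := h2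
      _ = δ * (c1 * Z) := by rw [hδ]; field_simp
      _ ≤ _ := mul_le_mul_of_nonneg_left hV hδ0.le
  have hT : ∀ w : Fin (e + 3) → ZMod (2 * m), Zt μ L β (fun U => F U * F (tr w U)) =
      Zt μ L β (fun U => O U * O (tr w U)) - c ^ 2 * Z := by
    intro w
    have e1 : (fun U => F U * F (tr w U)) =
        fun U => ((O U * O (tr w U) + (-c) * O U) + (-c) * O (tr w U)) + c ^ 2 * 1 := by
      funext U
      rw [hF]; ring
    have c1' : Continuous fun U : Ed (e + 3) (2 * m) → G => O U * O (tr w U) :=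
      hOc.mul (hOc.comp (tr_cont _))
    have c2' : Continuous fun U : Ed (e + 3) (2 * m) → G => (-c) * O U :=
      continuous_const.mul hOc
    have c3' : Continuous fun U : Ed (e + 3) (2 * m) → G => (-c) * O (tr w U) :=
      continuous_const.mul (hOc.comp (tr_cont _))
    have c4' : Continuous fun U : Ed (e + 3) (2 * m) → G => O U * O (tr w U) + (-c) * O U :=
      c1'.add c2'
    have c5' : Continuous fun U : Ed (e + 3) (2 * m) → G =>
        (O U * O (tr w U) + (-c) * O U) + (-c) * O (tr w U) := c4'.add c3'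
    rw [e1, Zt_add μ c5' continuous_const, Zt_add μ c4' c3', Zt_add μ c1' c2', Zt_smul, Zt_smul,
      Zt_smul, Zt_tr μ β w O, ← hZ]
    have e2 : Zt μ L β O = c * Z := by rw [hc]; field_simp
    have e3 : Zt μ L β (fun U => O U) = c * Z := e2
    rw [e3]
    ring
  have e4 : Zt μ L β (fun U => O U) / Z = c := hc.symm
  rw [e4]
  have h8 : ∀ X : ℝ, X / Z - c ^ 2 = (X - c ^ 2 * Z) / Z := fun X => by field_simp
  have hT0 : Zt μ L β (fun U => O U * O U) - c ^ 2 * Z = Zt μ L β (fun U => F U ^ 2) := by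
    have := hT 0
    simp only [tr_zero] at this
    rw [← this]
    congr 1
    funext U
    ring
  refine ⟨?_, fun k hk hkm => ?_⟩
  · rw [h8, hT0, le_div_iff₀ hZ0]
    exact hV
  · have key := corr_low μ (L := L) hm2 hβ0 hFc hFg hFs (by linarith) hV0 hd hk hkm
    obtain ⟨w, hw⟩ : ∃ w, w = sv τ ((2 * k - 1 : ℕ) : ZMod (2 * m)) := ⟨_, rfl⟩
    rw [← hw] at key ⊢
    rw [hT] at key
    have h5 : Real.exp (-(9 * C3 / c1 / q * k)) ≤ (1 - 9 / 2 * δ) ^ k := by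
      have h6 := one_sub_ge_exp (x := 9 / 2 * δ) (by positivity) (by linarith)
      calc Real.exp (-(9 * C3 / c1 / q * k)) = Real.exp (-(2 * (9 / 2 * δ))) ^ k := by
            rw [← Real.exp_nat_mul]
            congr 1
            rw [hδ]; field_simp
        _ ≤ _ := pow_le_pow_left₀ (Real.exp_pos _).le h6 k
    rw [h8, h8, hT0, ← mul_div_assoc]
    exact div_le_div_of_nonneg_right ((mul_le_mul_of_nonneg_right h5 hV0.le).trans key) hZ0.le

/-- the choice of the scale -/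
lemma scale {C2 C4 : ℝ} (hC2 : 0 < C2) (hC4 : 0 < C4) {P : ℕ} (hP : 1 ≤ P) :
    ∃ β₀ C5 : ℝ, 1 ≤ β₀ ∧ 0 < C5 ∧ ∀ β : ℝ, β₀ ≤ β → ∃ q : ℕ, 1 ≤ q ∧ C4 ≤ q ∧
      C2 * (q : ℝ) ^ P ≤ β ^ (1 / 4 : ℝ) ∧ (q : ℝ) ≤ C5 * β ^ (1 / (4 * P : ℝ)) ∧
      C4 / q ≤ C5 * β ^ (-(1 / (4 * P : ℝ))) := by
  have hP0 : (0 : ℝ) < P := by
    have : (1 : ℝ) ≤ P := by exact_mod_cast hP
    linarith
  obtain ⟨r, hr⟩ : ∃ r : ℝ, r = C2 ^ (-(1 / P : ℝ)) := ⟨_, rfl⟩
  have hr0 : 0 < r := by rw [hr]; exact Real.rpow_pos_of_pos hC2 _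
  obtain ⟨κ, hκ⟩ : ∃ κ : ℝ, κ = 1 / (4 * P : ℝ) := ⟨_, rfl⟩
  have hκ0 : 0 < κ := by rw [hκ]; positivity
  obtain ⟨Y, hY⟩ : ∃ Y : ℝ, Y = (2 + C4) / r := ⟨_, rfl⟩
  have hY0 : 0 < Y := by rw [hY]; positivity
  refine ⟨max 1 (Y ^ (1 / κ)), max r (2 * C4 / r), le_max_left _ _,
    lt_max_of_lt_left hr0, fun β hβ => ?_⟩
  have hβ1 : 1 ≤ β := (le_max_left _ _).trans hβ
  have hβ0 : 0 < β := by linarith
  obtain ⟨y, hy⟩ : ∃ y : ℝ, y = r * β ^ κ := ⟨_, rfl⟩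
  have hyY : 2 + C4 ≤ y := by
    have h1 : Y ≤ β ^ κ := by
      have h2 : Y ^ (1 / κ) ≤ β := (le_max_right _ _).trans hβ
      calc Y = (Y ^ (1 / κ)) ^ κ := by
            rw [← Real.rpow_mul hY0.le, one_div, inv_mul_cancel₀ hκ0.ne', Real.rpow_one]
        _ ≤ β ^ κ := Real.rpow_le_rpow (by positivity) h2 hκ0.le
    rw [hy]
    calc 2 + C4 = r * Y := by rw [hY]; field_simp
      _ ≤ _ := mul_le_mul_of_nonneg_left h1 hr0.le
  have hy0 : 0 < y := by linarith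
  obtain ⟨q, hq⟩ : ∃ q : ℕ, q = ⌊y⌋₊ := ⟨_, rfl⟩
  have hq1 : (q : ℝ) ≤ y := by rw [hq]; exact Nat.floor_le hy0.le
  have hq2 : y < q + 1 := by rw [hq]; exact Nat.lt_floor_add_one y
  have hq3 : y / 2 ≤ q := by linarith
  have hq4 : (0 : ℝ) < q := by linarith
  refine ⟨q, ?_, by linarith, ?_, ?_, ?_⟩
  · have : (0 : ℝ) < q := hq4
    exact_mod_cast this
  · calc C2 * (q : ℝ) ^ P ≤ C2 * y ^ P :=
          mul_le_mul_of_nonneg_left (pow_le_pow_left₀ hq4.le hq1 P) hC2.le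
      _ = β ^ (1 / 4 : ℝ) := by
          rw [hy, mul_pow, hr, ← Real.rpow_natCast (C2 ^ (-(1 / P : ℝ))), ← Real.rpow_mul hC2.le,
            ← Real.rpow_natCast (β ^ κ), ← Real.rpow_mul hβ0.le]
          have e1 : -(1 / (P : ℝ)) * P = -1 := by field_simp
          have e2 : κ * P = 1 / 4 := by rw [hκ]; field_simp
          rw [e1, e2, Real.rpow_neg_one, ← mul_assoc, mul_inv_cancel₀ hC2.ne', one_mul]
  · rw [← hκ]
    calc (q : ℝ) ≤ y := hq1
      _ = r * β ^ κ := hy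
      _ ≤ _ := mul_le_mul_of_nonneg_right (le_max_left _ _) (by positivity)
  · rw [← hκ]
    calc C4 / q ≤ C4 / (y / 2) := div_le_div_of_nonneg_left hC4.le (by linarith) hq3
      _ = 2 * C4 / r * β ^ (-κ) := by
          rw [hy, Real.rpow_neg hβ0.le]; field_simp
      _ ≤ _ := mul_le_mul_of_nonneg_right (le_max_right _ _) (by positivity)

end

end Pool.Agent.W793.YM
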