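import Mathlib
import Pool.Agent.W793.YM.DBound

/-!
# Forms on the periodic lattice
-/

open Pool.Agent.H906R3.YM

namespace Pool.Agent.W793.YM

set_option linter.unusedSectionVars false
set_option linter.unusedVariables false

noncomputable section

variable {d l : ℕ} [NeZero l]

/-- sites -/
abbrev St (d l : ℕ) := Fin d → ZMod l

/-- forward difference -/
def Dp (i : Fin d) (f : St d l → ℝ) : St d l → ℝ := fun x => f (x + eT i) - f x

/-- backward difference, the adjoint of the forward difference -/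
def Dm (i : Fin d) (f : St d l → ℝ) : St d l → ℝ := fun x => f (x - eT i) - f x

/-- scalar product -/
def ip2 (f g : St d l → ℝ) : ℝ := ∑ x, f x * g x

lemma sum_shift (z : St d l) (f : St d l → ℝ) : ∑ x, f (x + z) = ∑ x, f x :=
  Equiv.sum_comp (Equiv.addRight z) f

lemma ip2_comm (f g : St d l → ℝ) : ip2 f g = ip2 g f := by
  unfold ip2; exact Finset.sum_congr rfl fun x _ => mul_comm _ _

lemma ip2_Dp (i : Fin d) (f g : St d l → ℝ) : ip2 (Dp i f) g = ip2 f (Dm i g) := by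
  unfold ip2 Dp Dm
  have h1 : ∑ x, f (x + eT i) * g x = ∑ x, f x * g (x - eT i) := by
    rw [← sum_shift (eT i) (fun x => f x * g (x - eT i))]
    refine Finset.sum_congr rfl fun x _ => ?_
    rw [add_sub_cancel_right]
  simp only [sub_mul, mul_sub, Finset.sum_sub_distrib]
  rw [h1]

lemma ip2_Dm (i : Fin d) (f g : St d l → ℝ) : ip2 (Dm i f) g = ip2 f (Dp i g) := by
  rw [ip2_comm, ← ip2_Dp, ip2_comm]

lemma Dp_comm (i j : Fin d) (f : St d l → ℝ) : Dp i (Dp j f) = Dp j (Dp i f) := by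
  funext x
  unfold Dp
  rw [add_right_comm x (eT i) (eT j)]; ring

lemma Dp_Dm (i j : Fin d) (f : St d l → ℝ) : Dp i (Dm j f) = Dm j (Dp i f) := by
  funext x
  unfold Dp Dm
  have : x + eT i - eT j = x - eT j + eT i := by abel
  rw [this]; ring

lemma Dm_comm (i j : Fin d) (f : St d l → ℝ) : Dm i (Dm j f) = Dm j (Dm i f) := by
  funext x
  unfold Dm
  rw [sub_right_comm x (eT i) (eT j)]; ring

lemma Dp_add (i : Fin d) (f g : St d l → ℝ) : Dp i (f + g) = Dp i f + Dp i g := by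
  funext x; simp only [Dp, Pi.add_apply]; ring

lemma Dp_sub (i : Fin d) (f g : St d l → ℝ) : Dp i (f - g) = Dp i f - Dp i g := by
  funext x; simp only [Dp, Pi.sub_apply]; ring

lemma Dp_neg (i : Fin d) (f : St d l → ℝ) : Dp i (-f) = -Dp i f := by
  funext x; simp only [Dp, Pi.neg_apply]; ring

lemma Dp_smul (i : Fin d) (c : ℝ) (f : St d l → ℝ) : Dp i (c • f) = c • Dp i f := by
  funext x; simp only [Dp, Pi.smul_apply, smul_eq_mul]; ring

lemma Dp_sum {ι : Type*} (s : Finset ι) (i : Fin d) (f : ι → St d l → ℝ) :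
    Dp i (∑ k ∈ s, f k) = ∑ k ∈ s, Dp i (f k) := by
  funext x; simp only [Dp, Finset.sum_apply, Finset.sum_sub_distrib]

lemma Dm_add (i : Fin d) (f g : St d l → ℝ) : Dm i (f + g) = Dm i f + Dm i g := by
  funext x; simp only [Dm, Pi.add_apply]; ring

lemma Dm_sub (i : Fin d) (f g : St d l → ℝ) : Dm i (f - g) = Dm i f - Dm i g := by
  funext x; simp only [Dm, Pi.sub_apply]; ring

lemma Dm_neg (i : Fin d) (f : St d l → ℝ) : Dm i (-f) = -Dm i f := by
  funext x; simp only [Dm, Pi.neg_apply]; ring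

lemma Dm_smul (i : Fin d) (c : ℝ) (f : St d l → ℝ) : Dm i (c • f) = c • Dm i f := by
  funext x; simp only [Dm, Pi.smul_apply, smul_eq_mul]; ring

lemma Dm_sum {ι : Type*} (s : Finset ι) (i : Fin d) (f : ι → St d l → ℝ) :
    Dm i (∑ k ∈ s, f k) = ∑ k ∈ s, Dm i (f k) := by
  funext x; simp only [Dm, Finset.sum_apply, Finset.sum_sub_distrib]

lemma ip2_add_left (f g h : St d l → ℝ) : ip2 (f + g) h = ip2 f h + ip2 g h := by
  unfold ip2; simp only [Pi.add_apply, add_mul, Finset.sum_add_distrib]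

lemma ip2_sub_left (f g h : St d l → ℝ) : ip2 (f - g) h = ip2 f h - ip2 g h := by
  unfold ip2; simp only [Pi.sub_apply, sub_mul, Finset.sum_sub_distrib]

lemma ip2_neg_left (f h : St d l → ℝ) : ip2 (-f) h = -ip2 f h := by
  unfold ip2; simp only [Pi.neg_apply, neg_mul, Finset.sum_neg_distrib]

lemma ip2_smul_left (c : ℝ) (f h : St d l → ℝ) : ip2 (c • f) h = c * ip2 f h := by
  unfold ip2; simp only [Pi.smul_apply, smul_eq_mul, Finset.mul_sum, mul_assoc]

lemma ip2_add_right (f g h : St d l → ℝ) : ip2 f (g + h) = ip2 f g + ip2 f h := by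
  rw [ip2_comm, ip2_add_left, ip2_comm g, ip2_comm h]

lemma ip2_sub_right (f g h : St d l → ℝ) : ip2 f (g - h) = ip2 f g - ip2 f h := by
  rw [ip2_comm, ip2_sub_left, ip2_comm g, ip2_comm h]

lemma ip2_sum_left {ι : Type*} (s : Finset ι) (f : ι → St d l → ℝ) (g : St d l → ℝ) :
    ip2 (∑ k ∈ s, f k) g = ∑ k ∈ s, ip2 (f k) g := by
  unfold ip2
  simp only [Finset.sum_apply, Finset.sum_mul]
  exact Finset.sum_comm

lemma ip2_sum_right {ι : Type*} (s : Finset ι) (f : ι → St d l → ℝ) (g : St d l → ℝ) :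
    ip2 g (∑ k ∈ s, f k) = ∑ k ∈ s, ip2 g (f k) := by
  rw [ip2_comm, ip2_sum_left]
  exact Finset.sum_congr rfl fun k _ => ip2_comm _ _

/-- two forms: all components -/
abbrev Fm (d l : ℕ) := Fin d → Fin d → St d l → ℝ

/-- antisymmetric -/
def Asy (f : Fm d l) : Prop := ∀ j k, f j k = -f k j

/-- exterior derivative of a one form -/
def d1 (a : Fin d → St d l → ℝ) : Fm d l := fun j k => Dp j (a k) - Dp k (a j)

/-- the adjoint -/
def ds2 (f : Fm d l) : Fin d → St d l → ℝ := fun k => ∑ j, Dm j (f j k)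

/-- minus the Laplace operator -/
def lap (f : St d l → ℝ) : St d l → ℝ := ∑ i, Dm i (Dp i f)

/-- the coexact part of minus the Laplace operator -/
def cx (u : Fm d l) : Fm d l := fun j k => lap (u j k) - d1 (ds2 u) j k

/-- scalar product of forms -/
def ipF (f g : Fm d l) : ℝ := 1 / 2 * ∑ j, ∑ k, ip2 (f j k) (g j k)

lemma d1_asy (a : Fin d → St d l → ℝ) : Asy (d1 a) := fun j k => by
  unfold d1; abel

lemma lap_neg (f : St d l → ℝ) : lap (-f) = -lap f := by
  unfold lap; simp only [Dp_neg, Dm_neg, Finset.sum_neg_distrib]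

lemma lap_add (f g : St d l → ℝ) : lap (f + g) = lap f + lap g := by
  unfold lap; simp only [Dp_add, Dm_add, Finset.sum_add_distrib]

lemma lap_smul (c : ℝ) (f : St d l → ℝ) : lap (c • f) = c • lap f := by
  unfold lap; simp only [Dp_smul, Dm_smul, Finset.smul_sum]

lemma lap_sum {ι : Type*} (s : Finset ι) (f : ι → St d l → ℝ) :
    lap (∑ k ∈ s, f k) = ∑ k ∈ s, lap (f k) := by
  unfold lap
  simp only [Dp_sum, Dm_sum]
  exact Finset.sum_comm

lemma cx_asy {u : Fm d l} (hu : Asy u) : Asy (cx u) := fun j k => by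
  unfold cx
  rw [hu j k, lap_neg, d1_asy _ j k]
  abel

lemma ipF_comm (f g : Fm d l) : ipF f g = ipF g f := by
  unfold ipF
  simp only [ip2_comm]

lemma ipF_d1 {f : Fm d l} (hf : Asy f) (a : Fin d → St d l → ℝ) :
    ipF f (d1 a) = ∑ j, ∑ k, ip2 (f j k) (Dp j (a k)) := by
  unfold ipF d1
  have h1 : ∑ j, ∑ k, ip2 (f j k) (Dp j (a k) - Dp k (a j)) =
      ∑ j, ∑ k, ip2 (f j k) (Dp j (a k)) - ∑ j, ∑ k, ip2 (f j k) (Dp k (a j)) := by
    simp only [ip2_sub_right, Finset.sum_sub_distrib]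
  have h2 : ∑ j, ∑ k, ip2 (f j k) (Dp k (a j)) = -∑ j, ∑ k, ip2 (f j k) (Dp j (a k)) := by
    rw [Finset.sum_comm, ← Finset.sum_neg_distrib]
    refine Finset.sum_congr rfl fun k _ => ?_
    rw [← Finset.sum_neg_distrib]
    refine Finset.sum_congr rfl fun j _ => ?_
    rw [hf j k, ip2_neg_left]
  rw [h1, h2]; ring

lemma ipF_ds {f : Fm d l} (hf : Asy f) (a : Fin d → St d l → ℝ) :
    ipF f (d1 a) = ∑ k, ip2 (ds2 f k) (a k) := by
  rw [ipF_d1 hf, Finset.sum_comm]
  refine Finset.sum_congr rfl fun k _ => ?_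
  unfold ds2
  rw [ip2_sum_left]
  exact Finset.sum_congr rfl fun j _ => by rw [ip2_Dm]

lemma cx_eq {u : Fm d l} (hu : Asy u) (j k : Fin d) :
    cx u j k = ∑ i, Dm i (Dp i (u j k) + Dp j (u k i) + Dp k (u i j)) := by
  unfold cx lap d1 ds2
  rw [Dp_sum, Dp_sum]
  have h1 : ∑ i, Dp j (Dm i (u i k)) = -∑ i, Dm i (Dp j (u k i)) := by
    rw [← Finset.sum_neg_distrib]
    refine Finset.sum_congr rfl fun i _ => ?_
    rw [Dp_Dm, hu i k, Dp_neg, Dm_neg]
  have h2 : ∑ i, Dp k (Dm i (u i j)) = ∑ i, Dm i (Dp k (u i j)) :=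
    Finset.sum_congr rfl fun i _ => Dp_Dm _ _ _
  rw [h1, h2]
  simp only [Dm_add, Finset.sum_add_distrib]
  abel

/-- exact and coexact forms are orthogonal -/
lemma cx_orth {u : Fm d l} (hu : Asy u) (a : Fin d → St d l → ℝ) : ipF (cx u) (d1 a) = 0 := by
  rw [ipF_d1 (cx_asy hu)]
  obtain ⟨g, hg⟩ : ∃ g : Fin d → Fin d → Fin d → St d l → ℝ,
    g = fun i j k => Dp i (u j k) + Dp j (u k i) + Dp k (u i j) := ⟨_, rfl⟩
  have hga : ∀ i j k, g j i k = -g i j k := fun i j k => by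
    rw [hg]
    simp only
    rw [hu i k, hu k j, hu j i, Dp_neg, Dp_neg, Dp_neg]
    abel
  have h1 : ∀ j k, ip2 (cx u j k) (Dp j (a k)) = ∑ i, ip2 (g i j k) (Dp i (Dp j (a k))) := by
    intro j k
    rw [cx_eq hu, ip2_sum_left]
    refine Finset.sum_congr rfl fun i _ => ?_
    rw [ip2_Dm, hg]
  rw [Finset.sum_congr rfl fun j _ => Finset.sum_congr rfl fun k _ => h1 j k]
  have h2 : ∑ j, ∑ k, ∑ i, ip2 (g i j k) (Dp i (Dp j (a k))) =
      ∑ k, ∑ i, ∑ j, ip2 (g i j k) (Dp i (Dp j (a k))) := by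
    rw [Finset.sum_comm]
    refine Finset.sum_congr rfl fun k _ => ?_
    rw [Finset.sum_comm]
  rw [h2]
  refine Finset.sum_eq_zero fun k _ => ?_
  obtain ⟨S, hS⟩ : ∃ S, S = ∑ i, ∑ j, ip2 (g i j k) (Dp i (Dp j (a k))) := ⟨_, rfl⟩
  have h3 : S = -S := by
    calc S = ∑ j, ∑ i, ip2 (g i j k) (Dp i (Dp j (a k))) := by rw [hS, Finset.sum_comm]
      _ = ∑ j, ∑ i, -ip2 (g j i k) (Dp j (Dp i (a k))) := by
          refine Finset.sum_congr rfl fun j _ => Finset.sum_congr rfl fun i _ => ?_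
          rw [hga j i k, ip2_neg_left, Dp_comm]
      _ = -S := by rw [hS]; simp only [Finset.sum_neg_distrib]
  rw [← hS]; linarith

lemma ipF_add_left (f g h : Fm d l) : ipF (f + g) h = ipF f h + ipF g h := by
  unfold ipF
  simp only [Pi.add_apply, ip2_add_left, Finset.sum_add_distrib]; ring

lemma ipF_sub_left (f g h : Fm d l) : ipF (f - g) h = ipF f h - ipF g h := by
  unfold ipF
  simp only [Pi.sub_apply, ip2_sub_left, Finset.sum_sub_distrib]; ring

lemma ipF_smul_left (c : ℝ) (f h : Fm d l) : ipF (c • f) h = c * ipF f h := by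
  unfold ipF
  simp only [Pi.smul_apply, ip2_smul_left, ← Finset.mul_sum]; ring

lemma ipF_self_nonneg (f : Fm d l) : 0 ≤ ipF f f := by
  unfold ipF ip2
  refine mul_nonneg (by norm_num) (Finset.sum_nonneg fun j _ => Finset.sum_nonneg fun k _ =>
    Finset.sum_nonneg fun x _ => mul_self_nonneg _)

lemma cx_orth_cx {u w : Fm d l} (hu : Asy u) : ipF (cx u) (d1 (ds2 w)) = 0 := cx_orth hu _

/-! ### the lazy walk -/

/-- one step of the lazy walk -/
def Pl (f : St d l → ℝ) : St d l → ℝ := f - (1 / (4 * d) : ℝ) • lap f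

lemma lap_apply (f : St d l → ℝ) (x : St d l) :
    lap f x = ∑ i, (2 * f x - f (x + eT i) - f (x - eT i)) := by
  unfold lap
  rw [Finset.sum_apply]
  refine Finset.sum_congr rfl fun i _ => ?_
  unfold Dm Dp
  rw [sub_add_cancel]; ring

lemma Pl_apply (hd : 0 < d) (f : St d l → ℝ) (x : St d l) :
    Pl f x = 1 / 2 * f x + (1 / (4 * d) : ℝ) * ∑ i, (f (x + eT i) + f (x - eT i)) := by
  unfold Pl
  have hd0 : (d : ℝ) ≠ 0 := by positivity
  rw [Pi.sub_apply, Pi.smul_apply, smul_eq_mul, lap_apply]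
  have h1 : ∑ i : Fin d, (2 * f x - f (x + eT i) - f (x - eT i)) =
      2 * d * f x - ∑ i, (f (x + eT i) + f (x - eT i)) := by
    have h2 : ∀ i : Fin d, 2 * f x - f (x + eT i) - f (x - eT i) =
      2 * f x - (f (x + eT i) + f (x - eT i)) := fun i => by ring
    rw [Finset.sum_congr rfl fun i _ => h2 i, Finset.sum_sub_distrib, Finset.sum_const,
      Finset.card_univ, Fintype.card_fin, nsmul_eq_mul]
    ring
  rw [h1]
  field_simp
  ring

lemma lap_Pl (f : St d l → ℝ) : lap (Pl f) = Pl (lap f) := by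
  unfold Pl
  rw [sub_eq_add_neg, lap_add, lap_neg, lap_smul, ← sub_eq_add_neg]

/-- the iterated walk -/
def Plk (k : ℕ) (f : St d l → ℝ) : St d l → ℝ := Pl^[k] f

lemma Plk_zero (f : St d l → ℝ) : Plk 0 f = f := rfl

lemma Plk_succ (k : ℕ) (f : St d l → ℝ) : Plk (k + 1) f = Pl (Plk k f) :=
  Function.iterate_succ_apply' _ _ _

/-- the potential -/
def uK (K : ℕ) (f : St d l → ℝ) : St d l → ℝ :=
  (1 / (4 * d) : ℝ) • ∑ k ∈ Finset.range K, Plk k f

lemma lap_uK (K : ℕ) (f : St d l → ℝ) : lap (uK K f) = f - Plk K f := by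
  unfold uK
  rw [lap_smul, lap_sum, Finset.smul_sum]
  induction K with
  | zero => simp [Plk_zero]
  | succ K ih =>
    rw [Finset.sum_range_succ, ih, Plk_succ]
    unfold Pl
    abel

lemma Pl_neg (f : St d l → ℝ) : Pl (-f) = -Pl f := by
  unfold Pl; rw [lap_neg, smul_neg]; abel

lemma Plk_neg (k : ℕ) (f : St d l → ℝ) : Plk k (-f) = -Plk k f := by
  induction k with
  | zero => rfl
  | succ k ih => rw [Plk_succ, Plk_succ, ih, Pl_neg]

lemma uK_neg (K : ℕ) (f : St d l → ℝ) : uK K (-f) = -uK K f := by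
  unfold uK
  simp only [Plk_neg, Finset.sum_neg_distrib, smul_neg]

end

end Pool.Agent.W793.YM
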