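import Mathlib
import Pool.Agent.W793.YM.Forms

/-!
# Derivatives along general vector fields in the comb gauge
-/

open MeasureTheory Matrix
open scoped Matrix.Norms.Frobenius ContDiff
open Pool.Agent.H906R3.YM

namespace Pool.Agent.W793.YM

set_option linter.unusedSectionVars false
set_option linter.unusedVariables false

noncomputable section

variable {G : Type*} [Group G] [TopologicalSpace G] [IsTopologicalGroup G] [CompactSpace G]
  [SecondCountableTopology G] [MeasurableSpace G] [BorelSpace G]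
  {N n : ℕ} {L : LD G N n} {d l : ℕ} [NeZero l] {A : St d l → ℝ} {ι : Fin d} {M : ℕ}

/-- support in a box away from the lower faces -/
def AB (M : ℕ) (A : St d l → ℝ) : Prop := ∀ x, A x ≠ 0 → ∀ i, 1 ≤ wv x i ∧ wv x i < M

lemma ab_near (hA : AB M A) (hMl : M < l) {x : St d l} {k : Fin d}
    (h : A x ≠ 0 ∨ A (x + eT k) ≠ 0) : (∀ i, wv x i < M) ∧ wv x k + 1 < l := by
  rcases h with h | h
  · have h1 := hA x h
    exact ⟨fun i => (h1 i).2, by have := (h1 k).2; omega⟩
  · have h1 := hA _ h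
    have h2 := wv_pred (h1 k).1
    refine ⟨fun i => ?_, h2⟩
    have h3 := (h1 i).2
    rw [wv_add h2] at h3
    exact lt_of_le_of_lt (Nat.le_add_right _ _) h3

/-- the action of the flow on the transports -/
lemma fr_fl {a0 : ℝ} (ha0 : 0 ≤ a0) (ha : ∀ x, |A x| ≤ a0) (α : Fin n) (w : Pt d)
    (hw : ∀ i, w i < l) : ∃ lam : ℝ, |lam| ≤ sz w * a0 ∧ ∀ (s : ℝ) (U : Ed d l → G),
      fr (uu (fl L A ι α s U)) w = L.ex α (s * lam) * fr (uu U) w := by
  induction hn : sz w generalizing w with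
  | zero =>
    have hw0 : ¬∃ i, 0 < w i := by
      rintro ⟨i, hi⟩
      have := sz_sub hi
      omega
    refine ⟨0, by simp, fun s U => ?_⟩
    rw [fr_zero _ hw0, fr_zero _ hw0, mul_zero, L.ex_zero, one_mul]
  | succ q ih =>
    have hwp : ∃ i, 0 < w i := by
      by_contra hc
      push Not at hc
      have : sz w = 0 := Finset.sum_eq_zero fun i _ => Nat.le_zero.1 (hc i)
      omega
    obtain ⟨w', hw'⟩ : ∃ w', w' = w - es (mi w hwp) := ⟨_, rfl⟩
    have hp := mi_pos w hwp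
    have hsz := sz_sub hp
    rw [← hw'] at hsz
    have hle : w' ≤ w := by rw [hw']; exact fun i => Nat.sub_le _ _
    have hwl : ∀ i, w' i < l := fun i => lt_of_le_of_lt (hle i) (hw i)
    obtain ⟨lam, h1, h2⟩ := ih w' hwl (by omega)
    obtain ⟨c, hc⟩ : ∃ c : ℝ, c = if mi w hwp = ι then A (ct l w') else 0 := ⟨_, rfl⟩
    have hc1 : |c| ≤ a0 := by
      rw [hc]
      split_ifs
      · exact ha _
      · simpa using ha0
    have hstep : ∀ (s : ℝ) (U : Ed d l → G), uu (fl L A ι α s U) w' (mi w hwp) =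
        (fr (uu U) w')⁻¹ * L.ex α (s * c) * fr (uu U) w' * uu U w' (mi w hwp) := by
      intro s U
      unfold uu
      by_cases h : mi w hwp = ι
      · rw [h, fl_eq, hc, if_pos h]
        unfold Pc
        rw [wv_ct hwl]
        rfl
      · rw [fl_ne _ _ _ _ h, hc, if_neg h, mul_zero, L.ex_zero]
        group
    refine ⟨lam + c, ?_, fun s U => ?_⟩
    · have e : ((q + 1 : ℕ) : ℝ) * a0 = q * a0 + a0 := by push_cast; ring
      rw [e]
      refine (abs_add_le _ _).trans (add_le_add ?_ hc1)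
      exact h1
    · rw [fr_succ _ hwp, fr_succ _ hwp, ← hw', h2, hstep, mul_add, L.ex_add]
      group

lemma Pc_flg {a0 : ℝ} (ha0 : 0 ≤ a0) (ha : ∀ x, |A x| ≤ a0) (α : Fin n) (x : St d l)
    (hx : ∀ i, wv x i < M) : ∃ lam : ℝ, |lam| ≤ d * M * a0 ∧ ∀ (s : ℝ) (U : Ed d l → G),
      Pc (fl L A ι α s U) x = L.ex α (s * lam) * Pc U x := by
  obtain ⟨lam, h1, h2⟩ := fr_fl (L := L) (A := A) (ι := ι) ha0 ha α (wv x) (wv_lt x)
  refine ⟨lam, h1.trans (mul_le_mul_of_nonneg_right ?_ ha0), h2⟩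
  have := sz_le (w := wv x) (M := M) fun i => (hx i).le
  exact_mod_cast this

lemma plq_flg (α : Fin n) (s : ℝ) (U : Ed d l → G) (x : St d l) {k : Fin d} (hk : k ≠ ι) :
    Pc U x * plqT (fl L A ι α s U) x ι k * (Pc U x)⁻¹ =
      L.ex α (s * A x) * gB U ι k x * L.ex α (s * -A (x + eT k)) * (tlT U x k)⁻¹ := by
  have h1 : plqT (fl L A ι α s U) x ι k = (Pc U x)⁻¹ * L.ex α (s * A x) * Pc U x * U (x, ι) *
      U (x + eT ι, k) * ((Pc U (x + eT k))⁻¹ * L.ex α (s * A (x + eT k)) * Pc U (x + eT k) *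
        U (x + eT k, ι))⁻¹ * (U (x, k))⁻¹ := by
    unfold plqT
    rw [fl_eq, fl_eq, fl_ne _ _ _ _ hk, fl_ne _ _ _ _ hk]
  rw [h1, mul_neg, ex_neg]
  unfold gB tlT
  rw [add_right_comm x (eT k) (eT ι)]
  group

lemma plq_fln (α : Fin n) (s : ℝ) (U : Ed d l → G) (x : St d l) {j k : Fin d} (hj : j ≠ ι)
    (hk : k ≠ ι) : plqT (fl L A ι α s U) x j k = plqT U x j k := by
  unfold plqT
  rw [fl_ne _ _ _ _ hj, fl_ne _ _ _ _ hj, fl_ne _ _ _ _ hk, fl_ne _ _ _ _ hk]

/-- the derivative of the action -/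
lemma V_act0 (α : Fin n) (U : Ed d l → G) :
    (Vf L A ι α (aS0 L d l)).1 U = ∑ x, ∑ k, if k ≠ ι then
      -ip 1 (m1 L α (L.rho (gB U ι k x)) (L.rho (tlT U x k)⁻¹) (A x) (A (x + eT k)) 0) else 0 := by
  have h1 := fl_deriv0 (A := A) (ι := ι) α (aS0 L d l) U
  have h2 : (fun s => (aS0 L d l).1 (fl L A ι α s U)) = fun s => ∑ x, aA L ι U x + ∑ x, ∑ k,
      if k ≠ ι then (N : ℝ) - ip 1 (L.rho (L.ex α (s * A x)) * L.rho (gB U ι k x) *
        L.rho (L.ex α (s * -A (x + eT k))) * L.rho (tlT U x k)⁻¹) else 0 := by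
    funext s
    show act L (fl L A ι α s U) = _
    rw [act_eq ι]
    congr 1
    · refine Finset.sum_congr rfl fun x _ => ?_
      exact aA_congr fun y k hk _ => fl_ne _ _ _ _ hk
    · refine Finset.sum_congr rfl fun x _ => ?_
      unfold aB
      refine Finset.sum_congr rfl fun k _ => ?_
      split_ifs with hk
      · rw [← we_conj (Pc U x), plq_flg _ _ _ _ hk, we_tr, ip_apply, conjTranspose_one,
          one_mul, L.rho.map_mul, L.rho.map_mul, L.rho.map_mul]
      · rfl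
  rw [h2] at h1
  refine h1.unique ?_
  refine HasDerivAt.const_add _ (HasDerivAt.fun_sum fun x _ => HasDerivAt.fun_sum fun k _ => ?_)
  by_cases hk : k ≠ ι
  · simp only [hk, if_true, ne_eq, not_false_eq_true]
    refine HasDerivAt.const_sub _ ?_
    exact (ip 1).hasFDerivAt.comp_hasDerivAt 0 (hasDeriv_m α _ _ _ _ 0)
  · simp only [hk, if_false]
    exact hasDerivAt_const _ _

lemma m1_zero (α b : Fin n) (g h : G) (a a' : ℝ) :
    trX L b (m1 L α (L.rho g) (L.rho h) a a' 0) =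
      a * trX L b (L.X α * L.rho (g * h)) - a' * trX L b (L.rho g * L.X α * L.rho h) := by
  unfold m1
  have e0 : ∀ a : ℝ, L.rho (L.ex α (0 * a)) = 1 := fun a => by
    rw [zero_mul, L.ex_zero, map_one]
  rw [e0, e0, map_sub, map_smul, map_smul, L.rho.map_mul]
  simp only [mul_one, one_mul, smul_eq_mul, Matrix.mul_assoc]

lemma m1_ip (α : Fin n) (g h : G) (a a' : ℝ) :
    -ip 1 (m1 L α (L.rho g) (L.rho h) a a' 0) =
      -(a * fi L α (g * h)) + a' * fi L α (h * g) := by
  unfold m1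
  have e0 : ∀ a : ℝ, L.rho (L.ex α (0 * a)) = 1 := fun a => by
    rw [zero_mul, L.ex_zero, map_one]
  have e1 : ip 1 (L.X α * L.rho g * L.rho h) = fi L α (g * h) := by
    unfold fi
    rw [ip_apply, trX_apply, conjTranspose_one, one_mul, L.rho.map_mul, Matrix.mul_assoc]
  have e2 : ip 1 (L.rho g * L.X α * L.rho h) = fi L α (h * g) := by
    unfold fi
    rw [ip_apply, trX_apply, conjTranspose_one, one_mul, L.rho.map_mul, trace_mul_comm,
      ← Matrix.mul_assoc, ← Matrix.mul_assoc, trace_mul_comm, Matrix.mul_assoc]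
  rw [e0, e0, map_sub, map_smul, map_smul]
  simp only [mul_one, one_mul, smul_eq_mul]
  rw [e1, e2]; ring

/-- the derivative of the action to first order -/
theorem V_act_bound (hA : AB M A) (hMl : M < l) (α : Fin n) (U : Ed d l → G) :
    |(Vf L A ι α (aS0 L d l)).1 U - ∑ k, ip2 (Dp k A)
      (fun x => fi L α (Pc U x * plqT U x ι k * (Pc U x)⁻¹))| ≤
      ((∑ x, |A x|) * (2 * d * (d * M))) * sB L M U ^ 2 := by
  rw [V_act0]
  have hs := sB_nonneg (L := L) M U
  have h1 : ∑ k, ip2 (Dp k A) (fun x => fi L α (Pc U x * plqT U x ι k * (Pc U x)⁻¹)) =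
      ∑ x, ∑ k, (if k ≠ ι then
        (A (x + eT k) - A x) * fi L α (Pc U x * plqT U x ι k * (Pc U x)⁻¹) else 0) := by
    unfold ip2 Dp
    rw [Finset.sum_comm]
    refine Finset.sum_congr rfl fun x _ => Finset.sum_congr rfl fun k _ => ?_
    split_ifs with hk
    · rfl
    · have : k = ι := not_not.1 hk
      subst this
      have h2 : plqT U x k k = 1 := by unfold plqT; group
      simp only [h2, mul_one, mul_inv_cancel, fi_one, mul_zero]
  rw [h1, ← Finset.sum_sub_distrib]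
  have h2 : ∀ x k, |(if k ≠ ι then
      -ip 1 (m1 L α (L.rho (gB U ι k x)) (L.rho (tlT U x k)⁻¹) (A x) (A (x + eT k)) 0) else 0) -
      (if k ≠ ι then
        (A (x + eT k) - A x) * fi L α (Pc U x * plqT U x ι k * (Pc U x)⁻¹) else 0)| ≤
      |A (x + eT k)| * (2 * (d * M * sB L M U) * sB L M U) := by
    intro x k
    by_cases hk : k ≠ ι
    · rw [if_pos hk, if_pos hk, m1_ip]
      by_cases h0 : A (x + eT k) = 0
      · rw [h0, abs_zero, zero_mul, zero_mul, add_zero, gB_mul]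
        simp
      · obtain ⟨hb, hl⟩ := ab_near hA hMl (Or.inr h0)
        have h3 := fi_conj (L := L) α (tlT U x k)⁻¹ (gB U ι k x * (tlT U x k)⁻¹)
        have h4 : (tlT U x k)⁻¹ * (gB U ι k x * (tlT U x k)⁻¹) * (tlT U x k)⁻¹⁻¹ =
            (tlT U x k)⁻¹ * gB U ι k x := by group
        rw [h4] at h3
        have h5 : -(A x * fi L α (gB U ι k x * (tlT U x k)⁻¹)) +
            A (x + eT k) * fi L α ((tlT U x k)⁻¹ * gB U ι k x) -
            (A (x + eT k) - A x) * fi L α (Pc U x * plqT U x ι k * (Pc U x)⁻¹) =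
            A (x + eT k) * (fi L α ((tlT U x k)⁻¹ * gB U ι k x) -
              fi L α (gB U ι k x * (tlT U x k)⁻¹)) := by
          rw [gB_mul]; ring
        rw [h5, abs_mul]
        refine mul_le_mul_of_nonneg_left (h3.trans ?_) (abs_nonneg _)
        rw [gB_mul, dv_conj, dv_inv]
        have h6 : dv L (plqT U x ι k) ≤ sB L M U := le_sB'' U hb hk.symm
        have h7 := dv_tlT (L := L) U hb hl
        calc 2 * dv L (tlT U x k) * dv L (plqT U x ι k) ≤ 2 * (d * M * sB L M U) * sB L M U :=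
              mul_le_mul (by linarith) h6 (dv_nonneg _) (by positivity)
          _ = _ := rfl
    · rw [if_neg hk, if_neg hk, sub_self, abs_zero]
      positivity
  refine (Finset.abs_sum_le_sum_abs _ _).trans ?_
  have h3 : ∀ x, |∑ k, (if k ≠ ι then
      -ip 1 (m1 L α (L.rho (gB U ι k x)) (L.rho (tlT U x k)⁻¹) (A x) (A (x + eT k)) 0) else 0) -
      ∑ k, (if k ≠ ι then
        (A (x + eT k) - A x) * fi L α (Pc U x * plqT U x ι k * (Pc U x)⁻¹) else 0)| ≤
      ∑ k, |A (x + eT k)| * (2 * (d * M * sB L M U) * sB L M U) := by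
    intro x
    rw [← Finset.sum_sub_distrib]
    exact (Finset.abs_sum_le_sum_abs _ _).trans (Finset.sum_le_sum fun k _ => h2 x k)
  refine (Finset.sum_le_sum fun x _ => h3 x).trans (le_of_eq ?_)
  rw [Finset.sum_comm]
  have h4 : ∀ k : Fin d, ∑ x, |A (x + eT k)| * (2 * (d * M * sB L M U) * sB L M U) =
      (∑ x, |A x|) * (2 * (d * M * sB L M U) * sB L M U) := fun k => by
    rw [← Finset.sum_mul, sum_shift (eT k) (fun x => |A x|)]
  rw [Finset.sum_congr rfl fun k _ => h4 k, Finset.sum_const, Finset.card_univ, Fintype.card_fin,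
    nsmul_eq_mul]
  ring

/-! ### the flux -/

lemma hasDeriv_conj (α : Fin n) (lam : ℝ) {F : ℝ → Mat N} {F' : Mat N}
    (hF : HasDerivAt F F' 0) :
    HasDerivAt (fun s => L.rho (L.ex α (s * lam)) * F s * L.rho (L.ex α (s * -lam)))
      (lam • (L.X α * F 0 - F 0 * L.X α) + F') 0 := by
  have h1 := hasDeriv_ex (L := L) α lam 0
  have h2 := hasDeriv_ex (L := L) α (-lam) 0
  have h3 := (h1.mul hF).mul h2
  refine h3.congr_deriv ?_
  have e0 : ∀ a : ℝ, L.rho (L.ex α (0 * a)) = 1 := fun a => by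
    rw [zero_mul, L.ex_zero, map_one]
  simp only [Pi.mul_apply, e0]
  simp only [mul_one, one_mul, smul_mul_assoc, neg_smul, mul_neg, smul_sub]
  rw [mul_smul_comm]
  abel

lemma comm_bound (α b : Fin n) (g : G) :
    |trX L b (L.X α * L.rho g - L.rho g * L.X α)| ≤ 2 * dv L g := by
  have h : L.X α * L.rho g - L.rho g * L.X α =
      L.X α * (L.rho g - 1) - (L.rho g - 1) * L.X α := by noncomm_ring
  rw [h]
  refine (abs_trX b _).trans ((norm_sub_le _ _).trans ?_)
  have b1 := norm_mul_le (L.X α) (L.rho g - 1)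
  have b2 := norm_mul_le (L.rho g - 1) (L.X α)
  rw [norm_X] at b1 b2
  have b3 : ‖L.rho g - 1‖ = dv L g := rfl
  rw [b3] at b1 b2
  linarith

/-- the derivative of the flux of one plaquette along a curve of configurations -/
lemma V_Phg {K : St d l → ℝ} {j k : Fin d} (α b : Fin n) (U : Ed d l → G)
    {a0 : ℝ} (ha0 : 0 ≤ a0) (ha : ∀ x, |A x| ≤ a0) (hK : ∀ x, K x ≠ 0 → ∀ i, wv x i < M)
    {c : St d l → ℝ} {W' : St d l → Mat N} {e : ℝ}
    (hW : ∀ x, HasDerivAt (fun s => L.rho (Pc U x * plqT (fl L A ι α s U) x j k * (Pc U x)⁻¹))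
      (W' x) 0)
    (hc : ∀ x, K x ≠ 0 → |trX L b (W' x) - c x| ≤ e)
    (hP : ∀ x, K x ≠ 0 → dv L (plqT U x j k) ≤ sB L M U) :
    |(Vf L A ι α (PhS L K j k b)).1 U - ∑ x, K x * c x| ≤
      (∑ x, |K x|) * (e + 2 * (d * M * a0) * sB L M U) := by
  have hs := sB_nonneg (L := L) M U
  have h1 := fl_deriv0 (A := A) (ι := ι) α (PhS L K j k b) U
  have hx : ∀ x, ∃ lam : ℝ, |K x| * |lam| ≤ |K x| * (d * M * a0) ∧ (K x = 0 ∨ ∀ s : ℝ,
      Pc (fl L A ι α s U) x = L.ex α (s * lam) * Pc U x) := by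
    intro x
    by_cases h0 : K x = 0
    · exact ⟨0, by rw [h0]; simp, Or.inl h0⟩
    · obtain ⟨lam, h2, h3⟩ := Pc_flg (L := L) (A := A) (ι := ι) ha0 ha α x (hK x h0)
      exact ⟨lam, mul_le_mul_of_nonneg_left h2 (abs_nonneg _), Or.inr fun s => h3 s U⟩
  choose lam hlam hPc using hx
  have h2 : (fun s => (PhS L K j k b).1 (fl L A ι α s U)) = fun s => ∑ x, K x *
      trX L b (L.rho (L.ex α (s * lam x)) *
        L.rho (Pc U x * plqT (fl L A ι α s U) x j k * (Pc U x)⁻¹) *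
        L.rho (L.ex α (s * -lam x))) := by
    funext s
    rw [PhS_apply]
    unfold Ph fi
    refine Finset.sum_congr rfl fun x _ => ?_
    rcases hPc x with h0 | h0
    · rw [h0, zero_mul, zero_mul]
    · congr 2
      rw [← L.rho.map_mul, ← L.rho.map_mul]
      congr 1
      rw [h0 s, mul_neg, ex_neg]
      group
  rw [h2] at h1
  have h3 : HasDerivAt (fun s => ∑ x, K x *
      trX L b (L.rho (L.ex α (s * lam x)) *
        L.rho (Pc U x * plqT (fl L A ι α s U) x j k * (Pc U x)⁻¹) *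
        L.rho (L.ex α (s * -lam x)))) (∑ x, K x * trX L b (lam x • (L.X α *
          L.rho (Pc U x * plqT U x j k * (Pc U x)⁻¹) -
          L.rho (Pc U x * plqT U x j k * (Pc U x)⁻¹) * L.X α) + W' x)) 0 := by
    refine HasDerivAt.fun_sum fun x _ => HasDerivAt.const_mul _ ?_
    have h4 := hasDeriv_conj (L := L) α (lam x) (hW x)
    simp only [fl_zero] at h4
    exact (trX L b).hasFDerivAt.comp_hasDerivAt (0 : ℝ) h4
  rw [h1.unique h3, ← Finset.sum_sub_distrib]
  refine (Finset.abs_sum_le_sum_abs _ _).trans ?_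
  rw [Finset.sum_mul]
  refine Finset.sum_le_sum fun x _ => ?_
  rw [← mul_sub, abs_mul]
  by_cases h0 : K x = 0
  · rw [h0]; simp
  rw [map_add, map_smul, smul_eq_mul]
  have e1 := hc x h0
  have e2 := comm_bound (L := L) α b (Pc U x * plqT U x j k * (Pc U x)⁻¹)
  rw [dv_conj] at e2
  have e3 := hP x h0
  obtain ⟨y, hy⟩ : ∃ y, y = trX L b (L.X α * L.rho (Pc U x * plqT U x j k * (Pc U x)⁻¹) -
    L.rho (Pc U x * plqT U x j k * (Pc U x)⁻¹) * L.X α) := ⟨_, rfl⟩
  rw [← hy] at e2 ⊢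
  have hKp : 0 < |K x| := abs_pos.2 h0
  have e4 : |lam x| ≤ d * M * a0 := le_of_mul_le_mul_left (hlam x) hKp
  refine mul_le_mul_of_nonneg_left ?_ hKp.le
  have e5 : lam x * y + trX L b (W' x) - c x = lam x * y + (trX L b (W' x) - c x) := by ring
  rw [e5]
  refine (abs_add_le _ _).trans ?_
  rw [abs_mul, add_comm]
  refine add_le_add e1 ?_
  calc |lam x| * |y| ≤ (d * M * a0) * (2 * sB L M U) :=
        mul_le_mul e4 (e2.trans (by linarith)) (abs_nonneg _) (by positivity)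
    _ = _ := by ring

/-- the derivative of the flux, first index -/
theorem V_Ph_first (hA : AB M A) (hMl : M < l) {a0 : ℝ} (ha0 : 0 ≤ a0) (ha : ∀ x, |A x| ≤ a0)
    {K : St d l → ℝ} (hK : ∀ x, K x ≠ 0 → ∀ i, wv x i < M) {k : Fin d} (hk : k ≠ ι)
    (α b : Fin n) (U : Ed d l → G) :
    |(Vf L A ι α (PhS L K ι k b)).1 U - (if b = α then ip2 K (Dp k A) else 0)| ≤
      (∑ x, |K x|) * (a0 * (4 * (d * M + 1)) * sB L M U) := by
  have hs := sB_nonneg (L := L) M U
  have h1 := V_Phg (L := L) (A := A) (ι := ι) (K := K) (j := ι) (k := k) (M := M) α b U ha0 ha hK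
    (c := fun x => (if b = α then (1 : ℝ) else 0) * (A (x + eT k) - A x))
    (W' := fun x => m1 L α (L.rho (gB U ι k x)) (L.rho (tlT U x k)⁻¹) (A x) (A (x + eT k)) 0)
    (e := a0 * (2 * (d * M + 1)) * sB L M U) (fun x => by
      have h2 := hasDeriv_m (L := L) α (L.rho (gB U ι k x)) (L.rho (tlT U x k)⁻¹) (A x)
        (A (x + eT k)) 0
      refine h2.congr_of_eventuallyEq (Filter.Eventually.of_forall fun s => ?_)
      simp only
      rw [plq_flg _ _ _ _ hk, L.rho.map_mul, L.rho.map_mul, L.rho.map_mul])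
    (fun x h0 => by
      rw [m1_zero]
      have hb := hK x h0
      have h1 := X_right (L := L) b α (gB U ι k x * (tlT U x k)⁻¹)
      have h2 := X_sand (L := L) b α (gB U ι k x) (tlT U x k)⁻¹
      rw [trX_X, sub_neg_eq_add, gB_mul, dv_conj] at h1 h2
      rw [dv_inv] at h2
      have h3 : dv L (plqT U x ι k) ≤ sB L M U := le_sB'' U hb hk.symm
      have h4 := dv_tlT (L := L) U hb (show wv x k + 1 < l by have := hb k; omega)
      rw [gB_mul]
      obtain ⟨δ, hδ⟩ : ∃ δ : ℝ, δ = if b = α then 1 else 0 := ⟨_, rfl⟩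
      obtain ⟨x1, hx1⟩ : ∃ y, y = trX L b (L.X α * L.rho (Pc U x * plqT U x ι k * (Pc U x)⁻¹)) :=
        ⟨_, rfl⟩
      obtain ⟨x2, hx2⟩ : ∃ y, y = trX L b (L.rho (gB U ι k x) * L.X α * L.rho (tlT U x k)⁻¹) :=
        ⟨_, rfl⟩
      rw [← hx1, ← hδ] at h1
      rw [← hx2, ← hδ] at h2
      rw [← hx1, ← hx2, ← hδ]
      have e1 : A x * x1 - A (x + eT k) * x2 - δ * (A (x + eT k) - A x) =
          A x * (x1 + δ) - A (x + eT k) * (x2 + δ) := by ring
      rw [e1, sub_eq_add_neg]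
      refine (abs_add_le _ _).trans ?_
      rw [abs_neg, abs_mul, abs_mul]
      have f1 : |A x| * |x1 + δ| ≤ a0 * sB L M U :=
        mul_le_mul (ha x) (h1.trans h3) (abs_nonneg _) ha0
      have f2 : |A (x + eT k)| * |x2 + δ| ≤ a0 * (sB L M U + 2 * (d * M * sB L M U)) :=
        mul_le_mul (ha _) (h2.trans (by linarith)) (abs_nonneg _) ha0
      nlinarith)
    (fun x h0 => le_sB'' U (hK x h0) hk.symm)
  have h2 : (if b = α then ip2 K (Dp k A) else 0) =
      ∑ x, K x * ((if b = α then (1 : ℝ) else 0) * (A (x + eT k) - A x)) := by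
    unfold ip2 Dp
    split_ifs <;> simp
  rw [h2]
  refine h1.trans (mul_le_mul_of_nonneg_left ?_ (Finset.sum_nonneg fun x _ => abs_nonneg _))
  have h3 : 0 ≤ a0 * sB L M U := by positivity
  nlinarith

/-- the derivative of the flux, other indices -/
theorem V_Ph_none {a0 : ℝ} (ha0 : 0 ≤ a0) (ha : ∀ x, |A x| ≤ a0)
    {K : St d l → ℝ} (hK : ∀ x, K x ≠ 0 → ∀ i, wv x i < M) {j k : Fin d} (hj : j ≠ ι)
    (hk : k ≠ ι) (α b : Fin n) (U : Ed d l → G) :
    |(Vf L A ι α (PhS L K j k b)).1 U| ≤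
      (∑ x, |K x|) * (a0 * (4 * (d * M + 1)) * sB L M U) := by
  have hs := sB_nonneg (L := L) M U
  have h1 := V_Phg (L := L) (A := A) (ι := ι) (K := K) (j := j) (k := k) (M := M) α b U ha0 ha hK
    (c := fun x => 0) (W' := fun x => 0) (e := 0) (fun x => by
      simp only [plq_fln α _ U x hj hk]
      exact hasDerivAt_const _ _)
    (fun x h0 => by simp)
    (fun x h0 => by
      by_cases hjk : j = k
      · subst hjk
        have h2 : plqT U x j j = 1 := by unfold plqT; group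
        rw [h2, dv_one]; exact hs
      · exact le_sB'' U (hK x h0) hjk)
  simp only [mul_zero, Finset.sum_const_zero, sub_zero, zero_add] at h1
  refine h1.trans (mul_le_mul_of_nonneg_left ?_ (Finset.sum_nonneg fun x _ => abs_nonneg _))
  have h3 : 0 ≤ a0 * sB L M U := by positivity
  have h4 : 0 ≤ a0 * (d * M) * sB L M U := by positivity
  nlinarith

end

end Pool.Agent.W793.YM
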