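import Mathlib
import Pool.Agent.W793.YM.VGen
import Pool.Agent.W793.YM.Var

/-!
# Integration by parts for the curvature smeared with an exact form
-/

open MeasureTheory Matrix
open scoped Matrix.Norms.Frobenius ContDiff
open Pool.Agent.H906R3.YM

namespace Pool.Agent.W793.YM

set_option linter.unusedSectionVars false
set_option linter.unusedVariables false

noncomputable section

section trig

variable {G : Type*} [Group G] [TopologicalSpace G] {N n : ℕ} {L : LD G N n}
  {E : Type*} [Fintype E] [DecidableEq E]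

/-- the cosine of a smooth function -/
def scos (F : Sm L E) : Sm L E :=
  ⟨fun U => Real.cos (F.1 U), by
    obtain ⟨f, hf, h⟩ := F.2
    exact ⟨fun M => Real.cos (f M), Real.contDiff_cos.comp hf, fun U => by simp only [h]⟩⟩

/-- the sine of a smooth function -/
def ssin (F : Sm L E) : Sm L E :=
  ⟨fun U => Real.sin (F.1 U), by
    obtain ⟨f, hf, h⟩ := F.2
    exact ⟨fun M => Real.sin (f M), Real.contDiff_sin.comp hf, fun U => by simp only [h]⟩⟩

lemma Dv_scos (F : Sm L E) (j : E × Fin n) : L.Dv j (scos F) = -(ssin F * L.Dv j F) := by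
  apply Subtype.ext
  funext U
  have h1 := hasDerivAt_dF F.2 j.1 j.2 U 0
  rw [L.shift_zero] at h1
  have h2 := h1.cos
  rw [L.shift_zero] at h2
  have h3 : (L.Dv j (scos F)).1 U = -Real.sin (F.1 U) * (L.Dv j F).1 U := h2.deriv
  rw [h3]
  show _ = -(Real.sin (F.1 U) * (L.Dv j F).1 U)
  ring

lemma Dv_ssin (F : Sm L E) (j : E × Fin n) : L.Dv j (ssin F) = scos F * L.Dv j F := by
  apply Subtype.ext
  funext U
  have h1 := hasDerivAt_dF F.2 j.1 j.2 U 0
  rw [L.shift_zero] at h1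
  have h2 := h1.sin
  rw [L.shift_zero] at h2
  exact h2.deriv

end trig

variable {G : Type*} [Group G] [TopologicalSpace G] [IsTopologicalGroup G] [CompactSpace G]
  [SecondCountableTopology G] [MeasurableSpace G] [BorelSpace G] (μ : Measure G)
  [IsProbabilityMeasure μ] [μ.IsMulLeftInvariant] [μ.IsMulRightInvariant] [μ.IsInvInvariant]
  {N n : ℕ} {L : LD G N n} {d l : ℕ} [NeZero l] {M : ℕ}

variable (L) in
/-- the curvature, transported to the corner -/
def Fz (U : Ed d l → G) (a : Fin n) : Fm d l :=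
  fun j k x => fi L a (Pc U x * plqT U x j k * (Pc U x)⁻¹)

lemma Fz_asy (U : Ed d l → G) (a : Fin n) : Asy (Fz L U a) := by
  intro j k
  funext x
  rw [Pi.neg_apply]
  unfold Fz
  rw [← fi_inv, plqT_swap U x j k]
  congr 1
  group

variable (L) in
/-- the smeared curvature -/
def Fs (f : Fin n → Fm d l) (U : Ed d l → G) : ℝ := ∑ a, ipF (f a) (Fz L U a)

variable (L) in
/-- the smeared curvature as a smooth function -/
def FsS (f : Fin n → Fm d l) : Sm L (Ed d l) :=
  ∑ a, ∑ j, ∑ k, (1 / 2 : ℝ) • PhS L (f a j k) j k a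

lemma FsS_apply (f : Fin n → Fm d l) (U : Ed d l → G) : (FsS L f).1 U = Fs L f U := by
  unfold FsS
  rw [ev_sum]
  unfold Fs
  refine Finset.sum_congr rfl fun a _ => ?_
  rw [ev_sum]
  unfold ipF
  rw [Finset.mul_sum]
  refine Finset.sum_congr rfl fun j _ => ?_
  rw [ev_sum, Finset.mul_sum]
  refine Finset.sum_congr rfl fun k _ => ?_
  have h1 : ((1 / 2 : ℝ) • PhS L (f a j k) j k a).1 U = 1 / 2 * (PhS L (f a j k) j k a).1 U := rfl
  rw [h1, PhS_apply]
  rfl

variable (L) in
/-- the vector field of a one form -/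
def VA (A : Fin n → Fin d → St d l → ℝ) : Derivation ℝ (Sm L (Ed d l)) (Sm L (Ed d l)) :=
  ∑ α, ∑ ι, Vf L (A α ι) ι α

variable {A : Fin n → Fin d → St d l → ℝ}

lemma VA_apply (F : Sm L (Ed d l)) : VA L A F = ∑ α, ∑ ι, Vf L (A α ι) ι α F := by
  unfold VA
  have h1 : ∀ (s : Finset (Fin n)) (f : Fin n →
      Derivation ℝ (Sm L (Ed d l)) (Sm L (Ed d l))), (∑ x ∈ s, f x) F = ∑ x ∈ s, f x F := by
    intro s f
    exact map_sum (Pi.evalAddMonoidHom _ F |>.comp
      (Derivation.coeFnAddMonoidHom (R := ℝ) (A := Sm L (Ed d l)) (M := Sm L (Ed d l)))) f s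
  have h2 : ∀ (s : Finset (Fin d)) (f : Fin d →
      Derivation ℝ (Sm L (Ed d l)) (Sm L (Ed d l))), (∑ x ∈ s, f x) F = ∑ x ∈ s, f x F := by
    intro s f
    exact map_sum (Pi.evalAddMonoidHom _ F |>.comp
      (Derivation.coeFnAddMonoidHom (R := ℝ) (A := Sm L (Ed d l)) (M := Sm L (Ed d l)))) f s
  rw [h1]
  exact Finset.sum_congr rfl fun α _ => h2 _ _

lemma VA_val (F : Sm L (Ed d l)) (U : Ed d l → G) :
    (VA L A F).1 U = ∑ α, ∑ ι, (Vf L (A α ι) ι α F).1 U := by
  rw [VA_apply, ev_sum]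
  exact Finset.sum_congr rfl fun α _ => ev_sum _ _ _

lemma I_VA (F : Sm L (Ed d l)) : L.I μ (VA L A F) = 0 := by
  rw [VA_apply, map_sum]
  refine Finset.sum_eq_zero fun α _ => ?_
  rw [map_sum]
  exact Finset.sum_eq_zero fun ι _ => I_Vf μ _ _

lemma VA_sexp (F : Sm L (Ed d l)) : VA L A (sexp F) = sexp F * VA L A F := by
  rw [VA_apply, VA_apply, Finset.mul_sum]
  refine Finset.sum_congr rfl fun α _ => ?_
  rw [Finset.mul_sum]
  exact Finset.sum_congr rfl fun ι _ => Vf_sexp _ _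

lemma VA_scos (F : Sm L (Ed d l)) : VA L A (scos F) = -(ssin F * VA L A F) := by
  rw [VA_apply, VA_apply, Finset.mul_sum, ← Finset.sum_neg_distrib]
  refine Finset.sum_congr rfl fun α _ => ?_
  rw [Finset.mul_sum, ← Finset.sum_neg_distrib]
  refine Finset.sum_congr rfl fun ι _ => ?_
  rw [Vf_eq, Vf_eq, Finset.mul_sum, ← Finset.sum_neg_distrib]
  refine Finset.sum_congr rfl fun x _ => ?_
  rw [Finset.mul_sum, ← Finset.sum_neg_distrib]
  refine Finset.sum_congr rfl fun b _ => ?_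
  rw [Dv_scos]; ring

lemma VA_ssin (F : Sm L (Ed d l)) : VA L A (ssin F) = scos F * VA L A F := by
  rw [VA_apply, VA_apply, Finset.mul_sum]
  refine Finset.sum_congr rfl fun α _ => ?_
  rw [Finset.mul_sum]
  refine Finset.sum_congr rfl fun ι _ => ?_
  rw [Vf_eq, Vf_eq, Finset.mul_sum]
  refine Finset.sum_congr rfl fun x _ => ?_
  rw [Finset.mul_sum]
  refine Finset.sum_congr rfl fun b _ => ?_
  rw [Dv_ssin]; ring

lemma ipF_d1' {f : Fm d l} (hf : Asy f) (a : Fin d → St d l → ℝ) :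
    ipF (d1 a) f = -∑ ι, ∑ k, ip2 (Dp k (a ι)) (f ι k) := by
  rw [ipF_comm, ipF_d1 hf, Finset.sum_comm, ← Finset.sum_neg_distrib]
  refine Finset.sum_congr rfl fun ι _ => ?_
  rw [← Finset.sum_neg_distrib]
  refine Finset.sum_congr rfl fun k _ => ?_
  rw [hf k ι, ip2_neg_left, ip2_comm]

/-- the derivative of the action along a one form -/
theorem VA_act (hA : ∀ α ι, AB M (A α ι)) (hMl : M < l) (U : Ed d l → G) :
    |(VA L A (aS0 L d l)).1 U + ∑ α, ipF (d1 (A α)) (Fz L U α)| ≤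
      (∑ α, ∑ ι, ∑ x, |A α ι x|) * (2 * d * (d * M)) * sB L M U ^ 2 := by
  rw [VA_val]
  have h1 : ∑ α, ∑ ι, (Vf L (A α ι) ι α (aS0 L d l)).1 U + ∑ α, ipF (d1 (A α)) (Fz L U α) =
      ∑ α, ∑ ι, ((Vf L (A α ι) ι α (aS0 L d l)).1 U - ∑ k, ip2 (Dp k (A α ι))
        (fun x => fi L α (Pc U x * plqT U x ι k * (Pc U x)⁻¹))) := by
    rw [← Finset.sum_add_distrib]
    refine Finset.sum_congr rfl fun α _ => ?_
    rw [ipF_d1' (Fz_asy U α), Finset.sum_sub_distrib]
    rfl
  rw [h1]
  refine (Finset.abs_sum_le_sum_abs _ _).trans ?_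
  rw [Finset.sum_mul, Finset.sum_mul]
  refine Finset.sum_le_sum fun α _ => ?_
  refine (Finset.abs_sum_le_sum_abs _ _).trans ?_
  rw [Finset.sum_mul, Finset.sum_mul]
  exact Finset.sum_le_sum fun ι _ => V_act_bound (hA α ι) hMl α U

lemma PhS_self (K : St d l → ℝ) (j : Fin d) (a : Fin n) : PhS L K j j a = 0 := by
  apply Subtype.ext
  funext U
  rw [PhS_apply]
  unfold Ph
  have h2 : ∀ x, plqT U x j j = 1 := fun x => by unfold plqT; group
  simp only [h2, mul_one, mul_inv_cancel, fi_one, mul_zero, Finset.sum_const_zero]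
  rfl

lemma PhS_swap (K : St d l → ℝ) (j k : Fin d) (a : Fin n) :
    PhS L K j k a = -PhS L K k j a := by
  apply Subtype.ext
  funext U
  have h1 : (-PhS L K k j a).1 U = -(PhS L K k j a).1 U := rfl
  rw [h1, PhS_apply, PhS_apply]
  unfold Ph
  rw [← Finset.sum_neg_distrib]
  refine Finset.sum_congr rfl fun x _ => ?_
  have h2 := congrFun (Fz_asy (L := L) U a j k) x
  rw [Pi.neg_apply] at h2
  unfold Fz at h2
  rw [h2]; ring

/-- the derivative of the smeared flux along a one form -/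
theorem VA_PhS (hA : ∀ α ι, AB M (A α ι)) (hMl : M < l) {a0 : ℝ} (ha0 : 0 ≤ a0)
    (ha : ∀ α ι x, |A α ι x| ≤ a0) {K : St d l → ℝ} (hK : ∀ x, K x ≠ 0 → ∀ i, wv x i < M)
    (j k : Fin d) (a : Fin n) (U : Ed d l → G) :
    |(VA L A (PhS L K j k a)).1 U - (ip2 K (Dp k (A a j)) - ip2 K (Dp j (A a k)))| ≤
      (∑ x, |K x|) * (n * d * (a0 * (4 * (d * M + 1)) * sB L M U)) := by
  have hs := sB_nonneg (L := L) M U
  by_cases hjk : j = k
  · subst hjk
    rw [PhS_self, map_zero, sub_self, sub_zero]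
    show |(0 : ℝ)| ≤ _
    rw [abs_zero]
    positivity
  rw [VA_val]
  obtain ⟨c, hc⟩ : ∃ c : Fin n → Fin d → ℝ, c = fun α ι => if a = α then
      ((if ι = j then ip2 K (Dp k (A α ι)) else 0) - if ι = k then ip2 K (Dp j (A α ι)) else 0)
      else 0 := ⟨_, rfl⟩
  have h1 : ip2 K (Dp k (A a j)) - ip2 K (Dp j (A a k)) = ∑ α, ∑ ι, c α ι := by
    rw [hc, Finset.sum_eq_single a]
    · simp only [if_true, Finset.sum_sub_distrib, Finset.sum_ite_eq', Finset.mem_univ]
    · intro α _ hα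
      simp only [if_neg hα.symm, Finset.sum_const_zero]
    · intro h; exact absurd (Finset.mem_univ _) h
  have h2 : ∀ α ι, |(Vf L (A α ι) ι α (PhS L K j k a)).1 U - c α ι| ≤
      (∑ x, |K x|) * (a0 * (4 * (d * M + 1)) * sB L M U) := by
    intro α ι
    rw [hc]
    simp only
    by_cases hj : ι = j
    · subst hj
      rw [if_pos rfl, if_neg hjk, sub_zero]
      exact V_Ph_first (hA α ι) hMl ha0 (ha α ι) hK (fun h => hjk h.symm) α a U
    · by_cases hk : ι = k
      · subst hk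
        rw [if_neg hj, if_pos rfl, zero_sub, PhS_swap, map_neg]
        have h3 := V_Ph_first (L := L) (hA α ι) hMl ha0 (ha α ι) hK (k := j) (fun h => hj h.symm) α a U
        have h4 : (-(Vf L (A α ι) ι α) (PhS L K ι j a)).1 U =
            -((Vf L (A α ι) ι α) (PhS L K ι j a)).1 U := rfl
        rw [h4]
        have h5 : -((Vf L (A α ι) ι α) (PhS L K ι j a)).1 U -
            (if a = α then -ip2 K (Dp j (A α ι)) else 0) =
            -(((Vf L (A α ι) ι α) (PhS L K ι j a)).1 U -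
              (if a = α then ip2 K (Dp j (A α ι)) else 0)) := by
          split_ifs <;> ring
        rw [h5, abs_neg]
        exact h3
      · rw [if_neg hj, if_neg hk, sub_zero, ite_self, sub_zero]
        exact V_Ph_none ha0 (ha α ι) hK (fun h => hj h.symm) (fun h => hk h.symm) α a U
  rw [h1, ← Finset.sum_sub_distrib]
  refine (Finset.abs_sum_le_sum_abs _ _).trans ?_
  calc ∑ α, |∑ ι, (Vf L (A α ι) ι α (PhS L K j k a)).1 U - ∑ ι, c α ι| ≤
      ∑ _α : Fin n, ∑ _ι : Fin d, (∑ x, |K x|) * (a0 * (4 * (d * M + 1)) * sB L M U) := by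
        refine Finset.sum_le_sum fun α _ => ?_
        rw [← Finset.sum_sub_distrib]
        exact (Finset.abs_sum_le_sum_abs _ _).trans (Finset.sum_le_sum fun ι _ => h2 α ι)
    _ = _ := by
        simp only [Finset.sum_const, Finset.card_univ, Fintype.card_fin, nsmul_eq_mul]
        ring

/-- the total mass of a form -/
def N1 (f : Fin n → Fm d l) : ℝ := ∑ a, ∑ j, ∑ k, ∑ x, |f a j k x|

lemma N1_nonneg (f : Fin n → Fm d l) : 0 ≤ N1 f :=
  Finset.sum_nonneg fun _ _ => Finset.sum_nonneg fun _ _ => Finset.sum_nonneg fun _ _ =>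
    Finset.sum_nonneg fun _ _ => abs_nonneg _

/-- support in a box -/
def BX (M : ℕ) (f : Fin n → Fm d l) : Prop := ∀ a j k x, f a j k x ≠ 0 → ∀ i, wv x i < M

/-- the derivative of the smeared curvature along a one form -/
theorem VA_Fs (hA : ∀ α ι, AB M (A α ι)) (hMl : M < l) {a0 : ℝ} (ha0 : 0 ≤ a0)
    (ha : ∀ α ι x, |A α ι x| ≤ a0) {f : Fin n → Fm d l} (hf : ∀ a, Asy (f a)) (hK : BX M f)
    (U : Ed d l → G) :
    |(VA L A (FsS L f)).1 U + ∑ a, ipF (f a) (d1 (A a))| ≤
      N1 f * (2 * n * d * (a0 * (d * M + 1))) * sB L M U := by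
  have h1 : VA L A (FsS L f) = ∑ a, ∑ j, ∑ k, (1 / 2 : ℝ) • VA L A (PhS L (f a j k) j k a) := by
    unfold FsS
    rw [map_sum]
    refine Finset.sum_congr rfl fun a _ => ?_
    rw [map_sum]
    refine Finset.sum_congr rfl fun j _ => ?_
    rw [map_sum]
    exact Finset.sum_congr rfl fun k _ => Derivation.map_smul _ _ _
  have h2 : (VA L A (FsS L f)).1 U =
      ∑ a, ∑ j, ∑ k, 1 / 2 * (VA L A (PhS L (f a j k) j k a)).1 U := by
    rw [h1, ev_sum]
    refine Finset.sum_congr rfl fun a _ => ?_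
    rw [ev_sum]
    refine Finset.sum_congr rfl fun j _ => ?_
    rw [ev_sum]
    rfl
  have h3 : ∀ a, ipF (f a) (d1 (A a)) = -∑ j, ∑ k, 1 / 2 *
      (ip2 (f a j k) (Dp k (A a j)) - ip2 (f a j k) (Dp j (A a k))) := by
    intro a
    unfold ipF d1
    rw [Finset.mul_sum, ← Finset.sum_neg_distrib]
    refine Finset.sum_congr rfl fun j _ => ?_
    rw [Finset.mul_sum, ← Finset.sum_neg_distrib]
    refine Finset.sum_congr rfl fun k _ => ?_
    rw [ip2_sub_right]; ring
  have h4 : (VA L A (FsS L f)).1 U + ∑ a, ipF (f a) (d1 (A a)) =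
      ∑ a, ∑ j, ∑ k, 1 / 2 * ((VA L A (PhS L (f a j k) j k a)).1 U -
        (ip2 (f a j k) (Dp k (A a j)) - ip2 (f a j k) (Dp j (A a k)))) := by
    rw [h2, ← Finset.sum_add_distrib]
    refine Finset.sum_congr rfl fun a _ => ?_
    rw [h3, ← sub_eq_add_neg, ← Finset.sum_sub_distrib]
    refine Finset.sum_congr rfl fun j _ => ?_
    rw [← Finset.sum_sub_distrib]
    exact Finset.sum_congr rfl fun k _ => by ring
  rw [h4]
  have h5 : ∀ a j k, |1 / 2 * ((VA L A (PhS L (f a j k) j k a)).1 U -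
        (ip2 (f a j k) (Dp k (A a j)) - ip2 (f a j k) (Dp j (A a k))))| ≤
      (∑ x, |f a j k x|) * ((2 * n * d * (a0 * (d * M + 1))) * sB L M U) := by
    intro a j k
    rw [abs_mul, abs_of_nonneg (show (0 : ℝ) ≤ 1 / 2 by norm_num)]
    have h6 := VA_PhS (L := L) hA hMl ha0 ha (K := f a j k) (hK a j k) j k a U
    calc _ ≤ 1 / 2 * ((∑ x, |f a j k x|) * (n * d * (a0 * (4 * (d * M + 1)) * sB L M U))) :=
          mul_le_mul_of_nonneg_left h6 (by norm_num)
      _ = _ := by ring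
  unfold N1
  rw [Finset.sum_mul, Finset.sum_mul]
  refine (Finset.abs_sum_le_sum_abs _ _).trans (Finset.sum_le_sum fun a _ => ?_)
  rw [Finset.sum_mul, Finset.sum_mul]
  refine (Finset.abs_sum_le_sum_abs _ _).trans (Finset.sum_le_sum fun j _ => ?_)
  rw [Finset.sum_mul, Finset.sum_mul]
  refine (Finset.abs_sum_le_sum_abs _ _).trans (Finset.sum_le_sum fun k _ => ?_)
  rw [mul_assoc]
  exact h5 a j k

/-! ### closed forms -/

/-- the potential in the comb gauge -/
def at' (L : LD G N n) (U : Ed d l → G) (a : Fin n) : Fin d → St d l → ℝ :=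
  fun k x => fi L a (tlT U x k)

lemma Fz_closed {U : Ed d l → G} {x : St d l} (hx : ∀ i, wv x i + 1 < M) (hMl : M < l) (a : Fin n)
    (j k : Fin d) :
    |Fz L U a j k x - d1 (at' L U a) j k x| ≤ 6 * (d * M * sB L M U) ^ 2 := by
  have hs := sB_nonneg (L := L) M U
  by_cases hjk : j = k
  · subst hjk
    have h1 : Fz L U a j j x = 0 := by
      unfold Fz
      have h2 : plqT U x j j = 1 := by unfold plqT; group
      rw [h2, mul_one, mul_inv_cancel, fi_one]
    have h2 : d1 (at' L U a) j j x = 0 := by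
      unfold d1; rw [sub_self]; rfl
    rw [h1, h2, sub_self, abs_zero]
    positivity
  have hadd : ∀ i i' : Fin d, wv (x + eT i) i' < M := fun i i' => by
    rw [wv_add (by have := hx i; omega)]
    by_cases h : i' = i
    · subst h; simp only [Pi.add_apply, es_same]; exact hx _
    · simp only [Pi.add_apply, es_ne h, add_zero]; have := hx i'; omega
  have hl1 : ∀ i i' : Fin d, i' ≠ i → wv (x + eT i) i' + 1 < l := fun i i' h => by
    rw [wv_add_ne h]; have := hx i'; omega
  have hx' : ∀ i, wv x i < M := fun i => by have := hx i; omega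
  have p := fi_plq (L := L) a (dv_tlT (L := L) U hx' (k := j) (by have := hx j; omega))
    (dv_tlT (L := L) U (hadd j) (hl1 j k (fun h => hjk h.symm)))
    (dv_tlT (L := L) U (hadd k) (hl1 k j hjk))
    (dv_tlT (L := L) U hx' (k := k) (by have := hx k; omega))
  rw [← Pc_plqT] at p
  have e : Fz L U a j k x - d1 (at' L U a) j k x =
      fi L a (Pc U x * plqT U x j k * (Pc U x)⁻¹) - (fi L a (tlT U x j) +
        fi L a (tlT U (x + eT j) k) - fi L a (tlT U (x + eT k) j) - fi L a (tlT U x k)) := by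
    unfold Fz d1 at' Dp
    simp only [Pi.sub_apply]
    ring
  rw [e]
  exact p

/-- the curvature smeared with a coexact form -/
theorem Fs_cx {u : Fin n → Fm d l} (hu : ∀ a, Asy (u a))
    (hb : ∀ a j k x, cx (u a) j k x ≠ 0 → ∀ i, wv x i + 1 < M) (hMl : M < l)
    (U : Ed d l → G) :
    |Fs L (fun a => cx (u a)) U| ≤ N1 (fun a => cx (u a)) * (3 * (d * M * sB L M U) ^ 2) := by
  unfold Fs
  have h1 : ∀ a, ipF (cx (u a)) (Fz L U a) = ∑ j, ∑ k, ∑ x, 1 / 2 * (cx (u a) j k x *
      (Fz L U a j k x - d1 (at' L U a) j k x)) := by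
    intro a
    have h2 := cx_orth (hu a) (at' L U a)
    have h3 : ipF (cx (u a)) (Fz L U a) =
        ipF (cx (u a)) (Fz L U a) - ipF (cx (u a)) (d1 (at' L U a)) := by rw [h2, sub_zero]
    rw [h3]
    unfold ipF ip2
    rw [← mul_sub, ← Finset.sum_sub_distrib, Finset.mul_sum]
    refine Finset.sum_congr rfl fun j _ => ?_
    rw [← Finset.sum_sub_distrib, Finset.mul_sum]
    refine Finset.sum_congr rfl fun k _ => ?_
    rw [← Finset.sum_sub_distrib, Finset.mul_sum]
    exact Finset.sum_congr rfl fun x _ => by ring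
  rw [Finset.sum_congr rfl fun a _ => h1 a]
  unfold N1
  rw [Finset.sum_mul]
  refine (Finset.abs_sum_le_sum_abs _ _).trans (Finset.sum_le_sum fun a _ => ?_)
  rw [Finset.sum_mul]
  refine (Finset.abs_sum_le_sum_abs _ _).trans (Finset.sum_le_sum fun j _ => ?_)
  rw [Finset.sum_mul]
  refine (Finset.abs_sum_le_sum_abs _ _).trans (Finset.sum_le_sum fun k _ => ?_)
  rw [Finset.sum_mul]
  refine (Finset.abs_sum_le_sum_abs _ _).trans (Finset.sum_le_sum fun x _ => ?_)
  rw [abs_mul, abs_mul, abs_of_nonneg (show (0 : ℝ) ≤ 1 / 2 by norm_num)]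
  by_cases h0 : cx (u a) j k x = 0
  · rw [h0, abs_zero, zero_mul, mul_zero]; positivity
  · have h4 := Fz_closed (L := L) (U := U) (hb a j k x h0) hMl a j k
    have h5 : |cx (u a) j k x| * |Fz L U a j k x - d1 (at' L U a) j k x| ≤
        |cx (u a) j k x| * (6 * (d * M * sB L M U) ^ 2) :=
      mul_le_mul_of_nonneg_left h4 (abs_nonneg _)
    linarith

end

end Pool.Agent.W793.YM
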