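import Mathlib
import Pool.Agent.W793.YM.Gauss

/-!
# The characteristic function of the curvature smeared with an exact form
-/

open MeasureTheory Matrix
open scoped Matrix.Norms.Frobenius ContDiff
open Pool.Agent.H906R3.YM

namespace Pool.Agent.W793.YM

set_option linter.unusedSectionVars false
set_option linter.unusedVariables false

noncomputable section

section ode

lemma ode {c c' : ℝ → ℝ} {v ε : ℝ} (hv : 0 ≤ v) (hc : ∀ s, HasDerivAt c (c' s) s)
    (h : ∀ s, 0 ≤ s → s ≤ 1 → |c' s + s * v * c s| ≤ ε) :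
    |c 1 - c 0 * Real.exp (-(v / 2))| ≤ ε := by
  have hε : 0 ≤ ε := (abs_nonneg _).trans (h 0 le_rfl zero_le_one)
  have hd : ∀ s, HasDerivAt (fun s => c s * Real.exp (v / 2 * s ^ 2))
      ((c' s + s * v * c s) * Real.exp (v / 2 * s ^ 2)) s := by
    intro s
    have h1 : HasDerivAt (fun s : ℝ => v / 2 * s ^ 2) (v / 2 * (2 * s)) s := by
      have := (hasDerivAt_pow 2 s).const_mul (v / 2)
      simpa using this
    have h2 := (hc s).mul h1.exp
    refine h2.congr_deriv ?_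
    ring
  have h1 := Convex.norm_image_sub_le_of_norm_hasDerivWithin_le (s := Set.Icc (0 : ℝ) 1)
    (f := fun s => c s * Real.exp (v / 2 * s ^ 2))
    (f' := fun s => (c' s + s * v * c s) * Real.exp (v / 2 * s ^ 2)) (x := 0) (y := 1)
    (C := ε * Real.exp (v / 2)) (fun s _ => (hd s).hasDerivWithinAt) (fun s hs => by
      rw [norm_mul, Real.norm_eq_abs, Real.norm_eq_abs, Real.abs_exp]
      refine mul_le_mul (h s hs.1 hs.2) (Real.exp_le_exp.2 ?_) (Real.exp_pos _).le hε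
      have : s ^ 2 ≤ 1 := pow_le_one₀ hs.1 hs.2
      nlinarith) (convex_Icc 0 1) (by simp) (by simp)
  simp only [one_pow, mul_one, zero_pow, ne_eq, OfNat.ofNat_ne_zero, not_false_eq_true, mul_zero,
    Real.exp_zero, sub_zero, norm_one, Real.norm_eq_abs] at h1
  have h2 : c 1 - c 0 * Real.exp (-(v / 2)) =
      (c 1 * Real.exp (v / 2) - c 0) * Real.exp (-(v / 2)) := by
    rw [sub_mul, mul_assoc, ← Real.exp_add]
    simp
  rw [h2, abs_mul, Real.abs_exp]
  calc |c 1 * Real.exp (v / 2) - c 0| * Real.exp (-(v / 2)) ≤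
      ε * Real.exp (v / 2) * Real.exp (-(v / 2)) :=
        mul_le_mul_of_nonneg_right h1 (Real.exp_pos _).le
    _ = ε := by rw [mul_assoc, ← Real.exp_add]; simp

end ode

variable {G : Type*} [Group G] [TopologicalSpace G] [IsTopologicalGroup G] [CompactSpace G]
  [SecondCountableTopology G] [MeasurableSpace G] [BorelSpace G] (μ : Measure G)
  [IsProbabilityMeasure μ] [μ.IsMulLeftInvariant] [μ.IsMulRightInvariant] [μ.IsInvInvariant]
  {N n : ℕ} {L : LD G N n} {d l : ℕ} [NeZero l] {M : ℕ}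

variable (L) in
/-- the normalised expectation -/
def EX (β : ℝ) (F : (Ed d l → G) → ℝ) : ℝ := Zt μ L β F / Zt μ L β (fun _ : Ed d l → G => 1)

section basic

variable {β : ℝ} {F H : (Ed d l → G) → ℝ}

lemma EX_mono (hF : Continuous F) (hH : Continuous H) (h : ∀ U, F U ≤ H U) :
    EX μ L β F ≤ EX μ L β H := by
  unfold EX
  exact div_le_div_of_nonneg_right (Zt_mono μ hF hH h) (Zt_pos μ β).le

lemma EX_add (hF : Continuous F) (hH : Continuous H) :
    EX μ L β (fun U => F U + H U) = EX μ L β F + EX μ L β H := by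
  unfold EX
  rw [Zt_add μ hF hH, add_div]

lemma EX_smul (c : ℝ) (F : (Ed d l → G) → ℝ) : EX μ L β (fun U => c * F U) = c * EX μ L β F := by
  unfold EX
  rw [Zt_smul, mul_div_assoc]

lemma EX_neg (F : (Ed d l → G) → ℝ) : EX μ L β (fun U => -F U) = -EX μ L β F := by
  have := EX_smul μ (L := L) (β := β) (-1) F
  simpa using this

lemma EX_sub (hF : Continuous F) (hH : Continuous H) :
    EX μ L β (fun U => F U - H U) = EX μ L β F - EX μ L β H := by
  have c1 : Continuous fun U => -H U := hH.neg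
  simp only [sub_eq_add_neg]
  rw [EX_add μ hF c1, EX_neg]

lemma EX_nonneg (h : ∀ U, 0 ≤ F U) : 0 ≤ EX μ L β F :=
  div_nonneg (Zt_nonneg μ h) (Zt_pos μ β).le

lemma EX_one : EX μ L β (fun _ : Ed d l → G => 1) = 1 := div_self (Zt_pos μ β).ne'

lemma EX_const (c : ℝ) : EX μ L β (fun _ : Ed d l → G => c) = c := by
  have := EX_smul μ (L := L) (β := β) c (fun _ : Ed d l → G => 1)
  simp only [mul_one] at this
  rw [this, EX_one, mul_one]

lemma EX_abs (hF : Continuous F) : |EX μ L β F| ≤ EX μ L β (fun U => |F U|) := by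
  rw [abs_le, ← EX_neg]
  exact ⟨EX_mono μ hF.abs.neg hF fun U => neg_abs_le _, EX_mono μ hF hF.abs fun U => le_abs_self _⟩

lemma EX_sum {ι : Type*} (s : Finset ι) {F : ι → (Ed d l → G) → ℝ}
    (hF : ∀ i ∈ s, Continuous (F i)) :
    EX μ L β (fun U => ∑ i ∈ s, F i U) = ∑ i ∈ s, EX μ L β (F i) := by
  unfold EX
  rw [Zt_sum μ s hF, Finset.sum_div]

lemma EX_tr (z : Fin d → ZMod l) (F : (Ed d l → G) → ℝ) :
    EX μ L β (fun U => F (tr z U)) = EX μ L β F := by
  unfold EX; rw [Zt_tr]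

/-- expectations of close functions -/
lemma EX_close (hF : Continuous F) (hH : Continuous H) :
    |EX μ L β F - EX μ L β H| ≤ EX μ L β (fun U => |F U - H U|) := by
  rw [← EX_sub μ hF hH]
  exact EX_abs μ (hF.sub hH)

end basic

section deriv

variable {β : ℝ} {Φ : (Ed d l → G) → ℝ}

lemma bdd_cont (hΦ : Continuous Φ) : ∃ B, ∀ U, |Φ U| ≤ B := by
  obtain ⟨B, hB⟩ := (isCompact_range hΦ.abs).bddAbove
  exact ⟨B, fun U => hB ⟨U, rfl⟩⟩

lemma Zt_deriv (hΦ : Continuous Φ) {f f' : ℝ → ℝ} (hf : ∀ x, HasDerivAt f (f' x) x)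
    (hf' : Continuous f') (h1 : ∀ x, |f' x| ≤ 1) (s : ℝ) :
    HasDerivAt (fun s => Zt μ L β (fun U => f (s * Φ U)))
      (Zt μ L β (fun U => f' (s * Φ U) * Φ U)) s := by
  obtain ⟨B, hB⟩ := bdd_cont hΦ
  have hfc : Continuous f := continuous_iff_continuousAt.2 fun x => (hf x).continuousAt
  have c1 : ∀ s, Continuous fun U => f (s * Φ U) * Real.exp (-(β * act L U)) := fun s =>
    (hfc.comp (continuous_const.mul hΦ)).mul (wt_contT β)
  have c2 : Continuous fun U => f' (s * Φ U) * Φ U * Real.exp (-(β * act L U)) :=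
    ((hf'.comp (continuous_const.mul hΦ)).mul hΦ).mul (wt_contT β)
  have c3 : Continuous fun U : Ed d l → G => B * Real.exp (-(β * act L U)) :=
    continuous_const.mul (wt_contT β)
  unfold Zt
  refine (hasDerivAt_integral_of_dominated_loc_of_deriv_le (s := Set.univ)
    (bound := fun U => B * Real.exp (-(β * act L U))) Filter.univ_mem
    (F' := fun s U => f' (s * Φ U) * Φ U * Real.exp (-(β * act L U)))
    (Filter.Eventually.of_forall fun s => (c1 s).aestronglyMeasurable) (integrable_cont μ (c1 s))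
    c2.aestronglyMeasurable (Filter.Eventually.of_forall fun U s _ => ?_) (integrable_cont μ c3)
    (Filter.Eventually.of_forall fun U s _ => ?_)).2
  · rw [norm_mul, norm_mul, Real.norm_eq_abs, Real.norm_eq_abs, Real.norm_eq_abs, Real.abs_exp]
    refine mul_le_mul_of_nonneg_right ?_ (Real.exp_pos _).le
    calc |f' (s * Φ U)| * |Φ U| ≤ 1 * |Φ U| := mul_le_mul_of_nonneg_right (h1 _) (abs_nonneg _)
      _ ≤ B := by rw [one_mul]; exact hB U
  · have h2 : HasDerivAt (fun s => s * Φ U) (Φ U) s := by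
      simpa using (hasDerivAt_id s).mul_const (Φ U)
    exact ((hf _).comp s h2).mul_const _

lemma EX_deriv (hΦ : Continuous Φ) {f f' : ℝ → ℝ} (hf : ∀ x, HasDerivAt f (f' x) x)
    (hf' : Continuous f') (h1 : ∀ x, |f' x| ≤ 1) (s : ℝ) :
    HasDerivAt (fun s => EX μ L β (fun U => f (s * Φ U)))
      (EX μ L β (fun U => f' (s * Φ U) * Φ U)) s :=
  (Zt_deriv μ hΦ hf hf' h1 s).div_const _

end deriv

lemma EX_SD {A : Fin n → Fin d → St d l → ℝ} (β : ℝ) (F : Sm L (Ed d l)) :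
    EX μ L β (VA L A F).1 = β * EX μ L β (fun U => F.1 U * (VA L A (aS0 L d l)).1 U) := by
  unfold EX
  rw [SD μ (VA L A) (I_VA μ) VA_sexp β F, mul_div_assoc]
  rfl

lemma Fs_cont (f : Fin n → Fm d l) : Continuous (Fs L f : (Ed d l → G) → ℝ) := by
  have : (Fs L f : (Ed d l → G) → ℝ) = (FsS L f).1 := by
    funext U; exact (FsS_apply f U).symm
  rw [this]; exact Sm_cont _

/-- the approximate differential equation for the characteristic function -/
theorem char_ode {A : Fin n → Fin d → St d l → ℝ} {b v e : ℝ} (hb : 0 < b)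
    {f : Fin n → Fm d l} (hv : 0 ≤ v)
    (he : b ^ 2 * EX μ L (b ^ 4) (fun U => |(VA L A (aS0 L d l)).1 U + Fs L f U|) +
      EX μ L (b ^ 4) (fun U => |(VA L A (FsS L f)).1 U + v|) ≤ e) :
    |EX μ L (b ^ 4) (fun U => Real.cos (b ^ 2 * Fs L f U)) - Real.exp (-(v / 2))| ≤ e ∧
    |EX μ L (b ^ 4) (fun U => Real.sin (b ^ 2 * Fs L f U))| ≤ e := by
  obtain ⟨Φ, hΦd⟩ : ∃ Φ : Sm L (Ed d l), Φ = b ^ 2 • FsS L f := ⟨_, rfl⟩
  have hΦv : ∀ U, Φ.1 U = b ^ 2 * Fs L f U := fun U => by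
    rw [hΦd, ← FsS_apply]; rfl
  have hΦc : Continuous Φ.1 := Sm_cont Φ
  obtain ⟨S, hS⟩ : ∃ S, S = VA L A (aS0 L d l) := ⟨_, rfl⟩
  obtain ⟨V, hV⟩ : ∃ V, V = VA L A (FsS L f) := ⟨_, rfl⟩
  rw [← hS, ← hV] at he
  have hSc : Continuous S.1 := Sm_cont S
  have hVc : Continuous V.1 := Sm_cont V
  have hFc : Continuous fun U : Ed d l → G => Fs L f U := by
    have : (fun U : Ed d l → G => Fs L f U) = (FsS L f).1 := by
      funext U; exact (FsS_apply f U).symm
    rw [this]; exact Sm_cont _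
  have hb2 : (0 : ℝ) < b ^ 2 := by positivity
  have hVΦ : VA L A Φ = b ^ 2 • V := by rw [hΦd, hV, Derivation.map_smul]
  obtain ⟨E1, hE1⟩ : ∃ x, x = EX μ L (b ^ 4) (fun U => |V.1 U + v|) := ⟨_, rfl⟩
  obtain ⟨E2, hE2⟩ : ∃ x, x = EX μ L (b ^ 4) (fun U => |S.1 U + Fs L f U|) := ⟨_, rfl⟩
  rw [← hE1, ← hE2] at he
  have hE10 : 0 ≤ E1 := by rw [hE1]; exact EX_nonneg μ fun U => abs_nonneg _
  -- a general estimate
  have gen : ∀ (g : (Ed d l → G) → ℝ) (H : (Ed d l → G) → ℝ), Continuous g → Continuous H →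
      (∀ U, |g U| ≤ 1) → |EX μ L (b ^ 4) (fun U => g U * H U)| ≤
        EX μ L (b ^ 4) (fun U => |H U|) := by
    intro g H hg hH h1
    have c1 : Continuous fun U => g U * H U := hg.mul hH
    refine (EX_abs μ c1).trans (EX_mono μ c1.abs hH.abs fun U => ?_)
    rw [abs_mul]
    calc |g U| * |H U| ≤ 1 * |H U| := mul_le_mul_of_nonneg_right (h1 U) (abs_nonneg _)
      _ = _ := one_mul _
  have cSin : ∀ s : ℝ, Continuous fun U => Real.sin (s * Φ.1 U) := fun s =>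
    Real.continuous_sin.comp (continuous_const.mul hΦc)
  have cCos : ∀ s : ℝ, Continuous fun U => Real.cos (s * Φ.1 U) := fun s =>
    Real.continuous_cos.comp (continuous_const.mul hΦc)
  -- the integration by parts
  have ibp : ∀ (s : ℝ) (g g' : (Ed d l → G) → ℝ), Continuous g → Continuous g' →
      (∀ U, |g U| ≤ 1) → (∀ U, |g' U| ≤ 1) → 0 ≤ s → s ≤ 1 →
      EX μ L (b ^ 4) (fun U => g' U * (s * b ^ 2 * V.1 U)) =
        b ^ 4 * EX μ L (b ^ 4) (fun U => g U * S.1 U) →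
      |EX μ L (b ^ 4) (fun U => g U * Φ.1 U) - s * v * EX μ L (b ^ 4) g'| ≤ e := by
    intro s g g' hg hg' h1 h1' hs0 hs1 h
    have e1 : EX μ L (b ^ 4) (fun U => g' U * (s * b ^ 2 * V.1 U)) =
        s * b ^ 2 * EX μ L (b ^ 4) (fun U => g' U * (V.1 U + v)) -
          s * b ^ 2 * v * EX μ L (b ^ 4) g' := by
      have c1 : Continuous fun U => s * b ^ 2 * (g' U * (V.1 U + v)) :=
        continuous_const.mul (hg'.mul (hVc.add continuous_const))
      have c2 : Continuous fun U => s * b ^ 2 * v * g' U := continuous_const.mul hg'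
      rw [← EX_smul, ← EX_smul, ← EX_sub μ c1 c2]
      congr 1; funext U; ring
    have e2 : b ^ 4 * EX μ L (b ^ 4) (fun U => g U * S.1 U) =
        b ^ 4 * EX μ L (b ^ 4) (fun U => g U * (S.1 U + Fs L f U)) -
          b ^ 2 * EX μ L (b ^ 4) (fun U => g U * Φ.1 U) := by
      have c1 : Continuous fun U => b ^ 4 * (g U * (S.1 U + Fs L f U)) :=
        continuous_const.mul (hg.mul (hSc.add hFc))
      have c2 : Continuous fun U => b ^ 2 * (g U * Φ.1 U) := continuous_const.mul (hg.mul hΦc)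
      rw [← EX_smul, ← EX_smul, ← EX_smul, ← EX_sub μ c1 c2]
      congr 1; funext U; rw [hΦv]; ring
    have b1 := gen g' (fun U => V.1 U + v) hg' (hVc.add continuous_const) h1'
    have b2 := gen g (fun U => S.1 U + Fs L f U) hg (hSc.add hFc) h1
    rw [← hE1] at b1
    rw [← hE2] at b2
    rw [e1, e2] at h
    obtain ⟨X, hX⟩ : ∃ X, X = EX μ L (b ^ 4) (fun U => g U * Φ.1 U) := ⟨_, rfl⟩
    obtain ⟨Y, hY⟩ : ∃ Y, Y = EX μ L (b ^ 4) g' := ⟨_, rfl⟩
    obtain ⟨P, hP⟩ : ∃ P, P = EX μ L (b ^ 4) (fun U => g' U * (V.1 U + v)) := ⟨_, rfl⟩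
    obtain ⟨Q, hQ⟩ : ∃ Q, Q = EX μ L (b ^ 4) (fun U => g U * (S.1 U + Fs L f U)) := ⟨_, rfl⟩
    rw [← hX, ← hY]
    rw [← hX, ← hY, ← hP, ← hQ] at h
    rw [← hP] at b1
    rw [← hQ] at b2
    have e3 : b ^ 2 * (X - s * v * Y) = b ^ 2 * (b ^ 2 * Q - s * P) := by linear_combination h
    have e4 : X - s * v * Y = b ^ 2 * Q - s * P := mul_left_cancel₀ hb2.ne' e3
    rw [e4]
    calc |b ^ 2 * Q - s * P| ≤ |b ^ 2 * Q| + |s * P| := abs_sub _ _
      _ = b ^ 2 * |Q| + s * |P| := by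
          rw [abs_mul, abs_mul, abs_of_pos hb2, abs_of_nonneg hs0]
      _ ≤ b ^ 2 * E2 + 1 * E1 := add_le_add (mul_le_mul_of_nonneg_left b2 hb2.le)
          (mul_le_mul hs1 b1 (abs_nonneg _) zero_le_one)
      _ ≤ e := by linarith
  have hse : ∀ (s : ℝ) U, (s • Φ).1 U = s * Φ.1 U := fun s U => rfl
  constructor
  · have h1 := ode (c := fun s => EX μ L (b ^ 4) (fun U => Real.cos (s * Φ.1 U)))
      (c' := fun s => EX μ L (b ^ 4) (fun U => -Real.sin (s * Φ.1 U) * Φ.1 U)) (v := v) (ε := e) hv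
      (fun s => EX_deriv μ hΦc (f := Real.cos) (f' := fun x => -Real.sin x) Real.hasDerivAt_cos
        Real.continuous_sin.neg (fun x => by rw [abs_neg]; exact Real.abs_sin_le_one x) s)
      (fun s hs0 hs1 => by
        have h2 := EX_SD μ (A := A) (b ^ 4) (ssin (s • Φ))
        rw [VA_ssin, Derivation.map_smul, hVΦ, ← hS] at h2
        have h3 := ibp s (fun U => Real.sin (s * Φ.1 U)) (fun U => Real.cos (s * Φ.1 U))
          (cSin s) (cCos s) (fun U => Real.abs_sin_le_one _) (fun U => Real.abs_cos_le_one _)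
          hs0 hs1 (by
            rw [show (fun U => Real.sin (s * Φ.1 U) * S.1 U) =
              fun U => (ssin (s • Φ)).1 U * S.1 U from rfl, ← h2]
            congr 1
            funext U
            show _ = Real.cos (s * Φ.1 U) * (s * (b ^ 2 * V.1 U))
            ring)
        have h4 : EX μ L (b ^ 4) (fun U => -Real.sin (s * Φ.1 U) * Φ.1 U) =
            -EX μ L (b ^ 4) (fun U => Real.sin (s * Φ.1 U) * Φ.1 U) := by
          rw [← EX_neg]; congr 1; funext U; ring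
        rw [h4, ← abs_neg]
        refine le_trans (le_of_eq ?_) h3
        congr 1; ring)
    simp only [one_mul, zero_mul, Real.cos_zero, EX_one] at h1
    simp only [hΦv] at h1
    exact h1
  · have h1 := ode (c := fun s => EX μ L (b ^ 4) (fun U => Real.sin (s * Φ.1 U)))
      (c' := fun s => EX μ L (b ^ 4) (fun U => Real.cos (s * Φ.1 U) * Φ.1 U)) (v := v) (ε := e) hv
      (fun s => EX_deriv μ hΦc (f := Real.sin) (f' := Real.cos) Real.hasDerivAt_sin
        Real.continuous_cos (fun x => Real.abs_cos_le_one x) s)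
      (fun s hs0 hs1 => by
        have h2 := EX_SD μ (A := A) (b ^ 4) (scos (s • Φ))
        rw [VA_scos, Derivation.map_smul, hVΦ, ← hS] at h2
        have h3 := ibp s (fun U => Real.cos (s * Φ.1 U)) (fun U => -Real.sin (s * Φ.1 U))
          (cCos s) (cSin s).neg (fun U => Real.abs_cos_le_one _)
          (fun U => by rw [abs_neg]; exact Real.abs_sin_le_one _)
          hs0 hs1 (by
            rw [show (fun U => Real.cos (s * Φ.1 U) * S.1 U) =
              fun U => (scos (s • Φ)).1 U * S.1 U from rfl, ← h2]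
            congr 1
            funext U
            show _ = -(Real.sin (s * Φ.1 U) * (s * (b ^ 2 * V.1 U)))
            ring)
        have h4 : EX μ L (b ^ 4) (fun U => -Real.sin (s * Φ.1 U)) =
            -EX μ L (b ^ 4) (fun U => Real.sin (s * Φ.1 U)) := EX_neg μ _
        rw [h4] at h3
        refine le_trans (le_of_eq ?_) h3
        congr 1; ring)
    simp only [one_mul, zero_mul, Real.sin_zero, EX_const, sub_zero] at h1
    simp only [hΦv] at h1
    exact h1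

/-! ### moments -/

lemma sB_moms (hd : 1 ≤ d) : ∃ C : ℝ, 1 ≤ C ∧ ∀ b : ℝ, 1 ≤ b → ∀ (m : ℕ) [NeZero m], 2 ≤ m →
    ∀ M : ℕ,
      b ^ 6 * EX μ L (b ^ 4) (fun U : Ed d (2 * m) → G => sB L M U ^ 4) ≤
        C * ((M : ℝ) + 1) ^ (4 * d) ∧
      b ^ 3 * EX μ L (b ^ 4) (fun U : Ed d (2 * m) → G => sB L M U ^ 2) ≤
        C * ((M : ℝ) + 1) ^ (2 * d) ∧
      b * EX μ L (b ^ 4) (fun U : Ed d (2 * m) → G => sB L M U) ≤
        C * ((M : ℝ) + 1) ^ (2 * d) := by
  obtain ⟨C, hC, h⟩ := sB_moment μ (L := L)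
  refine ⟨2 * (1 + C * d ^ 8), by nlinarith [show (0 : ℝ) ≤ C * d ^ 8 by positivity],
    fun b hb m _ hm M => ?_⟩
  have hb0 : 0 < b := by linarith
  obtain ⟨q, hq⟩ : ∃ q : ℝ, q = ((M : ℝ) + 1) ^ d := ⟨_, rfl⟩
  have hM0 : (0 : ℝ) ≤ M := Nat.cast_nonneg _
  have hq1 : 1 ≤ q := by rw [hq]; exact one_le_pow₀ (by linarith)
  have hq4 : ((M : ℝ) + 1) ^ (4 * d) = q ^ 4 := by rw [hq, ← pow_mul, mul_comm]
  have hq2 : ((M : ℝ) + 1) ^ (2 * d) = q ^ 2 := by rw [hq, ← pow_mul, mul_comm]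
  rw [hq4, hq2]
  have cs : Continuous fun U : Ed d (2 * m) → G => sB L M U := sB_cont M
  have h4 : b ^ 6 * EX μ L (b ^ 4) (fun U : Ed d (2 * m) → G => sB L M U ^ 4) ≤
      C * d ^ 8 * q ^ 4 := by
    have h1 := h b hb d m hm M
    have hZ := Zt_pos μ (L := L) (d := d) (l := 2 * m) (b ^ 4)
    have h2 : b ^ 6 * EX μ L (b ^ 4) (fun U : Ed d (2 * m) → G => sB L M U ^ 4) ≤
        C * ((M : ℝ) ^ d * d ^ 2) ^ 4 := by
      unfold EX
      rw [← mul_div_assoc, div_le_iff₀ hZ]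
      exact h1
    refine h2.trans ?_
    have h3 : (M : ℝ) ^ d ≤ q := by
      rw [hq]; exact pow_le_pow_left₀ hM0 (by linarith) _
    have h4 : ((M : ℝ) ^ d) ^ 4 ≤ q ^ 4 := pow_le_pow_left₀ (by positivity) h3 4
    have h5 : C * ((M : ℝ) ^ d * d ^ 2) ^ 4 = C * d ^ 8 * ((M : ℝ) ^ d) ^ 4 := by ring
    rw [h5]
    exact mul_le_mul_of_nonneg_left h4 (by positivity)
  have hCd : 0 ≤ C * (d : ℝ) ^ 8 := by positivity
  obtain ⟨K, hK⟩ : ∃ K : ℝ, K = C * d ^ 8 := ⟨_, rfl⟩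
  rw [← hK] at h4 hCd ⊢
  have hq2p : 0 < q ^ 2 := by positivity
  have h2 : b ^ 3 * EX μ L (b ^ 4) (fun U : Ed d (2 * m) → G => sB L M U ^ 2) ≤
      1 / 2 * (1 + K) * q ^ 2 := by
    have e1 : b ^ 3 * EX μ L (b ^ 4) (fun U : Ed d (2 * m) → G => sB L M U ^ 2) ≤
        EX μ L (b ^ 4) (fun U : Ed d (2 * m) → G => q ^ 2 / 2 +
          (1 / (2 * q ^ 2)) * (b ^ 6 * sB L M U ^ 4)) := by
      rw [← EX_smul]
      refine EX_mono μ (continuous_const.mul (cs.pow 2)) (continuous_const.add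
        (continuous_const.mul (continuous_const.mul (cs.pow 4)))) fun U => ?_
      obtain ⟨t, ht⟩ : ∃ t, t = b ^ 3 * sB L M U ^ 2 := ⟨_, rfl⟩
      have e2 : b ^ 6 * sB L M U ^ 4 = t ^ 2 := by rw [ht]; ring
      rw [← ht, e2]
      have e3 : q ^ 2 / 2 + 1 / (2 * q ^ 2) * t ^ 2 - t = (t - q ^ 2) ^ 2 / (2 * q ^ 2) := by
        field_simp; ring
      have e4 : 0 ≤ (t - q ^ 2) ^ 2 / (2 * q ^ 2) := by positivity
      linarith
    have c1 : Continuous fun U : Ed d (2 * m) → G =>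
        (1 / (2 * q ^ 2)) * (b ^ 6 * sB L M U ^ 4) :=
      continuous_const.mul (continuous_const.mul (cs.pow 4))
    rw [EX_add μ (F := fun _ => q ^ 2 / 2) continuous_const c1, EX_const, EX_smul, EX_smul] at e1
    refine e1.trans ?_
    have e5 : 1 / (2 * q ^ 2) * (b ^ 6 * EX μ L (b ^ 4)
        (fun U : Ed d (2 * m) → G => sB L M U ^ 4)) ≤ 1 / (2 * q ^ 2) * (K * q ^ 4) :=
      mul_le_mul_of_nonneg_left h4 (by positivity)
    have e6 : 1 / (2 * q ^ 2) * (K * q ^ 4) = K * q ^ 2 / 2 := by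
      field_simp
    linarith
  have hq22 : 1 ≤ q ^ 2 := one_le_pow₀ hq1
  have hKq : 0 ≤ K * q ^ 2 := by positivity
  refine ⟨by nlinarith [show (0 : ℝ) ≤ q ^ 4 by positivity,
    show (0 : ℝ) ≤ K * q ^ 4 by positivity], by nlinarith, ?_⟩
  have e1 : b * EX μ L (b ^ 4) (fun U : Ed d (2 * m) → G => sB L M U) ≤
      EX μ L (b ^ 4) (fun U : Ed d (2 * m) → G => 1 + b ^ 3 * sB L M U ^ 2) := by
    rw [← EX_smul]
    refine EX_mono μ (continuous_const.mul cs) (continuous_const.add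
      (continuous_const.mul (cs.pow 2))) fun U => ?_
    have hs := sB_nonneg (L := L) M U
    have e2 : b ^ 2 * sB L M U ^ 2 ≤ b ^ 3 * sB L M U ^ 2 :=
      mul_le_mul_of_nonneg_right (pow_le_pow_right₀ hb (by norm_num)) (sq_nonneg _)
    nlinarith [sq_nonneg (b * sB L M U - 1)]
  have c1 : Continuous fun U : Ed d (2 * m) → G => b ^ 3 * sB L M U ^ 2 :=
    continuous_const.mul (cs.pow 2)
  rw [EX_add μ (F := fun _ => 1) continuous_const c1, EX_const, EX_smul] at e1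
  nlinarith

/-- sum of the absolute values of a one form -/
def S1 (A : Fin n → Fin d → St d l → ℝ) : ℝ := ∑ α, ∑ ι, ∑ x, |A α ι x|

lemma S1_nonneg (A : Fin n → Fin d → St d l → ℝ) : 0 ≤ S1 A :=
  Finset.sum_nonneg fun _ _ => Finset.sum_nonneg fun _ _ => Finset.sum_nonneg fun _ _ =>
    abs_nonneg _

lemma le_S1 (A : Fin n → Fin d → St d l → ℝ) (α : Fin n) (ι : Fin d) (x : St d l) :
    |A α ι x| ≤ S1 A := by
  unfold S1
  calc |A α ι x| ≤ ∑ x, |A α ι x| :=
        Finset.single_le_sum (f := fun x => |A α ι x|) (fun _ _ => abs_nonneg _) (Finset.mem_univ x)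
    _ ≤ ∑ ι, ∑ x, |A α ι x| := Finset.single_le_sum (f := fun ι => ∑ x, |A α ι x|)
        (fun _ _ => Finset.sum_nonneg fun _ _ => abs_nonneg _) (Finset.mem_univ ι)
    _ ≤ _ := Finset.single_le_sum (f := fun α => ∑ ι, ∑ x, |A α ι x|)
        (fun _ _ => Finset.sum_nonneg fun _ _ => Finset.sum_nonneg fun _ _ => abs_nonneg _)
        (Finset.mem_univ α)

lemma Dp_l1 (i : Fin d) (f : St d l → ℝ) : ∑ x, |Dp i f x| ≤ 2 * ∑ x, |f x| := by
  unfold Dp
  calc ∑ x, |f (x + eT i) - f x| ≤ ∑ x, (|f (x + eT i)| + |f x|) :=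
        Finset.sum_le_sum fun x _ => abs_sub _ _
    _ = 2 * ∑ x, |f x| := by
        rw [Finset.sum_add_distrib, sum_shift (eT i) (fun x => |f x|)]; ring

lemma N1_d1 (A : Fin n → Fin d → St d l → ℝ) : N1 (fun a => d1 (A a)) ≤ 4 * d * S1 A := by
  unfold N1
  have h1 : ∀ a (j k : Fin d), ∑ x, |d1 (A a) j k x| ≤
      2 * ∑ x, |A a k x| + 2 * ∑ x, |A a j x| := by
    intro a j k
    calc ∑ x, |d1 (A a) j k x| ≤ ∑ x, (|Dp j (A a k) x| + |Dp k (A a j) x|) :=
          Finset.sum_le_sum fun x _ => abs_sub _ _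
      _ = ∑ x, |Dp j (A a k) x| + ∑ x, |Dp k (A a j) x| := Finset.sum_add_distrib
      _ ≤ _ := add_le_add (Dp_l1 _ _) (Dp_l1 _ _)
  calc ∑ a, ∑ j, ∑ k, ∑ x, |d1 (A a) j k x| ≤
      ∑ a, ∑ j : Fin d, ∑ k, (2 * ∑ x, |A a k x| + 2 * ∑ x, |A a j x|) :=
        Finset.sum_le_sum fun a _ => Finset.sum_le_sum fun j _ => Finset.sum_le_sum fun k _ =>
          h1 a j k
    _ = 4 * d * S1 A := by
        unfold S1
        rw [Finset.mul_sum]
        refine Finset.sum_congr rfl fun a _ => ?_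
        simp only [Finset.sum_add_distrib, Finset.sum_const, Finset.card_univ, Fintype.card_fin,
          nsmul_eq_mul, ← Finset.mul_sum]
        ring

/-- the characteristic function of the curvature smeared with an exact form -/
theorem char_exact (hd : 1 ≤ d) : ∃ C : ℝ, 0 < C ∧ ∀ b : ℝ, 1 ≤ b → ∀ (m : ℕ) [NeZero m], 2 ≤ m →
    ∀ M : ℕ, M < 2 * m → ∀ A : Fin n → Fin d → St d (2 * m) → ℝ, (∀ α ι, AB M (A α ι)) →
      |EX μ L (b ^ 4) (fun U : Ed d (2 * m) → G => Real.cos (b ^ 2 * Fs L (fun a => d1 (A a)) U)) -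
        Real.exp (-((∑ a, ipF (d1 (A a)) (d1 (A a))) / 2))| ≤
          C * ((M : ℝ) + 1) ^ (2 * d + 1) * (1 + S1 A) ^ 2 / b ∧
      |EX μ L (b ^ 4) (fun U : Ed d (2 * m) → G => Real.sin (b ^ 2 * Fs L (fun a => d1 (A a)) U))| ≤
          C * ((M : ℝ) + 1) ^ (2 * d + 1) * (1 + S1 A) ^ 2 / b := by
  obtain ⟨C, hC, h⟩ := sB_moms μ (L := L) hd
  refine ⟨C * (2 * d ^ 2 + 8 * d * n * d * (d + 1) + 1), by positivity,
    fun b hb m _ hm M hMl A hA => ?_⟩
  have hb0 : 0 < b := by linarith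
  obtain ⟨-, hs2, hs1⟩ := h b hb m hm M
  have hS := S1_nonneg A
  have hM0 : (0 : ℝ) ≤ M := Nat.cast_nonneg _
  have hdn : (0 : ℝ) ≤ d := Nat.cast_nonneg _
  have hnn : (0 : ℝ) ≤ n := Nat.cast_nonneg _
  have cs : Continuous fun U : Ed d (2 * m) → G => sB L M U := sB_cont M
  have hBX : BX M (fun a => d1 (A a)) := by
    intro a j k x hx
    have h1 : (A a k (x + eT j) ≠ 0 ∨ A a k x ≠ 0) ∨ (A a j (x + eT k) ≠ 0 ∨ A a j x ≠ 0) := by
      by_contra hc
      push Not at hc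
      apply hx
      show A a k (x + eT j) - A a k x - (A a j (x + eT k) - A a j x) = 0
      rw [hc.1.1, hc.1.2, hc.2.1, hc.2.2]; ring
    rcases h1 with h1 | h1
    · exact (ab_near (hA a k) hMl h1.symm).1
    · exact (ab_near (hA a j) hMl h1.symm).1
  refine char_ode μ (A := A) hb0 (v := ∑ a, ipF (d1 (A a)) (d1 (A a)))
    (Finset.sum_nonneg fun a _ => ipF_self_nonneg _) ?_
  have h1 : EX μ L (b ^ 4) (fun U : Ed d (2 * m) → G => |(VA L A (aS0 L d (2 * m))).1 U +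
      Fs L (fun a => d1 (A a)) U|) ≤ S1 A * (2 * d * (d * M)) *
        EX μ L (b ^ 4) (fun U : Ed d (2 * m) → G => sB L M U ^ 2) := by
    rw [← EX_smul]
    refine EX_mono μ ?_ (continuous_const.mul (cs.pow 2)) fun U => VA_act hA hMl U
    refine ((Sm_cont _).add ?_).abs
    exact Fs_cont _
  have h2 : EX μ L (b ^ 4) (fun U : Ed d (2 * m) → G => |(VA L A (FsS L fun a => d1 (A a))).1 U +
      ∑ a, ipF (d1 (A a)) (d1 (A a))|) ≤
        N1 (fun a => d1 (A a)) * (2 * n * d * (S1 A * (d * M + 1))) *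
        EX μ L (b ^ 4) (fun U : Ed d (2 * m) → G => sB L M U) := by
    rw [← EX_smul]
    refine EX_mono μ ((Sm_cont _).add continuous_const).abs (continuous_const.mul cs) fun U =>
      VA_Fs hA hMl hS (le_S1 A) (fun a => d1_asy _) hBX U
  have h3 : b ^ 2 * EX μ L (b ^ 4) (fun U : Ed d (2 * m) → G => sB L M U ^ 2) ≤
      C * ((M : ℝ) + 1) ^ (2 * d) / b := by
    rw [le_div_iff₀ hb0]
    refine le_trans (le_of_eq ?_) hs2
    ring
  have h4 : EX μ L (b ^ 4) (fun U : Ed d (2 * m) → G => sB L M U) ≤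
      C * ((M : ℝ) + 1) ^ (2 * d) / b := by
    rw [le_div_iff₀ hb0]
    refine le_trans (le_of_eq ?_) hs1
    ring
  obtain ⟨Q, hQ⟩ : ∃ Q : ℝ, Q = C * ((M : ℝ) + 1) ^ (2 * d) / b := ⟨_, rfl⟩
  rw [← hQ] at h3 h4
  have hQ0 : 0 ≤ Q := by rw [hQ]; positivity
  have hN := N1_d1 A
  have hN0 := N1_nonneg (fun a => d1 (A a))
  obtain ⟨x1, hx1⟩ : ∃ x, x = EX μ L (b ^ 4) (fun U : Ed d (2 * m) → G => sB L M U ^ 2) := ⟨_, rfl⟩
  obtain ⟨x2, hx2⟩ : ∃ x, x = EX μ L (b ^ 4) (fun U : Ed d (2 * m) → G => sB L M U) := ⟨_, rfl⟩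
  rw [← hx1] at h1 h3
  rw [← hx2] at h2 h4
  have h5 : b ^ 2 * (S1 A * (2 * d * (d * M)) * x1) ≤ S1 A * (2 * d * (d * M)) * Q := by
    calc _ = S1 A * (2 * d * (d * M)) * (b ^ 2 * x1) := by ring
      _ ≤ _ := mul_le_mul_of_nonneg_left h3 (by positivity)
  have h6 : N1 (fun a => d1 (A a)) * (2 * n * d * (S1 A * (d * M + 1))) * x2 ≤
      4 * d * S1 A * (2 * n * d * (S1 A * (d * M + 1))) * Q := by
    refine mul_le_mul (mul_le_mul_of_nonneg_right hN (by positivity)) h4 ?_ (by positivity)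
    rw [hx2]; exact EX_nonneg μ fun U => sB_nonneg _ _
  have h7 : b ^ 2 * EX μ L (b ^ 4) (fun U : Ed d (2 * m) → G => |(VA L A (aS0 L d (2 * m))).1 U +
      Fs L (fun a => d1 (A a)) U|) ≤ S1 A * (2 * d * (d * M)) * Q :=
    le_trans (mul_le_mul_of_nonneg_left h1 (by positivity)) h5
  refine (add_le_add h7 (h2.trans h6)).trans ?_
  have e1 : C * (2 * d ^ 2 + 8 * d * n * d * (d + 1) + 1) * ((M : ℝ) + 1) ^ (2 * d + 1) *
      (1 + S1 A) ^ 2 / b = (2 * d ^ 2 + 8 * d * n * d * (d + 1) + 1) * ((M : ℝ) + 1) *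
      (1 + S1 A) ^ 2 * Q := by
    rw [hQ, pow_succ]; ring
  rw [e1, ← add_mul]
  refine mul_le_mul_of_nonneg_right ?_ hQ0
  have f1 : S1 A * (2 * d * (d * M)) ≤ 2 * d ^ 2 * ((M : ℝ) + 1) * (1 + S1 A) ^ 2 := by
    have g1 : S1 A ≤ (1 + S1 A) ^ 2 := by nlinarith
    calc S1 A * (2 * d * (d * M)) = 2 * d ^ 2 * M * S1 A := by ring
      _ ≤ 2 * d ^ 2 * ((M : ℝ) + 1) * (1 + S1 A) ^ 2 :=
        mul_le_mul (mul_le_mul_of_nonneg_left (by linarith) (by positivity)) g1 hS (by positivity)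
  have f2 : 4 * d * S1 A * (2 * n * d * (S1 A * (d * M + 1))) ≤
      8 * d * n * d * (d + 1) * ((M : ℝ) + 1) * (1 + S1 A) ^ 2 := by
    have g1 : S1 A ^ 2 ≤ (1 + S1 A) ^ 2 := by nlinarith
    have g2 : (d : ℝ) * M + 1 ≤ (d + 1) * (M + 1) := by nlinarith
    calc 4 * d * S1 A * (2 * n * d * (S1 A * (d * M + 1))) =
        8 * d * n * d * (d * M + 1) * S1 A ^ 2 := by ring
      _ ≤ 8 * d * n * d * ((d + 1) * (M + 1)) * (1 + S1 A) ^ 2 :=
        mul_le_mul (mul_le_mul_of_nonneg_left g2 (by positivity)) g1 (by positivity)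
          (by positivity)
      _ = _ := by ring
  have f3 : 0 ≤ ((M : ℝ) + 1) * (1 + S1 A) ^ 2 := by positivity
  linarith

end

end Pool.Agent.W793.YM
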