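import Mathlib
import Pool.Agent.W793.YM.LBound
import Pool.Agent.W793.YM.Char
import Pool.Agent.W793.YM.Corr

/-!
# The variance of the smeared flux through one layer
-/

open MeasureTheory Matrix
open scoped Matrix.Norms.Frobenius ContDiff
open Pool.Agent.H906R3.YM

namespace Pool.Agent.W793.YM

set_option linter.unusedSectionVars false
set_option linter.unusedVariables false

noncomputable section

variable {G : Type*} [Group G] [TopologicalSpace G] [IsTopologicalGroup G] [CompactSpace G]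
  [SecondCountableTopology G] [MeasurableSpace G] [BorelSpace G] (μ : Measure G)
  [IsProbabilityMeasure μ] [μ.IsMulLeftInvariant] [μ.IsMulRightInvariant] [μ.IsInvInvariant]
  {N n : ℕ} {L : LD G N n}

/-- the flux through the layer, with the transports of the first configuration -/
def xT {d l : ℕ} [NeZero l] (L : LD G N n) (r : St d l → ℝ) (τ k : Fin d) (α : Fin n)
    (V U : Ed d l → G) : ℝ :=
  ∑ x, r x * fi L α (Pc V x * (U (x + eT τ, k) * (U (x, k))⁻¹) * (Pc V x)⁻¹)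

/-- the coefficients -/
def cE {d l : ℕ} [NeZero l] (L : LD G N n) (r : St d l → ℝ) (k τ : Fin d) (α : Fin n)
    (e : Ed d l) (b : Fin n) : Sm L (Ed d l) :=
  (if e.2 = k then r (e.1 - eT τ) else 0) • Pool.Agent.H906R3.YM.lin (L := L) (ip (L.X b))
    (fun U => L.rho (Pc (tr (eT τ) U) (e.1 - eT τ))⁻¹ * L.X α *
      (L.rho (Pc (tr (eT τ) U) (e.1 - eT τ))⁻¹)ᴴ)
    (((SmM.mul (SmG_Pct (L := L) (eT τ) (e.1 - eT τ)).inv (SmM.const (L.X α))).mul
      (SmM.ct (SmG_Pct (L := L) (eT τ) (e.1 - eT τ)).inv)))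

lemma cE_apply {d l : ℕ} [NeZero l] (r : St d l → ℝ) (k τ : Fin d) (α : Fin n)
    (e : Ed d l) (b : Fin n) (U : Ed d l → G) : (cE L r k τ α e b).1 U =
      (if e.2 = k then r (e.1 - eT τ) else 0) *
        L.adm (Pc (tr (eT τ) U) (e.1 - eT τ))⁻¹ b α := rfl

variable {d m : ℕ} [NeZero m] {τ : Fin d} {K : St d (2 * m) → ℝ} {M : ℕ} {k : Fin d}

lemma cE_dep (hm : 2 ≤ m) (hK : ∀ x, K x ≠ 0 → x τ = 0) (α : Fin n)
    (e : Ed d (2 * m)) (b : Fin n) : Dep (TR hm τ).R (cE L K k τ α e b).1 := by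
  intro U U' h
  rw [cE_apply, cE_apply]
  by_cases hx : (e.1 - eT τ : Fin d → ZMod (2 * m)) τ = 0
  · congr 2
    congr 1
    unfold Pc
    refine fr_congr' _ fun v hv i hi _ => ?_
    have hvτ : v τ = 0 := by
      have h1 : v τ ≤ wv (e.1 - eT τ) τ := hv τ
      rw [wv_zero.2 hx] at h1
      exact Nat.le_zero.1 h1
    unfold uu tr
    simp only
    have h2 : (ct (2 * m) v + eT τ : Fin d → ZMod (2 * m)) τ = 1 := by
      rw [add_same, ct_zero hvτ, zero_add]
    refine h _ ?_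
    show if i = τ then H2 m _ else H1 m _
    simp only [h2]
    have h3 := (eq_one_iff hm (1 : ZMod (2 * m))).1 rfl
    split_ifs
    · unfold H2; rw [h3]; omega
    · unfold H1; rw [h3]; omega
  · have h0 : K (e.1 - eT τ) = 0 := by
      by_contra hc
      exact hx (hK _ hc)
    rw [h0, ite_self, zero_mul, zero_mul]

/-- sums over the plaquettes between the halves -/
lemma sum_JK (hm : 2 ≤ m) (hK : ∀ x, K x ≠ 0 → x τ = 0) (hk : k ≠ τ)
    (f : Ed d (2 * m) → ℝ) (φ : ℝ → ℝ) (hφ : φ 0 = 0) :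
    ∑ e ∈ (TR hm τ).J, φ (if e.2 = k then K (e.1 - eT τ) else 0) * f e =
      ∑ x, φ (K x) * f (x + eT τ, k) := by
  rw [sum_J hm]
  have h2 : ∑ x : Fin d → ZMod (2 * m), (if x τ = (m : ZMod (2 * m)) then ∑ i, (if i ≠ τ then
      φ (if (x, i).2 = k then K ((x, i).1 - eT τ) else 0) * f (x, i) else 0) else 0) = 0 := by
    refine Finset.sum_eq_zero fun x _ => ?_
    split_ifs with hx
    · refine Finset.sum_eq_zero fun i _ => ?_
      split_ifs with hi hik
      · have h0 : K (x - eT τ) = 0 := by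
          by_contra hc
          have h4 := hK _ hc
          have h3 : (x - eT τ : Fin d → ZMod (2 * m)) τ = x τ - 1 := by simp [eT]
          rw [h3] at h4
          have h5 : x τ = 1 := by rw [← sub_add_cancel (x τ) 1, h4, zero_add]
          rw [eq_one_iff hm] at h5
          rw [eq_m_iff hm] at hx
          omega
        simp only [h0, hφ, zero_mul]
      · rw [hφ, zero_mul]
      · rfl
    · rfl
  rw [h2, add_zero]
  refine Finset.sum_congr rfl fun x _ => ?_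
  by_cases hx : x τ = 0
  · rw [if_pos hx, Finset.sum_eq_single k]
    · simp only [hk, ne_eq, not_false_eq_true, if_true, add_sub_cancel_right]
    · intro i _ hik
      simp only [hik, if_false, hφ, zero_mul, ite_self]
    · intro h; exact absurd (Finset.mem_univ _) h
  · rw [if_neg hx]
    have h0 : K x = 0 := by
      by_contra hc
      exact hx (hK _ hc)
    rw [h0, hφ, zero_mul]

lemma sum_cE (hm : 2 ≤ m) (hK : ∀ x, K x ≠ 0 → x τ = 0) (hk : k ≠ τ) (α : Fin n)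
    (U V : Ed d (2 * m) → G) :
    ∑ e ∈ (TR hm τ).J, ∑ a, (cE L K k τ α e a).1 V * ((TR hm τ).xi L e a).1 U =
      xT L K τ k α (tr (eT τ) V) U := by
  have h1 : ∀ e, ∑ a, (cE L K k τ α e a).1 V * ((TR hm τ).xi L e a).1 U =
      (if e.2 = k then K (e.1 - eT τ) else 0) *
        fi L α (Pc (tr (eT τ) V) (e.1 - eT τ) * ((TR hm τ).W U e) *
        (Pc (tr (eT τ) V) (e.1 - eT τ))⁻¹) := by
    intro e
    rw [← sum_adm_xi, Finset.mul_sum]
    refine Finset.sum_congr rfl fun a _ => ?_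
    rw [cE_apply, Refl.xi_apply]; ring
  rw [Finset.sum_congr rfl fun e _ => h1 e]
  have h2 := sum_JK (K := K) hm hK hk (fun e => fi L α (Pc (tr (eT τ) V) (e.1 - eT τ) *
    ((TR hm τ).W U e) * (Pc (tr (eT τ) V) (e.1 - eT τ))⁻¹)) (fun t => t) rfl
  rw [h2]
  unfold xT
  refine Finset.sum_congr rfl fun x _ => ?_
  by_cases h0 : K x = 0
  · rw [h0, zero_mul, zero_mul]
  · have hx := hK x h0
    have h3 : rB τ x = x := by
      unfold rB
      rw [hx, neg_zero, ← hx, Function.update_eq_self]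
    have h4 : (TR hm τ).W U (x + eT τ, k) = U (x + eT τ, k) * (U (rA τ (x + eT τ), k))⁻¹ := by
      unfold Refl.W TR
      simp [hk]
    simp only [add_sub_cancel_right, h4, rA_eq', h3]

lemma star_E (hm : 2 ≤ m) (hK : ∀ x, K x ≠ 0 → x τ = 0) (hk : k ≠ τ) (α : Fin n)
    {β : ℝ} (hβ : 0 < β) :
    β * (TR hm τ).Ew μ L β (wR L β m τ).1 (fun U => xT L K τ k α (tr (eT τ) U) U *
      xT L K τ k α U U) ≤
      (∑ x, K x ^ 2) * (TR hm τ).Ew μ L β (wR L β m τ).1 (fun _ => 1) := by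
  have h := (TR hm τ).star μ hβ (wR L β m τ) (wR_dep hm _ _) (wR_nonneg _ _)
    (cE L K k τ α) (cE_dep hm hK α) (fun e => |if e.2 = k then K (e.1 - eT τ) else 0|)
    (fun e => abs_nonneg _) (fun e _ U => by
      rw [sq_abs]
      have h1 : ∀ a, (cE L K k τ α e a).1 U ^ 2 =
          (if e.2 = k then K (e.1 - eT τ) else 0) ^ 2 *
          L.adm (Pc (tr (eT τ) U) (e.1 - eT τ))⁻¹ a α ^ 2 := fun a => by
        rw [cE_apply, mul_pow]
      rw [Finset.sum_congr rfl fun a _ => h1 a, ← Finset.mul_sum, sum_adm_sq, mul_one])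
  have e1 : ∀ U : Ed d (2 * m) → G, ∑ e ∈ (TR hm τ).J, ∑ a, (cE L K k τ α e a).1 U *
      ((TR hm τ).xi L e a).1 U = xT L K τ k α (tr (eT τ) U) U := fun U => sum_cE hm hK hk α U U
  have e2 : ∀ U : Ed d (2 * m) → G, ∑ e ∈ (TR hm τ).J, ∑ a,
      (cE L K k τ α e a).1 ((TR hm τ).tU U) * ((TR hm τ).xi L e a).1 U =
      xT L K τ k α U U := by
    intro U
    rw [sum_cE hm hK hk]
    unfold xT
    refine Finset.sum_congr rfl fun x _ => ?_
    by_cases h0 : K x = 0
    · rw [h0, zero_mul, zero_mul]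
    · rw [Pc_SA (SA_tU hm U) (hK x h0)]
  have e3 : ∑ e ∈ (TR hm τ).J, |if e.2 = k then K (e.1 - eT τ) else 0| ^ 2 = ∑ x, K x ^ 2 := by
    have h2 := sum_JK (K := K) hm hK hk (fun _ => 1) (fun t : ℝ => |t| ^ 2) (by simp)
    simp only [mul_one, sq_abs] at h2
    simp only [sq_abs]
    exact h2
  simp only [e1, e2, e3] at h
  exact h

lemma xT_cont1 {l : ℕ} [NeZero l] (r : St d l → ℝ) (τ k : Fin d) (α : Fin n) (z : St d l) :
    Continuous fun U : Ed d l → G => xT L r τ k α (tr z U) U := by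
  unfold xT
  exact continuous_finsetSum _ fun x _ => continuous_const.mul
    (cont_fi α (((SmG_Pct z x).mul ((SmG_link _).mul (SmG_link _).inv)).mul (SmG_Pct z x).inv))

lemma xT_cont2 {l : ℕ} [NeZero l] (r : St d l → ℝ) (τ k : Fin d) (α : Fin n) :
    Continuous fun U : Ed d l → G => xT L r τ k α U U := by
  unfold xT
  exact continuous_finsetSum _ fun x _ => continuous_const.mul
    (cont_fi α (((SmG_Pc x).mul ((SmG_link _).mul (SmG_link _).inv)).mul (SmG_Pc x).inv))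

/-- change of the transports -/
lemma xT_diff {l : ℕ} [NeZero l] {K : St d l → ℝ} (hK : KS τ M K) (hM : 2 ≤ M)
    {V : Ed d l → G} (hV : ∀ x, x τ = 0 → V (x, τ) = 1) (hk : k ≠ τ) (α : Fin n) :
    |xT L K τ k α (tr (eT τ) V) V - xT L K τ k α V V| ≤
      (∑ x, |K x|) * (2 * (d * M)) * sB L M V ^ 2 := by
  have hs := sB_nonneg (L := L) M V
  unfold xT
  rw [← Finset.sum_sub_distrib, Finset.sum_mul, Finset.sum_mul]
  refine (Finset.abs_sum_le_sum_abs _ _).trans (Finset.sum_le_sum fun x _ => ?_)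
  rw [← mul_sub, abs_mul]
  by_cases h0 : K x = 0
  · rw [h0]; simp
  rw [mul_assoc (|K x|)]
  refine mul_le_mul_of_nonneg_left ?_ (abs_nonneg _)
  have hx := hK.t0 x h0
  have hb : ∀ i, wv x i < M := fun i => by have := hK.bd x h0 i; omega
  have hW1 : dv L (V (x + eT τ, k) * (V (x, k))⁻¹) ≤ sB L M V := dv_W_cross hV hk hx hb
  have hQ : dv L (Pc (tr (eT τ) V) x * (Pc V x)⁻¹) ≤ d * M * sB L M V := by
    have h1 := dv_fr (L := L) (u := uu V) (u' := uu (tr (eT τ) V)) hs (wv x) (fun v hv i hi => by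
      have hvτ : v τ = 0 := by
        have h1 : v τ ≤ wv x τ := hv τ
        rw [wv_zero.2 hx] at h1
        exact Nat.le_zero.1 h1
      have hiτ : i ≠ τ := by
        rintro rfl
        rw [wv_zero.2 hx] at hi; omega
      have h2 := dv_W_cross (L := L) (M := M) hV (x := ct l v) hiτ (ct_zero hvτ) (fun i' => by
        rw [wv_ct (fun i => lt_of_le_of_lt (hv i) (wv_lt x i))]
        exact lt_of_le_of_lt (hv i') (hb i'))
      rw [← dv_inv, _root_.mul_inv_rev, inv_inv] at h2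
      exact h2)
    refine h1.trans (mul_le_mul_of_nonneg_right ?_ hs)
    have := sz_le (w := wv x) (M := M) fun i => (hb i).le
    exact_mod_cast this
  have h3 := fi_conj (L := L) α (Pc (tr (eT τ) V) x * (Pc V x)⁻¹)
    (Pc V x * (V (x + eT τ, k) * (V (x, k))⁻¹) * (Pc V x)⁻¹)
  have h4 : Pc (tr (eT τ) V) x * (Pc V x)⁻¹ *
      (Pc V x * (V (x + eT τ, k) * (V (x, k))⁻¹) * (Pc V x)⁻¹) *
      (Pc (tr (eT τ) V) x * (Pc V x)⁻¹)⁻¹ =
      Pc (tr (eT τ) V) x * (V (x + eT τ, k) * (V (x, k))⁻¹) * (Pc (tr (eT τ) V) x)⁻¹ := by group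
  rw [h4, dv_conj] at h3
  refine h3.trans ?_
  calc 2 * dv L (Pc (tr (eT τ) V) x * (Pc V x)⁻¹) * dv L (V (x + eT τ, k) * (V (x, k))⁻¹) ≤
      2 * (d * M * sB L M V) * sB L M V :=
        mul_le_mul (by linarith) hW1 (dv_nonneg _) (by positivity)
    _ = _ := by ring

lemma Ph_cont {l : ℕ} [NeZero l] (K : St d l → ℝ) (j k : Fin d) (a : Fin n) :
    Continuous fun U : Ed d l → G => Ph L K j k a U := by
  have : (fun U : Ed d l → G => Ph L K j k a U) = (PhS L K j k a).1 := by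
    funext U; exact (PhS_apply K j k a U).symm
  rw [this]; exact Sm_cont _

/-- the variance of the flux through the first layer -/
theorem slice_bound (hm : 2 ≤ m) (hK : KS τ M K) (hM : 2 ≤ M) (hk : k ≠ τ) {β : ℝ} (hβ : 0 < β) :
    Zt μ L β (fun U => ∑ a, Ph L K τ k a U ^ 2) ≤
      n * (2 / β * (∑ x, K x ^ 2) * Zt μ L β (fun _ : Ed d (2 * m) → G => 1) +
        ((∑ x, |K x|) * (2 * (d * M))) ^ 2 *
          Zt μ L β (fun U : Ed d (2 * m) → G => sB L M U ^ 4)) := by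
  obtain ⟨κ, hκ⟩ : ∃ κ : ℝ, κ = (∑ x, |K x|) * (2 * ((d : ℝ) * M)) := ⟨_, rfl⟩
  rw [← hκ]
  obtain ⟨c, hc, hred⟩ := Zt_red μ (L := L) hm τ β
  have hc1 : Continuous fun U : Ed d (2 * m) → G => ∑ a, Ph L K τ k a U ^ 2 :=
    continuous_finsetSum _ fun a _ => (Ph_cont K τ k a).pow 2
  have hg1 : GI fun U : Ed d (2 * m) → G => ∑ a, Ph L K τ k a U ^ 2 := fun γ U =>
    sum_Ph_gt K τ k γ U
  have hc4 : Continuous fun U : Ed d (2 * m) → G => sB L M U ^ 4 := (sB_cont M).pow 4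
  have hg4 : GI fun U : Ed d (2 * m) → G => sB L M U ^ 4 := fun γ U => by
    show sB L M (gt γ U) ^ 4 = _
    rw [sB_gt M γ U]
  have hgo : GI fun _ : Ed d (2 * m) → G => (1 : ℝ) := fun γ U => rfl
  rw [hred _ hc1 hg1, hred _ hc4 hg4, hred _ continuous_const hgo]
  obtain ⟨w, hw⟩ : ∃ w, w = (wR L β m τ : Sm L (Ed d (2 * m))).1 := ⟨_, rfl⟩
  have hwc : Continuous w := by rw [hw]; exact Sm_cont _
  have hw0 : ∀ U, 0 ≤ w U := by rw [hw]; exact wR_nonneg _ _
  obtain ⟨Zz, hZz⟩ : ∃ Zz : Fin n → (Ed d (2 * m) → G) → ℝ, Zz = fun a U =>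
    xT L K τ k a (tr (eT τ) U) U * xT L K τ k a U U := ⟨_, rfl⟩
  have hZc : ∀ a, Continuous (Zz a) := fun a => by
    rw [hZz]
    exact (xT_cont1 K τ k a _).mul (xT_cont2 K τ k a)
  have hpt : ∀ U : Ed d (2 * m) → G, ∑ a, Ph L K τ k a (fix τ U) ^ 2 ≤
        ∑ a, (2 * Zz a U + κ ^ 2 * sB L M (fix τ U) ^ 4) := by
    intro U
    refine Finset.sum_le_sum fun a _ => ?_
    obtain ⟨V, hV⟩ : ∃ V, V = fix τ U := ⟨_, rfl⟩
    have hV1 : ∀ x : Fin d → ZMod (2 * m), x τ = 0 → V (x, τ) = 1 := fun x hx => by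
      rw [hV]; exact fix_i0' _ _ (Or.inl hx)
    have hSA1 : SA τ V U := fun x i hx hi => by rw [hV]; exact fix_ne _ _ hi
    have hSA2 : SA τ (tr (eT τ) V) (tr (eT τ) U) := fun x i hx hi => by
      rw [hV]; exact fix_ne _ _ hi
    have hX : xT L K τ k a (tr (eT τ) U) U = xT L K τ k a (tr (eT τ) V) V := by
      unfold xT
      refine Finset.sum_congr rfl fun x _ => ?_
      by_cases h0 : K x = 0
      · rw [h0, zero_mul, zero_mul]
      · have hx := hK.t0 x h0
        have h5 : U (x + eT τ, k) = V (x + eT τ, k) := by rw [hV]; exact (fix_ne _ _ hk).symm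
        rw [Pc_SA hSA2 hx, hSA1 x k hx hk, h5]
    have hY : xT L K τ k a U U = xT L K τ k a V V := by
      unfold xT
      refine Finset.sum_congr rfl fun x _ => ?_
      by_cases h0 : K x = 0
      · rw [h0, zero_mul, zero_mul]
      · have hx := hK.t0 x h0
        have h5 : U (x + eT τ, k) = V (x + eT τ, k) := by rw [hV]; exact (fix_ne _ _ hk).symm
        rw [Pc_SA hSA1 hx, hSA1 x k hx hk, h5]
    have hP : Ph L K τ k a V = xT L K τ k a V V := by
      unfold Ph xT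
      refine Finset.sum_congr rfl fun x _ => ?_
      by_cases h0 : K x = 0
      · rw [h0, zero_mul, zero_mul]
      · have hx := hK.t0 x h0
        congr 3
        unfold plqT
        rw [hV1 x hx, hV1 (x + eT k) (by rw [add_ne x hk]; exact hx)]
        group
    have hD := xT_diff (L := L) hK hM hV1 hk a
    rw [← hκ] at hD
    have hZ1 : Zz a U = xT L K τ k a (tr (eT τ) V) V * xT L K τ k a V V := by
      rw [hZz]; simp only; rw [hX, hY]
    rw [← hV, hZ1, hP]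
    obtain ⟨X, hX'⟩ : ∃ X, X = xT L K τ k a (tr (eT τ) V) V := ⟨_, rfl⟩
    obtain ⟨Y, hY'⟩ : ∃ Y, Y = xT L K τ k a V V := ⟨_, rfl⟩
    rw [← hX', ← hY'] at hD ⊢
    have hD2 : (X - Y) ^ 2 ≤ (κ * sB L M V ^ 2) ^ 2 := by
      rw [← sq_abs]; exact pow_le_pow_left₀ (abs_nonneg _) hD 2
    nlinarith [sq_nonneg X]
  have hbc : ∀ a, Continuous fun U : Ed d (2 * m) → G =>
      2 * Zz a U + κ ^ 2 * sB L M (fix τ U) ^ 4 := fun a =>
    (continuous_const.mul (hZc a)).add (continuous_const.mul (hc4.comp fix_cont))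
  have hm1 := (TR hm τ).Ew_mono μ (L := L) (β := β) (w := w)
    (F := fun U => ∑ a, Ph L K τ k a (fix τ U) ^ 2)
    (H := fun U => ∑ a, (2 * Zz a U + κ ^ 2 * sB L M (fix τ U) ^ 4))
    hwc hw0 (hc1.comp fix_cont) (continuous_finsetSum _ fun a _ => hbc a) hpt
  have hes : (TR hm τ).Ew μ L β w (fun U => ∑ a, (2 * Zz a U +
      κ ^ 2 * sB L M (fix τ U) ^ 4)) = ∑ a, (TR hm τ).Ew μ L β w
      (fun U => 2 * Zz a U + κ ^ 2 * sB L M (fix τ U) ^ 4) :=
    (TR hm τ).Ew_sum μ (L := L) (F := fun a U => 2 * Zz a U +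
      κ ^ 2 * sB L M (fix τ U) ^ 4) hwc _ (fun a _ => hbc a)
  rw [hes] at hm1
  have hterm : ∀ a, (TR hm τ).Ew μ L β w
      (fun U => 2 * Zz a U + κ ^ 2 * sB L M (fix τ U) ^ 4) ≤
      2 / β * (∑ x, K x ^ 2) * (TR hm τ).Ew μ L β w (fun _ => 1) +
        κ ^ 2 * (TR hm τ).Ew μ L β w (fun U => sB L M (fix τ U) ^ 4) := by
    intro a
    have h1 := (TR hm τ).Ew_add μ (L := L) (β := β) (w := w) hwc
      (F := fun U => 2 * Zz a U)
      (H := fun U => κ ^ 2 * sB L M (fix τ U) ^ 4)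
      (continuous_const.mul (hZc a)) (continuous_const.mul (hc4.comp fix_cont))
    rw [h1, (TR hm τ).Ew_smul μ, (TR hm τ).Ew_smul μ]
    refine add_le_add ?_ le_rfl
    have h2 := star_E μ (L := L) hm hK.t0 hk a hβ
    rw [← hw] at h2
    have h3 : (TR hm τ).Ew μ L β w (fun U => xT L K τ k a (tr (eT τ) U) U *
      xT L K τ k a U U) = (TR hm τ).Ew μ L β w (Zz a) := by rw [hZz]
    rw [h3] at h2
    have h4 : (TR hm τ).Ew μ L β w (Zz a) ≤
        (∑ x, K x ^ 2) * (TR hm τ).Ew μ L β w (fun _ => 1) / β := by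
      rw [le_div_iff₀ hβ]; linarith
    calc 2 * (TR hm τ).Ew μ L β w (Zz a) ≤
        2 * ((∑ x, K x ^ 2) * (TR hm τ).Ew μ L β w (fun _ => 1) / β) := by linarith
      _ = _ := by ring
  have hfin := hm1.trans (Finset.sum_le_sum fun a _ => hterm a)
  rw [Finset.sum_const, Finset.card_univ, Fintype.card_fin, nsmul_eq_mul] at hfin
  rw [← hw]
  calc c * (TR hm τ).Ew μ L β w (fun U => ∑ a, Ph L K τ k a (fix τ U) ^ 2) ≤ _ :=
        mul_le_mul_of_nonneg_left hfin hc.le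
    _ = _ := by ring

/-! ### the other layers -/

lemma fr_one' (w : Pt d) : fr (fun (_ : Pt d) (_ : Fin d) => (1 : G)) w = 1 := by
  induction hn : sz w generalizing w with
  | zero =>
    have hw : ¬∃ i, 0 < w i := by
      rintro ⟨i, hi⟩
      have := sz_sub hi
      omega
    exact fr_zero _ hw
  | succ q ih =>
    have hwp : ∃ i, 0 < w i := by
      by_contra hc
      push Not at hc
      have : sz w = 0 := Finset.sum_eq_zero fun i _ => Nat.le_zero.1 (hc i)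
      omega
    have hp := mi_pos w hwp
    have hsz := sz_sub hp
    rw [fr_succ _ hwp, ih (w - es (mi w hwp)) (by omega), mul_one]

/-- the transports of a translated configuration -/
lemma Pc_trans {l : ℕ} [NeZero l] (U : Ed d l → G) (z x : St d l) {s : ℝ} (hs : 0 ≤ s)
    (h : ∀ v : Pt d, v ≤ wv x → ∀ i, v i + 1 ≤ wv x i → dv L (tlT U (ct l v + z) i) ≤ s) :
    dv L (Pc U z * Pc (tr z U) x * (Pc U (x + z))⁻¹) ≤ sz (wv x) * s := by
  have h1 := fr_gauge (u := uu (tr z U)) (u' := fun v i => tlT U (ct l v + z) i)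
    (fun v => Pc U (ct l v + z)) (wv x) (fun v _ i => by
      unfold tlT uu tr
      simp only
      rw [ct_add, add_right_comm])
  have h2 : ct l (0 : Pt d) = 0 := by funext i; simp [ct]
  rw [h2, zero_add, ct_wv] at h1
  have h3 : Pc (tr z U) x = fr (uu (tr z U)) (wv x) := rfl
  rw [h3, ← h1]
  have h4 := dv_fr (L := L) (u := fun v i => (1 : G)) (u' := fun v i => tlT U (ct l v + z) i) hs
    (wv x) (fun v hv i hi => by
      rw [one_mul, dv_inv]; exact h v hv i hi)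
  rw [fr_one', inv_one, mul_one] at h4
  exact h4

/-- support in the layer `s` -/
structure KZ {l : ℕ} [NeZero l] (τ : Fin d) (M s : ℕ) (K : St d l → ℝ) : Prop where
  t0 : ∀ x, K x ≠ 0 → wv x τ = s
  bd : ∀ x, K x ≠ 0 → ∀ i, wv x i + 1 < M
  Ml : M < l

lemma wv_sub_sv {l : ℕ} [NeZero l] {x : St d l} {s : ℕ} (hx : wv x τ = s) (i : Fin d) :
    wv (x - sv τ (s : ZMod l)) i = if i = τ then 0 else wv x i := by
  unfold wv sv
  by_cases h : i = τ
  · subst h
    have h1 : (x i).val = s := hx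
    have h2 : x i = (s : ZMod l) := by rw [← h1, ZMod.natCast_zmod_val]
    rw [if_pos rfl, Pi.sub_apply, Pi.single_eq_same, h2, sub_self, ZMod.val_zero]
  · rw [if_neg h, Pi.sub_apply, Pi.single_eq_of_ne h, sub_zero]

lemma KZ.shift {l : ℕ} [NeZero l] {s : ℕ} {K : St d l → ℝ} (hK : KZ τ M s K) :
    KS τ M fun x => K (x + sv τ (s : ZMod l)) := by
  have key : ∀ x, K (x + sv τ (s : ZMod l)) ≠ 0 → ∀ i, wv x i =
      if i = τ then 0 else wv (x + sv τ (s : ZMod l)) i := fun x hx i => by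
    have h := wv_sub_sv (hK.t0 _ hx) i
    rwa [add_sub_cancel_right] at h
  refine ⟨fun x hx => ?_, fun x hx i => ?_, hK.Ml⟩
  · have h := key x hx τ
    rw [if_pos rfl] at h
    exact wv_zero.1 h
  · have h := key x hx i
    have h2 := hK.bd _ hx i
    rw [h]
    split_ifs
    · omega
    · exact h2

/-- the flux through a layer in terms of the translated configuration -/
lemma Ph_trans {l : ℕ} [NeZero l] {s : ℕ} {K : St d l → ℝ} (hK : KZ τ M s K) (hk : k ≠ τ)
    (U : Ed d l → G) :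
    ∑ a, Ph L K τ k a U ^ 2 ≤
      2 * ∑ a, Ph L (fun x => K (x + sv τ (s : ZMod l))) τ k a (tr (sv τ (s : ZMod l)) U) ^ 2 +
      2 * n * ((∑ x, |K x|) * (2 * (d * M) ^ 2)) ^ 2 * sB L M U ^ 4 := by
  have hs := sB_nonneg (L := L) M U
  obtain ⟨z, hz⟩ : ∃ z : St d l, z = sv τ (s : ZMod l) := ⟨_, rfl⟩
  rw [← hz]
  obtain ⟨h, hh⟩ : ∃ h : G, h = Pc U z := ⟨_, rfl⟩
  obtain ⟨Q, hQ⟩ : ∃ Q : Fin n → ℝ, Q = fun a => ∑ x, K (x + z) * fi L a (h *
    (Pc (tr z U) x * plqT (tr z U) x τ k * (Pc (tr z U) x)⁻¹) * h⁻¹) := ⟨_, rfl⟩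
  have e1 : ∑ a, Q a ^ 2 = ∑ a, Ph L (fun x => K (x + z)) τ k a (tr z U) ^ 2 := by
    rw [hQ]
    exact sum_fi_conj _ _ _ _
  have e2 : ∀ a, |Ph L K τ k a U - Q a| ≤ (∑ x, |K x|) * (2 * (d * M) ^ 2) * sB L M U ^ 2 := by
    intro a
    have e3 : Ph L K τ k a U = ∑ x, K (x + z) *
        fi L a (Pc U (x + z) * plqT U (x + z) τ k * (Pc U (x + z))⁻¹) :=
      (sum_shift z fun x => K x * fi L a (Pc U x * plqT U x τ k * (Pc U x)⁻¹)).symm
    rw [e3, hQ, ← Finset.sum_sub_distrib, ← sum_shift z (fun x => |K x|), Finset.sum_mul,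
      Finset.sum_mul]
    refine (Finset.abs_sum_le_sum_abs _ _).trans (Finset.sum_le_sum fun x _ => ?_)
    rw [← mul_sub, abs_mul]
    by_cases h0 : K (x + z) = 0
    · rw [h0]; simp
    rw [mul_assoc (|K (x + z)|)]
    refine mul_le_mul_of_nonneg_left ?_ (abs_nonneg _)
    have hb : ∀ i, wv (x + z) i + 1 < M := hK.bd _ h0
    have hMl := hK.Ml
    have hxz : ∀ i, wv x i = if i = τ then 0 else wv (x + z) i := fun i => by
      have h5 := wv_sub_sv (hK.t0 _ h0) i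
      rwa [← hz, add_sub_cancel_right] at h5
    have hxz' : x + z = ct l (wv x + fun i => if i = τ then s else 0) := by
      have h6 : wv x + (fun i => if i = τ then s else 0) = wv (x + z) := by
        funext i
        rw [Pi.add_apply, hxz i]
        by_cases hi : i = τ
        · subst hi; rw [if_pos rfl, if_pos rfl, zero_add]; exact (hK.t0 _ h0).symm
        · rw [if_neg hi, if_neg hi, add_zero]
      rw [h6, ct_wv]
    have hT : ∀ v : Pt d, v ≤ wv x → ∀ i, v i + 1 ≤ wv x i →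
        dv L (tlT U (ct l v + z) i) ≤ d * M * sB L M U := by
      intro v hv i hi
      have h7 : ct l v + z = ct l (v + fun i => if i = τ then s else 0) := by
        funext i'
        rw [hz]
        unfold ct sv
        simp only [Pi.add_apply]
        by_cases hi' : i' = τ
        · subst hi'; simp
        · simp [hi']
      have h8 : ∀ i', (v + fun i => if i = τ then s else 0) i' ≤ wv (x + z) i' := by
        intro i'
        have h9 : v i' ≤ wv x i' := hv i'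
        rw [hxz i'] at h9
        rw [Pi.add_apply]
        by_cases hi' : i' = τ
        · subst hi'
          rw [if_pos rfl] at h9
          show v i' + (if i' = i' then s else 0) ≤ _
          rw [if_pos rfl]
          have h14 := hK.t0 _ h0
          omega
        · rw [if_neg hi'] at h9
          simp only [if_neg hi', add_zero]
          exact h9
      have h10 : wv (ct l (v + fun i => if i = τ then s else 0)) =
          v + fun i => if i = τ then s else 0 := wv_ct fun i' => by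
        have := h8 i'; have := hb i'; omega
      rw [h7]
      refine dv_tlT U (fun i' => ?_) ?_
      · rw [h10]; have := h8 i'; have := hb i'; omega
      · rw [h10]; have := h8 i; have := hb i; omega
    have hPt := Pc_trans (L := L) U z x (s := d * M * sB L M U) (by positivity) hT
    rw [← hh] at hPt
    have hsz : (sz (wv x) : ℝ) ≤ d * M := by
      have := sz_le (w := wv x) (M := M) fun i => by
        rw [hxz i]; split_ifs
        · omega
        · have := hb i; omega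
      exact_mod_cast this
    have hPt2 : dv L (h * Pc (tr z U) x * (Pc U (x + z))⁻¹) ≤ (d * M) ^ 2 * sB L M U := by
      refine hPt.trans ?_
      calc (sz (wv x) : ℝ) * (d * M * sB L M U) ≤ (d * M) * (d * M * sB L M U) :=
            mul_le_mul_of_nonneg_right hsz (by positivity)
        _ = _ := by ring
    have h11 := fi_conj (L := L) a (h * Pc (tr z U) x * (Pc U (x + z))⁻¹)
      (Pc U (x + z) * plqT U (x + z) τ k * (Pc U (x + z))⁻¹)
    have h12 : h * Pc (tr z U) x * (Pc U (x + z))⁻¹ *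
        (Pc U (x + z) * plqT U (x + z) τ k * (Pc U (x + z))⁻¹) *
        (h * Pc (tr z U) x * (Pc U (x + z))⁻¹)⁻¹ =
        h * (Pc (tr z U) x * plqT (tr z U) x τ k * (Pc (tr z U) x)⁻¹) * h⁻¹ := by
      rw [plqT_tr]; group
    rw [h12, dv_conj] at h11
    rw [abs_sub_comm]
    refine h11.trans ?_
    have h13 : dv L (plqT U (x + z) τ k) ≤ sB L M U :=
      le_sB'' U (fun i => by have := hb i; omega) hk.symm
    calc 2 * dv L (h * Pc (tr z U) x * (Pc U (x + z))⁻¹) * dv L (plqT U (x + z) τ k) ≤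
        2 * ((d * M) ^ 2 * sB L M U) * sB L M U :=
          mul_le_mul (by linarith) h13 (dv_nonneg _) (by positivity)
      _ = _ := by ring
  rw [← e1, Finset.mul_sum]
  have e4 : 2 * n * ((∑ x, |K x|) * (2 * (d * M) ^ 2)) ^ 2 * sB L M U ^ 4 =
      ∑ _a : Fin n, 2 * ((∑ x, |K x|) * (2 * (d * M) ^ 2) * sB L M U ^ 2) ^ 2 := by
    rw [Finset.sum_const, Finset.card_univ, Fintype.card_fin, nsmul_eq_mul]; ring
  rw [e4, ← Finset.sum_add_distrib]
  refine Finset.sum_le_sum fun a _ => ?_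
  have e5 : (Ph L K τ k a U - Q a) ^ 2 ≤
      ((∑ x, |K x|) * (2 * (d * M) ^ 2) * sB L M U ^ 2) ^ 2 := by
    rw [← sq_abs]; exact pow_le_pow_left₀ (abs_nonneg _) (e2 a) 2
  nlinarith [sq_nonneg (Ph L K τ k a U - 2 * Q a)]

/-- the variance of the flux through any layer -/
theorem slice_bound_s (hm : 2 ≤ m) {s : ℕ} (hK : KZ τ M s K) (hM : 2 ≤ M) (hk : k ≠ τ) {β : ℝ}
    (hβ : 0 < β) :
    Zt μ L β (fun U => ∑ a, Ph L K τ k a U ^ 2) ≤
      n * (4 / β * (∑ x, K x ^ 2) * Zt μ L β (fun _ : Ed d (2 * m) → G => 1) +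
        (∑ x, |K x|) ^ 2 * (16 * (d * M + 1) ^ 4) *
          Zt μ L β (fun U : Ed d (2 * m) → G => sB L M U ^ 4)) := by
  obtain ⟨z, hz⟩ : ∃ z : St d (2 * m), z = sv τ (s : ZMod (2 * m)) := ⟨_, rfl⟩
  obtain ⟨K', hK'⟩ : ∃ K' : St d (2 * m) → ℝ, K' = fun x => K (x + z) := ⟨_, rfl⟩
  have hKS : KS τ M K' := by rw [hK', hz]; exact hK.shift
  have h1 := slice_bound μ (L := L) hm hKS hM hk hβ
  have s1 : ∑ x, K' x ^ 2 = ∑ x, K x ^ 2 := by rw [hK']; exact sum_shift z fun x => K x ^ 2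
  have s2 : ∑ x, |K' x| = ∑ x, |K x| := by rw [hK']; exact sum_shift z fun x => |K x|
  rw [s1, s2] at h1
  have hc : Continuous fun U : Ed d (2 * m) → G => ∑ a, Ph L K τ k a U ^ 2 :=
    continuous_finsetSum _ fun a _ => (Ph_cont K τ k a).pow 2
  have hc' : Continuous fun U : Ed d (2 * m) → G => ∑ a, Ph L K' τ k a U ^ 2 :=
    continuous_finsetSum _ fun a _ => (Ph_cont K' τ k a).pow 2
  have hc2 : Continuous fun U : Ed d (2 * m) → G => 2 * ∑ a, Ph L K' τ k a (tr z U) ^ 2 :=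
    continuous_const.mul (hc'.comp (tr_cont z))
  have hc3 : Continuous fun U : Ed d (2 * m) → G =>
      2 * n * ((∑ x, |K x|) * (2 * (d * M) ^ 2)) ^ 2 * sB L M U ^ 4 :=
    continuous_const.mul ((sB_cont M).pow 4)
  have h2 : Zt μ L β (fun U => ∑ a, Ph L K τ k a U ^ 2) ≤
      Zt μ L β (fun U => 2 * ∑ a, Ph L K' τ k a (tr z U) ^ 2 +
        2 * n * ((∑ x, |K x|) * (2 * (d * M) ^ 2)) ^ 2 * sB L M U ^ 4) := by
    refine Zt_mono μ hc (hc2.add hc3) fun U => ?_
    have := Ph_trans (L := L) hK hk U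
    rw [← hz] at this
    rw [hK']
    exact this
  rw [Zt_add μ hc2 hc3, Zt_smul, Zt_smul, Zt_tr μ β z (fun U => ∑ a, Ph L K' τ k a U ^ 2)] at h2
  refine h2.trans ?_
  obtain ⟨Z4, hZ4⟩ : ∃ Z4, Z4 = Zt μ L β (fun U : Ed d (2 * m) → G => sB L M U ^ 4) := ⟨_, rfl⟩
  obtain ⟨Z0, hZ0⟩ : ∃ Z0, Z0 = Zt μ L β (fun _ : Ed d (2 * m) → G => 1) := ⟨_, rfl⟩
  obtain ⟨q, hq⟩ : ∃ q, q = ∑ x, |K x| := ⟨_, rfl⟩
  rw [← hZ4, ← hZ0, ← hq] at h1
  rw [← hZ4, ← hZ0, ← hq]
  have hZ40 : 0 ≤ Z4 := by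
    rw [hZ4]; exact Zt_nonneg μ fun U => by positivity
  have hdM : (0 : ℝ) ≤ d * M := by positivity
  obtain ⟨t, ht⟩ : ∃ t : ℝ, t = d * M := ⟨_, rfl⟩
  rw [← ht] at hdM h1 ⊢
  have e1 : 4 * t ^ 2 + 4 * t ^ 4 ≤ 8 * (t + 1) ^ 4 := by nlinarith [pow_nonneg hdM 3]
  have e2 : n * q ^ 2 * Z4 * (2 * (4 * t ^ 2 + 4 * t ^ 4)) ≤
      n * q ^ 2 * Z4 * (2 * (8 * (t + 1) ^ 4)) :=
    mul_le_mul_of_nonneg_left (by linarith) (by positivity)
  rw [div_eq_mul_inv] at h1 ⊢
  linarith [h1, e2]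

/-- decomposition into layers -/
theorem box_bound (hm : 2 ≤ m) (hMl : M < 2 * m) (hK : ∀ x, K x ≠ 0 → ∀ i, wv x i + 1 < M)
    (hM : 2 ≤ M) (hk : k ≠ τ) {β : ℝ} (hβ : 0 < β) :
    Zt μ L β (fun U => ∑ a, Ph L K τ k a U ^ 2) ≤
      M * n * (4 / β * (∑ x, K x ^ 2) * Zt μ L β (fun _ : Ed d (2 * m) → G => 1) +
        (∑ x, |K x|) ^ 2 * (16 * (d * M + 1) ^ 4) *
          Zt μ L β (fun U : Ed d (2 * m) → G => sB L M U ^ 4)) := by
  obtain ⟨Ks, hKs⟩ : ∃ Ks : ℕ → St d (2 * m) → ℝ,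
    Ks = fun s x => if wv x τ = s then K x else 0 := ⟨_, rfl⟩
  have hKz : ∀ s, KZ τ M s (Ks s) := by
    intro s
    rw [hKs]
    refine ⟨fun x hx => ?_, fun x hx => ?_, hMl⟩
    · by_contra hc
      simp only [if_neg hc, ne_eq, not_true_eq_false] at hx
    · have hx' : K x ≠ 0 := by
        intro h0
        apply hx
        simp only [h0, ite_self]
      exact hK x hx'
  have hsum : ∀ x (φ : ℝ → ℝ), φ 0 = 0 → ∑ s ∈ Finset.range M, φ (Ks s x) = φ (K x) := by
    intro x φ hφ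
    rw [hKs]
    by_cases h0 : K x = 0
    · simp only [h0, ite_self, hφ, Finset.sum_const_zero]
    · have hx := hK x h0 τ
      rw [Finset.sum_eq_single (wv x τ)]
      · simp only [if_true]
      · intro s _ hs
        simp only [if_neg (fun h => hs (Eq.symm h)), hφ]
      · intro h
        exact absurd (Finset.mem_range.2 (by omega)) h
  have hPh : ∀ a (U : Ed d (2 * m) → G), Ph L K τ k a U = ∑ s ∈ Finset.range M,
      Ph L (Ks s) τ k a U := by
    intro a U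
    unfold Ph
    rw [Finset.sum_comm]
    refine Finset.sum_congr rfl fun x _ => ?_
    rw [← Finset.sum_mul, hsum x (fun t => t) rfl]
  have hpt : ∀ U : Ed d (2 * m) → G, ∑ a, Ph L K τ k a U ^ 2 ≤
      M * ∑ s ∈ Finset.range M, ∑ a, Ph L (Ks s) τ k a U ^ 2 := by
    intro U
    rw [Finset.sum_comm, Finset.mul_sum]
    refine Finset.sum_le_sum fun a _ => ?_
    rw [hPh]
    have := sq_sum_le_card_mul_sum_sq (s := Finset.range M) (f := fun s => Ph L (Ks s) τ k a U)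
    rwa [Finset.card_range] at this
  have hc : ∀ K : St d (2 * m) → ℝ, Continuous fun U : Ed d (2 * m) → G =>
      ∑ a, Ph L K τ k a U ^ 2 := fun K =>
    continuous_finsetSum _ fun a _ => (Ph_cont K τ k a).pow 2
  have hcs : Continuous fun U : Ed d (2 * m) → G =>
      ∑ s ∈ Finset.range M, ∑ a, Ph L (Ks s) τ k a U ^ 2 :=
    continuous_finsetSum _ fun s _ => hc _
  have h1 := Zt_mono μ (L := L) (β := β) (F := fun U => ∑ a, Ph L K τ k a U ^ 2)
    (H := fun U => M * ∑ s ∈ Finset.range M, ∑ a, Ph L (Ks s) τ k a U ^ 2)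
    (hc K) (continuous_const.mul hcs) hpt
  have h2 : Zt μ L β (fun U => M * ∑ s ∈ Finset.range M, ∑ a, Ph L (Ks s) τ k a U ^ 2) =
      M * ∑ s ∈ Finset.range M, Zt μ L β (fun U => ∑ a, Ph L (Ks s) τ k a U ^ 2) := by
    rw [Zt_smul, Zt_sum μ _ fun s _ => hc _]
  refine h1.trans (h2.le.trans ?_)
  obtain ⟨Z4, hZ4⟩ : ∃ Z4, Z4 = Zt μ L β (fun U : Ed d (2 * m) → G => sB L M U ^ 4) := ⟨_, rfl⟩
  obtain ⟨Z0, hZ0⟩ : ∃ Z0, Z0 = Zt μ L β (fun _ : Ed d (2 * m) → G => 1) := ⟨_, rfl⟩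
  have hZ40 : 0 ≤ Z4 := by
    rw [hZ4]; exact Zt_nonneg μ fun U => by positivity
  have h3 : ∑ s ∈ Finset.range M, Zt μ L β (fun U => ∑ a, Ph L (Ks s) τ k a U ^ 2) ≤
      ∑ s ∈ Finset.range M, n * (4 / β * (∑ x, Ks s x ^ 2) * Z0 +
        (∑ x, |Ks s x|) ^ 2 * (16 * (d * M + 1) ^ 4) * Z4) := by
    rw [hZ0, hZ4]
    exact Finset.sum_le_sum fun s _ => slice_bound_s μ hm (hKz s) hM hk hβ
  have h4 : ∑ s ∈ Finset.range M, (∑ x, Ks s x ^ 2) = ∑ x, K x ^ 2 := by
    rw [Finset.sum_comm]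
    exact Finset.sum_congr rfl fun x _ => hsum x (fun t => t ^ 2) (by norm_num)
  have h5 : ∑ s ∈ Finset.range M, (∑ x, |Ks s x|) = ∑ x, |K x| := by
    rw [Finset.sum_comm]
    exact Finset.sum_congr rfl fun x _ => hsum x (fun t => |t|) (abs_zero)
  have h6 : ∑ s ∈ Finset.range M, (∑ x, |Ks s x|) ^ 2 ≤ (∑ x, |K x|) ^ 2 := by
    rw [← h5]
    have h7 : ∀ s, 0 ≤ ∑ x, |Ks s x| := fun s => Finset.sum_nonneg fun x _ => abs_nonneg _
    rw [pow_two (∑ s ∈ Finset.range M, ∑ x, |Ks s x|), Finset.sum_mul]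
    refine Finset.sum_le_sum fun s hs => ?_
    rw [pow_two]
    exact mul_le_mul_of_nonneg_left (Finset.single_le_sum (f := fun s => ∑ x, |Ks s x|)
      (fun s _ => h7 s) hs) (h7 s)
  have h8 : ∑ s ∈ Finset.range M, n * (4 / β * (∑ x, Ks s x ^ 2) * Z0 +
        (∑ x, |Ks s x|) ^ 2 * (16 * (d * M + 1) ^ 4) * Z4) =
      n * (4 / β * (∑ x, K x ^ 2) * Z0 + (∑ s ∈ Finset.range M, (∑ x, |Ks s x|) ^ 2) *
        (16 * (d * M + 1) ^ 4) * Z4) := by
    rw [← Finset.mul_sum, Finset.sum_add_distrib, ← Finset.sum_mul, ← Finset.mul_sum, h4,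
      ← Finset.sum_mul, ← Finset.sum_mul]
  rw [h8] at h3
  have h9 : (∑ s ∈ Finset.range M, (∑ x, |Ks s x|) ^ 2) * (16 * ((d : ℝ) * M + 1) ^ 4) * Z4 ≤
      (∑ x, |K x|) ^ 2 * (16 * (d * M + 1) ^ 4) * Z4 :=
    mul_le_mul_of_nonneg_right (mul_le_mul_of_nonneg_right h6 (by positivity)) hZ40
  rw [← hZ4, ← hZ0]
  calc (M : ℝ) * ∑ s ∈ Finset.range M, Zt μ L β (fun U => ∑ a, Ph L (Ks s) τ k a U ^ 2) ≤
      M * (n * (4 / β * (∑ x, K x ^ 2) * Z0 + (∑ x, |K x|) ^ 2 *
        (16 * (d * M + 1) ^ 4) * Z4)) :=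
        mul_le_mul_of_nonneg_left (h3.trans (mul_le_mul_of_nonneg_left (by linarith)
          (Nat.cast_nonneg _))) (Nat.cast_nonneg _)
    _ = _ := by ring

end

end Pool.Agent.W793.YM
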