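import Mathlib
import Pool.Agent.W793.YM.Forms

/-!
# Decay of the lazy walk on the periodic lattice
-/

open Pool.Agent.H906R3.YM

namespace Pool.Agent.W793.YM

set_option linter.unusedSectionVars false
set_option linter.unusedVariables false

noncomputable section

variable {d l : ℕ} [NeZero l]

/-! ### one dimensional sums -/

lemma sum_quad {a : ℝ} (ha : 0 < a) (n : ℕ) :
    ∑ j ∈ Finset.range n, 1 / (1 + a * (j : ℝ) ^ 2) ≤ 1 + 2 / Real.sqrt a := by
  obtain ⟨s, hs⟩ : ∃ s, s = Real.sqrt a := ⟨_, rfl⟩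
  have hs0 : 0 < s := by rw [hs]; exact Real.sqrt_pos.2 ha
  have hsa : a = s ^ 2 := by rw [hs, Real.sq_sqrt ha.le]
  rw [← hs, hsa]
  have key : ∀ n : ℕ, ∑ j ∈ Finset.range (n + 1), 1 / (1 + s ^ 2 * (j : ℝ) ^ 2) ≤
      1 + 2 / s - 2 / s * (1 / (1 + s * n)) := by
    intro n
    induction n with
    | zero =>
      simp only [zero_add, Finset.range_one, Finset.sum_singleton, Nat.cast_zero]
      norm_num
    | succ n ih =>
      rw [Finset.sum_range_succ]
      have hn : (0 : ℝ) ≤ n := Nat.cast_nonneg n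
      have h1 : 1 / (1 + s ^ 2 * ((n + 1 : ℕ) : ℝ) ^ 2) ≤
          2 / s * (1 / (1 + s * n)) - 2 / s * (1 / (1 + s * ((n + 1 : ℕ) : ℝ))) := by
        push_cast
        have p1 : 0 < 1 + s * (n : ℝ) := by positivity
        have p2 : 0 < 1 + s * ((n : ℝ) + 1) := by positivity
        have e : 2 / s * (1 / (1 + s * (n : ℝ))) - 2 / s * (1 / (1 + s * ((n : ℝ) + 1))) =
            2 / ((1 + s * n) * (1 + s * ((n : ℝ) + 1))) := by
          field_simp
          ring
        rw [e, div_le_div_iff₀ (by positivity) (by positivity)]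
        nlinarith [sq_nonneg (1 - s * ((n : ℝ) + 1)), mul_nonneg hs0.le hn]
      linarith
  rcases Nat.eq_zero_or_pos n with h | h
  · subst h
    simp only [Finset.range_zero, Finset.sum_empty]
    positivity
  · obtain ⟨k, rfl⟩ : ∃ k, n = k + 1 := ⟨n - 1, by omega⟩
    refine (key k).trans ?_
    have : 0 ≤ 2 / s * (1 / (1 + s * (k : ℝ))) := by positivity
    linarith

lemma sin_ge {y : ℝ} (h0 : 0 ≤ y) (h1 : y ≤ 1 / 2) : 2 * y ≤ Real.sin (Real.pi * y) := by
  have h := Real.mul_le_sin (x := Real.pi * y) (by positivity) (by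
    have := Real.pi_pos; nlinarith)
  have e : 2 / Real.pi * (Real.pi * y) = 2 * y := by
    have := Real.pi_pos.ne'
    field_simp
  rw [e] at h; exact h

lemma cos_le {j : ℕ} (hj : j < l) :
    8 * ((min j (l - j) : ℕ) : ℝ) ^ 2 / (l : ℝ) ^ 2 ≤ 1 - Real.cos (2 * Real.pi * j / l) := by
  have hl : (0 : ℝ) < l := by
    have : 0 < l := by omega
    exact_mod_cast this
  have h1 : 1 - Real.cos (2 * Real.pi * j / l) = 2 * Real.sin (Real.pi * (j / l)) ^ 2 := by
    have : 2 * Real.pi * j / l = 2 * (Real.pi * (j / l)) := by ring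
    rw [this, Real.cos_two_mul, Real.cos_sq']; ring
  rw [h1]
  have h2 : 2 * (((min j (l - j) : ℕ) : ℝ) / l) ≤ Real.sin (Real.pi * (j / l)) := by
    rcases le_total j (l - j) with h | h
    · rw [min_eq_left h]
      refine sin_ge (by positivity) ?_
      rw [div_le_iff₀ hl]
      have : 2 * j ≤ l := by omega
      have : 2 * (j : ℝ) ≤ l := by exact_mod_cast this
      linarith
    · rw [min_eq_right h]
      have e : Real.sin (Real.pi * (j / l)) = Real.sin (Real.pi * (((l - j : ℕ) : ℝ) / l)) := by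
        rw [Nat.cast_sub hj.le, sub_div, div_self hl.ne', mul_sub, mul_one, Real.sin_pi_sub]
      rw [e]
      refine sin_ge (by positivity) ?_
      rw [div_le_iff₀ hl]
      have : 2 * (l - j) ≤ l := by omega
      have : 2 * ((l - j : ℕ) : ℝ) ≤ l := by exact_mod_cast this
      linarith
  have h3 : 0 ≤ 2 * (((min j (l - j) : ℕ) : ℝ) / l) := by positivity
  have h4 := mul_le_mul h2 h2 h3 (h3.trans h2)
  calc 8 * ((min j (l - j) : ℕ) : ℝ) ^ 2 / (l : ℝ) ^ 2 =
      2 * (2 * (((min j (l - j) : ℕ) : ℝ) / l) * (2 * (((min j (l - j) : ℕ) : ℝ) / l))) := by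
        field_simp; ring
    _ ≤ 2 * (Real.sin (Real.pi * (j / l)) * Real.sin (Real.pi * (j / l))) := by linarith
    _ = _ := by ring

/-- the standard character -/
def chi (t : ZMod l) : ℂ := ZMod.stdAddChar t

lemma chi_re (t : ZMod l) : (chi t).re = Real.cos (2 * Real.pi * t.val / l) := by
  have h1 : t = ((t.val : ℤ) : ZMod l) := by simp
  unfold chi
  conv_lhs => rw [h1]
  rw [ZMod.stdAddChar_coe]
  have h2 : 2 * (Real.pi : ℂ) * Complex.I * ((t.val : ℤ) : ℂ) / (l : ℂ) =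
      ((2 * Real.pi * t.val / l : ℝ) : ℂ) * Complex.I := by
    push_cast; ring
  rw [h2, Complex.exp_ofReal_mul_I_re]

lemma exp_le_inv {u : ℝ} (hu : 0 ≤ u) : Real.exp (-u) ≤ 1 / (1 + u) := by
  rw [Real.exp_neg, ← one_div]
  exact one_div_le_one_div_of_le (by linarith) (by linarith [Real.add_one_le_exp u])

lemma sum_one {c : ℝ} (hc : 0 < c) :
    (1 / l : ℝ) * ∑ t : ZMod l, Real.exp (-(c * (1 - (chi t).re))) ≤ 2 / l + 2 / Real.sqrt c := by
  have hl : (0 : ℝ) < l := by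
    have : 0 < l := Nat.pos_of_ne_zero (NeZero.ne l)
    exact_mod_cast this
  obtain ⟨a, ha⟩ : ∃ a : ℝ, a = 8 * c / (l : ℝ) ^ 2 := ⟨_, rfl⟩
  have ha0 : 0 < a := by rw [ha]; positivity
  have h1 : ∀ j : ℕ, j < l → Real.exp (-(c * (1 - Real.cos (2 * Real.pi * j / l)))) ≤
      1 / (1 + a * (j : ℝ) ^ 2) + 1 / (1 + a * ((l - j : ℕ) : ℝ) ^ 2) := by
    intro j hj
    have h2 := cos_le hj
    have h3 : a * ((min j (l - j) : ℕ) : ℝ) ^ 2 ≤ c * (1 - Real.cos (2 * Real.pi * j / l)) := by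
      calc a * ((min j (l - j) : ℕ) : ℝ) ^ 2 =
          c * (8 * ((min j (l - j) : ℕ) : ℝ) ^ 2 / (l : ℝ) ^ 2) := by rw [ha]; ring
        _ ≤ _ := mul_le_mul_of_nonneg_left h2 hc.le
    have h4 : Real.exp (-(c * (1 - Real.cos (2 * Real.pi * j / l)))) ≤
        1 / (1 + a * ((min j (l - j) : ℕ) : ℝ) ^ 2) :=
      (Real.exp_le_exp.2 (neg_le_neg h3)).trans (exp_le_inv (by positivity))
    refine h4.trans ?_
    have p1 : 0 ≤ 1 / (1 + a * (j : ℝ) ^ 2) := by positivity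
    have p2 : 0 ≤ 1 / (1 + a * ((l - j : ℕ) : ℝ) ^ 2) := by positivity
    rcases le_total j (l - j) with h | h
    · rw [min_eq_left h]; linarith
    · rw [min_eq_right h]; linarith
  have h5 : ∑ t : ZMod l, Real.exp (-(c * (1 - (chi t).re))) =
      ∑ j ∈ Finset.range l, Real.exp (-(c * (1 - Real.cos (2 * Real.pi * j / l)))) := by
    refine Finset.sum_bij' (fun t _ => t.val) (fun j _ => (j : ZMod l)) (fun t _ => ?_)
      (fun j _ => Finset.mem_univ _) (fun t _ => ?_) (fun j hj => ?_) (fun t _ => ?_)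
    · exact Finset.mem_range.2 (ZMod.val_lt t)
    · exact ZMod.natCast_zmod_val t
    · exact ZMod.val_natCast_of_lt (Finset.mem_range.1 hj)
    · rw [chi_re]
  rw [h5]
  have h6 : ∑ j ∈ Finset.range l, Real.exp (-(c * (1 - Real.cos (2 * Real.pi * j / l)))) ≤
      2 * (1 + 2 / Real.sqrt a) := by
    refine (Finset.sum_le_sum fun j hj => h1 j (Finset.mem_range.1 hj)).trans ?_
    rw [Finset.sum_add_distrib]
    have e1 := sum_quad ha0 l
    have e2 : ∑ j ∈ Finset.range l, 1 / (1 + a * ((l - j : ℕ) : ℝ) ^ 2) ≤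
        1 + 2 / Real.sqrt a := by
      have e3 := sum_quad ha0 (l + 1)
      rw [← Finset.sum_range_reflect, Finset.sum_range_succ] at e3
      have e4 : ∑ j ∈ Finset.range l, 1 / (1 + a * ((l + 1 - 1 - j : ℕ) : ℝ) ^ 2) =
          ∑ j ∈ Finset.range l, 1 / (1 + a * ((l - j : ℕ) : ℝ) ^ 2) := by
        refine Finset.sum_congr rfl fun j _ => ?_
        rw [Nat.add_sub_cancel]
      rw [e4] at e3
      have e5 : 0 ≤ 1 / (1 + a * ((l + 1 - 1 - l : ℕ) : ℝ) ^ 2) := by positivity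
      linarith
    linarith
  have h7 : Real.sqrt a = Real.sqrt (8 * c) / l := by
    rw [ha, Real.sqrt_div (by positivity), Real.sqrt_sq hl.le]
  have h8 : 2 * Real.sqrt c ≤ Real.sqrt (8 * c) := by
    have : 2 * Real.sqrt c = Real.sqrt (4 * c) := by
      rw [Real.sqrt_mul (by norm_num)]
      congr 1
      rw [show (4 : ℝ) = 2 ^ 2 by norm_num, Real.sqrt_sq (by norm_num)]
    rw [this]
    exact Real.sqrt_le_sqrt (by linarith)
  have hsc : 0 < Real.sqrt c := Real.sqrt_pos.2 hc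
  calc (1 / l : ℝ) * _ ≤ (1 / l : ℝ) * (2 * (1 + 2 / Real.sqrt a)) :=
        mul_le_mul_of_nonneg_left h6 (by positivity)
    _ = 2 / l + 4 / Real.sqrt (8 * c) := by rw [h7]; field_simp; ring
    _ ≤ 2 / l + 4 / (2 * Real.sqrt c) := by
        have := div_le_div_of_nonneg_left (show (0:ℝ) ≤ 4 by norm_num)
          (by positivity : 0 < 2 * Real.sqrt c) h8
        linarith
    _ = _ := by
        have : 4 / (2 * Real.sqrt c) = 2 / Real.sqrt c := by field_simp; ring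
        rw [this]

/-! ### the kernel -/

/-- characters of the torus -/
def ch (ξ x : St d l) : ℂ := ∏ i, chi (ξ i * x i)

/-- the symbol -/
def lm (ξ : St d l) : ℝ := 1 / 2 + (1 / (2 * d) : ℝ) * ∑ i, (chi (ξ i)).re

lemma chi_add (s t : ZMod l) : chi (s + t) = chi s * chi t := AddChar.map_add_eq_mul _ _ _

lemma chi_neg (t : ZMod l) : chi (-t) = (starRingEnd ℂ) (chi t) := by
  unfold chi
  exact AddChar.map_neg_eq_conj _ _

lemma chi_norm (t : ZMod l) : ‖chi t‖ = 1 := by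
  unfold chi
  rw [ZMod.stdAddChar_apply]
  exact Circle.norm_coe _

lemma chi_two (t : ZMod l) : chi t + chi (-t) = ((2 * (chi t).re : ℝ) : ℂ) := by
  rw [chi_neg, Complex.add_conj]

lemma ch_add (ξ x y : St d l) : ch ξ (x + y) = ch ξ x * ch ξ y := by
  unfold ch
  rw [← Finset.prod_mul_distrib]
  refine Finset.prod_congr rfl fun i _ => ?_
  rw [Pi.add_apply, mul_add, chi_add]

lemma ch_eT (ξ : St d l) (i : Fin d) : ch ξ (eT i) = chi (ξ i) := by
  unfold ch eT
  rw [Finset.prod_eq_single i]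
  · rw [Pi.single_eq_same, mul_one]
  · intro j _ hj
    rw [Pi.single_eq_of_ne hj, mul_zero]
    exact AddChar.map_zero_eq_one _
  · intro h; exact absurd (Finset.mem_univ _) h

lemma ch_neg_eT (ξ : St d l) (i : Fin d) : ch ξ (-eT i) = chi (-ξ i) := by
  unfold ch eT
  rw [Finset.prod_eq_single i]
  · rw [Pi.neg_apply, Pi.single_eq_same, mul_neg, mul_one]
  · intro j _ hj
    rw [Pi.neg_apply, Pi.single_eq_of_ne hj, neg_zero, mul_zero]
    exact AddChar.map_zero_eq_one _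
  · intro h; exact absurd (Finset.mem_univ _) h

lemma ch_norm (ξ x : St d l) : ‖ch ξ x‖ = 1 := by
  unfold ch
  rw [norm_prod]
  simp only [chi_norm, Finset.prod_const_one]

lemma sum_ch (x : St d l) : ∑ ξ : St d l, ch ξ x = if x = 0 then (l : ℂ) ^ d else 0 := by
  have h1 : ∀ t : ZMod l, ∑ s : ZMod l, chi (s * t) = if t = 0 then (l : ℂ) else 0 := by
    intro t
    unfold chi
    have := AddChar.sum_mulShift (R' := ℂ) t (ZMod.isPrimitive_stdAddChar l)
    rw [ZMod.card] at this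
    rw [this]
    split_ifs <;> simp
  have h2 : ∑ ξ : St d l, ch ξ x = ∏ i, ∑ s : ZMod l, chi (s * x i) := by
    unfold ch
    rw [Finset.prod_univ_sum]
    rw [Fintype.piFinset_univ]
  rw [h2]
  simp only [h1]
  split_ifs with h
  · subst h
    simp
  · obtain ⟨i, hi⟩ : ∃ i, x i ≠ 0 := by
      by_contra hc
      push Not at hc
      exact h (funext hc)
    exact Finset.prod_eq_zero (Finset.mem_univ i) (by rw [if_neg hi])

/-- the iterates of the walk -/
lemma Plk_eq (hd : 0 < d) (m : ℕ) (f : St d l → ℝ) (x : St d l) :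
    ((Plk m f x : ℝ) : ℂ) = (1 / (l : ℂ) ^ d) * ∑ ξ : St d l, ((lm ξ ^ m : ℝ) : ℂ) *
      ∑ y, (f y : ℂ) * ch ξ (x - y) := by
  have hl0 : (l : ℂ) ≠ 0 := by exact_mod_cast NeZero.ne l
  induction m generalizing x with
  | zero =>
    simp only [pow_zero, Complex.ofReal_one, one_mul]
    rw [Finset.sum_comm]
    have h1 : ∀ y : St d l, ∑ ξ : St d l, (f y : ℂ) * ch ξ (x - y) =
        if y = x then (f y : ℂ) * (l : ℂ) ^ d else 0 := by
      intro y
      rw [← Finset.mul_sum, sum_ch]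
      have : x - y = 0 ↔ y = x := by rw [sub_eq_zero]; exact eq_comm
      simp only [this]
      split_ifs <;> simp
    rw [Finset.sum_congr rfl fun y _ => h1 y, Finset.sum_ite_eq' Finset.univ x]
    simp only [Finset.mem_univ, if_true, Plk_zero]
    field_simp
  | succ m ih =>
    rw [Plk_succ, Pl_apply hd]
    push_cast
    simp only [ih]
    have h2 : ∀ (i : Fin d) (ξ : St d l), ∑ y, (f y : ℂ) * ch ξ (x + eT i - y) +
        ∑ y, (f y : ℂ) * ch ξ (x - eT i - y) =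
        ((2 * (chi (ξ i)).re : ℝ) : ℂ) * ∑ y, (f y : ℂ) * ch ξ (x - y) := by
      intro i ξ
      rw [← Finset.sum_add_distrib, Finset.mul_sum]
      refine Finset.sum_congr rfl fun y _ => ?_
      have e1 : x + eT i - y = (x - y) + eT i := by abel
      have e2 : x - eT i - y = (x - y) + -eT i := by abel
      rw [e1, e2, ch_add, ch_add, ch_eT, ch_neg_eT, ← chi_two]
      ring
    have h3 : ∀ i : Fin d, (1 / (l : ℂ) ^ d) * ∑ ξ : St d l, ((lm ξ ^ m : ℝ) : ℂ) *
        ∑ y, (f y : ℂ) * ch ξ (x + eT i - y) + (1 / (l : ℂ) ^ d) * ∑ ξ : St d l,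
        ((lm ξ ^ m : ℝ) : ℂ) * ∑ y, (f y : ℂ) * ch ξ (x - eT i - y) =
        (1 / (l : ℂ) ^ d) * ∑ ξ : St d l, ((lm ξ ^ m : ℝ) : ℂ) *
          (((2 * (chi (ξ i)).re : ℝ) : ℂ) * ∑ y, (f y : ℂ) * ch ξ (x - y)) := by
      intro i
      rw [← mul_add, ← Finset.sum_add_distrib]
      congr 1
      refine Finset.sum_congr rfl fun ξ _ => ?_
      rw [← mul_add, h2]
    push_cast at h3 ⊢
    rw [Finset.sum_congr rfl fun i _ => h3 i, ← Finset.mul_sum, Finset.sum_comm]
    have h4 : ∀ ξ : St d l, ∑ i : Fin d, ((lm ξ : ℂ) ^ m *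
        (2 * ((chi (ξ i)).re : ℂ) * ∑ y, (f y : ℂ) * ch ξ (x - y))) =
        (lm ξ : ℂ) ^ m * (2 * ∑ i : Fin d, ((chi (ξ i)).re : ℂ)) *
          ∑ y, (f y : ℂ) * ch ξ (x - y) := by
      intro ξ
      obtain ⟨Y, hY⟩ : ∃ Y : ℂ, Y = ∑ y, (f y : ℂ) * ch ξ (x - y) := ⟨_, rfl⟩
      rw [← hY, Finset.mul_sum, Finset.mul_sum, Finset.sum_mul]
      exact Finset.sum_congr rfl fun i _ => by ring
    rw [Finset.sum_congr rfl fun ξ _ => h4 ξ]
    rw [mul_left_comm (1 / 2 : ℂ), mul_left_comm (1 / (4 * (d : ℂ))), ← mul_add]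
    congr 1
    rw [Finset.mul_sum, Finset.mul_sum, ← Finset.sum_add_distrib]
    refine Finset.sum_congr rfl fun ξ _ => ?_
    have h5 : (lm ξ : ℂ) = 1 / 2 + 1 / (2 * (d : ℂ)) * ∑ i, ((chi (ξ i)).re : ℂ) := by
      unfold lm; push_cast; ring
    rw [pow_succ]
    have hd0 : (d : ℂ) ≠ 0 := by exact_mod_cast hd.ne'
    conv_rhs => rw [h5]
    rw [← h5]
    have h6 : 1 / 2 + 1 / (2 * (d : ℂ)) * ∑ i, ((chi (ξ i)).re : ℂ) = lm ξ := h5.symm
    have h7 : (1 / (4 * (d : ℂ))) * (2 * ∑ i, ((chi (ξ i)).re : ℂ)) = lm ξ - 1 / 2 := by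
      rw [h5]; field_simp; ring
    linear_combination ((lm ξ : ℂ) ^ m * ∑ y, (f y : ℂ) * ch ξ (x - y)) * h7

lemma lm_nonneg (hd : 0 < d) (ξ : St d l) : 0 ≤ lm ξ := by
  have hd0 : (0 : ℝ) < d := by exact_mod_cast hd
  unfold lm
  have h1 : ∀ i, -1 ≤ (chi (ξ i)).re := fun i => by
    have h := Complex.abs_re_le_norm (chi (ξ i))
    rw [chi_norm] at h
    exact (abs_le.1 h).1
  have h2 : -(d : ℝ) ≤ ∑ i, (chi (ξ i)).re := by
    calc -(d : ℝ) = ∑ _i : Fin d, (-1 : ℝ) := by simp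
      _ ≤ _ := Finset.sum_le_sum fun i _ => h1 i
  have h3 : 1 / (2 * (d : ℝ)) * (-(d : ℝ)) ≤ 1 / (2 * (d : ℝ)) * ∑ i, (chi (ξ i)).re :=
    mul_le_mul_of_nonneg_left h2 (by positivity)
  have h4 : 1 / (2 * (d : ℝ)) * (-(d : ℝ)) = -(1 / 2) := by field_simp
  linarith

lemma lm_le (hd : 0 < d) (ξ : St d l) :
    lm ξ ≤ Real.exp (-((1 / (2 * d) : ℝ) * ∑ i, (1 - (chi (ξ i)).re))) := by
  have hd0 : (0 : ℝ) < d := by exact_mod_cast hd
  have h1 := Real.add_one_le_exp (-((1 / (2 * d) : ℝ) * ∑ i, (1 - (chi (ξ i)).re)))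
  refine le_trans (le_of_eq ?_) h1
  unfold lm
  rw [Finset.sum_sub_distrib, Finset.sum_const, Finset.card_univ, Fintype.card_fin, nsmul_eq_mul]
  field_simp
  ring

/-- uniform decay of the iterates -/
lemma Plk_sup (hd : 0 < d) {m : ℕ} (hm : 1 ≤ m) (hml : m ≤ l) (f : St d l → ℝ) (x : St d l) :
    |Plk m f x| ≤ ((2 + 2 * Real.sqrt (2 * d)) / Real.sqrt m) ^ d * ∑ y, |f y| := by
  have hd0 : (0 : ℝ) < d := by exact_mod_cast hd
  have hm0 : (0 : ℝ) < m := by
    have : (1 : ℝ) ≤ m := by exact_mod_cast hm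
    linarith
  have hl : (0 : ℝ) < l := by
    have : 0 < l := Nat.pos_of_ne_zero (NeZero.ne l)
    exact_mod_cast this
  have h0 : |Plk m f x| = ‖((Plk m f x : ℝ) : ℂ)‖ := by
    rw [Complex.norm_real, Real.norm_eq_abs]
  rw [h0, Plk_eq hd, norm_mul]
  have h1 : ‖(1 / (l : ℂ) ^ d)‖ = 1 / (l : ℝ) ^ d := by
    rw [norm_div, norm_one, norm_pow, Complex.norm_natCast]
  rw [h1]
  have h2 : ‖∑ ξ : St d l, ((lm ξ ^ m : ℝ) : ℂ) * ∑ y, (f y : ℂ) * ch ξ (x - y)‖ ≤
      (∑ ξ : St d l, lm ξ ^ m) * ∑ y, |f y| := by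
    rw [Finset.sum_mul]
    refine (norm_sum_le _ _).trans (Finset.sum_le_sum fun ξ _ => ?_)
    rw [norm_mul, Complex.norm_real, Real.norm_eq_abs, abs_of_nonneg (pow_nonneg (lm_nonneg hd ξ) _)]
    refine mul_le_mul_of_nonneg_left ?_ (pow_nonneg (lm_nonneg hd ξ) _)
    refine (norm_sum_le _ _).trans (Finset.sum_le_sum fun y _ => ?_)
    rw [norm_mul, ch_norm, mul_one, Complex.norm_real, Real.norm_eq_abs]
  obtain ⟨c, hc⟩ : ∃ c : ℝ, c = m / (2 * d) := ⟨_, rfl⟩
  have hc0 : 0 < c := by rw [hc]; positivity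
  have h3 : ∑ ξ : St d l, lm ξ ^ m ≤
      (∑ t : ZMod l, Real.exp (-(c * (1 - (chi t).re)))) ^ d := by
    have e1 : ∀ ξ : St d l, lm ξ ^ m ≤ ∏ i, Real.exp (-(c * (1 - (chi (ξ i)).re))) := by
      intro ξ
      refine (pow_le_pow_left₀ (lm_nonneg hd ξ) (lm_le hd ξ) m).trans (le_of_eq ?_)
      rw [← Real.exp_nat_mul, ← Real.exp_sum]
      congr 1
      rw [Finset.sum_neg_distrib, ← Finset.mul_sum, hc]
      field_simp
    refine (Finset.sum_le_sum fun ξ _ => e1 ξ).trans (le_of_eq ?_)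
    have e2 := Finset.prod_univ_sum (fun _ : Fin d => (Finset.univ : Finset (ZMod l)))
      (fun _ t => Real.exp (-(c * (1 - (chi t).re))))
    rw [Fintype.piFinset_univ] at e2
    rw [← e2, Finset.prod_const, Finset.card_univ, Fintype.card_fin]
  have h4 := sum_one (l := l) hc0
  have h5 : 2 / (l : ℝ) + 2 / Real.sqrt c ≤ (2 + 2 * Real.sqrt (2 * d)) / Real.sqrt m := by
    have e1 : 2 / Real.sqrt c = 2 * Real.sqrt (2 * d) / Real.sqrt m := by
      rw [hc, Real.sqrt_div hm0.le]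
      field_simp
    have e2 : 2 / (l : ℝ) ≤ 2 / Real.sqrt m := by
      refine div_le_div_of_nonneg_left (by norm_num) (Real.sqrt_pos.2 hm0) ?_
      have f1 : Real.sqrt m ≤ m := by
        have f2 : (1 : ℝ) ≤ m := by exact_mod_cast hm
        rw [Real.sqrt_le_left (by linarith)]
        nlinarith
      have f3 : (m : ℝ) ≤ l := by exact_mod_cast hml
      linarith
    rw [e1, add_div]
    linarith
  have h6 : 0 ≤ ∑ t : ZMod l, Real.exp (-(c * (1 - (chi t).re))) :=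
    Finset.sum_nonneg fun t _ => (Real.exp_pos _).le
  have h7 : 0 ≤ ∑ y, |f y| := Finset.sum_nonneg fun y _ => abs_nonneg _
  calc 1 / (l : ℝ) ^ d * _ ≤ 1 / (l : ℝ) ^ d *
        ((∑ t : ZMod l, Real.exp (-(c * (1 - (chi t).re)))) ^ d * ∑ y, |f y|) :=
        mul_le_mul_of_nonneg_left (h2.trans (mul_le_mul_of_nonneg_right h3 h7)) (by positivity)
    _ = ((1 / l : ℝ) * ∑ t : ZMod l, Real.exp (-(c * (1 - (chi t).re)))) ^ d * ∑ y, |f y| := by
        rw [mul_pow, div_pow, one_pow]; ring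
    _ ≤ _ := mul_le_mul_of_nonneg_right (pow_le_pow_left₀ (by positivity) (h4.trans h5) d) h7

lemma Pl_l1 (hd : 0 < d) (f : St d l → ℝ) : ∑ x, |Pl f x| ≤ ∑ x, |f x| := by
  have hd0 : (0 : ℝ) < d := by exact_mod_cast hd
  have h1 : ∀ x, |Pl f x| ≤ 1 / 2 * |f x| + (1 / (4 * d) : ℝ) *
      ∑ i, (|f (x + eT i)| + |f (x - eT i)|) := by
    intro x
    rw [Pl_apply hd]
    refine (abs_add_le _ _).trans (add_le_add ?_ ?_)
    · rw [abs_mul, abs_of_pos (by norm_num : (0 : ℝ) < 1 / 2)]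
    · rw [abs_mul, abs_of_pos (by positivity : (0 : ℝ) < 1 / (4 * d))]
      refine mul_le_mul_of_nonneg_left ((Finset.abs_sum_le_sum_abs _ _).trans
        (Finset.sum_le_sum fun i _ => abs_add_le _ _)) (by positivity)
  refine (Finset.sum_le_sum fun x _ => h1 x).trans (le_of_eq ?_)
  rw [Finset.sum_add_distrib, ← Finset.mul_sum, ← Finset.mul_sum, Finset.sum_comm]
  have h2 : ∀ i : Fin d, ∑ x, (|f (x + eT i)| + |f (x - eT i)|) = 2 * ∑ x, |f x| := by
    intro i
    rw [Finset.sum_add_distrib, sum_shift (eT i) (fun x => |f x|)]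
    have := sum_shift (-eT i) (fun x => |f x|)
    simp only [← sub_eq_add_neg] at this
    rw [this]; ring
  rw [Finset.sum_congr rfl fun i _ => h2 i, Finset.sum_const, Finset.card_univ, Fintype.card_fin,
    nsmul_eq_mul]
  field_simp
  ring

lemma Plk_l1 (hd : 0 < d) (k : ℕ) (f : St d l → ℝ) : ∑ x, |Plk k f x| ≤ ∑ x, |f x| := by
  induction k with
  | zero => exact le_rfl
  | succ k ih => rw [Plk_succ]; exact (Pl_l1 hd _).trans ih

/-- the decay of the mean square -/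
theorem Plk_l2 (hd : 0 < d) {m : ℕ} (hm : 1 ≤ m) (hml : m ≤ l) (f : St d l → ℝ) :
    ip2 (Plk m f) (Plk m f) ≤
      ((2 + 2 * Real.sqrt (2 * d)) / Real.sqrt m) ^ d * (∑ y, |f y|) ^ 2 := by
  have h0 : 0 ≤ ∑ y, |f y| := Finset.sum_nonneg fun y _ => abs_nonneg _
  have h1 : 0 ≤ ((2 + 2 * Real.sqrt (2 * d)) / Real.sqrt m) ^ d := by positivity
  calc ip2 (Plk m f) (Plk m f) = ∑ x, |Plk m f x| * |Plk m f x| := by
        unfold ip2
        exact Finset.sum_congr rfl fun x _ => (abs_mul_abs_self _).symm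
    _ ≤ ∑ x, (((2 + 2 * Real.sqrt (2 * d)) / Real.sqrt m) ^ d * ∑ y, |f y|) * |Plk m f x| :=
        Finset.sum_le_sum fun x _ => mul_le_mul_of_nonneg_right (Plk_sup hd hm hml f x)
          (abs_nonneg _)
    _ = (((2 + 2 * Real.sqrt (2 * d)) / Real.sqrt m) ^ d * ∑ y, |f y|) * ∑ x, |Plk m f x| :=
        (Finset.mul_sum _ _ _).symm
    _ ≤ (((2 + 2 * Real.sqrt (2 * d)) / Real.sqrt m) ^ d * ∑ y, |f y|) * ∑ x, |f x| :=
        mul_le_mul_of_nonneg_left (Plk_l1 hd m f) (by positivity)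
    _ = _ := by ring

end

end Pool.Agent.W793.YM
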