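import Mathlib
import Pool.Agent.W793.YM.LayG
import Pool.Agent.W793.YM.Lazy

/-!
# The Gaussian limit on the lattice
-/

open MeasureTheory Matrix
open scoped Matrix.Norms.Frobenius ContDiff
open Pool.Agent.H906R3.YM

namespace Pool.Agent.W793.YM

set_option linter.unusedSectionVars false
set_option linter.unusedVariables false

noncomputable section

/-! ### supports -/

section support

variable {d l : ℕ} [NeZero l]

/-- support in a cube -/
def SW (lo hi : ℕ) (f : St d l → ℝ) : Prop := ∀ x, f x ≠ 0 → ∀ i, lo ≤ wv x i ∧ wv x i < hi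

variable {lo hi : ℕ} {f g : St d l → ℝ}

lemma SW.mono {lo' hi' : ℕ} (h : SW lo hi f) (h1 : lo' ≤ lo) (h2 : hi ≤ hi') : SW lo' hi' f :=
  fun x hx i => ⟨h1.trans (h x hx i).1, lt_of_lt_of_le (h x hx i).2 h2⟩

lemma SW.congr (h : SW lo hi f) (hg : ∀ x, f x = 0 → g x = 0) : SW lo hi g :=
  fun x hx => h x fun h0 => hx (hg x h0)

lemma SW.add (hf : SW lo hi f) (hg : SW lo hi g) : SW lo hi (f + g) := fun x hx => by
  by_cases h : f x = 0
  · refine hg x fun h0 => hx ?_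
    rw [Pi.add_apply, h, h0, add_zero]
  · exact hf x h

lemma SW.neg (hf : SW lo hi f) : SW lo hi (-f) :=
  hf.congr fun x h => by rw [Pi.neg_apply, h, neg_zero]

lemma SW.sub (hf : SW lo hi f) (hg : SW lo hi g) : SW lo hi (f - g) := by
  rw [sub_eq_add_neg]; exact hf.add hg.neg

lemma SW.smul (c : ℝ) (hf : SW lo hi f) : SW lo hi (c • f) :=
  hf.congr fun x h => by rw [Pi.smul_apply, h, smul_zero]

lemma SW.sum {ι : Type*} (s : Finset ι) {f : ι → St d l → ℝ} (hf : ∀ i ∈ s, SW lo hi (f i)) :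
    SW lo hi (∑ i ∈ s, f i) := fun x hx => by
  rw [Finset.sum_apply] at hx
  obtain ⟨i, hi, h⟩ := Finset.exists_ne_zero_of_sum_ne_zero hx
  exact hf i hi x h

lemma SW.shift_p (hf : SW lo hi f) (hlo : 1 ≤ lo) (i : Fin d) :
    SW (lo - 1) hi fun x => f (x + eT i) := by
  intro x hx i'
  have h1 := hf _ hx
  have h2 := wv_pred (x := x) (k := i) (hlo.trans (h1 i).1)
  have h3 := h1 i'
  rw [wv_add h2] at h3
  by_cases h : i' = i
  · subst h
    simp only [Pi.add_apply, es_same] at h3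
    omega
  · simp only [Pi.add_apply, es_ne h, add_zero] at h3
    omega

lemma SW.shift_m (hf : SW lo hi f) (hhi : hi < l) (i : Fin d) :
    SW lo (hi + 1) fun x => f (x - eT i) := by
  intro x hx i'
  have h1 := hf _ hx
  have h3 := wv_add (x := x - eT i) (k := i) (by have := (h1 i).2; omega)
  rw [sub_add_cancel] at h3
  have h4 := h1 i'
  rw [h3]
  by_cases h : i' = i
  · subst h
    simp only [Pi.add_apply, es_same]
    omega
  · simp only [Pi.add_apply, es_ne h, add_zero]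
    omega

lemma SW.Dp (hf : SW lo hi f) (hlo : 1 ≤ lo) (i : Fin d) : SW (lo - 1) hi (Dp i f) := by
  have h1 := (hf.shift_p hlo i).sub (hf.mono (Nat.sub_le _ _) le_rfl)
  exact h1

lemma SW.Dm (hf : SW lo hi f) (hhi : hi < l) (i : Fin d) : SW lo (hi + 1) (Dm i f) := by
  have h1 := (hf.shift_m hhi i).sub (hf.mono le_rfl (Nat.le_succ _))
  exact h1

lemma SW.lap (hf : SW lo hi f) (hlo : 1 ≤ lo) (hhi : hi < l) : SW (lo - 1) (hi + 1) (lap f) := by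
  unfold YM.lap
  exact SW.sum _ fun i _ => (hf.Dp hlo i).Dm hhi i

lemma SW.Pl (hf : SW lo hi f) (hlo : 1 ≤ lo) (hhi : hi < l) : SW (lo - 1) (hi + 1) (Pl f) := by
  unfold YM.Pl
  exact (hf.mono (Nat.sub_le _ _) (Nat.le_succ _)).sub ((hf.lap hlo hhi).smul _)

lemma SW.Plk (hf : SW lo hi f) {k : ℕ} (hlo : k ≤ lo) (hhi : hi + k ≤ l) :
    SW (lo - k) (hi + k) (Plk k f) := by
  induction k with
  | zero => exact hf
  | succ k ih =>
    rw [Plk_succ]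
    have h1 := (ih (by omega) (by omega)).Pl (by omega) (by omega)
    exact h1.mono (by omega) (by omega)

lemma SW.uK (hf : SW lo hi f) {k : ℕ} (hlo : k ≤ lo) (hhi : hi + k ≤ l) :
    SW (lo - k) (hi + k) (uK k f) := by
  unfold YM.uK
  refine SW.smul _ (SW.sum _ fun j hj => ?_)
  have hj := Finset.mem_range.1 hj
  exact (hf.Plk (k := j) (by omega) (by omega)).mono (by omega) (by omega)

lemma SW.ds2 {u : Fm d l} (hu : ∀ j k, SW lo hi (u j k)) (hhi : hi < l) (k : Fin d) :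
    SW lo (hi + 1) (ds2 u k) := by
  unfold YM.ds2
  exact SW.sum _ fun j _ => (hu j k).Dm hhi j

lemma SW.d1 {a : Fin d → St d l → ℝ} (ha : ∀ k, SW lo hi (a k)) (hlo : 1 ≤ lo) (j k : Fin d) :
    SW (lo - 1) hi (d1 a j k) :=
  ((ha k).Dp hlo j).sub ((ha j).Dp hlo k)

lemma SW.cx {u : Fm d l} (hu : ∀ j k, SW lo hi (u j k)) (hlo : 1 ≤ lo) (hhi : hi < l)
    (j k : Fin d) : SW (lo - 1) (hi + 1) (cx u j k) :=
  ((hu j k).lap hlo hhi).sub (SW.d1 (fun k => SW.ds2 hu hhi k) hlo j k)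

end support

/-! ### norms -/

section norms

variable {d l n : ℕ} [NeZero l]

/-- the sum of the squares -/
def N2 (f : Fin n → Fm d l) : ℝ := ∑ a, ∑ j, ∑ k, ∑ x, f a j k x ^ 2

lemma N2_nonneg (f : Fin n → Fm d l) : 0 ≤ N2 f :=
  Finset.sum_nonneg fun _ _ => Finset.sum_nonneg fun _ _ => Finset.sum_nonneg fun _ _ =>
    Finset.sum_nonneg fun _ _ => sq_nonneg _

lemma N1_add (f g : Fin n → Fm d l) : N1 (f + g) ≤ N1 f + N1 g := by
  unfold N1
  rw [← Finset.sum_add_distrib]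
  refine Finset.sum_le_sum fun a _ => ?_
  rw [← Finset.sum_add_distrib]
  refine Finset.sum_le_sum fun j _ => ?_
  rw [← Finset.sum_add_distrib]
  refine Finset.sum_le_sum fun k _ => ?_
  rw [← Finset.sum_add_distrib]
  exact Finset.sum_le_sum fun x _ => abs_add_le _ _

lemma N1_neg (f : Fin n → Fm d l) : N1 (-f) = N1 f := by
  unfold N1
  simp only [Pi.neg_apply, abs_neg]

lemma N1_sub (f g : Fin n → Fm d l) : N1 (f - g) ≤ N1 f + N1 g := by
  rw [sub_eq_add_neg, ← N1_neg g]; exact N1_add _ _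

lemma uK_l1 (hd : 0 < d) (K : ℕ) (f : St d l → ℝ) : ∑ x, |uK K f x| ≤ K * ∑ x, |f x| := by
  have h0 : 0 ≤ ∑ x, |f x| := Finset.sum_nonneg fun y _ => abs_nonneg _
  unfold uK
  have hd' : (1 : ℝ) ≤ d := by exact_mod_cast hd
  have hc : |(1 / (4 * d) : ℝ)| ≤ 1 := by
    rw [abs_of_nonneg (by positivity), div_le_one (by positivity)]; linarith
  calc ∑ x, |((1 / (4 * d) : ℝ) • ∑ k ∈ Finset.range K, Plk k f) x| ≤
      ∑ x, ∑ k ∈ Finset.range K, |Plk k f x| := by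
        refine Finset.sum_le_sum fun x _ => ?_
        rw [Pi.smul_apply, Finset.sum_apply, smul_eq_mul, abs_mul]
        calc |(1 / (4 * d) : ℝ)| * |∑ k ∈ Finset.range K, Plk k f x| ≤
            1 * |∑ k ∈ Finset.range K, Plk k f x| :=
              mul_le_mul_of_nonneg_right hc (abs_nonneg _)
          _ ≤ _ := by rw [one_mul]; exact Finset.abs_sum_le_sum_abs _ _
    _ = ∑ k ∈ Finset.range K, ∑ x, |Plk k f x| := Finset.sum_comm
    _ ≤ ∑ k ∈ Finset.range K, ∑ x, |f x| := Finset.sum_le_sum fun k _ => Plk_l1 hd k f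
    _ = _ := by rw [Finset.sum_const, Finset.card_range, nsmul_eq_mul]

lemma Dm_l1 (i : Fin d) (f : St d l → ℝ) : ∑ x, |Dm i f x| ≤ 2 * ∑ x, |f x| := by
  unfold Dm
  calc ∑ x, |f (x - eT i) - f x| ≤ ∑ x, (|f (x - eT i)| + |f x|) :=
        Finset.sum_le_sum fun x _ => abs_sub _ _
    _ = 2 * ∑ x, |f x| := by
        have h1 : ∑ x, |f (x - eT i)| = ∑ x, |f x| := by
          have := sum_shift (-eT i) (fun x : St d l => |f x|)
          simpa only [← sub_eq_add_neg] using this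
        rw [Finset.sum_add_distrib, h1]; ring

lemma S1_ds2 (u : Fin n → Fm d l) : S1 (fun a => ds2 (u a)) ≤ 2 * N1 u := by
  unfold S1 N1
  rw [Finset.mul_sum]
  refine Finset.sum_le_sum fun a _ => ?_
  rw [Finset.sum_comm (s := Finset.univ) (t := Finset.univ) (f := fun j k => ∑ x, |u a j k x|),
    Finset.mul_sum]
  refine Finset.sum_le_sum fun k _ => ?_
  unfold ds2
  calc ∑ x, |(∑ j, Dm j (u a j k)) x| ≤ ∑ x, ∑ j, |Dm j (u a j k) x| := by
        refine Finset.sum_le_sum fun x _ => ?_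
        rw [Finset.sum_apply]
        exact Finset.abs_sum_le_sum_abs _ _
    _ = ∑ j, ∑ x, |Dm j (u a j k) x| := Finset.sum_comm
    _ ≤ ∑ j, 2 * ∑ x, |u a j k x| := Finset.sum_le_sum fun j _ => Dm_l1 _ _
    _ = _ := by rw [Finset.mul_sum]

/-- the potentials -/
def uKs (K : ℕ) (f : Fin n → Fm d l) : Fin n → Fm d l := fun a j k => uK K (f a j k)

/-- the remainders -/
def Pks (K : ℕ) (f : Fin n → Fm d l) : Fin n → Fm d l := fun a j k => Plk K (f a j k)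

/-- the one form -/
def AK (K : ℕ) (f : Fin n → Fm d l) : Fin n → Fin d → St d l → ℝ := fun a => ds2 (uKs K f a)

lemma uKs_asy {K : ℕ} {f : Fin n → Fm d l} (hf : ∀ a, Asy (f a)) (a : Fin n) :
    Asy (uKs K f a) := fun j k => by
  unfold uKs
  rw [hf a j k, uK_neg]

/-- the decomposition -/
lemma dec (K : ℕ) (f : Fin n → Fm d l) :
    f = Pks K f + (fun a => d1 (AK K f a)) + fun a => cx (uKs K f a) := by
  funext a j k
  show f a j k = Plk K (f a j k) + d1 (AK K f a) j k +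
    (lap (uKs K f a j k) - d1 (ds2 (uKs K f a)) j k)
  have h1 : lap (uKs K f a j k) = f a j k - Plk K (f a j k) := lap_uK K _
  rw [h1]
  unfold AK
  abel

lemma N1_uKs (hd : 0 < d) (K : ℕ) (f : Fin n → Fm d l) : N1 (uKs K f) ≤ K * N1 f := by
  unfold N1
  rw [Finset.mul_sum]
  refine Finset.sum_le_sum fun a _ => ?_
  rw [Finset.mul_sum]
  refine Finset.sum_le_sum fun j _ => ?_
  rw [Finset.mul_sum]
  exact Finset.sum_le_sum fun k _ => uK_l1 hd K _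

lemma N1_Pks (hd : 0 < d) (K : ℕ) (f : Fin n → Fm d l) : N1 (Pks K f) ≤ N1 f := by
  unfold N1
  exact Finset.sum_le_sum fun a _ => Finset.sum_le_sum fun j _ => Finset.sum_le_sum fun k _ =>
    Plk_l1 hd K _

lemma S1_AK (hd : 0 < d) (K : ℕ) (f : Fin n → Fm d l) : S1 (AK K f) ≤ 2 * (K * N1 f) :=
  (S1_ds2 _).trans (mul_le_mul_of_nonneg_left (N1_uKs hd K f) (by norm_num))

lemma N1_cx (hd : 0 < d) (K : ℕ) (f : Fin n → Fm d l) :
    N1 (fun a => cx (uKs K f a)) ≤ (2 + 8 * d * K) * N1 f := by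
  have h1 : (fun a => cx (uKs K f a)) = f - Pks K f - fun a => d1 (AK K f a) := by
    have h := dec K f
    obtain ⟨P, hP⟩ : ∃ P, P = Pks K f := ⟨_, rfl⟩
    obtain ⟨D, hD⟩ : ∃ D : Fin n → Fm d l, D = fun a => d1 (AK K f a) := ⟨_, rfl⟩
    obtain ⟨E, hE⟩ : ∃ E : Fin n → Fm d l, E = fun a => cx (uKs K f a) := ⟨_, rfl⟩
    rw [← hP, ← hD, ← hE] at h ⊢
    rw [h]; abel
  rw [h1]
  have h2 := N1_sub (f - Pks K f) (fun a => d1 (AK K f a))
  have h3 := N1_sub f (Pks K f)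
  have h4 := N1_Pks hd K f
  have h5 := N1_d1 (AK K f)
  have h6 := S1_AK hd K f
  have hd0 : (0 : ℝ) ≤ d := Nat.cast_nonneg _
  have h7 : 4 * (d : ℝ) * S1 (AK K f) ≤ 4 * d * (2 * (K * N1 f)) :=
    mul_le_mul_of_nonneg_left h6 (by positivity)
  nlinarith

lemma N2_Pks (hd : 3 ≤ d) {K : ℕ} (hK : 1 ≤ K) (hKl : K ≤ l) (f : Fin n → Fm d l) :
    (K : ℝ) * N2 (Pks K f) ≤
      (2 + 2 * Real.sqrt (2 * d)) ^ d / Real.sqrt K ^ (d - 2) * N1 f ^ 2 := by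
  have hK0 : (0 : ℝ) < K := by exact_mod_cast hK
  have hs : 0 < Real.sqrt K := Real.sqrt_pos.2 hK0
  have hs1 : 1 ≤ Real.sqrt K := by
    rw [Real.one_le_sqrt]; exact_mod_cast hK
  have hss : Real.sqrt K * Real.sqrt K = K := Real.mul_self_sqrt hK0.le
  obtain ⟨c, hc⟩ : ∃ c : ℝ, c = 2 + 2 * Real.sqrt (2 * d) := ⟨_, rfl⟩
  have hc0 : 0 ≤ c := by rw [hc]; positivity
  have h1 : ∀ a j k, ∑ x, Pks K f a j k x ^ 2 ≤
      (c / Real.sqrt K) ^ d * (∑ x, |f a j k x|) ^ 2 := by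
    intro a j k
    have := Plk_l2 (by omega) hK hKl (f a j k)
    rw [hc]
    refine le_trans (le_of_eq ?_) this
    unfold ip2
    exact Finset.sum_congr rfl fun x _ => by rw [pow_two]; rfl
  have h2 : N2 (Pks K f) ≤ (c / Real.sqrt K) ^ d * N1 f ^ 2 := by
    have hS : ∀ a j k, 0 ≤ ∑ x, |f a j k x| := fun a j k =>
      Finset.sum_nonneg fun x _ => abs_nonneg _
    have hN : N1 f = ∑ p : Fin n × Fin d × Fin d, ∑ x, |f p.1 p.2.1 p.2.2 x| := by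
      unfold N1
      rw [Fintype.sum_prod_type]
      simp only [Fintype.sum_prod_type]
    have hN2 : N2 (Pks K f) = ∑ p : Fin n × Fin d × Fin d, ∑ x, Pks K f p.1 p.2.1 p.2.2 x ^ 2 := by
      unfold N2
      rw [Fintype.sum_prod_type]
      simp only [Fintype.sum_prod_type]
    rw [hN2, hN, pow_two, Finset.sum_mul, Finset.mul_sum]
    refine Finset.sum_le_sum fun p _ => ?_
    refine (h1 p.1 p.2.1 p.2.2).trans (mul_le_mul_of_nonneg_left ?_ (by positivity))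
    rw [pow_two]
    exact mul_le_mul_of_nonneg_left (Finset.single_le_sum
      (f := fun p : Fin n × Fin d × Fin d => ∑ x, |f p.1 p.2.1 p.2.2 x|)
      (fun p _ => hS _ _ _) (Finset.mem_univ p)) (hS _ _ _)
  have h3 : (K : ℝ) * (c / Real.sqrt K) ^ d = c ^ d / Real.sqrt K ^ (d - 2) := by
    rw [div_pow, mul_div_assoc', div_eq_div_iff (by positivity) (by positivity)]
    have h5 : Real.sqrt K ^ d = K * Real.sqrt K ^ (d - 2) := by
      calc Real.sqrt K ^ d = Real.sqrt K ^ (2 + (d - 2)) := by congr 1; omega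
        _ = Real.sqrt K * Real.sqrt K * Real.sqrt K ^ (d - 2) := by rw [pow_add]; ring
        _ = _ := by rw [hss]
    rw [h5]; ring
  calc (K : ℝ) * N2 (Pks K f) ≤ K * ((c / Real.sqrt K) ^ d * N1 f ^ 2) :=
        mul_le_mul_of_nonneg_left h2 hK0.le
    _ = K * (c / Real.sqrt K) ^ d * N1 f ^ 2 := by ring
    _ = _ := by rw [h3, hc]

end norms

variable {G : Type*} [Group G] [TopologicalSpace G] [IsTopologicalGroup G] [CompactSpace G]
  [SecondCountableTopology G] [MeasurableSpace G] [BorelSpace G] (μ : Measure G)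
  [IsProbabilityMeasure μ] [μ.IsMulLeftInvariant] [μ.IsMulRightInvariant] [μ.IsInvInvariant]
  {N n : ℕ} {L : LD G N n}

section var

variable {d m : ℕ} [NeZero m] {M : ℕ}

lemma Ph_one (hm : 2 ≤ m) (hMl : M < 2 * m) {K : St d (2 * m) → ℝ}
    (hK : ∀ x, K x ≠ 0 → ∀ i, wv x i + 1 < M) (hM : 2 ≤ M) {β : ℝ} (hβ : 0 < β) (j k : Fin d)
    (a : Fin n) : Zt μ L β (fun U => Ph L K j k a U ^ 2) ≤
      M * n * (4 / β * (∑ x, K x ^ 2) * Zt μ L β (fun _ : Ed d (2 * m) → G => 1) +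
        (∑ x, |K x|) ^ 2 * (16 * (d * M + 1) ^ 4) *
          Zt μ L β (fun U : Ed d (2 * m) → G => sB L M U ^ 4)) := by
  have hc : ∀ a, Continuous fun U : Ed d (2 * m) → G => Ph L K j k a U ^ 2 := fun a =>
    (Ph_cont K j k a).pow 2
  by_cases hjk : k = j
  · subst hjk
    have h1 : (fun U : Ed d (2 * m) → G => Ph L K k k a U ^ 2) = fun _ => 0 * 1 := by
      funext U
      rw [← PhS_apply, PhS_self]
      show (0 : ℝ) ^ 2 = 0 * 1
      norm_num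
    rw [h1, Zt_smul, zero_mul]
    have := Zt_pos μ (L := L) (d := d) (l := 2 * m) β
    have h2 : 0 ≤ Zt μ L β (fun U : Ed d (2 * m) → G => sB L M U ^ 4) :=
      Zt_nonneg μ fun U => by positivity
    positivity
  · refine le_trans ?_ (box_bound μ (L := L) (τ := j) hm hMl hK hM hjk hβ)
    refine Zt_mono μ (hc a) (continuous_finsetSum _ fun a _ => hc a) fun U => ?_
    exact Finset.single_le_sum (f := fun a => Ph L K j k a U ^ 2) (fun a _ => sq_nonneg _)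
      (Finset.mem_univ a)

/-- the variance of the smeared curvature -/
theorem Fs_var (hm : 2 ≤ m) (hMl : M < 2 * m) {g : Fin n → Fm d (2 * m)}
    (hg : ∀ a j k x, g a j k x ≠ 0 → ∀ i, wv x i + 1 < M) (hM : 2 ≤ M) {β : ℝ} (hβ : 0 < β) :
    Zt μ L β (fun U => Fs L g U ^ 2) ≤
      n * d ^ 2 / 4 * (M * n) * (4 / β * N2 g * Zt μ L β (fun _ : Ed d (2 * m) → G => 1) +
        N1 g ^ 2 * (16 * (d * M + 1) ^ 4) *
          Zt μ L β (fun U : Ed d (2 * m) → G => sB L M U ^ 4)) := by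
  obtain ⟨Z4, hZ4⟩ : ∃ Z4, Z4 = Zt μ L β (fun U : Ed d (2 * m) → G => sB L M U ^ 4) := ⟨_, rfl⟩
  obtain ⟨Z0, hZ0⟩ : ∃ Z0, Z0 = Zt μ L β (fun _ : Ed d (2 * m) → G => 1) := ⟨_, rfl⟩
  have hZ40 : 0 ≤ Z4 := by
    rw [hZ4]; exact Zt_nonneg μ fun U => by positivity
  have hF : ∀ U : Ed d (2 * m) → G, Fs L g U = ∑ p : Fin n × Fin d × Fin d,
      1 / 2 * Ph L (g p.1 p.2.1 p.2.2) p.2.1 p.2.2 p.1 U := by
    intro U
    rw [Fintype.sum_prod_type]
    simp only [Fintype.sum_prod_type]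
    unfold Fs ipF
    refine Finset.sum_congr rfl fun a _ => ?_
    rw [Finset.mul_sum]
    refine Finset.sum_congr rfl fun j _ => ?_
    rw [Finset.mul_sum]
    rfl
  have hcard : ((Finset.univ : Finset (Fin n × Fin d × Fin d)).card : ℝ) = n * d ^ 2 := by
    rw [Finset.card_univ, Fintype.card_prod, Fintype.card_prod, Fintype.card_fin,
      Fintype.card_fin]
    push_cast; ring
  have hpt : ∀ U : Ed d (2 * m) → G, Fs L g U ^ 2 ≤ n * d ^ 2 / 4 *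
      ∑ p : Fin n × Fin d × Fin d, Ph L (g p.1 p.2.1 p.2.2) p.2.1 p.2.2 p.1 U ^ 2 := by
    intro U
    rw [hF]
    have h1 := sq_sum_le_card_mul_sum_sq (s := (Finset.univ : Finset (Fin n × Fin d × Fin d)))
      (f := fun p => 1 / 2 * Ph L (g p.1 p.2.1 p.2.2) p.2.1 p.2.2 p.1 U)
    rw [hcard] at h1
    refine h1.trans (le_of_eq ?_)
    rw [Finset.mul_sum, Finset.mul_sum]
    exact Finset.sum_congr rfl fun p _ => by ring
  have hcp : ∀ p : Fin n × Fin d × Fin d, Continuous fun U : Ed d (2 * m) → G =>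
      Ph L (g p.1 p.2.1 p.2.2) p.2.1 p.2.2 p.1 U ^ 2 := fun p => (Ph_cont _ _ _ _).pow 2
  have h1 := Zt_mono μ (L := L) (β := β) (F := fun U => Fs L g U ^ 2)
    (H := fun U => n * d ^ 2 / 4 *
      ∑ p : Fin n × Fin d × Fin d, Ph L (g p.1 p.2.1 p.2.2) p.2.1 p.2.2 p.1 U ^ 2)
    ((Fs_cont g).pow 2) (continuous_const.mul (continuous_finsetSum _ fun p _ => hcp p)) hpt
  rw [Zt_smul, Zt_sum μ _ fun p _ => hcp p] at h1
  refine h1.trans ?_
  have h2 : ∑ p : Fin n × Fin d × Fin d, Zt μ L β (fun U : Ed d (2 * m) → G =>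
      Ph L (g p.1 p.2.1 p.2.2) p.2.1 p.2.2 p.1 U ^ 2) ≤
      ∑ p : Fin n × Fin d × Fin d, M * n * (4 / β * (∑ x, g p.1 p.2.1 p.2.2 x ^ 2) * Z0 +
        (∑ x, |g p.1 p.2.1 p.2.2 x|) ^ 2 * (16 * (d * M + 1) ^ 4) * Z4) := by
    rw [hZ0, hZ4]
    exact Finset.sum_le_sum fun p _ => Ph_one μ hm hMl (hg _ _ _) hM hβ _ _ _
  have h3 : ∑ p : Fin n × Fin d × Fin d, M * n * (4 / β * (∑ x, g p.1 p.2.1 p.2.2 x ^ 2) * Z0 +
        (∑ x, |g p.1 p.2.1 p.2.2 x|) ^ 2 * (16 * (d * M + 1) ^ 4) * Z4) =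
      M * n * (4 / β * (∑ p : Fin n × Fin d × Fin d, ∑ x, g p.1 p.2.1 p.2.2 x ^ 2) * Z0 +
        (∑ p : Fin n × Fin d × Fin d, (∑ x, |g p.1 p.2.1 p.2.2 x|) ^ 2) *
          (16 * (d * M + 1) ^ 4) * Z4) := by
    rw [← Finset.mul_sum, Finset.sum_add_distrib, ← Finset.sum_mul, ← Finset.mul_sum,
      ← Finset.sum_mul, ← Finset.sum_mul]
  rw [h3] at h2
  have hN : N1 g = ∑ p : Fin n × Fin d × Fin d, ∑ x, |g p.1 p.2.1 p.2.2 x| := by
    unfold N1
    rw [Fintype.sum_prod_type]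
    simp only [Fintype.sum_prod_type]
  have hN2 : N2 g = ∑ p : Fin n × Fin d × Fin d, ∑ x, g p.1 p.2.1 p.2.2 x ^ 2 := by
    unfold N2
    rw [Fintype.sum_prod_type]
    simp only [Fintype.sum_prod_type]
  have h4 : ∑ p : Fin n × Fin d × Fin d, (∑ x, |g p.1 p.2.1 p.2.2 x|) ^ 2 ≤ N1 g ^ 2 := by
    have hS : ∀ p : Fin n × Fin d × Fin d, 0 ≤ ∑ x, |g p.1 p.2.1 p.2.2 x| := fun p =>
      Finset.sum_nonneg fun x _ => abs_nonneg _
    rw [hN, pow_two, Finset.sum_mul]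
    refine Finset.sum_le_sum fun p _ => ?_
    rw [pow_two]
    exact mul_le_mul_of_nonneg_left (Finset.single_le_sum
      (f := fun p : Fin n × Fin d × Fin d => ∑ x, |g p.1 p.2.1 p.2.2 x|)
      (fun p _ => hS _) (Finset.mem_univ p)) (hS _)
  rw [← hN2] at h2
  rw [← hZ4, ← hZ0]
  have h5 := mul_le_mul_of_nonneg_right (mul_le_mul_of_nonneg_right h4
    (show (0 : ℝ) ≤ 16 * ((d : ℝ) * M + 1) ^ 4 by positivity)) hZ40
  calc (n : ℝ) * d ^ 2 / 4 * _ ≤ n * d ^ 2 / 4 * (M * n * (4 / β * N2 g * Z0 +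
        (∑ p : Fin n × Fin d × Fin d, (∑ x, |g p.1 p.2.1 p.2.2 x|) ^ 2) *
          (16 * (d * M + 1) ^ 4) * Z4)) := mul_le_mul_of_nonneg_left h2 (by positivity)
    _ ≤ n * d ^ 2 / 4 * (M * n * (4 / β * N2 g * Z0 + N1 g ^ 2 * (16 * (d * M + 1) ^ 4) * Z4)) :=
        mul_le_mul_of_nonneg_left (mul_le_mul_of_nonneg_left (by linarith) (by positivity))
          (by positivity)
    _ = _ := by ring

lemma EX_abs_sq {l : ℕ} [NeZero l] {β : ℝ} {F : (Ed d l → G) → ℝ} (hF : Continuous F) :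
    EX μ L β (fun U => |F U|) ^ 2 ≤ EX μ L β (fun U => F U ^ 2) := by
  have h1 := Zt_cs μ (L := L) (β := β) (F := fun U => |F U|) (H := fun _ => 1) hF.abs
    continuous_const
  simp only [mul_one, sq_abs, one_pow] at h1
  have hZ := Zt_pos μ (L := L) (d := d) (l := l) β
  unfold EX
  rw [div_pow, div_le_div_iff₀ (by positivity) hZ]
  nlinarith

/-- the mean of the absolute value of the smeared curvature -/
theorem Fs_abs (hd : 1 ≤ d) : ∃ C : ℝ, 0 < C ∧ ∀ b : ℝ, 1 ≤ b → ∀ (m : ℕ) [NeZero m], 2 ≤ m →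
    ∀ M : ℕ, 2 ≤ M → M < 2 * m → ∀ g : Fin n → Fm d (2 * m),
      (∀ a j k x, g a j k x ≠ 0 → ∀ i, wv x i + 1 < M) →
      EX μ L (b ^ 4) (fun U : Ed d (2 * m) → G => |b ^ 2 * Fs L g U|) ≤
        C * (Real.sqrt (M * N2 g) + ((M : ℝ) + 1) ^ (2 * d + 3) * N1 g / b) := by
  obtain ⟨C, hC, h⟩ := sB_moms μ (L := L) hd
  refine ⟨(n * d + 1) * (2 * C * (d + 1) ^ 2), by positivity, fun b hb m _ hm M hM hMl g hg => ?_⟩
  have hb0 : 0 < b := by linarith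
  obtain ⟨hs4, -, -⟩ := h b hb m hm M
  obtain ⟨X, hX⟩ : ∃ X, X = EX μ L (b ^ 4)
    (fun U : Ed d (2 * m) → G => |b ^ 2 * Fs L g U|) := ⟨_, rfl⟩
  have h1 : X ^ 2 ≤ b ^ 4 * EX μ L (b ^ 4) (fun U : Ed d (2 * m) → G => Fs L g U ^ 2) := by
    rw [hX]
    have h2 := EX_abs_sq μ (L := L) (β := b ^ 4) (F := fun U : Ed d (2 * m) → G =>
      b ^ 2 * Fs L g U) (continuous_const.mul (Fs_cont g))
    refine h2.trans (le_of_eq ?_)
    rw [← EX_smul]
    congr 1; funext U; ring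
  have h2 := Fs_var μ (L := L) hm hMl hg hM (show 0 < b ^ 4 by positivity)
  have hZ := Zt_pos μ (L := L) (d := d) (l := 2 * m) (b ^ 4)
  have h3 : EX μ L (b ^ 4) (fun U : Ed d (2 * m) → G => Fs L g U ^ 2) ≤
      n * d ^ 2 / 4 * (M * n) * (4 / b ^ 4 * N2 g + N1 g ^ 2 * (16 * (d * M + 1) ^ 4) *
        EX μ L (b ^ 4) (fun U : Ed d (2 * m) → G => sB L M U ^ 4)) := by
    unfold EX
    rw [div_le_iff₀ hZ]
    refine h2.trans (le_of_eq ?_)
    field_simp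
  obtain ⟨E4, hE4⟩ : ∃ E4, E4 = EX μ L (b ^ 4)
    (fun U : Ed d (2 * m) → G => sB L M U ^ 4) := ⟨_, rfl⟩
  rw [← hE4] at h3 hs4
  have hN1 := N1_nonneg g
  have hN2 := N2_nonneg g
  have hM0 : (0 : ℝ) ≤ M := Nat.cast_nonneg _
  obtain ⟨q, hq⟩ : ∃ q : ℝ, q = (M : ℝ) + 1 := ⟨_, rfl⟩
  have hq1 : 1 ≤ q := by rw [hq]; linarith
  have h4 : X ^ 2 ≤ (n * d) ^ 2 * (M * N2 g) +
      (n * d) ^ 2 * (4 * C * (d + 1) ^ 4) * (q ^ (2 * d + 3) * N1 g / b) ^ 2 := by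
    refine h1.trans ?_
    have e1 : b ^ 4 * (n * d ^ 2 / 4 * (M * n) * (4 / b ^ 4 * N2 g +
        N1 g ^ 2 * (16 * (d * M + 1) ^ 4) * E4)) = (n * d) ^ 2 * (M * N2 g) +
        (n * d) ^ 2 * 4 * M * (d * M + 1) ^ 4 * N1 g ^ 2 / b ^ 2 * (b ^ 6 * E4) := by
      field_simp; ring
    refine (mul_le_mul_of_nonneg_left h3 (by positivity)).trans ?_
    rw [e1]
    refine add_le_add le_rfl ?_
    have e2 : (d : ℝ) * M + 1 ≤ (d + 1) * q := by
      rw [hq]; nlinarith [show (0 : ℝ) ≤ d from Nat.cast_nonneg d]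
    have e3 : (n * d : ℝ) ^ 2 * 4 * M * (d * M + 1) ^ 4 * N1 g ^ 2 / b ^ 2 * (b ^ 6 * E4) ≤
        (n * d : ℝ) ^ 2 * 4 * q * ((d + 1) * q) ^ 4 * N1 g ^ 2 / b ^ 2 * (C * q ^ (4 * d)) := by
      rw [← hq] at hs4
      have hMq : (M : ℝ) ≤ q := by rw [hq]; linarith
      have hE0 : 0 ≤ E4 := by rw [hE4]; exact EX_nonneg μ fun U => by positivity
      have hE6 : 0 ≤ b ^ 6 * E4 := by positivity
      gcongr
    refine e3.trans ?_
    have e4 : q ^ (4 * d + 5) ≤ q ^ (4 * d + 6) := pow_le_pow_right₀ hq1 (by omega)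
    have e5 : (n * d : ℝ) ^ 2 * 4 * q * ((d + 1) * q) ^ 4 * N1 g ^ 2 / b ^ 2 *
        (C * q ^ (4 * d)) = (n * d) ^ 2 * (4 * C * (d + 1) ^ 4) * N1 g ^ 2 / b ^ 2 *
          q ^ (4 * d + 5) := by
      rw [pow_add q (4 * d) 5]; ring
    have e6 : (n * d : ℝ) ^ 2 * (4 * C * (d + 1) ^ 4) * (q ^ (2 * d + 3) * N1 g / b) ^ 2 =
        (n * d) ^ 2 * (4 * C * (d + 1) ^ 4) * N1 g ^ 2 / b ^ 2 * q ^ (4 * d + 6) := by
      have : q ^ (4 * d + 6) = (q ^ (2 * d + 3)) ^ 2 := by rw [← pow_mul]; congr 1; ring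
      rw [this]; ring
    rw [e5, e6]
    exact mul_le_mul_of_nonneg_left e4 (by positivity)
  obtain ⟨Y, hY⟩ : ∃ Y : ℝ, Y = q ^ (2 * d + 3) * N1 g / b := ⟨_, rfl⟩
  have hY0 : 0 ≤ Y := by rw [hY]; positivity
  obtain ⟨S, hS⟩ : ∃ S : ℝ, S = Real.sqrt (M * N2 g) := ⟨_, rfl⟩
  have hS0 : 0 ≤ S := by rw [hS]; exact Real.sqrt_nonneg _
  have hS2 : S ^ 2 = M * N2 g := by rw [hS]; exact Real.sq_sqrt (by positivity)
  rw [← hY, ← hS2] at h4
  rw [← hX, ← hq, ← hY, ← hS]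
  obtain ⟨D, hD⟩ : ∃ D : ℝ, D = 2 * C * (d + 1) ^ 2 := ⟨_, rfl⟩
  have hd0 : (0 : ℝ) ≤ d := Nat.cast_nonneg _
  have hD1 : 1 ≤ D := by
    rw [hD]
    have : (1 : ℝ) ≤ (d + 1) ^ 2 := by nlinarith
    nlinarith
  have hD2 : 4 * C * (d + 1) ^ 4 ≤ D ^ 2 := by
    rw [hD]
    have e1 : (2 * C * ((d : ℝ) + 1) ^ 2) ^ 2 = 4 * C * (d + 1) ^ 4 * C := by ring
    rw [e1]
    have : 0 ≤ 4 * C * ((d : ℝ) + 1) ^ 4 := by positivity
    nlinarith
  rw [← hD]
  have hnd : (0 : ℝ) ≤ n * d := by positivity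
  have h5 : X ^ 2 ≤ ((n * d + 1) * D * (S + Y)) ^ 2 := by
    have e1 : (n * d : ℝ) ^ 2 * (4 * C * (d + 1) ^ 4) * Y ^ 2 ≤ (n * d) ^ 2 * D ^ 2 * Y ^ 2 := by
      gcongr
    have e2 : (n * d : ℝ) ^ 2 * S ^ 2 ≤ (n * d) ^ 2 * D ^ 2 * S ^ 2 := by
      have : 1 ≤ D ^ 2 := one_le_pow₀ hD1
      have e3 : 0 ≤ (n * d : ℝ) ^ 2 * S ^ 2 := by positivity
      nlinarith
    have e3 : (n * d : ℝ) ^ 2 * D ^ 2 * S ^ 2 + (n * d : ℝ) ^ 2 * D ^ 2 * Y ^ 2 ≤
        ((n * d + 1) * D * (S + Y)) ^ 2 := by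
      have e4 : S ^ 2 + Y ^ 2 ≤ (S + Y) ^ 2 := by nlinarith
      have e5 : (n * d : ℝ) ^ 2 ≤ (n * d + 1) ^ 2 := by nlinarith
      calc (n * d : ℝ) ^ 2 * D ^ 2 * S ^ 2 + (n * d : ℝ) ^ 2 * D ^ 2 * Y ^ 2 =
          (n * d : ℝ) ^ 2 * D ^ 2 * (S ^ 2 + Y ^ 2) := by ring
        _ ≤ (n * d + 1) ^ 2 * D ^ 2 * (S + Y) ^ 2 := by gcongr
        _ = _ := by ring
    linarith
  exact (abs_le_of_sq_le_sq' h5 (by positivity)).2

end var

end

end Pool.Agent.W793.YM
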