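import Mathlib
import Pool.Agent.W793.YM.Lat2
import Pool.Agent.W793.YM.Inf

/-!
# Change of the base point of the transports
-/

open MeasureTheory Matrix
open scoped Matrix.Norms.Frobenius ContDiff
open Pool.Agent.H906R3.YM

namespace Pool.Agent.W793.YM

set_option linter.unusedSectionVars false
set_option linter.unusedVariables false

noncomputable section

section paths

variable {d : ℕ} {G : Type*} [Group G]

/-- holonomy along a lattice path -/
def hol (V : Ez d → G) : (Fin d → ℤ) → List (Fin d × Bool) → G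
  | _, [] => 1
  | x, (i, true) :: p => V (x, i) * hol V (x + Pi.single i 1) p
  | x, (i, false) :: p => (V (x - Pi.single i 1, i))⁻¹ * hol V (x - Pi.single i 1) p

/-- end point of a lattice path -/
def dest {d : ℕ} : (Fin d → ℤ) → List (Fin d × Bool) → (Fin d → ℤ)
  | x, [] => x
  | x, (i, true) :: p => dest (x + Pi.single i 1) p
  | x, (i, false) :: p => dest (x - Pi.single i 1) p

/-- reduction of the sites -/
def zt {d : ℕ} (l : ℕ) (z : Fin d → ℤ) : Fin d → ZMod l := fun i => (z i : ZMod l)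

lemma zt_add {d l : ℕ} (z : Fin d → ℤ) (i : Fin d) :
    zt l (z + Pi.single i 1) = zt l z + eT i := by
  funext j
  unfold zt eT
  by_cases h : j = i
  · subst h; simp
  · simp [h]

lemma zt_sub {d l : ℕ} (z : Fin d → ℤ) (i : Fin d) :
    zt l (z - Pi.single i 1) + eT i = zt l z := by
  rw [← zt_add, sub_add_cancel]

lemma wv_zt {d l : ℕ} [NeZero l] {z : Fin d → ℤ} (h : ∀ i, 0 ≤ z i ∧ z i < l) (i : Fin d) :
    ((wv (zt l z) i : ℕ) : ℤ) = z i := by
  unfold wv zt
  obtain ⟨k, hk⟩ := Int.eq_ofNat_of_zero_le (h i).1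
  have h2 : k < l := by have := (h i).2; omega
  rw [hk, Int.cast_natCast, ZMod.val_natCast_of_lt h2]

lemma hol_trans (V : Ez d → G) (w x : Fin d → ℤ) (p : List (Fin d × Bool)) :
    hol (fun e => V (e.1 + w, e.2)) x p = hol V (x + w) p := by
  induction p generalizing x with
  | nil => rfl
  | cons s p ih =>
    obtain ⟨i, s⟩ := s
    cases s with
    | true =>
      simp only [hol]
      rw [ih, add_right_comm]
    | false =>
      simp only [hol]
      rw [ih, sub_add_eq_add_sub]

lemma dest_trans (w x : Fin d → ℤ) (p : List (Fin d × Bool)) :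
    dest (x + w) p = dest x p + w := by
  induction p generalizing x with
  | nil => rfl
  | cons s p ih =>
    obtain ⟨i, s⟩ := s
    cases s with
    | true =>
      simp only [dest]
      rw [← ih, add_right_comm]
    | false =>
      simp only [dest]
      rw [← ih, sub_add_eq_add_sub]

end paths

variable {G : Type*} [Group G] [TopologicalSpace G] [IsTopologicalGroup G] [CompactSpace G]
  [SecondCountableTopology G] [MeasurableSpace G] [BorelSpace G] (μ : Measure G)
  [IsProbabilityMeasure μ] [μ.IsMulLeftInvariant] [μ.IsMulRightInvariant] [μ.IsInvInvariant]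
  {N n : ℕ} {L : LD G N n} {d l : ℕ} [NeZero l] {M : ℕ}

lemma hol_cont (x : Fin d → ℤ) (p : List (Fin d × Bool)) :
    Continuous fun V : Ez d → G => hol V x p := by
  induction p generalizing x with
  | nil => exact continuous_const
  | cons s p ih =>
    obtain ⟨i, s⟩ := s
    cases s with
    | true =>
      simp only [hol]
      exact (continuous_apply _).mul (ih _)
    | false =>
      simp only [hol]
      exact (continuous_apply _).inv.mul (ih _)

/-- the holonomy in the comb gauge -/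
lemma hol_dv (U : Ed d l → G) (hMl : M < l) (p : List (Fin d × Bool)) (z : Fin d → ℤ)
    (h1 : ∀ i, (p.length : ℤ) ≤ z i) (h2 : ∀ i, z i + p.length + 1 < M) :
    dv L (Pc U (zt l z) * hol (lf U) z p * (Pc U (zt l (dest z p)))⁻¹) ≤
      p.length * (d * M * sB L M U) := by
  induction p generalizing z with
  | nil =>
    simp only [hol, dest, mul_one, mul_inv_cancel, dv_one]
    simp
  | cons s p ih =>
    have hMl' : (M : ℤ) < l := by exact_mod_cast hMl
    obtain ⟨i, s⟩ := s
    have hlen : ((((i, s) :: p).length : ℕ) : ℤ) = (p.length : ℤ) + 1 := by simp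
    have hlen' : ((((i, s) :: p).length : ℕ) : ℝ) = (p.length : ℝ) + 1 := by simp
    have key : ∀ w : Fin d → ℤ, (∀ i, 0 ≤ w i) → (∀ i, w i + 1 < M) →
        dv L (tlT U (zt l w) i) ≤ d * M * sB L M U := by
      intro w hw0 hw1
      have hw : ∀ i', ((wv (zt l w) i' : ℕ) : ℤ) = w i' := wv_zt fun i' =>
        ⟨hw0 i', by have := hw1 i'; omega⟩
      refine dv_tlT U (fun i' => ?_) ?_
      · have e1 := hw i'; have e2 := hw1 i'; omega
      · have e1 := hw i; have e2 := hw1 i; omega
    rw [hlen', add_mul, one_mul]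
    cases s with
    | true =>
      have h3 := ih (z + Pi.single i 1) (fun i' => by
        have e1 := h1 i'
        rw [hlen] at e1
        rw [Pi.add_apply]
        have e2 : (0 : ℤ) ≤ (Pi.single i 1 : Fin d → ℤ) i' := by
          by_cases h : i' = i
          · subst h; simp
          · simp [h]
        omega) (fun i' => by
        have e1 := h2 i'
        rw [hlen] at e1
        rw [Pi.add_apply]
        have e2 : (Pi.single i 1 : Fin d → ℤ) i' ≤ 1 := by
          by_cases h : i' = i
          · subst h; simp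
          · simp [h]
        omega)
      have h4 := key z (fun i' => by have := h1 i'; rw [hlen] at this; omega)
        (fun i' => by have := h2 i'; rw [hlen] at this; omega)
      simp only [hol, dest]
      have h5 : lf U (z, i) = U (zt l z, i) := rfl
      have h6 : Pc U (zt l z) * (lf U (z, i) * hol (lf U) (z + Pi.single i 1) p) *
          (Pc U (zt l (dest (z + Pi.single i 1) p)))⁻¹ = tlT U (zt l z) i *
          (Pc U (zt l (z + Pi.single i 1)) * hol (lf U) (z + Pi.single i 1) p *
          (Pc U (zt l (dest (z + Pi.single i 1) p)))⁻¹) := by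
        rw [h5, zt_add]
        unfold tlT
        group
      rw [h6]
      refine (dv_mul _ _).trans ?_
      linarith
    | false =>
      have h3 := ih (z - Pi.single i 1) (fun i' => by
        have e1 := h1 i'
        rw [hlen] at e1
        rw [Pi.sub_apply]
        have e2 : (Pi.single i 1 : Fin d → ℤ) i' ≤ 1 := by
          by_cases h : i' = i
          · subst h; simp
          · simp [h]
        omega) (fun i' => by
        have e1 := h2 i'
        rw [hlen] at e1
        rw [Pi.sub_apply]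
        have e2 : (0 : ℤ) ≤ (Pi.single i 1 : Fin d → ℤ) i' := by
          by_cases h : i' = i
          · subst h; simp
          · simp [h]
        omega)
      have h4 := key (z - Pi.single i 1) (fun i' => by
        have e1 := h1 i'
        rw [hlen] at e1
        rw [Pi.sub_apply]
        have e2 : (Pi.single i 1 : Fin d → ℤ) i' ≤ 1 := by
          by_cases h : i' = i
          · subst h; simp
          · simp [h]
        omega) (fun i' => by
        have e1 := h2 i'
        rw [hlen] at e1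
        rw [Pi.sub_apply]
        have e2 : (0 : ℤ) ≤ (Pi.single i 1 : Fin d → ℤ) i' := by
          by_cases h : i' = i
          · subst h; simp
          · simp [h]
        omega)
      simp only [hol, dest]
      have h5 : lf U (z - Pi.single i 1, i) = U (zt l (z - Pi.single i 1), i) := rfl
      have h6 : Pc U (zt l z) * ((lf U (z - Pi.single i 1, i))⁻¹ *
          hol (lf U) (z - Pi.single i 1) p) * (Pc U (zt l (dest (z - Pi.single i 1) p)))⁻¹ =
          (tlT U (zt l (z - Pi.single i 1)) i)⁻¹ * (Pc U (zt l (z - Pi.single i 1)) *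
          hol (lf U) (z - Pi.single i 1) p *
          (Pc U (zt l (dest (z - Pi.single i 1) p)))⁻¹) := by
        rw [h5]
        unfold tlT
        rw [zt_sub]
        group
      rw [h6]
      refine (dv_mul _ _).trans ?_
      rw [dv_inv]
      linarith

/-! ### rotations of the forms -/

variable (L) in
/-- the rotated form -/
def rot (h : G) (f : Fin n → Fm d l) : Fin n → Fm d l :=
  fun b j k x => ∑ a, L.adm h b a * f a j k x

variable (L) in
/-- the curvature smeared with a form, general transports -/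
def Fh (f : Fin n → Fm d l) (H : St d l → G) (U : Ed d l → G) : ℝ :=
  ∑ a, ipF (f a) fun j k y => fi L a (H y * plqT U y j k * (H y)⁻¹)

lemma fi_rot (h W : G) (a : Fin n) : fi L a (h⁻¹ * W * h) = ∑ b, L.adm h b a * fi L b W := by
  have h1 := sum_adm_xi (L := L) h⁻¹ W a
  rw [inv_inv] at h1
  rw [← h1]
  refine Finset.sum_congr rfl fun b _ => ?_
  unfold fi
  rw [trX_apply]

lemma Fs_rot (h : G) (f : Fin n → Fm d l) (U : Ed d l → G) :
    Fs L (rot L h f) U = Fh L f (fun y => h⁻¹ * Pc U y) U := by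
  unfold Fs Fh
  have h1 : ∀ b, ipF (rot L h f b) (Fz L U b) = ∑ a, ipF (f a) fun j k y =>
      L.adm h b a * Fz L U b j k y := by
    intro b
    unfold ipF ip2 rot
    rw [← Finset.mul_sum]
    congr 1
    have e1 : ∀ j k, ∑ x, (∑ a, L.adm h b a * f a j k x) * Fz L U b j k x =
        ∑ a, ∑ x, f a j k x * (L.adm h b a * Fz L U b j k x) := by
      intro j k
      rw [Finset.sum_comm]
      refine Finset.sum_congr rfl fun x _ => ?_
      rw [Finset.sum_mul]
      exact Finset.sum_congr rfl fun a _ => by ring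
    simp only [e1]
    rw [Finset.sum_comm (s := Finset.univ) (t := Finset.univ) (f := fun a j => ∑ k, ∑ x,
      f a j k x * (L.adm h b a * Fz L U b j k x))]
    refine Finset.sum_congr rfl fun j _ => ?_
    exact Finset.sum_comm
  rw [Finset.sum_congr rfl fun b _ => h1 b, Finset.sum_comm]
  refine Finset.sum_congr rfl fun a _ => ?_
  have h2 : (fun (j k : Fin d) (y : St d l) =>
      fi L a (h⁻¹ * Pc U y * plqT U y j k * (h⁻¹ * Pc U y)⁻¹)) =
      ∑ b, fun (j k : Fin d) (y : St d l) => L.adm h b a * Fz L U b j k y := by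
    funext j k y
    have h3 : h⁻¹ * Pc U y * plqT U y j k * (h⁻¹ * Pc U y)⁻¹ =
        h⁻¹ * (Pc U y * plqT U y j k * (Pc U y)⁻¹) * h := by group
    rw [h3, fi_rot]
    simp only [Finset.sum_apply]
    rfl
  rw [h2]
  unfold ipF
  simp only [Finset.sum_apply, ip2_sum_right]
  rw [← Finset.mul_sum]
  congr 1
  rw [Finset.sum_comm]
  refine Finset.sum_congr rfl fun j _ => ?_
  exact Finset.sum_comm

/-- change of the transports -/
lemma Fh_diff {f : Fin n → Fm d l} {H H' : St d l → G} {U : Ed d l → G} {e s : ℝ} (he : 0 ≤ e)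
    (h1 : ∀ a j k y, f a j k y ≠ 0 → dv L (H y * (H' y)⁻¹) ≤ e)
    (h2 : ∀ a j k y, f a j k y ≠ 0 → dv L (plqT U y j k) ≤ s) :
    |Fh L f H U - Fh L f H' U| ≤ N1 f * (e * s) := by
  have e1 : Fh L f H U - Fh L f H' U = ∑ a, ∑ j, ∑ k, ∑ y, 1 / 2 * (f a j k y *
      (fi L a (H y * plqT U y j k * (H y)⁻¹) - fi L a (H' y * plqT U y j k * (H' y)⁻¹))) := by
    unfold Fh
    rw [← Finset.sum_sub_distrib]
    refine Finset.sum_congr rfl fun a _ => ?_
    unfold ipF ip2
    rw [← mul_sub, ← Finset.sum_sub_distrib, Finset.mul_sum]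
    refine Finset.sum_congr rfl fun j _ => ?_
    rw [← Finset.sum_sub_distrib, Finset.mul_sum]
    refine Finset.sum_congr rfl fun k _ => ?_
    rw [← Finset.sum_sub_distrib, Finset.mul_sum]
    exact Finset.sum_congr rfl fun y _ => by ring
  rw [e1]
  unfold N1
  rw [Finset.sum_mul]
  refine (Finset.abs_sum_le_sum_abs _ _).trans (Finset.sum_le_sum fun a _ => ?_)
  rw [Finset.sum_mul]
  refine (Finset.abs_sum_le_sum_abs _ _).trans (Finset.sum_le_sum fun j _ => ?_)
  rw [Finset.sum_mul]
  refine (Finset.abs_sum_le_sum_abs _ _).trans (Finset.sum_le_sum fun k _ => ?_)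
  rw [Finset.sum_mul]
  refine (Finset.abs_sum_le_sum_abs _ _).trans (Finset.sum_le_sum fun y _ => ?_)
  rw [abs_mul, abs_mul, abs_of_nonneg (show (0 : ℝ) ≤ 1 / 2 by norm_num)]
  by_cases h0 : f a j k y = 0
  · rw [h0, abs_zero, zero_mul, zero_mul, mul_zero]
  · have e2 := fi_conj (L := L) a (H y * (H' y)⁻¹) (H' y * plqT U y j k * (H' y)⁻¹)
    have e3 : H y * (H' y)⁻¹ * (H' y * plqT U y j k * (H' y)⁻¹) * (H y * (H' y)⁻¹)⁻¹ =
        H y * plqT U y j k * (H y)⁻¹ := by group
    rw [e3, dv_conj] at e2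
    have e4 : 2 * dv L (H y * (H' y)⁻¹) * dv L (plqT U y j k) ≤ 2 * e * s :=
      mul_le_mul (by linarith [h1 a j k y h0]) (h2 a j k y h0) (dv_nonneg _) (by positivity)
    have e5 : |f a j k y| * |fi L a (H y * plqT U y j k * (H y)⁻¹) -
        fi L a (H' y * plqT U y j k * (H' y)⁻¹)| ≤ |f a j k y| * (2 * e * s) :=
      mul_le_mul_of_nonneg_left (e2.trans e4) (abs_nonneg _)
    linarith

lemma adm_abs (h : G) (a b : Fin n) : |L.adm h b a| ≤ 1 := by
  have h1 := sum_adm_adm (L := L) h b b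
  rw [if_pos rfl] at h1
  have h2 : L.adm h b a * L.adm h b a ≤ ∑ a, L.adm h b a * L.adm h b a :=
    Finset.single_le_sum (f := fun a => L.adm h b a * L.adm h b a)
      (fun a _ => mul_self_nonneg _) (Finset.mem_univ a)
  rw [h1] at h2
  rw [abs_le]
  constructor <;> nlinarith

lemma N1_rot (h : G) (f : Fin n → Fm d l) : N1 (rot L h f) ≤ n * N1 f := by
  have h1 : ∀ (b : Fin n) j k, ∑ x, |rot L h f b j k x| ≤ ∑ a, ∑ x, |f a j k x| := by
    intro b j k
    rw [Finset.sum_comm]
    refine Finset.sum_le_sum fun x _ => ?_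
    unfold rot
    refine (Finset.abs_sum_le_sum_abs _ _).trans (Finset.sum_le_sum fun a _ => ?_)
    rw [abs_mul]
    calc |L.adm h b a| * |f a j k x| ≤ 1 * |f a j k x| :=
          mul_le_mul_of_nonneg_right (adm_abs _ _ _) (abs_nonneg _)
      _ = _ := one_mul _
  unfold N1
  calc ∑ b, ∑ j, ∑ k, ∑ x, |rot L h f b j k x| ≤
      ∑ _b : Fin n, ∑ j, ∑ k, ∑ a, ∑ x, |f a j k x| :=
        Finset.sum_le_sum fun b _ => Finset.sum_le_sum fun j _ => Finset.sum_le_sum fun k _ =>
          h1 b j k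
    _ = n * ∑ j, ∑ k, ∑ a, ∑ x, |f a j k x| := by
        rw [Finset.sum_const, Finset.card_univ, Fintype.card_fin, nsmul_eq_mul]
    _ = _ := by
        congr 1
        rw [Finset.sum_comm (s := Finset.univ) (t := Finset.univ)
          (f := fun (a : Fin n) (j : Fin d) => ∑ k, ∑ x, |f a j k x|)]
        refine Finset.sum_congr rfl fun j _ => ?_
        exact Finset.sum_comm

lemma rot_asy {f : Fin n → Fm d l} (hf : ∀ a, Asy (f a)) (h : G) (b : Fin n) :
    Asy (rot L h f b) := by
  intro j k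
  funext x
  rw [Pi.neg_apply]
  unfold rot
  rw [← Finset.sum_neg_distrib]
  refine Finset.sum_congr rfl fun a _ => ?_
  rw [hf a j k, Pi.neg_apply]; ring

lemma rot_SW {lo hi : ℕ} {f : Fin n → Fm d l} (hf : ∀ a j k, SW lo hi (f a j k)) (h : G)
    (b : Fin n) (j k : Fin d) : SW lo hi (rot L h f b j k) := by
  intro x hx
  obtain ⟨a, _, ha⟩ := Finset.exists_ne_zero_of_sum_ne_zero hx
  exact hf a j k x fun h0 => ha (by rw [h0, mul_zero])

/-! ### the operator as a linear map -/

lemma Pl_add (f g : St d l → ℝ) : Pl (f + g) = Pl f + Pl g := by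
  unfold Pl
  rw [lap_add, smul_add]; abel

lemma Pl_smul (c : ℝ) (f : St d l → ℝ) : Pl (c • f) = c • Pl f := by
  unfold Pl
  rw [lap_smul, smul_sub, smul_comm]

lemma Plk_add (k : ℕ) (f g : St d l → ℝ) : Plk k (f + g) = Plk k f + Plk k g := by
  induction k with
  | zero => rfl
  | succ k ih => rw [Plk_succ, Plk_succ, Plk_succ, ih, Pl_add]

lemma Plk_smul (k : ℕ) (c : ℝ) (f : St d l → ℝ) : Plk k (c • f) = c • Plk k f := by
  induction k with
  | zero => rfl
  | succ k ih => rw [Plk_succ, Plk_succ, ih, Pl_smul]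

lemma uK_add (K : ℕ) (f g : St d l → ℝ) : uK K (f + g) = uK K f + uK K g := by
  unfold uK
  rw [← smul_add, ← Finset.sum_add_distrib]
  simp only [Plk_add]

lemma uK_smul (K : ℕ) (c : ℝ) (f : St d l → ℝ) : uK K (c • f) = c • uK K f := by
  unfold uK
  simp only [Plk_smul, ← Finset.smul_sum]
  rw [smul_comm]

/-- the projection, as a linear map -/
def TL (K : ℕ) : Fm d l →ₗ[ℝ] Fm d l where
  toFun f := d1 (ds2 fun j k => uK K (f j k))
  map_add' f g := by
    funext j k
    unfold d1 ds2
    simp only [Pi.add_apply, uK_add, Dm_add, Finset.sum_add_distrib, Dp_add]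
    abel
  map_smul' c f := by
    funext j k
    unfold d1 ds2
    simp only [Pi.smul_apply, uK_smul, Dm_smul, ← Finset.smul_sum, Dp_smul, ← smul_sub,
      RingHom.id_apply]

lemma d1_AK (K : ℕ) (f : Fin n → Fm d l) (a : Fin n) : d1 (AK K f a) = TL K (f a) := rfl

lemma vK_eq (K : ℕ) (f : Fin n → Fm d l) : vK K f = ∑ a, ipF (TL K (f a)) (TL K (f a)) := rfl

lemma ipF_sum_left {ι : Type*} (s : Finset ι) (f : ι → Fm d l) (g : Fm d l) :
    ipF (∑ i ∈ s, f i) g = ∑ i ∈ s, ipF (f i) g := by
  classical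
  induction s using Finset.induction_on with
  | empty =>
    rw [Finset.sum_empty, Finset.sum_empty]
    unfold ipF ip2
    simp
  | insert a s ha ih => rw [Finset.sum_insert ha, Finset.sum_insert ha, ipF_add_left, ih]

lemma ipF_sum_right {ι : Type*} (s : Finset ι) (f : ι → Fm d l) (g : Fm d l) :
    ipF g (∑ i ∈ s, f i) = ∑ i ∈ s, ipF g (f i) := by
  rw [ipF_comm, ipF_sum_left]
  exact Finset.sum_congr rfl fun i _ => ipF_comm _ _

lemma ipF_smul_right (c : ℝ) (f h : Fm d l) : ipF f (c • h) = c * ipF f h := by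
  rw [ipF_comm, ipF_smul_left, ipF_comm]

lemma sum_adm_adm' (g : G) (a a' : Fin n) :
    ∑ b, L.adm g b a * L.adm g b a' = if a = a' then 1 else 0 := by
  have h := sum_adm_adm (L := L) g⁻¹ a a'
  simp only [adm_inv] at h
  exact h

lemma vK_rot (K : ℕ) (h : G) (f : Fin n → Fm d l) : vK K (rot L h f) = vK K f := by
  rw [vK_eq, vK_eq]
  have h1 : ∀ b, rot L h f b = ∑ a, L.adm h b a • f a := by
    intro b
    funext j k x
    unfold rot
    simp only [Finset.sum_apply, Pi.smul_apply, smul_eq_mul]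
  have h2 : ∀ b, ipF (TL K (rot L h f b)) (TL K (rot L h f b)) =
      ∑ a, ∑ a', L.adm h b a * L.adm h b a' * ipF (TL K (f a)) (TL K (f a')) := by
    intro b
    rw [h1, map_sum, ipF_sum_left]
    refine Finset.sum_congr rfl fun a _ => ?_
    rw [ipF_sum_right]
    refine Finset.sum_congr rfl fun a' _ => ?_
    rw [map_smul, map_smul, ipF_smul_left, ipF_smul_right]; ring
  rw [Finset.sum_congr rfl fun b _ => h2 b, Finset.sum_comm]
  refine Finset.sum_congr rfl fun a _ => ?_
  rw [Finset.sum_comm, Finset.sum_eq_single a]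
  · rw [← Finset.sum_mul, sum_adm_adm', if_pos rfl, one_mul]
  · intro a' _ ha'
    rw [← Finset.sum_mul, sum_adm_adm', if_neg ha'.symm, zero_mul]
  · intro h; exact absurd (Finset.mem_univ _) h

/-! ### the average over the gauge transformations at one site -/

lemma integral_gtc (γ : St d l → G) {F : (Ed d l → G) → ℝ} (hF : Continuous F) :
    ∫ U, F (gt γ U) ∂(ME μ (Ed d l)) = ∫ U, F U ∂(ME μ (Ed d l)) := by
  have h := integral_skew μ (E := Ed d l) (fun _ => True) hF (a := fun e _ => γ e.1)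
    (b := fun e _ => (γ (e.1 + eT e.2))⁻¹) (fun e => continuous_const) (fun e => continuous_const)
    (fun e U U' _ => rfl) (fun e U U' _ => rfl)
  rw [← h]
  refine integral_congr_ae (Filter.Eventually.of_forall fun U => ?_)
  simp only [if_true]
  rfl

lemma EX_gt {β : ℝ} (γ : St d l → G) {F : (Ed d l → G) → ℝ} (hF : Continuous F) :
    EX μ L β (fun U => F (gt γ U)) = EX μ L β F := by
  unfold EX
  congr 1
  unfold Zt
  rw [← integral_gtc μ γ (F := fun U => F U * Real.exp (-(β * act L U)))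
    (hF.mul (wt_contT β))]
  refine integral_congr_ae (Filter.Eventually.of_forall fun U => ?_)
  simp only
  rw [act_gt γ U]

lemma fr_cont (w : Pt d) : Continuous fun U : Ed d l → G => fr (uu U) w := by
  induction hn : sz w generalizing w with
  | zero =>
    have hw : ¬∃ i, 0 < w i := by
      rintro ⟨i, hi⟩
      have := sz_sub hi
      omega
    have h1 : (fun U : Ed d l → G => fr (uu U) w) = fun _ => 1 := by
      funext U; exact fr_zero _ hw
    rw [h1]; exact continuous_const
  | succ q ih =>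
    have hwp : ∃ i, 0 < w i := by
      by_contra hc
      push Not at hc
      have : sz w = 0 := Finset.sum_eq_zero fun i _ => Nat.le_zero.1 (hc i)
      omega
    have hp := mi_pos w hwp
    have hsz := sz_sub hp
    have h1 : (fun U : Ed d l → G => fr (uu U) w) = fun U => fr (uu U) (w - es (mi w hwp)) *
        uu U (w - es (mi w hwp)) (mi w hwp) := by
      funext U; exact fr_succ _ hwp
    rw [h1]
    exact (ih (w - es (mi w hwp)) (by omega)).mul (continuous_apply _)

lemma Pc_cont (x : St d l) : Continuous fun U : Ed d l → G => Pc U x := fr_cont _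

lemma avg {β : ℝ} {Ψ : G → (Ed d l → G) → ℝ}
    (hΨ : Continuous fun p : G × (Ed d l → G) => Ψ p.1 p.2) {o : St d l} (ho : o ≠ 0)
    (hinv : ∀ γ U g, γ 0 = 1 → Ψ g (gt γ U) = Ψ g U) :
    EX μ L β (fun U => Ψ (Pc U o) U) = ∫ g, EX μ L β (Ψ g) ∂μ := by
  classical
  obtain ⟨ν, hν⟩ : ∃ ν, ν = ME μ (Ed d l) := ⟨_, rfl⟩
  haveI : IsProbabilityMeasure ν := by rw [hν]; infer_instance
  have hPc := Pc_cont (G := G) o
  have c1 : Continuous fun U : Ed d l → G => Ψ (Pc U o) U :=
    hΨ.comp (hPc.prodMk continuous_id)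
  have step1 : ∀ g : G, EX μ L β (fun U => Ψ (Pc U o) U) =
      EX μ L β (fun U => Ψ (Pc U o * g) U) := by
    intro g
    rw [← EX_gt μ (L := L) (β := β) (Function.update (1 : St d l → G) o g⁻¹) c1]
    congr 1
    funext U
    have h0 : Function.update (1 : St d l → G) o g⁻¹ 0 = 1 := by
      rw [Function.update_of_ne ho.symm]; rfl
    rw [hinv _ _ _ h0, Pc_gt, h0, Function.update_self]
    simp
  have step2 : EX μ L β (fun U => Ψ (Pc U o) U) =
      ∫ g, EX μ L β (fun U => Ψ (Pc U o * g) U) ∂μ := by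
    have : (fun g : G => EX μ L β (fun U => Ψ (Pc U o * g) U)) =
        fun _ => EX μ L β (fun U => Ψ (Pc U o) U) := by
      funext g; exact (step1 g).symm
    rw [this, integral_const]
    simp
  rw [step2]
  unfold EX
  rw [integral_div, integral_div]
  congr 1
  unfold Zt
  rw [← hν]
  have cw : Continuous fun U : Ed d l → G => Real.exp (-(β * act L U)) := wt_contT (L := L) β
  have c2 : Continuous fun p : G × (Ed d l → G) =>
      Ψ (Pc p.2 o * p.1) p.2 * Real.exp (-(β * act L p.2)) := by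
    have e1 : Continuous fun p : G × (Ed d l → G) => (Pc p.2 o * p.1, p.2) :=
      ((hPc.comp continuous_snd).mul continuous_fst).prodMk continuous_snd
    exact (hΨ.comp e1).mul (cw.comp continuous_snd)
  have c3 : Continuous fun p : G × (Ed d l → G) =>
      Ψ p.1 p.2 * Real.exp (-(β * act L p.2)) := hΨ.mul (cw.comp continuous_snd)
  have i2 : Integrable (Function.uncurry fun (g : G) (U : Ed d l → G) =>
      Ψ (Pc U o * g) U * Real.exp (-(β * act L U))) (μ.prod ν) := cont_integrable c2
  have i3 : Integrable (Function.uncurry fun (g : G) (U : Ed d l → G) =>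
      Ψ g U * Real.exp (-(β * act L U))) (μ.prod ν) := cont_integrable c3
  rw [integral_integral_swap i2, integral_integral_swap i3]
  refine integral_congr_ae (Filter.Eventually.of_forall fun U => ?_)
  simp only
  rw [integral_mul_const, integral_mul_const]
  congr 1
  exact integral_mul_left_eq_self (μ := μ) (fun g => Ψ g U) (Pc U o)

lemma Fs_gt (f : Fin n → Fm d l) (γ : St d l → G) (h0 : γ 0 = 1) (U : Ed d l → G) :
    Fs L f (gt γ U) = Fs L f U := by
  unfold Fs
  refine Finset.sum_congr rfl fun a _ => ?_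
  congr 1
  funext j k x
  unfold Fz
  rw [Pc_gt, plqT_gt, h0]
  congr 1
  group

lemma adm_cont (a b : Fin n) : Continuous fun g : G => L.adm g b a := by
  unfold LD.adm
  refine (ip (L.X b)).continuous.comp ?_
  exact (L.cont.mul continuous_const).mul L.cont.matrix_conjTranspose

lemma Fs_rot_cont (f : Fin n → Fm d l) :
    Continuous fun p : G × (Ed d l → G) => Fs L (rot L p.1 f) p.2 := by
  have h1 : ∀ (b : Fin n) (j k : Fin d) (x : St d l), Continuous fun U : Ed d l → G =>
      Fz L U b j k x := fun b j k x =>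
    cont_fi b (((SmG_Pc x).mul (SmG_plqT x j k)).mul (SmG_Pc x).inv)
  unfold Fs ipF ip2 rot
  refine continuous_finsetSum _ fun b _ => continuous_const.mul ?_
  refine continuous_finsetSum _ fun j _ => continuous_finsetSum _ fun k _ =>
    continuous_finsetSum _ fun x _ => ?_
  refine Continuous.mul ?_ ((h1 b j k x).comp continuous_snd)
  exact continuous_finsetSum _ fun a _ => ((adm_cont a b).comp continuous_fst).mul continuous_const

lemma comp_Pc {Ψ : G → (Ed d l → G) → ℝ}
    (hΨ : Continuous fun p : G × (Ed d l → G) => Ψ p.1 p.2) (o : St d l) :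
    Continuous fun U : Ed d l → G => Ψ (Pc U o) U :=
  hΨ.comp ((Pc_cont o).prodMk continuous_id)

lemma Y_cont (f : Fin n → Fm d l) (o : St d l) (c : ℝ) :
    Continuous fun U : Ed d l → G => c * Fs L (rot L (Pc U o) f) U := by
  have e2 : Continuous fun U : Ed d l → G => Fs L (rot L (Pc U o) f) U :=
    comp_Pc (Ψ := fun g U => Fs L (rot L g f) U) (Fs_rot_cont f) o
  exact continuous_const.mul e2

lemma X_cont (f : Fin n → Fm d l) (o : Fin d → ℤ) (P : St d l → List (Fin d × Bool)) (c : ℝ) :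
    Continuous fun U : Ed d l → G => c * Fh L f (fun y => hol (lf U) o (P y)) U := by
  refine continuous_const.mul ?_
  unfold Fh ipF ip2
  refine continuous_finsetSum _ fun b _ => continuous_const.mul ?_
  refine continuous_finsetSum _ fun j _ => continuous_finsetSum _ fun k _ =>
    continuous_finsetSum _ fun x _ => continuous_const.mul ?_
  have hl : Continuous fun U : Ed d l → G => lf U :=
    continuous_pi fun e => continuous_apply _
  have hh : Continuous fun U : Ed d l → G => hol (lf U) o (P x) :=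
    (hol_cont o (P x)).comp hl
  exact (fi_cont b).comp ((hh.mul (plqT_cont x j k)).mul hh.inv)

lemma zt_ne {o : Fin d → ℤ} (hd : 0 < d) (h : ∀ i, 1 ≤ o i ∧ o i < l) : zt l o ≠ 0 := by
  intro h0
  have h3 := wv_zt (l := l) (z := o) (fun i => ⟨by have := (h i).1; omega, (h i).2⟩) ⟨0, hd⟩
  rw [h0] at h3
  have h4 : wv (0 : Fin d → ZMod l) ⟨0, hd⟩ = 0 := ZMod.val_zero
  rw [h4] at h3
  have := (h ⟨0, hd⟩).1
  omega

lemma XY_diff (U : Ed d l → G) (hMl : M < l) {f : Fin n → Fm d l} {K : ℕ}
    (o : Fin d → ℤ) (P : St d l → List (Fin d × Bool))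
    (ho : ∀ i, (K : ℤ) ≤ o i ∧ o i + K + 1 < M)
    (hP : ∀ a j k y, f a j k y ≠ 0 → (P y).length ≤ K ∧ zt l (dest o (P y)) = y)
    (hf : ∀ a j k y, f a j k y ≠ 0 → ∀ i, wv y i < M) :
    |Fh L f (fun y => hol (lf U) o (P y)) U - Fs L (rot L (Pc U (zt l o)) f) U| ≤
      N1 f * (K * (d * M)) * sB L M U ^ 2 := by
  have hs := sB_nonneg (L := L) M U
  rw [Fs_rot]
  have e1 := Fh_diff (L := L) (f := f) (H := fun y => hol (lf U) o (P y))
    (H' := fun y => (Pc U (zt l o))⁻¹ * Pc U y) (U := U)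
    (e := K * (d * M * sB L M U)) (s := sB L M U) (by positivity)
    (fun a j k y hy => by
      obtain ⟨hp1, hp2⟩ := hP a j k y hy
      have hp1' : ((P y).length : ℤ) ≤ K := by exact_mod_cast hp1
      have e2 := hol_dv (L := L) (M := M) U hMl (P y) o (fun i => by have := (ho i).1; omega)
        (fun i => by have := (ho i).2; omega)
      rw [hp2] at e2
      have e3 : hol (lf U) o (P y) * ((Pc U (zt l o))⁻¹ * Pc U y)⁻¹ =
          (Pc U (zt l o))⁻¹ * (Pc U (zt l o) * hol (lf U) o (P y) *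
            (Pc U y)⁻¹) * (Pc U (zt l o))⁻¹⁻¹ := by group
      rw [e3, dv_conj]
      refine e2.trans (mul_le_mul_of_nonneg_right ?_ (by positivity))
      exact_mod_cast hp1)
    (fun a j k y hy => by
      by_cases hjk : j = k
      · subst hjk
        have h2 : plqT U y j j = 1 := by unfold plqT; group
        rw [h2, dv_one]; exact hs
      · exact le_sB'' U (hf a j k y hy) hjk)
  exact e1.trans (le_of_eq (by ring))

/-- averages over the gauge transformations -/
lemma case_avg {β : ℝ} {f : Fin n → Fm d l} {o : St d l} (ho : o ≠ 0) {s : ℝ} {t : ℝ → ℝ} {c e : ℝ}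
    (ht : Continuous t)
    (hg : ∀ g : G, |EX μ L β (fun U : Ed d l → G => t (s * Fs L (rot L g f) U)) - c| ≤ e) :
    |EX μ L β (fun U : Ed d l → G => t (s * Fs L (rot L (Pc U o) f) U)) - c| ≤ e := by
  have hcΨ : Continuous fun p : G × (Ed d l → G) =>
      t (s * Fs L (rot L p.1 f) p.2) :=
    ht.comp (continuous_const.mul (Fs_rot_cont f))
  have e2 := avg μ (L := L) (β := β) (Ψ := fun g U => t (s * Fs L (rot L g f) U))
    hcΨ ho (fun γ U g h0 => by rw [Fs_gt _ γ h0])
  have e3 : EX μ L β (fun U => t (s * Fs L (rot L (Pc U o) f) U)) =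
      ∫ g, EX μ L β (fun U : Ed d l → G => t (s * Fs L (rot L g f) U)) ∂μ := e2
  rw [e3]
  have e5 : Continuous fun g : G => EX μ L β (fun U : Ed d l → G =>
      t (s * Fs L (rot L g f) U)) := by
    unfold EX Zt
    refine Continuous.div_const ?_ _
    have e6 := continuous_parametric_integral_of_continuous (μ := ME μ (Ed d l))
      (f := fun (g : G) (U : Ed d l → G) => t (s * Fs L (rot L g f) U) *
        Real.exp (-(β * act L U)))
      (hcΨ.mul ((wt_contT (L := L) β).comp continuous_snd)) isCompact_univ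
    simpa only [Measure.restrict_univ] using e6
  have e4 : (∫ g, EX μ L β (fun U : Ed d l → G =>
        t (s * Fs L (rot L g f) U)) ∂μ) - c =
      ∫ g, (EX μ L β (fun U : Ed d l → G =>
        t (s * Fs L (rot L g f) U)) - c) ∂μ := by
    rw [integral_sub (cont_integrable e5) (integrable_const _), integral_const]
    simp
  rw [e4, ← Real.norm_eq_abs]
  refine (norm_integral_le_of_norm_le_const (μ := μ)
    (C := e) (Filter.Eventually.of_forall fun g => ?_)).trans (le_of_eq ?_)
  · rw [Real.norm_eq_abs]; exact hg g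
  · simp

/-- The Gaussian limit with the transports starting at an inner site. -/
theorem lattice_rb (hd : 3 ≤ d) : ∃ C : ℝ, 0 < C ∧ ∀ b : ℝ, 1 ≤ b → ∀ (m : ℕ) [NeZero m] (K : ℕ),
    1 ≤ K → 3 * K + 5 < 2 * m → ∀ f : Fin n → Fm d (2 * m), (∀ a, Asy (f a)) →
    (∀ a j k, SW (K + 2) (2 * K + 2) (f a j k)) → ∀ (o : Fin d → ℤ) (P : St d (2 * m) →
      List (Fin d × Bool)), (∀ i, (K : ℤ) + 1 ≤ o i ∧ o i ≤ 2 * K + 3) →
      (∀ a j k y, f a j k y ≠ 0 → (P y).length ≤ K ∧ zt (2 * m) (dest o (P y)) = y) →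
      |EX μ L (b ^ 4) (fun U : Ed d (2 * m) → G => Real.cos (b ^ 2 *
          Fh L f (fun y => hol (lf U) o (P y)) U)) - Real.exp (-(vK K f / 2))| ≤
          C * (N1 f / Real.sqrt (Real.sqrt K ^ (d - 2)) + (K : ℝ) ^ (2 * d + 3) * (1 + N1 f) ^ 2 / b) ∧
      |EX μ L (b ^ 4) (fun U : Ed d (2 * m) → G => Real.sin (b ^ 2 *
          Fh L f (fun y => hol (lf U) o (P y)) U))| ≤
          C * (N1 f / Real.sqrt (Real.sqrt K ^ (d - 2)) + (K : ℝ) ^ (2 * d + 3) * (1 + N1 f) ^ 2 / b) := by
  have hd1 : 1 ≤ d := by omega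
  obtain ⟨C1, hC1, h1⟩ := lattice μ (L := L) hd
  obtain ⟨C2, hC2, h2⟩ := sB_moms μ (L := L) hd1
  refine ⟨C1 * (n + 1) ^ 2 + C2 * (d * 8 * 9 ^ (2 * d)), by positivity,
    fun b hb m _ K hK hKm f hf hfs o P ho hP => ?_⟩
  have hb0 : 0 < b := by linarith
  have hm : 2 ≤ m := by omega
  have hK1 : (1 : ℝ) ≤ K := by exact_mod_cast hK
  obtain ⟨M, hM⟩ : ∃ M, M = 3 * K + 5 := ⟨_, rfl⟩
  have hMl : M < 2 * m := by omega
  have hM8 : (M : ℝ) ≤ 8 * K := by rw [hM]; push_cast; linarith
  have hM9 : (M : ℝ) + 1 ≤ 9 * K := by rw [hM]; push_cast; linarith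
  have hN := N1_nonneg f
  have hd0 : (0 : ℝ) ≤ d := Nat.cast_nonneg _
  have hn0 : (0 : ℝ) ≤ n := Nat.cast_nonneg _
  obtain ⟨T, hT⟩ : ∃ T : ℝ, T = N1 f / Real.sqrt (Real.sqrt K ^ (d - 2)) := ⟨_, rfl⟩
  obtain ⟨Q, hQ⟩ : ∃ Q : ℝ, Q = (K : ℝ) ^ (2 * d + 3) * (1 + N1 f) ^ 2 / b := ⟨_, rfl⟩
  have hT0 : 0 ≤ T := by rw [hT]; positivity
  have hQ0 : 0 ≤ Q := by rw [hQ]; positivity
  obtain ⟨X, hX⟩ : ∃ X : (Ed d (2 * m) → G) → ℝ, X = fun U => b ^ 2 *
    Fh L f (fun y => hol (lf U) o (P y)) U := ⟨_, rfl⟩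
  obtain ⟨Y, hY⟩ : ∃ Y : (Ed d (2 * m) → G) → ℝ, Y = fun U => b ^ 2 *
    Fs L (rot L (Pc U (zt (2 * m) o)) f) U := ⟨_, rfl⟩
  have hXc : Continuous X := by rw [hX]; exact X_cont f o P _
  have hYc : Continuous Y := by rw [hY]; exact Y_cont f _ _
  have ho0 : zt (2 * m) o ≠ 0 := zt_ne (by omega) fun i =>
    ⟨by have := (ho i).1; omega, by have := (ho i).2; push_cast; omega⟩
  have hXY : ∀ U, |X U - Y U| ≤ b ^ 2 * (N1 f * (K * (d * M))) * sB L M U ^ 2 := by
    intro U
    rw [hX, hY]
    simp only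
    rw [← mul_sub, abs_mul, abs_of_pos (show 0 < b ^ 2 by positivity)]
    have hM' : (M : ℤ) = 3 * K + 5 := by rw [hM]; push_cast; ring
    have e1 := XY_diff (L := L) (M := M) (K := K) U hMl o P
      (fun i => ⟨by have := (ho i).1; omega, by have := (ho i).2; omega⟩) hP
      (fun a j k y hy i => by have := hfs a j k y hy i; omega)
    calc b ^ 2 * _ ≤ b ^ 2 * (N1 f * (K * (d * M)) * sB L M U ^ 2) :=
          mul_le_mul_of_nonneg_left e1 (by positivity)
      _ = _ := by ring
  have hE : EX μ L (b ^ 4) (fun U => |X U - Y U|) ≤ C2 * (d * 8 * 9 ^ (2 * d)) * Q := by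
    obtain ⟨-, e1, -⟩ := h2 b hb m hm M
    obtain ⟨E, hE⟩ : ∃ E, E = EX μ L (b ^ 4)
      (fun U : Ed d (2 * m) → G => sB L M U ^ 2) := ⟨_, rfl⟩
    have hE0 : 0 ≤ E := by rw [hE]; exact EX_nonneg μ fun U => by positivity
    rw [← hE] at e1
    have e2 : EX μ L (b ^ 4) (fun U => |X U - Y U|) ≤
        b ^ 2 * (N1 f * (K * (d * M))) * E := by
      rw [hE, ← EX_smul]
      exact EX_mono μ (hXc.sub hYc).abs (continuous_const.mul ((sB_cont M).pow 2)) hXY
    have e3 : b ^ 2 * E ≤ C2 * ((M : ℝ) + 1) ^ (2 * d) / b := by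
      rw [le_div_iff₀ hb0]
      refine le_trans (le_of_eq ?_) e1
      ring
    have e8 : b ^ 2 * E ≤ C2 * (9 * K) ^ (2 * d) / b := by
      refine e3.trans ?_
      gcongr
    have hNQ : N1 f ≤ (1 + N1 f) ^ 2 := by nlinarith
    calc _ ≤ _ := e2
      _ = N1 f * (K * (d * M)) * (b ^ 2 * E) := by ring
      _ ≤ (1 + N1 f) ^ 2 * (K * (d * (8 * K))) * (C2 * (9 * K) ^ (2 * d) / b) := by gcongr
      _ ≤ (1 + N1 f) ^ 2 * (K * (d * (8 * K))) * (C2 * (9 * K) ^ (2 * d) / b) * K :=
          le_mul_of_one_le_right (by positivity) hK1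
      _ = _ := by
          rw [hQ, mul_pow 9 (K : ℝ), pow_add (K : ℝ) (2 * d) 3]; ring
  have hN1r : ∀ g : G, N1 (rot L g f) / Real.sqrt (Real.sqrt K ^ (d - 2)) +
      (K : ℝ) ^ (2 * d + 3) * (1 + N1 (rot L g f)) ^ 2 / b ≤ (n + 1) ^ 2 * (T + Q) := by
    intro g
    have e1 := N1_rot (L := L) g f
    have e0 := N1_nonneg (rot L g f)
    have e2 : N1 (rot L g f) / Real.sqrt (Real.sqrt K ^ (d - 2)) ≤ (n + 1) ^ 2 * T := by
      rw [hT, mul_div_assoc']
      refine div_le_div_of_nonneg_right ?_ (Real.sqrt_nonneg _)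
      nlinarith
    have e3 : (K : ℝ) ^ (2 * d + 3) * (1 + N1 (rot L g f)) ^ 2 / b ≤ (n + 1) ^ 2 * Q := by
      have e4 : 1 + N1 (rot L g f) ≤ (n + 1) * (1 + N1 f) := by nlinarith
      calc _ ≤ (K : ℝ) ^ (2 * d + 3) * ((n + 1) * (1 + N1 f)) ^ 2 / b := by gcongr
        _ = _ := by rw [hQ]; ring
    rw [mul_add]
    exact add_le_add e2 e3
  have hcase : ∀ (t : ℝ → ℝ) (c : ℝ), Continuous t → (∀ x y, |t x - t y| ≤ |x - y|) →
      (∀ g : G, |EX μ L (b ^ 4) (fun U : Ed d (2 * m) → G => t (b ^ 2 * Fs L (rot L g f) U)) -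
        c| ≤ C1 * ((n + 1) ^ 2 * (T + Q))) →
      |EX μ L (b ^ 4) (fun U => t (X U)) - c| ≤
        (C1 * (n + 1) ^ 2 + C2 * (d * 8 * 9 ^ (2 * d))) * (T + Q) := by
    intro t c ht h1t hg
    have e1 : |EX μ L (b ^ 4) (fun U => t (Y U)) - c| ≤ C1 * ((n + 1) ^ 2 * (T + Q)) := by
      rw [hY]
      exact case_avg μ ho0 ht hg
    have e2 := EX_trig μ (L := L) hXc hYc ht h1t e1
    refine e2.trans ?_
    have p1 : 0 ≤ C2 * (d * 8 * 9 ^ (2 * d)) * T := by positivity
    linarith
  rw [← hT, ← hQ]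
  constructor
  · have := hcase Real.cos (Real.exp (-(vK K f / 2))) Real.continuous_cos abs_cos_sub fun g => by
      have e1 := (h1 b hb m K hK hKm (rot L g f) (rot_asy hf g) (rot_SW hfs g)).1
      rw [vK_rot] at e1
      exact e1.trans (mul_le_mul_of_nonneg_left (hN1r g) hC1.le)
    rw [hX] at this
    exact this
  · have := hcase Real.sin 0 Real.continuous_sin abs_sin_sub fun g => by
      have e1 := (h1 b hb m K hK hKm (rot L g f) (rot_asy hf g) (rot_SW hfs g)).2
      rw [sub_zero]
      exact e1.trans (mul_le_mul_of_nonneg_left (hN1r g) hC1.le)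
    rw [hX, sub_zero] at this
    exact this

end

end Pool.Agent.W793.YM
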