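import Mathlib
open MeasureTheory Filter Topology
open scoped Pointwise
namespace Pool.Agent.W793.YM
noncomputable section
variable {d : ℕ}

/-- Riemann sum -/
def RS (q : ℕ) (g : (Fin d → ℝ) → ℝ) : ℝ := (∑' x : Fin d → ℤ, g fun i => (x i : ℝ) / q) / (q : ℝ) ^ d

lemma RS_tendsto {g : (Fin d → ℝ) → ℝ} (hg : Continuous g) (hc : HasCompactSupport g) :
    Tendsto (fun q : ℕ => RS q g) atTop (𝓝 (∫ x, g x)) := by
  obtain ⟨ρ, hρ⟩ : ∃ ρ : ℝ, ∀ x, g x ≠ 0 → ∀ i, -ρ ≤ x i ∧ x i ≤ ρ := by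
    obtain ⟨ρ, hρ⟩ := hc.isCompact.isBounded.exists_norm_le
    refine ⟨ρ, fun x hx i => ?_⟩
    have h1 := (norm_le_pi_norm x i).trans (hρ x (subset_tsupport g hx))
    rw [Real.norm_eq_abs, abs_le] at h1
    exact h1
  obtain ⟨s, hs⟩ : ∃ s : Set (Fin d → ℝ), s = Set.Icc (fun _ => -ρ) (fun _ => ρ) := ⟨_, rfl⟩
  have hgs : ∀ x, x ∉ s → g x = 0 := by
    intro x hx
    by_contra hc
    apply hx
    rw [hs]
    exact ⟨fun i => (hρ x hc i).1, fun i => (hρ x hc i).2⟩
  have h1 := tendsto_tsum_div_pow_atTop_integral s g hg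
    (by rw [hs]; exact Metric.isBounded_Icc _ _) (by rw [hs]; exact measurableSet_Icc)
    (by rw [hs]; exact (convex_Icc _ _).addHaar_frontier volume)
  have h2 : ∫ x in s, g x = ∫ x, g x :=
    setIntegral_eq_integral_of_forall_compl_eq_zero hgs
  rw [h2] at h1
  refine h1.congr' ?_
  filter_upwards [eventually_ge_atTop 1] with q hq
  haveI : NeZero q := ⟨by omega⟩
  have hq0 : (q : ℝ) ≠ 0 := by positivity
  unfold RS
  rw [Fintype.card_fin]
  congr 1
  obtain ⟨Φ, hΦ⟩ : ∃ Φ : (Fin d → ℤ) → (Fin d → ℝ), Φ = fun x i => (x i : ℝ) / q := ⟨_, rfl⟩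
  have hinj : Function.Injective Φ := by
    intro x y hxy
    funext i
    have h3 := congrFun hxy i
    rw [hΦ] at h3
    simp only at h3
    rw [div_left_inj' hq0] at h3
    exact_mod_cast h3
  have key : ∀ v : Fin d → ℝ, v ∈ ((q : ℝ)⁻¹ • (Submodule.span ℤ (Set.range
      (Pi.basisFun ℝ (Fin d))) : Set (Fin d → ℝ))) ↔
      ∀ i, (q : ℝ) * v i ∈ Set.range (algebraMap ℤ ℝ) := by
    intro v
    rw [← Submodule.coe_pointwise_smul, SetLike.mem_coe]
    exact BoxIntegral.unitPartition.mem_smul_span_iff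
  rw [tsum_subtype (s ∩ ((q : ℝ)⁻¹ • (Submodule.span ℤ (Set.range (Pi.basisFun ℝ (Fin d))) :
    Set (Fin d → ℝ)))) g, ← hinj.tsum_eq]
  · refine tsum_congr fun x => ?_
    have h4 : Φ x ∈ ((q : ℝ)⁻¹ • (Submodule.span ℤ (Set.range (Pi.basisFun ℝ (Fin d))) :
        Set (Fin d → ℝ))) := by
      rw [key]
      intro i
      refine ⟨x i, ?_⟩
      rw [hΦ]
      simp only [algebraMap_int_eq, eq_intCast]
      field_simp
    by_cases h5 : Φ x ∈ s
    · rw [Set.indicator_of_mem (Set.mem_inter h5 h4), hΦ]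
    · rw [Set.indicator_of_notMem (fun h => h5 h.1)]
      rw [hΦ] at h5
      exact (hgs _ h5).symm
  · intro y hy
    have h6 : y ∈ s ∩ ((q : ℝ)⁻¹ • (Submodule.span ℤ (Set.range (Pi.basisFun ℝ (Fin d))) :
        Set (Fin d → ℝ))) := by
      by_contra hc
      exact hy (Set.indicator_of_notMem hc _)
    have h7 := (key y).1 h6.2
    choose z hz using h7
    refine ⟨z, ?_⟩
    funext i
    rw [hΦ]
    simp only
    have := hz i
    simp only [algebraMap_int_eq, eq_intCast] at this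
    rw [this]
    field_simp

end

end Pool.Agent.W793.YM
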