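import Mathlib

/-!
# One dimensional interpolation kernels
-/

open MeasureTheory Filter Topology
open scoped ContDiff

namespace Pool.Agent.W793.YM

noncomputable section

/-- a smooth step -/
structure Step (F : ℝ → ℝ) : Prop where
  smooth : ContDiff ℝ ∞ F
  mono : Monotone F
  zero : ∀ t, t ≤ -1 → F t = 0
  one : ∀ t, 1 ≤ t → F t = 1

/-- the bump attached to a step -/
def bp (F : ℝ → ℝ) (t : ℝ) : ℝ := F (t + 1) - F t

/-- kernels -/
structure Gk (w : ℝ → ℝ) : Prop where
  smooth : ContDiff ℝ ∞ w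
  nonneg : ∀ t, 0 ≤ w t
  supp : ∀ t, w t ≠ 0 → -2 ≤ t ∧ t ≤ 2
  sum_le : ∀ (A : ℕ) (t : ℝ), ∑ n ∈ Finset.range A, w (t - n) ≤ 1
  int : ∫ t, w t = 1

lemma Step.ge0 {F : ℝ → ℝ} (h : Step F) (t : ℝ) : 0 ≤ F t := by
  have h1 := h.zero (min t (-1)) (min_le_right _ _)
  rw [← h1]
  exact h.mono (min_le_left _ _)

lemma Step.le1 {F : ℝ → ℝ} (h : Step F) (t : ℝ) : F t ≤ 1 := by
  have h1 := h.one (max t 1) (le_max_right _ _)
  rw [← h1]
  exact h.mono (le_max_left _ _)

lemma Step.gk {F : ℝ → ℝ} (h : Step F) : Gk (bp F) := by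
  have hs : ContDiff ℝ ∞ (bp F) :=
    (h.smooth.comp (contDiff_id.add contDiff_const)).sub h.smooth
  have hsupp : ∀ t, bp F t ≠ 0 → -2 ≤ t ∧ t ≤ 2 := by
    intro t ht
    unfold bp at ht
    constructor
    · by_contra hc
      push Not at hc
      apply ht
      rw [h.zero _ (by linarith), h.zero _ (by linarith), sub_zero]
    · by_contra hc
      push Not at hc
      apply ht
      rw [h.one _ (by linarith), h.one _ (by linarith), sub_self]
  refine ⟨hs, fun t => sub_nonneg.2 (h.mono (by linarith)), hsupp, fun A t => ?_, ?_⟩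
  · have h1 : ∀ A : ℕ, ∑ n ∈ Finset.range A, bp F (t - n) = F (t + 1) - F (t + 1 - A) := by
      intro A
      induction A with
      | zero => simp
      | succ A ih =>
        rw [Finset.sum_range_succ, ih]
        unfold bp
        have e1 : t - (A : ℝ) + 1 = t + 1 - A := by ring
        have e2 : t - (A : ℝ) = t + 1 - ((A + 1 : ℕ) : ℝ) := by push_cast; ring
        rw [e1, e2]; ring
    rw [h1]
    linarith [h.ge0 (t + 1 - A), h.le1 (t + 1)]
  · have hF := h.smooth.continuous
    have h1 : ∫ t, bp F t = ∫ t in (-2 : ℝ)..2, bp F t := by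
      rw [intervalIntegral.integral_of_le (by norm_num)]
      refine (setIntegral_eq_integral_of_ae_compl_eq_zero ?_).symm
      have h0 : ∀ᵐ t : ℝ ∂volume, t ≠ -2 := by
        simp [ae_iff]
      filter_upwards [h0] with t ht hn
      by_contra hc
      have h2 := hsupp t hc
      apply hn
      exact ⟨lt_of_le_of_ne h2.1 (Ne.symm ht), h2.2⟩
    have i1 : ∀ a b, IntervalIntegrable F volume a b := fun a b => hF.intervalIntegrable _ _
    have h2 : ∫ t in (-2 : ℝ)..2, bp F t = (∫ t in (-1 : ℝ)..3, F t) - ∫ t in (-2 : ℝ)..2, F t := by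
      unfold bp
      have i2 : IntervalIntegrable (fun t => F (t + 1)) volume (-2) 2 :=
        (hF.comp (continuous_id.add continuous_const)).intervalIntegrable _ _
      rw [intervalIntegral.integral_sub i2 (i1 _ _)]
      congr 1
      have := intervalIntegral.integral_comp_add_right (a := -2) (b := 2) F 1
      rw [this]
      norm_num
    have h3 : (∫ t in (-1 : ℝ)..3, F t) = (∫ t in (-1 : ℝ)..2, F t) + ∫ t in (2 : ℝ)..3, F t :=
      (intervalIntegral.integral_add_adjacent_intervals (i1 _ _) (i1 _ _)).symm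
    have h4 : (∫ t in (-2 : ℝ)..2, F t) = (∫ t in (-2 : ℝ)..(-1), F t) + ∫ t in (-1 : ℝ)..2, F t :=
      (intervalIntegral.integral_add_adjacent_intervals (i1 _ _) (i1 _ _)).symm
    have h5 : ∫ t in (2 : ℝ)..3, F t = 1 := by
      have : ∫ t in (2 : ℝ)..3, F t = ∫ t in (2 : ℝ)..3, (1 : ℝ) := by
        refine intervalIntegral.integral_congr fun t ht => ?_
        rw [Set.uIcc_of_le (by norm_num)] at ht
        exact h.one t (by linarith [ht.1])
      rw [this]
      simp
      norm_num
    have h6 : ∫ t in (-2 : ℝ)..(-1), F t = 0 := by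
      have : ∫ t in (-2 : ℝ)..(-1), F t = ∫ t in (-2 : ℝ)..(-1), (0 : ℝ) := by
        refine intervalIntegral.integral_congr fun t ht => ?_
        rw [Set.uIcc_of_le (by norm_num)] at ht
        exact h.zero t (by linarith [ht.2])
      rw [this]
      simp
    rw [h1, h2, h3, h4, h5, h6]
    ring

/-- the first step -/
def S0 : ℝ → ℝ := Real.smoothTransition

lemma S0_step : Step S0 where
  smooth := Real.smoothTransition.contDiff
  mono := Real.smoothTransition.monotone
  zero t ht := Real.smoothTransition.zero_of_nonpos (by linarith)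
  one t ht := Real.smoothTransition.one_of_one_le ht

/-- the second step -/
def S1' (t : ℝ) : ℝ := ∫ s in t..(t + 1), S0 s

lemma S1'_eq (t : ℝ) : S1' t = (∫ s in (0 : ℝ)..(t + 1), S0 s) - ∫ s in (0 : ℝ)..t, S0 s := by
  have hF := S0_step.smooth.continuous
  unfold S1'
  rw [intervalIntegral.integral_interval_sub_left (hF.intervalIntegrable _ _)
    (hF.intervalIntegrable _ _)]

lemma S1'_deriv (t : ℝ) : HasDerivAt S1' (bp S0 t) t := by
  have hF := S0_step.smooth.continuous
  have h1 : ∀ u, HasDerivAt (fun u => ∫ s in (0 : ℝ)..u, S0 s) (S0 u) u := fun u =>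
    intervalIntegral.integral_hasDerivAt_right (hF.intervalIntegrable _ _)
      (hF.stronglyMeasurableAtFilter _ _) hF.continuousAt
  have h2 : HasDerivAt (fun u => ∫ s in (0 : ℝ)..(u + 1), S0 s) (S0 (t + 1)) t := by
    have := (h1 (t + 1)).comp_add_const t 1
    exact this
  have h3 := h2.sub (h1 t)
  have h4 : S1' = fun u => (∫ s in (0 : ℝ)..(u + 1), S0 s) - ∫ s in (0 : ℝ)..u, S0 s :=
    funext S1'_eq
  rw [h4]
  exact h3

lemma S1'_step : Step S1' where
  smooth := by
    have h0 : deriv S1' = bp S0 := funext fun t => (S1'_deriv t).deriv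
    rw [contDiff_infty_iff_deriv]
    refine ⟨fun t => (S1'_deriv t).differentiableAt, ?_⟩
    rw [h0]
    exact S0_step.gk.smooth
  mono := by
    refine monotone_of_deriv_nonneg (fun t => (S1'_deriv t).differentiableAt) fun t => ?_
    rw [(S1'_deriv t).deriv]
    exact S0_step.gk.nonneg t
  zero t ht := by
    unfold S1'
    have : ∫ s in t..(t + 1), S0 s = ∫ s in t..(t + 1), (0 : ℝ) := by
      refine intervalIntegral.integral_congr fun s hs => ?_
      rw [Set.uIcc_of_le (by linarith)] at hs
      exact Real.smoothTransition.zero_of_nonpos (by linarith [hs.2])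
    rw [this]
    simp
  one t ht := by
    unfold S1'
    have : ∫ s in t..(t + 1), S0 s = ∫ s in t..(t + 1), (1 : ℝ) := by
      refine intervalIntegral.integral_congr fun s hs => ?_
      rw [Set.uIcc_of_le (by linarith)] at hs
      exact Real.smoothTransition.one_of_one_le (by linarith [hs.1])
    rw [this]
    simp

/-- the narrow kernel -/
def k1 : ℝ → ℝ := bp S0

/-- the wide kernel -/
def k2 : ℝ → ℝ := bp S1'

lemma k1_gk : Gk k1 := S0_step.gk

lemma k2_gk : Gk k2 := S1'_step.gk

lemma k2_deriv (t : ℝ) : HasDerivAt k2 (k1 (t + 1) - k1 t) t := by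
  have h1 := (S1'_deriv (t + 1)).comp_add_const t 1
  exact h1.sub (S1'_deriv t)

end

end Pool.Agent.W793.YM
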