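import Mathlib
import Pool.Agent.W793.YM.Lat
import Pool.Agent.W793.YM.Ker

/-!
# Interpolation of lattice forms
-/

open MeasureTheory Filter Topology
open scoped ContDiff
open Pool.Agent.H906R3.YM

namespace Pool.Agent.W793.YM

set_option linter.unusedSectionVars false
set_option linter.unusedVariables false

noncomputable section

/-- partial derivatives -/
def pd {d : ℕ} (j : Fin d) (f : (Fin d → ℝ) → ℝ) (x : Fin d → ℝ) : ℝ :=
  fderiv ℝ f x (Pi.single j 1)

variable {d l : ℕ} [NeZero l]

/-- the product kernel at a site -/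
def kr (w : Fin d → ℝ → ℝ) (q c : ℝ) (y : St d l) (x : Fin d → ℝ) : ℝ :=
  ∏ i, w i (q * x i + c - wv y i)

/-- the interpolation of a function on the lattice -/
def itp (w : Fin d → ℝ → ℝ) (q c : ℝ) (b : St d l → ℝ) (x : Fin d → ℝ) : ℝ :=
  ∑ y, b y * kr w q c y x

/-- the position of a site -/
def pos (q c : ℝ) (y : St d l) : Fin d → ℝ := fun i => ((wv y i : ℝ) - c) / q

lemma kr_smooth {w : Fin d → ℝ → ℝ} (hw : ∀ i, ContDiff ℝ ∞ (w i)) (q c : ℝ) (y : St d l) :
    ContDiff ℝ ∞ (kr w q c y) := by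
  unfold kr
  refine contDiff_prod fun i _ => ?_
  exact (hw i).comp (((contDiff_const.mul (contDiff_apply ℝ ℝ i)).add contDiff_const).sub
    contDiff_const)

lemma itp_smooth {w : Fin d → ℝ → ℝ} (hw : ∀ i, ContDiff ℝ ∞ (w i)) (q c : ℝ)
    (b : St d l → ℝ) : ContDiff ℝ ∞ (itp w q c b) := by
  unfold itp
  exact ContDiff.sum fun y _ => contDiff_const.mul (kr_smooth hw q c y)

lemma kr_nonneg {w : Fin d → ℝ → ℝ} (hw : ∀ i, Gk (w i)) (q c : ℝ) (y : St d l)
    (x : Fin d → ℝ) : 0 ≤ kr w q c y x :=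
  Finset.prod_nonneg fun i _ => (hw i).nonneg _

lemma kr_supp {w : Fin d → ℝ → ℝ} (hw : ∀ i, Gk (w i)) {q c : ℝ} (hq : 0 < q) {y : St d l}
    {x : Fin d → ℝ} (h : kr w q c y x ≠ 0) (i : Fin d) : |x i - pos q c y i| ≤ 2 / q := by
  unfold kr at h
  have h1 := (Finset.prod_ne_zero_iff.1 h) i (Finset.mem_univ i)
  have h2 := (hw i).supp _ h1
  unfold pos
  have h3 : x i - ((wv y i : ℝ) - c) / q = (q * x i + c - wv y i) / q := by
    field_simp; ring
  rw [h3, abs_div, abs_of_pos hq]
  exact div_le_div_of_nonneg_right (abs_le.2 h2) hq.le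

lemma kr_cs {w : Fin d → ℝ → ℝ} (hw : ∀ i, Gk (w i)) {q c : ℝ} (hq : 0 < q) (y : St d l) :
    HasCompactSupport (kr w q c y) := by
  refine HasCompactSupport.intro
    (K := Set.Icc (fun i => pos q c y i - 2 / q) (fun i => pos q c y i + 2 / q)) isCompact_Icc
    fun x hx => ?_
  by_contra hc
  apply hx
  have h1 := kr_supp hw hq hc
  constructor
  · intro i
    have := (abs_le.1 (h1 i)).1
    simp only
    linarith
  · intro i
    have := (abs_le.1 (h1 i)).2
    simp only
    linarith

lemma kr_integrable {w : Fin d → ℝ → ℝ} (hw : ∀ i, Gk (w i)) {q c : ℝ} (hq : 0 < q)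
    (y : St d l) : Integrable (kr w q c y) :=
  (kr_smooth (fun i => (hw i).smooth) q c y).continuous.integrable_of_hasCompactSupport
    (kr_cs hw hq y)

lemma itp_cs {w : Fin d → ℝ → ℝ} (hw : ∀ i, Gk (w i)) {q c : ℝ} (hq : 0 < q)
    (b : St d l → ℝ) : HasCompactSupport (itp w q c b) := by
  refine HasCompactSupport.intro
    (K := ⋃ y : St d l, tsupport (kr w q c y)) (isCompact_iUnion fun y => kr_cs hw hq y)
    fun x hx => ?_
  unfold itp
  refine Finset.sum_eq_zero fun y _ => ?_
  have h1 : x ∉ tsupport (kr w q c y) := fun h => hx (Set.mem_iUnion.2 ⟨y, h⟩)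
  rw [image_eq_zero_of_notMem_tsupport h1, mul_zero]

lemma kr_int {w : Fin d → ℝ → ℝ} (hw : ∀ i, Gk (w i)) {q c : ℝ} (hq : 0 < q) (y : St d l) :
    ∫ x, kr w q c y x = 1 / q ^ d := by
  unfold kr
  rw [integral_fintype_prod_volume_eq_prod (fun i t => w i (q * t + c - wv y i))]
  have h1 : ∀ i, ∫ t : ℝ, w i (q * t + c - wv y i) = 1 / q := by
    intro i
    have h2 : (fun t : ℝ => w i (q * t + c - wv y i)) =
        fun t => (fun s => w i (s + (c - wv y i))) (q * t) := by
      funext t
      simp only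
      rw [add_sub_assoc]
    rw [h2, Measure.integral_comp_mul_left (fun s => w i (s + (c - wv y i))) q,
      integral_add_right_eq_self (w i), (hw i).int, abs_of_pos (inv_pos.2 hq)]
    simp
  rw [Finset.prod_congr rfl fun i _ => h1 i, Finset.prod_const, Finset.card_univ,
    Fintype.card_fin, div_pow, one_pow]

lemma kr_sum_le {w : Fin d → ℝ → ℝ} (hw : ∀ i, Gk (w i)) (q c : ℝ) (x : Fin d → ℝ) :
    ∑ y : St d l, kr w q c y x ≤ 1 := by
  have h1 : ∑ y : St d l, kr w q c y x = ∏ i, ∑ s : ZMod l, w i (q * x i + c - s.val) := by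
    unfold kr wv
    rw [Finset.prod_univ_sum, Fintype.piFinset_univ]
  rw [h1]
  refine Finset.prod_le_one (fun i _ => Finset.sum_nonneg fun s _ => (hw i).nonneg _)
    fun i _ => ?_
  have h2 : ∑ s : ZMod l, w i (q * x i + c - s.val) =
      ∑ n ∈ Finset.range l, w i (q * x i + c - n) := by
    refine Finset.sum_bij' (fun t _ => t.val) (fun j _ => (j : ZMod l)) (fun t _ => ?_)
      (fun j _ => Finset.mem_univ _) (fun t _ => ?_) (fun j hj => ?_) (fun t _ => ?_)
    · exact Finset.mem_range.2 (ZMod.val_lt t)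
    · exact ZMod.natCast_zmod_val t
    · exact ZMod.val_natCast_of_lt (Finset.mem_range.1 hj)
    · rfl
  rw [h2]
  exact (hw i).sum_le l _

/-- the interpolation is a contraction -/
lemma itp_sq {w : Fin d → ℝ → ℝ} (hw : ∀ i, Gk (w i)) {q c : ℝ} (hq : 0 < q)
    (b : St d l → ℝ) : ∫ x, itp w q c b x * itp w q c b x ≤ ip2 b b / q ^ d := by
  have hpt : ∀ x, itp w q c b x * itp w q c b x ≤ ∑ y, b y * b y * kr w q c y x := by
    intro x
    unfold itp
    have h1 := Finset.sum_mul_sq_le_sq_mul_sq Finset.univ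
      (fun y : St d l => b y * Real.sqrt (kr w q c y x)) (fun y => Real.sqrt (kr w q c y x))
    have e1 : ∀ y : St d l, b y * Real.sqrt (kr w q c y x) * Real.sqrt (kr w q c y x) =
        b y * kr w q c y x := fun y => by
      rw [mul_assoc, Real.mul_self_sqrt (kr_nonneg hw q c y x)]
    have e2 : ∀ y : St d l, (b y * Real.sqrt (kr w q c y x)) ^ 2 = b y * b y * kr w q c y x :=
      fun y => by rw [mul_pow, Real.sq_sqrt (kr_nonneg hw q c y x)]; ring
    have e3 : ∀ y : St d l, Real.sqrt (kr w q c y x) ^ 2 = kr w q c y x :=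
      fun y => Real.sq_sqrt (kr_nonneg hw q c y x)
    simp only [e1, e2, e3] at h1
    have h2 : 0 ≤ ∑ y, b y * b y * kr w q c y x :=
      Finset.sum_nonneg fun y _ => mul_nonneg (mul_self_nonneg _) (kr_nonneg hw q c y x)
    rw [← pow_two]
    exact h1.trans (mul_le_of_le_one_right h2 (kr_sum_le hw q c x))
  have hi : ∀ y : St d l, Integrable fun x => b y * b y * kr w q c y x := fun y =>
    (kr_integrable hw hq y).const_mul _
  have hic : Continuous (itp w q c b) := (itp_smooth (fun i => (hw i).smooth) q c b).continuous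
  have hi2 : Integrable fun x => itp w q c b x * itp w q c b x :=
    (hic.mul hic).integrable_of_hasCompactSupport ((itp_cs hw hq b).mul_right)
  calc ∫ x, itp w q c b x * itp w q c b x ≤ ∫ x, ∑ y, b y * b y * kr w q c y x :=
        integral_mono hi2 (integrable_finset_sum _ fun y _ => hi y) hpt
    _ = ∑ y, b y * b y * (1 / q ^ d) := by
        rw [integral_finset_sum _ fun y _ => hi y]
        refine Finset.sum_congr rfl fun y _ => ?_
        rw [integral_const_mul, kr_int hw hq]
    _ = _ := by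
        unfold ip2
        rw [← Finset.sum_mul]; ring

/-- pairing with a function -/
lemma itp_pair {w : Fin d → ℝ → ℝ} (hw : ∀ i, Gk (w i)) {q c : ℝ} (hq : 0 < q)
    {φ η : (Fin d → ℝ) → ℝ} (hφ : Continuous φ) (hφc : HasCompactSupport φ) {ε : ℝ}
    (hε : ∀ x x', (∀ i, |x i - x' i| ≤ 2 / q) → |φ x - φ x'| ≤ ε * η x')
    (b : St d l → ℝ) :
    |(∫ x, φ x * itp w q c b x) - (∑ y, b y * φ (pos q c y)) / q ^ d| ≤
      (∑ y, |b y| * (ε * η (pos q c y))) / q ^ d := by
  have hkc : ∀ y : St d l, Continuous (kr w q c y) := fun y =>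
    (kr_smooth (fun i => (hw i).smooth) q c y).continuous
  have hi : ∀ y : St d l, Integrable fun x => φ x * kr w q c y x := fun y =>
    (hφ.mul (hkc y)).integrable_of_hasCompactSupport hφc.mul_right
  have h1 : ∫ x, φ x * itp w q c b x = ∑ y, b y * ∫ x, φ x * kr w q c y x := by
    unfold itp
    have e1 : ∀ x, φ x * ∑ y, b y * kr w q c y x = ∑ y, b y * (φ x * kr w q c y x) := by
      intro x
      rw [Finset.mul_sum]
      exact Finset.sum_congr rfl fun y _ => by ring
    simp only [e1]
    rw [integral_finset_sum _ fun y _ => (hi y).const_mul _]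
    exact Finset.sum_congr rfl fun y _ => integral_const_mul _ _
  have h2 : ∀ y : St d l, |(∫ x, φ x * kr w q c y x) - φ (pos q c y) / q ^ d| ≤
      ε * η (pos q c y) / q ^ d := by
    intro y
    have e1 : φ (pos q c y) / q ^ d = ∫ x, φ (pos q c y) * kr w q c y x := by
      rw [integral_const_mul, kr_int hw hq]; ring
    have e2 : ε * η (pos q c y) / q ^ d = ∫ x, ε * η (pos q c y) * kr w q c y x := by
      rw [integral_const_mul, kr_int hw hq]; ring
    have i1 := (kr_integrable (c := c) hw hq y).const_mul (φ (pos q c y))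
    have i2 := (kr_integrable (c := c) hw hq y).const_mul (ε * η (pos q c y))
    rw [e1, e2, ← integral_sub (hi y) i1]
    refine (abs_integral_le_integral_abs).trans (integral_mono ((hi y).sub i1).abs i2 fun x => ?_)
    simp only
    rw [← sub_mul, abs_mul, abs_of_nonneg (kr_nonneg hw q c y x)]
    by_cases h0 : kr w q c y x = 0
    · rw [h0, mul_zero, mul_zero]
    · exact mul_le_mul_of_nonneg_right (hε _ _ (kr_supp hw hq h0)) (kr_nonneg hw q c y x)
  rw [h1, Finset.sum_div, ← Finset.sum_sub_distrib, Finset.sum_div]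
  refine (Finset.abs_sum_le_sum_abs _ _).trans (Finset.sum_le_sum fun y _ => ?_)
  rw [mul_div_assoc, ← mul_sub, abs_mul, mul_div_assoc]
  exact mul_le_mul_of_nonneg_left (h2 y) (abs_nonneg _)

/-! ### derivatives -/

lemma kr_pd {w : Fin d → ℝ → ℝ} (hw : ∀ i, ContDiff ℝ ∞ (w i)) {q c : ℝ} (y : St d l)
    (j : Fin d) {w' : ℝ → ℝ} (hj : ∀ t, HasDerivAt (w j) (w' t) t) (x : Fin d → ℝ) :
    pd j (kr w q c y) x = q * kr (Function.update w j w') q c y x := by
  have h1 : DifferentiableAt ℝ (kr w q c y) x :=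
    ((kr_smooth hw q c y).differentiable (by simp)) x
  unfold pd
  rw [← h1.lineDeriv_eq_fderiv]
  unfold lineDeriv
  have h2 : (fun t : ℝ => kr w q c y (x + t • Pi.single j 1)) = fun t =>
      (∏ i ∈ Finset.univ.erase j, w i (q * x i + c - wv y i)) *
        w j (q * (x j + t) + c - wv y j) := by
    funext t
    unfold kr
    rw [← Finset.mul_prod_erase Finset.univ _ (Finset.mem_univ j), mul_comm]
    congr 1
    · refine Finset.prod_congr rfl fun i hi => ?_
      have : i ≠ j := (Finset.mem_erase.1 hi).1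
      simp [this]
    · simp
  rw [h2]
  have h3 : HasDerivAt (fun t : ℝ => q * (x j + t) + c - wv y j) q 0 := by
    have := (((hasDerivAt_id (0 : ℝ)).const_add (x j)).const_mul q).add_const c
    have := this.sub_const (wv y j : ℝ)
    simpa using this
  have h4 : HasDerivAt (fun t : ℝ => w j (q * (x j + t) + c - wv y j))
      (w' (q * (x j + 0) + c - wv y j) * q) 0 := by
    have := (hj (q * (x j + 0) + c - wv y j)).comp (0 : ℝ) h3
    exact this
  rw [(h4.const_mul _).deriv]
  unfold kr
  rw [← Finset.mul_prod_erase Finset.univ _ (Finset.mem_univ j), Function.update_self, add_zero]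
  have h5 : ∏ i ∈ Finset.univ.erase j, Function.update w j w' i (q * x i + c - wv y i) =
      ∏ i ∈ Finset.univ.erase j, w i (q * x i + c - wv y i) := by
    refine Finset.prod_congr rfl fun i hi => ?_
    rw [Function.update_of_ne (Finset.mem_erase.1 hi).1]
  rw [h5]; ring

lemma itp_pd {w : Fin d → ℝ → ℝ} (hw : ∀ i, ContDiff ℝ ∞ (w i)) {q c : ℝ} (b : St d l → ℝ)
    (j : Fin d) {w' : ℝ → ℝ} (hj : ∀ t, HasDerivAt (w j) (w' t) t) (x : Fin d → ℝ) :
    pd j (itp w q c b) x = q * itp (Function.update w j w') q c b x := by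
  have h1 : HasFDerivAt (itp w q c b) (∑ y, b y • fderiv ℝ (kr w q c y) x) x := by
    unfold itp
    refine HasFDerivAt.fun_sum fun y _ => ?_
    exact (((kr_smooth hw q c y).differentiable (by simp)) x).hasFDerivAt.const_mul (b y)
  unfold pd
  rw [h1.fderiv, ContinuousLinearMap.sum_apply]
  unfold itp
  rw [Finset.mul_sum]
  refine Finset.sum_congr rfl fun y _ => ?_
  rw [ContinuousLinearMap.smul_apply, smul_eq_mul]
  have := kr_pd hw (q := q) (c := c) y j hj x
  unfold pd at this
  rw [this]; ring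

lemma itp_sub (w : Fin d → ℝ → ℝ) (q c : ℝ) (a b : St d l → ℝ) (x : Fin d → ℝ) :
    itp w q c (a - b) x = itp w q c a x - itp w q c b x := by
  unfold itp
  rw [← Finset.sum_sub_distrib]
  exact Finset.sum_congr rfl fun y _ => by rw [Pi.sub_apply, sub_mul]

lemma itp_smul (w : Fin d → ℝ → ℝ) (q c t : ℝ) (a : St d l → ℝ) (x : Fin d → ℝ) :
    itp w q c (t • a) x = t * itp w q c a x := by
  unfold itp
  rw [Finset.mul_sum]
  exact Finset.sum_congr rfl fun y _ => by rw [Pi.smul_apply, smul_eq_mul, mul_assoc]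

lemma itp_shift (w : Fin d → ℝ → ℝ) (q c : ℝ) {b : St d l → ℝ} {lo hi : ℕ} (hb : SW lo hi b)
    (hlo : 1 ≤ lo) (j : Fin d) (w' : ℝ → ℝ) (x : Fin d → ℝ) :
    itp (Function.update w j fun t => w' (t + 1)) q c b x =
      itp (Function.update w j w') q c (fun y => b (y + eT j)) x := by
  unfold itp
  rw [← sum_shift (eT j) fun y => b y * kr (Function.update w j fun t => w' (t + 1)) q c y x]
  refine Finset.sum_congr rfl fun y _ => ?_
  by_cases h0 : b (y + eT j) = 0
  · simp only [h0, zero_mul]
  · congr 1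
    have h1 := hb _ h0 j
    have h2 := wv_pred (x := y) (k := j) (hlo.trans h1.1)
    have h3 := wv_add (x := y) (k := j) h2
    unfold kr
    refine Finset.prod_congr rfl fun i _ => ?_
    rw [h3]
    by_cases hi : i = j
    · subst hi
      rw [Function.update_self, Function.update_self]
      congr 1
      simp only [Pi.add_apply, es_same]
      push_cast
      ring
    · rw [Function.update_of_ne hi, Function.update_of_ne hi]
      simp only [Pi.add_apply, es_ne hi, add_zero]

/-- the kernels of one forms -/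
def w1 (k : Fin d) : Fin d → ℝ → ℝ := fun i => if i = k then k1 else k2

/-- the kernels of two forms -/
def w2 (j k : Fin d) : Fin d → ℝ → ℝ := fun i => if i = j ∨ i = k then k1 else k2

lemma w1_gk (k i : Fin d) : Gk (w1 k i) := by
  unfold w1; split_ifs
  · exact k1_gk
  · exact k2_gk

lemma w2_gk (j k i : Fin d) : Gk (w2 j k i) := by
  unfold w2; split_ifs
  · exact k1_gk
  · exact k2_gk

lemma w2_comm (j k : Fin d) : w2 j k = w2 k j := by
  funext i
  unfold w2
  simp only [or_comm]

lemma itp1_pd {q c : ℝ} {b : St d l → ℝ} {lo hi : ℕ} (hb : SW lo hi b) (hlo : 1 ≤ lo)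
    {j k : Fin d} (hjk : j ≠ k) (x : Fin d → ℝ) :
    pd j (itp (w1 k) q c b) x = q * itp (w2 j k) q c (Dp j b) x := by
  have h0 : w1 k j = k2 := by unfold w1; rw [if_neg hjk]
  have h1 : ∀ t, HasDerivAt (w1 k j) ((fun t => k1 (t + 1) - k1 t) t) t := by
    rw [h0]; exact k2_deriv
  rw [itp_pd (fun i => (w1_gk k i).smooth) b j h1 x]
  congr 1
  have h2 : Function.update (w1 k) j k1 = w2 j k := by
    funext i
    by_cases hi : i = j
    · subst hi
      rw [Function.update_self]
      unfold w2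
      rw [if_pos (Or.inl rfl)]
    · rw [Function.update_of_ne hi]
      unfold w1 w2
      simp only [hi, false_or]
  have h3 : itp (Function.update (w1 k) j fun t => k1 (t + 1) - k1 t) q c b x =
      itp (Function.update (w1 k) j fun t => k1 (t + 1)) q c b x -
        itp (Function.update (w1 k) j k1) q c b x := by
    unfold itp
    rw [← Finset.sum_sub_distrib]
    refine Finset.sum_congr rfl fun y _ => ?_
    rw [← mul_sub]
    congr 1
    unfold kr
    have e1 : ∀ v : ℝ → ℝ, ∏ i, Function.update (w1 k) j v i (q * x i + c - wv y i) =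
        v (q * x j + c - wv y j) *
          ∏ i ∈ Finset.univ.erase j, w1 k i (q * x i + c - wv y i) := by
      intro v
      rw [← Finset.mul_prod_erase Finset.univ _ (Finset.mem_univ j), Function.update_self]
      congr 1
      refine Finset.prod_congr rfl fun i hi => ?_
      rw [Function.update_of_ne (Finset.mem_erase.1 hi).1]
    rw [e1, e1, e1]
    ring
  rw [h3, itp_shift (w1 k) q c hb hlo j k1 x, h2, ← itp_sub]
  rfl

/-- the exterior derivative -/
def dd (α : Fin d → (Fin d → ℝ) → ℝ) : Fin d → Fin d → (Fin d → ℝ) → ℝ :=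
  fun j k x => pd j (α k) x - pd k (α j) x

lemma dd_itp {q c : ℝ} {a : Fin d → St d l → ℝ} {lo hi : ℕ} (ha : ∀ k, SW lo hi (a k))
    (hlo : 1 ≤ lo) (j k : Fin d) (x : Fin d → ℝ) :
    dd (fun k => itp (w1 k) q c (a k)) j k x = q * itp (w2 j k) q c (d1 a j k) x := by
  unfold dd
  by_cases hjk : j = k
  · subst hjk
    have h1 : d1 a j j = 0 := by unfold d1; exact sub_self _
    have h2 : itp (w2 j j) q c (0 : St d l → ℝ) x = 0 := by
      unfold itp
      exact Finset.sum_eq_zero fun y _ => by rw [Pi.zero_apply, zero_mul]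
    rw [h1, h2, sub_self, mul_zero]
  · rw [itp1_pd (ha k) hlo hjk, itp1_pd (ha j) hlo (Ne.symm hjk), w2_comm k j, ← mul_sub,
      ← itp_sub]
    rfl

end

end Pool.Agent.W793.YM
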