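import Mathlib
import Pool.Agent.W793.YM.Wh
import Pool.Agent.W793.YM.RS
import Pool.Agent.W793.YM.Rebase

/-!
# Sums over the torus of functions on the Euclidean space
-/

open MeasureTheory Filter Topology
open scoped ContDiff
open Pool.Agent.H906R3.YM

namespace Pool.Agent.W793.YM

set_option linter.unusedSectionVars false
set_option linter.unusedVariables false

noncomputable section

variable {d : ℕ}

/-- scaled sum over the torus -/
def TS (l : ℕ) [NeZero l] (q : ℕ) (c : ℕ) (g : (Fin d → ℝ) → ℝ) : ℝ :=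
  (∑ y : St d l, g (pos q c y)) / (q : ℝ) ^ d

lemma TS_mono {l q c : ℕ} [NeZero l] {g h : (Fin d → ℝ) → ℝ} (hgh : ∀ x, g x ≤ h x) :
    TS l q c g ≤ TS l q c h :=
  div_le_div_of_nonneg_right (Finset.sum_le_sum fun y _ => hgh _) (by positivity)

lemma TS_nonneg {l q c : ℕ} [NeZero l] {g : (Fin d → ℝ) → ℝ} (hg : ∀ x, 0 ≤ g x) :
    0 ≤ TS l q c g :=
  div_nonneg (Finset.sum_nonneg fun y _ => hg _) (by positivity)

lemma TS_sub {l q c : ℕ} [NeZero l] (g h : (Fin d → ℝ) → ℝ) :
    TS l q c (fun x => g x - h x) = TS l q c g - TS l q c h := by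
  unfold TS
  rw [Finset.sum_sub_distrib, sub_div]

lemma TS_smul {l q c : ℕ} [NeZero l] (t : ℝ) (g : (Fin d → ℝ) → ℝ) :
    TS l q c (fun x => t * g x) = t * TS l q c g := by
  unfold TS
  rw [← Finset.mul_sum, mul_div_assoc]

lemma TS_abs {l q c : ℕ} [NeZero l] (g : (Fin d → ℝ) → ℝ) :
    |TS l q c g| ≤ TS l q c fun x => |g x| := by
  unfold TS
  rw [abs_div, abs_of_nonneg (show (0 : ℝ) ≤ (q : ℝ) ^ d by positivity)]
  exact div_le_div_of_nonneg_right (Finset.abs_sum_le_sum_abs _ _) (by positivity)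

lemma TS_close {l q c : ℕ} [NeZero l] {g h e : (Fin d → ℝ) → ℝ}
    (hgh : ∀ x, |g x - h x| ≤ e x) : |TS l q c g - TS l q c h| ≤ TS l q c e := by
  rw [← TS_sub]
  exact (TS_abs _).trans (TS_mono hgh)

lemma TS_eq_RS {l q c r : ℕ} [NeZero l] (hq : 1 ≤ q) {g : (Fin d → ℝ) → ℝ}
    (hg : ∀ x, g x ≠ 0 → ‖x‖ ≤ r) (h1 : r * q ≤ c) (h2 : c + r * q < l) :
    TS l q c g = RS q g := by
  have hq0 : (0 : ℝ) < q := by exact_mod_cast hq
  unfold TS RS
  congr 1
  obtain ⟨e, he⟩ : ∃ e : St d l → Fin d → ℤ, e = fun y i => (wv y i : ℤ) - c := ⟨_, rfl⟩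
  have hinj : Function.Injective e := by
    intro y z hyz
    apply wv_inj
    funext i
    have h3 := congrFun hyz i
    rw [he] at h3
    simp only at h3
    omega
  rw [← hinj.tsum_eq, tsum_fintype]
  · refine Finset.sum_congr rfl fun y _ => ?_
    congr 1
    funext i
    rw [he]
    unfold pos
    push_cast
    rfl
  · intro x hx
    have h3 := hg _ hx
    rw [pi_norm_le_iff_of_nonneg (by positivity)] at h3
    have h4 : ∀ i, -((r * q : ℕ) : ℤ) ≤ x i ∧ x i ≤ ((r * q : ℕ) : ℤ) := by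
      intro i
      have h5 := h3 i
      rw [Real.norm_eq_abs, abs_div, abs_of_pos hq0, div_le_iff₀ hq0, abs_le] at h5
      have h6 : (-((r * q : ℕ) : ℤ) : ℝ) ≤ (x i : ℝ) := by push_cast; linarith [h5.1]
      have h7 : (x i : ℝ) ≤ (((r * q : ℕ) : ℤ) : ℝ) := by push_cast; linarith [h5.2]
      exact ⟨by exact_mod_cast h6, by exact_mod_cast h7⟩
    refine ⟨zt l fun i => x i + c, ?_⟩
    rw [he]
    funext i
    simp only
    have h8 : ∀ i, 0 ≤ (fun i => x i + (c : ℤ)) i ∧ (fun i => x i + (c : ℤ)) i < l := by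
      intro i
      have := h4 i
      simp only
      constructor <;> omega
    rw [wv_zt h8 i]
    simp

lemma pos_shift {l q c r : ℕ} [NeZero l] (hq : 1 ≤ q) {g : (Fin d → ℝ) → ℝ}
    (hg : ∀ x, g x ≠ 0 → ‖x‖ ≤ r) (h1 : r * q < c) (h2 : c + r * q < l) (y : St d l)
    (j : Fin d) : g (pos q c (y + eT j)) = g (pos q c y + Pi.single j (1 / (q : ℝ))) := by
  have hq0 : (0 : ℝ) < q := by exact_mod_cast hq
  by_cases h : wv y j + 1 < l
  · congr 1
    have h3 := wv_add (x := y) (k := j) h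
    funext i
    unfold pos
    rw [h3]
    by_cases hi : i = j
    · subst hi
      simp only [Pi.add_apply, es_same, Pi.single_eq_same]
      push_cast
      field_simp
      ring
    · simp only [Pi.add_apply, es_ne hi, Pi.single_eq_of_ne hi, add_zero]
  · have h3 : wv y j = l - 1 := by have := wv_lt y j; omega
    have h4 : wv (y + eT j) j = 0 := by
      by_contra hc
      exact h (wv_pred (Nat.one_le_iff_ne_zero.2 hc))
    have h5 : g (pos q c (y + eT j)) = 0 := by
      by_contra hc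
      have h6 := (norm_le_pi_norm _ j).trans (hg _ hc)
      unfold pos at h6
      rw [h4, Real.norm_eq_abs, abs_div, abs_of_pos hq0, div_le_iff₀ hq0] at h6
      simp only [Nat.cast_zero, zero_sub, abs_neg, Nat.abs_cast] at h6
      have h7 : c ≤ r * q := by exact_mod_cast h6
      omega
    have h6 : g (pos q c y + Pi.single j (1 / (q : ℝ))) = 0 := by
      by_contra hc
      have h6 := (norm_le_pi_norm _ j).trans (hg _ hc)
      simp only [Pi.add_apply, Pi.single_eq_same] at h6
      unfold pos at h6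
      have hl : 1 ≤ l := by omega
      have h7 : ((wv y j : ℝ) - c) / q + 1 / q = ((l : ℝ) - c) / q := by
        rw [h3]
        push_cast [hl]
        field_simp
        ring
      rw [h7, Real.norm_eq_abs, abs_div, abs_of_pos hq0, div_le_iff₀ hq0] at h6
      have h8 := (le_abs_self _).trans h6
      have h9 : (l : ℝ) ≤ ((c + r * q : ℕ) : ℝ) := by push_cast; linarith
      have h10 : l ≤ c + r * q := by exact_mod_cast h9
      omega
    rw [h5, h6]

/-- convergence of the sums -/
lemma TS_lim {g : (Fin d → ℝ) → ℝ} (hgc : Continuous g) {r : ℕ}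
    (hg : ∀ x, g x ≠ 0 → ‖x‖ ≤ r) {ε : ℝ} (hε : 0 < ε) : ∃ q₀ : ℕ, ∀ q : ℕ, q₀ ≤ q →
      ∀ (l c : ℕ) [NeZero l], r * q ≤ c → c + r * q < l → |TS l q c g - ∫ x, g x| ≤ ε := by
  have hcs : HasCompactSupport g := by
    refine HasCompactSupport.intro (K := Metric.closedBall 0 (r : ℝ)) (isCompact_closedBall _ _)
      fun x hx => ?_
    by_contra hc
    exact hx (by rw [mem_closedBall_zero_iff]; exact hg x hc)
  have h1 := RS_tendsto hgc hcs
  rw [Metric.tendsto_atTop] at h1
  obtain ⟨q₀, h2⟩ := h1 ε hε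
  refine ⟨max q₀ 1, fun q hq l c _ hc hl => ?_⟩
  rw [TS_eq_RS (by have := le_max_right q₀ 1; omega) hg hc hl]
  have := h2 q ((le_max_left _ _).trans hq)
  rw [Real.dist_eq] at this
  exact this.le

/-- difference quotients -/
def dl (h : ℝ) (j : Fin d) (g : (Fin d → ℝ) → ℝ) (x : Fin d → ℝ) : ℝ :=
  (g (x + Pi.single j h) - g x) / h

lemma pd_cont {g : (Fin d → ℝ) → ℝ} (hg : ContDiff ℝ ∞ g) (j : Fin d) :
    Continuous (pd j g) := by
  unfold pd
  exact (hg.continuous_fderiv (by simp)).clm_apply continuous_const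

lemma pd_smooth {g : (Fin d → ℝ) → ℝ} (hg : ContDiff ℝ ∞ g) (j : Fin d) :
    ContDiff ℝ ∞ (pd j g) := by
  unfold pd
  exact (hg.fderiv_right (m := ∞) (by simp)).clm_apply contDiff_const

lemma pd_supp {g : (Fin d → ℝ) → ℝ} {r : ℝ} (hg : ∀ x, g x ≠ 0 → ‖x‖ ≤ r) (j : Fin d)
    (x : Fin d → ℝ) (hx : pd j g x ≠ 0) : ‖x‖ ≤ r := by
  have h1 : x ∈ tsupport g := by
    by_contra hc
    apply hx
    unfold pd
    have h2 : fderiv ℝ g x = 0 := by
      have h3 : g =ᶠ[𝓝 x] 0 := notMem_tsupport_iff_eventuallyEq.1 hc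
      rw [h3.fderiv_eq]
      simp
    rw [h2]; rfl
  have h2 : tsupport g ⊆ Metric.closedBall 0 r :=
    closure_minimal (fun x hx => by rw [mem_closedBall_zero_iff]; exact hg x hx)
      Metric.isClosed_closedBall
  exact mem_closedBall_zero_iff.1 (h2 h1)

/-- uniform convergence of the difference quotients -/
lemma dl_lim {g : (Fin d → ℝ) → ℝ} (hg : ContDiff ℝ ∞ g) (hcs : HasCompactSupport g)
    (j : Fin d) {ε : ℝ} (hε : 0 < ε) : ∃ h₀ : ℝ, 0 < h₀ ∧ ∀ h, 0 < h → h ≤ h₀ → ∀ x,
      |dl h j g x - pd j g x| ≤ ε := by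
  have hpc := pd_cont hg j
  have hps : HasCompactSupport (pd j g) := by
    obtain ⟨r, hr⟩ := hcs.isCompact.isBounded.exists_norm_le
    refine HasCompactSupport.intro (K := Metric.closedBall 0 r) (isCompact_closedBall _ _)
      fun x hx => ?_
    by_contra hc
    exact hx (by
      rw [mem_closedBall_zero_iff]
      exact pd_supp (fun x hx => hr x (subset_tsupport g hx)) j x hc)
  have huc := hps.uniformContinuous_of_continuous hpc
  rw [Metric.uniformContinuous_iff] at huc
  obtain ⟨δ, hδ, h1⟩ := huc ε hε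
  refine ⟨δ / 2, by positivity, fun h hh hhδ x => ?_⟩
  have hd : ∀ t, HasDerivAt (fun t : ℝ => g (x + Pi.single j t))
      (pd j g (x + Pi.single j t)) t := by
    intro t
    have e1 : HasFDerivAt g (fderiv ℝ g (x + Pi.single j t)) (x + Pi.single j t) :=
      ((hg.differentiable (by simp)) _).hasFDerivAt
    have e2 : HasDerivAt (fun t : ℝ => x + Pi.single (M := fun _ : Fin d => ℝ) j t)
        (Pi.single j 1) t := by
      rw [hasDerivAt_pi]
      intro i
      by_cases hi : i = j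
      · subst hi
        simp only [Pi.add_apply, Pi.single_eq_same]
        exact (hasDerivAt_id t).const_add _
      · simp only [Pi.add_apply, Pi.single_eq_of_ne hi]
        exact hasDerivAt_const _ _
    exact e1.comp_hasDerivAt t e2
  obtain ⟨θ, hθ, h2⟩ := exists_deriv_eq_slope (fun t : ℝ => g (x + Pi.single j t)) hh
    (fun t _ => (hd t).continuousAt.continuousWithinAt)
    (fun t _ => (hd t).differentiableAt.differentiableWithinAt)
  rw [(hd θ).deriv] at h2
  simp only [sub_zero, Pi.single_zero, add_zero] at h2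
  have h3 : dl h j g x = pd j g (x + Pi.single j θ) := h2.symm
  rw [h3]
  have h4 : dist (x + Pi.single j θ) x < δ := by
    rw [dist_eq_norm, add_sub_cancel_left, Pi.norm_single, Real.norm_eq_abs,
      abs_of_pos hθ.1]
    linarith [hθ.2]
  have := h1 h4
  rw [Real.dist_eq] at this
  exact this.le

end

end Pool.Agent.W793.YM
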