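import Mathlib
import Pool.Agent.W793.YM.TSum

/-!
# The continuum limit of the variance
-/

open MeasureTheory Filter Topology
open scoped ContDiff
open Pool.Agent.H906R3.YM

namespace Pool.Agent.W793.YM

set_option linter.unusedSectionVars false
set_option linter.unusedVariables false

noncomputable section

variable {d : ℕ}

/-- scalar product of two forms -/
def pair (φ ψ : Fin d → Fin d → (Fin d → ℝ) → ℝ) : ℝ :=
  1 / 2 * ∑ j, ∑ k, ∫ x, φ j k x * ψ j k x

/-- smooth one forms with compact support -/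
structure IsOne (α : Fin d → (Fin d → ℝ) → ℝ) : Prop where
  smooth : ∀ k, ContDiff ℝ ∞ (α k)
  supp : ∀ k, HasCompactSupport (α k)

/-- smooth two forms with compact support -/
structure IsTwo (φ : Fin d → Fin d → (Fin d → ℝ) → ℝ) : Prop where
  smooth : ∀ j k, ContDiff ℝ ∞ (φ j k)
  supp : ∀ j k, HasCompactSupport (φ j k)
  asy : ∀ j k x, φ j k x = -φ k j x

/-- the variance -/
def var (φ : Fin d → Fin d → (Fin d → ℝ) → ℝ) : ℝ :=
  sSup {v | ∃ α, IsOne α ∧ v = 2 * pair φ (dd α) - pair (dd α) (dd α)}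

lemma pd_cs {g : (Fin d → ℝ) → ℝ} (hg : HasCompactSupport g) (j : Fin d) :
    HasCompactSupport (pd j g) := by
  have h1 := hg.fderiv_apply (𝕜 := ℝ) (Pi.single j 1 : Fin d → ℝ)
  exact h1

lemma IsOne.dd_cont {α : Fin d → (Fin d → ℝ) → ℝ} (hα : IsOne α) (j k : Fin d) :
    Continuous (dd α j k) := (pd_cont (hα.smooth k) j).sub (pd_cont (hα.smooth j) k)

lemma IsOne.dd_cs {α : Fin d → (Fin d → ℝ) → ℝ} (hα : IsOne α) (j k : Fin d) :
    HasCompactSupport (dd α j k) := by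
  have h1 := (pd_cs (hα.supp k) j).sub (pd_cs (hα.supp j) k)
  exact h1

lemma var_bdd {φ : Fin d → Fin d → (Fin d → ℝ) → ℝ} (hφ : IsTwo φ) :
    BddAbove {v | ∃ α, IsOne α ∧ v = 2 * pair φ (dd α) - pair (dd α) (dd α)} := by
  refine ⟨pair φ φ, ?_⟩
  rintro v ⟨α, hα, rfl⟩
  have key : ∀ j k, 2 * (∫ x, φ j k x * dd α j k x) - (∫ x, dd α j k x * dd α j k x) ≤
      ∫ x, φ j k x * φ j k x := by
    intro j k
    have c1 := (hφ.smooth j k).continuous
    have c2 := hα.dd_cont j k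
    have i1 : Integrable fun x => φ j k x * φ j k x :=
      (c1.mul c1).integrable_of_hasCompactSupport (hφ.supp j k).mul_right
    have i2 : Integrable fun x => φ j k x * dd α j k x :=
      (c1.mul c2).integrable_of_hasCompactSupport (hφ.supp j k).mul_right
    have i3 : Integrable fun x => dd α j k x * dd α j k x :=
      (c2.mul c2).integrable_of_hasCompactSupport (hα.dd_cs j k).mul_right
    rw [← integral_const_mul, ← integral_sub (i2.const_mul 2) i3]
    refine integral_mono ((i2.const_mul 2).sub i3) i1 fun x => ?_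
    simp only
    nlinarith [sq_nonneg (φ j k x - dd α j k x)]
  unfold pair
  have h2 : ∑ j, ∑ k, (2 * (∫ x, φ j k x * dd α j k x) - (∫ x, dd α j k x * dd α j k x)) ≤
      ∑ j, ∑ k, ∫ x, φ j k x * φ j k x :=
    Finset.sum_le_sum fun j _ => Finset.sum_le_sum fun k _ => key j k
  simp only [Finset.sum_sub_distrib, ← Finset.mul_sum] at h2
  linarith

lemma var_ge {φ : Fin d → Fin d → (Fin d → ℝ) → ℝ} (hφ : IsTwo φ)
    {α : Fin d → (Fin d → ℝ) → ℝ} (hα : IsOne α) :
    2 * pair φ (dd α) - pair (dd α) (dd α) ≤ var φ :=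
  le_csSup (var_bdd hφ) ⟨α, hα, rfl⟩

lemma var_approx {φ : Fin d → Fin d → (Fin d → ℝ) → ℝ} {ε : ℝ} (hε : 0 < ε) :
    ∃ α, IsOne α ∧ var φ - ε < 2 * pair φ (dd α) - pair (dd α) (dd α) := by
  have hne : {v | ∃ α, IsOne α ∧ v = 2 * pair φ (dd α) - pair (dd α) (dd α)}.Nonempty :=
    ⟨_, fun _ _ => 0, ⟨fun k => contDiff_const, fun k => HasCompactSupport.zero⟩, rfl⟩
  obtain ⟨v, ⟨α, hα, rfl⟩, hv⟩ := exists_lt_of_lt_csSup hne (show var φ - ε < sSup _ by
    unfold var; linarith)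
  exact ⟨α, hα, hv⟩

section lattice

variable {l : ℕ} [NeZero l]

/-- discretized two form -/
def fd (q c : ℕ) (φ : Fin d → Fin d → (Fin d → ℝ) → ℝ) : Fm d l :=
  fun j k y => φ j k (pos q c y) / Real.sqrt ((q : ℝ) ^ d)

lemma ipF_young (f g : Fm d l) {t : ℝ} (ht : 0 < t) :
    2 * |ipF f g| ≤ ipF f f / t + t * ipF g g := by
  have h1 := ipF_self_nonneg (f + t • g)
  have h2 := ipF_self_nonneg (f - t • g)
  have e1 : ipF (f + t • g) (f + t • g) = ipF f f + 2 * t * ipF f g + t ^ 2 * ipF g g := by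
    rw [ipF_add_left, ipF_smul_left, ipF_comm f, ipF_comm g, ipF_add_left, ipF_add_left,
      ipF_smul_left, ipF_smul_left, ipF_comm g f]
    ring
  have e2 : ipF (f - t • g) (f - t • g) = ipF f f - 2 * t * ipF f g + t ^ 2 * ipF g g := by
    rw [ipF_sub_left, ipF_smul_left, ipF_comm f, ipF_comm g, ipF_sub_left, ipF_sub_left,
      ipF_smul_left, ipF_smul_left, ipF_comm g f]
    ring
  have h3 : |2 * t * ipF f g| ≤ ipF f f + t ^ 2 * ipF g g := by
    rw [abs_le]; constructor <;> linarith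
  rw [abs_mul, abs_of_pos (show 0 < 2 * t by positivity)] at h3
  have h4 : ipF f f / t + t * ipF g g = (ipF f f + t ^ 2 * ipF g g) / t := by
    field_simp
  rw [h4, le_div_iff₀ ht]
  linarith

/-- decomposition, tested with exact forms -/
lemma ipF_dec (K : ℕ) {f : Fm d l} (hf : Asy f) (b : Fin d → St d l → ℝ) :
    ipF f (d1 b) = ipF (fun j k => Plk K (f j k)) (d1 b) + ipF (TL K f) (d1 b) := by
  have h1 : f = (fun j k => Plk K (f j k)) + TL K f + cx (fun j k => uK K (f j k)) :=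
    congrFun (dec K fun _ : Fin 1 => f) 0
  have hu : Asy fun j k => uK K (f j k) := fun j k => by
    show uK K (f j k) = -uK K (f k j)
    rw [hf j k, uK_neg]
  have h2 := cx_orth hu b
  conv_lhs => rw [h1]
  rw [ipF_add_left, ipF_add_left, h2, add_zero]

lemma fd_asy {q c : ℕ} {φ : Fin d → Fin d → (Fin d → ℝ) → ℝ} (hφ : IsTwo φ) :
    Asy (fd (l := l) q c φ) := by
  intro j k
  funext y
  rw [Pi.neg_apply]
  unfold fd
  rw [hφ.asy j k, neg_div]

/-- the upper bound -/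
lemma upper {q c : ℕ} (hq : 1 ≤ q) {φ : Fin d → Fin d → (Fin d → ℝ) → ℝ} (hφ : IsTwo φ)
    {ε : ℝ} (hε : 0 ≤ ε) {η : (Fin d → ℝ) → ℝ}
    (hmod : ∀ j k x x', (∀ i, |x i - x' i| ≤ 2 / (q : ℝ)) → |φ j k x - φ j k x'| ≤ ε * η x')
    {a : Fin d → St d l → ℝ} {lo hi : ℕ} (ha : ∀ k, SW lo hi (a k)) (hlo : 1 ≤ lo) :
    2 * ipF (fd q c φ) (d1 a) - ipF (d1 a) (d1 a) ≤
      var φ + ε * (ipF (d1 a) (d1 a) + d ^ 2 / 2 * TS l q c fun x => η x * η x) := by
  have hq0 : (0 : ℝ) < q := by exact_mod_cast hq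
  obtain ⟨s, hs⟩ : ∃ s, s = Real.sqrt ((q : ℝ) ^ d) := ⟨_, rfl⟩
  have hs0 : 0 < s := by rw [hs]; exact Real.sqrt_pos.2 (by positivity)
  have hss : s * s = (q : ℝ) ^ d := by rw [hs]; exact Real.mul_self_sqrt (by positivity)
  obtain ⟨α, hαd⟩ : ∃ α : Fin d → (Fin d → ℝ) → ℝ,
    α = fun k => itp (w1 k) q c ((s / q) • a k) := ⟨_, rfl⟩
  have hα : IsOne α := by
    rw [hαd]
    exact ⟨fun k => itp_smooth (fun i => (w1_gk k i).smooth) _ _ _,
      fun k => itp_cs (fun i => w1_gk k i) hq0 _⟩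
  have hdd : ∀ j k, dd α j k = itp (w2 j k) q c (s • d1 a j k) := by
    intro j k
    funext x
    rw [hαd, dd_itp (a := fun k => (s / q) • a k) (fun k => (ha k).smul _) hlo j k x]
    have h1 : d1 (fun k => (s / (q : ℝ)) • a k) j k = (s / (q : ℝ)) • d1 a j k := by
      unfold d1
      rw [Dp_smul, Dp_smul, smul_sub]
    rw [h1, itp_smul, itp_smul]
    field_simp
  have hv := var_ge hφ hα
  have h1 : pair (dd α) (dd α) ≤ ipF (d1 a) (d1 a) := by
    unfold pair ipF
    refine mul_le_mul_of_nonneg_left (Finset.sum_le_sum fun j _ => Finset.sum_le_sum fun k _ => ?_)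
      (by norm_num)
    rw [hdd]
    refine (itp_sq (fun i => w2_gk j k i) hq0 _).trans (le_of_eq ?_)
    rw [ip2_smul_left, ip2_comm, ip2_smul_left, ← mul_assoc, hss]
    field_simp
  have h2 : ∀ j k, ip2 (fd q c φ j k) (d1 a j k) - ε / 2 * (ip2 (d1 a j k) (d1 a j k) +
      TS l q c fun x => η x * η x) ≤ ∫ x, φ j k x * dd α j k x := by
    intro j k
    have e1 := itp_pair (w := w2 j k) (fun i => w2_gk j k i) (c := (c : ℝ)) hq0
      (hφ.smooth j k).continuous (hφ.supp j k) (hmod j k) (s • d1 a j k)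
    rw [← hdd] at e1
    have e2 : (∑ y, (s • d1 a j k) y * φ j k (pos q c y)) / (q : ℝ) ^ d =
        ip2 (fd q c φ j k) (d1 a j k) := by
      unfold ip2 fd
      rw [Finset.sum_div]
      refine Finset.sum_congr rfl fun y _ => ?_
      rw [← hs, ← hss, Pi.smul_apply, smul_eq_mul]
      field_simp
    have e3 : (∑ y, |(s • d1 a j k) y| * (ε * η (pos q c y))) / (q : ℝ) ^ d ≤
        ε / 2 * (ip2 (d1 a j k) (d1 a j k) + TS l q c fun x => η x * η x) := by
      unfold ip2 TS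
      have e4 : ε / 2 * ((∑ x, d1 a j k x * d1 a j k x) +
          (∑ y : St d l, η (pos q c y) * η (pos q c y)) / (q : ℝ) ^ d) =
          (∑ y : St d l, ε / 2 * (s * s * (d1 a j k y * d1 a j k y) +
            η (pos q c y) * η (pos q c y))) / (q : ℝ) ^ d := by
        rw [← Finset.mul_sum, Finset.sum_add_distrib, ← Finset.mul_sum, hss]
        field_simp
      rw [e4]
      refine div_le_div_of_nonneg_right (Finset.sum_le_sum fun y _ => ?_) (by positivity)
      rw [Pi.smul_apply, smul_eq_mul]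
      obtain ⟨u, hu⟩ : ∃ u, u = |s * d1 a j k y| := ⟨_, rfl⟩
      have e5 : s * s * (d1 a j k y * d1 a j k y) = u * u := by
        rw [hu, abs_mul_abs_self]; ring
      rw [← hu, e5]
      have e6 : u * η (pos q c y) ≤ (u * u + η (pos q c y) * η (pos q c y)) / 2 := by
        nlinarith [sq_nonneg (u - η (pos q c y))]
      calc u * (ε * η (pos q c y)) = ε * (u * η (pos q c y)) := by ring
        _ ≤ ε * ((u * u + η (pos q c y) * η (pos q c y)) / 2) :=
            mul_le_mul_of_nonneg_left e6 hε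
        _ = _ := by ring
    rw [e2] at e1
    have := (abs_le.1 e1).1
    linarith
  have h3 : ipF (fd q c φ) (d1 a) - ε / 2 * (ipF (d1 a) (d1 a) +
      d ^ 2 / 2 * TS l q c fun x => η x * η x) ≤ pair φ (dd α) := by
    have e1 : ∑ j, ∑ k, (ip2 (fd (l := l) q c φ j k) (d1 a j k) - ε / 2 * (ip2 (d1 a j k)
        (d1 a j k) + TS l q c fun x => η x * η x)) ≤ ∑ j, ∑ k, ∫ x, φ j k x * dd α j k x :=
      Finset.sum_le_sum fun j _ => Finset.sum_le_sum fun k _ => h2 j k
    unfold pair ipF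
    simp only [Finset.sum_sub_distrib, Finset.sum_add_distrib, ← Finset.mul_sum,
      Finset.sum_const, Finset.card_univ, Fintype.card_fin, nsmul_eq_mul] at e1
    have e2 : (d : ℝ) * (d * TS l q c fun x => η x * η x) =
      d ^ 2 * TS l q c fun x => η x * η x := by ring
    rw [e2] at e1
    linarith
  linarith

end lattice

/-! ### limits -/

/-- a cutoff -/
def cf (r : ℕ) (x : Fin d → ℝ) : ℝ := max 0 ((r : ℝ) + 1 - ‖x‖)

lemma cf_cont (r : ℕ) : Continuous (cf (d := d) r) :=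
  continuous_const.max (continuous_const.sub continuous_norm)

lemma cf_nonneg (r : ℕ) (x : Fin d → ℝ) : 0 ≤ cf r x := le_max_left _ _

lemma cf_ge {r : ℕ} {x : Fin d → ℝ} (h : ‖x‖ ≤ r) : 1 ≤ cf r x := by
  unfold cf
  exact le_trans (by linarith) (le_max_right _ _)

lemma cf_supp {r : ℕ} {x : Fin d → ℝ} (h : cf r x ≠ 0) : ‖x‖ ≤ (r + 1 : ℕ) := by
  push_cast
  by_contra hc
  push Not at hc
  apply h
  unfold cf
  exact max_eq_left (by linarith)

lemma TS_lim' {g : (Fin d → ℝ) → ℝ} (hgc : Continuous g) {r : ℕ}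
    (hg : ∀ x, g x ≠ 0 → ‖x‖ ≤ r) {ε : ℝ} (hε : 0 < ε) : ∀ᶠ q : ℕ in atTop,
      ∀ (l c : ℕ) [NeZero l], r * q ≤ c → c + r * q < l → |TS l q c g - ∫ x, g x| ≤ ε := by
  obtain ⟨q₀, h⟩ := TS_lim hgc hg hε
  filter_upwards [eventually_ge_atTop q₀] with q hq
  exact h q hq

/-- stability of the limits -/
lemma lim_stab {φ u : (Fin d → ℝ) → ℝ} (hφ : Continuous φ) (hu : Continuous u) {r : ℕ}
    (hφr : ∀ x, φ x ≠ 0 → ‖x‖ ≤ r) (hur : ∀ x, u x ≠ 0 → ‖x‖ ≤ r) {e : ℝ} (he : 0 < e) :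
    ∀ᶠ κ : ℝ in 𝓝[>] 0, ∀ᶠ q : ℕ in atTop, ∀ (l c : ℕ) [NeZero l], (r + 1) * q ≤ c →
      c + (r + 1) * q < l → ∀ D : (Fin d → ℝ) → ℝ, (∀ x, |D x - u x| ≤ κ) →
      (∀ x, D x ≠ 0 → ‖x‖ ≤ r) → |TS l q c (fun x => φ x * D x) - ∫ x, φ x * u x| ≤ e ∧
        |TS l q c (fun x => D x * D x) - ∫ x, u x * u x| ≤ e := by
  have hr1 : ∀ x : Fin d → ℝ, ‖x‖ ≤ r → ‖x‖ ≤ (r + 1 : ℕ) := fun x hx => by
    push_cast; linarith
  obtain ⟨A, hA⟩ : ∃ A, A = ∫ x, |φ x| := ⟨_, rfl⟩
  obtain ⟨B, hB⟩ : ∃ B, B = ∫ x, (2 * |u x| + 1) * cf r x := ⟨_, rfl⟩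
  have hA0 : 0 ≤ A := by rw [hA]; exact integral_nonneg fun x => abs_nonneg _
  have hB0 : 0 ≤ B := by
    rw [hB]; exact integral_nonneg fun x => mul_nonneg (by positivity) (cf_nonneg _ _)
  have hκ : ∀ᶠ κ : ℝ in 𝓝[>] 0, 0 < κ ∧ κ < min 1 (min (e / 2 / (A + 1)) (e / 2 / (B + 1))) := by
    have hpos : 0 < min 1 (min (e / 2 / (A + 1)) (e / 2 / (B + 1))) := by positivity
    filter_upwards [Ioo_mem_nhdsGT hpos] with κ h
    exact ⟨h.1, h.2⟩
  filter_upwards [hκ] with κ hκ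
  have hκ1 : κ < 1 := hκ.2.trans_le (min_le_left _ _)
  have hκA : κ * (A + 1) ≤ e / 2 := by
    have := (hκ.2.trans_le ((min_le_right _ _).trans (min_le_left _ _))).le
    rwa [le_div_iff₀ (by linarith)] at this
  have hκB : κ * (B + 1) ≤ e / 2 := by
    have := (hκ.2.trans_le ((min_le_right _ _).trans (min_le_right _ _))).le
    rwa [le_div_iff₀ (by linarith)] at this
  filter_upwards [TS_lim' (g := fun x => |φ x|) hφ.abs (r := r + 1)
      (fun x hx => hr1 x (hφr x (abs_ne_zero.1 hx))) one_pos,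
    TS_lim' (g := fun x => (2 * |u x| + 1) * cf r x)
      (((continuous_const.mul hu.abs).add continuous_const).mul (cf_cont r)) (r := r + 1)
      (fun x hx => cf_supp (right_ne_zero_of_mul hx)) one_pos,
    TS_lim' (g := fun x => φ x * u x) (hφ.mul hu) (r := r + 1)
      (fun x hx => hr1 x (hφr x (left_ne_zero_of_mul hx))) (half_pos he),
    TS_lim' (g := fun x => u x * u x) (hu.mul hu) (r := r + 1)
      (fun x hx => hr1 x (hur x (left_ne_zero_of_mul hx))) (half_pos he)]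
    with q h1 h2 h3 h4 l c _ hc hl D hD hDr
  have g1 := (abs_le.1 (h1 l c hc hl)).2
  have g2 := (abs_le.1 (h2 l c hc hl)).2
  have g3 := h3 l c hc hl
  have g4 := h4 l c hc hl
  rw [← hA] at g1
  rw [← hB] at g2
  constructor
  · have e1 := TS_close (l := l) (q := q) (c := c) (g := fun x => φ x * D x)
      (h := fun x => φ x * u x) (e := fun x => κ * |φ x|) fun x => by
        rw [← mul_sub, abs_mul, mul_comm]
        exact mul_le_mul_of_nonneg_right (hD x) (abs_nonneg _)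
    rw [TS_smul] at e1
    have e2 : κ * TS l q c (fun x => |φ x|) ≤ κ * (A + 1) :=
      mul_le_mul_of_nonneg_left (by linarith) hκ.1.le
    have e3 : TS l q c (fun x => φ x * D x) - ∫ x, φ x * u x =
        (TS l q c (fun x => φ x * D x) - TS l q c (fun x => φ x * u x)) +
          (TS l q c (fun x => φ x * u x) - ∫ x, φ x * u x) := by ring
    rw [e3]
    refine (abs_add_le _ _).trans ?_
    linarith
  · have e1 := TS_close (l := l) (q := q) (c := c) (g := fun x => D x * D x)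
      (h := fun x => u x * u x) (e := fun x => κ * ((2 * |u x| + 1) * cf r x)) fun x => by
        have f1 : D x * D x - u x * u x = (D x - u x) * (D x + u x) := by ring
        rw [f1, abs_mul]
        by_cases hx : ‖x‖ ≤ r
        · have f2 : |D x + u x| ≤ 2 * |u x| + 1 := by
            have : D x + u x = (D x - u x) + 2 * u x := by ring
            rw [this]
            refine (abs_add_le _ _).trans ?_
            rw [abs_mul, abs_two]
            linarith [hD x]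
          have f3 := cf_ge hx
          calc |D x - u x| * |D x + u x| ≤ κ * (2 * |u x| + 1) :=
                mul_le_mul (hD x) f2 (abs_nonneg _) hκ.1.le
            _ = κ * ((2 * |u x| + 1) * 1) := by ring
            _ ≤ _ := mul_le_mul_of_nonneg_left (mul_le_mul_of_nonneg_left f3 (by positivity))
              hκ.1.le
        · have f2 : D x = 0 := by
            by_contra h; exact hx (hDr x h)
          have f3 : u x = 0 := by
            by_contra h; exact hx (hur x h)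
          rw [f2, f3]
          simp only [sub_self, abs_zero, zero_mul]
          exact mul_nonneg hκ.1.le (mul_nonneg (by positivity) (cf_nonneg _ _))
    rw [TS_smul] at e1
    have e2 : κ * TS l q c (fun x => (2 * |u x| + 1) * cf r x) ≤ κ * (B + 1) :=
      mul_le_mul_of_nonneg_left (by linarith) hκ.1.le
    have e3 : TS l q c (fun x => D x * D x) - ∫ x, u x * u x =
        (TS l q c (fun x => D x * D x) - TS l q c (fun x => u x * u x)) +
          (TS l q c (fun x => u x * u x) - ∫ x, u x * u x) := by ring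
    rw [e3]
    refine (abs_add_le _ _).trans ?_
    linarith

lemma dl_lim' {g : (Fin d → ℝ) → ℝ} (hg : ContDiff ℝ ∞ g) (hcs : HasCompactSupport g)
    (j : Fin d) {ε : ℝ} (hε : 0 < ε) : ∀ᶠ q : ℕ in atTop, ∀ x,
      |dl (1 / (q : ℝ)) j g x - pd j g x| ≤ ε := by
  obtain ⟨h₀, hh, h⟩ := dl_lim hg hcs j hε
  have h1 : Tendsto (fun q : ℕ => 1 / (q : ℝ)) atTop (𝓝 0) := tendsto_one_div_atTop_nhds_zero_nat
  filter_upwards [eventually_ge_atTop 1, h1.eventually_le_const hh] with q hq hq2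
  have hq0 : (0 : ℝ) < q := by exact_mod_cast hq
  exact h _ (by positivity) hq2

lemma supp_r {ι : Type*} [Finite ι] {f : ι → (Fin d → ℝ) → ℝ}
    (hf : ∀ i, HasCompactSupport (f i)) : ∃ r : ℕ, ∀ i x, f i x ≠ 0 → ‖x‖ ≤ r := by
  have h1 : ∀ i, ∃ r : ℝ, ∀ x, f i x ≠ 0 → ‖x‖ ≤ r := by
    intro i
    obtain ⟨r, hr⟩ := (hf i).isCompact.isBounded.exists_norm_le
    exact ⟨r, fun x hx => hr x (subset_tsupport _ hx)⟩
  choose r hr using h1
  obtain ⟨R, hR⟩ := Set.Finite.bddAbove (Set.finite_range r)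
  obtain ⟨n, hn⟩ := exists_nat_ge R
  exact ⟨n, fun i x hx => (hr i x hx).trans ((hR ⟨i, rfl⟩).trans hn)⟩

/-- discretization of a test form -/
lemma lower {φ : Fin d → Fin d → (Fin d → ℝ) → ℝ} (hφ : IsTwo φ)
    {α : Fin d → (Fin d → ℝ) → ℝ} (hα : IsOne α) {e : ℝ} (he : 0 < e) :
    ∃ r : ℕ, ∀ᶠ q : ℕ in atTop, ∀ (l c : ℕ) [NeZero l], r * q ≤ c → c + r * q < l →
      ∃ b : Fin d → St d l → ℝ, |ipF (fd q c φ) (d1 b) - pair φ (dd α)| ≤ d ^ 2 * e ∧
        |ipF (d1 b) (d1 b) - pair (dd α) (dd α)| ≤ d ^ 2 * e := by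
  obtain ⟨r1, hr1⟩ := supp_r (f := fun p : Fin d × Fin d => φ p.1 p.2) fun p => hφ.supp _ _
  obtain ⟨r2, hr2⟩ := supp_r (f := α) hα.supp
  obtain ⟨r, hr⟩ : ∃ r, r = max r1 r2 + 1 := ⟨_, rfl⟩
  have hrφ : ∀ j k x, φ j k x ≠ 0 → ‖x‖ ≤ r := fun j k x hx => by
    refine (hr1 (j, k) x hx).trans ?_
    have : r1 ≤ r := by rw [hr]; have := le_max_left r1 r2; omega
    exact_mod_cast this
  have hrα : ∀ k x, α k x ≠ 0 → ‖x‖ ≤ r2 := hr2
  have h2r : (r2 : ℝ) + 1 ≤ r := by
    have : r2 + 1 ≤ r := by rw [hr]; have := le_max_right r1 r2; omega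
    exact_mod_cast this
  have hrd : ∀ j k x, dd α j k x ≠ 0 → ‖x‖ ≤ r := by
    intro j k x hx
    unfold dd at hx
    by_cases h0 : pd j (α k) x = 0
    · rw [h0, zero_sub, neg_ne_zero] at hx
      linarith [pd_supp (hr2 j) k x hx]
    · linarith [pd_supp (hr2 k) j x h0]
  refine ⟨r + 2, ?_⟩
  have hst : ∀ᶠ κ : ℝ in 𝓝[>] 0, 0 < κ ∧ ∀ᶠ q : ℕ in atTop, ∀ j k, ∀ (l c : ℕ) [NeZero l],
      (r + 1) * q ≤ c → c + (r + 1) * q < l → ∀ D : (Fin d → ℝ) → ℝ,
      (∀ x, |D x - dd α j k x| ≤ κ) → (∀ x, D x ≠ 0 → ‖x‖ ≤ r) →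
      |TS l q c (fun x => φ j k x * D x) - ∫ x, φ j k x * dd α j k x| ≤ e ∧
        |TS l q c (fun x => D x * D x) - ∫ x, dd α j k x * dd α j k x| ≤ e := by
    have h1 : ∀ᶠ κ : ℝ in 𝓝[>] 0, ∀ j k, ∀ᶠ q : ℕ in atTop, ∀ (l c : ℕ) [NeZero l],
      (r + 1) * q ≤ c → c + (r + 1) * q < l → ∀ D : (Fin d → ℝ) → ℝ,
      (∀ x, |D x - dd α j k x| ≤ κ) → (∀ x, D x ≠ 0 → ‖x‖ ≤ r) →
      |TS l q c (fun x => φ j k x * D x) - ∫ x, φ j k x * dd α j k x| ≤ e ∧
        |TS l q c (fun x => D x * D x) - ∫ x, dd α j k x * dd α j k x| ≤ e :=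
      eventually_all.2 fun j => eventually_all.2 fun k =>
        lim_stab (hφ.smooth j k).continuous (hα.dd_cont j k) (hrφ j k) (hrd j k) he
    filter_upwards [h1, self_mem_nhdsWithin] with κ h2 h3
    exact ⟨h3, eventually_all.2 fun j => eventually_all.2 fun k => h2 j k⟩
  obtain ⟨κ, hκ, hst⟩ := hst.exists
  have hdl : ∀ᶠ q : ℕ in atTop, ∀ j k : Fin d, ∀ x,
      |dl (1 / (q : ℝ)) j (α k) x - pd j (α k) x| ≤ κ / 2 :=
    eventually_all.2 fun j => eventually_all.2 fun k =>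
      dl_lim' (hα.smooth k) (hα.supp k) j (half_pos hκ)
  filter_upwards [hst, hdl, eventually_ge_atTop 1] with q h1 h2 hq l c _ hc hl
  have hq0 : (0 : ℝ) < q := by exact_mod_cast hq
  have hq1 : (1 : ℝ) ≤ q := by exact_mod_cast hq
  obtain ⟨s, hs⟩ : ∃ s, s = Real.sqrt ((q : ℝ) ^ d) := ⟨_, rfl⟩
  have hs0 : 0 < s := by rw [hs]; exact Real.sqrt_pos.2 (by positivity)
  have hss : s * s = (q : ℝ) ^ d := by rw [hs]; exact Real.mul_self_sqrt (by positivity)
  obtain ⟨b, hb⟩ : ∃ b : Fin d → St d l → ℝ,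
    b = fun k y => q / s * α k (pos q c y) := ⟨_, rfl⟩
  obtain ⟨D, hD⟩ : ∃ D : Fin d → Fin d → (Fin d → ℝ) → ℝ, D = fun j k x =>
    dl (1 / (q : ℝ)) j (α k) x - dl (1 / (q : ℝ)) k (α j) x := ⟨_, rfl⟩
  have hc1 : (r + 1) * q ≤ c := le_trans (Nat.mul_le_mul_right _ (by omega)) hc
  have hl1 : c + (r + 1) * q < l := by
    have := Nat.mul_le_mul_right q (show r + 1 ≤ r + 2 by omega)
    omega
  have hc2 : r2 * q < c := by
    have e1 : r2 + 1 ≤ r + 2 := by exact_mod_cast (show (r2 : ℝ) + 1 ≤ r + 2 by linarith)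
    have := Nat.mul_le_mul_right q e1
    have e2 : (r2 + 1) * q = r2 * q + q := by ring
    omega
  have hl2 : c + r2 * q < l := by
    have e1 : r2 ≤ r + 2 := by exact_mod_cast (show (r2 : ℝ) ≤ r + 2 by linarith)
    have := Nat.mul_le_mul_right q e1
    omega
  have hd1 : ∀ j k y, d1 b j k y = D j k (pos q c y) / s := by
    intro j k y
    rw [hb, hD]
    unfold d1 Dp
    simp only [Pi.sub_apply]
    rw [pos_shift hq (hr2 k) hc2 hl2 y j, pos_shift hq (hr2 j) hc2 hl2 y k]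
    unfold dl
    field_simp
  have hDc : ∀ j k x, |D j k x - dd α j k x| ≤ κ := by
    intro j k x
    rw [hD]
    unfold dd
    simp only
    have e1 : dl (1 / (q : ℝ)) j (α k) x - dl (1 / (q : ℝ)) k (α j) x -
        (pd j (α k) x - pd k (α j) x) = (dl (1 / (q : ℝ)) j (α k) x - pd j (α k) x) -
          (dl (1 / (q : ℝ)) k (α j) x - pd k (α j) x) := by ring
    rw [e1]
    refine (abs_sub _ _).trans ?_
    linarith [h2 j k x, h2 k j x]
  have hdls : ∀ j k x, dl (1 / (q : ℝ)) j (α k) x ≠ 0 → ‖x‖ ≤ r := by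
    intro j k x hx
    unfold dl at hx
    by_cases h0 : α k x = 0
    · have h3 : α k (x + Pi.single j (1 / (q : ℝ))) ≠ 0 := by
        intro h3
        rw [h0, h3] at hx
        simp at hx
      have h4 := hr2 k _ h3
      have h5 : ‖x‖ ≤ ‖x + Pi.single j (1 / (q : ℝ))‖ +
          ‖(Pi.single j (1 / (q : ℝ)) : Fin d → ℝ)‖ := by
        have := norm_sub_le (x + Pi.single j (1 / (q : ℝ))) (Pi.single j (1 / (q : ℝ)))
        rwa [add_sub_cancel_right] at this
      have h6 : ‖(Pi.single j (1 / (q : ℝ)) : Fin d → ℝ)‖ ≤ 1 := by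
        rw [Pi.norm_single, Real.norm_eq_abs, abs_of_pos (by positivity),
          div_le_one hq0]
        exact hq1
      linarith
    · linarith [hr2 k x h0]
  have hDs : ∀ j k x, D j k x ≠ 0 → ‖x‖ ≤ r := by
    intro j k x hx
    rw [hD] at hx
    simp only at hx
    by_cases h0 : dl (1 / (q : ℝ)) j (α k) x = 0
    · rw [h0, zero_sub, neg_ne_zero] at hx
      exact hdls k j x hx
    · exact hdls j k x h0
  have h3 : ∀ j k, |ip2 (fd (l := l) q c φ j k) (d1 b j k) - ∫ x, φ j k x * dd α j k x| ≤ e ∧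
      |ip2 (d1 b j k) (d1 b j k) - ∫ x, dd α j k x * dd α j k x| ≤ e := by
    intro j k
    have e1 := h1 j k l c hc1 hl1 (D j k) (hDc j k) (hDs j k)
    have e2 : ip2 (fd (l := l) q c φ j k) (d1 b j k) = TS l q c fun x => φ j k x * D j k x := by
      unfold ip2 TS fd
      rw [Finset.sum_div]
      refine Finset.sum_congr rfl fun y _ => ?_
      rw [hd1, ← hs, ← hss]
      field_simp
    have e3 : ip2 (d1 b j k) (d1 b j k) = TS l q c fun x => D j k x * D j k x := by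
      unfold ip2 TS
      rw [Finset.sum_div]
      refine Finset.sum_congr rfl fun y _ => ?_
      rw [hd1, ← hss]
      field_simp
    rw [e2, e3]
    exact e1
  refine ⟨b, ?_, ?_⟩
  · unfold ipF pair
    rw [← mul_sub, ← Finset.sum_sub_distrib, abs_mul,
      abs_of_pos (show (0 : ℝ) < 1 / 2 by norm_num)]
    have e1 : |∑ j, (∑ k, ip2 (fd (l := l) q c φ j k) (d1 b j k) -
        ∑ k, ∫ x, φ j k x * dd α j k x)| ≤ ∑ _j : Fin d, ∑ _k : Fin d, e := by
      refine (Finset.abs_sum_le_sum_abs _ _).trans (Finset.sum_le_sum fun j _ => ?_)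
      rw [← Finset.sum_sub_distrib]
      exact (Finset.abs_sum_le_sum_abs _ _).trans (Finset.sum_le_sum fun k _ => (h3 j k).1)
    simp only [Finset.sum_const, Finset.card_univ, Fintype.card_fin, nsmul_eq_mul] at e1
    have e2 : 0 ≤ (d : ℝ) ^ 2 * e := by positivity
    linarith
  · unfold ipF pair
    rw [← mul_sub, ← Finset.sum_sub_distrib, abs_mul,
      abs_of_pos (show (0 : ℝ) < 1 / 2 by norm_num)]
    have e1 : |∑ j, (∑ k, ip2 (d1 b j k) (d1 b j k) -
        ∑ k, ∫ x, dd α j k x * dd α j k x)| ≤ ∑ _j : Fin d, ∑ _k : Fin d, e := by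
      refine (Finset.abs_sum_le_sum_abs _ _).trans (Finset.sum_le_sum fun j _ => ?_)
      rw [← Finset.sum_sub_distrib]
      exact (Finset.abs_sum_le_sum_abs _ _).trans (Finset.sum_le_sum fun k _ => (h3 j k).2)
    simp only [Finset.sum_const, Finset.card_univ, Fintype.card_fin, nsmul_eq_mul] at e1
    have e2 : 0 ≤ (d : ℝ) ^ 2 * e := by positivity
    linarith

end

end Pool.Agent.W793.YM
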