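import Mathlib
import Pool.Agent.W793.YM.VarLim

/-!
# The continuum limit of the variance, conclusion
-/

open MeasureTheory Filter Topology
open scoped ContDiff
open Pool.Agent.H906R3.YM

namespace Pool.Agent.W793.YM

set_option linter.unusedSectionVars false
set_option linter.unusedVariables false

noncomputable section

variable {d : ℕ}

lemma fd_l1 {l q c : ℕ} [NeZero l] (hq : 1 ≤ q) (φ : Fin d → Fin d → (Fin d → ℝ) → ℝ)
    (j k : Fin d) : ∑ y : St d l, |fd q c φ j k y| =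
      Real.sqrt ((q : ℝ) ^ d) * TS l q c fun x => |φ j k x| := by
  have hq0 : (0 : ℝ) < q := by exact_mod_cast hq
  obtain ⟨s, hs⟩ : ∃ s, s = Real.sqrt ((q : ℝ) ^ d) := ⟨_, rfl⟩
  have hs0 : 0 < s := by rw [hs]; exact Real.sqrt_pos.2 (by positivity)
  have hss : s * s = (q : ℝ) ^ d := by rw [hs]; exact Real.mul_self_sqrt (by positivity)
  unfold TS fd
  rw [← hs, ← hss, mul_div_assoc', Finset.mul_sum, Finset.sum_div]
  refine Finset.sum_congr rfl fun y _ => ?_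
  rw [abs_div, abs_of_pos hs0]
  field_simp

/-- bound of the absolute sum -/
lemma fd_l1_bd {φ : Fin d → Fin d → (Fin d → ℝ) → ℝ} (hφ : IsTwo φ) :
    ∃ (r : ℕ) (A : ℝ), 0 ≤ A ∧ (∀ j k x, φ j k x ≠ 0 → ‖x‖ ≤ r) ∧ ∀ᶠ q : ℕ in atTop,
      ∀ (l c : ℕ) [NeZero l], r * q ≤ c → c + r * q < l → ∀ j k,
        ∑ y : St d l, |fd q c φ j k y| ≤ Real.sqrt ((q : ℝ) ^ d) * A := by
  obtain ⟨r, hr⟩ := supp_r (f := fun p : Fin d × Fin d => φ p.1 p.2) fun p => hφ.supp _ _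
  have h0 : ∀ j k : Fin d, 0 ≤ ∫ x, |φ j k x| := fun j k =>
    integral_nonneg fun x => abs_nonneg _
  refine ⟨r, ∑ j, ∑ k, (∫ x, |φ j k x|) + 1, by
    have := Finset.sum_nonneg fun j (_ : j ∈ (Finset.univ : Finset (Fin d))) =>
      Finset.sum_nonneg fun k (_ : k ∈ (Finset.univ : Finset (Fin d))) => h0 j k
    positivity, fun j k => hr (j, k), ?_⟩
  have h1 : ∀ᶠ q : ℕ in atTop, ∀ j k, ∀ (l c : ℕ) [NeZero l], r * q ≤ c → c + r * q < l →
      |TS l q c (fun x => |φ j k x|) - (∫ x, |φ j k x|)| ≤ 1 :=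
    eventually_all.2 fun j => eventually_all.2 fun k =>
      TS_lim' (hφ.smooth j k).continuous.abs (fun x hx => hr (j, k) x (abs_ne_zero.1 hx)) one_pos
  filter_upwards [h1, eventually_ge_atTop 1] with q h2 hq l c _ hc hl j k
  rw [fd_l1 hq]
  refine mul_le_mul_of_nonneg_left ?_ (Real.sqrt_nonneg _)
  have h3 := (abs_le.1 (h2 j k l c hc hl)).2
  have h4 : (∫ x, |φ j k x|) ≤ ∑ j, ∑ k, ∫ x, |φ j k x| :=
    (Finset.single_le_sum (f := fun k => ∫ x, |φ j k x|) (fun k _ => h0 j k)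
      (Finset.mem_univ k)).trans
      (Finset.single_le_sum (f := fun j => ∑ k, ∫ x, |φ j k x|)
        (fun j _ => Finset.sum_nonneg fun k _ => h0 j k) (Finset.mem_univ j))
  linarith

/-- the remainder is small -/
lemma rem_small (hd : 3 ≤ d) {φ : Fin d → Fin d → (Fin d → ℝ) → ℝ} (hφ : IsTwo φ) {t : ℝ}
    (ht : 0 < t) : ∃ r : ℕ, ∀ᶠ q : ℕ in atTop, ∀ (l c : ℕ) [NeZero l], r * q ≤ c →
      c + r * q < l → q ^ 7 ≤ l →
      ipF (fun j k => Plk (q ^ 7) (fd (l := l) q c φ j k))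
        (fun j k => Plk (q ^ 7) (fd (l := l) q c φ j k)) ≤ t := by
  obtain ⟨r, A, hA, hr, h1⟩ := fd_l1_bd hφ
  refine ⟨r, ?_⟩
  obtain ⟨c0, hc0⟩ : ∃ c0 : ℝ, c0 = 2 + 2 * Real.sqrt (2 * d) := ⟨_, rfl⟩
  have hc0p : 0 ≤ c0 := by rw [hc0]; positivity
  obtain ⟨B, hB⟩ : ∃ B : ℝ, B = d ^ 2 * c0 ^ d * A ^ 2 := ⟨_, rfl⟩
  have hB0 : 0 ≤ B := by rw [hB]; positivity
  have h2 : ∀ᶠ q : ℕ in atTop, B / t ≤ q := tendsto_natCast_atTop_atTop.eventually_ge_atTop _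
  filter_upwards [h1, h2, eventually_ge_atTop 1] with q h3 h4 hq l c _ hc hl hql
  have hq0 : (0 : ℝ) < q := by exact_mod_cast hq
  have hq1 : (1 : ℝ) ≤ q := by exact_mod_cast hq
  have h5 : ∀ j k, ip2 (Plk (q ^ 7) (fd (l := l) q c φ j k))
      (Plk (q ^ 7) (fd (l := l) q c φ j k)) ≤ c0 ^ d * A ^ 2 / q := by
    intro j k
    have e1 := Plk_l2 (show 0 < d by omega) (m := q ^ 7) (Nat.one_le_pow _ _ hq) hql
      (fd (l := l) q c φ j k)
    rw [← hc0] at e1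
    refine e1.trans ?_
    have e2 : (∑ y : St d l, |fd q c φ j k y|) ^ 2 ≤ (q : ℝ) ^ d * A ^ 2 := by
      have := pow_le_pow_left₀ (Finset.sum_nonneg fun y _ => abs_nonneg _) (h3 l c hc hl j k) 2
      rwa [mul_pow, Real.sq_sqrt (by positivity)] at this
    have e3 : (q : ℝ) ^ 3 ≤ Real.sqrt ((q ^ 7 : ℕ) : ℝ) := by
      rw [Real.le_sqrt' (by positivity)]
      push_cast
      rw [← pow_mul]
      exact pow_le_pow_right₀ hq1 (by norm_num)
    have e4 : (c0 / Real.sqrt ((q ^ 7 : ℕ) : ℝ)) ^ d ≤ c0 ^ d / ((q : ℝ) ^ 3) ^ d := by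
      rw [div_pow]
      exact div_le_div_of_nonneg_left (by positivity) (by positivity)
        (pow_le_pow_left₀ (by positivity) e3 d)
    calc (c0 / Real.sqrt ((q ^ 7 : ℕ) : ℝ)) ^ d * (∑ y : St d l, |fd q c φ j k y|) ^ 2 ≤
        c0 ^ d / ((q : ℝ) ^ 3) ^ d * ((q : ℝ) ^ d * A ^ 2) :=
          mul_le_mul e4 e2 (by positivity) (by positivity)
      _ = c0 ^ d * A ^ 2 / (q : ℝ) ^ (2 * d) := by
          rw [← pow_mul]
          have : (q : ℝ) ^ (3 * d) = (q : ℝ) ^ (2 * d) * (q : ℝ) ^ d := by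
            rw [← pow_add]; congr 1; ring
          rw [this]
          field_simp
      _ ≤ c0 ^ d * A ^ 2 / q := by
          refine div_le_div_of_nonneg_left (by positivity) hq0 ?_
          calc (q : ℝ) = (q : ℝ) ^ 1 := (pow_one _).symm
            _ ≤ _ := pow_le_pow_right₀ hq1 (by omega)
  have h6 : ipF (fun j k => Plk (q ^ 7) (fd (l := l) q c φ j k))
      (fun j k => Plk (q ^ 7) (fd (l := l) q c φ j k)) ≤ 1 / 2 * (d ^ 2 * (c0 ^ d * A ^ 2 / q)) := by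
    unfold ipF
    have e1 : ∑ j, ∑ k, ip2 (Plk (q ^ 7) (fd (l := l) q c φ j k))
      (Plk (q ^ 7) (fd (l := l) q c φ j k)) ≤ ∑ _j : Fin d, ∑ _k : Fin d,
        c0 ^ d * A ^ 2 / q := Finset.sum_le_sum fun j _ => Finset.sum_le_sum fun k _ => h5 j k
    simp only [Finset.sum_const, Finset.card_univ, Fintype.card_fin, nsmul_eq_mul] at e1
    linarith
  refine h6.trans ?_
  rw [div_le_iff₀ ht] at h4
  have h7 : (d : ℝ) ^ 2 * (c0 ^ d * A ^ 2 / q) = B / q := by rw [hB]; ring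
  rw [h7]
  have h8 : B / q ≤ t := by
    rw [div_le_iff₀ hq0]; linarith
  have h9 : 0 ≤ B / q := by positivity
  linarith

/-- modulus of continuity -/
lemma modulus {φ : Fin d → Fin d → (Fin d → ℝ) → ℝ} (hφ : IsTwo φ) {r : ℕ}
    (hr : ∀ j k x, φ j k x ≠ 0 → ‖x‖ ≤ r) {ε : ℝ} (hε : 0 < ε) : ∀ᶠ q : ℕ in atTop,
      ∀ j k x x', (∀ i, |x i - x' i| ≤ 2 / (q : ℝ)) →
        |φ j k x - φ j k x'| ≤ ε * cf (r + 2) x' := by
  have h1 : ∀ᶠ δ : ℝ in 𝓝[>] 0, ∀ j k x x', (dist x x' ≤ δ) → |φ j k x - φ j k x'| ≤ ε := by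
    refine eventually_all.2 fun j => eventually_all.2 fun k => ?_
    have huc := (hφ.supp j k).uniformContinuous_of_continuous (hφ.smooth j k).continuous
    rw [Metric.uniformContinuous_iff] at huc
    obtain ⟨δ, hδ, h1⟩ := huc ε hε
    filter_upwards [Ioo_mem_nhdsGT hδ] with δ' hδ' x x' hx
    have := h1 (hx.trans_lt hδ'.2)
    rw [Real.dist_eq] at this
    exact this.le
  obtain ⟨δ, h2, hδ⟩ := (h1.and self_mem_nhdsWithin).exists
  have h3 : ∀ᶠ q : ℕ in atTop, 2 / (q : ℝ) ≤ δ := by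
    have h4 : Tendsto (fun q : ℕ => 2 / (q : ℝ)) atTop (𝓝 0) :=
      tendsto_const_div_atTop_nhds_zero_nat 2
    exact h4.eventually_le_const hδ
  filter_upwards [h3, eventually_ge_atTop 1] with q h4 hq j k x x' hx
  have hq0 : (0 : ℝ) < q := by exact_mod_cast hq
  have hq1 : (1 : ℝ) ≤ q := by exact_mod_cast hq
  have h5 : dist x x' ≤ 2 / (q : ℝ) := by
    rw [dist_pi_le_iff (by positivity)]
    intro i
    rw [Real.dist_eq]
    exact hx i
  have h6 := h2 j k x x' (h5.trans h4)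
  have h7 : dist x x' ≤ 2 := h5.trans (by rw [div_le_iff₀ hq0]; linarith)
  by_cases h8 : φ j k x = 0 ∧ φ j k x' = 0
  · rw [h8.1, h8.2, sub_self, abs_zero]
    exact mul_nonneg hε.le (cf_nonneg _ _)
  · have h9 : ‖x'‖ ≤ (r + 2 : ℕ) := by
      push_cast
      by_cases h10 : φ j k x' = 0
      · have h11 : φ j k x ≠ 0 := fun h => h8 ⟨h, h10⟩
        have h12 := hr j k x h11
        have h13 : ‖x'‖ ≤ ‖x‖ + dist x x' := by
          rw [dist_comm, dist_eq_norm]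
          have := norm_add_le x (x' - x)
          rwa [add_sub_cancel] at this
        linarith
      · linarith [hr j k x' h10]
    calc |φ j k x - φ j k x'| ≤ ε := h6
      _ = ε * 1 := (mul_one _).symm
      _ ≤ _ := mul_le_mul_of_nonneg_left (cf_ge h9) hε.le

/-- **The continuum limit of the variance.** -/
theorem var_lim (hd : 3 ≤ d) {φ : Fin d → Fin d → (Fin d → ℝ) → ℝ} (hφ : IsTwo φ) {ε : ℝ}
    (hε : 0 < ε) : ∃ r : ℕ, ∀ᶠ q : ℕ in atTop, ∀ (l c hi : ℕ) [NeZero l], r * q ≤ c →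
      c + r * q < l → (∀ j k, SW (q ^ 7 + 2) hi (fd (l := l) q c φ j k)) → hi + q ^ 7 + 1 < l →
      |ipF (TL (q ^ 7) (fd (l := l) q c φ)) (TL (q ^ 7) (fd q c φ)) - var φ| ≤ ε := by
  obtain ⟨r0, hr0⟩ := supp_r (f := fun p : Fin d × Fin d => φ p.1 p.2) fun p => hφ.supp _ _
  -- the test form
  obtain ⟨α, hα, hαv⟩ := var_approx (φ := φ) (show 0 < ε / 2 by positivity)
  obtain ⟨Q, hQ⟩ : ∃ Q, Q = |pair (dd α) (dd α)| + 1 := ⟨_, rfl⟩
  have hQ0 : 0 < Q := by rw [hQ]; positivity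
  obtain ⟨e, he⟩ : ∃ e, e = min (ε / 16) 1 / (d ^ 2 + 1) := ⟨_, rfl⟩
  have he0 : 0 < e := by rw [he]; positivity
  have hde : (d : ℝ) ^ 2 * e ≤ min (ε / 16) 1 := by
    rw [he, mul_div_assoc', div_le_iff₀ (by positivity)]
    have : 0 ≤ min (ε / 16) 1 := by positivity
    nlinarith
  have hde1 : (d : ℝ) ^ 2 * e ≤ ε / 16 := hde.trans (min_le_left _ _)
  have hde2 : (d : ℝ) ^ 2 * e ≤ 1 := hde.trans (min_le_right _ _)
  obtain ⟨r1, hlow⟩ := lower hφ hα he0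
  obtain ⟨t, ht⟩ : ∃ t, t = ε / (16 * Q) := ⟨_, rfl⟩
  have ht0 : 0 < t := by rw [ht]; positivity
  obtain ⟨r2, hrem1⟩ := rem_small hd hφ (t := t * (ε / 16)) (by positivity)
  -- the upper bound
  obtain ⟨C1, hC1⟩ : ∃ C1 : ℝ, C1 = d ^ 2 / 2 * ((∫ x : Fin d → ℝ, cf (r0 + 2) x *
    cf (r0 + 2) x) + 1) := ⟨_, rfl⟩
  have hC10 : 0 ≤ C1 := by
    have : 0 ≤ ∫ x : Fin d → ℝ, cf (r0 + 2) x * cf (r0 + 2) x :=
      integral_nonneg fun x => mul_self_nonneg _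
    rw [hC1]; positivity
  obtain ⟨τ, hτ⟩ : ∃ τ : ℝ, τ = ε / (3 + C1 + 2 * (|var φ| + ε)) := ⟨_, rfl⟩
  have hτ0 : 0 < τ := by rw [hτ]; positivity
  have hτ1 : τ * (3 + C1 + 2 * (|var φ| + ε)) = ε := by
    rw [hτ, div_mul_cancel₀]; positivity
  have hτ2 : 2 * τ < 1 := by
    have h1 : 0 ≤ τ * C1 := by positivity
    have h2 : 0 ≤ τ * |var φ| := by positivity
    have h3 : τ * (3 + C1 + 2 * (|var φ| + ε)) = 3 * τ + τ * C1 + 2 * (τ * |var φ|) +
      2 * τ * ε := by ring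
    by_contra hcon
    push Not at hcon
    nlinarith
  obtain ⟨r3, hrem2⟩ := rem_small hd hφ (t := τ * τ) (by positivity)
  have hmod := modulus hφ (fun j k => hr0 (j, k)) hτ0
  have hcf : ∀ᶠ q : ℕ in atTop, ∀ (l c : ℕ) [NeZero l], (r0 + 3) * q ≤ c →
      c + (r0 + 3) * q < l → |TS l q c (fun x => cf (r0 + 2) x * cf (r0 + 2) x) -
        ∫ x : Fin d → ℝ, cf (r0 + 2) x * cf (r0 + 2) x| ≤ 1 :=
    TS_lim' ((cf_cont _).mul (cf_cont _)) (fun x hx => cf_supp (left_ne_zero_of_mul hx)) one_pos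
  refine ⟨r1 + r2 + r3 + (r0 + 3), ?_⟩
  filter_upwards [hlow, hrem1, hrem2, hmod, hcf, eventually_ge_atTop 1] with q g1 g2 g3 g4 g5 hq
    l c hi _ hc hl hs hhi
  have hm1 := Nat.mul_le_mul_right q (show r1 ≤ r1 + r2 + r3 + (r0 + 3) by omega)
  have hm2 := Nat.mul_le_mul_right q (show r2 ≤ r1 + r2 + r3 + (r0 + 3) by omega)
  have hm3 := Nat.mul_le_mul_right q (show r3 ≤ r1 + r2 + r3 + (r0 + 3) by omega)
  have hm4 := Nat.mul_le_mul_right q (show r0 + 3 ≤ r1 + r2 + r3 + (r0 + 3) by omega)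
  have hKl : q ^ 7 ≤ l := by omega
  obtain ⟨b, hb1, hb2⟩ := g1 l c (by omega) (by omega)
  have g2' := g2 l c (by omega) (by omega) hKl
  have g3' := g3 l c (by omega) (by omega) hKl
  have g5' := g5 l c (by omega) (by omega)
  obtain ⟨K, hK⟩ : ∃ K, K = q ^ 7 := ⟨_, rfl⟩
  rw [← hK] at g2' g3' hs hhi ⊢
  obtain ⟨f, hf⟩ : ∃ f : Fm d l, f = fd q c φ := ⟨_, rfl⟩
  have hfa : Asy f := by rw [hf]; exact fd_asy hφ
  rw [← hf] at g2' g3' hb1 hs ⊢
  obtain ⟨P, hP⟩ : ∃ P : Fm d l, P = fun j k => Plk K (f j k) := ⟨_, rfl⟩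
  rw [← hP] at g2' g3'
  obtain ⟨V, hV⟩ : ∃ V, V = ipF (TL K f) (TL K f) := ⟨_, rfl⟩
  rw [← hV]
  have hV0 : 0 ≤ V := by rw [hV]; exact ipF_self_nonneg _
  have hdec : ∀ b : Fin d → St d l → ℝ, ipF f (d1 b) = ipF P (d1 b) + ipF (TL K f) (d1 b) := by
    intro b
    rw [hP]
    exact ipF_dec K hfa b
  rw [abs_le]
  constructor
  · -- lower bound
    have h1 := ipF_young P (d1 b) ht0
    have h2 := hdec b
    have h3 : 2 * ipF (TL K f) (d1 b) - ipF (d1 b) (d1 b) ≤ V := by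
      have := ipF_self_nonneg (TL K f - d1 b)
      rw [ipF_sub_left, ipF_comm, ipF_comm (d1 b), ipF_sub_left, ipF_sub_left,
        ipF_comm (d1 b) (TL K f), ← hV] at this
      linarith
    have h4 : ipF P P / t ≤ ε / 16 := by
      rw [div_le_iff₀ ht0]; linarith
    have h5 : t * ipF (d1 b) (d1 b) ≤ ε / 16 := by
      have e1 : ipF (d1 b) (d1 b) ≤ Q := by
        have := (abs_le.1 hb2).2
        have := le_abs_self (pair (dd α) (dd α))
        rw [hQ]; linarith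
      calc t * ipF (d1 b) (d1 b) ≤ t * Q := mul_le_mul_of_nonneg_left e1 ht0.le
        _ = ε / 16 := by rw [ht]; field_simp
    have h6 := (abs_le.1 hb1).1
    have h7 := (abs_le.1 hb2).2
    have h8 := neg_abs_le (ipF P (d1 b))
    have h9 := le_abs_self (ipF P (d1 b))
    linarith
  · -- upper bound
    obtain ⟨a, ha⟩ : ∃ a : Fin d → St d l → ℝ, a = ds2 fun j k => uK K (f j k) := ⟨_, rfl⟩
    have hTL : TL K f = d1 a := by rw [ha]; rfl
    have hsa : ∀ k, SW 2 (hi + K + 1) (a k) := by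
      intro k
      rw [ha]
      refine SW.ds2 (fun j k => ?_) (by omega) k
      exact ((hs j k).uK (k := K) (by omega) (by omega)).mono (by omega) le_rfl
    have h1 := upper hq hφ hτ0.le g4 (l := l) (c := c) hsa (by norm_num)
    rw [← hf, ← hTL, ← hV] at h1
    have h2 := hdec a
    rw [← hTL, ← hV] at h2
    have h3 := ipF_young P (TL K f) hτ0
    rw [← hV] at h3
    have h4 : ipF P P / τ ≤ τ := by
      rw [div_le_iff₀ hτ0]; exact g3'
    have h5 := (abs_le.1 g5').2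
    have h6 : (d : ℝ) ^ 2 / 2 * TS l q c (fun x : Fin d → ℝ => cf (r0 + 2) x * cf (r0 + 2) x) ≤
        C1 := by
      rw [hC1]
      exact mul_le_mul_of_nonneg_left (by linarith) (by positivity)
    have h7 : τ * (V + (d : ℝ) ^ 2 / 2 * TS l q c fun x : Fin d → ℝ =>
        cf (r0 + 2) x * cf (r0 + 2) x) ≤ τ * (V + C1) := mul_le_mul_of_nonneg_left (by linarith) hτ0.le
    have h8 := neg_abs_le (ipF P (TL K f))
    have h9 : V * (1 - 2 * τ) ≤ var φ + τ * C1 + τ := by linarith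
    have h10 : var φ + τ * C1 + τ ≤ (var φ + ε) * (1 - 2 * τ) := by
      have e1 := le_abs_self (var φ)
      have e2 : τ * (var φ) ≤ τ * |var φ| := mul_le_mul_of_nonneg_left e1 hτ0.le
      linarith
    have h11 := h9.trans h10
    have h12 : V ≤ var φ + ε := le_of_mul_le_mul_right h11 (by linarith)
    linarith

end

end Pool.Agent.W793.YM
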