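import Mathlib
import Pool.Agent.W793.YM.VarLim2

/-!
# The Gaussian scaling limit on the tori
-/

open MeasureTheory Filter Topology Matrix
open scoped Matrix.Norms.Frobenius ContDiff
open Pool.Agent.H906R3.YM

namespace Pool.Agent.W793.YM

set_option linter.unusedSectionVars false
set_option linter.unusedVariables false

noncomputable section

variable {d : ℕ}

section bridge

variable {G : Type*} [Group G] [TopologicalSpace G] {N n : ℕ}

/-- plaquette variables of the infinite lattice -/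
def plz (V : Ez d → G) (x : Fin d → ℤ) (j k : Fin d) : G :=
  V (x, j) * V (x + Pi.single j 1, k) * (V (x + Pi.single k 1, j))⁻¹ * (V (x, k))⁻¹

/-- smeared field of the infinite lattice -/
def FZs (L : LD G N n) (φ : Fin n → Fin d → Fin d → (Fin d → ℝ) → ℝ)
    (p : (Fin d → ℤ) → List (Fin d × Bool)) (q : ℕ) (V : Ez d → G) : ℝ :=
  (∑' x : Fin d → ℤ, 1 / 2 * ∑ j, ∑ k, ∑ a, φ a j k (fun i => (x i : ℝ) / q) *
    fi L a (hol V 0 (p x) * plz V x j k * (hol V 0 (p x))⁻¹)) / Real.sqrt ((q : ℝ) ^ d)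

variable {L : LD G N n}

lemma plz_lf {l : ℕ} (U : Ed d l → G) (x : Fin d → ℤ) (j k : Fin d) :
    plz (lf U) x j k = plqT U (zt l x) j k := by
  unfold plz plqT
  rw [← zt_add, ← zt_add]
  rfl

lemma FZs_lf {l q c r : ℕ} [NeZero l] (hq : 1 ≤ q)
    {φ : Fin n → Fin d → Fin d → (Fin d → ℝ) → ℝ}
    (hr : ∀ a j k x, φ a j k x ≠ 0 → ‖x‖ ≤ r) (hc : r * q ≤ c) (hl : c + r * q < l)
    (p : (Fin d → ℤ) → List (Fin d × Bool)) (U : Ed d l → G) :
    FZs L φ p q (lf (tr (zt l fun _ => (c : ℤ)) U)) =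
      Fh L (fun a => fd q c (φ a)) (fun y => hol (lf U) (fun _ => (c : ℤ))
        (p fun i => (wv y i : ℤ) - c)) U := by
  have hq0 : (0 : ℝ) < q := by exact_mod_cast hq
  obtain ⟨o, ho⟩ : ∃ o : Fin d → ℤ, o = fun _ => (c : ℤ) := ⟨_, rfl⟩
  rw [← ho]
  have hV : lf (tr (zt l o) U) = fun e => lf U (e.1 + o, e.2) := by
    funext e
    unfold lf tr zt
    simp only
    congr 2
    funext i
    simp
  have hhol : ∀ p, hol (lf (tr (zt l o) U)) 0 p = hol (lf U) o p := by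
    intro p
    rw [hV, hol_trans, zero_add]
  have hpl : ∀ x j k, plz (lf (tr (zt l o) U)) x j k = plqT U (zt l (x + o)) j k := by
    intro x j k
    rw [← plz_lf, hV]
    unfold plz
    simp only
    rw [add_right_comm x (Pi.single j 1) o, add_right_comm x (Pi.single k 1) o]
  unfold FZs
  simp only [hhol, hpl]
  obtain ⟨e, he⟩ : ∃ e : St d l → Fin d → ℤ, e = fun y i => (wv y i : ℤ) - c := ⟨_, rfl⟩
  have hinj : Function.Injective e := by
    intro y z hyz
    apply wv_inj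
    funext i
    have h3 := congrFun hyz i
    rw [he] at h3
    simp only at h3
    omega
  have hze : ∀ y, zt l (e y + o) = y := by
    intro y
    apply wv_inj
    funext i
    have h1 : ∀ i, 0 ≤ (e y + o) i ∧ (e y + o) i < l := by
      intro i
      rw [he, ho]
      simp only [Pi.add_apply, sub_add_cancel]
      have := wv_lt y i
      constructor <;> omega
    have h2 := wv_zt h1 i
    rw [he, ho] at h2 ⊢
    simp only [Pi.add_apply, sub_add_cancel] at h2
    exact_mod_cast h2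
  rw [← hinj.tsum_eq, tsum_fintype]
  · simp only [hze]
    have hpos : ∀ y : St d l, (fun i => ((e y i : ℤ) : ℝ) / q) = pos q c y := by
      intro y
      funext i
      rw [he]
      unfold pos
      push_cast
      rfl
    simp only [hpos]
    unfold Fh ipF ip2 fd
    rw [Finset.sum_div]
    have hpe : ∀ y : St d l, (p fun i => (wv y i : ℤ) - c) = p (e y) := fun y => by rw [he]
    simp only [hpe]
    obtain ⟨s, hs⟩ : ∃ s, s = Real.sqrt ((q : ℝ) ^ d) := ⟨_, rfl⟩
    rw [← hs]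
    simp only [Finset.mul_sum, Finset.sum_div]
    rw [Finset.sum_comm' (s := Finset.univ) (t := fun _ => Finset.univ)
      (s' := fun _ => Finset.univ) (t' := Finset.univ) (by simp)]
    have e1 : ∀ j : Fin d, ∑ y : St d l, ∑ k, ∑ a, 1 / 2 * (φ a j k (pos q c y) *
        fi L a (hol (lf U) o (p (e y)) * plqT U y j k * (hol (lf U) o (p (e y)))⁻¹)) / s =
        ∑ a, ∑ k, ∑ y : St d l, 1 / 2 * (φ a j k (pos q c y) / s *
        fi L a (hol (lf U) o (p (e y)) * plqT U y j k * (hol (lf U) o (p (e y)))⁻¹)) := by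
      intro j
      rw [Finset.sum_comm, Finset.sum_comm (s := Finset.univ) (t := Finset.univ) (f := fun a k =>
        ∑ y : St d l, 1 / 2 * (φ a j k (pos q c y) / s *
        fi L a (hol (lf U) o (p (e y)) * plqT U y j k * (hol (lf U) o (p (e y)))⁻¹)))]
      refine Finset.sum_congr rfl fun k _ => ?_
      rw [Finset.sum_comm]
      refine Finset.sum_congr rfl fun a _ => Finset.sum_congr rfl fun y _ => ?_
      ring
    rw [Finset.sum_congr rfl fun j _ => e1 j, Finset.sum_comm]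
  · intro x hx
    have h3 : ‖(fun i => (x i : ℝ) / (q : ℝ) : Fin d → ℝ)‖ ≤ r := by
      by_contra hcon
      apply hx
      have h0 : ∀ a j k, φ a j k (fun i => (x i : ℝ) / (q : ℝ)) = 0 := by
        intro a j k
        by_contra h
        exact hcon (hr a j k _ h)
      simp only [h0, zero_mul, Finset.sum_const_zero, mul_zero]
    rw [pi_norm_le_iff_of_nonneg (by positivity)] at h3
    have h4 : ∀ i, -((r * q : ℕ) : ℤ) ≤ x i ∧ x i ≤ ((r * q : ℕ) : ℤ) := by
      intro i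
      have h5 := h3 i
      rw [Real.norm_eq_abs, abs_div, abs_of_pos hq0, div_le_iff₀ hq0, abs_le] at h5
      have h6 : (-((r * q : ℕ) : ℤ) : ℝ) ≤ (x i : ℝ) := by push_cast; linarith [h5.1]
      have h7 : (x i : ℝ) ≤ (((r * q : ℕ) : ℤ) : ℝ) := by push_cast; linarith [h5.2]
      exact ⟨by exact_mod_cast h6, by exact_mod_cast h7⟩
    refine ⟨zt l fun i => x i + c, ?_⟩
    rw [he]
    funext i
    simp only
    have h8 : ∀ i, 0 ≤ (fun i => x i + (c : ℤ)) i ∧ (fun i => x i + (c : ℤ)) i < l := by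
      intro i
      have := h4 i
      simp only
      constructor <;> omega
    rw [wv_zt h8 i]
    simp

end bridge

variable {G : Type*} [Group G] [TopologicalSpace G] [IsTopologicalGroup G] [CompactSpace G]
  [SecondCountableTopology G] [MeasurableSpace G] [BorelSpace G] (μ : Measure G)
  [IsProbabilityMeasure μ] [μ.IsMulLeftInvariant] [μ.IsMulRightInvariant] [μ.IsInvInvariant]
  {N n : ℕ} {L : LD G N n}

lemma var_nonneg {φ : Fin d → Fin d → (Fin d → ℝ) → ℝ} (hφ : IsTwo φ) : 0 ≤ var φ := by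
  have h := var_ge hφ (α := fun _ _ => 0) ⟨fun k => contDiff_const, fun k =>
    HasCompactSupport.zero⟩
  have h1 : dd (fun (_ : Fin d) (_ : Fin d → ℝ) => (0 : ℝ)) = fun _ _ _ => 0 := by
    funext j k x
    unfold dd pd
    simp
  rw [h1] at h
  unfold pair at h
  simpa using h

/-- the error terms tend to zero -/
lemma err_lim (hd : 3 ≤ d) {A ε : ℝ} (hA : 0 ≤ A) (hε : 0 < ε) : ∀ᶠ q : ℕ in atTop,
    ∀ b N1 : ℝ, (q : ℝ) ^ (15 * d + 22) ≤ b → 0 ≤ N1 → N1 ≤ A * Real.sqrt ((q : ℝ) ^ d) →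
      N1 / Real.sqrt (Real.sqrt ((q ^ 7 : ℕ) : ℝ) ^ (d - 2)) +
        ((q ^ 7 : ℕ) : ℝ) ^ (2 * d + 3) * (1 + N1) ^ 2 / b ≤ ε := by
  have h1 : ∀ᶠ q : ℕ in atTop, (2 * (A + 1) / ε) ^ 4 ≤ (q : ℝ) :=
    tendsto_natCast_atTop_atTop.eventually_ge_atTop _
  have h2 : ∀ᶠ q : ℕ in atTop, 2 * (1 + A) ^ 2 / ε ≤ (q : ℝ) :=
    tendsto_natCast_atTop_atTop.eventually_ge_atTop _
  filter_upwards [h1, h2, eventually_ge_atTop 1] with q g1 g2 hq b N1 hb hN0 hN
  have hq0 : (0 : ℝ) < q := by exact_mod_cast hq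
  have hq1 : (1 : ℝ) ≤ q := by exact_mod_cast hq
  have hqd : 1 ≤ (q : ℝ) ^ d := one_le_pow₀ hq1
  have hb0 : 0 < b := lt_of_lt_of_le (by positivity) hb
  -- first term
  have t1 : N1 / Real.sqrt (Real.sqrt ((q ^ 7 : ℕ) : ℝ) ^ (d - 2)) ≤ ε / 2 := by
    have e1 : (q : ℝ) ^ d * Real.sqrt q ≤ Real.sqrt ((q ^ 7 : ℕ) : ℝ) ^ (d - 2) := by
      have f1 : ((q : ℝ) ^ d * Real.sqrt q) ^ 2 ≤
          (Real.sqrt ((q ^ 7 : ℕ) : ℝ) ^ (d - 2)) ^ 2 := by
        have f2 : (Real.sqrt ((q ^ 7 : ℕ) : ℝ) ^ (d - 2)) ^ 2 = (q : ℝ) ^ (7 * (d - 2)) := by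
          rw [← pow_mul, mul_comm, pow_mul, Real.sq_sqrt (by positivity)]
          push_cast
          rw [← pow_mul]
        rw [f2, mul_pow, Real.sq_sqrt hq0.le, ← pow_mul]
        calc (q : ℝ) ^ (d * 2) * q = (q : ℝ) ^ (d * 2 + 1) := (pow_succ _ _).symm
          _ ≤ _ := pow_le_pow_right₀ hq1 (by omega)
      exact le_of_sq_le_sq f1 (by positivity)
    obtain ⟨S, hS⟩ : ∃ S, S = Real.sqrt ((q : ℝ) ^ d) := ⟨_, rfl⟩
    obtain ⟨T, hT⟩ : ∃ T, T = Real.sqrt (Real.sqrt (q : ℝ)) := ⟨_, rfl⟩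
    have hS0 : 0 < S := by rw [hS]; positivity
    have hT0 : 0 < T := by rw [hT]; positivity
    have e2 : S * T ≤ Real.sqrt (Real.sqrt ((q ^ 7 : ℕ) : ℝ) ^ (d - 2)) := by
      rw [hS, hT, ← Real.sqrt_mul (by positivity)]
      exact Real.sqrt_le_sqrt e1
    have e3 : 2 * (A + 1) / ε ≤ T := by
      have f1 : T ^ 4 = q := by
        have : T ^ 4 = (T ^ 2) ^ 2 := by ring
        rw [this, hT, Real.sq_sqrt (Real.sqrt_nonneg _), Real.sq_sqrt hq0.le]
      rw [← f1] at g1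
      exact le_of_pow_le_pow_left₀ (by norm_num) hT0.le g1
    rw [div_le_iff₀ hε] at e3
    rw [← hS] at hN
    calc N1 / Real.sqrt (Real.sqrt ((q ^ 7 : ℕ) : ℝ) ^ (d - 2)) ≤ A * S / (S * T) :=
          div_le_div₀ (by positivity) hN (by positivity) e2
      _ = A / T := by field_simp
      _ ≤ ε / 2 := by
          rw [div_le_iff₀ hT0]; nlinarith
  have t2 : ((q ^ 7 : ℕ) : ℝ) ^ (2 * d + 3) * (1 + N1) ^ 2 / b ≤ ε / 2 := by
    have e1 : (1 + N1) ^ 2 ≤ (1 + A) ^ 2 * (q : ℝ) ^ d := by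
      obtain ⟨S, hS⟩ : ∃ S, S = Real.sqrt ((q : ℝ) ^ d) := ⟨_, rfl⟩
      have hS1 : 1 ≤ S := by
        rw [hS, Real.one_le_sqrt]; exact hqd
      have hS2 : S ^ 2 = (q : ℝ) ^ d := by rw [hS, Real.sq_sqrt (by positivity)]
      rw [← hS] at hN
      rw [← hS2, ← mul_pow]
      exact pow_le_pow_left₀ (by positivity) (by nlinarith) 2
    have e2 : ((q ^ 7 : ℕ) : ℝ) ^ (2 * d + 3) = (q : ℝ) ^ (14 * d + 21) := by
      push_cast
      rw [← pow_mul]; congr 1; ring
    rw [e2]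
    rw [div_le_iff₀ hε] at g2
    calc (q : ℝ) ^ (14 * d + 21) * (1 + N1) ^ 2 / b ≤
        (q : ℝ) ^ (14 * d + 21) * ((1 + A) ^ 2 * (q : ℝ) ^ d) / (q : ℝ) ^ (15 * d + 22) :=
          div_le_div₀ (by positivity) (mul_le_mul_of_nonneg_left e1 (by positivity))
            (by positivity) hb
      _ = (1 + A) ^ 2 / q := by
          have : (q : ℝ) ^ (15 * d + 22) = (q : ℝ) ^ (14 * d + 21) * (q : ℝ) ^ d * q := by
            rw [← pow_add, ← pow_succ]; congr 1; ring
          rw [this]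
          field_simp
      _ ≤ ε / 2 := by
          rw [div_le_iff₀ hq0]; linarith
  linarith

lemma exp_half_sub {x y : ℝ} (hx : 0 ≤ x) (hy : 0 ≤ y) :
    |Real.exp (-(x / 2)) - Real.exp (-(y / 2))| ≤ |x - y| := by
  have key : ∀ x y : ℝ, 0 ≤ x → x ≤ y →
      |Real.exp (-(x / 2)) - Real.exp (-(y / 2))| ≤ |x - y| := by
    intro x y hx hxy
    have h1 : Real.exp (-(y / 2)) ≤ Real.exp (-(x / 2)) := Real.exp_le_exp.2 (by linarith)
    rw [abs_of_nonneg (by linarith), abs_of_nonpos (by linarith : x - y ≤ 0)]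
    have h2 : Real.exp (-(y / 2)) = Real.exp (-(x / 2)) * Real.exp (-((y - x) / 2)) := by
      rw [← Real.exp_add]; congr 1; ring
    have h3 : 1 - (y - x) / 2 ≤ Real.exp (-((y - x) / 2)) := by
      have := Real.add_one_le_exp (-((y - x) / 2))
      linarith
    have h4 : Real.exp (-(x / 2)) ≤ 1 := Real.exp_le_one_iff.2 (by linarith)
    have h5 := Real.exp_pos (-(x / 2))
    have h6 : Real.exp (-((y - x) / 2)) ≤ 1 := Real.exp_le_one_iff.2 (by linarith)
    rw [h2]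
    nlinarith
  rcases le_total x y with h | h
  · exact key x y hx h
  · rw [abs_sub_comm, abs_sub_comm x y]
    exact key y x hy h

/-- **The Gaussian scaling limit on the tori.** -/
theorem gauss_lim (hd : 3 ≤ d) (Λ : ℕ) {φ : Fin n → Fin d → Fin d → (Fin d → ℝ) → ℝ}
    (hφ : ∀ a, IsTwo (φ a)) {ε : ℝ} (hε : 0 < ε) : ∀ᶠ q : ℕ in atTop, ∀ b : ℝ,
      (q : ℝ) ^ (15 * d + 22) ≤ b → ∀ (m : ℕ) [NeZero m], q ^ 8 ≤ 2 * m →
      ∀ p : (Fin d → ℤ) → List (Fin d × Bool), (∀ x, dest 0 (p x) = x) →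
      (∀ x, (p x).length ≤ Λ * (1 + ∑ i, (x i).natAbs)) →
      |EX μ L (b ^ 4) (fun U : Ed d (2 * m) → G => Real.cos (b ^ 2 * FZs L φ p q (lf U))) -
        Real.exp (-((∑ a, var (φ a)) / 2))| ≤ ε ∧
      |EX μ L (b ^ 4) (fun U : Ed d (2 * m) → G => Real.sin (b ^ 2 * FZs L φ p q (lf U)))| ≤
        ε := by
  obtain ⟨C, hC, hmain⟩ := lattice_rb μ (L := L) hd
  -- supports
  obtain ⟨r, hr⟩ := supp_r (f := fun p : Fin n × Fin d × Fin d => φ p.1 p.2.1 p.2.2)
    fun p => (hφ _).supp _ _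
  have hr' : ∀ a j k x, φ a j k x ≠ 0 → ‖x‖ ≤ r := fun a j k => hr (a, j, k)
  -- the absolute sums
  have hl1 : ∀ a, ∃ (r : ℕ) (A : ℝ), 0 ≤ A ∧ ∀ᶠ q : ℕ in atTop, ∀ (l c : ℕ) [NeZero l],
      r * q ≤ c → c + r * q < l → ∀ j k,
        ∑ y : St d l, |fd q c (φ a) j k y| ≤ Real.sqrt ((q : ℝ) ^ d) * A := by
    intro a
    obtain ⟨r, A, hA, -, h⟩ := fd_l1_bd (hφ a)
    exact ⟨r, A, hA, h⟩
  choose r1 A hA hl1 using hl1
  have hvl : ∀ a, ∃ r : ℕ, ∀ᶠ q : ℕ in atTop, ∀ (l c hi : ℕ) [NeZero l], r * q ≤ c →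
      c + r * q < l → (∀ j k, SW (q ^ 7 + 2) hi (fd (l := l) q c (φ a) j k)) →
      hi + q ^ 7 + 1 < l →
      |ipF (TL (q ^ 7) (fd (l := l) q c (φ a))) (TL (q ^ 7) (fd q c (φ a))) - var (φ a)| ≤
        ε / 2 / (n + 1) := fun a => var_lim hd (hφ a) (by positivity)
  choose r2 hvl using hvl
  obtain ⟨R, hR⟩ : ∃ R, R = r + (∑ a, r1 a) + ∑ a, r2 a := ⟨_, rfl⟩
  have hR1 : ∀ a, r1 a ≤ R := fun a => by
    have := Finset.single_le_sum (f := r1) (fun a _ => Nat.zero_le _) (Finset.mem_univ a)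
    omega
  have hR2 : ∀ a, r2 a ≤ R := fun a => by
    have := Finset.single_le_sum (f := r2) (fun a _ => Nat.zero_le _) (Finset.mem_univ a)
    omega
  obtain ⟨B, hB⟩ : ∃ B : ℝ, B = d ^ 2 * ∑ a, A a := ⟨_, rfl⟩
  have hB0 : 0 ≤ B := by
    rw [hB]
    exact mul_nonneg (by positivity) (Finset.sum_nonneg fun a _ => hA a)
  have herr := err_lim hd hB0 (show 0 < ε / 2 / C by positivity)
  filter_upwards [herr, eventually_all.2 hl1, eventually_all.2 hvl,
    eventually_ge_atTop (2 * R + 10 + Λ * (1 + d * R))] with q g1 g2 g3 hq b hb m _ hm p hp1 hp2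
  have hq2 : 2 * R + 2 ≤ q := by omega
  have hq1 : 1 ≤ q := by omega
  have hqΛ : Λ * (1 + d * R) ≤ q := by omega
  obtain ⟨K, hK⟩ : ∃ K, K = q ^ 7 := ⟨_, rfl⟩
  have hK1 : 1 ≤ K := by rw [hK]; exact Nat.one_le_pow _ _ hq1
  have hqq : q * q ≤ K := by
    rw [hK]
    calc q * q = q ^ 2 := (pow_two q).symm
      _ ≤ q ^ 7 := Nat.pow_le_pow_right hq1 (by norm_num)
  have hRq : 2 * (R * q) + 2 ≤ K := by
    calc 2 * (R * q) + 2 ≤ (2 * R + 2) * q := by nlinarith
      _ ≤ q * q := Nat.mul_le_mul_right q hq2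
      _ ≤ K := hqq
  have hKm : 3 * K + 5 < 2 * m := by
    have e1 : 10 * K ≤ 2 * m := by
      calc 10 * K ≤ q * K := Nat.mul_le_mul_right K (by omega)
        _ = q ^ 8 := by rw [hK]; ring
        _ ≤ 2 * m := hm
    omega
  obtain ⟨c, hc⟩ : ∃ c, c = K + 2 + R * q := ⟨_, rfl⟩
  have hbig : (1 : ℝ) ≤ b := by
    refine le_trans ?_ hb
    exact one_le_pow₀ (by exact_mod_cast hq1)
  have hb0 : 0 < b := by linarith
  obtain ⟨f, hf⟩ : ∃ f : Fin n → Fm d (2 * m), f = fun a => fd q c (φ a) := ⟨_, rfl⟩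
  have hrR : r ≤ R := by omega
  have hrq : r * q ≤ R * q := Nat.mul_le_mul_right q hrR
  have hq0 : (0 : ℝ) < q := by exact_mod_cast hq1
  -- support of the forms
  have hsup : ∀ a j k y, f a j k y ≠ 0 → ∀ i, (wv y i : ℤ) - c ≤ r * q ∧
      -(r * q : ℤ) ≤ (wv y i : ℤ) - c := by
    intro a j k y hy i
    rw [hf] at hy
    have h1 : φ a j k (pos q c y) ≠ 0 := by
      intro h0
      apply hy
      show φ a j k (pos q c y) / _ = 0
      rw [h0, zero_div]
    have h2 := (norm_le_pi_norm _ i).trans (hr' a j k _ h1)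
    unfold pos at h2
    rw [Real.norm_eq_abs, abs_div, abs_of_pos hq0, div_le_iff₀ hq0, abs_le] at h2
    have h3 : (((wv y i : ℤ) - c : ℤ) : ℝ) ≤ ((r * q : ℤ) : ℝ) := by push_cast; exact h2.2
    have h4 : ((-(r * q : ℤ) : ℤ) : ℝ) ≤ (((wv y i : ℤ) - c : ℤ) : ℝ) := by
      push_cast; exact h2.1
    exact ⟨by exact_mod_cast h3, by exact_mod_cast h4⟩
  have hSW : ∀ a j k, SW (K + 2) (2 * K + 2) (f a j k) := by
    intro a j k y hy i
    have h1 := hsup a j k y hy i
    have h2 : ((r * q : ℕ) : ℤ) ≤ ((R * q : ℕ) : ℤ) := by exact_mod_cast hrq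
    push_cast at h2
    have h3 : (c : ℤ) = K + 2 + R * q := by rw [hc]; push_cast; ring
    have h4 : (2 * (R * q) + 2 : ℤ) ≤ K := by exact_mod_cast hRq
    constructor
    · have : ((K + 2 : ℕ) : ℤ) ≤ wv y i := by push_cast; linarith [h1.2]
      exact_mod_cast this
    · have : (wv y i : ℤ) < ((2 * K + 2 : ℕ) : ℤ) := by push_cast; linarith [h1.1]
      exact_mod_cast this
  have hfa : ∀ a, Asy (f a) := fun a => by rw [hf]; exact fd_asy (hφ a)
  have hcr : r * q ≤ c := by omega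
  have hcl : c + r * q < 2 * m := by omega
  obtain ⟨P, hP⟩ : ∃ P : St d (2 * m) → List (Fin d × Bool),
    P = fun y => p fun i => (wv y i : ℤ) - c := ⟨_, rfl⟩
  have hPa : ∀ a j k y, f a j k y ≠ 0 → (P y).length ≤ K ∧
      zt (2 * m) (dest (fun _ => (c : ℤ)) (P y)) = y := by
    intro a j k y hy
    have h1 := hsup a j k y hy
    rw [hP]
    constructor
    · refine (hp2 _).trans ?_
      have h2 : ∑ i : Fin d, ((wv y i : ℤ) - c).natAbs ≤ d * (R * q) := by
        calc ∑ i : Fin d, ((wv y i : ℤ) - c).natAbs ≤ ∑ _i : Fin d, R * q := by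
              refine Finset.sum_le_sum fun i _ => ?_
              have h3 := h1 i
              have h4 : ((wv y i : ℤ) - c).natAbs ≤ r * q := by
                have h5 : ((((wv y i : ℤ) - c).natAbs : ℕ) : ℤ) ≤ ((r * q : ℕ) : ℤ) := by
                  rw [Int.natCast_natAbs, abs_le]
                  push_cast
                  exact ⟨h3.2, h3.1⟩
                exact_mod_cast h5
              omega
          _ = _ := by rw [Finset.sum_const, Finset.card_univ, Fintype.card_fin, smul_eq_mul]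
      calc Λ * (1 + ∑ i : Fin d, ((wv y i : ℤ) - c).natAbs) ≤ Λ * (1 + d * (R * q)) :=
            Nat.mul_le_mul_left Λ (by omega)
        _ ≤ Λ * ((1 + d * R) * q) := by
            refine Nat.mul_le_mul_left Λ ?_
            nlinarith
        _ = Λ * (1 + d * R) * q := by ring
        _ ≤ q * q := Nat.mul_le_mul_right q hqΛ
        _ ≤ K := hqq
    · have h2 : dest (fun _ => (c : ℤ)) (p fun i => (wv y i : ℤ) - c) =
          fun i => (wv y i : ℤ) := by
        have h3 := dest_trans (fun _ => (c : ℤ)) (0 : Fin d → ℤ) (p fun i => (wv y i : ℤ) - c)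
        rw [zero_add] at h3
        rw [h3, hp1]
        funext i
        simp
      rw [h2]
      funext i
      unfold zt wv
      simp
  have hmain' := hmain b hbig m K hK1 hKm f hfa hSW (fun _ => (c : ℤ)) P
    (fun i => by
      have h3 : (c : ℤ) = K + 2 + R * q := by rw [hc]; push_cast; ring
      have h4 : (2 * (R * q) + 2 : ℤ) ≤ K := by exact_mod_cast hRq
      have h5 : (0 : ℤ) ≤ R * q := by positivity
      constructor <;> linarith) hPa
  -- norms
  have hN1 : N1 f ≤ B * Real.sqrt ((q : ℝ) ^ d) := by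
    have e1 : ∀ a j k, ∑ x, |f a j k x| ≤ Real.sqrt ((q : ℝ) ^ d) * A a := by
      intro a j k
      rw [hf]
      have h5 := Nat.mul_le_mul_right q (hR1 a)
      exact g2 a (2 * m) c (by omega) (by omega) j k
    calc N1 f ≤ ∑ a, ∑ _j : Fin d, ∑ _k : Fin d, Real.sqrt ((q : ℝ) ^ d) * A a :=
          Finset.sum_le_sum fun a _ => Finset.sum_le_sum fun j _ => Finset.sum_le_sum fun k _ =>
            e1 a j k
      _ = _ := by
          simp only [Finset.sum_const, Finset.card_univ, Fintype.card_fin, nsmul_eq_mul]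
          rw [hB, Finset.mul_sum, Finset.sum_mul]
          refine Finset.sum_congr rfl fun a _ => ?_
          ring
  have herr' := g1 b (N1 f) hb (N1_nonneg f) hN1
  rw [← hK] at herr'
  have herr2 : C * (N1 f / Real.sqrt (Real.sqrt K ^ (d - 2)) + (K : ℝ) ^ (2 * d + 3) *
      (1 + N1 f) ^ 2 / b) ≤ ε / 2 := by
    calc _ ≤ C * (ε / 2 / C) := mul_le_mul_of_nonneg_left herr' hC.le
      _ = ε / 2 := by field_simp
  have hvar : |vK K f - ∑ a, var (φ a)| ≤ ε / 2 := by
    rw [vK_eq, ← Finset.sum_sub_distrib]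
    have e1 : ∀ a, |ipF (TL K (f a)) (TL K (f a)) - var (φ a)| ≤ ε / 2 / (n + 1) := by
      intro a
      have h5 := Nat.mul_le_mul_right q (hR2 a)
      have := g3 a (2 * m) c (2 * K + 2) (by omega) (by omega) (by
        rw [← hK]
        intro j k
        have := hSW a j k
        rw [hf] at this
        exact this) (by rw [← hK]; omega)
      rw [← hK] at this
      rw [hf]
      exact this
    calc |∑ a, (ipF (TL K (f a)) (TL K (f a)) - var (φ a))| ≤ ∑ _a : Fin n, ε / 2 / (n + 1) :=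
          (Finset.abs_sum_le_sum_abs _ _).trans (Finset.sum_le_sum fun a _ => e1 a)
      _ = n * (ε / 2) / (n + 1) := by
          rw [Finset.sum_const, Finset.card_univ, Fintype.card_fin, nsmul_eq_mul]; ring
      _ ≤ ε / 2 := by
          rw [div_le_iff₀ (by positivity)]; nlinarith
  have hexp : |Real.exp (-(vK K f / 2)) - Real.exp (-((∑ a, var (φ a)) / 2))| ≤ ε / 2 := by
    refine (exp_half_sub ?_ (Finset.sum_nonneg fun a _ => var_nonneg (hφ a))).trans hvar
    rw [vK_eq]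
    exact Finset.sum_nonneg fun a _ => ipF_self_nonneg _
  -- change of variables
  have hcv : ∀ t : ℝ → ℝ, EX μ L (b ^ 4) (fun U : Ed d (2 * m) → G =>
      t (b ^ 2 * FZs L φ p q (lf U))) = EX μ L (b ^ 4) (fun U : Ed d (2 * m) → G =>
        t (b ^ 2 * Fh L f (fun y => hol (lf U) (fun _ => (c : ℤ)) (P y)) U)) := by
    intro t
    rw [← EX_tr μ (L := L) (β := b ^ 4) (zt (2 * m) fun _ => (c : ℤ))
      (fun U : Ed d (2 * m) → G => t (b ^ 2 * FZs L φ p q (lf U)))]
    congr 1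
    funext U
    rw [FZs_lf hq1 hr' hcr hcl p U, hf, hP]
  rw [hcv Real.cos, hcv Real.sin]
  obtain ⟨h1, h2⟩ := hmain'
  constructor
  · have e1 : ∀ x y z : ℝ, |x - y| ≤ ε / 2 → |y - z| ≤ ε / 2 → |x - z| ≤ ε := by
      intro x y z hxy hyz
      have : x - z = (x - y) + (y - z) := by ring
      rw [this]
      linarith [abs_add_le (x - y) (y - z)]
    exact e1 _ _ _ (h1.trans herr2) hexp
  · linarith [h2.trans herr2]

lemma plz_cont (x : Fin d → ℤ) (j k : Fin d) : Continuous fun V : Ez d → G => plz V x j k := by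
  have h : ∀ e : Ez d, Continuous fun V : Ez d → G => V e := fun e => continuous_apply e
  unfold plz
  exact (((h _).mul (h _)).mul (h _).inv).mul (h _).inv

lemma FZs_cont (p : (Fin d → ℤ) → List (Fin d × Bool)) {q : ℕ} (hq : 1 ≤ q)
    {φ : Fin n → Fin d → Fin d → (Fin d → ℝ) → ℝ} (hφ : ∀ a, IsTwo (φ a)) :
    Continuous (FZs L φ p q : (Ez d → G) → ℝ) := by
  have hq0 : (0 : ℝ) < q := by exact_mod_cast hq
  obtain ⟨r, hr⟩ := supp_r (f := fun p : Fin n × Fin d × Fin d => φ p.1 p.2.1 p.2.2)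
    fun p => (hφ _).supp _ _
  obtain ⟨S, hS⟩ : ∃ S : Finset (Fin d → ℤ), S = Fintype.piFinset fun _ =>
    Finset.Icc (-((r * q : ℕ) : ℤ)) ((r * q : ℕ) : ℤ) := ⟨_, rfl⟩
  have h0 : ∀ x : Fin d → ℤ, x ∉ S → ∀ a j k, φ a j k (fun i => (x i : ℝ) / q) = 0 := by
    intro x hx a j k
    by_contra hc
    apply hx
    have h3 := hr (a, j, k) _ hc
    rw [pi_norm_le_iff_of_nonneg (by positivity)] at h3
    rw [hS, Fintype.mem_piFinset]
    intro i
    have h5 := h3 i
    rw [Real.norm_eq_abs, abs_div, abs_of_pos hq0, div_le_iff₀ hq0, abs_le] at h5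
    have h6 : (-((r * q : ℕ) : ℤ) : ℝ) ≤ (x i : ℝ) := by push_cast; linarith [h5.1]
    have h7 : (x i : ℝ) ≤ (((r * q : ℕ) : ℤ) : ℝ) := by push_cast; linarith [h5.2]
    rw [Finset.mem_Icc]
    exact ⟨by exact_mod_cast h6, by exact_mod_cast h7⟩
  have h1 : (FZs L φ p q : (Ez d → G) → ℝ) = fun V => (∑ x ∈ S,
      1 / 2 * ∑ j, ∑ k, ∑ a, φ a j k (fun i => (x i : ℝ) / q) *
        fi L a (hol V 0 (p x) * plz V x j k * (hol V 0 (p x))⁻¹)) / Real.sqrt ((q : ℝ) ^ d) := by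
    funext V
    unfold FZs
    rw [tsum_eq_sum (s := S)]
    intro x hx
    simp only [h0 x hx, zero_mul, Finset.sum_const_zero, mul_zero]
  rw [h1]
  refine (continuous_finsetSum _ fun x _ => continuous_const.mul
    (continuous_finsetSum _ fun j _ => continuous_finsetSum _ fun k _ =>
      continuous_finsetSum _ fun a _ => continuous_const.mul ?_)).div_const _
  exact (fi_cont a).comp (((hol_cont 0 (p x)).mul (plz_cont x j k)).mul (hol_cont 0 (p x)).inv)

end

end Pool.Agent.W793.YM
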