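import Mathlib
import Pool.Agent.H906R3.YM.Conc
import Pool.Agent.W793.YM.GLim

/-!
# Lattice Yang-Mills theory: the Gaussian scaling limit

Wilson's lattice gauge theory in dimension `d ≥ 3` with gauge group an arbitrary closed subgroup `G`
of `U(N)`: the probability measure on `G ^ links` with density proportional to
`exp (-β ∑_p Re tr (1 - U_p))` with respect to the Haar measure, on the periodic lattices `(ℤ/l)^d`
with `l` even and in all their infinite volume limits. The lattice field strength
`√β Re tr (X_a* H(x) U_{jk}(x) H(x)⁻¹)`, where `X_a` is an orthonormal basis of the Lie algebra,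
`U_{jk}(x)` the plaquette variable and `H(x)` the parallel transport from the origin to `x` along an
arbitrarily chosen lattice path, rescaled to the lattice spacing `1/q`, converges as `q → ∞` to
`dim G` independent copies of the field strength of the free Maxwell theory on `ℝ^d`, provided that
`β ≥ q ^ (60 d + 88)`: the characteristic functional tends to the Gaussian one, uniformly in `β`, in
the volume and in the choice of the paths.
-/

open MeasureTheory Matrix Filter
open scoped Matrix.Norms.Frobenius Topology ContDiff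

namespace Pool.Agent.Results.MP_7f377f_mp.GaussianLimit

set_option linter.unusedSectionVars false

noncomputable section

/-- Complex `N × N` matrices. -/
abbrev Mt (N : ℕ) := Matrix (Fin N) (Fin N) ℂ

/-- The unitary group `U(N)`. -/
abbrev UU (N : ℕ) := Matrix.unitaryGroup (Fin N) ℂ

/-- The matrix of an element of a subgroup of `U(N)`. -/
def mt {N : ℕ} {G : Subgroup (UU N)} (g : G) : Mt N := ((g : UU N) : Mt N)

/-- An orthonormal basis `X` of the Lie algebra of `G`, that is of the real space of all matrices `Y`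
with `exp (t Y) ∈ G` for all real `t`, with the scalar product `Re tr (Y* Z)`; `ex a t` is the
element `exp (t X_a)` of `G`. -/
structure LieBasis {N : ℕ} (G : Subgroup (UU N)) (n : ℕ) where
  X : Fin n → Mt N
  ex : Fin n → ℝ → G
  ex_eq : ∀ a t, mt (ex a t) = NormedSpace.exp (t • X a)
  orth : ∀ a b, (trace ((X a)ᴴ * X b)).re = if a = b then 1 else 0
  full : ∀ Y : Mt N, (∀ t : ℝ, ∃ g : G, mt g = NormedSpace.exp (t • Y)) →
    Y ∈ Submodule.span ℝ (Set.range X)

/-- Links of the periodic lattice `(ℤ/l)^d`: base point and direction. -/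
abbrev Link (d l : ℕ) := (Fin d → ZMod l) × Fin d

/-- Links of the lattice `ℤ^d`: base point and direction. -/
abbrev LinkZ (d : ℕ) := (Fin d → ℤ) × Fin d

section

variable {N n d l : ℕ} {G : Subgroup (UU N)}

/-- The product of the link variables around the plaquette at `x` in the directions `i`, `j`. -/
def plaq (U : Link d l → G) (x : Fin d → ZMod l) (i j : Fin d) : G :=
  U (x, i) * U (x + Pi.single i 1, j) * (U (x + Pi.single j 1, i))⁻¹ * (U (x, j))⁻¹

/-- The Wilson action `∑_p Re tr (1 - U_p)`, the sum over the plaquettes. -/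
def action [NeZero l] (U : Link d l → G) : ℝ :=
  ∑ x : Fin d → ZMod l, ∑ i : Fin d, ∑ j : Fin d,
    if i < j then (trace (1 - mt (plaq U x i j))).re else 0

/-- The periodic extension of a configuration. -/
def per (U : Link d l → G) : LinkZ d → G := fun e => U (fun i => (e.1 i : ZMod l), e.2)

/-- The expectation of `F` in the lattice Yang-Mills theory on `(ℤ/l)^d`, `μ` being the Haar
measure. -/
def expect (l : ℕ) [NeZero l] [MeasurableSpace G] (μ : Measure G) (β : ℝ)
    (F : (LinkZ d → G) → ℝ) : ℝ :=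
  (∫ U : Link d l → G, F (per U) * Real.exp (-(β * action U)) ∂(Measure.pi fun _ => μ)) /
    ∫ U : Link d l → G, Real.exp (-(β * action U)) ∂(Measure.pi fun _ => μ)

/-- `ν` is an infinite volume limit (weak limit along a subsequence) of the theories on the tori of
even side at inverse coupling `β`. -/
structure IsInfVol [MeasurableSpace G] (μ : Measure G) (β : ℝ)
    (ν : Measure (LinkZ d → G)) : Prop where
  prob : IsProbabilityMeasure ν
  lim : ∃ s : ℕ → ℕ, Tendsto s atTop atTop ∧ ∀ F : (LinkZ d → G) → ℝ, Continuous F →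
    Tendsto (fun j => expect (2 * (s j + 1)) μ β F) atTop (𝓝 (∫ V, F V ∂ν))

/-- The product of the link variables along the lattice path which starts at `x` and whose steps are
`+ e_i` for `(i, true)` and `- e_i` for `(i, false)`. -/
def hol (V : LinkZ d → G) : (Fin d → ℤ) → List (Fin d × Bool) → G
  | _, [] => 1
  | x, (i, true) :: p => V (x, i) * hol V (x + Pi.single i 1) p
  | x, (i, false) :: p => (V (x - Pi.single i 1, i))⁻¹ * hol V (x - Pi.single i 1) p

/-- The end point of the path. -/
def dest : (Fin d → ℤ) → List (Fin d × Bool) → (Fin d → ℤ)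
  | x, [] => x
  | x, (i, true) :: p => dest (x + Pi.single i 1) p
  | x, (i, false) :: p => dest (x - Pi.single i 1) p

/-- `p x` is, for every `x`, a lattice path from `0` to `x` with at most `Λ (1 + |x|₁)` steps. -/
structure IsTransport (Λ : ℕ) (p : (Fin d → ℤ) → List (Fin d × Bool)) : Prop where
  dest : ∀ x, dest 0 (p x) = x
  length : ∀ x, (p x).length ≤ Λ * (1 + ∑ i, (x i).natAbs)

/-- The plaquette variable of a configuration on `ℤ^d`. -/
def plaqZ (V : LinkZ d → G) (x : Fin d → ℤ) (i j : Fin d) : G :=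
  V (x, i) * V (x + Pi.single i 1, j) * (V (x + Pi.single j 1, i))⁻¹ * (V (x, j))⁻¹

/-- The component `Re tr (X_a* H U_{jk}(x) H⁻¹)` of the lattice field strength at `x`, transported to
the origin along `p x`. -/
def strength (B : LieBasis G n) (p : (Fin d → ℤ) → List (Fin d × Bool)) (V : LinkZ d → G)
    (a : Fin n) (j k : Fin d) (x : Fin d → ℤ) : ℝ :=
  (trace ((B.X a)ᴴ * mt (hol V 0 (p x) * plaqZ V x j k * (hol V 0 (p x))⁻¹))).re

/-- The field strength with the lattice spacing `1/q`, tested with `φ`: the sum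
`q ^ (-d) ∑_x ½ ∑_{jk} ∑_a φ^a_{jk}(x/q) (q ^ (d/2) √β strength^a_{jk}(x))`. -/
def field (B : LieBasis G n) (p : (Fin d → ℤ) → List (Fin d × Bool)) (β : ℝ) (q : ℕ)
    (φ : Fin n → Fin d → Fin d → (Fin d → ℝ) → ℝ) (V : LinkZ d → G) : ℝ :=
  Real.sqrt β / Real.sqrt ((q : ℝ) ^ d) * ∑' x : Fin d → ℤ,
    1 / 2 * ∑ j, ∑ k, ∑ a, φ a j k (fun i => (x i : ℝ) / q) * strength B p V a j k x

end

section

variable {d : ℕ}

/-- Test functions: smooth two-forms on `ℝ^d` with compact support. -/
structure IsTwoForm (φ : Fin d → Fin d → (Fin d → ℝ) → ℝ) : Prop where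
  smooth : ∀ j k, ContDiff ℝ ∞ (φ j k)
  supp : ∀ j k, HasCompactSupport (φ j k)
  asy : ∀ j k x, φ j k x = -φ k j x

/-- Smooth one-forms on `ℝ^d` with compact support. -/
structure IsOneForm (α : Fin d → (Fin d → ℝ) → ℝ) : Prop where
  smooth : ∀ k, ContDiff ℝ ∞ (α k)
  supp : ∀ k, HasCompactSupport (α k)

/-- The partial derivative in direction `j`. -/
def pd (j : Fin d) (f : (Fin d → ℝ) → ℝ) (x : Fin d → ℝ) : ℝ := fderiv ℝ f x (Pi.single j 1)

/-- The exterior derivative of a one-form. -/
def dd (α : Fin d → (Fin d → ℝ) → ℝ) : Fin d → Fin d → (Fin d → ℝ) → ℝ :=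
  fun j k x => pd j (α k) x - pd k (α j) x

/-- The `L²` scalar product of two-forms. -/
def pair (φ ψ : Fin d → Fin d → (Fin d → ℝ) → ℝ) : ℝ :=
  1 / 2 * ∑ j, ∑ k, ∫ x, φ j k x * ψ j k x

/-- The covariance of the field strength of the free Maxwell theory on `ℝ^d`: the squared `L²` norm
of the orthogonal projection of `φ` to the closure of the exact forms `dα`, as the supremum of
`2 ⟨φ, dα⟩ - ⟨dα, dα⟩`. -/
def var (φ : Fin d → Fin d → (Fin d → ℝ) → ℝ) : ℝ :=
  sSup {v | ∃ α, IsOneForm α ∧ v = 2 * pair φ (dd α) - pair (dd α) (dd α)}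

end

open Pool.Agent.H906R3 Pool.Agent.W793

variable {N n d l : ℕ} {G : Subgroup (UU N)}

/-- The same data in the form used by the helper files. -/
def fm (B : LieBasis G n) : YM.Frame G n where
  X := B.X
  ex := B.ex
  ex_eq := B.ex_eq
  orth := B.orth
  full := B.full

/-- The abstract data. -/
def ld (B : LieBasis G n) : YM.LD G N n := (fm B).toLD

lemma action_eq [NeZero l] (B : LieBasis G n) (U : Link d l → G) :
    action U = YM.act (ld B) U := rfl

/-- A Haar probability measure is invariant under right multiplications. -/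
lemma right_inv {H : Type*} [Group H] [TopologicalSpace H] [IsTopologicalGroup H]
    [CompactSpace H] [MeasurableSpace H] [BorelSpace H] (μ : Measure H)
    [IsProbabilityMeasure μ] [μ.IsHaarMeasure] : μ.IsMulRightInvariant := by
  refine ⟨fun g => ?_⟩
  have h1 : IsProbabilityMeasure (Measure.map (fun x => x * g) μ) :=
    Measure.isProbabilityMeasure_map (measurable_mul_const g).aemeasurable
  exact Measure.isHaarMeasure_eq_of_isProbabilityMeasure _ _

/-- A Haar probability measure is invariant under the inversion. -/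
lemma inv_inv' {H : Type*} [Group H] [TopologicalSpace H] [IsTopologicalGroup H]
    [CompactSpace H] [MeasurableSpace H] [BorelSpace H] (μ : Measure H)
    [IsProbabilityMeasure μ] [μ.IsHaarMeasure] : μ.IsInvInvariant := by
  have hr := right_inv μ
  refine ⟨?_⟩
  have h1 : IsProbabilityMeasure μ.inv :=
    Measure.isProbabilityMeasure_map measurable_inv.aemeasurable
  have h2 : μ.inv.IsMulLeftInvariant := inferInstance
  have h3 : μ.inv.IsHaarMeasure :=
    Measure.isHaarMeasure_of_isCompact_nonempty_interior μ.inv Set.univ isCompact_univ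
      (by simp) (by simp) (by simp)
  exact Measure.isHaarMeasure_eq_of_isProbabilityMeasure _ _

lemma hol_eq (V : LinkZ d → G) (x : Fin d → ℤ) (p : List (Fin d × Bool)) :
    hol V x p = YM.hol V x p := by
  induction p generalizing x with
  | nil => rfl
  | cons s p ih =>
    obtain ⟨i, s⟩ := s
    cases s with
    | true => simp only [hol, YM.hol, ih]
    | false => simp only [hol, YM.hol, ih]

lemma dest_eq (x : Fin d → ℤ) (p : List (Fin d × Bool)) : dest x p = YM.dest x p := by
  induction p generalizing x with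
  | nil => rfl
  | cons s p ih =>
    obtain ⟨i, s⟩ := s
    cases s with
    | true => simp only [dest, YM.dest, ih]
    | false => simp only [dest, YM.dest, ih]

lemma two_eq {φ : Fin d → Fin d → (Fin d → ℝ) → ℝ} (h : IsTwoForm φ) : YM.IsTwo φ :=
  ⟨h.smooth, h.supp, h.asy⟩

lemma var_eq (φ : Fin d → Fin d → (Fin d → ℝ) → ℝ) : var φ = YM.var φ := by
  unfold var YM.var
  congr 1
  ext v
  constructor
  · rintro ⟨α, hα, h⟩
    exact ⟨α, ⟨hα.smooth, hα.supp⟩, h⟩
  · rintro ⟨α, hα, h⟩
    exact ⟨α, ⟨hα.smooth, hα.supp⟩, h⟩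

lemma strength_eq (B : LieBasis G n) (p : (Fin d → ℤ) → List (Fin d × Bool))
    (V : LinkZ d → G) (a : Fin n) (j k : Fin d) (x : Fin d → ℤ) :
    strength B p V a j k x = -YM.fi (ld B) a
      (YM.hol V 0 (p x) * YM.plz V x j k * (YM.hol V 0 (p x))⁻¹) := by
  unfold strength YM.fi
  rw [YM.trX_apply, hol_eq]
  have h1 : (B.X a)ᴴ = -B.X a := (fm B).skewX a
  rw [h1, neg_mul, trace_neg, Complex.neg_re]
  rfl

lemma field_eq (B : LieBasis G n) (p : (Fin d → ℤ) → List (Fin d × Bool)) (β : ℝ) (q : ℕ)
    (φ : Fin n → Fin d → Fin d → (Fin d → ℝ) → ℝ) (V : LinkZ d → G) :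
    field B p β q φ V = -(Real.sqrt β * YM.FZs (ld B) φ p q V) := by
  unfold field YM.FZs
  simp only [strength_eq, mul_neg, Finset.sum_neg_distrib, tsum_neg]
  ring

lemma field_cont [CompactSpace G] [SecondCountableTopology G] [MeasurableSpace G] [BorelSpace G]
    (B : LieBasis G n) (p : (Fin d → ℤ) → List (Fin d × Bool)) (β : ℝ) {q : ℕ}
    (hq : 1 ≤ q) {φ : Fin n → Fin d → Fin d → (Fin d → ℝ) → ℝ} (hφ : ∀ a, IsTwoForm (φ a)) :
    Continuous (field B p β q φ) := by
  have h1 : field B p β q φ = fun V => -(Real.sqrt β * YM.FZs (ld B) φ p q V) :=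
    funext fun V => field_eq B p β q φ V
  rw [h1]
  exact (continuous_const.mul (YM.FZs_cont (L := ld B) p hq fun a => two_eq (hφ a))).neg

section bridge

variable [CompactSpace G] [SecondCountableTopology G] [MeasurableSpace G] [BorelSpace G]
  (μ : Measure G) [IsProbabilityMeasure μ] [μ.IsHaarMeasure] (B : LieBasis G n)

lemma expect_eq [NeZero l] (β : ℝ) (F : (LinkZ d → G) → ℝ) : expect l μ β F =
    YM.EX μ (ld B) β (fun U : YM.Ed d l → G => F (YM.lf U)) := by
  unfold expect YM.EX YM.Zt
  simp only [one_mul]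
  rfl

include B in
lemma action_cont [NeZero l] : Continuous (action : (Link d l → G) → ℝ) :=
  YM.act_cont (L := ld B)

include B in
/-- existence of infinite volume limits -/
lemma exists_infVol (β : ℝ) : ∃ ν : Measure (LinkZ d → G), IsInfVol μ β ν := by
  have hP : ∀ j : ℕ, ∃ P : ProbabilityMeasure (LinkZ d → G),
      ∀ F : (LinkZ d → G) → ℝ, Continuous F →
        ∫ V, F V ∂(P : Measure (LinkZ d → G)) = expect (2 * (j + 1)) μ β F := by
    intro j
    have hper : Continuous (per : (Link d (2 * (j + 1)) → G) → LinkZ d → G) :=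
      continuous_pi fun e => continuous_apply _
    have hexp : Continuous fun U : Link d (2 * (j + 1)) → G =>
        Real.exp (-(β * action U)) :=
      Real.continuous_exp.comp (continuous_const.mul (action_cont B)).neg
    have hint : Integrable (fun U : Link d (2 * (j + 1)) → G =>
        Real.exp (-(β * action U))) (Measure.pi fun _ => μ) :=
      hexp.integrable_of_hasCompactSupport (HasCompactSupport.of_compactSpace _)
    have h1 := isProbabilityMeasure_tilted (f := fun U : Link d (2 * (j + 1)) → G =>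
      -(β * action U)) hint
    refine ⟨⟨((Measure.pi fun _ => μ).tilted fun U : Link d (2 * (j + 1)) → G =>
      -(β * action U)).map per, Measure.isProbabilityMeasure_map hper.aemeasurable⟩,
      fun F hF => ?_⟩
    show ∫ V, F V ∂(((Measure.pi fun _ => μ).tilted fun U : Link d (2 * (j + 1)) → G =>
      -(β * action U)).map per) = _
    rw [integral_map hper.aemeasurable hF.aestronglyMeasurable, integral_tilted]
    unfold expect
    rw [← integral_div]
    refine integral_congr_ae (Filter.Eventually.of_forall fun U => ?_)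
    simp only [smul_eq_mul]
    ring
  choose P hP using hP
  obtain ⟨ν, s, hs, hlim⟩ := CompactSpace.tendsto_subseq P
  refine ⟨ν, ⟨inferInstance, s, hs.tendsto_atTop, fun F hF => ?_⟩⟩
  have h1 := (ProbabilityMeasure.tendsto_iff_forall_integral_tendsto.1 hlim)
    (BoundedContinuousFunction.mkOfCompact ⟨F, hF⟩)
  simp only [Function.comp_apply, BoundedContinuousFunction.mkOfCompact_apply,
    ContinuousMap.coe_mk] at h1
  simpa only [hP _ F hF] using h1

end bridge

theorem result {N n d : ℕ} (hd : 3 ≤ d) (G : Subgroup (UU N)) (hG : IsClosed (G : Set (UU N)))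
    [MeasurableSpace G] [BorelSpace G] (μ : Measure G) [IsProbabilityMeasure μ] [μ.IsHaarMeasure]
    (B : LieBasis G n) (Λ : ℕ) (φ : Fin n → Fin d → Fin d → (Fin d → ℝ) → ℝ)
    (hφ : ∀ a, IsTwoForm (φ a)) (ε : ℝ) (hε : 0 < ε) :
    ∃ q₀ : ℕ, ∀ q : ℕ, q₀ ≤ q → ∀ β : ℝ, (q : ℝ) ^ (60 * d + 88) ≤ β →
      (∀ p : (Fin d → ℤ) → List (Fin d × Bool), IsTransport Λ p →
        (∀ (l : ℕ) [NeZero l], Even l → q ^ 8 ≤ l →
          |expect l μ β (fun V => Real.cos (field B p β q φ V)) -
            Real.exp (-(1 / 2 * ∑ a, var (φ a)))| ≤ ε ∧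
          |expect l μ β (fun V => Real.sin (field B p β q φ V))| ≤ ε) ∧
        ∀ ν : Measure (LinkZ d → G), IsInfVol μ β ν →
          |(∫ V, Real.cos (field B p β q φ V) ∂ν) - Real.exp (-(1 / 2 * ∑ a, var (φ a)))| ≤ ε ∧
          |∫ V, Real.sin (field B p β q φ V) ∂ν| ≤ ε) ∧
      ∃ ν : Measure (LinkZ d → G), IsInfVol μ β ν := by
  have : CompactSpace G := by
    have h1 : IsCompact (G : Set (UU N)) := hG.isCompact
    exact isCompact_iff_compactSpace.1 h1
  have h00 : SecondCountableTopology (UU N) := TopologicalSpace.Subtype.secondCountableTopology _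
  have : SecondCountableTopology G := TopologicalSpace.Subtype.secondCountableTopology _
  have := right_inv μ
  have := inv_inv' μ
  have hmain := YM.gauss_lim μ (L := ld B) hd Λ (fun a => two_eq (hφ a)) hε
  obtain ⟨q₀, hq₀⟩ := Filter.eventually_atTop.1 hmain
  refine ⟨max q₀ 1, fun q hq β hβ => ⟨fun p hp => ?_, exists_infVol μ B β⟩⟩
  have hq1 : 1 ≤ q := (le_max_right _ _).trans hq
  have hq1' : (1 : ℝ) ≤ q := by exact_mod_cast hq1
  have hβ0 : 0 ≤ β := le_trans (by positivity) hβ
  obtain ⟨b, hb⟩ : ∃ b : ℝ, b = Real.sqrt (Real.sqrt β) := ⟨_, rfl⟩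
  have hb2 : b ^ 2 = Real.sqrt β := by rw [hb, Real.sq_sqrt (Real.sqrt_nonneg _)]
  have hb4 : b ^ 4 = β := by
    have : b ^ 4 = (b ^ 2) ^ 2 := by ring
    rw [this, hb2, Real.sq_sqrt hβ0]
  have hbq : (q : ℝ) ^ (15 * d + 22) ≤ b := by
    rw [← hb4] at hβ
    have e1 : (q : ℝ) ^ (60 * d + 88) = ((q : ℝ) ^ (15 * d + 22)) ^ 4 := by
      rw [← pow_mul]; congr 1; ring
    rw [e1] at hβ
    exact le_of_pow_le_pow_left₀ (by norm_num) (by rw [hb]; exact Real.sqrt_nonneg _) hβ
  have hvar : 1 / 2 * ∑ a, var (φ a) = (∑ a, YM.var (φ a)) / 2 := by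
    simp only [var_eq]; ring
  rw [hvar]
  have hfin : ∀ (l : ℕ) [NeZero l], Even l → q ^ 8 ≤ l →
      |expect l μ β (fun V => Real.cos (field B p β q φ V)) -
        Real.exp (-((∑ a, YM.var (φ a)) / 2))| ≤ ε ∧
      |expect l μ β (fun V => Real.sin (field B p β q φ V))| ≤ ε := by
    intro l _ hl hql
    obtain ⟨m, rfl⟩ := even_iff_two_dvd.1 hl
    haveI hm0 : NeZero m := ⟨by rintro rfl; exact absurd hql (by
      have : 0 < q ^ 8 := by positivity
      omega)⟩
    obtain ⟨h1, h2⟩ := hq₀ q ((le_max_left _ _).trans hq) b hbq m hql p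
      (fun x => by rw [← dest_eq]; exact hp.dest x) hp.length
    rw [hb4, hb2] at h1 h2
    rw [expect_eq μ B, expect_eq μ B]
    simp only [field_eq, Real.cos_neg, Real.sin_neg]
    refine ⟨h1, ?_⟩
    rw [YM.EX_neg, abs_neg]
    exact h2
  refine ⟨hfin, fun ν hν => ?_⟩
  obtain ⟨s, hs, hlim⟩ := hν.lim
  have hfc := field_cont B p β hq1 hφ
  have hev : ∀ᶠ j in atTop, q ^ 8 ≤ 2 * (s j + 1) := by
    filter_upwards [hs.eventually_ge_atTop (q ^ 8)] with j hj
    omega
  constructor
  · refine le_of_tendsto (((hlim _ (Real.continuous_cos.comp hfc)).sub_const _).abs) ?_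
    filter_upwards [hev] with j hj
    exact (hfin (2 * (s j + 1)) (even_two_mul _) hj).1
  · refine le_of_tendsto ((hlim _ (Real.continuous_sin.comp hfc)).abs) ?_
    filter_upwards [hev] with j hj
    exact (hfin (2 * (s j + 1)) (even_two_mul _) hj).2

end

end Pool.Agent.Results.MP_7f377f_mp.GaussianLimit
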